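import Mathlib

set_option autoImplicit false

namespace CyV

open Polynomial

/-- A rational valued additive valuation on the nonzero elements of a field. -/
structure Ord (Ω : Type*) [Field Ω] where
  v : Ω → ℚ
  v_mul : ∀ x y, x ≠ 0 → y ≠ 0 → v (x * y) = v x + v y
  v_add : ∀ x y, x ≠ 0 → y ≠ 0 → x + y ≠ 0 → min (v x) (v y) ≤ v (x + y)

namespace Ord

variable {Ω : Type*} [Field Ω] (o : Ord Ω)

/-- `x = 0` or the order of `x` is at least `r`. -/
def Ge (r : ℚ) (x : Ω) : Prop := x = 0 ∨ r ≤ o.v x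

/-- `x = 0` or the order of `x` exceeds `r`. -/
def Gt (r : ℚ) (x : Ω) : Prop := x = 0 ∨ r < o.v x

@[simp] theorem v_one : o.v 1 = 0 := by
  have h := o.v_mul 1 1 one_ne_zero one_ne_zero
  rw [one_mul] at h; linarith

theorem v_inv (x : Ω) (hx : x ≠ 0) : o.v x⁻¹ = - o.v x := by
  have h := o.v_mul x x⁻¹ hx (inv_ne_zero hx)
  rw [mul_inv_cancel₀ hx, v_one] at h; linarith

theorem v_div (x y : Ω) (hx : x ≠ 0) (hy : y ≠ 0) : o.v (x / y) = o.v x - o.v y := by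
  rw [div_eq_mul_inv, o.v_mul x _ hx (inv_ne_zero hy), o.v_inv y hy]; ring

theorem v_pow (x : Ω) (hx : x ≠ 0) (n : ℕ) : o.v (x ^ n) = n * o.v x := by
  induction n with
  | zero => simp
  | succ n ih => rw [pow_succ, o.v_mul _ _ (pow_ne_zero _ hx) hx, ih]; push_cast; ring

theorem v_zpow (x : Ω) (hx : x ≠ 0) (n : ℤ) : o.v (x ^ n) = n * o.v x := by
  cases n with
  | ofNat n => simpa using o.v_pow x hx n
  | negSucc n =>
    rw [zpow_negSucc, o.v_inv _ (pow_ne_zero _ hx), o.v_pow x hx]; push_cast; ring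

theorem v_of_pow_eq_one {x : Ω} {n : ℕ} (hn : n ≠ 0) (h : x ^ n = 1) : o.v x = 0 := by
  have hx : x ≠ 0 := by rintro rfl; simp [hn] at h
  have h1 := o.v_pow x hx n
  rw [h, v_one] at h1
  have : (n : ℚ) ≠ 0 := by exact_mod_cast hn
  exact (mul_eq_zero.mp h1.symm).resolve_left this

@[simp] theorem v_neg (x : Ω) : o.v (-x) = o.v x := by
  by_cases hx : x = 0
  · simp [hx]
  have h1 : o.v (-1) = 0 := o.v_of_pow_eq_one two_ne_zero (by ring)
  rw [neg_eq_neg_one_mul, o.v_mul _ _ (by simp) hx, h1, zero_add]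

theorem v_prod {ι : Type*} (s : Finset ι) (f : ι → Ω) (h : ∀ i ∈ s, f i ≠ 0) :
    o.v (∏ i ∈ s, f i) = ∑ i ∈ s, o.v (f i) := by
  classical
  induction s using Finset.induction_on with
  | empty => simp
  | insert a s ha ih =>
    rw [Finset.prod_insert ha, Finset.sum_insert ha, o.v_mul _ _ (h a (by simp))
      (Finset.prod_ne_zero_iff.mpr fun i hi => h i (by simp [hi])),
      ih fun i hi => h i (by simp [hi])]

variable {o}

theorem ge_zero (r : ℚ) : o.Ge r 0 := Or.inl rfl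
theorem gt_zero (r : ℚ) : o.Gt r 0 := Or.inl rfl
theorem ge_self (x : Ω) : o.Ge (o.v x) x := Or.inr le_rfl
theorem ge_one : o.Ge 0 1 := Or.inr (by simp)
theorem Ge.le {r : ℚ} {x : Ω} (h : o.Ge r x) (hx : x ≠ 0) : r ≤ o.v x := h.resolve_left hx
theorem Gt.lt {r : ℚ} {x : Ω} (h : o.Gt r x) (hx : x ≠ 0) : r < o.v x := h.resolve_left hx
theorem Gt.ge {r : ℚ} {x : Ω} (h : o.Gt r x) : o.Ge r x := h.imp id le_of_lt
theorem Ge.mono {r s : ℚ} {x : Ω} (h : o.Ge r x) (hs : s ≤ r) : o.Ge s x :=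
  h.imp id fun h => hs.trans h
theorem Gt.mono {r s : ℚ} {x : Ω} (h : o.Gt r x) (hs : s ≤ r) : o.Gt s x :=
  h.imp id fun h => hs.trans_lt h
theorem Ge.gt {r s : ℚ} {x : Ω} (h : o.Ge r x) (hs : s < r) : o.Gt s x :=
  h.imp id fun h => hs.trans_le h
theorem Ge.neg {r : ℚ} {x : Ω} (h : o.Ge r x) : o.Ge r (-x) := by
  simpa [Ge] using h
theorem Gt.neg {r : ℚ} {x : Ω} (h : o.Gt r x) : o.Gt r (-x) := by
  simpa [Gt] using h

theorem Ge.add {r : ℚ} {x y : Ω} (hx : o.Ge r x) (hy : o.Ge r y) : o.Ge r (x + y) := by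
  by_cases h0 : x = 0
  · simpa [h0] using hy
  by_cases h1 : y = 0
  · simpa [h1] using hx
  by_cases h2 : x + y = 0
  · exact Or.inl h2
  exact Or.inr ((le_min (hx.le h0) (hy.le h1)).trans (o.v_add x y h0 h1 h2))

theorem Gt.add {r : ℚ} {x y : Ω} (hx : o.Gt r x) (hy : o.Gt r y) : o.Gt r (x + y) := by
  by_cases h0 : x = 0
  · simpa [h0] using hy
  by_cases h1 : y = 0
  · simpa [h1] using hx
  by_cases h2 : x + y = 0
  · exact Or.inl h2
  exact Or.inr ((lt_min (hx.lt h0) (hy.lt h1)).trans_le (o.v_add x y h0 h1 h2))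

theorem Ge.sub {r : ℚ} {x y : Ω} (hx : o.Ge r x) (hy : o.Ge r y) : o.Ge r (x - y) := by
  rw [sub_eq_add_neg]; exact hx.add hy.neg
theorem Gt.sub {r : ℚ} {x y : Ω} (hx : o.Gt r x) (hy : o.Gt r y) : o.Gt r (x - y) := by
  rw [sub_eq_add_neg]; exact hx.add hy.neg

theorem Ge.mul {r s : ℚ} {x y : Ω} (hx : o.Ge r x) (hy : o.Ge s y) : o.Ge (r + s) (x * y) := by
  by_cases h0 : x = 0
  · simp [h0, ge_zero]
  by_cases h1 : y = 0
  · simp [h1, ge_zero]
  exact Or.inr (by rw [o.v_mul x y h0 h1]; exact add_le_add (hx.le h0) (hy.le h1))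

theorem Gt.mul {r s : ℚ} {x y : Ω} (hx : o.Gt r x) (hy : o.Ge s y) : o.Gt (r + s) (x * y) := by
  by_cases h0 : x = 0
  · simp [h0, gt_zero]
  by_cases h1 : y = 0
  · simp [h1, gt_zero]
  exact Or.inr (by rw [o.v_mul x y h0 h1]; exact add_lt_add_of_lt_of_le (hx.lt h0) (hy.le h1))

theorem Ge.mul_gt {r s : ℚ} {x y : Ω} (hx : o.Ge r x) (hy : o.Gt s y) :
    o.Gt (r + s) (x * y) := by
  rw [mul_comm, add_comm]; exact hy.mul hx

theorem Ge.mul₀ {x y : Ω} (hx : o.Ge 0 x) (hy : o.Ge 0 y) : o.Ge 0 (x * y) := by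
  simpa using hx.mul hy
theorem Gt.mul₀ {x y : Ω} (hx : o.Gt 0 x) (hy : o.Ge 0 y) : o.Gt 0 (x * y) := by
  simpa using hx.mul hy
theorem Ge.mul_gt₀ {x y : Ω} (hx : o.Ge 0 x) (hy : o.Gt 0 y) : o.Gt 0 (x * y) := by
  simpa using hx.mul_gt hy

theorem Ge.pow {r : ℚ} {x : Ω} (hx : o.Ge r x) (n : ℕ) : o.Ge (n * r) (x ^ n) := by
  induction n with
  | zero => simpa using ge_one
  | succ n ih =>
    have := ih.mul hx
    rw [pow_succ]; push_cast; rwa [add_mul, one_mul]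

theorem Ge.pow₀ {x : Ω} (hx : o.Ge 0 x) (n : ℕ) : o.Ge 0 (x ^ n) := by
  simpa using hx.pow n

theorem Ge.sum {ι : Type*} {r : ℚ} {s : Finset ι} {f : ι → Ω} (h : ∀ i ∈ s, o.Ge r (f i)) :
    o.Ge r (∑ i ∈ s, f i) :=
  Finset.sum_induction f (o.Ge r) (fun _ _ => Ge.add) (ge_zero r) h

theorem Gt.sum {ι : Type*} {r : ℚ} {s : Finset ι} {f : ι → Ω} (h : ∀ i ∈ s, o.Gt r (f i)) :
    o.Gt r (∑ i ∈ s, f i) :=
  Finset.sum_induction f (o.Gt r) (fun _ _ => Gt.add) (gt_zero r) h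

theorem Ge.prod₀ {ι : Type*} {s : Finset ι} {f : ι → Ω} (h : ∀ i ∈ s, o.Ge 0 (f i)) :
    o.Ge 0 (∏ i ∈ s, f i) :=
  Finset.prod_induction f (o.Ge 0) (fun _ _ => Ge.mul₀) ge_one h

theorem ge_natCast (n : ℕ) : o.Ge 0 (n : Ω) := by
  induction n with
  | zero => simpa using ge_zero 0
  | succ n ih => push_cast; exact ih.add ge_one

theorem ge_intCast (n : ℤ) : o.Ge 0 (n : Ω) := by
  cases n with
  | ofNat n => simpa using ge_natCast n
  | negSucc n => rw [Int.cast_negSucc]; exact (ge_natCast _).neg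

theorem not_gt_self {x : Ω} (hx : x ≠ 0) : ¬ o.Gt (o.v x) x := fun h => lt_irrefl _ (h.lt hx)

theorem ge_div_iff {r : ℚ} {x y : Ω} (hy : y ≠ 0) : o.Ge r (x / y) ↔ o.Ge (r + o.v y) x := by
  by_cases hx : x = 0
  · simp [hx, ge_zero]
  simp only [Ge, div_eq_zero_iff, hx, hy, false_or, o.v_div x y hx hy]
  constructor <;> intro h <;> linarith

theorem gt_div_iff {r : ℚ} {x y : Ω} (hy : y ≠ 0) : o.Gt r (x / y) ↔ o.Gt (r + o.v y) x := by
  by_cases hx : x = 0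
  · simp [hx, gt_zero]
  simp only [Gt, div_eq_zero_iff, hx, hy, false_or, o.v_div x y hx hy]
  constructor <;> intro h <;> linarith

/-- adding a term of larger order does not change the order -/
theorem add_of_gt {x y : Ω} (hx : x ≠ 0) (hy : o.Gt (o.v x) y) :
    x + y ≠ 0 ∧ o.v (x + y) = o.v x := by
  have h1 : ¬ o.Gt (o.v x) (x + y) := fun h => not_gt_self hx (by simpa using h.sub hy)
  have h2 : o.Ge (o.v x) (x + y) := (ge_self x).add hy.ge
  have h3 : x + y ≠ 0 := fun h => h1 (Or.inl h)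
  exact ⟨h3, le_antisymm (not_lt.mp fun h => h1 (Or.inr h)) (h2.le h3)⟩

theorem eq_zero_of_ge_not_gt {x : Ω} (h1 : o.Ge 0 x) (h2 : ¬ o.Gt 0 x) : x ≠ 0 ∧ o.v x = 0 := by
  have h3 : x ≠ 0 := fun h => h2 (Or.inl h)
  exact ⟨h3, le_antisymm (not_lt.mp fun h => h2 (Or.inr h)) (h1.le h3)⟩

/-- in a vanishing sum with a nonzero term two nonzero terms have the same order -/
theorem two_terms {ι : Type*} (s : Finset ι) (f : ι → Ω) (h : ∑ i ∈ s, f i = 0)
    (h0 : ∃ i ∈ s, f i ≠ 0) :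
    ∃ i ∈ s, ∃ j ∈ s, i ≠ j ∧ f i ≠ 0 ∧ f j ≠ 0 ∧ o.v (f i) = o.v (f j) := by
  classical
  obtain ⟨i, hi, hmin⟩ := (s.filter fun i => f i ≠ 0).exists_min_image (fun i => o.v (f i))
    (by obtain ⟨i, h1, h2⟩ := h0; exact ⟨i, by simp [h1, h2]⟩)
  rw [Finset.mem_filter] at hi
  by_contra hc
  push Not at hc
  have h1 : o.Gt (o.v (f i)) (∑ j ∈ s.erase i, f j) := by
    refine Gt.sum fun j hj => ?_
    rw [Finset.mem_erase] at hj
    by_cases hj0 : f j = 0
    · exact Or.inl hj0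
    exact Or.inr (lt_of_le_of_ne (hmin j (by simp [hj.2, hj0]))
      (hc i hi.1 j hj.2 hj.1.symm hi.2 hj0))
  rw [← Finset.add_sum_erase s f hi.1] at h
  exact (add_of_gt hi.2 h1).1 h

variable (o)

/-- pull back along a field embedding -/
def comap {Ω' : Type*} [Field Ω'] (φ : Ω' →+* Ω) : Ord Ω' where
  v x := o.v (φ x)
  v_mul x y hx hy := by
    rw [map_mul, o.v_mul _ _ ((map_ne_zero φ).mpr hx) ((map_ne_zero φ).mpr hy)]
  v_add x y hx hy h := by
    rw [map_add]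
    exact o.v_add _ _ ((map_ne_zero φ).mpr hx) ((map_ne_zero φ).mpr hy)
      (by rw [← map_add]; exact (map_ne_zero φ).mpr h)

@[simp] theorem comap_v {Ω' : Type*} [Field Ω'] (φ : Ω' →+* Ω) (x : Ω') :
    (o.comap φ).v x = o.v (φ x) := rfl

/-- rescale by a positive rational -/
def scale (c : ℚ) (hc : 0 < c) : Ord Ω where
  v x := c * o.v x
  v_mul x y hx hy := by rw [o.v_mul x y hx hy]; ring
  v_add x y hx hy h := by
    rw [← mul_min_of_nonneg _ _ hc.le]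
    exact mul_le_mul_of_nonneg_left (o.v_add x y hx hy h) hc.le

@[simp] theorem scale_v (c : ℚ) (hc : 0 < c) (x : Ω) : (o.scale c hc).v x = c * o.v x := rfl

section Alg

variable {K : Type*} [Field K] [Algebra K Ω]

/-- some bounded power of an algebraic element has the order of an element of the base field -/
theorem exists_pow_v {x : Ω} (hx : x ≠ 0) (P : K[X]) (hP : P ≠ 0) (h : aeval x P = 0) :
    ∃ n : ℕ, 0 < n ∧ n ≤ P.natDegree ∧ ∃ a : K, a ≠ 0 ∧ n * o.v x = o.v (algebraMap K Ω a) := by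
  rw [aeval_eq_sum_range] at h
  simp only [Algebra.smul_def] at h
  obtain ⟨i, hi, j, hj, hij, h1, h2, h3⟩ := two_terms (o := o) _ _ h
    ⟨P.natDegree, by simp, mul_ne_zero (by simpa using hP) (pow_ne_zero _ hx)⟩
  rw [Finset.mem_range] at hi hj
  have a1 := left_ne_zero_of_mul h1
  have a2 := left_ne_zero_of_mul h2
  rw [o.v_mul _ _ a1 (pow_ne_zero _ hx), o.v_mul _ _ a2 (pow_ne_zero _ hx), o.v_pow x hx,
    o.v_pow x hx] at h3
  have b1 : P.coeff i ≠ 0 := fun h => a1 (by simp [h])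
  have b2 : P.coeff j ≠ 0 := fun h => a2 (by simp [h])
  rcases lt_or_gt_of_ne hij with hlt | hlt
  · refine ⟨j - i, by omega, by omega, P.coeff i / P.coeff j, div_ne_zero b1 b2, ?_⟩
    rw [map_div₀, o.v_div _ _ a1 a2, Nat.cast_sub hlt.le]; linarith
  · refine ⟨i - j, by omega, by omega, P.coeff j / P.coeff i, div_ne_zero b2 b1, ?_⟩
    rw [map_div₀, o.v_div _ _ a2 a1, Nat.cast_sub hlt.le]; linarith

/-- an order function trivial on `K` is trivial on elements algebraic over `K` -/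
theorem v_eq_zero_of_isAlgebraic (hK : ∀ a : K, a ≠ 0 → o.v (algebraMap K Ω a) = 0) {x : Ω}
    (hx : x ≠ 0) (h : IsAlgebraic K x) : o.v x = 0 := by
  obtain ⟨P, hP, h⟩ := h
  obtain ⟨n, hn, -, a, ha, h⟩ := o.exists_pow_v hx P hP h
  rw [hK a ha] at h
  have : (n : ℚ) ≠ 0 := by exact_mod_cast hn.ne'
  exact (mul_eq_zero.mp h).resolve_left this

end Alg

/-- elements integral over a ring of nonnegative order have nonnegative order -/
theorem ge_of_isIntegral {R : Type*} [CommRing R] [Algebra R Ω]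
    (hR : ∀ a : R, o.Ge 0 (algebraMap R Ω a)) {x : Ω} (h : IsIntegral R x) : o.Ge 0 x := by
  by_contra hc
  have hx : x ≠ 0 := fun h => hc (Or.inl h)
  have hv : o.v x < 0 := not_le.mp fun h => hc (Or.inr h)
  obtain ⟨P, hP, h⟩ := h
  rw [← aeval_def, hP.as_sum, map_add, map_pow, aeval_X, map_sum] at h
  refine (add_of_gt (o := o) (pow_ne_zero _ hx) (Gt.sum fun i hi => ?_)).1 h
  rw [Finset.mem_range] at hi
  rw [map_mul, aeval_C, map_pow, aeval_X, o.v_pow x hx]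
  have := (hR (P.coeff i)).mul ((ge_self (o := o) x).pow i)
  refine this.gt ?_
  have : (i : ℚ) < P.natDegree := by exact_mod_cast hi
  nlinarith

end Ord

end CyV
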