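import Mathlib

namespace Pool.Agent.MP_e2821c_ag.Cy

open Polynomial
open scoped IntermediateField

universe u

noncomputable section

variable {k : Type u} [Field k]

theorem swap_coeff_luroth (M : k[X][X]) (i j : ℕ) :
    ((Bivariate.swap M).coeff i).coeff j = (M.coeff j).coeff i := by
  induction M using Polynomial.induction_on' with
  | add p q hp hq => simp only [map_add, coeff_add, hp, hq]
  | monomial n f =>
    induction f using Polynomial.induction_on' with
    | add p q hp hq => simp only [map_add, coeff_add, hp, hq]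
    | monomial l r =>
      rw [Bivariate.swap_monomial_monomial]
      simp only [coeff_monomial]
      split_ifs <;> simp_all [coeff_monomial]

theorem swap_deg_luroth (M : k[X][X]) (j : ℕ) (h : M.coeff j ≠ 0) :
    (M.coeff j).natDegree ≤ (Bivariate.swap M).natDegree := by
  refine le_natDegree_of_ne_zero fun e => ?_
  have := swap_coeff_luroth M (M.coeff j).natDegree j
  rw [e, coeff_zero] at this
  exact leadingCoeff_ne_zero.2 h this.symm

theorem theta_deg_luroth (c : k[X]) :
    (c.map C - C c : k[X][X]).natDegree = c.natDegree := by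
  rw [natDegree_sub_C, natDegree_map_eq_of_injective C_injective]

theorem deg_eq_luroth [IsAlgClosed k] {M : k[X][X]} {j : ℕ} (hM : M.Monic)
    (hc : 0 < (M.coeff j).natDegree) (hd : M ∣ (M.coeff j).map C - C (M.coeff j)) :
    M.natDegree = (M.coeff j).natDegree := by
  obtain ⟨Q, hQ⟩ := hd
  have h1 := swap_deg_luroth M j (by rintro e; rw [e] at hc; simp at hc)
  generalize M.coeff j = c at *
  have hθ := theta_deg_luroth c
  have hθ0 : (c.map C - C c : k[X][X]) ≠ 0 := by
    intro e
    rw [e, natDegree_zero] at hθ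
    omega
  have hQ0 : Q ≠ 0 := by
    rintro rfl
    exact hθ0 (by rw [hQ, mul_zero])
  have hs : Bivariate.swap M * Bivariate.swap Q = -(c.map C - C c) := by
    rw [← map_mul, ← hQ, map_sub, Bivariate.swap_map_C, Bivariate.swap_C, neg_sub]
  have h2 := congrArg natDegree hs
  rw [natDegree_neg, hθ, natDegree_mul (by simpa using hM.ne_zero) (by simpa using hQ0)] at h2
  have h3 : (Bivariate.swap Q).natDegree = 0 := by omega
  obtain ⟨q, hq⟩ := natDegree_eq_zero.1 h3
  have h4 : Q = q.map C := by
    rw [← Bivariate.swap_swap_apply Q, ← hq, Bivariate.swap_C]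
  have h5 : q.natDegree = 0 := by
    by_contra hn
    obtain ⟨α, hα⟩ := IsAlgClosed.exists_root q
      (natDegree_pos_iff_degree_pos.1 (Nat.pos_of_ne_zero hn)).ne'
    have e := congrArg (eval (C α)) hQ
    rw [eval_mul, h4, eval_sub, eval_C, eval_map, eval_map, eval₂_at_apply, eval₂_at_apply,
      hα.eq_zero, map_zero, mul_zero, sub_eq_zero] at e
    rw [← e, natDegree_C] at hc
    omega
  rw [hQ, natDegree_mul hM.ne_zero hQ0, h4, natDegree_map_eq_of_injective C_injective] at hθ
  omega

theorem minpoly_dvd_luroth (E : IntermediateField k (RatFunc k)) {c : k[X]}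
    (hc : algebraMap k[X] (RatFunc k) c ∈ E) :
    (minpoly E (RatFunc.X : RatFunc k)).map (algebraMap E (RatFunc k)) ∣
      (c.map C - C c : k[X][X]).map (algebraMap k[X] (RatFunc k)) := by
  have h : aeval (RatFunc.X : RatFunc k) (c.map (algebraMap k E) - C (⟨_, hc⟩ : E)) = 0 := by
    rw [map_sub, aeval_map_algebraMap, RatFunc.aeval_X_left_eq_algebraMap, aeval_C]
    exact sub_self _
  have := Polynomial.map_dvd (algebraMap E (RatFunc k)) (minpoly.dvd E _ h)
  rw [Polynomial.map_sub, Polynomial.map_map, map_C] at this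
  rw [Polynomial.map_sub, Polynomial.map_map, map_C]
  exact this

theorem line_luroth [IsAlgClosed k] (E : IntermediateField k (RatFunc k)) {p : k[X]}
    (hp : 0 < p.natDegree) (hpE : algebraMap k[X] (RatFunc k) p ∈ E) :
    ∃ c : k[X], E = k⟮algebraMap k[X] (RatFunc k) c⟯ := by
  have inj := IsFractionRing.injective k[X] (RatFunc k)
  have hE : E ≠ ⊥ := by
    rintro rfl
    obtain ⟨a, ha⟩ := IntermediateField.mem_bot.1 hpE
    rw [RatFunc.algebraMap_eq_C, ← RatFunc.algebraMap_C] at ha
    rw [← inj ha, natDegree_C] at hp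
    omega
  have hint := (RatFunc.IntermediateField.isAlgebraic_X hE).isIntegral
  have hp0 : p ≠ 0 := by
    rintro rfl
    simp at hp
  have m1 : (p * C p.leadingCoeff⁻¹).Monic := monic_mul_leadingCoeff_inv hp0
  have d1 : (p * C p.leadingCoeff⁻¹).natDegree = p.natDegree := natDegree_mul_leadingCoeff_inv _ hp0
  have e1 : algebraMap k[X] (RatFunc k) (p * C p.leadingCoeff⁻¹) ∈ E := by
    rw [map_mul, RatFunc.algebraMap_C, ← RatFunc.algebraMap_eq_C]
    exact mul_mem hpE (E.algebraMap_mem _)
  generalize p * C p.leadingCoeff⁻¹ = p1 at m1 d1 e1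
  have m2 : (p1.map C - C p1 : k[X][X]).Monic := by
    refine (m1.map C).sub_of_left (degree_C_le.trans_lt ?_)
    rw [← natDegree_pos_iff_degree_pos, natDegree_map_eq_of_injective C_injective]
    omega
  obtain ⟨M, hM⟩ := IsIntegrallyClosed.eq_map_mul_C_of_dvd (RatFunc k) m2
    (minpoly_dvd_luroth E e1)
  have m3 := (minpoly.monic hint).map (algebraMap E (RatFunc k))
  rw [m3.leadingCoeff, C_1, mul_one] at hM
  have m4 : M.Monic := monic_of_injective inj (hM ▸ m3)
  obtain ⟨j, hj⟩ : ∃ j, 0 < (M.coeff j).natDegree := by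
    by_contra hn
    push Not at hn
    obtain ⟨q, hq⟩ : M ∈ lifts (C : k →+* k[X]) := by
      rw [lifts_iff_coeff_lifts]
      exact fun n => natDegree_eq_zero.1 (Nat.le_zero.1 (hn n))
    rw [coe_mapRingHom] at hq
    refine RatFunc.transcendental_X (K := k) ⟨q, ?_, ?_⟩
    · rintro rfl
      exact m4.ne_zero (by rw [← hq, Polynomial.map_zero])
    · have := minpoly.aeval E (RatFunc.X : RatFunc k)
      rw [aeval_def, eval₂_eq_eval_map, ← hM, ← hq, Polynomial.map_map,
        RatFunc.algebraMap_comp_C] at this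
      rwa [aeval_def, eval₂_eq_eval_map]
  have hc : algebraMap k[X] (RatFunc k) (M.coeff j) ∈ E := by
    rw [← coeff_map, hM, coeff_map]
    exact Subtype.prop _
  have hd := deg_eq_luroth m4 hj ((map_dvd_map _ inj m4).1 (hM ▸ minpoly_dvd_luroth E hc))
  refine ⟨M.coeff j, ?_⟩
  have f1 := RatFunc.finrank_eq_max_natDegree (algebraMap k[X] (RatFunc k) (M.coeff j))
  rw [RatFunc.num_algebraMap, RatFunc.denom_algebraMap, natDegree_one, Nat.max_zero] at f1
  have f2 : Module.finrank E (RatFunc k) = M.natDegree := by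
    rw [← (RatFunc.IntermediateField.adjoinXEquiv E).toLinearEquiv.finrank_eq,
      IntermediateField.adjoin.finrank hint, ← natDegree_map_eq_of_injective inj, hM,
      natDegree_map]
  have : FiniteDimensional k⟮algebraMap k[X] (RatFunc k) (M.coeff j)⟯ (RatFunc k) :=
    FiniteDimensional.of_finrank_pos (by omega)
  exact (IntermediateField.eq_of_le_of_finrank_le'
    (IntermediateField.adjoin_simple_le_iff.2 hc) (by omega)).symm

theorem poly_gen_luroth {R K : Type*} [CommRing R] [Algebra k R] [Field K] [Algebra R K]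
    [Algebra k K] [IsScalarTower k R K] (inj : Function.Injective (algebraMap R K))
    (hU : ∀ r : R, IsUnit r → ∃ c : k, r = algebraMap k R c) {T p : R}
    (h : algebraMap R K p ∈ k⟮algebraMap R K T⟯) : ∃ g : k[X], p = aeval T g := by
  obtain ⟨a, b, hab⟩ := (IntermediateField.mem_adjoin_simple_iff k _).1 h
  by_cases hb : aeval (algebraMap R K T) b = 0
  · refine ⟨0, inj ?_⟩
    rw [hab, hb, div_zero, map_zero, map_zero]
  have hb0 : b ≠ 0 := by
    rintro rfl
    exact hb (map_zero _)
  obtain ⟨a', b', d, hrel, rfl, rfl⟩ := UniqueFactorizationMonoid.exists_reduced_factors' a b hb0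
  have hco := hrel.isCoprime
  rw [map_mul, mul_eq_zero, not_or] at hb
  rw [map_mul, map_mul, mul_div_mul_left _ _ hb.1, eq_div_iff hb.2, aeval_algebraMap_apply,
    aeval_algebraMap_apply, ← map_mul] at hab
  have e := inj hab
  obtain ⟨u, v, huv⟩ := hco
  have e2 := congrArg (aeval T) huv
  rw [map_add, map_mul, map_mul, map_one, ← e] at e2
  obtain ⟨c, hc⟩ := hU (aeval T b') (IsUnit.of_mul_eq_one (aeval T u * p + aeval T v)
    (by rw [← e2]; ring))
  have hc0 : c ≠ 0 := by
    rintro rfl
    exact hb.2 (by rw [aeval_algebraMap_apply, hc, map_zero, map_zero])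
  refine ⟨a' * C c⁻¹, ?_⟩
  rw [map_mul, ← e, hc, aeval_C, mul_assoc, ← map_mul, mul_inv_cancel₀ hc0, map_one, mul_one]

theorem core_luroth [IsAlgClosed k] {R K : Type*} [CommRing R] [IsDomain R] [IsIntegrallyClosed R]
    [Algebra k R] [Field K] [Algebra R K] [IsFractionRing R K] [Algebra k K] [IsScalarTower k R K]
    (E : IntermediateField k K) {f : R} (φ : R →ₐ[k] k[X]) (hφ : 0 < (φ f).natDegree)
    (hfE : algebraMap R K f ∈ E)
    (hE : ∀ x ∈ E, ∃ P : k[X][X], P ≠ 0 ∧
      P.eval₂ (aeval (algebraMap R K f) : k[X] →ₐ[k] K).toRingHom x = 0) :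
    ∃ T : R, E = k⟮algebraMap R K T⟯ := by
  have inj := IsFractionRing.injective R K
  let : Algebra k[X] R := (aeval f : k[X] →ₐ[k] R).toRingHom.toAlgebra
  let : Algebra k[X] K := (aeval (algebraMap R K f) : k[X] →ₐ[k] K).toRingHom.toAlgebra
  have : IsScalarTower k[X] R K :=
    IsScalarTower.of_algebraMap_eq fun a => aeval_algebraMap_apply K f a
  have halg : ∀ x ∈ E, IsAlgebraic k[X] x := fun x hx => hE x hx
  have htr : ∀ r : k[X], φ (aeval f r) = 0 → r = 0 := by
    intro r hr
    rw [← aeval_algHom_apply, ← comp_eq_aeval] at hr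
    rcases comp_eq_zero_iff.1 hr with h | ⟨-, h⟩
    · exact h
    · rw [h, natDegree_C] at hφ
      omega
  have hpoly : ∀ r : k[X], algebraMap R K (aeval f r) ∈ E := by
    intro r
    rw [← aeval_algebraMap_apply]
    exact (Algebra.adjoin_le (S := E.toSubalgebra) (Set.singleton_subset_iff.2 hfE))
      (aeval_mem_adjoin_singleton k _)
  let D : Subalgebra k R := E.toSubalgebra.comap (IsScalarTower.toAlgHom k R K)
  let j : D →ₐ[k] E := ((IsScalarTower.toAlgHom k R K).comp D.val).codRestrict E.toSubalgebra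
    fun x => x.2
  let : Algebra D E := j.toRingHom.toAlgebra
  have : IsScalarTower k D E := IsScalarTower.of_algebraMap_eq fun a => (j.commutes a).symm
  have : FaithfulSMul D E := (faithfulSMul_iff_algebraMap_injective D E).2 fun x y e =>
    Subtype.ext (inj (congrArg Subtype.val e))
  have : IsFractionRing D E := IsFractionRing.of_field D E fun z => by
    obtain ⟨r, hr, hi⟩ := (halg z z.2).exists_integral_multiple
    obtain ⟨y, hy⟩ := (IsIntegrallyClosed.isIntegral_iff (R := R) (K := K)).1 hi.tower_top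
    have hr' : algebraMap R K (aeval f r) ≠ 0 := fun e =>
      hr (htr r (by rw [inj (e.trans (map_zero _).symm), map_zero]))
    have hy' : algebraMap R K y = algebraMap R K (aeval f r) * z := by
      rw [hy, Algebra.smul_def, IsScalarTower.algebraMap_apply k[X] R K]
      rfl
    refine ⟨⟨y, ?_⟩, ⟨aeval f r, hpoly r⟩, Subtype.ext ?_⟩
    · change algebraMap R K y ∈ E
      rw [hy']
      exact mul_mem (hpoly r) z.2
    · change (z : K) = algebraMap R K y / algebraMap R K (aeval f r)
      rw [hy', mul_div_cancel_left₀ _ hr']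
  let g : D →ₐ[k] RatFunc k := (IsScalarTower.toAlgHom k k[X] (RatFunc k)).comp (φ.comp D.val)
  have hg : Function.Injective g := by
    rw [injective_iff_map_eq_zero]
    intro c hc
    by_contra hn
    have h0 : φ c = 0 := IsFractionRing.injective k[X] (RatFunc k) (hc.trans (map_zero _).symm)
    have ha : IsAlgebraic k[X] (c : R) := (isAlgebraic_algebraMap_iff inj).1 (halg _ c.2)
    obtain ⟨r, hr, s, hs⟩ := ha.exists_nonzero_dvd
      (mem_nonZeroDivisors_of_ne_zero fun e => hn (Subtype.ext e))
    refine hr (htr r ?_)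
    change φ (algebraMap k[X] R r) = 0
    rw [hs, map_mul, h0, zero_mul]
  let σ : E →ₐ[k] RatFunc k := IsFractionRing.liftAlgHom hg
  have hσ : ∀ c : D, σ (j c) = g c := fun c => IsFractionRing.lift_algebraMap hg c
  have hf' : σ ⟨_, hfE⟩ = algebraMap k[X] (RatFunc k) (φ f) := hσ ⟨f, hfE⟩
  obtain ⟨c, hc⟩ := line_luroth σ.fieldRange hφ ⟨_, hf'⟩
  obtain ⟨t, ht⟩ : algebraMap k[X] (RatFunc k) c ∈ σ.fieldRange := by
    rw [hc]
    exact IntermediateField.mem_adjoin_simple_self k _
  have ht' : σ t = algebraMap k[X] (RatFunc k) c := ht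
  have htop : k⟮t⟯ = ⊤ := by
    refine eq_top_iff.2 fun x _ => ?_
    have hx : σ x ∈ (k⟮t⟯).map σ := by
      rw [IntermediateField.adjoin_map, Set.image_singleton, ht', ← hc]
      exact ⟨x, rfl⟩
    obtain ⟨y, hy, e⟩ := hx
    rwa [← σ.toRingHom.injective e]
  obtain ⟨q, hq⟩ := poly_gen_luroth (k := k) (IsFractionRing.injective k[X] (RatFunc k))
    (fun r hr => ⟨r.coeff 0, eq_C_of_natDegree_eq_zero (natDegree_eq_zero_of_isUnit hr)⟩)
    (T := c) (p := φ f) (by rw [← hc]; exact ⟨_, hf'⟩)
  have hq0 : 0 < q.natDegree := by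
    by_contra hn
    rw [hq, eq_C_of_natDegree_eq_zero (Nat.eq_zero_of_not_pos hn), aeval_C] at hφ
    simp at hφ
  have hft : (⟨_, hfE⟩ : E) = aeval t q := by
    refine σ.toRingHom.injective ?_
    change σ _ = σ _
    rw [hf', hq, ← aeval_algebraMap_apply, ← ht', aeval_algHom_apply]
  have hft' : algebraMap R K f = aeval (t : K) q := by
    have := congrArg E.val hft
    rwa [← aeval_algHom_apply] at this
  have hq1 : q ≠ 0 := by
    rintro rfl
    simp at hq0
  have hint : IsIntegral R (t : K) := by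
    refine ⟨(q * C q.leadingCoeff⁻¹).map (algebraMap k R)
      - C (f * algebraMap k R q.leadingCoeff⁻¹), ?_, ?_⟩
    · refine ((monic_mul_leadingCoeff_inv hq1).map _).sub_of_left (degree_C_le.trans_lt ?_)
      rw [← natDegree_pos_iff_degree_pos, (monic_mul_leadingCoeff_inv hq1).natDegree_map,
        natDegree_mul_leadingCoeff_inv _ hq1]
      exact hq0
    · rw [← aeval_def, map_sub, aeval_map_algebraMap, map_mul, aeval_C, aeval_C, map_mul, ← hft',
        ← IsScalarTower.algebraMap_apply, sub_self]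
  obtain ⟨T, hT⟩ := (IsIntegrallyClosed.isIntegral_iff (R := R) (K := K)).1 hint
  refine ⟨T, ?_⟩
  have := congrArg (IntermediateField.map E.val) htop
  rw [IntermediateField.adjoin_map, Set.image_singleton, ← AlgHom.fieldRange_eq_map,
    IntermediateField.fieldRange_val] at this
  rw [hT]
  exact this.symm

end

end Pool.Agent.MP_e2821c_ag.Cy
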