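import Pool.Agent.Lib.MP_e2821c_ag.Cy.Pencil0
import Pool.Agent.Lib.MP_e2821c_ag.Cy.LurothA

namespace Pool.Agent.MP_e2821c_ag.Cy

open MvPolynomial
open scoped TensorProduct

universe u v w

noncomputable section

variable {k : Type u} [Field k] [CharZero k] [IsAlgClosed k] {m : ℕ}

omit [IsAlgClosed k] in
theorem line_map_luroth {f : Base k m} (hf : NonConst f) :
    ∃ φ : Base k m →ₐ[k] Polynomial k, 0 < (φ f).natDegree := by
  obtain ⟨a, ha⟩ : ∃ a : Fin m → k, eval a f ≠ eval 0 f := by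
    by_contra hn
    push Not at hn
    exact hf (eval 0 f) (MvPolynomial.funext fun a => by rw [hn a, eval_C])
  refine ⟨aeval fun i => Polynomial.C (a i) * Polynomial.X, ?_⟩
  by_contra hn
  have h0 := Polynomial.eq_C_of_natDegree_eq_zero (Nat.eq_zero_of_not_pos hn)
  have key : ∀ t : k, Polynomial.eval t (aeval (fun i => Polynomial.C (a i) * Polynomial.X) f)
      = eval (fun i => a i * t) f := by
    intro t
    have : (Polynomial.evalRingHom t).comp (aeval (fun i => Polynomial.C (a i) * Polynomial.X) :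
        Base k m →ₐ[k] Polynomial k).toRingHom = eval (fun i => a i * t) :=
      MvPolynomial.ringHom_ext (fun c => by simp) fun i => by simp
    exact DFunLike.congr_fun this f
  have h1 := key 1
  have h2 := key 0
  rw [h0, Polynomial.eval_C] at h1 h2
  simp only [mul_one, mul_zero] at h1 h2
  exact ha (h1.symm.trans h2)

omit [CharZero k] [IsAlgClosed k] in
theorem rel_luroth {f : Base k m} {x : Km k m}
    (h : AlgOver f (algebraMap (Km k m) (Omm k m) x)) :
    ∃ P : Polynomial (Polynomial k), P ≠ 0 ∧ P.eval₂ (Polynomial.aeval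
      (algebraMap (Base k m) (Km k m) f) : Polynomial k →ₐ[k] Km k m).toRingHom x = 0 := by
  obtain ⟨P, hP, h0⟩ := h
  let ψ : Polynomial k →ₐ[k] Algebra.adjoin k {algebraMap (Base k m) (Omm k m) f} :=
    (Polynomial.aeval (algebraMap (Base k m) (Omm k m) f)).codRestrict _
      fun r => Polynomial.aeval_mem_adjoin_singleton k _
  have hψ : Function.Surjective ψ := fun y => by
    obtain ⟨r, hr⟩ := (Algebra.adjoin_singleton_eq_range_aeval k _).le y.2
    exact ⟨r, Subtype.ext hr⟩
  obtain ⟨Q, rfl⟩ := Polynomial.map_surjective ψ.toRingHom hψ P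
  refine ⟨Q, fun e => hP (by rw [e, Polynomial.map_zero]),
    (algebraMap (Km k m) (Omm k m)).injective ?_⟩
  rw [Polynomial.hom_eval₂, map_zero, ← h0, Polynomial.aeval_def, Polynomial.eval₂_map]
  refine congrArg (fun j => Polynomial.eval₂ j _ Q) (RingHom.ext fun r => ?_)
  change algebraMap (Km k m) (Omm k m) (Polynomial.aeval _ r) = Polynomial.aeval _ r
  rw [← Polynomial.aeval_algebraMap_apply, ← IsScalarTower.algebraMap_apply]

omit [CharZero k] [IsAlgClosed k] in
theorem gen_luroth {T p : Base k m}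
    (h : algebraMap (Base k m) (Km k m) p ∈
      IntermediateField.adjoin k {algebraMap (Base k m) (Km k m) T}) :
    ∃ g : Polynomial k, p = Polynomial.aeval T g := by
  refine poly_gen_luroth (IsFractionRing.injective (Base k m) (Km k m)) (fun r hr => ?_) h
  obtain ⟨c, -, hc⟩ := MvPolynomial.isUnit_iff_eq_C_of_isReduced.1 hr
  exact ⟨c, hc⟩

omit [CharZero k] [IsAlgClosed k] in
theorem ev_aeval_luroth (T : Base k m) (a : Polynomial k) :
    ev T (Polynomial.aeval (X0 k) a) = Polynomial.aeval T a := by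
  have := Polynomial.aeval_algHom_apply (aeval fun _ => T : Base k 1 →ₐ[k] Base k m) (X0 k) a
  rw [X0, aeval_X] at this
  exact this.symm

omit [CharZero k] [IsAlgClosed k] in
theorem surj_luroth (g : Base k 1) : ∃ a : Polynomial k, g = Polynomial.aeval (X0 k) a := by
  induction g using MvPolynomial.induction_on with
  | C c => exact ⟨Polynomial.C c, by simp⟩
  | add p q hp hq =>
    obtain ⟨a, rfl⟩ := hp
    obtain ⟨b, rfl⟩ := hq
    exact ⟨a + b, by simp⟩
  | mul_X p i hp =>
    obtain ⟨a, rfl⟩ := hp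
    exact ⟨a * Polynomial.X, by simp [X0, Subsingleton.elim i 0]⟩

omit [CharZero k] [IsAlgClosed k] in
theorem ev_ev_luroth (q : Base k m) (g h : Base k 1) : ev q (ev g h) = ev (ev q g) h :=
  DFunLike.congr_fun (comp_ev (aeval fun _ => q : Base k 1 →ₐ[k] Base k m) g) h

omit [CharZero k] [IsAlgClosed k] in
theorem ev_self_luroth (h : Base k 1) : ev (X0 k) h = h := by
  obtain ⟨a, rfl⟩ := surj_luroth h
  exact ev_aeval_luroth _ a

omit [CharZero k] [IsAlgClosed k] in
theorem nonConst_luroth {q : Base k m} {h : Base k 1} (H : NonConst (ev q h)) :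
    NonConst q ∧ NonConst h := by
  refine ⟨?_, ?_⟩
  · rintro c rfl
    obtain ⟨a, rfl⟩ := surj_luroth h
    refine H (a.eval c) ?_
    rw [ev_aeval_luroth, ← MvPolynomial.algebraMap_eq, Polynomial.aeval_algebraMap_apply_eq_algebraMap_eval]
  · rintro c rfl
    exact H c (ev_C _ _)

omit [IsAlgClosed k] in
theorem ev_inj_luroth {q : Base k m} (hq : NonConst q) : Function.Injective (ev q) := by
  rw [injective_iff_map_eq_zero]
  intro g hg
  obtain ⟨a, rfl⟩ := surj_luroth g
  obtain ⟨φ, hφ⟩ := line_map_luroth hq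
  have e := congrArg φ hg
  rw [ev_aeval_luroth, map_zero, ← Polynomial.aeval_algHom_apply, ← Polynomial.comp_eq_aeval] at e
  rcases Polynomial.comp_eq_zero_iff.1 e with h | ⟨-, h⟩
  · rw [h, map_zero]
  · rw [h, Polynomial.natDegree_C] at hφ
    omega

omit [IsAlgClosed k] in
theorem tau_luroth {q : Base k m} (hq : NonConst q) : ∃ τ : Km k 1 →ₐ[k] Km k m,
    ∀ g, τ (algebraMap (Base k 1) (Km k 1) g) = algebraMap (Base k m) (Km k m) (ev q g) := by
  have inj : Function.Injective ((IsScalarTower.toAlgHom k (Base k m) (Km k m)).comp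
      (aeval fun _ => q : Base k 1 →ₐ[k] Base k m)) :=
    (IsFractionRing.injective (Base k m) (Km k m)).comp (ev_inj_luroth hq)
  exact ⟨IsFractionRing.liftAlgHom inj, fun g => IsFractionRing.lift_algebraMap inj g⟩

omit [CharZero k] [IsAlgClosed k] in
theorem top_luroth :
    IntermediateField.adjoin k {algebraMap (Base k 1) (Km k 1) (X0 k)} = ⊤ := by
  refine eq_top_iff.2 fun x _ => ?_
  obtain ⟨a, b, -, rfl⟩ := IsFractionRing.div_surjective (A := Base k 1) x
  obtain ⟨a, rfl⟩ := surj_luroth a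
  obtain ⟨b, rfl⟩ := surj_luroth b
  exact (IntermediateField.mem_adjoin_simple_iff k _).2
    ⟨a, b, by rw [Polynomial.aeval_algebraMap_apply, Polynomial.aeval_algebraMap_apply]⟩

theorem luroth_poly (E : IntermediateField k (Km k m)) {f : Base k m} (hf : NonConst f)
    (hfE : algebraMap (Base k m) (Km k m) f ∈ E)
    (hE : ∀ x ∈ E, AlgOver f (algebraMap (Km k m) (Omm k m) x)) :
    ∃ T : Base k m, NonConst T ∧
      E = IntermediateField.adjoin k {algebraMap (Base k m) (Km k m) T} := by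
  obtain ⟨φ, hφ⟩ := line_map_luroth hf
  obtain ⟨T, rfl⟩ := core_luroth E φ hφ hfE fun x hx => rel_luroth (hE x hx)
  obtain ⟨g, hg⟩ := gen_luroth hfE
  rw [hg, ← ev_aeval_luroth] at hf
  exact ⟨T, (nonConst_luroth hf).1, rfl⟩

theorem poly_of_mem {T p : Base k m} (hT : NonConst T)
    (h : algebraMap (Base k m) (Km k m) p ∈
      IntermediateField.adjoin k {algebraMap (Base k m) (Km k m) T}) :
    ∃ g : Base k 1, p = ev T g := by
  obtain ⟨g, hg⟩ := gen_luroth h
  exact ⟨_, hg.trans (ev_aeval_luroth T g).symm⟩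

/-- A pair of polynomials on the line generating the function field. -/
def Primitive (h : Base k 1 × Base k 1) : Prop :=
  IntermediateField.adjoin k {algebraMap (Base k 1) (Km k 1) h.1,
    algebraMap (Base k 1) (Km k 1) h.2} = ⊤

omit [IsAlgClosed k] in
theorem prim_iff_luroth {q : Base k m} (hq : NonConst q) (h : Base k 1 × Base k 1) :
    Primitive h ↔ IntermediateField.adjoin k {algebraMap (Base k m) (Km k m) (ev q h.1),
      algebraMap (Base k m) (Km k m) (ev q h.2)} =
      IntermediateField.adjoin k {algebraMap (Base k m) (Km k m) q} := by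
  obtain ⟨τ, hτ⟩ := tau_luroth hq
  rw [Primitive, ← top_luroth, ← (IntermediateField.map_injective τ).eq_iff,
    IntermediateField.adjoin_map, IntermediateField.adjoin_map, Set.image_pair,
    Set.image_singleton, hτ, hτ, hτ, ev_X0]

omit [IsAlgClosed k] in
theorem prim_uniq_luroth {h : Base k 1 × Base k 1} (hh : Primitive h) {q q' : Base k m}
    (hq : NonConst q) (hq' : NonConst q') (e1 : ev q h.1 = ev q' h.1)
    (e2 : ev q h.2 = ev q' h.2) : q = q' := by
  obtain ⟨τ, hτ⟩ := tau_luroth hq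
  obtain ⟨τ', hτ'⟩ := tau_luroth hq'
  have key : ∀ x ∈ IntermediateField.adjoin k {algebraMap (Base k 1) (Km k 1) h.1,
      algebraMap (Base k 1) (Km k 1) h.2}, τ x = τ' x := by
    intro x hx
    induction hx using IntermediateField.adjoin_induction with
    | mem x hx =>
      rcases hx with rfl | rfl
      · rw [hτ, hτ', e1]
      · rw [hτ, hτ', e2]
    | algebraMap c => rw [τ.commutes, τ'.commutes]
    | add x y _ _ hx hy => rw [map_add, map_add, hx, hy]
    | inv x _ hx => rw [map_inv₀, map_inv₀, hx]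
    | mul x y _ _ hx hy => rw [map_mul, map_mul, hx, hy]
  have := key (algebraMap (Base k 1) (Km k 1) (X0 k)) (by rw [hh]; trivial)
  rw [hτ, hτ', ev_X0, ev_X0] at this
  exact IsFractionRing.injective (Base k m) (Km k m) this

variable (k) in
/-- Primitive pairs up to mutual substitution. -/
def setoidLuroth : Setoid {h : Base k 1 × Base k 1 // Primitive h} where
  r h h' := (∃ g : Base k 1, h.1.1 = ev g h'.1.1 ∧ h.1.2 = ev g h'.1.2) ∧
    ∃ g : Base k 1, h'.1.1 = ev g h.1.1 ∧ h'.1.2 = ev g h.1.2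
  iseqv := by
    refine ⟨fun h => ⟨⟨X0 k, (ev_self_luroth _).symm, (ev_self_luroth _).symm⟩,
      ⟨X0 k, (ev_self_luroth _).symm, (ev_self_luroth _).symm⟩⟩, fun h => h.symm, ?_⟩
    rintro a b c ⟨⟨g, h1, h2⟩, ⟨g', h1', h2'⟩⟩ ⟨⟨l, i1, i2⟩, ⟨l', i1', i2'⟩⟩
    refine ⟨⟨ev g l, ?_, ?_⟩, ⟨ev l' g', ?_, ?_⟩⟩
    · rw [h1, i1, ev_ev_luroth]
    · rw [h2, i2, ev_ev_luroth]
    · rw [i1', h1', ev_ev_luroth]
    · rw [i2', h2', ev_ev_luroth]

omit [CharZero k] in
theorem algOver_pair_luroth {p p' : Base k m} (hp : NonConst p) (hd : Dep p p') :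
    ∀ x ∈ IntermediateField.adjoin k {algebraMap (Base k m) (Km k m) p,
      algebraMap (Base k m) (Km k m) p'}, AlgOver p (algebraMap (Km k m) (Omm k m) x) := by
  intro x hx
  have hA : ∀ y ∈ Algebra.adjoin k {algebraMap (Base k m) (Omm k m) p}, AlgOver p y :=
    fun y hy => isAlgebraic_algebraMap (⟨y, hy⟩ : Algebra.adjoin k _)
  induction hx using IntermediateField.adjoin_induction with
  | mem x hx =>
    rcases hx with rfl | rfl
    · rw [← IsScalarTower.algebraMap_apply]
      exact hA _ (Algebra.self_mem_adjoin_singleton k _)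
    · rw [← IsScalarTower.algebraMap_apply]
      exact (dep_iff_algOver hp).1 hd
  | algebraMap c =>
    rw [← IsScalarTower.algebraMap_apply]
    exact hA _ (Subalgebra.algebraMap_mem _ c)
  | add x y _ _ hx hy =>
    rw [map_add]
    exact IsAlgebraic.add hx hy
  | inv x _ hx =>
    rw [map_inv₀]
    exact IsAlgebraic.inv hx
  | mul x y _ _ hx hy =>
    rw [map_mul]
    exact IsAlgebraic.mul hx hy

theorem exists_pair_reps : ∃ Rep : Set (Base k 1 × Base k 1),
    (∀ h ∈ Rep, NonConst h.1 ∧ NonConst h.2) ∧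
    (∀ (m : ℕ) (p p' : Base k m), NonConst p → NonConst p' → Dep p p' →
      ∃ h ∈ Rep, ∃ q : Base k m, p = ev q h.1 ∧ p' = ev q h.2) ∧
    ∀ (m : ℕ), ∀ h ∈ Rep, ∀ h' ∈ Rep, ∀ q q' : Base k m, NonConst q →
      ev q h.1 = ev q' h'.1 → ev q h.2 = ev q' h'.2 → h = h' ∧ q = q' := by
  refine ⟨{h | (NonConst h.1 ∧ NonConst h.2) ∧ ∃ c : Quotient (setoidLuroth k), c.out.1 = h},
    fun h hh => hh.1, fun m p p' hp hp' hd => ?_, ?_⟩
  · obtain ⟨T, hT, e⟩ := luroth_poly _ hp
      (IntermediateField.subset_adjoin k _ (Set.mem_insert _ _)) (algOver_pair_luroth hp hd)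
    obtain ⟨a, rfl⟩ := poly_of_mem (p := p) hT
      (e ▸ IntermediateField.subset_adjoin k _ (Set.mem_insert _ _))
    obtain ⟨b, rfl⟩ := poly_of_mem (p := p') hT
      (e ▸ IntermediateField.subset_adjoin k _ (Set.mem_insert_of_mem _ rfl))
    have hab : Primitive (a, b) := (prim_iff_luroth hT (a, b)).2 e
    obtain ⟨-, g, h1, h2⟩ := Quotient.mk_out (s := setoidLuroth k) ⟨(a, b), hab⟩
    have h1' : ev T a = ev (ev T g) _ := (congrArg (ev T) h1).trans (ev_ev_luroth _ _ _)
    have h2' : ev T b = ev (ev T g) _ := (congrArg (ev T) h2).trans (ev_ev_luroth _ _ _)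
    exact ⟨_, ⟨⟨(nonConst_luroth (h1' ▸ hp)).2, (nonConst_luroth (h2' ▸ hp')).2⟩, _, rfl⟩,
      _, h1', h2'⟩
  · rintro m _ ⟨⟨n1, -⟩, c, rfl⟩ _ ⟨-, c', rfl⟩ q q' hq e1 e2
    have hq' : NonConst q' := by
      refine (nonConst_luroth (h := c'.out.1.1) fun a ha => n1 a (ev_inj_luroth hq ?_)).1
      rw [e1, ha, ev_C]
    have e := (prim_iff_luroth hq _).1 c.out.2
    rw [e1, e2, (prim_iff_luroth hq' _).1 c'.out.2] at e
    obtain ⟨g, hg⟩ := poly_of_mem (p := q') hq
      (e ▸ IntermediateField.mem_adjoin_simple_self k _)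
    obtain ⟨g', hg'⟩ := poly_of_mem (p := q) hq'
      (e.symm ▸ IntermediateField.mem_adjoin_simple_self k _)
    have hc : c = c' := by
      rw [← c.out_eq, ← c'.out_eq]
      refine Quotient.sound ⟨⟨g, ev_inj_luroth hq ?_, ev_inj_luroth hq ?_⟩,
        ⟨g', ev_inj_luroth hq' ?_, ev_inj_luroth hq' ?_⟩⟩
      · rw [ev_ev_luroth, ← hg, e1]
      · rw [ev_ev_luroth, ← hg, e2]
      · rw [ev_ev_luroth, ← hg', e1]
      · rw [ev_ev_luroth, ← hg', e2]
    subst hc
    exact ⟨rfl, prim_uniq_luroth c.out.2 hq hq' e1 e2⟩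

end

end Pool.Agent.MP_e2821c_ag.Cy
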