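import Pool.Agent.Lib.MP_e2821c_ag.Cy.Eigen
import Pool.Agent.Lib.MP_e2821c_ag.Cy.Luroth

namespace Pool.Agent.MP_e2821c_ag.Cy

open MvPolynomial
open scoped TensorProduct

universe u v w

noncomputable section

section Dense

variable {R B : Type u} [CommRing R] [Algebra ℚ R] [CommRing B] [IsDomain B] [Algebra R B]
  [Algebra.IsIntegral R B] {G : Type v} [Group G]

omit [Algebra ℚ R] in
theorem dense_one_toLine (r : G →* (B ≃ₐ[R] B))
    (hfix : ∀ x : B, (∀ g, r g x = x) → x ∈ (algebraMap R B).range) (g₀ : B ≃ₐ[R] B) (y : B) :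
    ∃ g, g₀ y = r g y := by
  classical
  have hfin : (Set.range fun g : G => r g y).Finite :=
    (finite_orbit (R := R) y).subset (by
      rintro _ ⟨g, rfl⟩
      exact ⟨r g, rfl⟩)
  let O := hfin.toFinset
  let P : Polynomial B := ∏ z ∈ O, (Polynomial.X - Polynomial.C z)
  have hO : ∀ (g : G), ∀ z ∈ O, r g z ∈ O := fun g z hz => by
    obtain ⟨g', rfl⟩ := (Set.Finite.mem_toFinset _).1 hz
    exact (Set.Finite.mem_toFinset _).2 ⟨g * g', by simp only [map_mul, AlgEquiv.mul_apply]⟩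
  have h1 : ∀ g : G, P.map (r g : B →+* B) = P := fun g => by
    simp only [P, Polynomial.map_prod, Polynomial.map_sub, Polynomial.map_X, Polynomial.map_C]
    refine Finset.prod_nbij' (r g) (r g⁻¹) (hO g) (hO g⁻¹) (fun z _ => ?_) (fun z _ => ?_)
      fun z _ => rfl
    · rw [← AlgEquiv.mul_apply, ← map_mul, inv_mul_cancel, map_one, AlgEquiv.one_apply]
    · rw [← AlgEquiv.mul_apply, ← map_mul, mul_inv_cancel, map_one, AlgEquiv.one_apply]
  obtain ⟨P₀, hP⟩ := (Polynomial.mem_lifts P).1 ((Polynomial.lifts_iff_coeff_lifts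
    (f := algebraMap R B) P).2 fun n => hfix _ fun g => by
      conv_rhs => rw [← h1 g, Polynomial.coeff_map]
      rfl)
  have h0 : (g₀ : B →+* B).comp (algebraMap R B) = algebraMap R B :=
    RingHom.ext fun a => g₀.commutes a
  have h2 : P.map (g₀ : B →+* B) = P := by rw [← hP, Polynomial.map_map, h0]
  have h3 : P.eval y = 0 := by
    rw [Polynomial.eval_prod]
    exact Finset.prod_eq_zero (i := y) ((Set.Finite.mem_toFinset _).2 ⟨1, by simp⟩) (by simp)
  have h4 : P.eval ((g₀ : B →+* B) y) = 0 := by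
    rw [← h2, Polynomial.eval_map, Polynomial.eval₂_at_apply, h3, map_zero]
  simp only [P, Polynomial.eval_prod, Polynomial.eval_sub, Polynomial.eval_X, Polynomial.eval_C,
    Finset.prod_eq_zero_iff] at h4
  obtain ⟨z, hz, h5⟩ := h4
  obtain ⟨g, rfl⟩ := (Set.Finite.mem_toFinset _).1 hz
  exact ⟨g, sub_eq_zero.1 h5⟩

theorem dense_toLine (r : G →* (B ≃ₐ[R] B))
    (hfix : ∀ x : B, (∀ g, r g x = x) → x ∈ (algebraMap R B).range) (g₀ : B ≃ₐ[R] B)
    (E : Finset B) : ∃ g, ∀ e ∈ E, g₀ e = r g e := by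
  classical
  let c : ℚ →+* B := (algebraMap R B).comp (algebraMap ℚ R)
  let := c.toAlgebra
  let S : Set (E → B) := Set.range fun (g : G) (e : E) => r g e
  have hS : Finite S := ((Set.Finite.pi' fun e : E => finite_orbit (R := R) (e : B)).subset (by
    rintro _ ⟨g, rfl⟩ e
    exact ⟨r g, rfl⟩)).to_subtype
  let V : S → Subspace ℚ (E → ℚ) := fun s =>
    LinearMap.ker (Fintype.linearCombination ℚ fun e : E => g₀ e - s.1 e)
  obtain ⟨⟨_, g, rfl⟩, hg⟩ := Subspace.exists_eq_top_of_iUnion_eq_univ (p := V) (by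
    refine Set.eq_univ_of_forall fun a => ?_
    obtain ⟨g, hg⟩ := dense_one_toLine r hfix g₀ (∑ e : E, algebraMap ℚ R (a e) • (e : B))
    refine Set.mem_iUnion.2 ⟨⟨_, g, rfl⟩, LinearMap.mem_ker.2 ?_⟩
    rw [map_sum, map_sum, ← sub_eq_zero, ← Finset.sum_sub_distrib] at hg
    rw [Fintype.linearCombination_apply, ← hg]
    refine Finset.sum_congr rfl fun e _ => ?_
    rw [map_smul, map_smul, Algebra.smul_def (a e), Algebra.smul_def, Algebra.smul_def, mul_sub]
    rfl)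
  refine ⟨g, fun e he => sub_eq_zero.1 ?_⟩
  have h1 : Pi.single (⟨e, he⟩ : E) (1 : ℚ) ∈ V ⟨_, g, rfl⟩ := hg ▸ Submodule.mem_top
  simpa [V] using h1

end Dense

variable {k : Type u} [Field k] [CharZero k] [IsAlgClosed k] {m n : ℕ}

omit [CharZero k] [IsAlgClosed k] in
theorem isLift_apply_toLine {f : Base k m} {κ : Bm k 1 →+* Bm k m} (hκ : IsLift (iB k m) f κ)
    (p : Base k 1) : κ (iB k 1 p) = iB k m (ev f p) := DFunLike.congr_fun hκ p

omit [CharZero k] [IsAlgClosed k] in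
theorem intOver_gal_toLine {f : Base k m} {y : Bm k m} (hy : IntOver f y) (g : Gm k m) :
    IntOver f (g y) := by
  obtain ⟨p, hp, h⟩ := hy
  refine ⟨p, hp, ?_⟩
  have e : (iB k m).comp (ev f) = (g : Bm k m →+* Bm k m).comp ((iB k m).comp (ev f)) :=
    RingHom.ext fun a => (g.commutes (ev f a)).symm
  rw [e]
  exact (Polynomial.hom_eval₂ p _ (g : Bm k m →+* Bm k m) y).symm.trans (by rw [h, map_zero])

theorem exists_restrict {f : Base k m} (hf : NonConst f) {κ : Bm k 1 →+* Bm k m}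
    (hκ : IsLift (iB k m) f κ) :
    ∃ r : Gm k m →* Gm k 1, ∀ (g : Gm k m) (x : Bm k 1), κ (r g x) = g (κ x) := by
  have hi := hκ.injective hf
  have h1 : ∀ (g : Gm k m) (x : Bm k 1), ∃ y, κ y = g (κ x) := fun g x =>
    (hκ.mem_range_iff _).2 (intOver_gal_toLine ((hκ.mem_range_iff _).1 ⟨x, rfl⟩) g)
  choose ρ hρ using h1
  let r : Gm k m → Gm k 1 := fun g =>
    { toFun := ρ g
      invFun := ρ g.symm
      left_inv := fun x => hi (by rw [hρ, hρ, AlgEquiv.symm_apply_apply])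
      right_inv := fun x => hi (by rw [hρ, hρ, AlgEquiv.apply_symm_apply])
      map_mul' := fun x y => hi (by simp only [hρ, map_mul])
      map_add' := fun x y => hi (by simp only [hρ, map_add])
      commutes' := fun p => hi (by
        rw [hρ, isLift_apply_toLine hκ]
        exact g.commutes _) }
  have hr : ∀ g x, κ (r g x) = g (κ x) := hρ
  exact ⟨MonoidHom.mk' r fun g g' => AlgEquiv.ext fun x => hi (by
    rw [AlgEquiv.mul_apply, hr, hr, hr, AlgEquiv.mul_apply]), hr⟩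

/-- The rational functions algebraic over `k[f]`. -/
def algField_toLine (f : Base k m) : IntermediateField k (Km k m) where
  carrier := {x | AlgOver f (algebraMap (Km k m) (Omm k m) x)}
  mul_mem' := fun {a b} ha hb => by
    change IsAlgebraic _ _
    rw [map_mul]
    exact IsAlgebraic.mul ha hb
  add_mem' := fun {a b} ha hb => by
    change IsAlgebraic _ _
    rw [map_add]
    exact IsAlgebraic.add ha hb
  algebraMap_mem' := fun c => by
    change IsAlgebraic _ _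
    rw [← IsScalarTower.algebraMap_apply]
    exact isAlgebraic_algebraMap
      (⟨_, (Algebra.adjoin k {algebraMap (Base k m) (Omm k m) f}).algebraMap_mem c⟩ :
        Algebra.adjoin k {algebraMap (Base k m) (Omm k m) f})
  inv_mem' := fun a ha => by
    change IsAlgebraic _ _
    rw [map_inv₀]
    exact IsAlgebraic.inv_iff.2 ha

omit [IsAlgClosed k] in
theorem mem_algField_toLine (f p : Base k m) :
    algebraMap (Base k m) (Km k m) p ∈ algField_toLine f ↔
      AlgOver f (algebraMap (Base k m) (Omm k m) p) := by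
  rw [IsScalarTower.algebraMap_apply (Base k m) (Km k m) (Omm k m)]
  rfl

theorem exists_gen_toLine {f : Base k m} (hf : NonConst f) :
    ∃ f₀ : Base k m, NonConst f₀ ∧ Dep f f₀ ∧ ∀ p, Dep f₀ p → ∃ q : Base k 1, p = ev f₀ q := by
  have hfE : algebraMap (Base k m) (Km k m) f ∈ algField_toLine f :=
    (mem_algField_toLine f f).2 (isAlgebraic_algebraMap
      (⟨_, Algebra.self_mem_adjoin_singleton k (algebraMap (Base k m) (Omm k m) f)⟩ :
        Algebra.adjoin k {algebraMap (Base k m) (Omm k m) f}))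
  obtain ⟨T, hT, hE⟩ := luroth_poly (algField_toLine f) hf hfE fun x hx => hx
  have hd : Dep f T := (dep_iff_algOver hf).2 ((mem_algField_toLine f T).1 (by
    rw [hE]
    exact IntermediateField.mem_adjoin_simple_self k _))
  refine ⟨T, hT, hd, fun p hp => poly_of_mem hT ?_⟩
  rw [← hE]
  exact (mem_algField_toLine f p).2 ((dep_iff_algOver hf).1 (hd.trans hp hT))

theorem exists_primitive {f : Base k m} (hf : NonConst f) :
    ∃ f₀ : Base k m, NonConst f₀ ∧ Dep f f₀ ∧ ∀ κ : Bm k 1 →+* Bm k m, IsLift (iB k m) f₀ κ →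
      ∀ (g₀ : Gm k 1) (E : Finset (Bm k 1)), ∃ g : Gm k m, ∀ e ∈ E, κ (g₀ e) = g (κ e) := by
  obtain ⟨f₀, hf₀, hd, hq⟩ := exists_gen_toLine hf
  refine ⟨f₀, hf₀, hd, fun κ hκ g₀ E => ?_⟩
  obtain ⟨r, hr⟩ := exists_restrict hf₀ hκ
  obtain ⟨g, hg⟩ := dense_toLine r (fun x hx => by
    obtain ⟨p, hp⟩ := mem_range_of_fixed (R := Base k m) (κ x) fun g => by rw [← hr, hx]
    have h1 : AlgOver f₀ (vB k m (κ x)) := algOver_of_intOver ((hκ.mem_range_iff _).1 ⟨x, rfl⟩)
    rw [← hp] at h1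
    obtain ⟨q, rfl⟩ := hq p ((dep_iff_algOver hf₀).2 h1)
    exact ⟨q, hκ.injective hf₀ ((isLift_apply_toLine hκ q).trans hp)⟩) g₀ E
  exact ⟨g, fun e he => by rw [hg e he, hr]⟩

omit [CharZero k] [IsAlgClosed k] in
theorem smul_cancel_toLine {B : Type u} [CommRing B] {v : Uo k B} (hv : v ≠ 0) {a b : kˣ}
    (h : (a : k) • v = (b : k) • v) : a = b :=
  Units.ext (smul_left_injective k hv h)

omit [IsAlgClosed k] in
theorem finitary_toLine {f : Base k m} {ε : Gm k m →* kˣ} (h : Belongs f ε) :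
    ∃ E : Finset (Bm k m), ∀ g g' : Gm k m, (∀ e ∈ E, g e = g' e) → ε g = ε g' := by
  classical
  induction h using Subgroup.closure_induction with
  | mem χ hχ =>
    obtain ⟨u, hu, he, -⟩ := hχ
    obtain ⟨E, hE⟩ := Umap_congr u
    exact ⟨E, fun g g' h => smul_cancel_toLine hu (by rw [← he, ← he]; exact hE _ _ _ h)⟩
  | one => exact ⟨∅, fun _ _ _ => rfl⟩
  | mul χ χ' _ _ h h' =>
    obtain ⟨E, hE⟩ := h
    obtain ⟨E', hE'⟩ := h'
    refine ⟨E ∪ E', fun g g' h => ?_⟩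
    rw [MonoidHom.mul_apply, MonoidHom.mul_apply,
      hE g g' fun e he => h e (Finset.mem_union_left _ he),
      hE' g g' fun e he => h e (Finset.mem_union_right _ he)]
  | inv χ _ h =>
    obtain ⟨E, hE⟩ := h
    exact ⟨E, fun g g' h => by rw [MonoidHom.inv_apply, MonoidHom.inv_apply, hE g g' h]⟩

theorem to_line {f : Base k m} (hf : NonConst f) :
    ∃ (f₀ : Base k m) (κ : Bm k 1 →+* Bm k m) (r : Gm k m →* Gm k 1), NonConst f₀ ∧ Dep f f₀ ∧
      IsLift (iB k m) f₀ κ ∧ (∀ (g : Gm k m) (x : Bm k 1), κ (r g x) = g (κ x)) ∧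
      (∀ (χ : Gm k m →* kˣ) (u : Uo k (Bm k m)), Eig χ u → u ≠ 0 → In u f →
        ∃ (ε : Gm k 1 →* kˣ) (v : Uo k (Bm k 1)), Eig ε v ∧ Umap k κ v = u ∧ ε.comp r = χ) ∧
      ∀ ε : Gm k 1 →* kˣ, Belongs (X0 k) ε → ε.comp r = 1 → ε = 1 := by
  obtain ⟨f₀, hf₀, hd, hden⟩ := exists_primitive hf
  obtain ⟨κ, hκ⟩ := exists_isLift (iB k m) f₀
  obtain ⟨r, hr⟩ := exists_restrict hf₀ hκ
  have hi := hκ.injective hf₀
  have den : ∀ (g₀ : Gm k 1) (E : Finset (Bm k 1)), ∃ g : Gm k m, ∀ e ∈ E, g₀ e = r g e := by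
    intro g₀ E
    obtain ⟨g, hg⟩ := hden κ hκ g₀ E
    exact ⟨g, fun e he => hi (by rw [hg e he, hr])⟩
  refine ⟨f₀, κ, r, hf₀, hd, hκ, hr, fun χ u he hu hin => ?_, fun ε hε h1 => ?_⟩
  · obtain ⟨v, rfl⟩ := (in_of_dep hf₀ hd hin).mem_range hκ
    have hv : v ≠ 0 := fun h => hu (by rw [h, map_zero])
    have h1 : ∀ g : Gm k m, Umap k (r g : Bm k 1 →+* Bm k 1) v = (χ g : k) • v := fun g =>
      Umap_injective hi (by
        rw [map_smul, ← he g, ← Umap_comp, ← Umap_comp]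
        congr 2
        exact RingHom.ext (hr g))
    obtain ⟨E, hE⟩ := Umap_congr v
    have h2 : ∀ g₀ : Gm k 1, ∃ c : kˣ, Umap k (g₀ : Bm k 1 →+* Bm k 1) v = (c : k) • v := by
      intro g₀
      obtain ⟨g, hg⟩ := den g₀ E
      exact ⟨χ g, (hE _ _ _ hg).trans (h1 g)⟩
    choose c hc using h2
    refine ⟨MonoidHom.mk' c fun g g' => smul_cancel_toLine hv ?_, v, hc, rfl,
      MonoidHom.ext fun g => smul_cancel_toLine hv ((hc (r g)).symm.trans (h1 g))⟩
    have e : ((g * g' : Gm k 1) : Bm k 1 →+* Bm k 1) =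
        (g : Bm k 1 →+* Bm k 1).comp (g' : Bm k 1 →+* Bm k 1) := RingHom.ext fun _ => rfl
    rw [← hc, e, Umap_comp, hc, map_smul, hc, smul_smul, Units.val_mul, mul_comm]
  · obtain ⟨E, hE⟩ := finitary_toLine hε
    refine MonoidHom.ext fun g₀ => ?_
    obtain ⟨g, hg⟩ := den g₀ E
    exact (hE _ _ hg).trans (DFunLike.congr_fun h1 g)

omit [CharZero k] [IsAlgClosed k] in
theorem in_X0_toLine (v : Uo k (Bm k 1)) : In v (X0 k) := by
  refine ⟨RingHom.id _, ?_, v, Umap_id k v⟩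
  have e : ev (X0 k) = RingHom.id (Base k 1) :=
    MvPolynomial.ringHom_ext (fun c => by simp) fun i => by
      rw [Subsingleton.elim i 0]
      exact ev_X0 (X0 k)
  rw [IsLift, e]
  rfl

theorem block_to_line {S : Finset (Fin n)} {u : Fin n → Uo k (Bm k m)} (hu : IsBlock S u)
    {f : Base k m} (hf : NonConst f) (hin : ∀ i ∈ S, In (u i) f) :
    ∃ (f₀ : Base k m) (κ : Bm k 1 →+* Bm k m) (v : Fin n → Uo k (Bm k 1)), NonConst f₀ ∧
      IsLift (iB k m) f₀ κ ∧ IsBlock S v ∧ ∀ i ∈ S, Umap k κ (v i) = u i := by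
  obtain ⟨h2, hne, χ, hχ, hχ1, hinj, hprod⟩ := hu
  obtain ⟨f₀, κ, r, hf₀, -, hκ, -, hA, hB⟩ := to_line hf
  have h1 : ∀ i, ∃ (ε : Gm k 1 →* kˣ) (v : Uo k (Bm k 1)), i ∈ S →
      Eig ε v ∧ Umap k κ v = u i ∧ ε.comp r = χ i := by
    intro i
    by_cases hi : i ∈ S
    · obtain ⟨ε, v, h⟩ := hA (χ i) (u i) (hχ i hi) (hne i hi) (hin i hi)
      exact ⟨ε, v, fun _ => h⟩
    · exact ⟨1, 0, fun h => absurd h hi⟩
  choose ε v h using h1
  have hv : ∀ i ∈ S, v i ≠ 0 := fun i hi e => hne i hi (by rw [← (h i hi).2.1, e, map_zero])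
  refine ⟨f₀, κ, v, hf₀, hκ, ⟨h2, hv, ε, fun i hi => (h i hi).1, fun i hi e => hχ1 i hi ?_,
    fun i hi j hj e => hinj hi hj ?_, hB _ ?_ ?_⟩, fun i hi => (h i hi).2.1⟩
  · rw [← (h i hi).2.2, e]
    rfl
  · rw [← (h i hi).2.2, ← (h j hj).2.2, e]
  · exact Subgroup.prod_mem _ fun i hi =>
      Subgroup.subset_closure ⟨v i, hv i hi, (h i hi).1, in_X0_toLine _⟩
  · rw [← hprod]
    refine MonoidHom.ext fun g => ?_
    rw [MonoidHom.comp_apply, MonoidHom.finsetProd_apply, MonoidHom.finsetProd_apply]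
    exact Finset.prod_congr rfl fun i hi => DFunLike.congr_fun (h i hi).2.2 g

end

end Pool.Agent.MP_e2821c_ag.Cy
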