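import Pool.Agent.Lib.MP_e2821c_ag.Cy.Normalize
import Pool.Agent.Lib.MP_e2821c_ag.Cy.ToLine

namespace Pool.Agent.MP_e2821c_ag.Cy

open MvPolynomial
open scoped TensorProduct

universe u v w

noncomputable section

section Aux

variable {k : Type u} [Field k] {m n : ℕ}

theorem algebraMap_eq_cB_NF (c : k) : algebraMap k (Bm k m) c = cB k m c :=
  IsScalarTower.algebraMap_apply k (Base k m) (Bm k m) c

theorem Umap_trans_NF (α β : Bm k 1 ≃ₐ[k] Bm k 1) (x : Uo k (Bm k 1)) :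
    Umap k ((α.trans β : Bm k 1 ≃ₐ[k] Bm k 1) : Bm k 1 →+* Bm k 1) x =
      Umap k (β : Bm k 1 →+* Bm k 1) (Umap k (α : Bm k 1 →+* Bm k 1) x) := by
  rw [← Umap_comp]; rfl

theorem Umap_symm_NF (α : Bm k 1 ≃ₐ[k] Bm k 1) (x : Uo k (Bm k 1)) :
    Umap k ((α.symm : Bm k 1 ≃ₐ[k] Bm k 1) : Bm k 1 →+* Bm k 1)
      (Umap k (α : Bm k 1 →+* Bm k 1) x) = x := by
  rw [← Umap_comp]
  have h : ((α.symm : Bm k 1 ≃ₐ[k] Bm k 1) : Bm k 1 →+* Bm k 1).comp (α : Bm k 1 →+* Bm k 1) =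
      RingHom.id _ := RingHom.ext fun y => α.symm_apply_apply y
  rw [h, Umap_id]

theorem Keeps.refl_NF (S : Finset (Fin n)) (v : Fin n → Uo k (Bm k 1)) :
    Keeps S v v AlgEquiv.refl := fun i _ =>
  ⟨1, one_ne_zero, by rw [one_smul]; exact Umap_id k (v i)⟩

theorem Keeps.trans_NF {S : Finset (Fin n)} {v v' v'' : Fin n → Uo k (Bm k 1)}
    {α β : Bm k 1 ≃ₐ[k] Bm k 1} (h : Keeps S v v' α) (h' : Keeps S v' v'' β) :
    Keeps S v v'' (α.trans β) := fun i hi => by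
  obtain ⟨c, hc, e⟩ := h i hi
  obtain ⟨c', hc', e'⟩ := h' i hi
  refine ⟨c * c', mul_ne_zero hc hc', ?_⟩
  simp only at e e' ⊢
  rw [Umap_trans_NF, e, map_smul, e', smul_smul]

theorem Keeps.symm_NF {S : Finset (Fin n)} {v v' : Fin n → Uo k (Bm k 1)}
    {α : Bm k 1 ≃ₐ[k] Bm k 1} (h : Keeps S v v' α) : Keeps S v' v α.symm := fun i hi => by
  obtain ⟨c, hc, e⟩ := h i hi
  refine ⟨c⁻¹, inv_ne_zero hc, ?_⟩
  simp only at e ⊢
  have h1 := Umap_symm_NF α (v i)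
  rw [e, map_smul] at h1
  rw [← h1, smul_smul, inv_mul_cancel₀ hc, one_smul]

theorem rep_congr_NF {S : Finset (Fin n)} {v v' : Fin n → Uo k (Bm k 1)}
    {α : Bm k 1 ≃ₐ[k] Bm k 1} (h : Keeps S v v' α) : rep S v = rep S v' := by
  have e : (fun w => IsNorm S w ∧ ∃ β, Keeps S v w β) =
      fun w => IsNorm S w ∧ ∃ β, Keeps S v' w β := by
    funext w
    refine propext (and_congr_right fun _ => ⟨?_, ?_⟩)
    · rintro ⟨β, hβ⟩
      exact ⟨_, h.symm_NF.trans_NF hβ⟩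
    · rintro ⟨β, hβ⟩
      exact ⟨_, h.trans_NF hβ⟩
  unfold rep
  rw [e]

theorem rep_spec_NF {S : Finset (Fin n)} {v : Fin n → Uo k (Bm k 1)} (hv : IsNorm S v) :
    IsRep S (rep S v) ∧ ∃ α, Keeps S v (rep S v) α := by
  have h : IsNorm S (rep S v) ∧ ∃ α, Keeps S v (rep S v) α :=
    Classical.epsilon_spec (p := fun w => IsNorm S w ∧ ∃ α, Keeps S v w α)
      ⟨v, hv, _, Keeps.refl_NF S v⟩
  obtain ⟨h1, α, hα⟩ := h
  exact ⟨⟨h1, (rep_congr_NF hα).symm⟩, α, hα⟩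

theorem keeps_gal_NF {S : Finset (Fin n)} {v : Fin n → Uo k (Bm k 1)} (hv : IsBlock S v)
    (g : Gm k 1) : Keeps S v v (g.restrictScalars k) := fun i hi => by
  obtain ⟨-, -, ε, hε, -⟩ := hv
  exact ⟨(ε i g : k), (ε i g).ne_zero, hε i hi g⟩

theorem isLift_of_algEquiv_NF (α : Bm k 1 ≃ₐ[k] Bm k 1) {q : Base k 1}
    (hq : iB k 1 q = α (iB k 1 (X0 k))) : IsLift (iB k 1) q (α : Bm k 1 →+* Bm k 1) := by
  refine MvPolynomial.ringHom_ext (fun c => ?_) fun i => ?_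
  · have h := α.commutes c
    rw [algebraMap_eq_cB_NF] at h
    rw [RingHom.comp_apply, RingHom.comp_apply, ev_C]
    exact h
  · rw [Subsingleton.elim i 0, RingHom.comp_apply, RingHom.comp_apply]
    have h : ev q (X 0) = q := ev_X0 q
    rw [h, hq]
    rfl

theorem ev_comp_NF (f : Base k m) (q : Base k 1) : (ev f).comp (ev q) = ev (ev f q) :=
  MvPolynomial.ringHom_ext (fun c => by simp) fun i => by
    rw [Subsingleton.elim i 0, RingHom.comp_apply]
    have h : ev q (X 0) = q := ev_X0 q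
    have h' : ev (ev f q) (X 0) = ev f q := ev_X0 _
    rw [h, h']

theorem IsLift.comp_NF {f : Base k m} {κ : Bm k 1 →+* Bm k m} (hκ : IsLift (iB k m) f κ)
    {q : Base k 1} {κ' : Bm k 1 →+* Bm k 1} (hκ' : IsLift (iB k 1) q κ') :
    IsLift (iB k m) (ev f q) (κ.comp κ') := by
  unfold IsLift at hκ hκ' ⊢
  rw [RingHom.comp_assoc, hκ', ← RingHom.comp_assoc, hκ, RingHom.comp_assoc, ev_comp_NF]

theorem IsLift.apply_X0_NF {f : Base k m} {κ : Bm k 1 →+* Bm k m} (hκ : IsLift (iB k m) f κ) :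
    κ (iB k 1 (X0 k)) = iB k m f := by
  have h := DFunLike.congr_fun hκ (X0 k)
  rw [RingHom.comp_apply, RingHom.comp_apply, ev_X0] at h
  exact h

theorem iB_injective_NF : Function.Injective (iB k m) :=
  FaithfulSMul.algebraMap_injective (Base k m) (Bm k m)

theorem nonConst_of_injective_NF {f : Base k m} {κ : Bm k 1 →+* Bm k m}
    (hκ : IsLift (iB k m) f κ) (hinj : Function.Injective κ) : NonConst f := fun c hc => by
  have h1 := hκ.apply_X0_NF
  have h2 := DFunLike.congr_fun hκ (C c)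
  rw [RingHom.comp_apply, RingHom.comp_apply, ev_C, ← hc, ← h1] at h2
  have h3 : (C c : Base k 1) = X0 k := iB_injective_NF (hinj h2)
  have h4 := congrArg (coeff (Finsupp.single (0 : Fin 1) 1)) h3
  rw [X0, coeff_X, coeff_C, if_neg (Finsupp.single_ne_zero.2 one_ne_zero).symm,
    if_pos rfl] at h4
  exact zero_ne_one h4

theorem AlgOver.trans_NF {f f' : Base k m} {y : Omm k m} (hy : AlgOver f y)
    (h : AlgOver f' (algebraMap (Base k m) (Omm k m) f)) : AlgOver f' y :=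
  IsAlgebraic.adjoin_of_forall_isAlgebraic (fun x hx => by
    rw [Set.mem_singleton_iff.1 hx.1]; exact h) hy

end Aux

variable {k : Type u} [Field k] [CharZero k] [IsAlgClosed k] {m n : ℕ}

theorem range_le_of_dep_NF {p p' : Base k m} (hp' : NonConst p') (hd : Dep p' p)
    {κ κ' : Bm k 1 →+* Bm k m} (hκ : IsLift (iB k m) p κ) (hκ' : IsLift (iB k m) p' κ') :
    κ.range ≤ κ'.range := fun y hy =>
  (hκ'.mem_range_iff y).2 (intOver_of_algOver hp'
    ((algOver_of_intOver ((hκ.mem_range_iff y).1 hy)).trans_NF ((dep_iff_algOver hp').1 hd)))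

theorem exists_equiv_NF {p p' : Base k m} (hp : NonConst p) (hp' : NonConst p') (hd : Dep p p')
    {κ κ' : Bm k 1 →+* Bm k m} (hκ : IsLift (iB k m) p κ) (hκ' : IsLift (iB k m) p' κ') :
    ∃ α : Bm k 1 ≃ₐ[k] Bm k 1, ∀ x, κ' (α x) = κ x := by
  have hi := hκ.injective hp
  have hi' := hκ'.injective hp'
  have h1 : ∀ x, ∃ y, κ' y = κ x := fun x =>
    range_le_of_dep_NF hp' hd.symm hκ hκ' ⟨x, rfl⟩
  have h2 : ∀ y, ∃ x, κ x = κ' y := fun y =>
    range_le_of_dep_NF hp hd hκ' hκ ⟨y, rfl⟩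
  choose a ha using h1
  choose b hb using h2
  refine ⟨{ toFun := a
            invFun := b
            left_inv := fun x => hi (by rw [hb, ha])
            right_inv := fun y => hi' (by rw [ha, hb])
            map_mul' := fun x y => hi' (by rw [map_mul, ha, ha, ha, map_mul])
            map_add' := fun x y => hi' (by rw [map_add, ha, ha, ha, map_add])
            commutes' := fun c => hi' ?_ }, ha⟩
  rw [ha, algebraMap_eq_cB_NF]
  exact (DFunLike.congr_fun hκ.comp_cB c).trans (DFunLike.congr_fun hκ'.comp_cB c).symm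

omit [IsAlgClosed k] in
theorem exists_poly_of_keeps_NF {S : Finset (Fin n)} {v w : Fin n → Uo k (Bm k 1)}
    (hv : IsBlock S v) (hw : IsNorm S w) {α : Bm k 1 ≃ₐ[k] Bm k 1} (hα : Keeps S v w α) :
    ∃ q : Base k 1, iB k 1 q = α.symm (iB k 1 (X0 k)) := by
  let _ : Algebra ℚ (Base k 1) := ((algebraMap k (Base k 1)).comp (algebraMap ℚ k)).toAlgebra
  refine mem_range_of_fixed (R := Base k 1) (B := Bm k 1) _ fun g => ?_
  have h := hw.2 _ ((hα.symm_NF.trans_NF (keeps_gal_NF hv g)).trans_NF hα)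
  have h' := congrArg α.symm h
  rw [AlgEquiv.trans_apply, AlgEquiv.symm_apply_apply] at h'
  exact h'

theorem normal_form {S : Finset (Fin n)} {u : Fin n → Uo k (Bm k m)} (hu : IsBlock S u)
    {f : Base k m} (hf : NonConst f) (hin : ∀ i ∈ S, In (u i) f) :
    ∃ (w : Fin n → Uo k (Bm k 1)) (p : Base k m) (κ : Bm k 1 →+* Bm k m), IsRep S w ∧
      NonConst p ∧ IsLift (iB k m) p κ ∧ SameLines S u fun i => Umap k κ (w i) := by
  obtain ⟨f₀, κ₁, v, hf₀, hκ₁, hv, e₁⟩ := block_to_line hu hf hin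
  obtain ⟨T, κ₂, v', hT, hκ₂, hv', e₂⟩ := normalize hv
  obtain ⟨hrep, α, hα⟩ := rep_spec_NF hv'
  obtain ⟨q, hq⟩ := exists_poly_of_keeps_NF hv'.1 hrep.1 hα
  have hκ₃ := isLift_of_algEquiv_NF α.symm hq
  have hκ := hκ₁.comp_NF (hκ₂.comp_NF hκ₃)
  refine ⟨rep S v', _, _, hrep, nonConst_of_injective_NF hκ ?_, hκ, fun i hi => ?_⟩
  · exact (hκ₁.injective hf₀).comp ((hκ₂.injective hT).comp α.symm.injective)
  · obtain ⟨c, hc, e⟩ := hα.symm_NF i hi
    refine ⟨c⁻¹, inv_ne_zero hc, ?_⟩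
    simp only at e ⊢
    rw [Umap_comp, Umap_comp, e, map_smul, map_smul, e₂ i hi, e₁ i hi, smul_smul,
      inv_mul_cancel₀ hc, one_smul]

theorem normal_form_unique {S : Finset (Fin n)} {w w' : Fin n → Uo k (Bm k 1)} (hw : IsRep S w)
    (hw' : IsRep S w') {p p' : Base k m} (hp : NonConst p) (hp' : NonConst p')
    {κ κ' : Bm k 1 →+* Bm k m} (hκ : IsLift (iB k m) p κ) (hκ' : IsLift (iB k m) p' κ')
    (h : SameLines S (fun i => Umap k κ (w i)) fun i => Umap k κ' (w' i)) : w = w' ∧ p = p' := by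
  obtain ⟨hS, hne, ε, hε, hε1, -⟩ := hw.1.1
  obtain ⟨i, hi⟩ : S.Nonempty := Finset.card_pos.1 (by omega)
  have hd : Dep p p' := by
    obtain ⟨c, -, e⟩ := h i hi
    simp only at e
    refine dep_of_in (u := Umap k κ (w i)) ?_ ⟨κ, hκ, w i, rfl⟩
      ⟨κ', hκ', c • w' i, by rw [map_smul, e]⟩
    rintro ⟨z, hz⟩
    have h1 : cB k m = κ.comp (cB k 1) := hκ.comp_cB.symm
    rw [h1, Umap_comp] at hz
    have h2 : IsConst (w i) := ⟨z, Umap_injective (hκ.injective hp) hz⟩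
    exact hε1 i hi ((hε i hi).unique (eig_one_of_isConst h2) (hne i hi))
  obtain ⟨α, hα⟩ := exists_equiv_NF hp hp' hd hκ hκ'
  have hc : κ'.comp (α : Bm k 1 →+* Bm k 1) = κ := RingHom.ext hα
  have hk : Keeps S w w' α := fun j hj => by
    obtain ⟨c, hc0, e⟩ := h j hj
    refine ⟨c, hc0, Umap_injective (hκ'.injective hp') ?_⟩
    simp only at e ⊢
    rw [← Umap_comp, hc, e, map_smul]
  have hww : w = w' := hw.2.symm.trans ((rep_congr_NF hk).trans hw'.2)
  refine ⟨hww, iB_injective_NF ?_⟩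
  subst hww
  rw [← hκ.apply_X0_NF, ← hκ'.apply_X0_NF, ← hα, hw.1.2 α hk]

end

end Pool.Agent.MP_e2821c_ag.Cy
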