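import Pool.Agent.Lib.MP_e2821c_ag.Cy.Core3

namespace Pool.Agent.MP_e2821c_ag.Cy

open MvPolynomial
open scoped TensorProduct

universe u v w

noncomputable section

theorem etale_extend_deriv {R S T : Type*} [CommRing R] [CommRing S] [CommRing T] [Algebra R S]
    [Algebra S T] [Algebra R T] [IsScalarTower R S T] [Algebra.FormallyEtale S T]
    (d : Derivation R S T) : ∃ D : Derivation R T T, ∀ s, D (algebraMap S T s) = d s := by
  refine ⟨((d.liftKaehlerDifferential.liftBaseChange T).comp
    (KaehlerDifferential.tensorKaehlerEquivOfFormallyEtale R S T).symm.toLinearMap).compDer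
      (KaehlerDifferential.D R T), fun s => ?_⟩
  simp [KaehlerDifferential.tensorKaehlerEquivOfFormallyEtale_symm_D_algebraMap]

theorem sum_apply_deriv {R A M ι : Type*} [CommRing R] [CommRing A] [Algebra R A] [AddCommGroup M]
    [Module A M] [Module R M] (t : Finset ι) (D : ι → Derivation R A M) (x : A) :
    (∑ i ∈ t, D i) x = ∑ i ∈ t, D i x := by
  classical
  induction t using Finset.induction_on with
  | empty => simp
  | insert a t ha ih => rw [Finset.sum_insert ha, Finset.sum_insert ha, Derivation.add_apply, ih]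

theorem poly_eval_deriv {R Ω : Type*} [CommRing R] [CommRing Ω] [Algebra R Ω]
    (D : Derivation R Ω Ω) (x : Ω) (q : Polynomial Ω) (hq : ∀ i, D (q.coeff i) = 0) :
    D (q.eval x) = q.derivative.eval x * D x := by
  rw [Polynomial.eval_eq_sum_range, map_sum, Polynomial.derivative_eval, Polynomial.sum_over_range,
    Finset.sum_mul]
  · refine Finset.sum_congr rfl fun i _ => ?_
    rw [Derivation.leibniz, hq, smul_zero, add_zero, Derivation.leibniz_pow]
    simp only [smul_eq_mul, nsmul_eq_mul]
    ring
  · intro n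
    simp

theorem poly_root_deriv {R Ω : Type*} [CommRing R] [Field Ω] [CharZero Ω] [Algebra R Ω]
    (D : Derivation R Ω Ω) (x : Ω) (n : ℕ) : ∀ q : Polynomial Ω, q.natDegree = n → q ≠ 0 →
      (∀ i, D (q.coeff i) = 0) → q.eval x = 0 → D x = 0 := by
  induction n using Nat.strong_induction_on with
  | _ n ih =>
    intro q hn hq hc hx
    have h1 := poly_eval_deriv D x q hc
    rw [hx, map_zero] at h1
    rcases mul_eq_zero.1 h1.symm with h2 | h2
    · have h0 : q.natDegree ≠ 0 := by
        intro h0
        rw [Polynomial.eq_C_of_natDegree_eq_zero h0] at hx hq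
        rw [Polynomial.eval_C] at hx
        exact hq (by rw [hx, map_zero])
      refine ih _ (hn ▸ Polynomial.natDegree_derivative_lt h0) _ rfl
        (fun h => h0 (Polynomial.derivative_eq_zero.1 h)) (fun i => ?_) h2
      rw [Polynomial.coeff_derivative, Derivation.leibniz, hc, smul_zero, add_zero,
        ← Nat.cast_succ, Derivation.map_natCast, smul_zero]
    · exact h2

theorem alg_deriv {R B Ω : Type*} [CommRing R] [CommRing B] [Field Ω] [CharZero Ω] [Algebra R Ω]
    [Algebra B Ω] (hi : Function.Injective (algebraMap B Ω)) (D : Derivation R Ω Ω)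
    (h : ∀ b, D (algebraMap B Ω b) = 0) {x : Ω} (hx : IsAlgebraic B x) : D x = 0 := by
  obtain ⟨p, hp, hx⟩ := hx
  refine poly_root_deriv D x _ (p.map (algebraMap B Ω)) rfl
    ((Polynomial.map_ne_zero_iff hi).2 hp) (fun i => ?_) ?_
  · rw [Polynomial.coeff_map, h]
  · rwa [Polynomial.eval_map, ← Polynomial.aeval_def]

section

variable {k₁ Ω : Type u} [Field k₁] [CharZero k₁] [Field Ω] [Algebra k₁ Ω]

open scoped IntermediateField.algebraAdjoinAdjoin in
theorem exists_basis_deriv {ι : Type v} (y : ι → Ω) (hy : IsTranscendenceBasis k₁ y) (v : ι → Ω) :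
    ∃ D : Derivation k₁ Ω Ω, ∀ i, D (y i) = v i := by
  have e1 : Algebra.FormallyEtale (Algebra.adjoin k₁ (Set.range y))
      (IntermediateField.adjoin k₁ (Set.range y)) := .of_isLocalization (nonZeroDivisors _)
  have e2 : Algebra.IsAlgebraic (IntermediateField.adjoin k₁ (Set.range y)) Ω :=
    hy.isAlgebraic_field
  have e3 : Algebra.FormallyEtale (IntermediateField.adjoin k₁ (Set.range y)) Ω :=
    .of_isSeparable _ _
  have e4 : Algebra.FormallyEtale (Algebra.adjoin k₁ (Set.range y)) Ω :=
    .comp _ (IntermediateField.adjoin k₁ (Set.range y)) _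
  let : Algebra (MvPolynomial ι k₁) Ω := (aeval y : MvPolynomial ι k₁ →ₐ[k₁] Ω).toAlgebra
  have : IsScalarTower k₁ (MvPolynomial ι k₁) Ω := .of_algHom (aeval y)
  have hs : ∀ (p : MvPolynomial ι k₁) (w : Ω), p • w = aeval y p * w := fun _ _ => rfl
  have he : ∀ p : MvPolynomial ι k₁, (hy.1.aevalEquiv p : Ω) = aeval y p := fun p =>
    hy.1.algebraMap_aevalEquiv p
  let d : Derivation k₁ (Algebra.adjoin k₁ (Set.range y)) Ω :=
    Derivation.mk' ((mkDerivation k₁ v).toLinearMap.comp hy.1.aevalEquiv.symm.toLinearMap) (by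
      intro a b
      obtain ⟨p, rfl⟩ := hy.1.aevalEquiv.surjective a
      obtain ⟨q, rfl⟩ := hy.1.aevalEquiv.surjective b
      have h3 : ∀ (a : Algebra.adjoin k₁ (Set.range y)) (w : Ω), a • w = (a : Ω) * w :=
        fun _ _ => rfl
      rw [← map_mul, h3, h3, he, he]
      simp only [LinearMap.comp_apply, AlgEquiv.toLinearMap_apply, AlgEquiv.symm_apply_apply,
        Derivation.coeFn_coe, Derivation.leibniz, hs])
  obtain ⟨D, hD⟩ := etale_extend_deriv d
  refine ⟨D, fun i => ?_⟩
  have h4 := hD (hy.1.aevalEquiv (X i))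
  rw [hy.1.algebraMap_aevalEquiv, aeval_X] at h4
  rw [h4]
  change mkDerivation k₁ v (hy.1.aevalEquiv.symm (hy.1.aevalEquiv (X i))) = v i
  rw [AlgEquiv.symm_apply_apply, mkDerivation_X]

theorem exists_derivation {ι : Type v} (y : ι → Ω) (hy : AlgebraicIndependent k₁ y) (v : ι → Ω) :
    ∃ D : Derivation k₁ Ω Ω, ∀ i, D (y i) = v i := by
  obtain ⟨t, ht, hb⟩ := exists_isTranscendenceBasis_superset (R := k₁) (s := Set.range y)
    hy.to_subtype_range
  obtain ⟨D, hD⟩ := exists_basis_deriv ((↑) : t → Ω) hb fun x => Function.extend y v 0 x.1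
  refine ⟨D, fun i => ?_⟩
  rw [hD ⟨y i, ht ⟨i, rfl⟩⟩]
  exact hy.injective.extend_apply v 0 i

theorem derivation_eq_zero (D : Derivation k₁ Ω Ω) (S : Set Ω) (hS : ∀ x ∈ S, D x = 0) (x : Ω)
    (hx : IsAlgebraic (Algebra.adjoin k₁ S) x) : D x = 0 := by
  have : CharZero Ω := charZero_of_injective_algebraMap (algebraMap k₁ Ω).injective
  refine alg_deriv Subtype.val_injective D (fun b => ?_) hx
  obtain ⟨b, hb⟩ := b
  change D b = 0
  induction hb using Algebra.adjoin_induction with
  | mem x hx => exact hS x hx
  | algebraMap r => exact D.map_algebraMap r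
  | add x y _ _ hx hy => rw [map_add, hx, hy, add_zero]
  | mul x y _ _ hx hy => rw [Derivation.leibniz, hx, hy, smul_zero, smul_zero, add_zero]

theorem isAlgebraic_of_derivations (x : Ω) (h : ∀ D : Derivation k₁ Ω Ω, D x = 0) :
    IsAlgebraic k₁ x := by
  by_contra hx
  obtain ⟨D, hD⟩ := exists_derivation (fun _ : Unit => x)
    (algebraicIndependent_unique_type_iff.2 hx) fun _ => 1
  exact one_ne_zero ((hD ()).symm.trans (h D))

end

variable (k : Type u) [Field k] [CharZero k] (m : ℕ)

omit [CharZero k] in
theorem inj_deriv : Function.Injective (algebraMap (Base k m) (Omm k m)) := by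
  rw [IsScalarTower.algebraMap_eq (Base k m) (Km k m) (Omm k m)]
  exact (algebraMap (Km k m) (Omm k m)).injective.comp (IsFractionRing.injective _ _)

theorem zero_deriv (D : Derivation k (Omm k m) (Omm k m))
    (h : ∀ p : Base k m, D (algebraMap (Base k m) (Omm k m) p) = 0) (x : Omm k m) : D x = 0 := by
  have : CharZero (Omm k m) := charZero_of_injective_algebraMap (algebraMap k _).injective
  exact alg_deriv (inj_deriv k m) D h ((IsFractionRing.isAlgebraic_iff (Base k m) (Km k m)
    (Omm k m)).2 (Algebra.IsAlgebraic.isAlgebraic x))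

omit [CharZero k] in
theorem const_deriv (D : Derivation k (Omm k m) (Omm k m)) (c : k) :
    D (algebraMap (Base k m) (Omm k m) (C c)) = 0 := by
  rw [← MvPolynomial.algebraMap_eq, ← IsScalarTower.algebraMap_apply, D.map_algebraMap]

/-- The derivations of the algebraic closure extending the coordinate derivations. -/
def Dm (i : Fin m) : Derivation k (Omm k m) (Omm k m) :=
  Classical.epsilon fun D => ∀ p : Base k m,
    D (algebraMap (Base k m) (Omm k m) p) = algebraMap (Base k m) (Omm k m) (pderiv i p)

theorem Dm_algebraMap (i : Fin m) (p : Base k m) :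
    Dm k m i (algebraMap (Base k m) (Omm k m) p) =
      algebraMap (Base k m) (Omm k m) (pderiv i p) := by
  revert p
  refine Classical.epsilon_spec (p := fun D : Derivation k (Omm k m) (Omm k m) => ∀ p : Base k m,
    D (algebraMap (Base k m) (Omm k m) p) = algebraMap (Base k m) (Omm k m) (pderiv i p)) ?_
  obtain ⟨D, hD⟩ := exists_derivation _ ((MvPolynomial.algebraicIndependent_X (Fin m) k).map'
    (f := IsScalarTower.toAlgHom k (Base k m) (Omm k m)) (inj_deriv k m))
    fun j => algebraMap (Base k m) (Omm k m) (pderiv i (X j))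
  refine ⟨D, fun p => ?_⟩
  induction p using MvPolynomial.induction_on with
  | C c => rw [const_deriv, pderiv_C, map_zero]
  | add p q hp hq => rw [map_add, map_add, hp, hq, map_add, map_add]
  | mul_X p j hp =>
    have h1 : D (algebraMap (Base k m) (Omm k m) (X j)) = _ := hD j
    rw [map_mul, Derivation.leibniz, hp, h1, Derivation.leibniz]
    simp only [smul_eq_mul, map_add, map_mul]

theorem derivation_eq_sum (D : Derivation k (Omm k m) (Omm k m)) (x : Omm k m) :
    D x = ∑ i, D (algebraMap (Base k m) (Omm k m) (X i)) * Dm k m i x := by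
  have h := zero_deriv k m
    (D - ∑ i, D (algebraMap (Base k m) (Omm k m) (X i)) • Dm k m i) (fun p => ?_) x
  · rw [Derivation.sub_apply, sum_apply_deriv, sub_eq_zero] at h
    simpa only [Derivation.smul_apply, smul_eq_mul] using h
  · induction p using MvPolynomial.induction_on with
    | C c => exact const_deriv k m _ c
    | add p q hp hq => rw [map_add, map_add, hp, hq, add_zero]
    | mul_X p j hp =>
      rw [map_mul, Derivation.leibniz, hp, smul_zero, add_zero, Derivation.sub_apply,
        sum_apply_deriv, Finset.sum_eq_single j]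
      · simp [Dm_algebraMap]
      · intro i _ hi
        rw [Derivation.smul_apply, Dm_algebraMap, pderiv_X_of_ne hi.symm, map_zero, smul_zero]
      · simp

theorem Dm_comm (i l : Fin m) (x : Omm k m) : Dm k m i (Dm k m l x) = Dm k m l (Dm k m i x) := by
  have h := zero_deriv k m ⁅Dm k m i, Dm k m l⁆ (fun p => ?_) x
  · rwa [Derivation.commutator_apply, sub_eq_zero] at h
  · rw [Derivation.commutator_apply, Dm_algebraMap, Dm_algebraMap, Dm_algebraMap, Dm_algebraMap,
      sub_eq_zero]
    congr 1
    induction p using MvPolynomial.induction_on with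
    | C c => simp
    | add p q hp hq => simp only [map_add, hp, hq]
    | mul_X p j hp =>
      classical
      simp only [Derivation.leibniz, smul_eq_mul, map_add, hp, pderiv_X, Pi.single_apply]
      split_ifs <;> simp [add_comm, add_left_comm]

theorem Dm_gal (i : Fin m) (σ : Omm k m ≃ₐ[Km k m] Omm k m) (x : Omm k m) :
    Dm k m i (σ x) = σ (Dm k m i x) := by
  have hσ : ∀ (τ : Omm k m ≃ₐ[Km k m] Omm k m) (p : Base k m),
      τ (algebraMap (Base k m) (Omm k m) p) = algebraMap (Base k m) (Omm k m) p := by
    intro τ p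
    rw [IsScalarTower.algebraMap_apply (Base k m) (Km k m) (Omm k m), AlgEquiv.commutes]
  let D : Derivation k (Omm k m) (Omm k m) :=
    Derivation.mk' (((σ.symm.restrictScalars k).toLinearMap.comp (Dm k m i).toLinearMap).comp
      (σ.restrictScalars k).toLinearMap) (by
        intro a b
        change σ.symm (Dm k m i (σ (a * b))) =
          a * σ.symm (Dm k m i (σ b)) + b * σ.symm (Dm k m i (σ a))
        rw [map_mul, Derivation.leibniz]
        simp only [smul_eq_mul, map_add, map_mul, AlgEquiv.symm_apply_apply])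
  have hD : ∀ y, D y = σ.symm (Dm k m i (σ y)) := fun _ => rfl
  have h := zero_deriv k m (D - Dm k m i) (fun p => ?_) x
  · rw [Derivation.sub_apply, sub_eq_zero, hD] at h
    rw [← h, AlgEquiv.apply_symm_apply]
  · rw [Derivation.sub_apply, hD, hσ, Dm_algebraMap, hσ, sub_self]

theorem Dm_mem_range (i : Fin m) (a : Km k m) :
    Dm k m i (algebraMap (Km k m) (Omm k m) a) ∈ (algebraMap (Km k m) (Omm k m)).range := by
  obtain ⟨p, q, hq, rfl⟩ := IsFractionRing.div_surjective (A := Base k m) a
  refine ⟨(algebraMap (Base k m) (Km k m) q)⁻¹ ^ 2 *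
    (algebraMap (Base k m) (Km k m) q * algebraMap (Base k m) (Km k m) (pderiv i p) -
      algebraMap (Base k m) (Km k m) p * algebraMap (Base k m) (Km k m) (pderiv i q)), ?_⟩
  simp only [map_mul, map_pow, map_inv₀, map_sub, map_div₀, ← IsScalarTower.algebraMap_apply]
  rw [Derivation.leibniz_div, Dm_algebraMap, Dm_algebraMap]
  simp only [smul_eq_mul]

theorem dep_of_jacobian {f f' : Base k m}
    (h : ∀ i l, pderiv i f * pderiv l f' = pderiv l f * pderiv i f') : Dep f f' := by
  intro hi
  have h0 := hi.map' (f := IsScalarTower.toAlgHom k (Base k m) (Omm k m)) (inj_deriv k m)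
  obtain ⟨D, hD⟩ := exists_derivation _ h0 ![1, 0]
  obtain ⟨E, hE⟩ := exists_derivation _ h0 ![0, 1]
  have a1 : D (algebraMap (Base k m) (Omm k m) f) = 1 := hD 0
  have a2 : D (algebraMap (Base k m) (Omm k m) f') = 0 := hD 1
  have a3 : E (algebraMap (Base k m) (Omm k m) f') = 1 := hE 1
  have key : D (algebraMap (Base k m) (Omm k m) f) * E (algebraMap (Base k m) (Omm k m) f') =
      D (algebraMap (Base k m) (Omm k m) f') * E (algebraMap (Base k m) (Omm k m) f) := by
    rw [derivation_eq_sum k m D (algebraMap _ _ f), derivation_eq_sum k m D (algebraMap _ _ f'),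
      derivation_eq_sum k m E (algebraMap _ _ f), derivation_eq_sum k m E (algebraMap _ _ f'),
      Finset.sum_mul_sum, Finset.sum_mul_sum]
    refine Finset.sum_congr rfl fun i _ => Finset.sum_congr rfl fun l _ => ?_
    simp only [Dm_algebraMap]
    have h1 := congrArg (algebraMap (Base k m) (Omm k m)) (h i l)
    rw [map_mul, map_mul] at h1
    linear_combination (D (algebraMap (Base k m) (Omm k m) (X i)) *
      E (algebraMap (Base k m) (Omm k m) (X l))) * h1
  rw [a1, a2, a3, one_mul, zero_mul] at key
  exact one_ne_zero key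

end

end Pool.Agent.MP_e2821c_ag.Cy
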