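import Pool.Agent.Lib.MP_e2821c_ag.Cy.Core3

namespace Pool.Agent.MP_e2821c_ag.Cy

open MvPolynomial
open scoped TensorProduct

universe u v w

noncomputable section

set_option linter.unusedSectionVars false

variable {k : Type u} [Field k] [CharZero k] {B B' : Type u} [CommRing B] [CommRing B']

theorem rat_tmul_eq_zero_UAlg {A : Type*} [AddCommGroup A] {x : A}
    (h : (1 : ℚ) ⊗ₜ[ℤ] x = 0) : ∃ M : ℕ, 0 < M ∧ M • x = 0 := by
  obtain ⟨s, hs⟩ := (IsLocalizedModule.eq_zero_iff (nonZeroDivisors ℤ)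
    (TensorProduct.mk ℤ ℚ A 1) (m := x)).1 h
  have h0 : (s : ℤ) ≠ 0 := nonZeroDivisors.ne_zero s.2
  have hs' : (s : ℤ) • x = 0 := hs
  refine ⟨(s : ℤ).natAbs, Int.natAbs_pos.2 h0, ?_⟩
  rw [← natCast_zsmul, Int.natCast_natAbs]
  rcases abs_choice (s : ℤ) with e | e
  · rw [e, hs']
  · rw [e, neg_smul, hs', neg_zero]

theorem torsion_UAlg {A : Type*} [AddCommGroup A] {r : ℕ} {lam : Fin r → k}
    (hl : LinearIndependent ℚ lam) {x : Fin r → A} (h : ∑ a, lam a ⊗ₜ[ℤ] x a = 0) :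
    ∃ M : ℕ, 0 < M ∧ ∀ a, M • x a = 0 := by
  classical
  obtain ⟨g, hg⟩ := LinearMap.exists_leftInverse_of_injective (Finsupp.linearCombination ℚ lam)
    (LinearMap.ker_eq_bot.2 hl)
  have hg1 : ∀ a b, g (lam b) a = if b = a then 1 else 0 := by
    intro a b
    have := LinearMap.congr_fun hg (Finsupp.single b 1)
    rw [LinearMap.comp_apply, Finsupp.linearCombination_single, one_smul, LinearMap.id_apply]
      at this
    rw [this, Finsupp.single_apply]
  have key : ∀ a, ∃ M : ℕ, 0 < M ∧ M • x a = 0 := by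
    intro a
    apply rat_tmul_eq_zero_UAlg
    have := congrArg (LinearMap.rTensor A
      (((Finsupp.lapply a).comp g : k →ₗ[ℚ] ℚ).toAddMonoidHom.toIntLinearMap)) h
    rw [map_zero, map_sum, Finset.sum_eq_single a] at this
    · rw [LinearMap.rTensor_tmul] at this
      have e : ((Finsupp.lapply a).comp g : k →ₗ[ℚ] ℚ).toAddMonoidHom.toIntLinearMap (lam a)
          = 1 := by
        show g (lam a) a = 1
        rw [hg1, if_pos rfl]
      rwa [e] at this
    · intro b _ hb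
      rw [LinearMap.rTensor_tmul]
      have e : ((Finsupp.lapply a).comp g : k →ₗ[ℚ] ℚ).toAddMonoidHom.toIntLinearMap (lam b)
          = 0 := by
        show g (lam b) a = 0
        rw [hg1, if_neg hb]
      rw [e, TensorProduct.zero_tmul]
    · intro ha
      exact absurd (Finset.mem_univ a) ha
  choose M hM0 hM using key
  refine ⟨∏ a, M a, Finset.prod_pos fun a _ => hM0 a, fun a => ?_⟩
  obtain ⟨c, hc⟩ := Finset.dvd_prod_of_mem M (Finset.mem_univ a)
  rw [hc, mul_comm, mul_smul, hM, smul_zero]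

theorem smul_ulog_UAlg (c : k) (x : Bˣ) : c • ulog k x = c ⊗ₜ[ℤ] Additive.ofMul x := by
  rw [ulog, TensorProduct.smul_tmul', smul_eq_mul, mul_one]

/-- The quotient map by a subgroup of the units. -/
def qmap_UAlg (H : Subgroup Bˣ) :
    Additive Bˣ →ₗ[ℤ] Additive Bˣ ⧸ AddSubgroup.toIntSubmodule (Subgroup.toAddSubgroup H) :=
  (AddSubgroup.toIntSubmodule (Subgroup.toAddSubgroup H)).mkQ

theorem qmap_eq_zero_UAlg (H : Subgroup Bˣ) (y : Bˣ) :
    qmap_UAlg H (Additive.ofMul y) = 0 ↔ y ∈ H :=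
  Submodule.Quotient.mk_eq_zero _

theorem pow_mem_UAlg {r : ℕ} {lam : Fin r → k} (hl : LinearIndependent ℚ lam) {x : Fin r → Bˣ}
    (H : Subgroup Bˣ)
    (h : LinearMap.lTensor k (qmap_UAlg H)
      (∑ a, lam a • ulog k (x a)) = 0) : ∃ M : ℕ, 0 < M ∧ ∀ a, x a ^ M ∈ H := by
  rw [map_sum] at h
  simp only [smul_ulog_UAlg, LinearMap.lTensor_tmul] at h
  obtain ⟨M, hM0, hM⟩ := torsion_UAlg hl h
  refine ⟨M, hM0, fun a => ?_⟩
  rw [← qmap_eq_zero_UAlg, ofMul_pow, map_nsmul]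
  exact hM a

theorem kill_UAlg (H : Subgroup Bˣ) (c : k) {y : Bˣ} (hy : y ∈ H) :
    LinearMap.lTensor k (qmap_UAlg H)
      (c ⊗ₜ[ℤ] Additive.ofMul y) = 0 := by
  rw [LinearMap.lTensor_tmul, (qmap_eq_zero_UAlg H y).2 hy, TensorProduct.tmul_zero]

theorem repr_step_UAlg {A : Type*} [AddCommGroup A] {r : ℕ} {lam : Fin r → k}
    (hl : LinearIndependent ℚ lam) (x : Fin r → A) (c : k) (y : A) :
    ∃ (r' : ℕ) (lam' : Fin r' → k) (x' : Fin r' → A), LinearIndependent ℚ lam' ∧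
      c ⊗ₜ[ℤ] y + ∑ a, lam a ⊗ₜ[ℤ] x a = ∑ a, lam' a ⊗ₜ[ℤ] x' a := by
  by_cases hc : c ∈ Submodule.span ℚ (Set.range lam)
  · obtain ⟨q, rfl⟩ := (Submodule.mem_span_range_iff_exists_fun ℚ).1 hc
    obtain ⟨N, hN⟩ := IsLocalization.exist_integer_multiples_of_finite (nonZeroDivisors ℤ) q
    choose n hn using hN
    have h0 : ((N : ℤ) : ℚ) ≠ 0 := Int.cast_ne_zero.2 (nonZeroDivisors.ne_zero N.2)
    refine ⟨r, fun a => ((N : ℤ) : ℚ)⁻¹ • lam a, fun a => n a • y + (N : ℤ) • x a, ?_, ?_⟩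
    · exact hl.units_smul fun _ => Units.mk0 _ (inv_ne_zero h0)
    · rw [TensorProduct.sum_tmul, ← Finset.sum_add_distrib]
      refine Finset.sum_congr rfl fun a _ => ?_
      have e : ((n a : ℤ) : ℚ) = ((N : ℤ) : ℚ) * q a := by
        have := hn a
        rw [zsmul_eq_mul] at this
        exact this
      rw [TensorProduct.tmul_add, ← TensorProduct.smul_tmul, ← TensorProduct.smul_tmul,
        ← Int.cast_smul_eq_zsmul ℚ, ← Int.cast_smul_eq_zsmul ℚ, smul_smul, smul_smul, e,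
        mul_inv_cancel₀ h0, one_smul, mul_right_comm, mul_inv_cancel₀ h0, one_mul]
  · refine ⟨r + 1, Fin.cons c lam, Fin.cons y x, hl.finCons hc, ?_⟩
    rw [Fin.sum_univ_succ]
    simp only [Fin.cons_zero, Fin.cons_succ]

theorem exists_repr (u : Uo k B) : ∃ (r : ℕ) (lam : Fin r → k) (x : Fin r → Bˣ),
    LinearIndependent ℚ lam ∧ u = ∑ a, lam a • ulog k (x a) := by
  classical
  have key : ∃ (r : ℕ) (lam : Fin r → k) (x : Fin r → Additive Bˣ),
      LinearIndependent ℚ lam ∧ u = ∑ a, lam a ⊗ₜ[ℤ] x a := by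
    obtain ⟨S, rfl⟩ := TensorProduct.exists_finset u
    induction S using Finset.induction_on with
    | empty => exact ⟨0, Fin.elim0, Fin.elim0, linearIndependent_empty_type, by simp⟩
    | insert p S hp ih =>
      obtain ⟨r, lam, x, hl, e⟩ := ih
      obtain ⟨r', lam', x', hl', e'⟩ := repr_step_UAlg hl x p.1 p.2
      exact ⟨r', lam', x', hl', by rw [Finset.sum_insert hp, e, e']⟩
  obtain ⟨r, lam, x, hl, e⟩ := key
  refine ⟨r, lam, fun a => (x a).toMul, hl, ?_⟩
  rw [e]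
  exact Finset.sum_congr rfl fun a _ => (smul_ulog_UAlg (lam a) (x a).toMul).symm

theorem pow_eq_of_repr_eq {r : ℕ} {lam : Fin r → k} (hl : LinearIndependent ℚ lam)
    {x y : Fin r → Bˣ} (h : ∑ a, lam a • ulog k (x a) = ∑ a, lam a • ulog k (y a)) :
    ∃ M : ℕ, 0 < M ∧ ∀ a, x a ^ M = y a ^ M := by
  have h' : ∑ a, lam a ⊗ₜ[ℤ] (Additive.ofMul (x a) - Additive.ofMul (y a)) = 0 := by
    simp only [TensorProduct.tmul_sub, Finset.sum_sub_distrib, ← smul_ulog_UAlg]
    exact sub_eq_zero.2 h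
  obtain ⟨M, hM0, hM⟩ := torsion_UAlg hl h'
  refine ⟨M, hM0, fun a => ?_⟩
  have := hM a
  rw [nsmul_sub, sub_eq_zero] at this
  exact this

theorem pow_mem_of_repr_eq {r r' : ℕ} {lam : Fin r → k} (hl : LinearIndependent ℚ lam)
    {x : Fin r → Bˣ} {mu : Fin r' → k} {y : Fin r' → Bˣ}
    (h : ∑ a, lam a • ulog k (x a) = ∑ a, mu a • ulog k (y a)) :
    ∃ M : ℕ, 0 < M ∧ ∀ a, x a ^ M ∈ Subgroup.closure (Set.range y) := by
  refine pow_mem_UAlg hl _ ?_
  rw [h, map_sum]
  refine Finset.sum_eq_zero fun a _ => ?_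
  rw [smul_ulog_UAlg]
  exact kill_UAlg _ _ (Subgroup.subset_closure ⟨a, rfl⟩)

theorem pow_mem_range_of_mem {r : ℕ} {lam : Fin r → k} (hl : LinearIndependent ℚ lam)
    {x : Fin r → B'ˣ} (f : B →+* B')
    (h : ∑ a, lam a • ulog k (x a) ∈ LinearMap.range (Umap k f)) :
    ∃ M : ℕ, 0 < M ∧ ∀ a, x a ^ M ∈ (umap f).range := by
  refine pow_mem_UAlg hl _ ?_
  obtain ⟨u, hu⟩ := h
  rw [← hu]
  clear hu
  induction u using TensorProduct.induction_on with
  | zero => rw [map_zero, map_zero]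
  | tmul c z =>
    rw [Umap_tmul]
    exact kill_UAlg _ _ ⟨_, rfl⟩
  | add a b ha hb => rw [map_add, map_add, ha, hb, add_zero]

theorem ulog_pow (x : Bˣ) (M : ℕ) : ulog k (x ^ M) = (M : k) • ulog k x := by
  induction M with
  | zero => rw [pow_zero, ulog_one, Nat.cast_zero, zero_smul]
  | succ M ih => rw [pow_succ, ulog_mul, ih, Nat.cast_succ, add_smul, one_smul]

theorem ulog_eq_zero_iff (x : Bˣ) : ulog k x = 0 ↔ ∃ M : ℕ, 0 < M ∧ x ^ M = 1 := by
  constructor
  · intro h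
    have hl : LinearIndependent ℚ fun _ : Fin 1 => (1 : k) :=
      linearIndependent_unique_iff.2 one_ne_zero
    obtain ⟨M, hM0, hM⟩ := torsion_UAlg hl (x := fun _ => Additive.ofMul x)
      (by rw [Fin.sum_univ_one]; exact h)
    exact ⟨M, hM0, hM 0⟩
  · rintro ⟨M, hM0, hM⟩
    have := ulog_pow (k := k) x M
    rw [hM, ulog_one] at this
    have h0 : (M : k) ≠ 0 := Nat.cast_ne_zero.2 hM0.ne'
    rw [← one_smul k (ulog k x), ← inv_mul_cancel₀ h0, mul_smul, ← this, smul_zero]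

theorem Umap_injective {f : B →+* B'} (hf : Function.Injective f) :
    Function.Injective (Umap k f) := by
  rw [injective_iff_map_eq_zero]
  intro u hu
  obtain ⟨r, lam, x, hl, rfl⟩ := exists_repr u
  rw [map_sum] at hu
  simp only [smul_ulog_UAlg, Umap_tmul] at hu
  obtain ⟨M, hM0, hM⟩ := torsion_UAlg hl hu
  refine Finset.sum_eq_zero fun a _ => ?_
  have h1 : umap f (x a) ^ M = 1 := hM a
  have h2 : x a ^ M = 1 := by
    rw [← map_pow] at h1
    refine Units.ext (hf ?_)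
    rw [Units.val_one, map_one, ← coe_umap, h1, Units.val_one]
  rw [(ulog_eq_zero_iff (x a)).2 ⟨M, hM0, h2⟩, smul_zero]

theorem eq_zero_of_ordK {r : ℕ} {lam : Fin r → k} (hl : LinearIndependent ℚ lam) {x : Fin r → Bˣ}
    (ord : Additive Bˣ →+ ℚ) (h : ordK k ord (∑ a, lam a • ulog k (x a)) = 0) (a : Fin r) :
    ord (Additive.ofMul (x a)) = 0 := by
  refine Fintype.linearIndependent_iff.1 hl (fun a => ord (Additive.ofMul (x a))) ?_ a
  rw [map_sum] at h
  rw [← h]
  refine Finset.sum_congr rfl fun b _ => ?_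
  rw [map_smul, ordK_ulog, smul_eq_mul, Rat.smul_def, mul_comm]

theorem ordK_Umap (f : B →+* B') (ord : Additive B'ˣ →+ ℚ) (u : Uo k B) :
    ordK k ord (Umap k f u) = ordK k (ord.comp (MonoidHom.toAdditive (umap f))) u := by
  induction u using TensorProduct.induction_on with
  | zero => rw [map_zero, map_zero, map_zero]
  | tmul c z =>
    rw [Umap_tmul, ordK_tmul, ordK_tmul]
    rfl
  | add a b ha hb => rw [map_add, map_add, map_add, ha, hb]

theorem Umap_congr (u : Uo k B) : ∃ E : Finset B, ∀ (B' : Type u) [CommRing B'] (f g : B →+* B'),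
    (∀ e ∈ E, f e = g e) → Umap k f u = Umap k g u := by
  classical
  induction u using TensorProduct.induction_on with
  | zero => exact ⟨∅, fun B' _ f g _ => by rw [map_zero, map_zero]⟩
  | tmul c z =>
    refine ⟨{((z.toMul : Bˣ) : B)}, fun B' _ f g h => ?_⟩
    have : umap f z.toMul = umap g z.toMul := Units.ext (h _ (Finset.mem_singleton_self _))
    rw [Umap_tmul, Umap_tmul, this]
  | add a b ha hb =>
    obtain ⟨E, hE⟩ := ha
    obtain ⟨E', hE'⟩ := hb
    refine ⟨E ∪ E', fun B' _ f g h => ?_⟩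
    rw [map_add, map_add, hE B' f g fun e he => h e (Finset.mem_union_left _ he),
      hE' B' f g fun e he => h e (Finset.mem_union_right _ he)]

end

end Pool.Agent.MP_e2821c_ag.Cy
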