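import Pool.Agent.Lib.MP_e2821c_ag.Cy.Small
import Pool.Agent.Lib.MP_e2821c_ag.Cy.Deriv
import Pool.Agent.Lib.MP_e2821c_ag.Cy.UAlg

namespace Pool.Agent.MP_e2821c_ag.Cy

open MvPolynomial
open scoped TensorProduct

universe u v w

noncomputable section

theorem ax {k k₁ Ω : Type u} [Field k] [CharZero k] [Field k₁] [Field Ω] [Algebra k k₁]
    [Algebra k₁ Ω] [Algebra k Ω] [IsScalarTower k k₁ Ω] {r : ℕ} {lam : Fin r → k}
    (hl : LinearIndependent ℚ lam) (x : Fin r → Ωˣ)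
    (h : ∀ D : Derivation k₁ Ω Ω, ell k D (∑ a, lam a • ulog k (x a)) = 0) (a : Fin r) :
    IsAlgebraic k₁ (x a : Ω) := by
  refine CyV.ax k₁ Finset.univ lam (fun a => (x a : Ω))
    (fun q hq a _ => Fintype.linearIndependent_iff.mp hl q hq a) (fun a _ => (x a).ne_zero)
    (fun D => ?_) a (Finset.mem_univ a)
  simpa [map_sum, Algebra.smul_def] using h D

end

end Pool.Agent.MP_e2821c_ag.Cy
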