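import Pool.Agent.Lib.MP_e2821c_ag.Cy.Lift
import Pool.Agent.Lib.MP_e2821c_ag.Cy.Deriv
import Pool.Agent.Lib.MP_e2821c_ag.Cy.UAlg

namespace Pool.Agent.MP_e2821c_ag.Cy

open MvPolynomial
open scoped TensorProduct

universe u v w

noncomputable section

section General

variable {k : Type u} [Field k] {S : Type v} [CommRing S] [Algebra k S]

theorem pair_iff_Pencil0 (a b : S) : AlgebraicIndependent k ![a, b] ↔
    Transcendental k a ∧ Transcendental (Algebra.adjoin k {a}) b := by
  have h := AlgebraicIndependent.option_iff (R := k) (x := fun _ : Fin 1 => a) (a := b)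
  rw [algebraicIndependent_unique_type_iff (x := fun _ : Fin 1 => a), Set.range_const] at h
  rw [← h]
  refine algebraicIndependent_equiv' (R := k) (A := S) (finSuccEquiv' (1 : Fin 2)) ?_
  funext i
  fin_cases i
  · rfl
  · rfl

theorem pair_symm_Pencil0 {a b : S} (h : AlgebraicIndependent k ![a, b]) :
    AlgebraicIndependent k ![b, a] := by
  have := h.comp ![(1 : Fin 2), 0] (by decide)
  convert this using 1
  funext i
  fin_cases i <;> rfl

theorem mem_range_Pencil0 [IsAlgClosed k] [IsDomain S] {a : S} (h : IsAlgebraic k a) :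
    a ∈ (algebraMap k S).range :=
  minpoly.mem_range_of_degree_eq_one k a
    (IsAlgClosed.degree_eq_one_of_irreducible k (minpoly.irreducible h.isIntegral))

theorem alg_trans_Pencil0 [IsDomain S] {a b c : S} (hb : IsAlgebraic (Algebra.adjoin k {a}) b)
    (hc : IsAlgebraic (Algebra.adjoin k {b}) c) : IsAlgebraic (Algebra.adjoin k {a}) c :=
  IsAlgebraic.adjoin_of_forall_isAlgebraic (fun x hx => by
    obtain rfl : x = b := hx.1
    exact hb) hc

theorem alg_of_alg_Pencil0 [IsDomain S] (a : S) {b : S} (hb : IsAlgebraic k b) :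
    IsAlgebraic (Algebra.adjoin k {a}) b :=
  hb.extendScalars (algebraMap k (Algebra.adjoin k {a})).injective

theorem alg_base_Pencil0 [IsDomain S] {a b : S} (ha : IsAlgebraic k a)
    (hb : IsAlgebraic (Algebra.adjoin k {a}) b) : IsAlgebraic k b := by
  have : Algebra.IsAlgebraic k (Algebra.adjoin k {a}) := by
    rw [← Subalgebra.isAlgebraic_iff, Algebra.isAlgebraic_adjoin_singleton_iff]
    exact ha
  exact hb.restrictScalars k

theorem exchange_Pencil0 [IsDomain S] {a b : S} (hb : Transcendental k b)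
    (h : IsAlgebraic (Algebra.adjoin k {a}) b) : IsAlgebraic (Algebra.adjoin k {b}) a := by
  by_contra hn
  have h1 : AlgebraicIndependent k ![b, a] := (pair_iff_Pencil0 b a).2 ⟨hb, hn⟩
  exact ((pair_iff_Pencil0 a b).1 (pair_symm_Pencil0 h1)).2 h

/-- Evaluation of a polynomial on the line at an element of an algebra. -/
def evS_Pencil0 (g : S) : Base k 1 →+* S := (aeval fun _ => g).toRingHom

theorem evS_injective_Pencil0 {g : S} (hg : Transcendental k g) :
    Function.Injective (evS_Pencil0 (k := k) g) :=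
  algebraicIndependent_iff_injective_aeval.1
    ((algebraicIndependent_unique_type_iff (x := fun _ : Fin 1 => g)).2 hg)

theorem comp_evS_Pencil0 {S' : Type w} [CommRing S'] [Algebra k S'] (ψ : S →ₐ[k] S') (g : S) :
    (ψ : S →+* S').comp (evS_Pencil0 (k := k) g) = evS_Pencil0 (ψ g) :=
  MvPolynomial.ringHom_ext (fun c => by simp [evS_Pencil0]) fun i => by simp [evS_Pencil0]

theorem evS_mem_Pencil0 (g : S) (p : Base k 1) :
    evS_Pencil0 (k := k) g p ∈ Algebra.adjoin k {g} := by
  have h := Algebra.adjoin_range_eq_range_aeval k (fun _ : Fin 1 => g)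
  rw [Set.range_const] at h
  rw [h]
  exact ⟨p, rfl⟩

/-- The evaluation with values in the generated subalgebra. -/
def evA_Pencil0 (g : S) : Base k 1 →+* Algebra.adjoin k {g} :=
  (evS_Pencil0 (k := k) g).codRestrict _ (evS_mem_Pencil0 g)

theorem evA_surjective_Pencil0 (g : S) : Function.Surjective (evA_Pencil0 (k := k) g) := by
  rintro ⟨x, hx⟩
  have h := Algebra.adjoin_range_eq_range_aeval k (fun _ : Fin 1 => g)
  rw [Set.range_const] at h
  rw [h] at hx
  obtain ⟨p, rfl⟩ := hx
  exact ⟨p, rfl⟩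

theorem comp_evA_Pencil0 (g : S) :
    (algebraMap (Algebra.adjoin k {g}) S).comp (evA_Pencil0 (k := k) g) = evS_Pencil0 g := rfl

theorem isIntegral_of_evS_Pencil0 {g z : S} (h : (evS_Pencil0 (k := k) g).IsIntegralElem z) :
    IsIntegral (Algebra.adjoin k {g}) z := by
  rw [← comp_evA_Pencil0] at h
  exact h.of_comp

theorem exists_poly_Pencil0 {g z : S} (h : IsAlgebraic (Algebra.adjoin k {g}) z) :
    ∃ q : Polynomial (Base k 1), q.map (evS_Pencil0 (k := k) g) ≠ 0 ∧
      q.eval₂ (evS_Pencil0 (k := k) g) z = 0 := by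
  obtain ⟨p, hp, hz⟩ := h
  obtain ⟨q, rfl⟩ := Polynomial.map_surjective _ (evA_surjective_Pencil0 (k := k) g) p
  refine ⟨q, ?_, ?_⟩
  · rw [← comp_evA_Pencil0, ← Polynomial.map_map]
    exact (Polynomial.map_ne_zero_iff Subtype.val_injective).2 hp
  · rwa [Polynomial.aeval_def, Polynomial.eval₂_map, comp_evA_Pencil0] at hz

theorem isAlgebraic_of_poly_Pencil0 {g z : S} {q : Polynomial (Base k 1)}
    (hq : q.map (evS_Pencil0 (k := k) g) ≠ 0) (hz : q.eval₂ (evS_Pencil0 (k := k) g) z = 0) :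
    IsAlgebraic (Algebra.adjoin k {g}) z := by
  refine ⟨q.map (evA_Pencil0 g), fun h => hq ?_, ?_⟩
  · rw [← comp_evA_Pencil0, ← Polynomial.map_map, h, Polynomial.map_zero]
  · rwa [Polynomial.aeval_def, Polynomial.eval₂_map, comp_evA_Pencil0]

theorem integral_line_Pencil0 {g : Polynomial k} (hg : g.natDegree ≠ 0) (z : Polynomial k) :
    (evS_Pencil0 (k := k) g).IsIntegralElem z := by
  have hg0 : g ≠ 0 := fun h => hg (by rw [h, Polynomial.natDegree_zero])
  have hC : (evS_Pencil0 (k := k) g).comp C = Polynomial.C :=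
    RingHom.ext fun c => by simp [evS_Pencil0]
  have hX : (evS_Pencil0 (k := k) g).IsIntegralElem Polynomial.X := by
    have hm : (g * Polynomial.C g.leadingCoeff⁻¹).Monic := Polynomial.monic_mul_leadingCoeff_inv hg0
    refine ⟨(g * Polynomial.C g.leadingCoeff⁻¹).map C -
      Polynomial.C (X0 k * C g.leadingCoeff⁻¹), (hm.map _).sub_of_left ?_, ?_⟩
    · rw [hm.degree_map, Polynomial.degree_mul_leadingCoeff_inv _ hg0]
      exact Polynomial.degree_C_le.trans_lt
        (Polynomial.natDegree_pos_iff_degree_pos.1 (Nat.pos_of_ne_zero hg))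
    · rw [Polynomial.eval₂_sub, Polynomial.eval₂_map, hC, Polynomial.eval₂_C_X,
        Polynomial.eval₂_C]
      simp [evS_Pencil0, X0]
  induction z using Polynomial.induction_on with
  | C a =>
    rw [← hC]
    exact RingHom.isIntegralElem_map _
  | add p q hp hq => exact hp.add _ hq
  | monomial n a h =>
    rw [pow_succ, ← mul_assoc]
    exact h.mul _ hX

theorem integral_of_line_Pencil0 [IsDomain S] {f p : S} (ψ : S →ₐ[k] Polynomial k)
    (hψ : (ψ f).natDegree ≠ 0) (hp : IsAlgebraic (Algebra.adjoin k {f}) p) :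
    (evS_Pencil0 (k := k) f).IsIntegralElem p := by
  obtain ⟨Q, hQ, hQp⟩ := integral_line_Pencil0 hψ (ψ p)
  refine ⟨Q, hQ, ?_⟩
  by_contra hw
  have hψw : (ψ : S →+* Polynomial k) (Q.eval₂ (evS_Pencil0 (k := k) f) p) = 0 := by
    rw [Polynomial.hom_eval₂, comp_evS_Pencil0]
    exact hQp
  have hwa : IsAlgebraic (Algebra.adjoin k {f}) (Q.eval₂ (evS_Pencil0 (k := k) f) p) := by
    rw [← comp_evA_Pencil0, ← Polynomial.eval₂_map, ← Polynomial.aeval_def]
    exact Algebra.isAlgebraic_adjoin_singleton_iff.2 hp _ (Polynomial.aeval_mem_adjoin_singleton _ _)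
  obtain ⟨q, hq, hqw⟩ := exists_poly_Pencil0 hwa
  have hq0 : q ≠ 0 := fun h => hq (by rw [h, Polynomial.map_zero])
  obtain ⟨i, hi, hi'⟩ := Ideal.exists_coeff_ne_zero_mem_comap_of_root_mem
    (I := RingHom.ker (ψ : S →+* Polynomial k)) hw hψw hq0 hqw
  have htr : Transcendental k (ψ f) := Polynomial.transcendental _ hψ
    (mem_nonZeroDivisors_of_ne_zero (Polynomial.leadingCoeff_ne_zero.2 fun h =>
      hψ (by rw [h, Polynomial.natDegree_zero])))
  refine hi (evS_injective_Pencil0 htr ?_)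
  rw [map_zero, ← comp_evS_Pencil0]
  exact hi'

end General

variable {k : Type u} [Field k] [CharZero k] [IsAlgClosed k] {m : ℕ}

omit [CharZero k] [IsAlgClosed k] in
theorem algebraMap_Om_injective_Pencil0 :
    Function.Injective (algebraMap (Base k m) (Omm k m)) := by
  rw [IsScalarTower.algebraMap_eq (Base k m) (Km k m) (Omm k m)]
  exact (algebraMap (Km k m) (Omm k m)).injective.comp (IsFractionRing.injective _ _)

omit [CharZero k] [IsAlgClosed k] in
theorem iB_injective_Pencil0 : Function.Injective (iB k m) :=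
  FaithfulSMul.algebraMap_injective _ _

omit [CharZero k] [IsAlgClosed k] in
theorem vB_injective_Pencil0 : Function.Injective (vB k m) := Subtype.val_injective

omit [CharZero k] [IsAlgClosed k] in
theorem vB_comp_Pencil0 (f : Base k m) : (vB k m).comp ((iB k m).comp (ev f)) =
    evS_Pencil0 (algebraMap (Base k m) (Omm k m) f) :=
  comp_evS_Pencil0 (IsScalarTower.toAlgHom k (Base k m) (Omm k m)) f

omit [CharZero k] [IsAlgClosed k] in
theorem vB_cB_Pencil0 (c : k) : vB k m (cB k m c) = algebraMap k (Omm k m) c :=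
  (IsScalarTower.algebraMap_apply k (Base k m) (Omm k m) c).symm

omit [CharZero k] in
theorem NonConst.transcendental_Pencil0 {f : Base k m} (hf : NonConst f) : Transcendental k f :=
  fun h => by
    obtain ⟨c, hc⟩ := mem_range_Pencil0 h
    exact hf c hc.symm

omit [CharZero k] in
theorem NonConst.transcendental_Om_Pencil0 {f : Base k m} (hf : NonConst f) :
    Transcendental k (algebraMap (Base k m) (Omm k m) f) :=
  (transcendental_algebraMap_iff algebraMap_Om_injective_Pencil0).2 hf.transcendental_Pencil0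

omit [CharZero k] [IsAlgClosed k] in
theorem isAlgebraic_of_not_nonConst_Pencil0 {f : Base k m} (hf : ¬ NonConst f) :
    IsAlgebraic k f := by
  simp only [NonConst, not_forall, not_not] at hf
  obtain ⟨c, rfl⟩ := hf
  exact isAlgebraic_algebraMap c

omit [CharZero k] [IsAlgClosed k] in
theorem dep_iff_Om_Pencil0 {f f' : Base k m} : Dep f f' ↔ ¬ AlgebraicIndependent k
    ![algebraMap (Base k m) (Omm k m) f, algebraMap (Base k m) (Omm k m) f'] := by
  have h := AlgHom.algebraicIndependent_iff (x := ![f, f'])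
    (IsScalarTower.toAlgHom k (Base k m) (Omm k m)) algebraMap_Om_injective_Pencil0
  rw [Dep, ← h]
  have e : (IsScalarTower.toAlgHom k (Base k m) (Omm k m)) ∘ ![f, f'] =
      ![algebraMap (Base k m) (Omm k m) f, algebraMap (Base k m) (Omm k m) f'] := by
    funext i
    fin_cases i <;> rfl
  rw [e]

omit [CharZero k] in
theorem exists_line_Pencil0 {f : Base k m} (hf : NonConst f) :
    ∃ ψ : Base k m →ₐ[k] Polynomial k, (ψ f).natDegree ≠ 0 := by
  have h : ∃ b : Fin m → k, eval b f ≠ eval 0 f := by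
    by_contra hn
    push Not at hn
    exact hf (eval 0 f) (MvPolynomial.funext fun x => by rw [hn x, eval_C])
  obtain ⟨b, hb⟩ := h
  refine ⟨aeval fun i => Polynomial.C (b i) * Polynomial.X, fun h0 => hb ?_⟩
  have key : ∀ (t : k) (p : Base k m), Polynomial.eval t
      (aeval (fun i => Polynomial.C (b i) * Polynomial.X) p) = eval (fun i => b i * t) p := by
    intro t p
    induction p using MvPolynomial.induction_on with
    | C c => simp
    | add p q hp hq => simp only [map_add, Polynomial.eval_add, hp, hq]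
    | mul_X p i hp => simp only [map_mul, Polynomial.eval_mul, hp, aeval_X, eval_X,
        Polynomial.eval_C, Polynomial.eval_X]
  obtain ⟨c, hc⟩ := Polynomial.natDegree_eq_zero.1 h0
  have h1 := key 1 f
  have h2 := key 0 f
  rw [← hc, Polynomial.eval_C] at h1 h2
  simp only [mul_one, mul_zero] at h1 h2
  exact h1.symm.trans h2

omit [CharZero k] [IsAlgClosed k] in
theorem exists_isLift {B : Type u} [CommRing B] [IsAic B] (ι : Base k m →+* B) (f : Base k m) :
    ∃ κ : Bm k 1 →+* B, IsLift ι f κ :=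
  exists_lift (Bm k 1) ⟨B, ι.comp (ev f)⟩

omit [CharZero k] in
theorem dep_iff_algOver_Pencil0 {f f' : Base k m} (hf : NonConst f) :
    Dep f f' ↔ AlgOver f (algebraMap (Base k m) (Omm k m) f') := by
  rw [dep_iff_Om_Pencil0, pair_iff_Pencil0, and_iff_right hf.transcendental_Om_Pencil0,
    Transcendental, not_not, AlgOver]

omit [CharZero k] in
theorem integral_of_algOver_Pencil0 {f p : Base k m} (hf : NonConst f)
    (hp : AlgOver f (algebraMap (Base k m) (Omm k m) p)) : (ev f).IsIntegralElem p := by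
  obtain ⟨ψ, hψ⟩ := exists_line_Pencil0 hf
  have h := (dep_iff_algOver_Pencil0 hf).2 hp
  rw [Dep, pair_iff_Pencil0, and_iff_right hf.transcendental_Pencil0, Transcendental,
    not_not] at h
  exact integral_of_line_Pencil0 ψ hψ h

theorem intOver_of_algOver {f : Base k m} (hf : NonConst f) {y : Bm k m}
    (hy : AlgOver f (vB k m y)) : IntOver f y := by
  obtain ⟨q, hq, hqy⟩ := exists_poly_Pencil0 hy
  have hyi : IsIntegral (Base k m) y := Algebra.IsIntegral.isIntegral y
  have : Module.IsTorsionFree (Base k m) (Bm k m) :=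
    Module.isTorsionFree_iff_algebraMap_injective.2 iB_injective_Pencil0
  have hdvd : minpoly (Base k m) y ∣ q.map (ev f) := by
    refine minpoly.isIntegrallyClosed_dvd hyi (vB_injective_Pencil0 ?_)
    rw [Polynomial.aeval_def, Polynomial.eval₂_map, Polynomial.hom_eval₂, vB_comp_Pencil0, hqy,
      map_zero]
  have hm : (minpoly (Base k m) y).Monic := minpoly.monic hyi
  have hco : ∀ i, AlgOver f (algebraMap (Base k m) (Omm k m) ((minpoly (Base k m) y).coeff i)) := by
    intro i
    rw [AlgOver, ← IntermediateField.isAlgebraic_adjoin_iff, ← Polynomial.coeff_map]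
    refine (Polynomial.isIntegral_coeff_of_factors _ ?_ (IsAlgClosed.splits _) ?_ i).isAlgebraic
    · rw [(hm.map _).leadingCoeff]
      exact isIntegral_one
    · intro x hx
      refine IsAlgebraic.isIntegral ?_
      rw [IntermediateField.isAlgebraic_adjoin_iff]
      refine isAlgebraic_of_poly_Pencil0 hq ?_
      obtain ⟨r, hr⟩ := hdvd
      rw [← vB_comp_Pencil0, ← RingHom.comp_assoc, ← Polynomial.eval₂_map, hr,
        Polynomial.eval₂_mul]
      rw [Polynomial.IsRoot, Polynomial.eval_map] at hx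
      exact mul_eq_zero_of_left hx _
  let _ : Algebra (Base k 1) (Bm k m) := ((iB k m).comp (ev f)).toAlgebra
  refine IsIntegral.of_aeval_monic_of_isIntegral_coeff (R := Base k 1)
    (p := (minpoly (Base k m) y).map (iB k m)) (hm.map _) ?_ ?_ fun i => ?_
  · rw [hm.natDegree_map]
    exact (minpoly.natDegree_pos hyi).ne'
  · rw [Polynomial.eval_map_algebraMap, minpoly.aeval]
    exact isIntegral_zero
  · rw [Polynomial.coeff_map]
    exact (integral_of_algOver_Pencil0 hf (hco i)).map (iB k m)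

omit [CharZero k] [IsAlgClosed k] in
theorem algOver_of_intOver {f : Base k m} {y : Bm k m} (hy : IntOver f y) :
    AlgOver f (vB k m y) := by
  have h := RingHom.IsIntegralElem.map hy (vB k m)
  rw [vB_comp_Pencil0] at h
  exact (isIntegral_of_evS_Pencil0 h).isAlgebraic

omit [CharZero k] [IsAlgClosed k] in
theorem IsLift.mem_range_iff {f : Base k m} {κ : Bm k 1 →+* Bm k m} (h : IsLift (iB k m) f κ)
    (y : Bm k m) : y ∈ κ.range ↔ IntOver f y := by
  rw [IntOver, ← show κ.comp (iB k 1) = _ from h]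
  constructor
  · rintro ⟨x, rfl⟩
    exact RingHom.IsIntegralElem.map (Algebra.IsIntegral.isIntegral (R := Base k 1) x) κ
  · rintro ⟨p, hp, hy⟩
    have hp' := hp.map (iB k 1)
    rw [← Polynomial.eval₂_map, (IsAic.splits hp').eq_prod_roots_of_monic hp',
      Polynomial.eval₂_multiset_prod, Multiset.prod_eq_zero_iff, Multiset.map_map,
      Multiset.mem_map] at hy
    obtain ⟨x, -, hx⟩ := hy
    simp only [Function.comp, Polynomial.eval₂_sub, Polynomial.eval₂_X, Polynomial.eval₂_C] at hx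
    exact ⟨x, (sub_eq_zero.1 hx).symm⟩

omit [CharZero k] in
theorem IsLift.injective {f : Base k m} (hf : NonConst f) {κ : Bm k 1 →+* Bm k m}
    (h : IsLift (iB k m) f κ) : Function.Injective κ := by
  rw [RingHom.injective_iff_ker_eq_bot]
  refine Ideal.eq_bot_of_comap_eq_bot (R := Base k 1) ?_
  rw [RingHom.comap_ker, ← RingHom.injective_iff_ker_eq_bot, show κ.comp (iB k 1) = _ from h]
  exact iB_injective_Pencil0.comp (evS_injective_Pencil0 hf.transcendental_Pencil0)

omit [CharZero k] [IsAlgClosed k] in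
theorem IsLift.comp_cB {B : Type u} [CommRing B] {ι : Base k m →+* B} {f : Base k m}
    {κ : Bm k 1 →+* B} (h : IsLift ι f κ) : κ.comp (cB k 1) = ι.comp C := by
  rw [cB, ← RingHom.comp_assoc, show κ.comp (iB k 1) = _ from h]
  exact RingHom.ext fun c => congrArg ι (ev_C f c)

omit [CharZero k] in
theorem dep_iff_algOver {f f' : Base k m} (hf : NonConst f) :
    Dep f f' ↔ AlgOver f (algebraMap (Base k m) (Omm k m) f') :=
  dep_iff_algOver_Pencil0 hf

omit [CharZero k] [IsAlgClosed k] in
theorem Dep.symm {f f' : Base k m} (h : Dep f f') : Dep f' f :=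
  fun h' => h (pair_symm_Pencil0 h')

omit [CharZero k] [IsAlgClosed k] in
theorem dep_of_not_nonConst {f : Base k m} (hf : ¬ NonConst f) (f' : Base k m) : Dep f f' :=
  fun h => ((pair_iff_Pencil0 f f').1 h).1 (isAlgebraic_of_not_nonConst_Pencil0 hf)

omit [CharZero k] in
theorem Dep.trans {f f' f'' : Base k m} (h : Dep f f') (h' : Dep f' f'') (hf' : NonConst f') :
    Dep f f'' := by
  by_cases hf : NonConst f
  · rw [dep_iff_algOver hf] at h ⊢
    rw [dep_iff_algOver hf'] at h'
    exact alg_trans_Pencil0 h h'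
  · exact dep_of_not_nonConst hf f''

omit [CharZero k] [IsAlgClosed k] in
theorem Dep.map {m' : ℕ} (ψ : Base k m →ₐ[k] Base k m') {f f' : Base k m} (h : Dep f f') :
    Dep (ψ f) (ψ f') := fun h' => h (AlgebraicIndependent.of_comp ψ (by
  convert h' using 1
  funext i
  fin_cases i <;> rfl))

theorem In.mem_range {u : Uo k (Bm k m)} {f : Base k m} (h : In u f) {κ : Bm k 1 →+* Bm k m}
    (hκ : IsLift (iB k m) f κ) : u ∈ LinearMap.range (Umap k κ) := by
  obtain ⟨κ', hκ', u₀, rfl⟩ := h
  obtain ⟨E, hE⟩ := Umap_congr (k := k) u₀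
  obtain ⟨g, hg⟩ := exists_gal (R := Base k 1) κ κ' (Eq.trans hκ (Eq.symm hκ')) E
  refine ⟨Umap k (g : Bm k 1 →+* Bm k 1) u₀, ?_⟩
  rw [← Umap_comp]
  exact hE _ _ _ fun e he => (hg e he).symm

omit [CharZero k] [IsAlgClosed k] in
theorem sum_mem_range_Pencil0 {B B' : Type u} [CommRing B] [CommRing B'] (κ : B →+* B') {r : ℕ}
    (lam : Fin r → k) (x : Fin r → B'ˣ) (h : ∀ a, x a ∈ (umap κ).range) :
    ∑ a, lam a • ulog k (x a) ∈ LinearMap.range (Umap k κ) := by
  refine Submodule.sum_mem _ fun a _ => Submodule.smul_mem _ _ ?_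
  obtain ⟨y, hy⟩ := h a
  exact ⟨ulog k y, by rw [Umap_ulog, hy]⟩

theorem mem_umap_range_Pencil0 {B B' : Type u} [CommRing B] [CommRing B'] {κ : B →+* B'}
    (hκ : Function.Injective κ) {x : B'ˣ} (h : (x : B') ∈ κ.range)
    (h' : ((x⁻¹ : B'ˣ) : B') ∈ κ.range) : x ∈ (umap κ).range := by
  obtain ⟨y, hy⟩ := h
  obtain ⟨y', hy'⟩ := h'
  have h1 : y * y' = 1 := hκ (by rw [map_mul, hy, hy', map_one, Units.mul_inv])
  exact ⟨Units.mkOfMulEqOne y y' h1, Units.ext hy⟩

omit [CharZero k] [IsAlgClosed k] in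
theorem vB_inv_Pencil0 (x : (Bm k m)ˣ) : vB k m ((x⁻¹ : (Bm k m)ˣ) : Bm k m) = (vB k m x)⁻¹ :=
  eq_inv_of_mul_eq_one_left (by rw [← map_mul, Units.inv_mul, map_one])

theorem in_of_algOver {f : Base k m} (hf : NonConst f) {r : ℕ} (lam : Fin r → k)
    (x : Fin r → (Bm k m)ˣ) (h : ∀ a, AlgOver f (vB k m (x a))) :
    In (∑ a, lam a • ulog k (x a)) f := by
  obtain ⟨κ, hκ⟩ := exists_isLift (iB k m) f
  refine ⟨κ, hκ, sum_mem_range_Pencil0 κ lam x fun a => mem_umap_range_Pencil0 (hκ.injective hf)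
    ((hκ.mem_range_iff _).2 (intOver_of_algOver hf (h a)))
    ((hκ.mem_range_iff _).2 (intOver_of_algOver hf ?_))⟩
  rw [vB_inv_Pencil0]
  exact IsAlgebraic.inv (h a)

theorem algOver_of_in {f : Base k m} {r : ℕ} {lam : Fin r → k} (hl : LinearIndependent ℚ lam)
    {x : Fin r → (Bm k m)ˣ} (h : In (∑ a, lam a • ulog k (x a)) f) (a : Fin r) :
    AlgOver f (vB k m (x a)) := by
  obtain ⟨κ, hκ, hx⟩ := h
  obtain ⟨M, hM, hxM⟩ := pow_mem_range_of_mem hl κ hx
  obtain ⟨y, hy⟩ := hxM a
  have h1 : ((x a : Bm k m)) ^ M ∈ κ.range := ⟨y, congrArg Units.val hy⟩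
  have h2 := algOver_of_intOver ((hκ.mem_range_iff _).1 h1)
  rw [map_pow] at h2
  exact IsAlgebraic.of_pow hM h2

omit [CharZero k] [IsAlgClosed k] in
theorem in_of_isConst {u : Uo k (Bm k m)} (hu : IsConst u) (f : Base k m) : In u f := by
  obtain ⟨u₀, rfl⟩ := hu
  obtain ⟨κ, hκ⟩ := exists_isLift (iB k m) f
  refine ⟨κ, hκ, Umap k (cB k 1) u₀, ?_⟩
  rw [← Umap_comp, hκ.comp_cB]
  rfl

omit [CharZero k] in
theorem isConst_of_alg_Pencil0 {r : ℕ} (lam : Fin r → k) (x : Fin r → (Bm k m)ˣ)
    (h : ∀ a, IsAlgebraic k (vB k m (x a))) : IsConst (∑ a, lam a • ulog k (x a)) := by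
  have key : ∀ y : Bm k m, IsAlgebraic k (vB k m y) → y ∈ (cB k m).range := fun y hy => by
    obtain ⟨c, hc⟩ := mem_range_Pencil0 hy
    exact ⟨c, vB_injective_Pencil0 ((vB_cB_Pencil0 c).trans hc)⟩
  refine sum_mem_range_Pencil0 (cB k m) lam x fun a =>
    mem_umap_range_Pencil0 (cB k m).injective (key _ (h a)) (key _ ?_)
  rw [vB_inv_Pencil0]
  exact IsAlgebraic.inv (h a)

theorem isConst_of_in {u : Uo k (Bm k m)} {f : Base k m} (h : In u f) (hf : ¬ NonConst f) :
    IsConst u := by
  obtain ⟨r, lam, x, hl, rfl⟩ := exists_repr u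
  exact isConst_of_alg_Pencil0 lam x fun a => alg_base_Pencil0
    ((isAlgebraic_of_not_nonConst_Pencil0 hf).algebraMap) (algOver_of_in hl h a)

theorem dep_of_in {u : Uo k (Bm k m)} (hu : ¬ IsConst u) {f f' : Base k m} (h : In u f)
    (h' : In u f') : Dep f f' := by
  obtain ⟨r, lam, x, hl, rfl⟩ := exists_repr u
  have hf : NonConst f := by
    by_contra hf
    exact hu (isConst_of_in h hf)
  obtain ⟨a, ha⟩ : ∃ a, Transcendental k (vB k m (x a)) := by
    by_contra hn
    exact hu (isConst_of_alg_Pencil0 lam x fun a => not_not.1 fun ha => hn ⟨a, ha⟩)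
  rw [dep_iff_algOver hf]
  exact alg_trans_Pencil0 (algOver_of_in hl h a) (exchange_Pencil0 ha (algOver_of_in hl h' a))

theorem in_of_dep {u : Uo k (Bm k m)} {f f' : Base k m} (hf' : NonConst f') (hd : Dep f f')
    (h : In u f) : In u f' := by
  obtain ⟨r, lam, x, hl, rfl⟩ := exists_repr u
  exact in_of_algOver hf' lam x fun a =>
    alg_trans_Pencil0 ((dep_iff_algOver hf').1 hd.symm) (algOver_of_in hl h a)

end

end Pool.Agent.MP_e2821c_ag.Cy
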