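import Pool.Agent.Lib.MP_e2821c_ag.Cy.Eigen
import Pool.Agent.Lib.MP_e2821c_ag.Cy.Ax
import Pool.Agent.Lib.MP_e2821c_ag.Cy.Pencil0

namespace Pool.Agent.MP_e2821c_ag.Cy

open MvPolynomial
open scoped TensorProduct

universe u v w

noncomputable section

namespace Pen

section General

variable {k k₀ Ω B : Type u} [Field k] [CommRing k₀] [Field Ω] [Algebra k₀ Ω] [Algebra k Ω]
  [CommRing B]

theorem ell_smul (c : Ω) (D : Derivation k₀ Ω Ω) (v : Uo k Ω) :
    ell k (c • D) v = c * ell k D v := by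
  induction v using TensorProduct.induction_on with
  | zero => simp
  | tmul a x => simp only [ell_tmul, Derivation.smul_apply, Algebra.smul_def, Algebra.algebraMap_self,
      RingHom.id_apply]; ring
  | add a b ha hb => rw [map_add, map_add, ha, hb, mul_add]

theorem ell_sub (D D' : Derivation k₀ Ω Ω) (v : Uo k Ω) :
    ell k (D - D') v = ell k D v - ell k D' v := by
  induction v using TensorProduct.induction_on with
  | zero => simp
  | tmul a x => simp only [ell_tmul, Derivation.sub_apply, Algebra.smul_def]; ring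
  | add a b ha hb => rw [map_add, map_add, map_add, ha, hb]; ring

theorem ell_mem (S : AddSubgroup Ω) (hS : ∀ (c : k), ∀ y ∈ S, algebraMap k Ω c * y ∈ S)
    (D : Derivation k₀ Ω Ω) (f : B →+* Ω) (h : ∀ x : Bˣ, D (f x) / f x ∈ S) (u : Uo k B) :
    ell k D (Umap k f u) ∈ S := by
  induction u using TensorProduct.induction_on with
  | zero => simp
  | tmul a x =>
    rw [Umap_tmul, ell_tmul, Algebra.smul_def]
    exact hS _ _ (h x.toMul)
  | add a b ha hb => rw [map_add, map_add]; exact add_mem ha hb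

theorem nu_mul {𝒪 : ValuationSubring Ω} {x y : Ω} (hx : x ∈ 𝒪) (hy : y ∈ 𝒪.nonunits) :
    x * y ∈ 𝒪.nonunits :=
  (map_mul 𝒪.valuation x y).trans_lt
    ((mul_le_of_le_one_left' ((𝒪.valuation_le_one_iff x).2 hx)).trans_lt hy)

theorem dlog_mul (D : Derivation k₀ Ω Ω) {x y : Ω} (hx : x ≠ 0) (hy : y ≠ 0) :
    D (x * y) / (x * y) = D x / x + D y / y := by
  simp only [Derivation.leibniz, smul_eq_mul]
  field_simp
  ring

end General

/-- The structure map of the algebraic closure. -/
abbrev rO (k : Type u) [Field k] (m : ℕ) : Base k m →+* Omm k m := algebraMap _ _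

/-- The structure map of the algebraic closure over the function field. -/
abbrev kO (k : Type u) [Field k] (m : ℕ) : Km k m →+* Omm k m := algebraMap _ _

section Basic

variable {k : Type u} [Field k] {m : ℕ}

theorem rO_eq (p : Base k m) : rO k m p = kO k m (algebraMap (Base k m) (Km k m) p) :=
  IsScalarTower.algebraMap_apply _ _ _ p

theorem rO_ne {p : Base k m} (hp : p ≠ 0) : rO k m p ≠ 0 := by
  rw [rO_eq, map_ne_zero]
  exact fun h => hp (IsFractionRing.injective (Base k m) (Km k m) (h.trans (map_zero _).symm))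

theorem rO_C (c : k) : rO k m (C c) = algebraMap k (Omm k m) c :=
  (IsScalarTower.algebraMap_apply k (Base k m) (Omm k m) c).symm

theorem small_K {𝒪 : ValuationSubring (Omm k m)} (D : Derivation k (Omm k m) (Omm k m))
    (h : ∀ p, D (rO k m p) / rO k m p ∈ 𝒪) (a : Km k m) : D (kO k m a) / kO k m a ∈ 𝒪 := by
  obtain ⟨p, q, hq, rfl⟩ := IsFractionRing.div_surjective (A := Base k m) a
  rw [map_div₀, ← rO_eq, ← rO_eq]
  by_cases hp : rO k m p = 0
  · simp [hp]
  have hq' := rO_ne (nonZeroDivisors.ne_zero hq)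
  have e : D (rO k m p / rO k m q) / (rO k m p / rO k m q) =
      D (rO k m p) / rO k m p - D (rO k m q) / rO k m q := by
    rw [Derivation.leibniz_div]
    simp only [smul_eq_mul]
    field_simp
  exact e ▸ sub_mem (h p) (h q)

theorem small_prime {𝒪 : ValuationSubring (Omm k m)} (D : Derivation k (Omm k m) (Omm k m))
    {π : Base k m} (hπ : Prime π) (hinv : ∀ q, ¬π ∣ q → (rO k m q)⁻¹ ∈ 𝒪)
    (h1 : ∀ p, D (rO k m p) ∈ 𝒪) (h2 : D (rO k m π) / rO k m π ∈ 𝒪) (p : Base k m) :
    D (rO k m p) / rO k m p ∈ 𝒪 := by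
  by_cases hp : p = 0
  · simp [hp]
  obtain ⟨n, q, hq, rfl⟩ := WfDvdMonoid.max_power_factor hp hπ.irreducible
  have hq0 : q ≠ 0 := right_ne_zero_of_mul hp
  clear hp
  induction n with
  | zero =>
    rw [pow_zero, one_mul, div_eq_mul_inv]
    exact mul_mem (h1 q) (hinv q hq)
  | succ n ih =>
    rw [pow_succ', mul_assoc, map_mul, dlog_mul D (rO_ne hπ.ne_zero)
      (rO_ne (mul_ne_zero (pow_ne_zero _ hπ.ne_zero) hq0))]
    exact add_mem h2 ih

theorem deg_X_mul (i j : Fin m) (p : Base k m) :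
    (X i * pderiv j p).totalDegree ≤ p.totalDegree := by
  by_cases h : pderiv j p = 0
  · simp [h]
  rw [totalDegree_mul_of_isDomain (X_ne_zero i) h, totalDegree_X, ← totalDegree_X (R := k) j,
    ← totalDegree_mul_of_isDomain (X_ne_zero j) h]
  conv_lhs => rw [p.as_sum, map_sum, Finset.mul_sum]
  refine totalDegree_finsetSum_le fun s hs => ?_
  rw [X_mul_pderiv_monomial]
  exact (totalDegree_smul_le _ _).trans ((totalDegree_monomial_le _ _).trans (le_totalDegree hs))

theorem mem_of_B {𝒪 : ValuationSubring (Omm k m)} (hR : ∀ p, rO k m p ∈ 𝒪) (y : Bm k m) :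
    vB k m y ∈ 𝒪 := by
  have h : IsIntegral 𝒪 (vB k m y) := IsIntegral.map_of_comp_eq
    ((rO k m).codRestrict 𝒪.toSubring hR) (RingHom.id _) rfl y.2
  obtain ⟨z, hz⟩ := IsIntegrallyClosedIn.algebraMap_eq_of_integral h
  exact hz ▸ z.2

theorem rat_mem [CharZero k] {𝒪 : ValuationSubring (Omm k m)} {A : ValuationSubring (Km k m)}
    (h : 𝒪.comap (kO k m) = A) (hk : ∀ c, algebraMap k (Omm k m) c ∈ 𝒪) (q : ℚ) :
    (q : Km k m) ∈ A := by
  rw [← h, ValuationSubring.mem_comap, map_ratCast, ← map_ratCast (algebraMap k (Omm k m))]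
  exact hk _

end Basic

variable {k : Type u} [Field k] [CharZero k] {m : ℕ}

/-- The coordinates of the logarithmic differential. -/
abbrev LL (i : Fin m) (u : Uo k (Bm k m)) : Omm k m := ell k (Dm k m i) (Umap k (vB k m) u)

theorem gal_LL {σ : Omm k m ≃ₐ[Km k m] Omm k m} {g : Gm k m}
    (h : ∀ x : Bm k m, (g x : Omm k m) = σ x) (i : Fin m) (u : Uo k (Bm k m)) :
    σ (LL i u) = LL i (Umap k (g : Bm k m →+* Bm k m) u) := by
  induction u using TensorProduct.induction_on with
  | zero => simp [LL]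
  | tmul a x =>
    simp only [LL, Umap_tmul, ell_tmul]
    have e : ∀ y, σ (a • y) = a • σ y := fun y =>
      (σ.restrictScalars k).toLinearEquiv.map_smul a y
    rw [e, map_div₀, ← Dm_gal]
    exact congrArg (fun y => a • (Dm k m i y / y)) (h _).symm
  | add a b ha hb => simp only [LL, map_add] at ha hb ⊢; rw [ha, hb]

theorem ell_eq_sum (D : Derivation k (Omm k m) (Omm k m)) (v : Uo k (Omm k m)) :
    ell k D v = ∑ i, D (rO k m (X i)) * ell k (Dm k m i) v := by
  induction v using TensorProduct.induction_on with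
  | zero => simp
  | tmul a x =>
    simp only [ell_tmul]
    rw [derivation_eq_sum, Finset.sum_div, Finset.smul_sum]
    exact Finset.sum_congr rfl fun i _ => by rw [mul_smul_comm, mul_div_assoc]
  | add a b ha hb => simp only [map_add, ha, hb, mul_add, Finset.sum_add_distrib]

theorem alg_of_Dm {y : Omm k m} (h : ∀ i, Dm k m i y = 0) : IsAlgebraic k y :=
  isAlgebraic_of_derivations y fun D => by
    rw [derivation_eq_sum]
    simp [h]

theorem exists_not_dvd [IsAlgClosed k] {π : Base k m} (hπ : Prime π) :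
    ∃ i, ¬π ∣ pderiv i π := by
  by_contra! h
  have h1 : ∀ i, pderiv i π = 0 := fun i => by
    by_contra h2
    have h3 := deg_X_mul i i π
    rw [totalDegree_mul_of_isDomain (X_ne_zero i) h2, totalDegree_X] at h3
    have h4 := totalDegree_le_of_dvd_of_isDomain (h i) h2
    omega
  obtain ⟨c, hc⟩ := mem_range_cB (y := iB k m π) (alg_of_Dm fun i =>
    (Dm_algebraMap k m i π).trans (by rw [h1, map_zero]))
  have h2 : C c = π := FaithfulSMul.algebraMap_injective _ (Bm k m) hc
  exact hπ.not_isUnit (h2 ▸ (IsUnit.mk0 c fun h3 => hπ.ne_zero (by rw [← h2, h3, map_zero])).map C)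

theorem reg_prime [IsAlgClosed k] {u u' : Uo k (Bm k m)} {i l : Fin m} {a : Km k m}
    (ha : kO k m a = LL i u * LL l u' - LL l u * LL i u') {π : Base k m} (hπ : Prime π) :
    ∃ p q : Base k m, ¬π ∣ q ∧
      a * algebraMap (Base k m) (Km k m) q = algebraMap (Base k m) (Km k m) p := by
  obtain ⟨A, hA, hAm⟩ := exists_place_prime (K := Km k m) hπ
  obtain ⟨𝒪, h𝒪⟩ := exists_over (Ω := Omm k m) A
  obtain ⟨ord, ho, h1⟩ := exists_ord hA h𝒪
  obtain ⟨j, hj⟩ := exists_not_dvd hπ
  have hK : ∀ x, kO k m x ∈ 𝒪 ↔ x ∈ A := fun x => by rw [← h𝒪, ValuationSubring.mem_comap]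
  have hR : ∀ p, rO k m p ∈ 𝒪 := fun p => by
    rw [rO_eq, hK, hAm]
    exact ⟨p, 1, hπ.not_dvd_one, by rw [map_one, mul_one]⟩
  have hne : ∀ q, ¬π ∣ q → rO k m q ≠ 0 := fun q hq => rO_ne fun h => hq (h ▸ dvd_zero π)
  have hinv : ∀ q, ¬π ∣ q → (rO k m q)⁻¹ ∈ 𝒪 := fun q hq => by
    have := hne q hq
    rw [rO_eq, map_ne_zero] at this
    rw [rO_eq, ← map_inv₀]
    exact (hK _).2 ((hAm _).2 ⟨1, q, hq, by rw [inv_mul_cancel₀ this, map_one]⟩)
  have hπn : rO k m π ∈ 𝒪.nonunits := by
    rw [ValuationSubring.mem_nonunits_iff_or, rO_eq, ← map_inv₀, hK]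
    exact Or.inr (((A.mem_nonunits_iff_or).1 hA.mem).resolve_left hA.ne)
  have hk : ∀ c, algebraMap k (Omm k m) c ∈ 𝒪 := fun c => rO_C (m := m) c ▸ hR _
  have hQ := rat_mem h𝒪 hk
  have hD : ∀ t p, Dm k m t (rO k m p) ∈ 𝒪 := fun t p => Dm_algebraMap k m t p ▸ hR _
  let c := fun t => rO k m (pderiv t π) / rO k m (pderiv j π)
  have hc : ∀ t, c t ∈ 𝒪 := fun t => by
    simp only [c, div_eq_mul_inv]
    exact mul_mem (hR _) (hinv _ hj)
  have hE : ∀ t v, LL t v - c t * LL j v ∈ 𝒪 := fun t v => by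
    rw [LL, LL, ← ell_smul, ← ell_sub]
    refine ell_mem 𝒪.toSubring.toAddSubgroup (fun c y hy => 𝒪.mul_mem _ _ (hk c) hy) _ _ (fun x =>
      small_ext hA hQ h𝒪 _ (small_K _ (small_prime _ hπ hinv (fun p => ?_) ?_)) _) v
    · exact sub_mem (hD t p) (mul_mem (hc t) (hD j p))
    · simp only [Derivation.sub_apply, Derivation.smul_apply, Dm_algebraMap, smul_eq_mul, c]
      rw [div_mul_cancel₀ _ (hne _ hj), sub_self, zero_div]
      exact zero_mem _
  have hP : ∀ v, rO k m π * LL j v ∈ 𝒪.nonunits := fun v => by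
    rw [LL, ← ell_smul]
    refine ell_mem 𝒪.nonunits.toAddSubgroup (fun c y hy => nu_mul (hk c) hy) _ _ (fun x => ?_) v
    have h2 := small_res hA hQ h𝒪 (rO k m π • Dm k m j) (small_K _ (small_prime _ hπ hinv
      (fun p => mul_mem (hR _) (hD j p)) (by
        rw [Derivation.smul_apply, smul_eq_mul, mul_div_cancel_left₀ _ (rO_ne hπ.ne_zero)]
        exact hD j π))) (fun b hb => by
      obtain ⟨p, q, hq, e⟩ := (hAm b).1 hb
      have e' := congrArg (kO k m) e
      rw [map_mul, ← rO_eq, ← rO_eq] at e'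
      rw [Derivation.smul_apply, smul_eq_mul, mul_comm, eq_div_of_mul_eq (hne q hq) e',
        Derivation.leibniz_div]
      exact nu_mul (mul_mem (pow_mem (hinv q hq) 2) (sub_mem (mul_mem (hR q) (hD j p))
        (mul_mem (hR p) (hD j q)))) hπn) ho h1 (umap (vB k m) x)
    have h3 := (ho (umap (vB k m) x)).1 (mem_of_B hR _)
    have h4 := (ho (umap (vB k m) x⁻¹)).1 (mem_of_B hR _)
    rw [map_inv, ofMul_inv, map_neg, neg_nonneg] at h4
    rwa [le_antisymm h4 h3, Rat.cast_zero, map_zero, zero_mul, sub_zero] at h2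
  have h2 : rO k m π * kO k m a ∈ 𝒪.nonunits := by
    have e : rO k m π * kO k m a =
        ((LL i u - c i * LL j u) * (LL l u' - c l * LL j u') -
          (LL l u - c l * LL j u) * (LL i u' - c i * LL j u')) * rO k m π +
        (c l * (LL i u - c i * LL j u) - c i * (LL l u - c l * LL j u)) * (rO k m π * LL j u') +
        (c i * (LL l u' - c l * LL j u') - c l * (LL i u' - c i * LL j u')) *
          (rO k m π * LL j u) := by
      rw [ha]; ring
    rw [e]
    exact add_mem (add_mem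
      (nu_mul (sub_mem (mul_mem (hE _ _) (hE _ _)) (mul_mem (hE _ _) (hE _ _))) hπn)
      (nu_mul (sub_mem (mul_mem (hc _) (hE _ _)) (mul_mem (hc _) (hE _ _))) (hP _)))
      (nu_mul (sub_mem (mul_mem (hc _) (hE _ _)) (mul_mem (hc _) (hE _ _))) (hP _))
  refine (hAm a).1 (by_contra fun h3 => ?_)
  obtain ⟨p, q, hq, e⟩ := (hAm _).1 ((A.mem_or_inv_mem a).resolve_left h3)
  have h0 : a ≠ 0 := fun h => h3 (h ▸ zero_mem A)
  rw [inv_mul_eq_iff_eq_mul₀ h0] at e
  by_cases hp : π ∣ p
  · obtain ⟨p, rfl⟩ := hp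
    have h4 := nu_mul (hinv q hq) (nu_mul (hR p) h2)
    have e' := congrArg (kO k m) e
    rw [map_mul, ← rO_eq, ← rO_eq, map_mul] at e'
    rw [show rO k m p * (rO k m π * kO k m a) = rO k m q by rw [e']; ring,
      inv_mul_cancel₀ (hne q hq), ValuationSubring.mem_nonunits_iff, map_one] at h4
    exact h4.false
  · exact h3 ((hAm a).2 ⟨q, p, hp, e.symm⟩)

theorem zero_inf {u u' : Uo k (Bm k m)} {i l : Fin m} {p : Base k m}
    (ha : rO k m p = LL i u * LL l u' - LL l u * LL i u') : p = 0 := by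
  obtain ⟨A, hA, hAm⟩ := exists_place_inf k m i
  obtain ⟨𝒪, h𝒪⟩ := exists_over (Ω := Omm k m) A
  have hK : ∀ p q, q ≠ 0 → (rO k m p / rO k m q ∈ 𝒪 ↔ p.totalDegree ≤ q.totalDegree) :=
    fun p q hq => by
      rw [← hAm p q hq, ← h𝒪, ValuationSubring.mem_comap, map_div₀, rO_eq, rO_eq]
  have hk : ∀ c, algebraMap k (Omm k m) c ∈ 𝒪 := fun c => by
    have := (hK (C c) 1 one_ne_zero).2 (by simp)
    rwa [map_one, div_one, rO_C] at this
  have hE : ∀ t v, rO k m (X i) * LL t v ∈ 𝒪 := fun t v => by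
    rw [LL, ← ell_smul]
    refine ell_mem 𝒪.toSubring.toAddSubgroup (fun c y hy => 𝒪.mul_mem _ _ (hk c) hy) _ _ (fun x =>
      small_ext hA (rat_mem h𝒪 hk) h𝒪 _ (small_K _ fun q => ?_) _) v
    by_cases hq : q = 0
    · simp [hq]
    rw [Derivation.smul_apply, Dm_algebraMap, smul_eq_mul, ← map_mul]
    exact (hK _ _ hq).2 (deg_X_mul i t q)
  have h1 := (hK (X i * (X i * p)) 1 one_ne_zero).1 (by
    rw [map_one, div_one, map_mul, map_mul, ha, show ∀ x a b c d : Omm k m,
      x * (x * (a * b - c * d)) = x * a * (x * b) - x * c * (x * d) from fun _ _ _ _ _ => by ring]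
    exact sub_mem (mul_mem (hE _ _) (hE _ _)) (mul_mem (hE _ _) (hE _ _)))
  by_contra hp
  rw [totalDegree_mul_of_isDomain (X_ne_zero i) (mul_ne_zero (X_ne_zero i) hp), totalDegree_X,
    totalDegree_one] at h1
  omega

omit [CharZero k] in
theorem isConst_of_alg [IsAlgClosed k] {r : ℕ} (lam : Fin r → k) (x : Fin r → (Bm k m)ˣ)
    (h1 : ∀ a, IsAlgebraic k (vB k m (x a))) : IsConst (∑ a, lam a • ulog k (x a)) := by
  choose c hc using fun a => mem_range_cB (h1 a)
  refine ⟨∑ a, lam a • ulog k (Units.mk0 (c a) fun h2 => (x a).ne_zero (by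
    rw [← hc, h2, map_zero])), ?_⟩
  simp only [map_sum, map_smul, Umap_ulog]
  exact Finset.sum_congr rfl fun a _ => congrArg (fun y => lam a • ulog k y) (Units.ext (hc a))

end Pen

open Pen

variable {k : Type u} [Field k] [CharZero k] [IsAlgClosed k] {m : ℕ}

theorem two_form_eq_zero {χ χ' : Gm k m →* kˣ} (hχ : χ * χ' = 1) {u u' : Uo k (Bm k m)}
    (h : Eig χ u) (h' : Eig χ' u') (i l : Fin m) :
    ell k (Dm k m i) (Umap k (vB k m) u) * ell k (Dm k m l) (Umap k (vB k m) u') =
      ell k (Dm k m l) (Umap k (vB k m) u) * ell k (Dm k m i) (Umap k (vB k m) u') := by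
  obtain ⟨a, ha⟩ := (InfiniteGalois.mem_range_algebraMap_iff_fixed (k := Km k m)
    (LL i u * LL l u' - LL l u * LL i u')).2 fun σ => by
      obtain ⟨g, hg⟩ := exists_res (Base k m) σ
      have e : (χ g : k) * χ' g = 1 := by
        rw [← Units.val_mul, ← MonoidHom.mul_apply, hχ, MonoidHom.one_apply, Units.val_one]
      simp only [map_sub, map_mul, gal_LL hg, h g, h' g]
      simp only [LL, map_smul, smul_mul_smul_comm, e, one_smul]
  obtain ⟨p, rfl⟩ := mem_range_of_places (R := Base k m) a fun π hπ => reg_prime ha hπ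
  rw [← rO_eq] at ha
  rw [← sub_eq_zero, ← ha, zero_inf ha, map_zero]

theorem isConst_of_ell {u : Uo k (Bm k m)}
    (h : ∀ i, ell k (Dm k m i) (Umap k (vB k m) u) = 0) : IsConst u := by
  obtain ⟨r, lam, x, hl, rfl⟩ := exists_repr u
  have h1 := ax (k₁ := k) hl (fun a => umap (vB k m) (x a)) fun D => by
    rw [ell_eq_sum]
    refine Finset.sum_eq_zero fun i _ => mul_eq_zero_of_right _ ?_
    simpa only [map_sum, map_smul, Umap_ulog] using h i
  exact isConst_of_alg lam x h1

namespace Pen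

/-- An additive map of the coefficients acting on classes of units. -/
def cm {B : Type u} [CommRing B] (c : k →+ k) : Uo k B →ₗ[ℤ] Uo k B :=
  LinearMap.rTensor (Additive Bˣ) c.toIntLinearMap

omit [CharZero k] [IsAlgClosed k] in
theorem cm_tmul {B : Type u} [CommRing B] (c : k →+ k) (a : k) (x : Additive Bˣ) :
    cm c (a ⊗ₜ[ℤ] x) = c a ⊗ₜ[ℤ] x := rfl

omit [CharZero k] [IsAlgClosed k] in
theorem eig_cm {χ χ' : Gm k m →* kˣ} {u : Uo k (Bm k m)} (h : Eig χ u) (c : k →+ k)
    (hc : ∀ g x, c (χ g * x) = χ' g * c x) : Eig χ' (cm c u) := fun g => by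
  have h1 : ∀ v, Umap k (g : Bm k m →+* Bm k m) (cm c v) =
      cm c (Umap k (g : Bm k m →+* Bm k m) v) := fun v => by
    induction v using TensorProduct.induction_on with
    | zero => simp
    | tmul a x => rfl
    | add a b ha hb => simp only [map_add, ha, hb]
  have h2 : ∀ v : Uo k (Bm k m), cm c ((χ g : k) • v) = (χ' g : k) • cm c v := fun v => by
    induction v using TensorProduct.induction_on with
    | zero => simp
    | tmul a x => simp only [TensorProduct.smul_tmul', cm_tmul, smul_eq_mul, hc]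
    | add a b ha hb => simp only [smul_add, map_add, ha, hb]
  rw [h1, h g, h2]

omit [CharZero k] [IsAlgClosed k] in
theorem cm_symm {B : Type u} [CommRing B] (c : k ≃+ k) (v : Uo k B) :
    cm (c.symm : k →+ k) (cm (c : k →+ k) v) = v := by
  induction v using TensorProduct.induction_on with
  | zero => simp
  | tmul a x => simp [cm_tmul]
  | add a b ha hb => simp only [map_add, ha, hb]

theorem exists_conj {N : ℕ} (hN : 0 < N) :
    ∃ c : k ≃+ k, ∀ η x : k, η ^ N = 1 → c (η * x) = η⁻¹ * c x := by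
  have : NeZero N := ⟨hN.ne'⟩
  let L := CyclotomicField N ℚ
  have : IsCyclotomicExtension {N} ℚ L := CyclotomicField.isCyclotomicExtension N ℚ
  have : Algebra.IsAlgebraic ℚ L := Algebra.IsAlgebraic.of_finite ℚ L
  let _ : Algebra L k := (IsAlgClosed.lift : L →ₐ[ℚ] k).toAlgebra
  have hζ := IsCyclotomicExtension.zeta_spec N ℚ L
  let τ := IsCyclotomicExtension.fromZetaAut hζ.inv (Polynomial.cyclotomic.irreducible_rat hN)
  have hτ : τ _ = _ := IsCyclotomicExtension.fromZetaAut_spec hζ.inv _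
  let b := Module.Basis.ofVectorSpace L k
  refine ⟨b.repr.toAddEquiv.trans ((Finsupp.mapRange.addEquiv τ.toRingEquiv.toAddEquiv).trans
    b.repr.symm.toAddEquiv), fun η x hη => ?_⟩
  obtain ⟨j, -, rfl⟩ := (hζ.map_of_injective (algebraMap L k).injective).eq_pow_of_pow_eq_one hη
  rw [← map_pow, ← map_inv₀, ← inv_pow, ← hτ, ← map_pow, ← Algebra.smul_def, ← Algebra.smul_def]
  refine b.repr.injective (Finsupp.ext fun i => ?_)
  simp

omit [IsAlgClosed k] in
theorem LL_closed (i j : Fin m) (v : Uo k (Bm k m)) : Dm k m i (LL j v) = Dm k m j (LL i v) := by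
  induction v using TensorProduct.induction_on with
  | zero => simp [LL]
  | tmul a x =>
    simp only [LL, Umap_tmul, ell_tmul, Derivation.map_smul, Derivation.leibniz_div, smul_eq_mul]
    rw [Dm_comm k m i j, mul_comm (Dm k m i _)]
  | add a b ha hb => simp only [LL, map_add] at ha hb ⊢; rw [ha, hb]

theorem exists_fun {χ : Gm k m →* kˣ} {u : Uo k (Bm k m)} (h : Eig χ u) (hu : u ≠ 0)
    (hχ : χ ≠ 1) : ∃ y : Omm k m, ∀ D : Derivation k (Omm k m) (Omm k m), D y = 0 →
      ell k D (Umap k (vB k m) u) = 0 := by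
  by_cases h2 : χ = χ⁻¹
  · obtain ⟨r, lam, x, hl, e⟩ := exists_repr u
    obtain ⟨a, ha⟩ : ∃ a, ulog k (x a) ≠ 0 := by
      by_contra! h3
      exact hu (by simp [e, h3])
    obtain ⟨g, hg⟩ := LinearMap.exists_leftInverse_of_injective (Finsupp.linearCombination ℚ lam)
      (LinearMap.ker_eq_bot.2 hl)
    let c : k →+ k := (Rat.castHom k).toAddMonoidHom.comp
      ((Finsupp.lapply a : _ →ₗ[ℚ] ℚ).comp g).toAddMonoidHom
    have hc : ∀ b, c (lam b) = (Finsupp.single b (1 : ℚ) a : ℚ) := fun b => by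
      have := LinearMap.congr_fun hg (Finsupp.single b 1)
      simp only [LinearMap.comp_apply, Finsupp.linearCombination_single, one_smul,
        LinearMap.id_apply] at this
      simp [c, this]
    have h3 := eig_cm (χ' := χ) h c fun g x => by
      have : χ g * χ g = 1 := by nth_rw 1 [h2]; simp
      rw [← Units.val_inj, Units.val_mul, Units.val_one, mul_self_eq_one_iff] at this
      rcases this with h | h <;> simp [h]
    have h4 : cm c u = ulog k (x a) := by
      simp only [e, map_sum, ulog, TensorProduct.smul_tmul', smul_eq_mul, mul_one, cm_tmul, hc]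
      rw [Finset.sum_eq_single a (fun b _ hb => by simp [hb]) (by simp)]
      simp
    obtain ⟨d, hd⟩ := mult_one hχ (h4 ▸ h3) h ha
    exact ⟨vB k m (x a), fun D hD => by
      rw [hd, map_smul, map_smul, Umap_ulog, ell_ulog, coe_umap, hD, zero_div, smul_zero]⟩
  obtain ⟨N, hN, hχN⟩ := h.pow_eq_one hu
  obtain ⟨c, hc⟩ := exists_conj (k := k) hN
  have h3 := eig_cm (χ' := χ⁻¹) h (c : k →+ k) fun g x => by
    rw [MonoidHom.inv_apply, Units.val_inv_eq_inv_val]
    exact hc _ _ (by rw [← Units.val_pow_eq_pow_val, ← MonoidHom.pow_apply, hχN]; rfl)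
  have h4 : cm (c : k →+ k) u ≠ 0 := fun h5 => hu (by rw [← cm_symm c u, h5, map_zero])
  generalize cm (c : k →+ k) u = w at h3 h4
  obtain ⟨l, hl⟩ : ∃ l, LL l w ≠ 0 := by
    by_contra! h5
    have h6 := h3.unique (eig_one_of_isConst (isConst_of_ell h5)) h4
    exact hχ (MonoidHom.ext fun g => inv_eq_one.1 (DFunLike.congr_fun h6 g))
  have h5 : ∀ i, LL i u = LL l u / LL l w * LL i w := fun i => by
    rw [div_mul_eq_mul_div, eq_div_iff hl]
    exact two_form_eq_zero (mul_inv_cancel χ) h h3 i l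
  generalize LL l u / LL l w = y at h5
  obtain ⟨j, hj⟩ : ∃ j, Dm k m j y ≠ 0 := by
    by_contra! h6
    obtain ⟨d, rfl⟩ := minpoly.mem_range_of_degree_eq_one k y
      (IsAlgClosed.degree_eq_one_of_irreducible k (minpoly.irreducible (alg_of_Dm h6).isIntegral))
    obtain ⟨g, hg⟩ : ∃ g, χ g ≠ 1 := by
      by_contra! h7
      exact hχ (MonoidHom.ext h7)
    have h7 := eig_one_of_isConst (isConst_of_ell (u := u - d • w) fun i => by
      rw [map_sub, map_sub, map_smul, map_smul, Algebra.smul_def, sub_eq_zero]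
      exact h5 i) g
    rw [map_sub, map_smul, h g, h3 g, MonoidHom.one_apply, Units.val_one, one_smul] at h7
    have h8 : (χ g : k) - 1 ≠ 0 := fun h9 => hg (Units.ext (sub_eq_zero.1 h9))
    have h9 : u = (((χ g : k) - 1)⁻¹ * (d * (χ⁻¹ g : kˣ) - d)) • w := by
      rw [mul_smul, eq_inv_smul_iff₀ h8]
      linear_combination (norm := module) h7
    refine h2 (h.unique (fun g' => ?_) hu)
    rw [h9, map_smul, h3 g', smul_comm]
  refine ⟨y, fun D hD => mul_left_cancel₀ hj ?_⟩
  rw [mul_zero, ← mul_zero (y * LL j w), ← hD, ell_eq_sum, derivation_eq_sum k m D y,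
    Finset.mul_sum, Finset.mul_sum]
  refine Finset.sum_congr rfl fun i _ => ?_
  have h6 := LL_closed i j u
  rw [h5 i, h5 j, Derivation.leibniz, Derivation.leibniz, LL_closed i j w] at h6
  simp only [smul_eq_mul] at h6
  have h7 := h5 i
  simp only [LL] at h6 h7 ⊢
  linear_combination Dm k m j y * D (rO k m (X i)) * h7 - D (rO k m (X i)) * y * h6

omit [IsAlgClosed k] in
theorem kill_of_ell {r : ℕ} {lam : Fin r → k} (hl : LinearIndependent ℚ lam)
    (x : Fin r → (Bm k m)ˣ) {y : Omm k m} (h : ∀ D : Derivation k (Omm k m) (Omm k m), D y = 0 →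
      ell k D (Umap k (vB k m) (∑ a, lam a • ulog k (x a))) = 0) (a : Fin r)
    (D : Derivation k (Omm k m) (Omm k m)) (hD : D y = 0) : D (vB k m (x a)) = 0 := by
  refine derivation_eq_zero D {y} (fun _ h => h ▸ hD) _ (IntermediateField.isAlgebraic_adjoin_iff.1
    (ax (k₁ := IntermediateField.adjoin k {y}) hl (fun a => umap (vB k m) (x a)) (fun E => ?_) a))
  have := h (E.restrictScalars k)
    (E.map_algebraMap ⟨y, IntermediateField.mem_adjoin_simple_self k y⟩)
  simpa only [map_sum, map_smul, Umap_ulog, ell_ulog, Derivation.restrictScalars_apply] using this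

theorem algOver_of_kill {f : Base k m} (hf : NonConst f) {y z : Omm k m}
    (h1 : ∀ D : Derivation k (Omm k m) (Omm k m), D y = 0 → D (rO k m f) = 0)
    (h2 : ∀ D : Derivation k (Omm k m) (Omm k m), D y = 0 → D z = 0) : AlgOver f z := by
  obtain ⟨D₀, hD₀⟩ : ∃ D : Derivation k (Omm k m) (Omm k m), D (rO k m f) ≠ 0 := by
    by_contra! h
    obtain ⟨c, hc⟩ := mem_range_cB (y := iB k m f) (isAlgebraic_of_derivations _ h)
    exact hf c (FaithfulSMul.algebraMap_injective _ (Bm k m) hc).symm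
  have h3 : D₀ y ≠ 0 := fun h => hD₀ (h1 _ h)
  refine IntermediateField.isAlgebraic_adjoin_iff.1 (isAlgebraic_of_derivations z fun E =>
    h2 (E.restrictScalars k) ?_)
  have h4 : E.restrictScalars k (rO k m f) = 0 :=
    E.map_algebraMap ⟨_, IntermediateField.mem_adjoin_simple_self k _⟩
  generalize E.restrictScalars k = D at h4
  have h5 := h1 (D - (D y / D₀ y) • D₀) (by
    rw [Derivation.sub_apply, Derivation.smul_apply, smul_eq_mul, div_mul_cancel₀ _ h3, sub_self])
  rw [Derivation.sub_apply, Derivation.smul_apply, h4, zero_sub, neg_eq_zero, smul_eq_mul] at h5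
  exact (div_eq_zero_iff.1 ((mul_eq_zero.1 h5).resolve_right hD₀)).resolve_right h3

omit [IsAlgClosed k] in
theorem exists_coeff (S : Subring (Bm k m)) {z : Bm k m} (hz : ¬IsAlgebraic k (vB k m z))
    (hS : ∀ g : Gm k m, g z ∈ S) : ∃ f, NonConst f ∧ iB k m f ∈ S := by
  classical
  let T := (finite_orbit (R := Base k m) z).toFinset
  have hT : ∀ t, t ∈ T ↔ ∃ g : Gm k m, g z = t := fun t => Set.Finite.mem_toFinset _
  let P := ∏ t ∈ T, (Polynomial.X - Polynomial.C t)
  have h1 : ∀ n, P.coeff n ∈ S := fun n => by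
    obtain ⟨s, hs⟩ := (Polynomial.lifts_iff_coeff_lifts _).1 ((Polynomial.lifts_iff_liftsRing
      S.subtype P).2 (prod_mem fun t ht => sub_mem ⟨Polynomial.X, Polynomial.map_X _⟩ (by
        obtain ⟨g, rfl⟩ := (hT t).1 ht
        exact ⟨Polynomial.C ⟨_, hS g⟩, Polynomial.map_C _⟩))) n
    exact hs ▸ s.2
  have h2 : ∀ n, P.coeff n ∈ (iB k m).range := fun n => mem_range_of_fixed _ fun g => by
    have : P.map (g : Bm k m →+* Bm k m) = P := by
      simp only [P, Polynomial.map_prod, Polynomial.map_sub, Polynomial.map_X, Polynomial.map_C]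
      refine Finset.prod_equiv g.toEquiv (fun t => ?_) fun t _ => rfl
      simp only [hT]
      exact ⟨fun ⟨g', e⟩ => ⟨g * g', congrArg g e⟩,
        fun ⟨g', e⟩ => ⟨g⁻¹ * g', g.symm_apply_eq.2 e⟩⟩
    exact (Polynomial.coeff_map _ n).symm.trans (congrArg (·.coeff n) this)
  by_contra! h
  obtain ⟨Q, hQ, -, hm⟩ := Polynomial.lifts_and_degree_eq_and_monic
    (((Polynomial.lifts_iff_coeff_lifts (f := cB k m) P)).2 fun n => by
      obtain ⟨f, hf⟩ := h2 n
      by_contra h3
      exact h f (fun c hc => h3 ⟨c, hf ▸ hc ▸ rfl⟩) (hf ▸ h1 n))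
    (Polynomial.monic_prod_X_sub_C _ _)
  refine hz ⟨Q, hm.ne_zero, ?_⟩
  have e : algebraMap k (Omm k m) = (vB k m).comp (cB k m) := RingHom.ext fun c => (rO_C c).symm
  rw [Polynomial.aeval_def, e, ← Polynomial.hom_eval₂, Polynomial.eval₂_eq_eval_map, hQ,
    Polynomial.eval_prod, Finset.prod_eq_zero ((hT z).2 ⟨1, rfl⟩) (by simp), map_zero]

end Pen

theorem pencil {χ : Gm k m →* kˣ} {u : Uo k (Bm k m)} (h : Eig χ u) : ∃ f, In u f := by
  by_cases hc : IsConst u
  · exact ⟨0, in_of_isConst hc 0⟩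
  obtain ⟨y, hy⟩ := exists_fun h (fun h0 => hc (h0 ▸ zero_mem _))
    fun h1 => hc (isConst_of_eig_one (h1 ▸ h))
  obtain ⟨r, lam, x, hl, rfl⟩ := exists_repr u
  have h1 := kill_of_ell hl x hy
  obtain ⟨a, ha⟩ : ∃ a, ¬IsAlgebraic k (vB k m (x a)) := by
    by_contra! h2
    exact hc (isConst_of_alg lam x h2)
  let S : Subring (Bm k m) :=
    { carrier := {z | ∀ D : Derivation k (Omm k m) (Omm k m), D y = 0 → D (vB k m z) = 0}
      mul_mem' := fun ha hb D hD => by
        rw [map_mul, Derivation.leibniz, ha D hD, hb D hD, smul_zero, smul_zero, add_zero]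
      one_mem' := fun D _ => by rw [map_one, Derivation.map_one_eq_zero]
      add_mem' := fun ha hb D hD => by rw [map_add, map_add, ha D hD, hb D hD, add_zero]
      zero_mem' := fun D _ => by rw [map_zero, map_zero]
      neg_mem' := fun ha D hD => by rw [map_neg, map_neg, ha D hD, neg_zero] }
  obtain ⟨f, hf, hS⟩ := exists_coeff S ha fun g D hD => by
    obtain ⟨M, hM, h2⟩ := pow_mem_of_repr_eq hl (x := fun a => umap (g : Bm k m →+* Bm k m) (x a))
      (mu := fun a => χ g * lam a) (y := x) (by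
        simpa only [map_sum, map_smul, Umap_ulog, Finset.smul_sum, smul_smul] using h g)
    have h3 : ∀ z ∈ Subgroup.closure (Set.range x), ell k D (Umap k (vB k m) (ulog k z)) = 0 :=
      fun z hz => by
        induction hz using Subgroup.closure_induction with
        | mem _ hz =>
          obtain ⟨b, rfl⟩ := hz
          rw [Umap_ulog, ell_ulog, coe_umap, h1 b D hD, zero_div]
        | one => rw [ulog_one, map_zero, map_zero]
        | mul _ _ _ _ ha hb => rw [ulog_mul, map_add, map_add, ha, hb, add_zero]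
        | inv z _ hz =>
          have := congrArg (fun v => ell k D (Umap k (vB k m) v)) (ulog_mul k z z⁻¹)
          simpa only [mul_inv_cancel, ulog_one, map_zero, map_add, hz, zero_add, eq_comm] using this
    have h4 := h3 _ (h2 a)
    rw [ulog_pow, map_smul, map_smul, Umap_ulog, ell_ulog, smul_eq_zero, div_eq_zero_iff] at h4
    exact (h4.resolve_left (Nat.cast_ne_zero.2 hM.ne')).resolve_right (Units.ne_zero _)
  exact ⟨f, in_of_algOver hf lam x fun b => algOver_of_kill hf hS (h1 b)⟩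

end

end Pool.Agent.MP_e2821c_ag.Cy
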