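import Pool.Agent.Lib.MP_e2821c_ag.Cy.Core

namespace Pool.Agent.MP_e2821c_ag.Cy

open MvPolynomial
open scoped TensorProduct

universe u v w

noncomputable section

theorem IsAic.splits {B : Type u} [CommRing B] [IsAic B] {p : Polynomial B} (hp : p.Monic) :
    p.Splits := by
  induction h : p.natDegree generalizing p with
  | zero => exact .of_natDegree_eq_zero h
  | succ n ih =>
    obtain ⟨x, hx⟩ := IsAic.exists_root p hp (by omega)
    have e := Polynomial.mul_divByMonic_eq_iff_isRoot.2 hx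
    rw [← e]
    refine (Polynomial.Splits.X_sub_C x).mul (ih ((Polynomial.monic_X_sub_C x).of_mul_monic_left
      (e.symm ▸ hp)) ?_)
    rw [Polynomial.natDegree_divByMonic p (Polynomial.monic_X_sub_C x), h,
      Polynomial.natDegree_X_sub_C, Nat.add_sub_cancel]

/-- An element of a domain that is integral over an absolutely integrally closed domain comes from
it. -/
theorem IsAic.mem_range_lift {B : Type u} [CommRing B] [IsAic B] {C : Type v} [CommRing C]
    [IsDomain C] (φ : B →+* C) {x : C} (hx : φ.IsIntegralElem x) : ∃ y, φ y = x := by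
  obtain ⟨p, hp, h⟩ := hx
  have h1 : x ∈ (p.map φ).roots := by
    rw [Polynomial.mem_roots (hp.map φ).ne_zero, Polynomial.IsRoot, Polynomial.eval_map]
    exact h
  rw [(IsAic.splits hp).roots_map_of_ne_zero (hp.map φ).ne_zero, Multiset.mem_map] at h1
  obtain ⟨y, -, hy⟩ := h1
  exact ⟨y, hy⟩

theorem IsAic.isIntegrallyClosed (B : Type u) [CommRing B] [IsAic B] : IsIntegrallyClosed B :=
  (isIntegrallyClosed_iff (FractionRing B)).2 fun hx => IsAic.mem_range_lift _ hx

theorem inj_Om_lift (R : Type u) [CommRing R] [IsDomain R] :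
    Function.Injective (algebraMap R (Om R)) := by
  rw [IsScalarTower.algebraMap_eq R (FractionRing R) (Om R)]
  exact (algebraMap _ (Om R)).injective.comp (IsFractionRing.injective R (FractionRing R))

theorem alg_Om_lift (R : Type u) [CommRing R] [IsDomain R] : Algebra.IsAlgebraic R (Om R) :=
  IsFractionRing.comap_isAlgebraic_iff.2
    (inferInstance : Algebra.IsAlgebraic (FractionRing R) (Om R))

theorem exists_lift {R : Type u} (B : Type u) [CommRing R] [CommRing B] [Algebra R B]
    [Algebra.IsIntegral R B] [FaithfulSMul R B] (q : Pt R) :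
    ∃ f : B →+* q.B, f.comp (algebraMap R B) = q.ι := by
  let ψ : R →+* Om q.B := (algebraMap q.B (Om q.B)).comp q.ι
  have := RingHom.ker_isPrime ψ
  obtain ⟨Q, -, hQ, hQ'⟩ := Ideal.exists_ideal_over_prime_of_isIntegral (RingHom.ker ψ)
    (⊥ : Ideal B) (by simp [← RingHom.ker_eq_comap_bot])
  have : (Q.comap (algebraMap R B)).IsPrime := Ideal.comap_isPrime _ _
  let χ : R ⧸ Q.comap (algebraMap R B) →+* Om q.B :=
    Ideal.Quotient.lift _ ψ fun a ha => by rwa [hQ'] at ha
  have hχ : Function.Injective χ := RingHom.lift_injective_of_ker_le_ideal _ _ hQ'.ge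
  let := χ.toAlgebra
  have : FaithfulSMul (R ⧸ Q.comap (algebraMap R B)) (Om q.B) :=
    (faithfulSMul_iff_algebraMap_injective _ _).2 hχ
  have : FaithfulSMul (R ⧸ Q.comap (algebraMap R B)) (B ⧸ Q) :=
    (faithfulSMul_iff_algebraMap_injective _ _).2 Ideal.algebraMap_quotient_injective
  let F : B ⧸ Q →ₐ[R ⧸ Q.comap (algebraMap R B)] Om q.B := IsAlgClosed.lift
  let G : B →+* Om q.B := F.toRingHom.comp (Ideal.Quotient.mk Q)
  have hG : ∀ r, G (algebraMap R B r) = algebraMap q.B (Om q.B) (q.ι r) := fun r =>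
    F.commutes (Ideal.Quotient.mk _ r)
  have h1 : ∀ b, ∃ y, algebraMap q.B (Om q.B) y = G b := fun b => by
    obtain ⟨p, hp, h⟩ := Algebra.IsIntegral.isIntegral (R := R) b
    refine IsAic.mem_range_lift _ ⟨p.map q.ι, hp.map _, ?_⟩
    rw [Polynomial.eval₂_map, show (algebraMap q.B (Om q.B)).comp q.ι =
      G.comp (algebraMap R B) from RingHom.ext fun r => (hG r).symm,
      ← Polynomial.hom_eval₂, h, map_zero]
  choose f hf using h1
  have hi := inj_Om_lift q.B
  refine ⟨⟨⟨⟨f, hi ?_⟩, fun a b => hi ?_⟩, hi ?_, fun a b => hi ?_⟩, RingHom.ext fun r => hi ?_⟩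
  · rw [hf, map_one, map_one]
  · simp only [map_mul, hf]
  · simp only [map_zero, hf]
  · simp only [map_add, hf]
  · exact (hf _).trans (hG r)

theorem finite_orbit {R B : Type u} [CommRing R] [CommRing B] [IsDomain B] [Algebra R B]
    [Algebra.IsIntegral R B] (x : B) : (Set.range fun g : B ≃ₐ[R] B => g x).Finite := by
  classical
  obtain ⟨p, hp, h⟩ := Algebra.IsIntegral.isIntegral (R := R) x
  refine (p.rootSet_finite B).subset ?_
  rintro _ ⟨g, rfl⟩
  rw [hp.mem_rootSet, Polynomial.aeval_algHom_apply, Polynomial.aeval_def, h, map_zero]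

section Normal

variable {R B : Type u} [CommRing R] [IsDomain R] [IsIntegrallyClosed R] [Algebra ℚ R]
  [CommRing B] [IsAic B] [Algebra R B] [Algebra.IsIntegral R B] [FaithfulSMul R B]

theorem mem_range_of_fixed (x : B) (h : ∀ g : B ≃ₐ[R] B, g x = x) :
    x ∈ (algebraMap R B).range := by
  have hi := inj_Om_lift B
  have hR : Function.Injective (algebraMap R (Om B)) := by
    rw [IsScalarTower.algebraMap_eq R B (Om B)]
    exact hi.comp (FaithfulSMul.algebraMap_injective R B)
  have : FaithfulSMul R (Om B) := (faithfulSMul_iff_algebraMap_injective _ _).2 hR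
  let := FractionRing.liftAlgebra R (Om B)
  have := FractionRing.isScalarTower_liftAlgebra R (Om B)
  have : IsIntegralClosure B R (Om B) := ⟨hi, fun {y} => ⟨fun hy =>
    IsAic.mem_range_lift _ (hy.tower_top (A := B)), fun ⟨b, hb⟩ =>
      hb ▸ (Algebra.IsIntegral.isIntegral (R := R) b).algebraMap⟩⟩
  have := alg_Om_lift B
  have : Algebra.IsAlgebraic R (Om B) := Algebra.IsAlgebraic.trans R B (Om B)
  have : Algebra.IsAlgebraic (FractionRing R) (Om B) := IsFractionRing.comap_isAlgebraic_iff.1 this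
  have : CharZero R := algebraRat.charZero R
  have : IsAlgClosure (FractionRing R) (Om B) := ⟨inferInstance, inferInstance⟩
  obtain ⟨k, hk⟩ := (InfiniteGalois.mem_range_algebraMap_iff_fixed (k := FractionRing R)
    (algebraMap B (Om B) x)).2 fun σ => by rw [← algebraMap_galRestrict_apply R σ x, h]
  have h2 : IsIntegral R k := by
    rw [← isIntegral_algebraMap_iff (algebraMap (FractionRing R) (Om B)).injective, hk]
    exact (Algebra.IsIntegral.isIntegral (R := R) x).algebraMap
  obtain ⟨r, rfl⟩ := IsIntegrallyClosed.algebraMap_eq_of_integral h2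
  refine ⟨r, hi ?_⟩
  rw [← hk, ← IsScalarTower.algebraMap_apply, ← IsScalarTower.algebraMap_apply]

theorem exists_gal_one_lift {B' : Type u} [CommRing B'] [IsDomain B'] (f f' : B →+* B')
    (h : f.comp (algebraMap R B) = f'.comp (algebraMap R B)) (y : B) :
    ∃ g : B ≃ₐ[R] B, f' y = f (g y) := by
  classical
  let O := (finite_orbit (R := R) y).toFinset
  let P : Polynomial B := ∏ z ∈ O, (Polynomial.X - Polynomial.C z)
  have hO : ∀ (g : B ≃ₐ[R] B), ∀ z ∈ O, g z ∈ O := fun g z hz => by
    obtain ⟨g', rfl⟩ := (Set.Finite.mem_toFinset _).1 hz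
    exact (Set.Finite.mem_toFinset _).2 ⟨g * g', rfl⟩
  have h1 : ∀ g : B ≃ₐ[R] B, P.map (g : B →+* B) = P := fun g => by
    simp only [P, Polynomial.map_prod, Polynomial.map_sub, Polynomial.map_X, Polynomial.map_C]
    exact Finset.prod_nbij' g g.symm (hO g) (hO g.symm) (fun z _ => g.symm_apply_apply z)
      (fun z _ => g.apply_symm_apply z) fun z _ => rfl
  obtain ⟨P₀, hP⟩ := (Polynomial.mem_lifts P).1 ((Polynomial.lifts_iff_coeff_lifts
    (f := algebraMap R B) P).2 fun n => mem_range_of_fixed _ fun g => by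
      conv_rhs => rw [← h1 g, Polynomial.coeff_map]
      rfl)
  have h2 : P.map f = P.map f' := by rw [← hP, Polynomial.map_map, Polynomial.map_map, h]
  have h3 : P.eval y = 0 := by
    rw [Polynomial.eval_prod]
    exact Finset.prod_eq_zero ((Set.Finite.mem_toFinset _).2 ⟨1, rfl⟩) (by simp)
  have h4 : (P.map f).eval (f' y) = 0 := by
    rw [h2, Polynomial.eval_map, Polynomial.eval₂_at_apply, h3, map_zero]
  simp only [P, Polynomial.map_prod, Polynomial.map_sub, Polynomial.map_X, Polynomial.map_C,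
    Polynomial.eval_prod, Polynomial.eval_sub, Polynomial.eval_X, Polynomial.eval_C,
    Finset.prod_eq_zero_iff] at h4
  obtain ⟨z, hz, h5⟩ := h4
  obtain ⟨g, rfl⟩ := (Set.Finite.mem_toFinset _).1 hz
  exact ⟨g, sub_eq_zero.1 h5⟩

theorem exists_gal {B' : Type u} [CommRing B'] [IsDomain B'] (f f' : B →+* B')
    (h : f.comp (algebraMap R B) = f'.comp (algebraMap R B)) (E : Finset B) :
    ∃ g : B ≃ₐ[R] B, ∀ e ∈ E, f' e = f (g e) := by
  classical
  let c : ℚ →+* B' := (f.comp (algebraMap R B)).comp (algebraMap ℚ R)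
  let := c.toAlgebra
  let S : Set (E → B) := Set.range fun (g : B ≃ₐ[R] B) (e : E) => g e
  have hS : Finite S := ((Set.Finite.pi' fun e : E => finite_orbit (R := R) (e : B)).subset (by
    rintro _ ⟨g, rfl⟩ e
    exact ⟨g, rfl⟩)).to_subtype
  let V : S → Subspace ℚ (E → ℚ) := fun s =>
    LinearMap.ker (Fintype.linearCombination ℚ fun e : E => f' e - f (s.1 e))
  obtain ⟨⟨_, g, rfl⟩, hg⟩ := Subspace.exists_eq_top_of_iUnion_eq_univ (p := V) (by
    refine Set.eq_univ_of_forall fun a => ?_
    obtain ⟨g, hg⟩ := exists_gal_one_lift f f' h (∑ e : E, algebraMap ℚ R (a e) • (e : B))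
    refine Set.mem_iUnion.2 ⟨⟨_, g, rfl⟩, LinearMap.mem_ker.2 ?_⟩
    rw [map_sum g, map_sum, map_sum, ← sub_eq_zero, ← Finset.sum_sub_distrib] at hg
    rw [Fintype.linearCombination_apply, ← hg]
    refine Finset.sum_congr rfl fun e _ => ?_
    rw [map_smul g, Algebra.smul_def (a e), Algebra.smul_def, Algebra.smul_def, map_mul, map_mul,
      mul_sub]
    congr 2
    exact DFunLike.congr_fun h _)
  refine ⟨g, fun e he => sub_eq_zero.1 ?_⟩
  have h1 : Pi.single (⟨e, he⟩ : E) (1 : ℚ) ∈ V ⟨_, g, rfl⟩ := hg ▸ Submodule.mem_top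
  simpa [V] using h1

end Normal

section Closure

variable (R : Type u) [CommRing R] [IsDomain R]

theorem isFractionRing_AC : IsFractionRing (AC R) (Om R) :=
  have := alg_Om_lift R
  integralClosure.isFractionRing_of_algebraic ((injective_iff_map_eq_zero _).1 (inj_Om_lift R))

theorem exists_ext (g : AC R ≃+* AC R) :
    ∃ g' : Om R ≃+* Om R, ∀ x : AC R, g' (x : Om R) = (g x : Om R) :=
  have := isFractionRing_AC R
  ⟨IsFractionRing.ringEquivOfRingEquiv g, IsFractionRing.ringEquivOfRingEquiv_algebraMap g⟩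

theorem exists_extG (g : AC R ≃ₐ[R] AC R) :
    ∃ g' : Om R ≃ₐ[FractionRing R] Om R, ∀ x : AC R, g' (x : Om R) = (g x : Om R) :=
  ⟨(galRestrict R (FractionRing R) (Om R) (AC R)).symm g,
    galRestrict_symm_algebraMap_apply R (FractionRing R) g⟩

theorem exists_res (σ : Om R ≃ₐ[FractionRing R] Om R) :
    ∃ g : AC R ≃ₐ[R] AC R, ∀ x : AC R, (g x : Om R) = σ (x : Om R) :=
  ⟨galRestrict R (FractionRing R) (Om R) (AC R) σ, algebraMap_galRestrict_apply R σ⟩

end Closure

end

end Pool.Agent.MP_e2821c_ag.Cy
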