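import Pool.Agent.Lib.MP_e2821c_ag.Cy.Simp
import Pool.Agent.Lib.MP_e2821c_ag.Cy.Lift

namespace Pool.Agent.MP_e2821c_ag.Cy

open MvPolynomial
open scoped TensorProduct

universe u v w

noncomputable section

theorem symL_degW (𝕂 : Type u) [CommRing 𝕂] (n : ℕ) {B : Type u} [CommRing B] {x : Wo 𝕂 n B}
    (hx : x ∈ degW 𝕂 n B) : symL 𝕂 n B x = 0 := by
  rw [degW, Finsupp.supported_eq_span_single] at hx
  refine Submodule.span_induction (p := fun x _ => symL 𝕂 n B x = 0) ?_ (map_zero _)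
    (fun a b _ _ ha hb => by rw [map_add, ha, hb, add_zero])
    (fun c a _ ha => by rw [map_smul, ha, smul_zero]) hx
  rintro _ ⟨y, ⟨i, hi⟩, rfl⟩
  rw [symL_single, (tp 𝕂 n).map_coord_zero i (by rw [hi, ulog_one]), smul_zero]

theorem permT_mul_swap (𝕂 : Type u) [CommRing 𝕂] (n : ℕ) {B : Type u} [CommRing B]
    (σ τ : Equiv.Perm (Fin n)) (x : To 𝕂 n B) :
    permT 𝕂 n (σ * τ) B x = permT 𝕂 n σ B (permT 𝕂 n τ B x) := by
  induction x using To.induction_on with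
  | h1 c v =>
    simp only [map_smul, permT_tp]
    rfl
  | h2 a b ha hb => rw [map_add, map_add, map_add, ha, hb]

theorem permT_one_swap (𝕂 : Type u) [CommRing 𝕂] (n : ℕ) {B : Type u} [CommRing B]
    (x : To 𝕂 n B) : permT 𝕂 n 1 B x = x := by
  induction x using To.induction_on with
  | h1 c v =>
    simp only [map_smul, permT_tp]
    rfl
  | h2 a b ha hb => rw [map_add, ha, hb]

theorem sign_sq_swap (𝕂 : Type u) [CommRing 𝕂] {n : ℕ} (τ : Equiv.Perm (Fin n)) :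
    (((Equiv.Perm.sign τ : ℤˣ) : ℤ) : 𝕂) * (((Equiv.Perm.sign τ : ℤˣ) : ℤ) : 𝕂) = 1 := by
  rw [← Int.cast_mul, ← Units.val_mul, Int.units_mul_self, Units.val_one, Int.cast_one]

theorem altL_permT_swap (𝕂 : Type u) [Field 𝕂] (n : ℕ) {B : Type u} [CommRing B]
    (τ : Equiv.Perm (Fin n)) (x : To 𝕂 n B) :
    altL 𝕂 n B (permT 𝕂 n τ B x) = (((Equiv.Perm.sign τ : ℤˣ) : ℤ) : 𝕂) • altL 𝕂 n B x := by
  rw [altL_apply, altL_apply, smul_comm]
  congr 1
  rw [Finset.smul_sum, ← Equiv.sum_comp (Equiv.mulRight τ)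
    (fun σ => (((Equiv.Perm.sign τ : ℤˣ) : ℤ) : 𝕂) •
      (((Equiv.Perm.sign σ : ℤˣ) : ℤ) : 𝕂) • permT 𝕂 n σ B x)]
  refine Finset.sum_congr rfl fun σ _ => ?_
  rw [Equiv.coe_mulRight, permT_mul_swap, smul_smul, map_mul, Units.val_mul, Int.cast_mul,
    mul_left_comm, sign_sq_swap, mul_one]

theorem altL_altL (𝕂 : Type u) [Field 𝕂] [CharZero 𝕂] (n : ℕ) {B : Type u} [CommRing B]
    (x : To 𝕂 n B) : altL 𝕂 n B (altL 𝕂 n B x) = altL 𝕂 n B x := by
  conv_lhs => rw [altL_apply 𝕂 n x]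
  rw [map_smul, map_sum]
  simp only [map_smul, altL_permT_swap, smul_smul, sign_sq_swap, one_smul, Finset.sum_const,
    Finset.card_univ, Fintype.card_perm, Fintype.card_fin]
  rw [← Nat.cast_smul_eq_nsmul 𝕂, smul_smul,
    inv_mul_cancel₀ (Nat.cast_ne_zero.2 (Nat.factorial_ne_zero n)), one_smul]

theorem eq_zero_of_two_swap (𝕂 : Type u) [Field 𝕂] [CharZero 𝕂] {M : Type*} [AddCommGroup M]
    [Module 𝕂 M] {x : M} (h : x + x = 0) : x = 0 := by
  rw [← two_smul 𝕂] at h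
  exact (smul_eq_zero.1 h).resolve_left two_ne_zero

theorem eq_zero_of_neg_swap (𝕂 : Type u) [Field 𝕂] [CharZero 𝕂] {M : Type*} [AddCommGroup M]
    [Module 𝕂 M] {x : M} (h : x = (-1 : 𝕂) • x) : x = 0 := by
  rw [neg_one_smul] at h
  exact eq_zero_of_two_swap 𝕂 (add_eq_zero_iff_eq_neg.2 h)

theorem altL_tp_eq_zero (𝕂 : Type u) [Field 𝕂] [CharZero 𝕂] (n : ℕ) {B : Type u} [CommRing B]
    (v : Fin n → Uo 𝕂 B) {i i' : Fin n} (h : i ≠ i') (c : 𝕂) (hc : v i = c • v i') :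
    altL 𝕂 n B (tp 𝕂 n v) = 0 := by
  have e1 : tp 𝕂 n v = c • tp 𝕂 n (Function.update v i (v i')) := by
    rw [← MultilinearMap.map_update_smul, ← hc, Function.update_eq_self]
  have e2 : permT 𝕂 n (Equiv.swap i i') B (tp 𝕂 n (Function.update v i (v i'))) =
      tp 𝕂 n (Function.update v i (v i')) := by
    rw [permT_tp]
    congr 1
    funext l
    rw [Equiv.symm_swap]
    exact Equiv.apply_swap_eq_self (by rw [Function.update_self, Function.update_of_ne h.symm]) l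
  have e3 := altL_permT_swap 𝕂 n (Equiv.swap i i') (tp 𝕂 n (Function.update v i (v i')))
  rw [e2, Equiv.Perm.sign_swap h, Units.val_neg, Units.val_one, Int.cast_neg, Int.cast_one] at e3
  have e4 : altL 𝕂 n B (tp 𝕂 n (Function.update v i (v i'))) = 0 :=
    eq_zero_of_neg_swap 𝕂 (M := To 𝕂 n B) e3
  rw [e1, map_smul, e4, smul_zero]

section Homotopy

variable (𝕂 : Type u) {n : ℕ} {B B' : Type u} [CommRing B] [CommRing B']

section Ring

variable [CommRing 𝕂]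

open Classical in
/-- The class of an element, zero for non-units. -/
def ulSwap (x : B) : Uo 𝕂 B := if h : IsUnit x then ulog 𝕂 h.unit else 0

theorem ulSwap_unit (x : Bˣ) : ulSwap 𝕂 (x : B) = ulog 𝕂 x := by
  rw [ulSwap, dif_pos x.isUnit, IsUnit.unit_of_val_units]

theorem Umap_ulSwap (f : B →+* B') {x : B} (hx : IsUnit x) :
    Umap 𝕂 f (ulSwap 𝕂 x) = ulSwap 𝕂 (f x) := by
  obtain ⟨y, rfl⟩ := hx
  rw [ulSwap_unit, Umap_ulog, ← coe_umap, ulSwap_unit]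

/-- The pure tensor with two entries replaced. -/
def tpSwap (i i' : Fin n) (v : Fin n → Uo 𝕂 B) (a b : Uo 𝕂 B) : To 𝕂 n B :=
  tp 𝕂 n (Function.update (Function.update v i a) i' b)

theorem Tmap_tpSwap (f : B →+* B') (i i' : Fin n) (v : Fin n → Uo 𝕂 B) (a b : Uo 𝕂 B) :
    Tmap 𝕂 n f (tpSwap 𝕂 i i' v a b) =
      tpSwap 𝕂 i i' (fun l => Umap 𝕂 f (v l)) (Umap 𝕂 f a) (Umap 𝕂 f b) := by
  rw [tpSwap, tpSwap, Tmap_tp]
  congr 1
  funext l
  simp only [Function.update_apply, apply_ite (Umap 𝕂 f)]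

theorem tpSwap_add_right (i i' : Fin n) (v : Fin n → Uo 𝕂 B) (a b b' : Uo 𝕂 B) :
    tpSwap 𝕂 i i' v a (b + b') = tpSwap 𝕂 i i' v a b + tpSwap 𝕂 i i' v a b' :=
  MultilinearMap.map_update_add _ _ _ _ _

theorem tpSwap_zero_right (i i' : Fin n) (v : Fin n → Uo 𝕂 B) (a : Uo 𝕂 B) :
    tpSwap 𝕂 i i' v a 0 = 0 :=
  MultilinearMap.map_update_zero _ _ _

theorem tpSwap_add_left {i i' : Fin n} (h : i ≠ i') (v : Fin n → Uo 𝕂 B) (a a' b : Uo 𝕂 B) :
    tpSwap 𝕂 i i' v (a + a') b = tpSwap 𝕂 i i' v a b + tpSwap 𝕂 i i' v a' b := by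
  simp only [tpSwap, Function.update_comm h]
  exact MultilinearMap.map_update_add _ _ _ _ _

theorem tpSwap_self (i i' : Fin n) (v : Fin n → Uo 𝕂 B) :
    tpSwap 𝕂 i i' v (v i) (v i') = tp 𝕂 n v := by
  rw [tpSwap, Function.update_eq_self, Function.update_eq_self]

theorem tpSwap_swap {i i' : Fin n} (h : i ≠ i') (v : Fin n → Uo 𝕂 B) :
    tpSwap 𝕂 i i' v (v i') (v i) = permT 𝕂 n (Equiv.swap i i') B (tp 𝕂 n v) := by
  rw [tpSwap, permT_tp]
  congr 1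
  funext l
  rw [Equiv.symm_swap, Equiv.swap_apply_def]
  simp only [Function.update_apply]
  by_cases h1 : l = i
  · subst h1
    simp [h]
  · by_cases h2 : l = i'
    · subst h2
      simp [h1]
    · simp [h1, h2]

end Ring

/-- The quadratic polynomial of the homotopy. -/
def qSwap (σ u : B) : Polynomial B :=
  Polynomial.X ^ 2 - Polynomial.C (σ * (1 + u)) * Polynomial.X + Polynomial.C u

theorem qSwap_monic (σ u : B) : (qSwap σ u).Monic := by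
  unfold qSwap
  nontriviality B
  monicity!

theorem qSwap_natDegree [Nontrivial B] (σ u : B) : (qSwap σ u).natDegree = 2 := by
  unfold qSwap
  compute_degree!

theorem qSwap_map (f : B →+* B') (σ u : B) : (qSwap σ u).map f = qSwap (f σ) (f u) := by
  simp [qSwap]

theorem qSwap_unit [IsDomain B] (σ : B) (u : Bˣ) {ξ : B} (h : ξ ∈ (qSwap σ (u : B)).roots) :
    IsUnit ξ := by
  have h1 := (Polynomial.mem_roots'.1 h).2
  simp only [qSwap, Polynomial.IsRoot.def, Polynomial.eval_add, Polynomial.eval_sub,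
    Polynomial.eval_pow, Polynomial.eval_X, Polynomial.eval_mul, Polynomial.eval_C] at h1
  have h2 : ξ * (σ * (1 + u) - ξ) = u := by linear_combination -h1
  exact isUnit_of_mul_isUnit_left (h2 ▸ u.isUnit)

theorem roots_two_swap [IsDomain B] (a b : B) :
    ((Polynomial.X - Polynomial.C a) * (Polynomial.X - Polynomial.C b)).roots = {a, b} := by
  rw [Polynomial.roots_mul
    ((Polynomial.monic_X_sub_C a).mul (Polynomial.monic_X_sub_C b)).ne_zero,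
    Polynomial.roots_X_sub_C, Polynomial.roots_X_sub_C]
  rfl

theorem qSwap_one [IsDomain B] (u : B) : (qSwap 1 u).roots = {1, u} := by
  rw [← roots_two_swap]
  congr 1
  simp only [qSwap, one_mul, map_add, map_one]
  ring

theorem qSwap_zero [IsAic B] (u : Bˣ) :
    ∃ e : Bˣ, e * e = -u ∧ (qSwap 0 (u : B)).roots = {(e : B), ((-e : Bˣ) : B)} := by
  obtain ⟨ξ, hξ⟩ := IsAic.exists_root (qSwap 0 (u : B)) (qSwap_monic _ _)
    (by rw [qSwap_natDegree]; norm_num)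
  obtain ⟨e, rfl⟩ := qSwap_unit 0 u ((Polynomial.mem_roots (qSwap_monic _ _).ne_zero).2 hξ)
  simp only [qSwap, Polynomial.IsRoot.def, Polynomial.eval_add, Polynomial.eval_sub,
    Polynomial.eval_pow, Polynomial.eval_X, Polynomial.eval_mul, Polynomial.eval_C] at hξ
  have h2 : (u : B) = -((e : B) * e) := by linear_combination hξ
  refine ⟨e, Units.ext (by rw [Units.val_mul, Units.val_neg, h2, neg_neg]), ?_⟩
  rw [← roots_two_swap]
  congr 1
  simp only [qSwap, zero_mul, map_zero, h2, map_neg, map_mul, Units.val_neg]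
  ring

section Ring

variable [CommRing 𝕂]

/-- The sum over the two roots. -/
def GSwap [IsDomain B] (i i' : Fin n) (σ : B) (v : Fin n → Uo 𝕂 B) (u : Bˣ) : To 𝕂 n B :=
  ((qSwap σ (u : B)).roots.map fun ξ => tpSwap 𝕂 i i' v (ulSwap 𝕂 ξ) (ulSwap 𝕂 ξ)).sum

theorem Tmap_GSwap [IsAic B] [IsAic B'] (f : B →+* B') (i i' : Fin n) (σ : B)
    (v : Fin n → Uo 𝕂 B) (u : Bˣ) :
    Tmap 𝕂 n f (GSwap 𝕂 i i' σ v u) =
      GSwap 𝕂 i i' (f σ) (fun l => Umap 𝕂 f (v l)) (umap f u) := by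
  rw [GSwap, GSwap, coe_umap, ← qSwap_map,
    (IsAic.splits (qSwap_monic σ (u : B))).roots_map_of_ne_zero
      ((qSwap_monic σ (u : B)).map f).ne_zero, map_multiset_sum, Multiset.map_map,
    Multiset.map_map]
  congr 1
  refine Multiset.map_congr rfl fun ξ hξ => ?_
  simp only [Function.comp_apply]
  rw [Tmap_tpSwap, Umap_ulSwap 𝕂 f (qSwap_unit σ u hξ)]

theorem GSwap_one [IsDomain B] (i i' : Fin n) (v : Fin n → Uo 𝕂 B) (u : Bˣ) :
    GSwap 𝕂 i i' 1 v u = tpSwap 𝕂 i i' v (ulog 𝕂 u) (ulog 𝕂 u) := by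
  rw [GSwap, qSwap_one, Multiset.insert_eq_cons, Multiset.map_cons, Multiset.map_singleton,
    Multiset.sum_cons, Multiset.sum_singleton, ulSwap_unit, ← Units.val_one, ulSwap_unit,
    ulog_one, tpSwap_zero_right, zero_add]

end Ring

section Field

variable [Field 𝕂] [CharZero 𝕂]

theorem ulog_neg_swap (u : Bˣ) : ulog 𝕂 (-u) = ulog 𝕂 u := by
  have h : ulog 𝕂 (-1 : Bˣ) = 0 := eq_zero_of_two_swap 𝕂 (by
    rw [← ulog_mul, neg_mul_neg, one_mul, ulog_one])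
  rw [← neg_one_mul, ulog_mul, h, zero_add]

theorem GSwap_zero [IsAic B] {i i' : Fin n} (h : i ≠ i') (v : Fin n → Uo 𝕂 B) (u : Bˣ) :
    GSwap 𝕂 i i' 0 v u + GSwap 𝕂 i i' 0 v u = tpSwap 𝕂 i i' v (ulog 𝕂 u) (ulog 𝕂 u) := by
  obtain ⟨e, h1, h2⟩ := qSwap_zero u
  have h3 : ulog 𝕂 u = ulog 𝕂 e + ulog 𝕂 e := by rw [← ulog_mul, h1, ulog_neg_swap]
  rw [GSwap, h2, Multiset.insert_eq_cons, Multiset.map_cons, Multiset.map_singleton,
    Multiset.sum_cons, Multiset.sum_singleton, ulSwap_unit, ulSwap_unit, ulog_neg_swap, h3,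
    tpSwap_add_left 𝕂 h, tpSwap_add_right]

omit [CharZero 𝕂] in
/-- The polarised sum. -/
def PSwap [IsDomain B] (i i' : Fin n) (σ : B) (x : Fin n → Bˣ) : To 𝕂 n B :=
  GSwap 𝕂 i i' σ (fun l => ulog 𝕂 (x l)) (x i * x i') -
    GSwap 𝕂 i i' σ (fun l => ulog 𝕂 (x l)) (x i) - GSwap 𝕂 i i' σ (fun l => ulog 𝕂 (x l)) (x i')

theorem polar_swap {M : Type*} [AddCommGroup M] {g1 g2 g3 aa ab ba bb : M}
    (a1 : g1 + g1 = aa + ab + (ba + bb)) (a2 : g2 + g2 = aa) (a3 : g3 + g3 = bb) :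
    (aa + ab + (ba + bb) - aa - bb + (aa + ab + (ba + bb) - aa - bb)) -
      (g1 - g2 - g3 + (g1 - g2 - g3)) = ba + ab := by
  have e : g1 - g2 - g3 + (g1 - g2 - g3) = (g1 + g1) - (g2 + g2) - (g3 + g3) := by abel
  rw [e, a1, a2, a3]
  abel

theorem PSwap_sub [IsAic B] {i i' : Fin n} (h : i ≠ i') (x : Fin n → Bˣ) :
    (PSwap 𝕂 i i' 1 x + PSwap 𝕂 i i' 1 x) - (PSwap 𝕂 i i' 0 x + PSwap 𝕂 i i' 0 x) =
      permT 𝕂 n (Equiv.swap i i') B (tp 𝕂 n fun l => ulog 𝕂 (x l)) +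
        tp 𝕂 n fun l => ulog 𝕂 (x l) := by
  have a1 := GSwap_zero 𝕂 h (fun l => ulog 𝕂 (x l)) (x i * x i')
  have a2 := GSwap_zero 𝕂 h (fun l => ulog 𝕂 (x l)) (x i)
  have a3 := GSwap_zero 𝕂 h (fun l => ulog 𝕂 (x l)) (x i')
  have b1 := tpSwap_self 𝕂 i i' (fun l => ulog 𝕂 (x l))
  have b2 := tpSwap_swap 𝕂 h (fun l => ulog 𝕂 (x l))
  simp only [PSwap, GSwap_one]
  rw [ulog_mul, tpSwap_add_left 𝕂 h, tpSwap_add_right, tpSwap_add_right] at a1 ⊢
  rw [← b2, ← b1]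
  exact polar_swap (M := To 𝕂 n B) a1 a2 a3

end Field

end Homotopy

/-- The homotopy for a transposition. -/
def swapHT (𝕂 : Type u) [Field 𝕂] (n : ℕ) (i i' : Fin n) : HT (W 𝕂 n) (TP 𝕂 n) where
  app B _ _ σ := Finsupp.linearCombination 𝕂 fun x : Fin n → Bˣ =>
    PSwap 𝕂 i i' σ x + PSwap 𝕂 i i' σ x
  nat {B B'} _ _ _ _ f σ x := by
    change Tmap 𝕂 n f (Finsupp.linearCombination 𝕂 (fun x : Fin n → Bˣ =>
        PSwap 𝕂 i i' σ x + PSwap 𝕂 i i' σ x) x) =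
      Finsupp.linearCombination 𝕂 (fun x : Fin n → B'ˣ =>
        PSwap 𝕂 i i' (f σ) x + PSwap 𝕂 i i' (f σ) x) (Wmap 𝕂 n f x)
    induction x using Finsupp.induction_linear with
    | zero => simp
    | add a b ha hb => rw [map_add, map_add, map_add, map_add, ha, hb]
    | single x c =>
      simp only [Wmap_single, Finsupp.linearCombination_single, map_smul, map_add, PSwap, map_sub,
        Tmap_GSwap, Umap_ulog, map_mul]

theorem add_case_swap {M : Type*} [AddCommGroup M] {a b a' b' c d c' d' : M} (h : a - b = c + d)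
    (h' : a' - b' = c' + d') : a + a' - (b + b') = c + c' + (d + d') := by
  rw [add_sub_add_comm, h, h', add_add_add_comm]

theorem swapHT_sub (𝕂 : Type u) [Field 𝕂] [CharZero 𝕂] (n : ℕ) {i i' : Fin n} (h : i ≠ i')
    (B : Type u) [CommRing B] [IsAic B] (x : Wo 𝕂 n B) :
    (swapHT 𝕂 n i i').app B 1 x - (swapHT 𝕂 n i i').app B 0 x =
      permT 𝕂 n (Equiv.swap i i') B (symL 𝕂 n B x) + symL 𝕂 n B x := by
  change Finsupp.linearCombination 𝕂 (fun x : Fin n → Bˣ =>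
      PSwap 𝕂 i i' 1 x + PSwap 𝕂 i i' 1 x) x - Finsupp.linearCombination 𝕂 (fun x : Fin n → Bˣ =>
      PSwap 𝕂 i i' 0 x + PSwap 𝕂 i i' 0 x) x = _
  induction x using Finsupp.induction_linear with
  | zero => simp
  | add a b ha hb =>
    rw [map_add, map_add, map_add, map_add]
    exact add_case_swap (M := To 𝕂 n B) ha hb
  | single x c =>
    rw [Finsupp.linearCombination_single, Finsupp.linearCombination_single, symL_single, map_smul,
      ← smul_add, ← PSwap_sub 𝕂 h, smul_sub]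

/-- Permutation of the factors as a natural transformation. -/
def permSwapNT (𝕂 : Type u) [CommRing 𝕂] (n : ℕ) (σ : Equiv.Perm (Fin n)) :
    NT (TP 𝕂 n) (TP 𝕂 n) where
  app B := permT 𝕂 n σ B
  nat f x := Tmap_permT 𝕂 n σ f x

theorem isBd_iff_swap {𝕂 : Type w} [CommRing 𝕂] (X : SMod.{v} 𝕂) {m : ℕ} (x : X.obj m) :
    X.IsBd x ↔ x ∈ LinearMap.range (X.d m) := Iff.rfl

theorem perm_sub_swap (𝕂 : Type u) [Field 𝕂] [CharZero 𝕂] (n : ℕ) (O : Type u) [CommRing O]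
    (j : ℕ) (s : Plus (W 𝕂 n) (Base O (j + 1))) (hs : (plusS (W 𝕂 n) O).d j s = 0)
    (σ : Equiv.Perm (Fin n)) :
    (plusS (TP 𝕂 n) O).IsBd (m := j + 1)
      ((((Equiv.Perm.sign σ : ℤˣ) : ℤ) : 𝕂) • (permSwapNT 𝕂 n σ).plus _ ((sym 𝕂 n).plus _ s) -
        (sym 𝕂 n).plus _ s) := by
  induction σ using Equiv.Perm.swap_induction_on with
  | one =>
    refine ⟨0, Plus.ext fun p => ?_⟩
    rw [map_zero]
    change (0 : To 𝕂 n p.B) = (((Equiv.Perm.sign (1 : Equiv.Perm (Fin n)) : ℤˣ) : ℤ) : 𝕂) •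
      permT 𝕂 n 1 p.B (symL 𝕂 n p.B (s.1 p)) - symL 𝕂 n p.B (s.1 p)
    simp [permT_one_swap]
  | swap_mul f x y hxy ih =>
    have h1 := (permSwapNT 𝕂 n (Equiv.swap x y)).isBd ih
    have h2 := (swapHT 𝕂 n x y).isBd O j s hs
    rw [isBd_iff_swap] at h1 h2 ⊢
    have h3 := Submodule.neg_mem _ (Submodule.add_mem _ h1 h2)
    convert h3 using 1
    refine Plus.ext fun p => ?_
    have e := swapHT_sub 𝕂 n hxy p.B (s.1 p)
    change (((Equiv.Perm.sign (Equiv.swap x y * f) : ℤˣ) : ℤ) : 𝕂) •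
      permT 𝕂 n (Equiv.swap x y * f) p.B (symL 𝕂 n p.B (s.1 p)) - symL 𝕂 n p.B (s.1 p) =
      -(permT 𝕂 n (Equiv.swap x y) p.B ((((Equiv.Perm.sign f : ℤˣ) : ℤ) : 𝕂) •
        permT 𝕂 n f p.B (symL 𝕂 n p.B (s.1 p)) - symL 𝕂 n p.B (s.1 p)) +
        ((swapHT 𝕂 n x y).app p.B (p.ι 1) (s.1 p) - (swapHT 𝕂 n x y).app p.B (p.ι 0) (s.1 p)))
    rw [map_one, map_zero, e, map_sub, map_smul, permT_mul_swap, map_mul, Equiv.Perm.sign_swap hxy,
      neg_one_mul, Units.val_neg, Int.cast_neg]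
    module

theorem avg_swap (𝕂 : Type u) [Field 𝕂] [CharZero 𝕂] (n : ℕ) {M : Type*} [AddCommGroup M]
    [Module 𝕂 M] (g : Equiv.Perm (Fin n) → M) (y : M) :
    (n.factorial : 𝕂)⁻¹ • ∑ σ, g σ - y = (n.factorial : 𝕂)⁻¹ • ∑ σ, (g σ - y) := by
  rw [Finset.sum_sub_distrib, smul_sub, Finset.sum_const, Finset.card_univ,
    Fintype.card_perm, Fintype.card_fin, ← Nat.cast_smul_eq_nsmul 𝕂, smul_smul,
    inv_mul_cancel₀ (Nat.cast_ne_zero.2 (Nat.factorial_ne_zero n)), one_smul]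

theorem alt_sub (𝕂 : Type u) [Field 𝕂] [CharZero 𝕂] (n : ℕ) (O : Type u) [CommRing O] (j : ℕ)
    (s : Plus (W 𝕂 n) (Base O (j + 1))) (hs : (plusS (W 𝕂 n) O).d j s = 0) :
    (plusS (TP 𝕂 n) O).IsBd (m := j + 1)
      ((alt 𝕂 n).plus _ ((sym 𝕂 n).plus _ s) - (sym 𝕂 n).plus _ s) := by
  have h := fun σ => (isBd_iff_swap _ _).1 (perm_sub_swap 𝕂 n O j s hs σ)
  have h3 := Submodule.smul_mem _ ((n.factorial : 𝕂)⁻¹)
    (Submodule.sum_mem _ (t := Finset.univ) fun σ _ => h σ)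
  rw [isBd_iff_swap]
  convert h3 using 1
  refine Plus.ext fun p => ?_
  rw [Plus.smul_apply, Plus.sum_apply]
  change altL 𝕂 n p.B (symL 𝕂 n p.B (s.1 p)) - symL 𝕂 n p.B (s.1 p) =
    (n.factorial : 𝕂)⁻¹ • ∑ σ : Equiv.Perm (Fin n), ((((Equiv.Perm.sign σ : ℤˣ) : ℤ) : 𝕂) •
      permT 𝕂 n σ p.B (symL 𝕂 n p.B (s.1 p)) - symL 𝕂 n p.B (s.1 p))
  rw [altL_apply]
  exact avg_swap 𝕂 n (M := To 𝕂 n p.B) _ _

end

end Pool.Agent.MP_e2821c_ag.Cy
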