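import Pool.Agent.Lib.MP_e2821c_ag.Cy.PsiB
import Pool.Agent.Lib.MP_e2821c_ag.Cy.NormalForm
import Pool.Agent.Lib.MP_e2821c_ag.Cy.Pencil
import Pool.Agent.Lib.MP_e2821c_ag.Cy.Swap

namespace Pool.Agent.MP_e2821c_ag.Cy

open MvPolynomial
open scoped TensorProduct

universe u v w

noncomputable section

theorem multilinear_mem_altGen {k M N : Type u} [CommSemiring k] [AddCommMonoid M] [Module k M]
    [AddCommMonoid N] [Module k N] {n : ℕ} (f : MultilinearMap k (fun _ : Fin n => M) N)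
    (P : Submodule k N) (A : Fin n → Set M) (h : ∀ v : Fin n → M, (∀ i, v i ∈ A i) → f v ∈ P)
    {v : Fin n → M} (hv : ∀ i, v i ∈ Submodule.span k (A i)) : f v ∈ P := by
  classical
  choose r c x hx using fun i => Submodule.mem_span_set'.1 (hv i)
  have e : v = fun i => ∑ j, c i j • (x i j : M) := funext fun i => (hx i).symm
  rw [e, MultilinearMap.map_sum]
  refine Submodule.sum_mem _ fun t _ => ?_
  rw [MultilinearMap.map_smul_univ]
  exact Submodule.smul_mem _ _ (h _ fun i => (x i (t i)).2)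

open Classical in
theorem tp_mem_altGen {k : Type u} [Field k] [CharZero k] [IsAlgClosed k] {m n s : ℕ}
    {u : Fin n → Uo k (Bm k m)} {χ : Fin n → (Gm k m →* kˣ)} (he : ∀ i, Eig (χ i) (u i))
    (h0 : ∀ i, u i ≠ 0) (hinj : ∀ i i', χ i ≠ 1 → χ i = χ i' → i = i') (hNB : NB s u)
    (hBC : ∀ f : Base k m, ∏ i ∈ Finset.univ.filter (fun i => In (u i) f), χ i = 1) :
    tp k n u ∈ spanGen k n s m := by
  obtain ⟨ys, hs, hys⟩ := hNB
  have hc : ∀ i, χ i ≠ 1 → ¬ IsConst (u i) := fun i h h' =>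
    h ((he i).unique (eig_one_of_isConst h') (h0 i))
  have hc' : ∀ i, χ i = 1 → IsConst (u i) := fun i h => isConst_of_eig_one (h ▸ he i)
  have hy : ∀ i, ∃ f : Base k m, χ i ≠ 1 → f ∈ ys ∧ In (u i) f := fun i => by
    by_cases h : χ i = 1
    · exact ⟨0, fun h' => absurd h h'⟩
    · obtain ⟨f, h1, h2⟩ := (hys i).resolve_left (hc i h)
      exact ⟨f, fun _ => ⟨h1, h2⟩⟩
  choose y hy using hy
  have ync : ∀ i, χ i ≠ 1 → NonConst (y i) := fun i h => by
    by_contra h'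
    exact hc i h (isConst_of_in (hy i h).2 h')
  have yr : ∀ i, χ i ≠ 1 → Dep (y i) (y i) := fun i h => dep_of_in (hc i h) (hy i h).2 (hy i h).2
  obtain ⟨cls, mc⟩ : ∃ cls : Fin n → Finset (Fin n),
      ∀ i j, j ∈ cls i ↔ χ j ≠ 1 ∧ Dep (y i) (y j) :=
    ⟨fun i => Finset.univ.filter fun j => χ j ≠ 1 ∧ Dep (y i) (y j), fun i j => by simp⟩
  obtain ⟨I, mI⟩ : ∃ I : Finset (Fin n), ∀ b, b ∈ I ↔ χ b ≠ 1 ∧ ∀ j ∈ cls b, b ≤ j :=
    ⟨Finset.univ.filter fun b => χ b ≠ 1 ∧ ∀ j ∈ cls b, b ≤ j, fun b => by simp⟩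
  have self : ∀ i, χ i ≠ 1 → i ∈ cls i := fun i h => (mc i i).2 ⟨h, yr i h⟩
  have uniq : ∀ b ∈ I, ∀ b' ∈ I, Dep (y b) (y b') → b = b' := fun b hb b' hb' h =>
    le_antisymm (((mI b).1 hb).2 b' ((mc _ _).2 ⟨((mI b').1 hb').1, h⟩))
      (((mI b').1 hb').2 b ((mc _ _).2 ⟨((mI b).1 hb).1, h.symm⟩))
  have ex : ∀ i, χ i ≠ 1 → ∃ b ∈ I, i ∈ cls b := fun i h => by
    obtain ⟨b, hb, hmin⟩ := Finset.exists_min_image (cls i) id ⟨i, self i h⟩
    obtain ⟨h1, h2⟩ := (mc _ _).1 hb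
    refine ⟨b, (mI b).2 ⟨h1, fun j hj => hmin j ?_⟩, (mc _ _).2 ⟨h, h2.symm⟩⟩
    exact (mc _ _).2 ⟨((mc _ _).1 hj).1, h2.trans ((mc _ _).1 hj).2 (ync b h1)⟩
  have hin : ∀ b : I, ∀ i ∈ cls b, In (u i) (y b) := fun b i hi =>
    in_of_dep (ync b ((mI b).1 b.2).1) ((mc _ _).1 hi).2.symm (hy i ((mc _ _).1 hi).1).2
  have hpr : ∀ b : I, ∏ i ∈ cls b, χ i = 1 := fun b => by
    rw [← hBC (y b)]
    refine Finset.prod_subset (fun i hi => by simpa using hin b i hi) fun i hi hi' => ?_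
    by_contra h
    exact hi' ((mc _ _).2 ⟨h, dep_of_in (hc i h) (by simpa using hi) (hy i h).2⟩)
  have hbl : ∀ b : I, IsBlock (cls b) u := fun b => by
    have h1 := ((mI b).1 b.2).1
    refine ⟨?_, fun i _ => h0 i, χ, fun i _ => he i, fun i hi => ((mc _ _).1 hi).1,
      fun i hi j _ h => hinj i j ((mc _ _).1 hi).1 h, hpr b⟩
    by_contra h2
    have h3 : cls b = {(b : Fin n)} := Finset.eq_singleton_iff_unique_mem.2
      ⟨self b h1, fun j hj => Finset.card_le_one.1 (by omega) j hj b (self b h1)⟩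
    have h4 := hpr b
    rw [h3, Finset.prod_singleton] at h4
    exact h1 h4
  choose w p κ hw hp hκ hl using fun b : I =>
    normal_form (hbl b) (ync b ((mI b).1 b.2).1) (hin b)
  have hyp : ∀ b : I, Dep (y b) (p b) := fun b => by
    have h1 := ((mI b).1 b.2).1
    obtain ⟨c, -, h2⟩ := hl b b (self b h1)
    exact dep_of_in (hc b h1) (hy b h1).2 ⟨κ b, hκ b, c • w b b, by rw [map_smul, h2]⟩
  have hnd : ¬ DegT p := by
    rintro (⟨b, h⟩ | ⟨b, b', h, h'⟩)
    · exact h (hp b)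
    · exact h (Subtype.ext (uniq b b.2 b' b'.2
        (((hyp b).trans h' (hp b)).trans (hyp b').symm (hp b'))))
  have hI : I.card < s := by
    refine lt_of_le_of_lt (Finset.card_le_card_of_injOn y
      (fun b hb => (hy b ((mI b).1 hb).1).1) fun b hb b' hb' h => uniq b hb b' hb' ?_) hs
    rw [← h]
    exact yr b ((mI b).1 hb).1
  refine multilinear_mem_altGen (tp k n (B := Bm k m)) _ (fun i => {z | ∃ x : I ⊕ Bas k,
    (∀ b : I, x = Sum.inl b ↔ i ∈ cls b) ∧ Sum.elim (fun b => Umap k (κ b) (w b i))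
      (fun a => Umap k (cB k m) (bas k a)) x = z}) (fun v hv => ?_) fun i => ?_
  · choose blk h1 h2 using hv
    let δ : Dec k I :=
      { blk := blk
        w := w
        lead := fun b => (h1 b b).2 (self b ((mI b).1 b.2).1)
        min := fun i b h => ((mI b).1 b.2).2 i ((h1 i b).1 h)
        isRep := fun b => by
          have : blockOf blk b = cls b := by
            ext i
            simp [blockOf, h1]
          rw [this]
          exact hw b }
    refine Submodule.subset_span ⟨I, δ, p, hI, hnd, ?_⟩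
    rw [Psi_spec δ p (ac (Base k m)) κ hκ]
    exact congrArg _ (funext fun i => (h2 i).symm)
  · by_cases h : χ i = 1
    · obtain ⟨z, hz⟩ := hc' i h
      have h1 := Submodule.apply_mem_span_image_of_mem_span (Umap k (cB k m)) ((bas k).mem_span z)
      rw [← hz]
      refine Submodule.span_mono ?_ h1
      rintro _ ⟨_, ⟨a, rfl⟩, rfl⟩
      exact ⟨Sum.inr a, fun b => ⟨fun h2 => by simp at h2, fun h2 => absurd h ((mc _ _).1 h2).1⟩,
        rfl⟩
    · obtain ⟨b, hb, hi⟩ := ex i h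
      obtain ⟨c, -, h2⟩ := hl ⟨b, hb⟩ i hi
      rw [h2]
      refine Submodule.smul_mem _ _ (Submodule.subset_span ⟨Sum.inl ⟨b, hb⟩, fun b' => ?_, rfl⟩)
      rw [Sum.inl.injEq]
      refine ⟨fun h3 => h3 ▸ hi, fun h3 => Subtype.ext (uniq b hb b' b'.2 ?_)⟩
      exact ((mc _ _).1 hi).2.trans ((mc _ _).1 h3).2.symm (ync i h)

theorem altL_mem_spanGen {k : Type u} [Field k] [CharZero k] [IsAlgClosed k] {m n s : ℕ}
    {x : To k n (Bm k m)} (hx : x ∈ spanBC k n s m) :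
    altL k n (Bm k m) x ∈ spanGen k n s m := by
  classical
  induction hx using Submodule.span_induction with
  | zero => simp
  | add x y _ _ hx hy => rw [map_add]; exact Submodule.add_mem _ hx hy
  | smul c x _ hx => rw [map_smul]; exact Submodule.smul_mem _ _ hx
  | mem x hx =>
    obtain ⟨u, he, hNB, hBC, rfl⟩ := hx
    choose χ he using he
    by_cases h0 : ∀ i, u i ≠ 0
    swap
    · obtain ⟨i, hi⟩ := not_forall.1 h0
      rw [(tp k n).map_coord_zero i (not_not.1 hi), map_zero]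
      exact Submodule.zero_mem _
    by_cases hinj : ∀ i i', χ i ≠ 1 → χ i = χ i' → i = i'
    swap
    · push Not at hinj
      obtain ⟨i, i', h1, h2, h3⟩ := hinj
      obtain ⟨c, hc⟩ := mult_one h1 (h2 ▸ he i') (he i) (h0 i')
      rw [altL_tp_eq_zero k n u h3 c hc]
      exact Submodule.zero_mem _
    rw [altL_apply]
    refine Submodule.smul_mem _ _ (Submodule.sum_mem _ fun σ _ => Submodule.smul_mem _ _ ?_)
    rw [permT_tp]
    obtain ⟨ys, h1, h2⟩ := hNB
    refine tp_mem_altGen (χ := fun i => χ (σ.symm i)) (fun i => he _) (fun i => h0 _)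
      (fun i i' h3 h4 => σ.symm.injective (hinj _ _ h3 h4)) ⟨ys, h1, fun i => h2 _⟩ fun f => ?_
    rw [← hBC χ he h0 f]
    exact Finset.prod_equiv σ.symm (by simp) fun _ _ => rfl

end

end Pool.Agent.MP_e2821c_ag.Cy
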