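import Pool.Agent.Lib.MP_e2821c_ag.Defs

/-!
# Cyclic and abelian covers of the simplex
-/

namespace Pool.Agent.MP_e2821c_ag

universe u

noncomputable section

variable (F : Type u) [Field F] (n j : ℕ)

/-- The function field `F̄(t_1, …, t_j)` of the simplex over the algebraic closure of `F`. -/
abbrev GeomField : Type u := FractionRing (Base (AlgebraicClosure F) j)

/-- The coordinate ring of `V(P)` embeds over `F[t_1, …, t_j]` into the extension `L` of
`F̄(t_1, …, t_j)`. -/
def CoverIn (P : Elem F n j)
    (L : IntermediateField (GeomField F j) (AlgebraicClosure (GeomField F j))) : Prop :=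
  ∃ e : Amb F n j →+* L, RingHom.ker e = P.1 ∧ ∀ r : Base F j,
    e (proj F n j r) = algebraMap (GeomField F j) L (algebraMap (Base (AlgebraicClosure F) j) _
      (MvPolynomial.map (algebraMap F (AlgebraicClosure F)) r))

/-- `V(P) → Δ^j` has cyclic geometric monodromy. -/
def CyclicCover (P : Elem F n j) : Prop :=
  ∃ L : IntermediateField (GeomField F j) (AlgebraicClosure (GeomField F j)),
    FiniteDimensional (GeomField F j) L ∧ IsGalois (GeomField F j) L ∧
      IsCyclic (L ≃ₐ[GeomField F j] L) ∧ CoverIn F n j P L

/-- `V(P) → Δ^j` has abelian geometric monodromy. -/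
def AbelianCover (P : Elem F n j) : Prop :=
  ∃ L : IntermediateField (GeomField F j) (AlgebraicClosure (GeomField F j)),
    FiniteDimensional (GeomField F j) L ∧ IsAbelianGalois (GeomField F j) L ∧ CoverIn F n j P L

end

end Pool.Agent.MP_e2821c_ag
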