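import Pool.Agent.Lib.MP_e2821c_ag.Simplex
import Pool.Agent.Lib.MP_e2821c_ag.Structure
import Pool.Agent.Lib.MP_e2821c_ag.Cy.Defs

/-!
# The Kan model: functors on rings, natural families over absolutely integrally closed domains
-/

namespace Pool.Agent.MP_e2821c_ag.Cy

open MvPolynomial
open scoped TensorProduct

universe u v w

noncomputable section

/-- Absolutely integrally closed domains. -/
class IsAic (B : Type u) [CommRing B] : Prop extends IsDomain B where
  exists_root : ∀ p : Polynomial B, p.Monic → 0 < p.natDegree → ∃ x, p.IsRoot x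

/-- Functors from commutative rings to `𝕂`-modules. -/
structure RFun (𝕂 : Type w) [CommRing 𝕂] where
  obj : ∀ (R : Type u) [CommRing R], Type u
  [acg : ∀ (R : Type u) [CommRing R], AddCommGroup (obj R)]
  [mod : ∀ (R : Type u) [CommRing R], Module 𝕂 (obj R)]
  map : ∀ {R R' : Type u} [CommRing R] [CommRing R'], (R →+* R') → obj R →ₗ[𝕂] obj R'
  map_id : ∀ (R : Type u) [CommRing R] (x : obj R), map (RingHom.id R) x = x
  map_comp : ∀ {R R' R'' : Type u} [CommRing R] [CommRing R'] [CommRing R'']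
    (f : R →+* R') (g : R' →+* R'') (x : obj R), map (g.comp f) x = map g (map f x)

attribute [instance] RFun.acg RFun.mod

/-- A point of `R` with values in an absolutely integrally closed domain. -/
structure Pt (R : Type u) [CommRing R] : Type (u + 1) where
  B : Type u
  [cr : CommRing B]
  [aic : IsAic B]
  ι : R →+* B

attribute [instance] Pt.cr Pt.aic

/-- The point given by an algebra. -/
abbrev Pt.of (R B : Type u) [CommRing R] [CommRing B] [IsAic B] [Algebra R B] : Pt R :=
  ⟨B, algebraMap R B⟩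

/-- Restriction of a point along a ring map. -/
abbrev Pt.comap {R R' : Type u} [CommRing R] [CommRing R'] (φ : R →+* R') (p : Pt R') : Pt R :=
  ⟨p.B, p.ι.comp φ⟩

section Fun

variable {𝕂 : Type w} [CommRing 𝕂]

/-- Every element depends on finitely many ring elements. -/
def RFun.Finitary (H : RFun.{u} 𝕂) : Prop :=
  ∀ (R : Type u) [CommRing R] (x : H.obj R), ∃ E : Finset R,
    ∀ (R' : Type u) [CommRing R'] (f g : R →+* R'), (∀ e ∈ E, f e = g e) → H.map f x = H.map g x

/-- Natural families over the points of `R`. -/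
def PlusSub (H : RFun.{u} 𝕂) (R : Type u) [CommRing R] : Submodule 𝕂 (∀ p : Pt R, H.obj p.B) where
  carrier := {s | ∀ (p q : Pt R) (f : p.B →+* q.B), f.comp p.ι = q.ι → H.map f (s p) = s q}
  add_mem' := fun {a b} ha hb p q f h => by
    rw [Pi.add_apply, Pi.add_apply, map_add, ha p q f h, hb p q f h]
  zero_mem' := fun p q f _ => by rw [Pi.zero_apply, Pi.zero_apply, map_zero]
  smul_mem' := fun c a ha p q f h => by
    rw [Pi.smul_apply, Pi.smul_apply, map_smul, ha p q f h]

/-- The module of natural families over the points of `R`. -/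
@[implicit_reducible]
def Plus (H : RFun.{u} 𝕂) (R : Type u) [CommRing R] : Type (u + 1) := PlusSub H R

instance (H : RFun.{u} 𝕂) (R : Type u) [CommRing R] : AddCommGroup (Plus H R) :=
  Submodule.addCommGroup (PlusSub H R)

instance (H : RFun.{u} 𝕂) (R : Type u) [CommRing R] : Module 𝕂 (Plus H R) :=
  Submodule.module (PlusSub H R)

section Apply

variable {H : RFun.{u} 𝕂} {R : Type u} [CommRing R]

theorem Plus.ext {s s' : Plus H R} (h : ∀ p, s.1 p = s'.1 p) : s = s' := Subtype.ext (funext h)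

/-- Evaluation at a point. -/
def Plus.at (p : Pt R) : Plus H R →ₗ[𝕂] H.obj p.B where
  toFun s := s.1 p
  map_add' _ _ := rfl
  map_smul' _ _ := rfl

theorem Plus.at_apply (p : Pt R) (s : Plus H R) : Plus.at p s = s.1 p := rfl

@[simp] theorem Plus.zero_apply (p : Pt R) : (0 : Plus H R).1 p = 0 := rfl

@[simp] theorem Plus.add_apply (s s' : Plus H R) (p : Pt R) : (s + s').1 p = s.1 p + s'.1 p := rfl

@[simp] theorem Plus.sub_apply (s s' : Plus H R) (p : Pt R) : (s - s').1 p = s.1 p - s'.1 p := rfl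

@[simp] theorem Plus.neg_apply (s : Plus H R) (p : Pt R) : (-s).1 p = -s.1 p := rfl

@[simp] theorem Plus.smul_apply (c : 𝕂) (s : Plus H R) (p : Pt R) : (c • s).1 p = c • s.1 p := rfl

@[simp] theorem Plus.sum_apply {ι : Type*} (t : Finset ι) (s : ι → Plus H R) (p : Pt R) :
    (∑ i ∈ t, s i).1 p = ∑ i ∈ t, (s i).1 p := map_sum (Plus.at p) s t

end Apply

theorem Plus.nat {H : RFun.{u} 𝕂} {R : Type u} [CommRing R] (s : Plus H R) (p q : Pt R)
    (f : p.B →+* q.B) (h : f.comp p.ι = q.ι) : H.map f (s.1 p) = s.1 q := s.2 p q f h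

/-- Functoriality of `Plus` in the ring. -/
def plusMap (H : RFun.{u} 𝕂) {R R' : Type u} [CommRing R] [CommRing R'] (φ : R →+* R') :
    Plus H R →ₗ[𝕂] Plus H R' where
  toFun s := ⟨fun p => s.1 (p.comap φ), fun p q f h =>
    s.2 (p.comap φ) (q.comap φ) f (by rw [← RingHom.comp_assoc, h])⟩
  map_add' _ _ := rfl
  map_smul' _ _ := rfl

@[simp] theorem plusMap_apply (H : RFun.{u} 𝕂) {R R' : Type u} [CommRing R] [CommRing R']
    (φ : R →+* R') (s : Plus H R) (p : Pt R') : (plusMap H φ s).1 p = s.1 (p.comap φ) := rfl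

theorem plusMap_id (H : RFun.{u} 𝕂) (R : Type u) [CommRing R] (s : Plus H R) :
    plusMap H (RingHom.id R) s = s := rfl

theorem plusMap_comp (H : RFun.{u} 𝕂) {R R' R'' : Type u} [CommRing R] [CommRing R']
    [CommRing R''] (φ : R →+* R') (ψ : R' →+* R'') (s : Plus H R) :
    plusMap H (ψ.comp φ) s = plusMap H ψ (plusMap H φ s) := rfl

/-- Natural transformations defined on absolutely integrally closed domains. -/
structure NT (H H' : RFun.{u} 𝕂) where
  app : ∀ (B : Type u) [CommRing B] [IsAic B], H.obj B →ₗ[𝕂] H'.obj B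
  nat : ∀ {B B' : Type u} [CommRing B] [IsAic B] [CommRing B'] [IsAic B'] (f : B →+* B')
    (x : H.obj B), H'.map f (app B x) = app B' (H.map f x)

/-- The map induced on natural families. -/
def NT.plus {H H' : RFun.{u} 𝕂} (φ : NT H H') (R : Type u) [CommRing R] :
    Plus H R →ₗ[𝕂] Plus H' R where
  toFun s := ⟨fun p => φ.app p.B (s.1 p), fun p q f h => by rw [φ.nat, s.2 p q f h]⟩
  map_add' a b := Subtype.ext (funext fun p => map_add (φ.app p.B) _ _)
  map_smul' c a := Subtype.ext (funext fun p => map_smul (φ.app p.B) _ _)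

@[simp] theorem NT.plus_apply {H H' : RFun.{u} 𝕂} (φ : NT H H') (R : Type u) [CommRing R]
    (s : Plus H R) (p : Pt R) : (φ.plus R s).1 p = φ.app p.B (s.1 p) := rfl

theorem NT.plus_plusMap {H H' : RFun.{u} 𝕂} (φ : NT H H') {R R' : Type u} [CommRing R]
    [CommRing R'] (ψ : R →+* R') (s : Plus H R) :
    φ.plus R' (plusMap H ψ s) = plusMap H' ψ (φ.plus R s) := rfl

/-- Natural homotopies. -/
structure HT (H H' : RFun.{u} 𝕂) where
  app : ∀ (B : Type u) [CommRing B] [IsAic B], B → H.obj B →ₗ[𝕂] H'.obj B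
  nat : ∀ {B B' : Type u} [CommRing B] [IsAic B] [CommRing B'] [IsAic B'] (f : B →+* B')
    (σ : B) (x : H.obj B), H'.map f (app B σ x) = app B' (f σ) (H.map f x)

/-- The map induced on natural families by a homotopy at the parameter `σ`. -/
def HT.plus {H H' : RFun.{u} 𝕂} (φ : HT H H') (R : Type u) [CommRing R] (σ : R) :
    Plus H R →ₗ[𝕂] Plus H' R where
  toFun s := ⟨fun p => φ.app p.B (p.ι σ) (s.1 p), fun p q f h => by
    rw [φ.nat, s.2 p q f h, show f (p.ι σ) = q.ι σ from DFunLike.congr_fun h σ]⟩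
  map_add' a b := Subtype.ext (funext fun p => map_add (φ.app p.B _) _ _)
  map_smul' c a := Subtype.ext (funext fun p => map_smul (φ.app p.B _) _ _)

@[simp] theorem HT.plus_apply {H H' : RFun.{u} 𝕂} (φ : HT H H') (R : Type u) [CommRing R] (σ : R)
    (s : Plus H R) (p : Pt R) : (φ.plus R σ s).1 p = φ.app p.B (p.ι σ) (s.1 p) := rfl

theorem HT.plus_plusMap {H H' : RFun.{u} 𝕂} (φ : HT H H') {R R' : Type u} [CommRing R]
    [CommRing R'] (ψ : R →+* R') (σ : R) (s : Plus H R) :
    φ.plus R' (ψ σ) (plusMap H ψ s) = plusMap H' ψ (φ.plus R σ s) := rfl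

end Fun

/-! ### Simplicial modules -/

/-- Contravariant functors on the nonempty finite ordinals with all maps. -/
structure SMod (𝕂 : Type w) [CommRing 𝕂] where
  obj : ℕ → Type v
  [acg : ∀ m, AddCommGroup (obj m)]
  [mod : ∀ m, Module 𝕂 (obj m)]
  act : ∀ {a b : ℕ}, (Fin (a + 1) → Fin (b + 1)) → obj b →ₗ[𝕂] obj a
  act_id : ∀ (m : ℕ) (x : obj m), act id x = x
  act_comp : ∀ {a b c : ℕ} (f : Fin (a + 1) → Fin (b + 1)) (g : Fin (b + 1) → Fin (c + 1))
    (x : obj c), act (g ∘ f) x = act f (act g x)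

attribute [instance] SMod.acg SMod.mod

section SMod

variable {𝕂 : Type w} [CommRing 𝕂]

/-- The alternating sum of the faces. -/
def SMod.d (X : SMod.{v} 𝕂) (m : ℕ) : X.obj (m + 1) →ₗ[𝕂] X.obj m :=
  ∑ i : Fin (m + 2), ((-1 : 𝕂) ^ (i : ℕ)) • X.act i.succAbove

theorem SMod.d_apply (X : SMod.{v} 𝕂) (m : ℕ) (x : X.obj (m + 1)) :
    X.d m x = ∑ i : Fin (m + 2), ((-1 : 𝕂) ^ (i : ℕ)) • X.act i.succAbove x := by
  simp only [SMod.d, LinearMap.sum_apply, LinearMap.smul_apply]

/-- Boundaries. -/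
def SMod.IsBd (X : SMod.{v} 𝕂) {m : ℕ} (x : X.obj m) : Prop := ∃ y : X.obj (m + 1), X.d m y = x

end SMod

/-- The map of simplices attached to a map of vertex sets, on coordinate rings. -/
def sm (O : Type u) [CommRing O] {a b : ℕ} (f : Fin (a + 1) → Fin (b + 1)) :
    Base O b →ₐ[O] Base O a :=
  aeval fun k : Fin b => ∑ i ∈ Finset.univ.filter (fun i => f i = k.succ), bary O a i

theorem sm_bary (O : Type u) [CommRing O] {a b : ℕ} (f : Fin (a + 1) → Fin (b + 1))
    (k : Fin (b + 1)) :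
    sm O f (bary O b k) = ∑ i ∈ Finset.univ.filter (fun i => f i = k), bary O a i := by
  refine Fin.cases ?_ (fun k => ?_) k
  · have h := Finset.sum_fiberwise (Finset.univ : Finset (Fin (a + 1))) f (bary O a)
    rw [sum_bary, Fin.sum_univ_succ] at h
    have h0 : bary O b 0 = 1 - ∑ k, X k := by simp [bary]
    rw [h0]
    simp only [map_sub, map_one, map_sum, sm, aeval_X]
    exact (eq_sub_of_add_eq h).symm
  · simp [bary, sm]

theorem base_algHom_ext (O : Type u) [CommRing O] {b : ℕ} {S : Type*} [CommRing S] [Algebra O S]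
    {φ ψ : Base O b →ₐ[O] S} (h : ∀ k, φ (bary O b k) = ψ (bary O b k)) : φ = ψ :=
  MvPolynomial.algHom_ext fun k => by simpa [bary] using h k.succ

theorem sm_id (O : Type u) [CommRing O] (a : ℕ) :
    sm O (id : Fin (a + 1) → Fin (a + 1)) = AlgHom.id O _ :=
  base_algHom_ext O fun k => by
    rw [sm_bary]; simp [Finset.filter_eq']

theorem sm_comp (O : Type u) [CommRing O] {a b c : ℕ} (f : Fin (a + 1) → Fin (b + 1))
    (g : Fin (b + 1) → Fin (c + 1)) : sm O (g ∘ f) = (sm O f).comp (sm O g) :=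
  base_algHom_ext O fun k => by
    rw [AlgHom.comp_apply, sm_bary, sm_bary, map_sum]
    simp only [sm_bary]
    rw [← Finset.sum_fiberwise_of_maps_to (s := Finset.univ.filter fun i => (g ∘ f) i = k)
      (t := Finset.univ.filter fun i => g i = k) (g := f) (by simp)]
    refine Finset.sum_congr rfl fun i hi => Finset.sum_congr ?_ fun _ _ => rfl
    ext x
    simp only [Finset.mem_filter, Finset.mem_univ, true_and, Function.comp] at hi ⊢
    exact ⟨fun h => h.2, fun h => ⟨h ▸ hi, h⟩⟩

theorem face_eq_sm (O : Type u) [CommRing O] (j : ℕ) (i : Fin (j + 2)) :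
    face O j i = sm O i.succAbove :=
  base_algHom_ext O fun k => by
    rw [face_bary, sm_bary]
    rcases eq_or_ne k i with h | h
    · subst h
      rw [Fin.insertNth_apply_same, Finset.filter_false_of_mem (by simp), Finset.sum_empty]
    · obtain ⟨m, rfl⟩ := Fin.exists_succAbove_eq h
      simp [Finset.filter_eq']

theorem map_sm {O O' : Type u} [CommRing O] [CommRing O'] (φ : O →+* O') {a b : ℕ}
    (f : Fin (a + 1) → Fin (b + 1)) (p : Base O b) :
    MvPolynomial.map φ (sm O f p) = sm O' f (MvPolynomial.map φ p) := by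
  induction p using MvPolynomial.induction_on with
  | C c => simp [sm]
  | add p q hp hq => simp [hp, hq]
  | mul_X p k hp => simp only [map_mul, hp, map_X]; simp [sm, map_bary]

/-- The ring map underlying `sm`. -/
def smR (O : Type u) [CommRing O] {a b : ℕ} (f : Fin (a + 1) → Fin (b + 1)) :
    Base O b →+* Base O a := (sm O f).toRingHom

@[simp] theorem smR_apply (O : Type u) [CommRing O] {a b : ℕ} (f : Fin (a + 1) → Fin (b + 1))
    (p : Base O b) : smR O f p = sm O f p := rfl

theorem smR_id (O : Type u) [CommRing O] (a : ℕ) :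
    smR O (id : Fin (a + 1) → Fin (a + 1)) = RingHom.id _ :=
  RingHom.ext fun p => by rw [smR_apply, sm_id]; rfl

theorem smR_comp (O : Type u) [CommRing O] {a b c : ℕ} (f : Fin (a + 1) → Fin (b + 1))
    (g : Fin (b + 1) → Fin (c + 1)) : smR O (g ∘ f) = (smR O f).comp (smR O g) :=
  RingHom.ext fun p => by rw [smR_apply, sm_comp]; rfl

section Simplicial

variable {𝕂 : Type w} [CommRing 𝕂]

/-- The simplicial module of natural families over the simplices. -/
abbrev plusS (H : RFun.{u} 𝕂) (O : Type u) [CommRing O] : SMod.{u + 1} 𝕂 where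
  obj m := Plus H (Base O m)
  act f := plusMap H (smR O f)
  act_id m x := by rw [smR_id]; rfl
  act_comp f g x := by rw [smR_comp]; rfl

/-- The simplicial module of values on the simplices. -/
abbrev ringS (H : RFun.{u} 𝕂) (O : Type u) [CommRing O] : SMod.{u} 𝕂 where
  obj m := H.obj (Base O m)
  act f := H.map (smR O f)
  act_id m x := by rw [smR_id]; exact H.map_id _ x
  act_comp f g x := by rw [smR_comp]; exact H.map_comp _ _ x

theorem NT.plus_d {H H' : RFun.{u} 𝕂} (φ : NT H H') (O : Type u) [CommRing O] (m : ℕ)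
    (s : Plus H (Base O (m + 1))) :
    φ.plus _ ((plusS H O).d m s) = (plusS H' O).d m (φ.plus _ s) := by
  rw [SMod.d_apply, SMod.d_apply, map_sum]
  simp only [map_smul]
  rfl

theorem NT.isBd {H H' : RFun.{u} 𝕂} (φ : NT H H') {O : Type u} [CommRing O] {m : ℕ}
    {s : Plus H (Base O m)} (h : (plusS H O).IsBd s) : (plusS H' O).IsBd (φ.plus _ s) := by
  obtain ⟨y, rfl⟩ := h
  exact ⟨φ.plus _ y, (φ.plus_d O m y).symm⟩

end Simplicial

/-! ### The absolute integral closure -/

/-- The algebraic closure of the fraction field. -/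
abbrev Om (R : Type u) [CommRing R] [IsDomain R] : Type u := AlgebraicClosure (FractionRing R)

/-- The absolute integral closure of a domain. -/
abbrev AC (R : Type u) [CommRing R] [IsDomain R] : Type u := integralClosure R (Om R)

instance (R : Type u) [CommRing R] [IsDomain R] : IsAic (AC R) where
  exists_root p hp hd := by
    obtain ⟨x, hx⟩ := IsAlgClosed.exists_root (p.map (algebraMap (AC R) (Om R))) (by
      rw [hp.degree_map]
      exact (Polynomial.natDegree_pos_iff_degree_pos.1 hd).ne')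
    have hx' : Polynomial.eval₂ (algebraMap (AC R) (Om R)) x p = 0 := by
      rwa [Polynomial.IsRoot, Polynomial.eval_map] at hx
    have hi : IsIntegral R x := isIntegral_trans (A := AC R) x ⟨p, hp, hx'⟩
    refine ⟨⟨x, hi⟩, Subtype.val_injective ?_⟩
    exact (Polynomial.eval₂_at_apply (p := p) (algebraMap (AC R) (Om R)) ⟨x, hi⟩).symm.trans hx'

instance (R : Type u) [CommRing R] [IsDomain R] : FaithfulSMul R (AC R) :=
  (faithfulSMul_iff_algebraMap_injective _ _).2 fun a b h => by
    have h' : algebraMap R (Om R) a = algebraMap R (Om R) b := congrArg Subtype.val h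
    rw [IsScalarTower.algebraMap_apply R (FractionRing R) (Om R),
      IsScalarTower.algebraMap_apply R (FractionRing R) (Om R)] at h'
    exact IsFractionRing.injective R (FractionRing R) ((algebraMap _ (Om R)).injective h')

/-- The generic point of a domain. -/
abbrev ac (R : Type u) [CommRing R] [IsDomain R] : Pt R := Pt.of R (AC R)

/-! ### The functors of points of the torus and of symbols -/

section Functors

variable (𝕂 : Type u) [CommRing 𝕂] (n : ℕ)

/-- The free module on the points of the torus. -/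
abbrev Wo (B : Type u) [CommRing B] : Type u := (Fin n → Bˣ) →₀ 𝕂

/-- Units tensored with the coefficients. -/
abbrev Uo (B : Type u) [CommRing B] : Type u := 𝕂 ⊗[ℤ] Additive Bˣ

/-- Tensor powers of `Uo`. -/
abbrev To (B : Type u) [CommRing B] : Type u := PiTensorProduct 𝕂 fun _ : Fin n => Uo 𝕂 B

section Maps

variable {B B' B'' : Type u} [CommRing B] [CommRing B'] [CommRing B'']

/-- The image of a unit. -/
def umap (f : B →+* B') : Bˣ →* B'ˣ := Units.map (f : B →* B')

@[simp] theorem coe_umap (f : B →+* B') (x : Bˣ) : (umap f x : B') = f x := rfl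

theorem umap_id (x : Bˣ) : umap (RingHom.id B) x = x := rfl

theorem umap_comp (f : B →+* B') (g : B' →+* B'') (x : Bˣ) :
    umap (g.comp f) x = umap g (umap f x) := rfl

/-- Functoriality of `Wo`. -/
def Wmap (f : B →+* B') : Wo 𝕂 n B →ₗ[𝕂] Wo 𝕂 n B' :=
  Finsupp.lmapDomain 𝕂 𝕂 fun (x : Fin n → Bˣ) (i : Fin n) => umap f (x i)

@[simp] theorem Wmap_single (f : B →+* B') (x : Fin n → Bˣ) (c : 𝕂) :
    Wmap 𝕂 n f (Finsupp.single x c) = Finsupp.single (fun i => umap f (x i)) c := by
  simp [Wmap]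

/-- Functoriality of `Uo`. -/
def Umap (f : B →+* B') : Uo 𝕂 B →ₗ[𝕂] Uo 𝕂 B' :=
  LinearMap.baseChange 𝕂 (MonoidHom.toAdditive (umap f)).toIntLinearMap

@[simp] theorem Umap_tmul (f : B →+* B') (c : 𝕂) (x : Additive Bˣ) :
    Umap 𝕂 f (c ⊗ₜ[ℤ] x) = c ⊗ₜ[ℤ] Additive.ofMul (umap f x.toMul) := rfl

theorem Umap_id (x : Uo 𝕂 B) : Umap 𝕂 (RingHom.id B) x = x := by
  induction x using TensorProduct.induction_on with
  | zero => simp
  | tmul a b => rfl
  | add a b ha hb => rw [map_add, ha, hb]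

theorem Umap_comp (f : B →+* B') (g : B' →+* B'') (x : Uo 𝕂 B) :
    Umap 𝕂 (g.comp f) x = Umap 𝕂 g (Umap 𝕂 f x) := by
  induction x using TensorProduct.induction_on with
  | zero => simp
  | tmul a b => rfl
  | add a b ha hb => rw [map_add, map_add, map_add, ha, hb]

/-- The class of a unit. -/
def ulog (x : Bˣ) : Uo 𝕂 B := (1 : 𝕂) ⊗ₜ[ℤ] Additive.ofMul x

@[simp] theorem Umap_ulog (f : B →+* B') (x : Bˣ) :
    Umap 𝕂 f (ulog 𝕂 x) = ulog 𝕂 (umap f x) := rfl

theorem ulog_mul (x y : Bˣ) : ulog 𝕂 (x * y) = ulog 𝕂 x + ulog 𝕂 y := by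
  simp only [ulog, ofMul_mul, TensorProduct.tmul_add]

theorem ulog_one : ulog 𝕂 (1 : Bˣ) = 0 := by
  simp only [ulog, ofMul_one, TensorProduct.tmul_zero]

/-- The pure tensor of a tuple. -/
def tp : MultilinearMap 𝕂 (fun _ : Fin n => Uo 𝕂 B) (To 𝕂 n B) := PiTensorProduct.tprod 𝕂

theorem tp_eq (v : Fin n → Uo 𝕂 B) : tp 𝕂 n v = PiTensorProduct.tprod 𝕂 v := rfl

/-- Functoriality of `To`. -/
def Tmap (f : B →+* B') : To 𝕂 n B →ₗ[𝕂] To 𝕂 n B' := PiTensorProduct.map fun _ => Umap 𝕂 f

@[simp] theorem Tmap_tp (f : B →+* B') (v : Fin n → Uo 𝕂 B) :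
    Tmap 𝕂 n f (tp 𝕂 n v) = tp 𝕂 n fun i => Umap 𝕂 f (v i) :=
  PiTensorProduct.map_tprod _ _

theorem To.induction_on {P : To 𝕂 n B → Prop} (x : To 𝕂 n B)
    (h1 : ∀ (c : 𝕂) (v : Fin n → Uo 𝕂 B), P (c • tp 𝕂 n v))
    (h2 : ∀ x y, P x → P y → P (x + y)) : P x :=
  PiTensorProduct.induction_on x h1 h2

/-- Permutation of the tensor factors. -/
def permT (σ : Equiv.Perm (Fin n)) (B : Type u) [CommRing B] : To 𝕂 n B →ₗ[𝕂] To 𝕂 n B :=
  PiTensorProduct.lift (MultilinearMap.domDomCongr σ.symm (PiTensorProduct.tprod 𝕂))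

@[simp] theorem permT_tp (σ : Equiv.Perm (Fin n)) (v : Fin n → Uo 𝕂 B) :
    permT 𝕂 n σ B (tp 𝕂 n v) = tp 𝕂 n fun i => v (σ.symm i) := by
  simp [permT, tp]

theorem Tmap_permT (σ : Equiv.Perm (Fin n)) (f : B →+* B') (x : To 𝕂 n B) :
    Tmap 𝕂 n f (permT 𝕂 n σ B x) = permT 𝕂 n σ B' (Tmap 𝕂 n f x) := by
  induction x using To.induction_on with
  | h1 c v => simp only [map_smul, permT_tp, Tmap_tp]
  | h2 a b ha hb => rw [map_add, map_add, map_add, map_add, ha, hb]

end Maps

/-- The free module on the points of the torus, as a functor. -/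
abbrev W : RFun.{u} 𝕂 where
  obj B := Wo 𝕂 n B
  map f := Wmap 𝕂 n f
  map_id _ _ x := by
    induction x using Finsupp.induction_linear with
    | zero => simp
    | add a b ha hb => rw [map_add, ha, hb]
    | single x c => rw [Wmap_single]; rfl
  map_comp f g x := by
    induction x using Finsupp.induction_linear with
    | zero => simp
    | add a b ha hb => rw [map_add, map_add, map_add, ha, hb]
    | single x c => rw [Wmap_single, Wmap_single, Wmap_single]; rfl

/-- Units tensored with the coefficients, as a functor. -/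
abbrev U : RFun.{u} 𝕂 where
  obj B := Uo 𝕂 B
  map f := Umap 𝕂 f
  map_id _ _ x := Umap_id 𝕂 x
  map_comp f g x := Umap_comp 𝕂 f g x

theorem Tmap_id {B : Type u} [CommRing B] (x : To 𝕂 n B) : Tmap 𝕂 n (RingHom.id B) x = x := by
  induction x using To.induction_on with
  | h1 c v => simp only [map_smul, Tmap_tp, Umap_id]
  | h2 a b ha hb => rw [map_add, ha, hb]

theorem Tmap_comp {B B' B'' : Type u} [CommRing B] [CommRing B'] [CommRing B''] (f : B →+* B')
    (g : B' →+* B'') (x : To 𝕂 n B) : Tmap 𝕂 n (g.comp f) x = Tmap 𝕂 n g (Tmap 𝕂 n f x) := by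
  induction x using To.induction_on with
  | h1 c v => simp only [map_smul, Tmap_tp, Umap_comp]
  | h2 a b ha hb => rw [map_add, map_add, map_add, ha, hb]

/-- Tensor powers of `U`, as a functor. -/
abbrev TP : RFun.{u} 𝕂 where
  obj B := To 𝕂 n B
  map f := Tmap 𝕂 n f
  map_id _ _ x := Tmap_id 𝕂 n x
  map_comp f g x := Tmap_comp 𝕂 n f g x

/-- The symbol of a point of the torus. -/
def symL (B : Type u) [CommRing B] : Wo 𝕂 n B →ₗ[𝕂] To 𝕂 n B :=
  Finsupp.linearCombination 𝕂 fun x => tp 𝕂 n fun i => ulog 𝕂 (x i)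

@[simp] theorem symL_single {B : Type u} [CommRing B] (x : Fin n → Bˣ) (c : 𝕂) :
    symL 𝕂 n B (Finsupp.single x c) = c • tp 𝕂 n fun i => ulog 𝕂 (x i) :=
  Finsupp.linearCombination_single _ _ _

/-- The symbol as a natural transformation. -/
def sym : NT (W 𝕂 n) (TP 𝕂 n) where
  app B := symL 𝕂 n B
  nat f x := by
    change Tmap 𝕂 n f (symL 𝕂 n _ x) = symL 𝕂 n _ (Wmap 𝕂 n f x)
    induction x using Finsupp.induction_linear with
    | zero => simp
    | add a b ha hb => rw [map_add, map_add, map_add, map_add, ha, hb]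
    | single x c => simp

theorem sym_app (B : Type u) [CommRing B] [IsAic B] : (sym 𝕂 n).app B = symL 𝕂 n B := rfl

/-- The degenerate points of the torus. -/
def degW (B : Type u) [CommRing B] : Submodule 𝕂 (Wo 𝕂 n B) :=
  Finsupp.supported 𝕂 𝕂 {x : Fin n → Bˣ | ∃ i, x i = 1}

end Functors

section Alt

variable (𝕂 : Type u) [Field 𝕂] (n : ℕ)

/-- The antisymmetriser. -/
def altL (B : Type u) [CommRing B] : To 𝕂 n B →ₗ[𝕂] To 𝕂 n B :=
  ((n.factorial : 𝕂)⁻¹) •
    ∑ σ : Equiv.Perm (Fin n), (((Equiv.Perm.sign σ : ℤˣ) : ℤ) : 𝕂) • permT 𝕂 n σ B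

theorem altL_apply {B : Type u} [CommRing B] (x : To 𝕂 n B) :
    altL 𝕂 n B x = ((n.factorial : 𝕂)⁻¹) •
      ∑ σ : Equiv.Perm (Fin n), (((Equiv.Perm.sign σ : ℤˣ) : ℤ) : 𝕂) • permT 𝕂 n σ B x := by
  simp only [altL, LinearMap.smul_apply, LinearMap.sum_apply]

/-- The antisymmetriser as a natural transformation. -/
def alt : NT (TP 𝕂 n) (TP 𝕂 n) where
  app B := altL 𝕂 n B
  nat f x := by
    change Tmap 𝕂 n f (altL 𝕂 n _ x) = altL 𝕂 n _ (Tmap 𝕂 n f x)
    simp only [altL_apply, map_smul, map_sum, Tmap_permT]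

theorem alt_app (B : Type u) [CommRing B] [IsAic B] : (alt 𝕂 n).app B = altL 𝕂 n B := rfl

end Alt

end

end Pool.Agent.MP_e2821c_ag.Cy
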