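import Pool.Agent.Lib.MP_e2821c_ag.Cy.Core
import Pool.Agent.Lib.MP_e2821c_ag.Mult

/-!
# Definitions for the comparison, the symbol theorem and the structure theory
-/

namespace Pool.Agent.MP_e2821c_ag.Cy

open MvPolynomial
open scoped TensorProduct

universe u v w

noncomputable section

/-! ### Comparison with the Suslin complex -/

section Comparison

variable (F : Type u) [Field F] (𝕂 : Type u) [Field 𝕂] (n m : ℕ)

/-- The coordinate `x_i` of the torus as a unit. -/
def xT (i : Fin n) : (Torus F n)ˣ where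
  val := AddMonoidAlgebra.single (Pi.single i 1) 1
  inv := AddMonoidAlgebra.single (-Pi.single i 1) 1
  val_inv := by rw [AddMonoidAlgebra.single_mul_single, add_neg_cancel, one_mul]; rfl
  inv_val := by rw [AddMonoidAlgebra.single_mul_single, neg_add_cancel, one_mul]; rfl

/-- The coordinate `x_i` on `Δ^m × G_m^n`. -/
def xu (i : Fin n) : (Amb F n m)ˣ := umap (C : Torus F n →+* Amb F n m) (xT F n i)

variable {F n m} in
/-- The torus coordinates of a point. -/
def xval {B : Type u} [CommRing B] (e : Amb F n m →+* B) (i : Fin n) : Bˣ := umap e (xu F n m i)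

variable {F n m} in
/-- The generic points of `V(P)` over a point of the simplex. -/
def pts (P : Elem F n m) (q : Pt (Base F m)) : Set (Amb F n m →+* q.B) :=
  {e | e.comp (proj F n m) = q.ι ∧ RingHom.ker e = P.1}

variable {F n m} in
/-- The sum of the generic points of `V(P)`. -/
def phiAt (P : Elem F n m) (q : Pt (Base F m)) : Wo 𝕂 n q.B :=
  ∑ᶠ e ∈ pts P q, Finsupp.single (xval e) (1 : 𝕂)

variable {F n m} in
/-- The natural family of an elementary correspondence. -/
def phi (P : Elem F n m) : Plus (W 𝕂 n) (Base F m) :=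
  Classical.epsilon fun s => s.1 (ac (Base F m)) = phiAt 𝕂 P (ac (Base F m))

/-- The comparison map. -/
def phiL : (Elem F n m →₀ 𝕂) →ₗ[𝕂] Plus (W 𝕂 n) (Base F m) :=
  Finsupp.linearCombination 𝕂 (phi 𝕂)

/-- Extension of coefficients. -/
def castK : Cor F n m →+ (Elem F n m →₀ 𝕂) := Finsupp.mapRange.addMonoidHom (Int.castAddHom 𝕂)

/-- Extension of the ground field. -/
def resR (k : Type u) [Field k] [Algebra F k] : Base F m →+* Base k m :=
  MvPolynomial.map (algebraMap F k)

end Comparison

/-! ### The symbol theorem -/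

/-- Functors from commutative rings to abelian groups. -/
structure AFun where
  obj : ∀ (R : Type u) [CommRing R], Type u
  [acg : ∀ (R : Type u) [CommRing R], AddCommGroup (obj R)]
  map : ∀ {R R' : Type u} [CommRing R] [CommRing R'], (R →+* R') → obj R →+ obj R'
  map_id : ∀ (R : Type u) [CommRing R] (x : obj R), map (RingHom.id R) x = x
  map_comp : ∀ {R R' R'' : Type u} [CommRing R] [CommRing R'] [CommRing R'']
    (f : R →+* R') (g : R' →+* R'') (x : obj R), map (g.comp f) x = map g (map f x)

attribute [instance] AFun.acg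

/-- Every element depends on finitely many ring elements. -/
def AFun.Finitary (P : AFun.{u}) : Prop :=
  ∀ (R : Type u) [CommRing R] (x : P.obj R), ∃ E : Finset R,
    ∀ (R' : Type u) [CommRing R'] (f g : R →+* R'), (∀ e ∈ E, f e = g e) → P.map f x = P.map g x

/-- The simplicial abelian group of values on the simplices. -/
abbrev AFun.ringS (P : AFun.{u}) (O : Type u) [CommRing O] : SMod.{u} ℤ where
  obj m := P.obj (Base O m)
  act f := (P.map (smR O f)).toIntLinearMap
  act_id m x := by rw [smR_id]; exact P.map_id _ x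
  act_comp f g x := by rw [smR_comp]; exact P.map_comp _ _ x

/-- The functor `R ↦ P (R[Δ^a])`. -/
abbrev AFun.simplex (P : AFun.{u}) (a : ℕ) : AFun.{u} where
  obj R := P.obj (Base R a)
  map f := P.map (MvPolynomial.map f)
  map_id R _ x := by
    rw [show MvPolynomial.map (σ := Fin a) (RingHom.id R) = RingHom.id _ from
      RingHom.ext MvPolynomial.map_id]
    exact P.map_id _ x
  map_comp f g x := by
    rw [show MvPolynomial.map (σ := Fin a) (g.comp f) =
      (MvPolynomial.map g).comp (MvPolynomial.map f) from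
      RingHom.ext fun p => (MvPolynomial.map_map f g p).symm]
    exact P.map_comp _ _ x

section Tensor

variable {𝕂 : Type u} [CommRing 𝕂]

/-- The map `f ⊗ g` for a linear `f` and an additive `g`. -/
def tmapZ {M M' : Type u} [AddCommGroup M] [Module 𝕂 M] [AddCommGroup M'] [Module 𝕂 M']
    {A A' : Type u} [AddCommGroup A] [AddCommGroup A'] (f : M →ₗ[𝕂] M') (g : A →+ A') :
    M ⊗[ℤ] A →ₗ[𝕂] M' ⊗[ℤ] A' :=
  TensorProduct.AlgebraTensorModule.map f g.toIntLinearMap

@[simp] theorem tmapZ_tmul {M M' : Type u} [AddCommGroup M] [Module 𝕂 M] [AddCommGroup M']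
    [Module 𝕂 M'] {A A' : Type u} [AddCommGroup A] [AddCommGroup A'] (f : M →ₗ[𝕂] M')
    (g : A →+ A') (x : M) (a : A) : tmapZ f g (x ⊗ₜ[ℤ] a) = f x ⊗ₜ[ℤ] g a := rfl

/-- Tensor product of a module functor and a group functor. -/
abbrev RFun.tensorZ (H : RFun.{u} 𝕂) (P : AFun.{u}) : RFun.{u} 𝕂 where
  obj R := H.obj R ⊗[ℤ] P.obj R
  map f := tmapZ (H.map f) (P.map f)
  map_id R _ x := by
    induction x using TensorProduct.induction_on with
    | zero => simp
    | tmul a b => rw [tmapZ_tmul, H.map_id, P.map_id]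
    | add a b ha hb => rw [map_add, ha, hb]
  map_comp f g x := by
    induction x using TensorProduct.induction_on with
    | zero => simp
    | tmul a b => rw [tmapZ_tmul, tmapZ_tmul, tmapZ_tmul, H.map_comp, P.map_comp]
    | add a b ha hb => rw [map_add, map_add, map_add, ha, hb]

/-- The transformation `H ⊗ P → H ⊗ P'` of a natural family of additive maps. -/
def RFun.whisker (H : RFun.{u} 𝕂) {P P' : AFun.{u}}
    (φ : ∀ (B : Type u) [CommRing B] [IsAic B], P.obj B →+ P'.obj B)
    (hφ : ∀ {B B' : Type u} [CommRing B] [IsAic B] [CommRing B'] [IsAic B'] (f : B →+* B')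
      (x : P.obj B), P'.map f (φ B x) = φ B' (P.map f x)) :
    NT (H.tensorZ P) (H.tensorZ P') where
  app B := tmapZ LinearMap.id (φ B)
  nat f x := by
    change tmapZ (H.map f) (P'.map f) (tmapZ LinearMap.id (φ _) x) =
      tmapZ LinearMap.id (φ _) (tmapZ (H.map f) (P.map f) x)
    induction x using TensorProduct.induction_on with
    | zero => simp
    | tmul a b => simp only [tmapZ_tmul, hφ, LinearMap.id_apply]
    | add a b ha hb => rw [map_add, map_add, map_add, map_add, ha, hb]

end Tensor

/-- The free abelian group on the units. -/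
abbrev ZU : AFun.{u} where
  obj B := FreeAbelianGroup Bˣ
  map f := FreeAbelianGroup.map (umap f)
  map_id _ _ x := FreeAbelianGroup.map_id_apply x
  map_comp f g x := FreeAbelianGroup.map_comp_apply (f := umap f) (g := umap g) x

/-- The units. -/
abbrev AU : AFun.{u} where
  obj B := Additive Bˣ
  acg _ _ := inferInstance
  map f := MonoidHom.toAdditive (umap f)
  map_id _ _ _ := rfl
  map_comp _ _ _ := rfl

/-- Linearisation `[x] ↦ x`. -/
def linZ (B : Type u) [CommRing B] : FreeAbelianGroup Bˣ →+ Additive Bˣ :=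
  FreeAbelianGroup.lift Additive.ofMul

/-- The idempotent `[x] ↦ [x] - [1]`. -/
def idemZ (B : Type u) [CommRing B] : FreeAbelianGroup Bˣ →+ FreeAbelianGroup Bˣ :=
  FreeAbelianGroup.lift fun x => FreeAbelianGroup.of x - FreeAbelianGroup.of 1

/-- The augmentation `[x] ↦ 1`. -/
def augZ (B : Type u) [CommRing B] : FreeAbelianGroup Bˣ →+ ℤ :=
  FreeAbelianGroup.lift fun _ => 1

/-- Linearisation of the last factor. -/
def linNT {𝕂 : Type u} [CommRing 𝕂] (H : RFun.{u} 𝕂) : NT (H.tensorZ ZU) (H.tensorZ AU) :=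
  H.whisker (fun B => linZ B) fun f x => by
    change MonoidHom.toAdditive (umap f) (linZ _ x) = linZ _ (FreeAbelianGroup.map (umap f) x)
    induction x using FreeAbelianGroup.induction_on with
    | zero => simp
    | of x => simp [linZ]
    | neg x hx => simpa using hx
    | add a b ha hb => rw [map_add, map_add, map_add, map_add, ha, hb]

/-- Reduction of the last factor. -/
def idemNT {𝕂 : Type u} [CommRing 𝕂] (H : RFun.{u} 𝕂) : NT (H.tensorZ ZU) (H.tensorZ ZU) :=
  H.whisker (fun B => idemZ B) fun f x => by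
    change FreeAbelianGroup.map (umap f) (idemZ _ x) = idemZ _ (FreeAbelianGroup.map (umap f) x)
    induction x using FreeAbelianGroup.induction_on with
    | zero => simp
    | of x => simp [idemZ]
    | neg x hx => simpa using hx
    | add a b ha hb => rw [map_add, map_add, map_add, map_add, ha, hb]

/-- Monic polynomials with invertible constant coefficient. -/
def Mon (R : Type u) [CommRing R] : Submonoid (Polynomial R) where
  carrier := {p | p.Monic ∧ IsUnit (p.coeff 0)}
  one_mem' := ⟨Polynomial.monic_one, by simp⟩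
  mul_mem' := fun ha hb => ⟨ha.1.mul hb.1, by
    rw [Polynomial.mul_coeff_zero]; exact ha.2.mul hb.2⟩

/-- Functoriality of `Mon`. -/
def monMap {R R' : Type u} [CommRing R] [CommRing R'] (f : R →+* R') : Mon R →* Mon R' where
  toFun p := ⟨p.1.map f, p.2.1.map f, by rw [Polynomial.coeff_map]; exact p.2.2.map f⟩
  map_one' := Subtype.ext (Polynomial.map_one f)
  map_mul' p q := Subtype.ext (Polynomial.map_mul f)

/-- The group completion of `Mon`. -/
abbrev Gp (R : Type u) [CommRing R] : Type u := Algebra.GrothendieckGroup (Mon R)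

/-- Functoriality of `Gp`. -/
def gpMap {R R' : Type u} [CommRing R] [CommRing R'] (f : R →+* R') : Gp R →* Gp R' :=
  Algebra.GrothendieckGroup.lift (Algebra.GrothendieckGroup.of.comp (monMap f))

@[simp] theorem gpMap_of {R R' : Type u} [CommRing R] [CommRing R'] (f : R →+* R') (p : Mon R) :
    gpMap f (Algebra.GrothendieckGroup.of p) = Algebra.GrothendieckGroup.of (monMap f p) :=
  DFunLike.congr_fun (Algebra.GrothendieckGroup.lift.symm_apply_apply
    (Algebra.GrothendieckGroup.of.comp (monMap f))) p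

theorem gp_hom_ext {R : Type u} [CommRing R] {G : Type*} [CommGroup G] {φ ψ : Gp R →* G}
    (h : ∀ p : Mon R, φ (Algebra.GrothendieckGroup.of p) = ψ (Algebra.GrothendieckGroup.of p)) :
    φ = ψ :=
  Algebra.GrothendieckGroup.lift.symm.injective (MonoidHom.ext h)

/-- Quotients of two polynomials with the same degree and the same constant coefficient. -/
def P0 (R : Type u) [CommRing R] : Subgroup (Gp R) where
  carrier := {x | ∃ p q : Mon R, p.1.natDegree = q.1.natDegree ∧ p.1.coeff 0 = q.1.coeff 0 ∧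
    x = Algebra.GrothendieckGroup.of p / Algebra.GrothendieckGroup.of q}
  one_mem' := ⟨1, 1, rfl, rfl, by simp⟩
  mul_mem' := by
    rintro _ _ ⟨p, q, h1, h2, rfl⟩ ⟨p', q', h1', h2', rfl⟩
    refine ⟨p * p', q * q', ?_, ?_, by rw [map_mul, map_mul, div_mul_div_comm]⟩
    · change (p.1 * p'.1).natDegree = (q.1 * q'.1).natDegree
      rw [p.2.1.natDegree_mul p'.2.1, q.2.1.natDegree_mul q'.2.1, h1, h1']
    · change (p.1 * p'.1).coeff 0 = (q.1 * q'.1).coeff 0
      rw [Polynomial.mul_coeff_zero, Polynomial.mul_coeff_zero, h2, h2']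
  inv_mem' := by
    rintro _ ⟨p, q, h1, h2, rfl⟩
    exact ⟨q, p, h1.symm, h2.symm, by rw [inv_div]⟩

theorem gpMap_mem_P0 {R R' : Type u} [CommRing R] [CommRing R'] (f : R →+* R') {x : Gp R}
    (hx : x ∈ P0 R) : gpMap f x ∈ P0 R' := by
  obtain ⟨p, q, h1, h2, rfl⟩ := hx
  refine ⟨monMap f p, monMap f q, ?_, ?_, by rw [map_div, gpMap_of, gpMap_of]⟩
  · change (p.1.map f).natDegree = (q.1.map f).natDegree
    nontriviality R'
    rw [p.2.1.natDegree_map, q.2.1.natDegree_map, h1]
  · change (p.1.map f).coeff 0 = (q.1.map f).coeff 0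
    rw [Polynomial.coeff_map, Polynomial.coeff_map, h2]

/-- Functoriality of `P0`. -/
def p0Map {R R' : Type u} [CommRing R] [CommRing R'] (f : R →+* R') : P0 R →* P0 R' where
  toFun x := ⟨gpMap f x, gpMap_mem_P0 f x.2⟩
  map_one' := Subtype.ext (map_one (gpMap f))
  map_mul' x y := Subtype.ext (map_mul (gpMap f) x.1 y.1)

@[simp] theorem coe_p0Map {R R' : Type u} [CommRing R] [CommRing R'] (f : R →+* R') (x : P0 R) :
    (p0Map f x : Gp R') = gpMap f x := rfl

/-- The functor `P0`. -/
abbrev PZ : AFun.{u} where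
  obj R := Additive (P0 R)
  map f := MonoidHom.toAdditive (p0Map f)
  map_id R _ x := by
    have : gpMap (RingHom.id R) = MonoidHom.id _ := gp_hom_ext fun p => by
      rw [gpMap_of]; exact congrArg _ (Subtype.ext Polynomial.map_id)
    exact Subtype.ext (DFunLike.congr_fun this _)
  map_comp f g x := by
    have : gpMap (g.comp f) = (gpMap g).comp (gpMap f) := gp_hom_ext fun p => by
      rw [MonoidHom.comp_apply, gpMap_of, gpMap_of, gpMap_of]
      exact congrArg _ (Subtype.ext (Polynomial.map_map f g _).symm)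
    exact Subtype.ext (DFunLike.congr_fun this _)

/-! ### Places -/

/-- A discrete place of `K` with uniformiser `π`. -/
structure IsPlace {K : Type*} [Field K] (A : ValuationSubring K) (π : K) : Prop where
  ne : π ≠ 0
  mem : π ∈ A.nonunits
  fac : ∀ a : K, a ≠ 0 → ∃ n : ℤ, A.valuation a = A.valuation π ^ n

/-- A rational valued additive valuation with valuation ring `𝒪`. -/
def IsOrd {Ω : Type*} [Field Ω] (𝒪 : ValuationSubring Ω) (ord : Additive Ωˣ →+ ℚ) : Prop :=
  ∀ x : Ωˣ, (x : Ω) ∈ 𝒪 ↔ 0 ≤ ord (Additive.ofMul x)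

/-- The linear extension of a rational valued additive map on units. -/
def ordK (k : Type u) [Field k] [CharZero k] {B : Type u} [CommRing B]
    (ord : Additive Bˣ →+ ℚ) : Uo k B →ₗ[k] k :=
  TensorProduct.AlgebraTensorModule.lift
    (LinearMap.toSpanSingleton k (Additive Bˣ →ₗ[ℤ] k)
      ((Rat.castHom k).toAddMonoidHom.comp ord).toIntLinearMap)

@[simp] theorem ordK_tmul (k : Type u) [Field k] [CharZero k] {B : Type u} [CommRing B]
    (ord : Additive Bˣ →+ ℚ) (c : k) (x : Additive Bˣ) :
    ordK k ord (c ⊗ₜ[ℤ] x) = c * (ord x : k) := by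
  simp [ordK]

@[simp] theorem ordK_ulog (k : Type u) [Field k] [CharZero k] {B : Type u} [CommRing B]
    (ord : Additive Bˣ →+ ℚ) (x : Bˣ) :
    ordK k ord (ulog k x) = (ord (Additive.ofMul x) : k) := by
  rw [ulog, ordK_tmul, one_mul]

/-- The logarithmic derivative on units. -/
def dlogA {k₀ Ω : Type u} [CommRing k₀] [Field Ω] [Algebra k₀ Ω] (D : Derivation k₀ Ω Ω) :
    Additive Ωˣ →+ Ω where
  toFun x := D (x.toMul : Ωˣ) / (x.toMul : Ωˣ)
  map_zero' := by simp
  map_add' x y := by
    simp only [toMul_add, Units.val_mul, Derivation.leibniz, smul_eq_mul]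
    field_simp
    ring

/-- The linear extension of the logarithmic derivative. -/
def ell (k : Type u) [Field k] {k₀ Ω : Type u} [CommRing k₀] [Field Ω] [Algebra k₀ Ω]
    [Algebra k Ω] (D : Derivation k₀ Ω Ω) : Uo k Ω →ₗ[k] Ω :=
  TensorProduct.AlgebraTensorModule.lift
    (LinearMap.toSpanSingleton k (Additive Ωˣ →ₗ[ℤ] Ω) (dlogA D).toIntLinearMap)

@[simp] theorem ell_tmul (k : Type u) [Field k] {k₀ Ω : Type u} [CommRing k₀] [Field Ω]
    [Algebra k₀ Ω] [Algebra k Ω] (D : Derivation k₀ Ω Ω) (c : k) (x : Additive Ωˣ) :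
    ell k D (c ⊗ₜ[ℤ] x) = c • (D (x.toMul : Ωˣ) / (x.toMul : Ωˣ)) := by
  simp [ell, dlogA]

@[simp] theorem ell_ulog (k : Type u) [Field k] {k₀ Ω : Type u} [CommRing k₀] [Field Ω]
    [Algebra k₀ Ω] [Algebra k Ω] (D : Derivation k₀ Ω Ω) (x : Ωˣ) :
    ell k D (ulog k x) = D x / x := by
  rw [ulog, ell_tmul, one_smul]; rfl

end

end Pool.Agent.MP_e2821c_ag.Cy
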