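import Pool.Agent.Lib.MP_e2821c_ag.Cy.Core2

/-!
# Definitions for the structure theory of eigen-units
-/

namespace Pool.Agent.MP_e2821c_ag.Cy

open MvPolynomial
open scoped TensorProduct

universe u

noncomputable section

variable (k : Type u) [Field k]

/-- The function field of the simplex. -/
abbrev Km (m : ℕ) : Type u := FractionRing (Base k m)

/-- Its algebraic closure. -/
abbrev Omm (m : ℕ) : Type u := Om (Base k m)

/-- The absolute integral closure of the simplex. -/
abbrev Bm (m : ℕ) : Type u := AC (Base k m)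

/-- The absolute Galois group. -/
abbrev Gm (m : ℕ) : Type u := Bm k m ≃ₐ[Base k m] Bm k m

/-- The structure map. -/
abbrev iB (m : ℕ) : Base k m →+* Bm k m := algebraMap (Base k m) (Bm k m)

/-- The inclusion into the algebraic closure. -/
abbrev vB (m : ℕ) : Bm k m →+* Omm k m := algebraMap (Bm k m) (Omm k m)

/-- The constants. -/
def cB (m : ℕ) : k →+* Bm k m := (iB k m).comp C

/-- The coordinate of the line. -/
def X0 : Base k 1 := X 0

variable {k}

/-- The map to the line given by a polynomial. -/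
def ev {m : ℕ} (f : Base k m) : Base k 1 →+* Base k m := (aeval fun _ => f).toRingHom

@[simp] theorem ev_X0 {m : ℕ} (f : Base k m) : ev f (X0 k) = f := by simp [ev, X0]

@[simp] theorem ev_C {m : ℕ} (f : Base k m) (c : k) : ev f (C c) = C c := by simp [ev]

theorem comp_ev {m m' : ℕ} (ψ : Base k m →ₐ[k] Base k m') (f : Base k m) :
    ψ.toRingHom.comp (ev f) = ev (ψ f) :=
  MvPolynomial.ringHom_ext (fun c => by simp [ev]) fun i => by simp [ev]

/-- Nonconstant polynomials. -/
def NonConst {m : ℕ} (f : Base k m) : Prop := ∀ c : k, f ≠ C c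

/-- Algebraically dependent pairs. -/
def Dep {m : ℕ} (f f' : Base k m) : Prop := ¬ AlgebraicIndependent k ![f, f']

/-- Constant classes. -/
def IsConst {m : ℕ} (u : Uo k (Bm k m)) : Prop := u ∈ LinearMap.range (Umap k (cB k m))

/-- Eigenvectors of the Galois group. -/
def Eig {m : ℕ} (χ : Gm k m →* kˣ) (u : Uo k (Bm k m)) : Prop :=
  ∀ g : Gm k m, Umap k (g : Bm k m →+* Bm k m) u = (χ g : k) • u

/-- `κ` lifts the map to the line given by `f` to the absolute integral closure of the line. -/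
def IsLift {m : ℕ} {B : Type u} [CommRing B] (ι : Base k m →+* B) (f : Base k m)
    (κ : Bm k 1 →+* B) : Prop := κ.comp (iB k 1) = ι.comp (ev f)

/-- `u` comes from the pencil of `f`. -/
def In {m : ℕ} (u : Uo k (Bm k m)) (f : Base k m) : Prop :=
  ∃ κ : Bm k 1 →+* Bm k m, IsLift (iB k m) f κ ∧ u ∈ LinearMap.range (Umap k κ)

/-- Elements integral over `k[f]`. -/
def IntOver {m : ℕ} (f : Base k m) (y : Bm k m) : Prop :=
  ((iB k m).comp (ev f)).IsIntegralElem y

/-- Elements algebraic over `k[f]`. -/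
def AlgOver {m : ℕ} (f : Base k m) (y : Omm k m) : Prop :=
  IsAlgebraic (Algebra.adjoin k {algebraMap (Base k m) (Omm k m) f}) y

/-- Valuation rings above the place at infinity. -/
def IsInf {m : ℕ} (𝒪 : ValuationSubring (Omm k m)) : Prop :=
  ∀ p q : Base k m, q ≠ 0 → (algebraMap (Base k m) (Omm k m) p / algebraMap (Base k m) (Omm k m) q
    ∈ 𝒪 ↔ p.totalDegree ≤ q.totalDegree)

/-- The characters generated by the eigen-units of a pencil. -/
def Belongs {m : ℕ} (f : Base k m) (ψ : Gm k m →* kˣ) : Prop :=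
  ψ ∈ Subgroup.closure {χ : Gm k m →* kˣ | ∃ u, u ≠ 0 ∧ Eig χ u ∧ In u f}

variable {n : ℕ}

/-- At least two nonzero eigenvectors with distinct nontrivial characters of product one. -/
def IsBlock {m : ℕ} (S : Finset (Fin n)) (v : Fin n → Uo k (Bm k m)) : Prop :=
  2 ≤ S.card ∧ (∀ i ∈ S, v i ≠ 0) ∧ ∃ ε : Fin n → (Gm k m →* kˣ), (∀ i ∈ S, Eig (ε i) (v i)) ∧
    (∀ i ∈ S, ε i ≠ 1) ∧ Set.InjOn ε S ∧ ∏ i ∈ S, ε i = 1

/-- The lines of `v` and `v'` agree. -/
def SameLines {B : Type u} [CommRing B] (S : Finset (Fin n)) (v v' : Fin n → Uo k B) : Prop :=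
  ∀ i ∈ S, ∃ c : k, c ≠ 0 ∧ v i = c • v' i

/-- The automorphism `α` carries the lines of `v` to the lines of `v'`. -/
def Keeps (S : Finset (Fin n)) (v v' : Fin n → Uo k (Bm k 1)) (α : Bm k 1 ≃ₐ[k] Bm k 1) : Prop :=
  SameLines S (fun i => Umap k (α : Bm k 1 →+* Bm k 1) (v i)) v'

/-- Normalised blocks on the line. -/
def IsNorm (S : Finset (Fin n)) (v : Fin n → Uo k (Bm k 1)) : Prop :=
  IsBlock S v ∧ ∀ α, Keeps S v v α → α (iB k 1 (X0 k)) = iB k 1 (X0 k)

/-- A chosen normalised block in each class. -/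
def rep (S : Finset (Fin n)) (v : Fin n → Uo k (Bm k 1)) : Fin n → Uo k (Bm k 1) :=
  Classical.epsilon fun w => IsNorm S w ∧ ∃ α, Keeps S v w α

/-- The chosen blocks. -/
def IsRep (S : Finset (Fin n)) (v : Fin n → Uo k (Bm k 1)) : Prop := IsNorm S v ∧ rep S v = v

variable (k) in
/-- The index set of a basis of the constants. -/
abbrev Bas : Type u := Module.Basis.ofVectorSpaceIndex k (Uo k k)

variable (k) in
/-- A basis of the constants. -/
def bas : Module.Basis (Bas k) k (Uo k k) := Module.Basis.ofVectorSpace k (Uo k k)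

open Classical in
/-- The positions of a block. -/
def blockOf {I : Finset (Fin n)} (blk : Fin n → I ⊕ Bas k) (b : I) : Finset (Fin n) :=
  Finset.univ.filter fun i => blk i = Sum.inl b

variable (k) in
/-- Decorations: each position is a constant basis vector or lies in a block with leader in `I`. -/
structure Dec (I : Finset (Fin n)) : Type u where
  blk : Fin n → I ⊕ Bas k
  w : I → Fin n → Uo k (Bm k 1)
  lead : ∀ b : I, blk b = Sum.inl b
  min : ∀ (i : Fin n) (b : I), blk i = Sum.inl b → (b : Fin n) ≤ i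
  isRep : ∀ b : I, IsRep (blockOf blk b) (w b)

/-- The tuple of a decoration at a point. -/
def tup {I : Finset (Fin n)} (δ : Dec k I) {B : Type u} [CommRing B] (κ : I → Bm k 1 →+* B)
    (c : k →+* B) (i : Fin n) : Uo k B :=
  Sum.elim (fun b => Umap k (κ b) (δ.w b i)) (fun a => Umap k c (bas k a)) (δ.blk i)

/-- The natural family of a decoration and a tuple of polynomials. -/
def Psi {I : Finset (Fin n)} {m : ℕ} (δ : Dec k I) (p : I → Base k m) :
    Plus (TP k n) (Base k m) :=
  Classical.epsilon fun s => ∀ (q : Pt (Base k m)) (κ : I → Bm k 1 →+* q.B),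
    (∀ b, IsLift q.ι (p b) (κ b)) → s.1 q = tp k n (tup δ κ (q.ι.comp C))

variable (k) in
/-- The simplicial module of labelled tuples of polynomials. -/
abbrev YS (Λ : Type u) (I : Type) : SMod.{u} k where
  obj m := (Λ × (I → Base k m)) →₀ k
  act f := Finsupp.lmapDomain k k fun x => (x.1, fun b => sm k f (x.2 b))
  act_id m x := by rw [sm_id]; exact Finsupp.mapDomain_id
  act_comp f g x := by
    rw [sm_comp, Finsupp.lmapDomain_apply, Finsupp.lmapDomain_apply, Finsupp.lmapDomain_apply,
      ← Finsupp.mapDomain_comp]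
    rfl

/-- Degenerate tuples: a constant entry or two dependent entries. -/
def DegT {I : Type} {m : ℕ} (p : I → Base k m) : Prop :=
  (∃ b, ¬ NonConst (p b)) ∨ ∃ b b', b ≠ b' ∧ Dep (p b) (p b')

variable (k) in
/-- The span of the degenerate labelled tuples. -/
def degY (Λ : Type u) (I : Type) (m : ℕ) : Submodule k ((Λ × (I → Base k m)) →₀ k) :=
  Finsupp.supported k k {x | DegT x.2}

variable (k) in
/-- The linear extension of `Psi`. -/
def PsiL (I : Finset (Fin n)) (m : ℕ) :
    ((Dec k I × (I → Base k m)) →₀ k) →ₗ[k] Plus (TP k n) (Base k m) :=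
  Finsupp.linearCombination k fun x => Psi x.1 x.2

/-- Tuples of eigenvectors. -/
def IsEigT {m : ℕ} (u : Fin n → Uo k (Bm k m)) : Prop := ∀ i, ∃ χ, Eig χ (u i)

/-- Tuples lying in fewer than `s` pencils. -/
def NB (s : ℕ) {m : ℕ} (u : Fin n → Uo k (Bm k m)) : Prop :=
  ∃ ys : Finset (Base k m), ys.card < s ∧ ∀ i, IsConst (u i) ∨ ∃ f ∈ ys, In (u i) f

open Classical in
/-- In every pencil the product of the characters is one. -/
def BC {m : ℕ} (u : Fin n → Uo k (Bm k m)) : Prop :=
  ∀ (χ : Fin n → (Gm k m →* kˣ)), (∀ i, Eig (χ i) (u i)) → (∀ i, u i ≠ 0) →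
    ∀ f : Base k m, ∏ i ∈ Finset.univ.filter (fun i => In (u i) f), χ i = 1

variable (k n) in
/-- The span of the eigen-tensors in fewer than `s` pencils. -/
def spanNB (s m : ℕ) : Submodule k (To k n (Bm k m)) :=
  Submodule.span k {x | ∃ u, IsEigT u ∧ NB s u ∧ x = tp k n u}

variable (k n) in
/-- The span of the eigen-tensors in fewer than `s` pencils with trivial block products. -/
def spanBC (s m : ℕ) : Submodule k (To k n (Bm k m)) :=
  Submodule.span k {x | ∃ u, IsEigT u ∧ NB s u ∧ BC u ∧ x = tp k n u}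

variable (k n) in
/-- The span of the nondegenerate generators with fewer than `s` blocks. -/
def spanGen (s m : ℕ) : Submodule k (To k n (Bm k m)) :=
  Submodule.span k {x | ∃ (I : Finset (Fin n)) (δ : Dec k I) (p : I → Base k m),
    I.card < s ∧ ¬ DegT p ∧ x = (Psi δ p).1 (ac (Base k m))}

/-- Tuples of units in a cyclic extension, or in an abelian one in weight at most two. -/
def GoodTuple {m : ℕ} (ξ : Fin n → (Bm k m)ˣ) : Prop :=
  ∃ L : IntermediateField (Km k m) (Omm k m), FiniteDimensional (Km k m) L ∧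
    ((IsGalois (Km k m) L ∧ IsCyclic (L ≃ₐ[Km k m] L)) ∨ (n ≤ 2 ∧ IsAbelianGalois (Km k m) L)) ∧
    ∀ i, vB k m (ξ i) ∈ L

end

end Pool.Agent.MP_e2821c_ag.Cy
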