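import Pool.Agent.Lib.MP_e2821c_ag.Cy.TwoPencils

namespace Pool.Agent.MP_e2821c_ag.Cy

open MvPolynomial
open scoped TensorProduct

universe u v w

noncomputable section

section Abstract

variable {k : Type u} [Field k] {G : Type v} [Group G] {V : Type w} [AddCommGroup V] [Module k V]

theorem indep_cover (T : G → V →ₗ[k] V) {ι : Type} (s : Finset ι) (ψ : ι → (G →* kˣ))
    (hψ : ∀ j, ψ j ≠ 1) : ∀ b : ι → V, (∀ j g, T g (b j) = (ψ j g : k) • b j) →
      (∀ g, T g (∑ j ∈ s, b j) = ∑ j ∈ s, b j) → ∑ j ∈ s, b j = 0 := by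
  classical
  induction s using Finset.induction_on with
  | empty => intro b _ _; rfl
  | insert a s ha ih =>
    intro b hb hinv
    obtain ⟨g, hg⟩ : ∃ g, ψ a g ≠ 1 := by
      by_contra h
      exact hψ a (MonoidHom.ext fun g => not_not.1 fun h' => h ⟨g, h'⟩)
    have h1 : ∑ j ∈ s, ((ψ j g : k) - ψ a g) • b j =
        (1 - (ψ a g : k)) • ∑ j ∈ insert a s, b j := by
      rw [sub_smul, one_smul]
      conv_rhs => enter [1]; rw [← hinv g]
      rw [map_sum, Finset.smul_sum, ← Finset.sum_sub_distrib, Finset.sum_insert ha, hb, sub_self,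
        zero_add]
      exact Finset.sum_congr rfl fun j _ => by rw [hb, sub_smul]
    have h2 := ih (fun j => ((ψ j g : k) - ψ a g) • b j)
      (fun j g' => by rw [map_smul, hb, smul_comm]) fun g' => by rw [h1, map_smul, hinv]
    rw [h1] at h2
    refine (smul_eq_zero.1 h2).resolve_left fun h3 => hg (Units.ext ?_)
    rw [sub_eq_zero] at h3
    exact h3.symm

theorem decomp_cover [CharZero k] [IsAlgClosed k] {A : Type*} [CommGroup A] [Finite A]
    [Fintype (A →* kˣ)] (ρ : G →* A) (hρ : Function.Surjective ρ) (T : G → V →ₗ[k] V)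
    (hT : ∀ g h x, T (g * h) x = T g (T h x)) (hT1 : ∀ x, T 1 x = x) {x : V}
    (hx : ∀ g g', ρ g = ρ g' → T g x = T g' x) :
    ∃ y : (A →* kˣ) → V, (∀ φ g, T g (y φ) = (φ (ρ g) : k) • y φ) ∧ ∑ φ, y φ = x := by
  classical
  have := Fintype.ofFinite A
  have : NeZero ((Monoid.exponent A : ℕ) : k) :=
    ⟨Nat.cast_ne_zero.2 Monoid.exponent_ne_zero_of_finite⟩
  choose s hs using hρ
  refine ⟨fun φ => (Fintype.card (A →* kˣ) : k)⁻¹ • ∑ a, (φ a⁻¹ : k) • T (s a) x,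
    fun φ g => ?_, ?_⟩
  · rw [map_smul, smul_comm, map_sum]
    congr 1
    rw [Finset.smul_sum, ← Equiv.sum_comp (Equiv.mulLeft (ρ g))
      fun a => (φ (ρ g) : k) • (φ a⁻¹ : k) • T (s a) x]
    refine Finset.sum_congr rfl fun a _ => ?_
    rw [map_smul, ← hT, smul_smul, ← Units.val_mul, ← map_mul, Equiv.coe_mulLeft, mul_inv,
      mul_inv_cancel_left, hx (g * s a) (s (ρ g * a)) (by rw [map_mul, hs, hs])]
  · rw [← Finset.smul_sum, Finset.sum_comm]
    simp only [← Finset.sum_smul]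
    rw [Finset.sum_eq_single 1]
    · simp only [inv_one, map_one, Units.val_one, Finset.sum_const, Finset.card_univ,
        nsmul_eq_mul, mul_one]
      rw [smul_smul, inv_mul_cancel₀ (Nat.cast_ne_zero.2 Fintype.card_ne_zero), one_smul,
        hx (s 1) 1 (by rw [hs, map_one]), hT1]
    · intro a _ ha
      obtain ⟨φ, hφ⟩ := CommGroup.exists_apply_ne_one_of_hasEnoughRootsOfUnity A k
        (inv_ne_one.2 ha)
      have h1 := sum_hom_units_eq_zero ((Units.coeHom k).comp (MonoidHom.eval a⁻¹ :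
        (A →* kˣ) →* kˣ)) fun h => hφ (Units.ext (DFunLike.congr_fun h φ))
      have h2 : ∑ φ : A →* kˣ, (φ a⁻¹ : k) = 0 := h1
      rw [h2, zero_smul]
    · exact fun h => absurd (Finset.mem_univ _) h

theorem coprime_cover {x y : kˣ} (hx : orderOf x ≠ 0) (hy : orderOf y ≠ 0)
    (h : ∀ a b : ℕ, x ^ a = y ^ b → x ^ a = 1) : (orderOf x).Coprime (orderOf y) := by
  have h1 := orderOf_pow_orderOf_div hx (Nat.gcd_dvd_left (orderOf x) (orderOf y))
  have h2 := orderOf_pow_orderOf_div hy (Nat.gcd_dvd_right (orderOf x) (orderOf y))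
  have : NeZero ((orderOf x).gcd (orderOf y)) := ⟨Nat.gcd_ne_zero_left hx⟩
  have h3 := IsPrimitiveRoot.orderOf (y ^ (orderOf y / (orderOf x).gcd (orderOf y)))
  rw [h2] at h3
  obtain ⟨i, -, hi⟩ := h3.eq_pow_of_mem_rootsOfUnity
    (ξ := x ^ (orderOf x / (orderOf x).gcd (orderOf y)))
    ((mem_rootsOfUnity _ _).2 (orderOf_dvd_iff_pow_eq_one.1 h1.dvd))
  rw [← pow_mul] at hi
  rw [h _ _ hi.symm, orderOf_one] at h1
  exact h1.symm

end Abstract

section

variable {k : Type u} [Field k] [CharZero k] [IsAlgClosed k] {m n : ℕ}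

theorem nb_of_isEigT {u : Fin n → Uo k (Bm k m)} (hu : IsEigT u) : NB (n + 1) u := by
  classical
  choose χ hχ using hu
  choose f hf using fun i => pencil (hχ i)
  refine ⟨Finset.univ.image f, Nat.lt_succ_of_le (Finset.card_image_le.trans (by simp)),
    fun i => Or.inr ⟨f i, Finset.mem_image_of_mem f (Finset.mem_univ i), hf i⟩⟩

theorem bc_of_cyclic {u : Fin n → Uo k (Bm k m)} {χ : Fin n → (Gm k m →* kˣ)}
    (hu : ∀ i, Eig (χ i) (u i)) (h1 : ∏ i, χ i = 1)
    (hc : n ≤ 2 ∨ ∃ γ : Gm k m, ∀ g : Gm k m, ∃ a : ℕ, ∀ i, χ i g = χ i γ ^ a) : BC u := by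
  classical
  intro χ' hu' h0 f
  obtain rfl : χ = χ' := funext fun i => (hu i).unique (hu' i) (h0 i)
  by_contra hψ
  obtain ⟨S, hS⟩ : ∃ S : Finset (Fin n), ∀ i, i ∈ S ↔ In (u i) f :=
    ⟨Finset.univ.filter fun i => In (u i) f, fun i => by simp⟩
  replace hψ : ∏ i ∈ S, χ i ≠ 1 := fun h => hψ (by
    rw [← h]
    exact Finset.prod_congr (Finset.ext fun i => by simp [hS]) fun _ _ => rfl)
  have hbel : ∀ i f', In (u i) f' → Belongs f' (χ i) := fun i f' hi =>
    Subgroup.subset_closure ⟨u i, h0 i, hu i, hi⟩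
  have hB : Belongs f (∏ i ∈ S, χ i) :=
    Subgroup.prod_mem _ fun i hi => hbel i f ((hS i).1 hi)
  have hf : NonConst f := by
    by_contra hf
    exact hψ (Finset.prod_eq_one fun i hi =>
      (hu i).unique (eig_one_of_isConst (isConst_of_in ((hS i).1 hi) hf)) (h0 i))
  have key : ∀ i, i ∉ S → ∀ θ, Belongs f θ → θ ∈ Subgroup.zpowers (χ i) → θ = 1 := by
    intro i hi θ hθ hθ'
    obtain ⟨f', hf'⟩ := pencil (hu i)
    refine two_pencils (fun hd => hi ((hS i).2 (in_of_dep hf hd.symm hf'))) hθ ?_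
    exact (Subgroup.zpowers_le.2 (hbel i f' hf')) hθ'
  have hprod : (∏ i ∈ S, χ i) * ∏ i ∈ Sᶜ, χ i = 1 := by
    rw [Finset.prod_mul_prod_compl, h1]
  rcases hc with hn | ⟨γ, hγ⟩
  · have hne : S.Nonempty := Finset.nonempty_iff_ne_empty.2 fun h => hψ (by
      rw [h, Finset.prod_empty])
    have hcard : Sᶜ.card ≤ 1 := by
      have := hne.card_pos
      rw [Finset.card_compl, Fintype.card_fin]
      omega
    rcases (Nat.le_one_iff_eq_zero_or_eq_one.1 hcard).imp Finset.card_eq_zero.1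
      Finset.card_eq_one.1 with h | ⟨j, h⟩
    · rw [h, Finset.prod_empty, mul_one] at hprod
      exact hψ hprod
    · rw [h, Finset.prod_singleton] at hprod
      refine hψ (key j (Finset.mem_compl.1 (h ▸ Finset.mem_singleton_self j)) _ hB ?_)
      have h8 : ∏ i ∈ S, χ i = (χ j)⁻¹ := MonoidHom.ext fun g =>
        eq_inv_of_mul_eq_one_left (DFunLike.congr_fun hprod g)
      rw [h8]
      exact Subgroup.inv_mem _ (Subgroup.mem_zpowers _)
  · have hval : ∀ g : Gm k m, ∃ a : ℕ, (∀ i, χ i g = χ i γ ^ a) ∧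
        (∏ i ∈ S, χ i) g = (∏ i ∈ S, χ i) γ ^ a := fun g => by
      obtain ⟨a, ha⟩ := hγ g
      refine ⟨a, ha, ?_⟩
      rw [MonoidHom.finsetProd_apply, MonoidHom.finsetProd_apply, ← Finset.prod_pow]
      exact Finset.prod_congr rfl fun i _ => ha i
    have hord : ∀ θ : Gm k m →* kˣ, (∃ N : ℕ, 0 < N ∧ θ ^ N = 1) → orderOf (θ γ) ≠ 0 := by
      rintro θ ⟨N, hN, h⟩
      refine (isOfFinOrder_iff_pow_eq_one.2 ⟨N, hN, ?_⟩).orderOf_pos.ne'
      exact DFunLike.congr_fun h γ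
    have hcop : ∀ i ∈ Sᶜ, (orderOf ((∏ i ∈ S, χ i) γ)).Coprime (orderOf (χ i γ)) := by
      intro i hi
      refine coprime_cover (hord _ hB.pow_eq_one) (hord _ ((hu i).pow_eq_one (h0 i)))
        fun a b hab => ?_
      have h2 : (∏ i ∈ S, χ i) ^ a = χ i ^ b := MonoidHom.ext fun g => by
        obtain ⟨c, hc, hc'⟩ := hval g
        rw [MonoidHom.pow_apply, MonoidHom.pow_apply, hc', hc, pow_right_comm, hab,
          pow_right_comm]
      have h3 := key i (Finset.mem_compl.1 hi) _ (Subgroup.pow_mem _ hB a)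
        (h2 ▸ Subgroup.pow_mem _ (Subgroup.mem_zpowers _) b)
      exact DFunLike.congr_fun h3 γ
    have h4 : (∏ i ∈ Sᶜ, χ i) γ ^ (∏ i ∈ Sᶜ, orderOf (χ i γ)) = 1 := by
      rw [MonoidHom.finsetProd_apply, ← Finset.prod_pow]
      exact Finset.prod_eq_one fun i hi =>
        orderOf_dvd_iff_pow_eq_one.1 (Finset.dvd_prod_of_mem _ hi)
    have h5 : (∏ i ∈ S, χ i) γ ^ (∏ i ∈ Sᶜ, orderOf (χ i γ)) = 1 := by
      have h6 : (∏ i ∈ S, χ i) γ * (∏ i ∈ Sᶜ, χ i) γ = 1 := DFunLike.congr_fun hprod γ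
      rw [eq_inv_of_mul_eq_one_left h6, inv_pow, h4, inv_one]
    have h7 : (∏ i ∈ S, χ i) γ = 1 := orderOf_eq_one_iff.1
      ((Nat.Coprime.prod_right hcop).eq_one_of_dvd (orderOf_dvd_iff_pow_eq_one.2 h5))
    refine hψ (MonoidHom.ext fun g => ?_)
    obtain ⟨c, -, hc⟩ := hval g
    rw [hc, h7, one_pow, MonoidHom.one_apply]

omit [CharZero k] [IsAlgClosed k] in
theorem exists_quot_cover {ξ : Fin n → (Bm k m)ˣ} (h : GoodTuple ξ) :
    ∃ (A : Type u) (_ : CommGroup A) (_ : Finite A) (ρ : Gm k m →* A), Function.Surjective ρ ∧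
      (n ≤ 2 ∨ IsCyclic A) ∧ ∀ g g', ρ g = ρ g' → ∀ i, g (ξ i) = g' (ξ i) := by
  obtain ⟨L, hfin, hL, hξ⟩ := h
  have hgal : IsGalois (Km k m) L := hL.elim And.left fun h => h.2.toIsGalois
  have hcomm : IsMulCommutative (L ≃ₐ[Km k m] L) :=
    hL.elim (fun h => by have := h.2; infer_instance) fun h => h.2.toIsMulCommutative
  have := isFractionRing_AC (Base k m)
  let ρ : Gm k m →* (L ≃ₐ[Km k m] L) := (AlgEquiv.restrictNormalHom L).comp
    (IsFractionRing.fieldEquivOfAlgEquivHom (Km k m) (Omm k m))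
  have hρ : ∀ (g : Gm k m) (y : Bm k m) (hy : vB k m y ∈ L),
      (ρ g ⟨vB k m y, hy⟩ : Omm k m) = vB k m (g y) := fun g y hy =>
    (AlgEquiv.restrictNormalHom_apply L _ _).trans
      (IsFractionRing.fieldEquivOfAlgEquiv_algebraMap (Km k m) (Omm k m) (Omm k m) g y)
  refine ⟨ρ.range, { (inferInstance : Group ρ.range) with mul_comm := mul_comm' },
    inferInstance, ρ.rangeRestrict, ρ.rangeRestrict_surjective, ?_, fun g g' hg i => ?_⟩
  · refine hL.elim (fun h => Or.inr ?_) fun h => Or.inl h.1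
    have := h.2
    exact Subgroup.isCyclic ρ.range
  · have h1 : ρ g = ρ g' := congrArg Subtype.val hg
    refine Subtype.val_injective ?_
    exact (hρ g _ (hξ i)).symm.trans (h1 ▸ hρ g' _ (hξ i))

theorem split_cover {ξ : Fin n → (Bm k m)ˣ} (h : GoodTuple ξ) :
    ∃ (ι : Type u) (_ : Fintype ι) (u : ι → Fin n → Uo k (Bm k m))
      (χ : ι → Fin n → (Gm k m →* kˣ)), (∀ r i, Eig (χ r i) (u r i)) ∧
      (∀ r, n ≤ 2 ∨ ∃ γ : Gm k m, ∀ g : Gm k m, ∃ a : ℕ, ∀ i, χ r i g = χ r i γ ^ a) ∧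
      (tp k n fun i => ulog k (ξ i)) = ∑ r, tp k n (u r) := by
  classical
  obtain ⟨A, _, _, ρ, hρ, hc, hfix⟩ := exists_quot_cover h
  have : NeZero ((Monoid.exponent A : ℕ) : k) :=
    ⟨Nat.cast_ne_zero.2 Monoid.exponent_ne_zero_of_finite⟩
  have : Finite (A →* kˣ) := Finite.of_equiv _
    (CommGroup.monoidHom_mulEquiv_of_hasEnoughRootsOfUnity A k).some.toEquiv.symm
  have := Fintype.ofFinite (A →* kˣ)
  choose y hy hy' using fun i => decomp_cover ρ hρ
    (fun g : Gm k m => Umap k (g : Bm k m →+* Bm k m))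
    (fun g g' x => Umap_comp k (g' : Bm k m →+* Bm k m) (g : Bm k m →+* Bm k m) x)
    (fun x => Umap_id k x) (x := ulog k (ξ i)) fun g g' hg =>
      congrArg (ulog k) (Units.ext (hfix g g' hg i))
  refine ⟨Fin n → (A →* kˣ), inferInstance, fun r i => y i (r i), fun r i => (r i).comp ρ,
    fun r i g => hy i (r i) g, fun r => hc.imp id fun hA => ?_, ?_⟩
  · have : IsCyclic A := hA
    obtain ⟨a, ha⟩ := IsCyclic.exists_monoid_generator (α := A)
    obtain ⟨γ, rfl⟩ := hρ a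
    refine ⟨γ, fun g => ?_⟩
    obtain ⟨c, hc⟩ := ha (ρ g)
    refine ⟨c, fun i => ?_⟩
    rw [MonoidHom.comp_apply, MonoidHom.comp_apply, ← map_pow]
    exact congrArg _ hc.symm
  · rw [← MultilinearMap.map_sum]
    exact congrArg _ (funext fun i => (hy' i).symm)

omit [CharZero k] [IsAlgClosed k] in
theorem tmap_eig_cover {u : Fin n → Uo k (Bm k m)} {χ : Fin n → (Gm k m →* kˣ)}
    (hu : ∀ i, Eig (χ i) (u i)) (g : Gm k m) :
    Tmap k n (g : Bm k m →+* Bm k m) (tp k n u) = ((∏ i, χ i) g : k) • tp k n u := by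
  rw [Tmap_tp, MonoidHom.finsetProd_apply, Units.coe_prod, ← MultilinearMap.map_smul_univ]
  exact congrArg _ (funext fun i => hu i g)

theorem mem_spanBC_of_good {z : To k n (Bm k m)}
    (hz : z ∈ Submodule.span k
      {x | ∃ ξ : Fin n → (Bm k m)ˣ, GoodTuple ξ ∧ x = tp k n fun i => ulog k (ξ i)})
    (hinv : ∀ g : Gm k m, Tmap k n (g : Bm k m →+* Bm k m) z = z) :
    z ∈ spanBC k n (n + 1) m := by
  let Inv : Submodule k (To k n (Bm k m)) :=
    ⨅ g : Gm k m, LinearMap.eqLocus (Tmap k n (g : Bm k m →+* Bm k m)) LinearMap.id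
  have hInv : ∀ x, x ∈ Inv ↔ ∀ g : Gm k m, Tmap k n (g : Bm k m →+* Bm k m) x = x := fun x =>
    Submodule.mem_iInf _
  let Bad : Set (To k n (Bm k m)) := {x | ∃ ψ : Gm k m →* kˣ, ψ ≠ 1 ∧
    ∀ g : Gm k m, Tmap k n (g : Bm k m →+* Bm k m) x = (ψ g : k) • x}
  have h1 : z ∈ (spanBC k n (n + 1) m ⊓ Inv) ⊔ Submodule.span k Bad := by
    refine Submodule.span_le.2 ?_ hz
    rintro _ ⟨ξ, hξ, rfl⟩
    obtain ⟨ι, _, u, χ, hu, hc, he⟩ := split_cover hξ
    rw [he]
    refine Submodule.sum_mem _ fun r _ => ?_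
    by_cases hr : ∏ i, χ r i = 1
    · refine Submodule.mem_sup_left ⟨Submodule.subset_span ⟨u r, fun i => ⟨_, hu r i⟩,
        nb_of_isEigT fun i => ⟨_, hu r i⟩, bc_of_cyclic (hu r) hr (hc r), rfl⟩,
        (hInv _).2 fun g => ?_⟩
      rw [tmap_eig_cover (hu r), hr, MonoidHom.one_apply, Units.val_one, one_smul]
    · exact Submodule.mem_sup_right (Submodule.subset_span ⟨_, hr, tmap_eig_cover (hu r)⟩)
  obtain ⟨a, ⟨ha, ha'⟩, b, hb, hab⟩ := Submodule.mem_sup.1 h1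
  obtain ⟨r, c, x, hx⟩ := Submodule.mem_span_set'.1 hb
  choose ψ hψ hψ' using fun j => (x j).2
  have h2 : b = 0 := by
    rw [← hx]
    refine indep_cover (fun g : Gm k m => Tmap k n (g : Bm k m →+* Bm k m)) Finset.univ ψ hψ
      (fun j => c j • (x j : To k n (Bm k m))) (fun j g => ?_) fun g => ?_
    · rw [map_smul, hψ', smul_comm]
    · have h3 : b = z - a := eq_sub_of_add_eq' hab
      rw [hx, h3, map_sub, hinv, (hInv a).1 ha']
  rw [← hab, h2, add_zero]
  exact ha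

end

end

end Pool.Agent.MP_e2821c_ag.Cy
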