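import Pool.Agent.Lib.MP_e2821c_ag.Cy.Pts
import Pool.Agent.Lib.MP_e2821c_ag.Cy.Core3

namespace Pool.Agent.MP_e2821c_ag.Cy

open MvPolynomial
open scoped TensorProduct

universe u v w

noncomputable section

section Transport

variable {K Ω : Type u} [Field K] [Field Ω] [Algebra K Ω] (γ : K ≃+* K) (g : Ω ≃+* Ω)
  (h : ∀ a, g (algebraMap K Ω a) = algebraMap K Ω (γ a))

/-- The image of an intermediate field under a semilinear automorphism. -/
def img_coverb (L : IntermediateField K Ω) : IntermediateField K Ω :=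
  (L.toSubfield.comap (g.symm : Ω →+* Ω)).toIntermediateField fun a => by
    have : g.symm (algebraMap K Ω a) = algebraMap K Ω (γ.symm a) := by
      rw [RingEquiv.symm_apply_eq, h, RingEquiv.apply_symm_apply]
    change g.symm (algebraMap K Ω a) ∈ L
    rw [this]
    exact L.algebraMap_mem _

theorem mem_img_coverb (L : IntermediateField K Ω) (x : Ω) :
    x ∈ img_coverb γ g h L ↔ g.symm x ∈ L := Iff.rfl

/-- The isomorphism onto the image. -/
def iso_coverb (L : IntermediateField K Ω) : L ≃+* img_coverb γ g h L where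
  toFun x := ⟨g x, by rw [mem_img_coverb, RingEquiv.symm_apply_apply]; exact x.2⟩
  invFun x := ⟨g.symm x, x.2⟩
  left_inv x := Subtype.ext (g.symm_apply_apply _)
  right_inv x := Subtype.ext (g.apply_symm_apply _)
  map_mul' x y := Subtype.ext (map_mul g _ _)
  map_add' x y := Subtype.ext (map_add g _ _)

theorem iso_comm_coverb (L : IntermediateField K Ω) (a : K) :
    iso_coverb γ g h L (algebraMap K L a) = algebraMap K (img_coverb γ g h L) (γ a) :=
  Subtype.ext (h a)

end Transport

/-- Conjugation of Galois groups along compatible isomorphisms. -/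
theorem exists_conj_coverb {K L L' : Type u} [Field K] [Field L] [Field L'] [Algebra K L]
    [Algebra K L'] (γ : K ≃+* K) (ψ : L ≃+* L')
    (h : ∀ a, ψ (algebraMap K L a) = algebraMap K L' (γ a)) :
    ∃ f : (L ≃ₐ[K] L) →* (L' ≃ₐ[K] L'), Function.Surjective f := by
  have h' : ∀ a, ψ.symm (algebraMap K L' a) = algebraMap K L (γ.symm a) := fun a => by
    rw [RingEquiv.symm_apply_eq, h, RingEquiv.apply_symm_apply]
  let f : (L ≃ₐ[K] L) → (L' ≃ₐ[K] L') := fun σ =>
    { (ψ.symm.trans σ.toRingEquiv).trans ψ with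
      commutes' := fun a => by
        change ψ (σ (ψ.symm _)) = _
        rw [h', σ.commutes, h, RingEquiv.apply_symm_apply] }
  have hf : ∀ σ x, f σ x = ψ (σ (ψ.symm x)) := fun _ _ => rfl
  refine ⟨⟨⟨f, AlgEquiv.ext fun x => ?_⟩, fun σ τ => AlgEquiv.ext fun x => ?_⟩, fun τ => ?_⟩
  · rw [hf, AlgEquiv.one_apply, RingEquiv.apply_symm_apply, AlgEquiv.one_apply]
  · change f (σ * τ) x = f σ (f τ x)
    rw [hf, hf, hf, AlgEquiv.mul_apply, RingEquiv.symm_apply_apply]
  · refine ⟨{ (ψ.trans τ.toRingEquiv).trans ψ.symm with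
      commutes' := fun a => by
        change ψ.symm (τ (ψ _)) = _
        rw [h, τ.commutes, h', RingEquiv.symm_apply_apply] }, AlgEquiv.ext fun x => ?_⟩
    change ψ (ψ.symm (τ (ψ (ψ.symm x)))) = τ x
    rw [RingEquiv.apply_symm_apply, RingEquiv.apply_symm_apply]

theorem transport_coverb {K L L' : Type u} [Field K] [Field L] [Field L'] [Algebra K L]
    [Algebra K L'] (γ : K ≃+* K) (ψ : L ≃+* L')
    (h : ∀ a, ψ (algebraMap K L a) = algebraMap K L' (γ a)) {Q : Prop}
    (hL : FiniteDimensional K L ∧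
      ((IsGalois K L ∧ IsCyclic (L ≃ₐ[K] L)) ∨ (Q ∧ IsAbelianGalois K L))) :
    FiniteDimensional K L' ∧
      ((IsGalois K L' ∧ IsCyclic (L' ≃ₐ[K] L')) ∨ (Q ∧ IsAbelianGalois K L')) := by
  have hc : (algebraMap K L').comp (γ : K →+* K) = (ψ : L →+* L').comp (algebraMap K L) :=
    RingHom.ext fun a => (h a).symm
  obtain ⟨f, hf⟩ := exists_conj_coverb γ ψ h
  obtain ⟨h1, h2⟩ := hL
  refine ⟨Module.Finite.of_equiv_equiv γ ψ hc, ?_⟩
  rcases h2 with ⟨h2, h3⟩ | ⟨h2, h3⟩
  · exact Or.inl ⟨IsGalois.of_equiv_equiv hc, isCyclic_of_surjective f hf⟩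
  · have h4 : IsGalois K L' := IsGalois.of_equiv_equiv hc
    have h5 : IsMulCommutative (L' ≃ₐ[K] L') := ⟨⟨fun a b => by
      obtain ⟨a, rfl⟩ := hf a
      obtain ⟨b, rfl⟩ := hf b
      rw [← map_mul, ← map_mul, h3.toIsMulCommutative.is_comm.comm]⟩⟩
    exact Or.inr ⟨h2, { h4, h5 with }⟩

theorem range_coverb {F k B : Type u} [Field F] [Field k] [IsAlgClosed k] [Algebra F k]
    [Algebra.IsIntegral F k] [CommRing B] [IsDomain B] (j φ : k →+* B)
    (h : φ.comp (algebraMap F k) = j.comp (algebraMap F k)) :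
    ∃ γ : k ≃+* k, ∀ c, φ c = j (γ c) := by
  have hj : Function.Injective j := j.injective
  have key : ∀ c, ∃ c', j c' = φ c := by
    intro c
    have hc : IsIntegral F c := Algebra.IsIntegral.isIntegral c
    have hm : ((minpoly F c).map (algebraMap F k)).Monic := (minpoly.monic hc).map _
    have hs : ((minpoly F c).map (algebraMap F k)).Splits := IsAlgClosed.splits _
    have hr : φ c ∈ (((minpoly F c).map (algebraMap F k)).map j).roots := by
      rw [Polynomial.mem_roots (hm.map j).ne_zero, Polynomial.IsRoot.def, Polynomial.map_map, ← h,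
        Polynomial.eval_map, ← Polynomial.hom_eval₂, ← Polynomial.aeval_def, minpoly.aeval,
        map_zero]
    rw [hs.roots_map_of_injective hj, Multiset.mem_map] at hr
    obtain ⟨c', -, hc'⟩ := hr
    exact ⟨c', hc'⟩
  choose γ hγ using key
  let γ' : k →ₐ[F] k :=
    { toFun := γ
      map_one' := hj (by rw [hγ, map_one, map_one])
      map_mul' := fun a b => hj (by rw [hγ, map_mul, map_mul, hγ, hγ])
      map_zero' := hj (by rw [hγ, map_zero, map_zero])
      map_add' := fun a b => hj (by rw [hγ, map_add, map_add, hγ, hγ])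
      commutes' := fun r => hj ((hγ _).trans (DFunLike.congr_fun h r)) }
  exact ⟨RingEquiv.ofBijective γ'.toRingHom (Algebra.IsAlgebraic.algHom_bijective γ'),
    fun c => (hγ c).symm⟩

/-- An automorphism over the ground simplex extends to a semilinear automorphism. -/
theorem exists_semi_coverb {F k : Type u} [Field F] [Field k] [IsAlgClosed k] [Algebra F k]
    [Algebra.IsIntegral F k] {m : ℕ} (g : Bm k m ≃+* Bm k m)
    (hg : ∀ r, g (iB k m (resR F m k r)) = iB k m (resR F m k r)) :
    ∃ (γ : Km k m ≃+* Km k m) (g' : Omm k m ≃+* Omm k m),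
      (∀ a, g' (algebraMap (Km k m) (Omm k m) a) = algebraMap (Km k m) (Omm k m) (γ a)) ∧
      ∀ x : Bm k m, g' (vB k m x) = vB k m (g x) := by
  obtain ⟨γ₀, h0⟩ := range_coverb (F := F) ((iB k m).comp C)
    ((g : Bm k m →+* Bm k m).comp ((iB k m).comp C)) (RingHom.ext fun r => by
      have := hg (C r)
      simpa only [RingHom.comp_apply, resR, MvPolynomial.map_C, RingEquiv.coe_toRingHom]
        using this)
  let γ₁ : Base k m ≃+* Base k m := MvPolynomial.mapEquiv (Fin m) γ₀
  have h1 : (g : Bm k m →+* Bm k m).comp (iB k m) =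
      (iB k m).comp (γ₁ : Base k m →+* Base k m) := by
    refine MvPolynomial.ringHom_ext (fun c => ?_) fun i => ?_
    · have := h0 c
      simpa [γ₁] using this
    · have := hg (X i)
      simpa [γ₁, resR] using this
  obtain ⟨g', hg'⟩ := exists_ext (Base k m) g
  refine ⟨IsFractionRing.ringEquivOfRingEquiv γ₁, g', fun a => ?_, hg'⟩
  refine RingHom.congr_fun (f := (g' : Omm k m →+* Omm k m).comp (algebraMap (Km k m) (Omm k m)))
    (g := (algebraMap (Km k m) (Omm k m)).comp
      ((IsFractionRing.ringEquivOfRingEquiv γ₁ : Km k m ≃+* Km k m) : Km k m →+* Km k m))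
    (IsFractionRing.ringHom_ext (A := Base k m) fun r => ?_) a
  change g' (algebraMap (Km k m) (Omm k m) (algebraMap (Base k m) (Km k m) r)) =
    algebraMap (Km k m) (Omm k m) (IsFractionRing.ringEquivOfRingEquiv γ₁
      (algebraMap (Base k m) (Km k m) r))
  rw [IsFractionRing.ringEquivOfRingEquiv_algebraMap, ← IsScalarTower.algebraMap_apply,
    ← IsScalarTower.algebraMap_apply]
  exact (hg' (iB k m r)).trans (congrArg Subtype.val (RingHom.congr_fun h1 r))

/-- The embedding of a cover lands in the absolute integral closure. -/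
theorem exists_pt_coverb {F : Type u} [Field F] {n m : ℕ} (P : Elem F n m)
    (L : IntermediateField (GeomField F m) (AlgebraicClosure (GeomField F m)))
    (hL : CoverIn F n m P L) :
    ∃ e : Amb F n m →+* Bm (AlgebraicClosure F) m,
      e.comp (proj F n m) = (iB (AlgebraicClosure F) m).comp (resR F m (AlgebraicClosure F)) ∧
      RingHom.ker e = P.1 ∧ ∀ a, vB (AlgebraicClosure F) m (e a) ∈ L := by
  obtain ⟨e, hk, he⟩ := hL
  let e' : Amb F n m →+* Omm (AlgebraicClosure F) m := (L.val : L →+* _).comp e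
  have he' : e'.comp (proj F n m) = (algebraMap (Base (AlgebraicClosure F) m)
      (Omm (AlgebraicClosure F) m)).comp (resR F m (AlgebraicClosure F)) :=
    RingHom.ext fun r => congrArg Subtype.val (he r)
  have hint : ((Ideal.Quotient.mk P.1).comp (proj F n m)).IsIntegral :=
    RingHom.Finite.to_isIntegral P.2.2.1
  have hi : ∀ a, e' a ∈ integralClosure (Base (AlgebraicClosure F) m)
      (Omm (AlgebraicClosure F) m) := fun a => by
    obtain ⟨p, hp, hp0⟩ := hint (Ideal.Quotient.mk P.1 a)
    have h1 : Polynomial.eval₂ (proj F n m) a p ∈ P.1 := by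
      rw [← Ideal.Quotient.eq_zero_iff_mem, Polynomial.hom_eval₂]
      exact hp0
    rw [← hk, RingHom.mem_ker] at h1
    have h2 : e' (Polynomial.eval₂ (proj F n m) a p) = 0 := by
      change L.val (e _) = 0
      rw [h1, map_zero]
    rw [Polynomial.hom_eval₂, he'] at h2
    exact ⟨p.map (resR F m (AlgebraicClosure F)), hp.map _, by
      rw [Polynomial.eval₂_map]; exact h2⟩
  refine ⟨e'.codRestrict (integralClosure (Base (AlgebraicClosure F) m)
    (Omm (AlgebraicClosure F) m)) hi, RingHom.ext fun r => Subtype.ext (RingHom.congr_fun he' r),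
    ?_, fun a => (e a).2⟩
  rw [← hk]
  ext a
  rw [RingHom.mem_ker, RingHom.mem_ker, Subtype.ext_iff, Subtype.ext_iff]
  rfl

theorem goodTuple_of_cover {F : Type u} [Field F] [CharZero F] {n m : ℕ} (P : Elem F n m)
    (hP : CyclicCover F n m P ∨ (n ≤ 2 ∧ AbelianCover F n m P))
    (e : Amb F n m →+* Bm (AlgebraicClosure F) m)
    (he : e ∈ pts P ((ac (Base (AlgebraicClosure F) m)).comap (resR F m (AlgebraicClosure F)))) :
    GoodTuple (k := AlgebraicClosure F) (xval e) := by
  have hP' : ∃ L : IntermediateField (GeomField F m) (AlgebraicClosure (GeomField F m)),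
      (FiniteDimensional (GeomField F m) L ∧ ((IsGalois (GeomField F m) L ∧
        IsCyclic (L ≃ₐ[GeomField F m] L)) ∨ (n ≤ 2 ∧ IsAbelianGalois (GeomField F m) L))) ∧
      CoverIn F n m P L := by
    rcases hP with ⟨L, h1, h2, h3, h4⟩ | ⟨hn, L, h1, h2, h3⟩
    · exact ⟨L, ⟨h1, Or.inl ⟨h2, h3⟩⟩, h4⟩
    · exact ⟨L, ⟨h1, Or.inr ⟨hn, h2⟩⟩, h3⟩
  obtain ⟨L, hL, hc⟩ := hP'
  obtain ⟨e₀, h1, h2, h3⟩ := exists_pt_coverb P L hc
  let : Algebra (Base F m) (Bm (AlgebraicClosure F) m) :=
    ((iB (AlgebraicClosure F) m).comp (resR F m (AlgebraicClosure F))).toAlgebra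
  have hr : (resR F m (AlgebraicClosure F)).IsIntegral := by
    let : Algebra (Base F m) (Base (AlgebraicClosure F) m) := MvPolynomial.algebraMvPolynomial
    exact fun x => Algebra.IsIntegral.isIntegral (R := Base F m) x
  have : Algebra.IsIntegral (Base F m) (Bm (AlgebraicClosure F) m) :=
    ⟨RingHom.IsIntegral.trans _ _ hr fun x =>
      Algebra.IsIntegral.isIntegral (R := Base (AlgebraicClosure F) m) x⟩
  have : FaithfulSMul (Base F m) (Bm (AlgebraicClosure F) m) :=
    (faithfulSMul_iff_algebraMap_injective _ _).2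
      ((FaithfulSMul.algebraMap_injective (Base (AlgebraicClosure F) m) _).comp
        (MvPolynomial.map_injective _ (algebraMap F (AlgebraicClosure F)).injective))
  obtain ⟨g, hg⟩ := pts_transitive (Bm (AlgebraicClosure F) m) P (e := e₀) (e' := e) ⟨h1, h2⟩ he
  obtain ⟨γ, g', hγ, hg'⟩ := exists_semi_coverb (F := F) g.toRingEquiv fun r => g.commutes r
  obtain ⟨h4, h5⟩ := transport_coverb γ (iso_coverb γ g' hγ L) (iso_comm_coverb γ g' hγ L) hL
  refine ⟨img_coverb γ g' hγ L, h4, h5, fun i => ?_⟩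
  have h6 : vB (AlgebraicClosure F) m (xval e i) =
      g' (vB (AlgebraicClosure F) m (e₀ (xu F n m i))) := by
    rw [hg', hg]
    rfl
  rw [mem_img_coverb, h6, RingEquiv.symm_apply_apply]
  exact h3 _

end

end Pool.Agent.MP_e2821c_ag.Cy
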