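import Pool.Agent.Lib.MP_e2821c_ag.Cy.PlusB

namespace Pool.Agent.MP_e2821c_ag.Cy

open MvPolynomial
open scoped TensorProduct

universe u v w

noncomputable section

theorem plusMap_map_d_Descend {O O' : Type u} [CommRing O] [CommRing O'] (φ : O →+* O')
    {𝕂 : Type w} [CommRing 𝕂] (H : RFun.{u} 𝕂) (m : ℕ) (s : Plus H (Base O (m + 1))) :
    plusMap H (MvPolynomial.map φ : Base O m →+* Base O' m) ((plusS H O).d m s) =
      (plusS H O').d m
        (plusMap H (MvPolynomial.map φ : Base O (m + 1) →+* Base O' (m + 1)) s) := by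
  rw [SMod.d_apply, SMod.d_apply, map_sum]
  refine Finset.sum_congr rfl fun i _ => ?_
  rw [map_smul]
  congr 1
  have e : (MvPolynomial.map φ : Base O m →+* Base O' m).comp (smR O i.succAbove) =
      (smR O' i.succAbove).comp (MvPolynomial.map φ : Base O (m + 1) →+* Base O' (m + 1)) :=
    RingHom.ext fun p => map_sm φ i.succAbove p
  change plusMap H ((MvPolynomial.map φ : Base O m →+* Base O' m).comp (smR O i.succAbove)) s =
    plusMap H ((smR O' i.succAbove).comp
      (MvPolynomial.map φ : Base O (m + 1) →+* Base O' (m + 1))) s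
  rw [e]

theorem plusMap_resR_d (F k : Type u) [Field F] [Field k] [Algebra F k] {𝕂 : Type w} [CommRing 𝕂]
    (H : RFun.{u} 𝕂) (m : ℕ) (s : Plus H (Base F (m + 1))) :
    plusMap H (resR F m k) ((plusS H F).d m s) =
      (plusS H k).d m (plusMap H (resR F (m + 1) k) s) :=
  plusMap_map_d_Descend (algebraMap F k) H m s

theorem isIntegral_comp_Descend {R R' : Type u} [CommRing R] [CommRing R'] [IsDomain R']
    (φ : R →+* R') (hi : φ.IsIntegral) : ((algebraMap R' (AC R')).comp φ).IsIntegral :=
  RingHom.IsIntegral.trans _ _ hi fun x => Algebra.IsIntegral.isIntegral (R := R') x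

theorem inj_Descend {𝕂 : Type w} [CommRing 𝕂] {H : RFun.{u} 𝕂} {R R' : Type u} [CommRing R]
    [CommRing R'] [IsDomain R'] (φ : R →+* R') (hi : φ.IsIntegral) (hj : Function.Injective φ)
    {s s' : Plus H R} (h : plusMap H φ s = plusMap H φ s') : s = s' := by
  let : Algebra R (AC R') := ((algebraMap R' (AC R')).comp φ).toAlgebra
  have : Algebra.IsIntegral R (AC R') := ⟨isIntegral_comp_Descend φ hi⟩
  have : FaithfulSMul R (AC R') := (faithfulSMul_iff_algebraMap_injective _ _).2
    ((FaithfulSMul.algebraMap_injective R' (AC R')).comp hj)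
  refine plus_ext (AC R') ?_
  exact congrArg (fun t : Plus H R' => t.1 (ac R')) h

theorem avg_Descend {𝕂 : Type w} [Field 𝕂] [CharZero 𝕂] {H : RFun.{u} 𝕂} (hH : H.Finitary)
    {R R' : Type u} [CommRing R] [IsDomain R] [IsIntegrallyClosed R] [Algebra ℚ R]
    [CommRing R'] [IsDomain R'] (φ : R →+* R') (hi : φ.IsIntegral) (hj : Function.Injective φ)
    (P : (R' →+* R') → Prop)
    (hP : ∀ g : AC R' →+* AC R', g.comp ((algebraMap R' (AC R')).comp φ) =
      (algebraMap R' (AC R')).comp φ → ∃ γ, P γ ∧
        g.comp (algebraMap R' (AC R')) = (algebraMap R' (AC R')).comp γ)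
    (β : Plus H R') : ∃ (N : ℕ) (γ : Fin N → R' →+* R') (β' : Plus H R), 0 < N ∧ (∀ i, P (γ i)) ∧
      plusMap H φ β' = ∑ i, plusMap H (γ i) β := by
  let : Algebra R (AC R') := ((algebraMap R' (AC R')).comp φ).toAlgebra
  have : Algebra.IsIntegral R (AC R') := ⟨isIntegral_comp_Descend φ hi⟩
  have : FaithfulSMul R (AC R') := (faithfulSMul_iff_algebraMap_injective _ _).2
    ((FaithfulSMul.algebraMap_injective R' (AC R')).comp hj)
  obtain ⟨N, g, hN, hg⟩ := exists_average (R := R) (AC R') hH (β.1 (ac R'))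
  obtain ⟨β', hβ'⟩ := exists_plus (R := R) (AC R') hH _ hg
  choose γ hγ hγ' using fun i => hP (g i : AC R' →+* AC R')
    (RingHom.ext fun r => (g i).commutes r)
  refine ⟨N, γ, β', hN, hγ, plus_ext (AC R') ?_⟩
  rw [Plus.sum_apply]
  refine hβ'.trans (Finset.sum_congr rfl fun i _ => ?_)
  exact β.nat (ac R') ((ac R').comap (γ i)) (g i : AC R' →+* AC R')
    (hγ' i)

theorem range_Descend {F k B : Type u} [Field F] [Field k] [IsAlgClosed k] [Algebra F k]
    [Algebra.IsIntegral F k] [CommRing B] [IsDomain B] (j φ : k →+* B)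
    (h : φ.comp (algebraMap F k) = j.comp (algebraMap F k)) :
    ∃ γ : k →+* k, γ.comp (algebraMap F k) = algebraMap F k ∧ φ = j.comp γ := by
  have hj : Function.Injective j := j.injective
  have key : ∀ c, ∃ c', j c' = φ c := by
    intro c
    have hc : IsIntegral F c := Algebra.IsIntegral.isIntegral c
    have hm : ((minpoly F c).map (algebraMap F k)).Monic := (minpoly.monic hc).map _
    have hs : ((minpoly F c).map (algebraMap F k)).Splits := IsAlgClosed.splits _
    have hr : φ c ∈ (((minpoly F c).map (algebraMap F k)).map j).roots := by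
      rw [Polynomial.mem_roots (hm.map j).ne_zero, Polynomial.IsRoot.def, Polynomial.map_map, ← h,
        Polynomial.eval_map, ← Polynomial.hom_eval₂, ← Polynomial.aeval_def, minpoly.aeval,
        map_zero]
    rw [hs.roots_map_of_injective hj, Multiset.mem_map] at hr
    obtain ⟨c', -, hc'⟩ := hr
    exact ⟨c', hc'⟩
  choose γ hγ using key
  refine ⟨⟨⟨⟨γ, hj ?_⟩, fun a b => hj ?_⟩, hj ?_, fun a b => hj ?_⟩, ?_, ?_⟩
  · rw [hγ, map_one, map_one]
  · rw [hγ, map_mul, map_mul, hγ, hγ]
  · rw [map_zero]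
    exact (hγ 0).trans (map_zero φ)
  · rw [map_add]
    change j (γ (a + b)) = j (γ a) + j (γ b)
    rw [hγ, hγ, hγ, map_add]
  · refine RingHom.ext fun r => hj ?_
    exact (hγ _).trans (DFunLike.congr_fun h r)
  · exact RingHom.ext fun c => (hγ c).symm

theorem resR_isIntegral_Descend (F k : Type u) [Field F] [Field k] [Algebra F k]
    [Algebra.IsIntegral F k] (m : ℕ) : (resR F m k).IsIntegral := by
  let : Algebra (Base F m) (Base k m) := MvPolynomial.algebraMvPolynomial
  exact fun x => Algebra.IsIntegral.isIntegral (R := Base F m) x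

theorem resR_injective_Descend (F k : Type u) [Field F] [Field k] [Algebra F k] (m : ℕ) :
    Function.Injective (resR F m k) :=
  MvPolynomial.map_injective _ (algebraMap F k).injective

theorem map_resR_Descend (F k : Type u) [Field F] [Field k] [Algebra F k] (m : ℕ) (γ : k →+* k)
    (hγ : γ.comp (algebraMap F k) = algebraMap F k) :
    (MvPolynomial.map γ : Base k m →+* Base k m).comp (resR F m k) = resR F m k :=
  RingHom.ext fun p => by
    rw [RingHom.comp_apply, resR, MvPolynomial.map_map, hγ]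

theorem descend (F : Type u) [Field F] [CharZero F] {𝕂 : Type w} [Field 𝕂] [CharZero 𝕂]
    {H : RFun.{u} 𝕂} (hH : H.Finitary) (m : ℕ) (s : Plus H (Base F m))
    (h : (plusS H (AlgebraicClosure F)).IsBd (m := m)
      (plusMap H (resR F m (AlgebraicClosure F)) s)) : (plusS H F).IsBd (m := m) s := by
  obtain ⟨β, hβ⟩ := h
  obtain ⟨N, γ, β', hN, hγ, hβ'⟩ := avg_Descend hH (resR F (m + 1) (AlgebraicClosure F))
    (resR_isIntegral_Descend F _ _) (resR_injective_Descend F _ _)
    (fun ψ => ∃ γ : AlgebraicClosure F →+* AlgebraicClosure F,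
      γ.comp (algebraMap F _) = algebraMap F _ ∧ ψ = MvPolynomial.map γ) (by
      intro g hg
      obtain ⟨γ, h1, h2⟩ := range_Descend (F := F)
        ((algebraMap (Base (AlgebraicClosure F) (m + 1))
          (AC (Base (AlgebraicClosure F) (m + 1)))).comp C)
        (g.comp ((algebraMap (Base (AlgebraicClosure F) (m + 1))
          (AC (Base (AlgebraicClosure F) (m + 1)))).comp C)) (RingHom.ext fun r => by
            have := DFunLike.congr_fun hg (C r)
            simpa only [RingHom.comp_apply, resR, MvPolynomial.map_C] using this)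
      refine ⟨_, ⟨γ, h1, rfl⟩, MvPolynomial.ringHom_ext (fun c => ?_) fun i => ?_⟩
      · have := DFunLike.congr_fun h2 c
        simpa only [RingHom.comp_apply, MvPolynomial.map_C] using this
      · have := DFunLike.congr_fun hg (X i)
        simpa only [RingHom.comp_apply, resR, MvPolynomial.map_X] using this) β
  refine ⟨(N : 𝕂)⁻¹ • β', inj_Descend (resR F m (AlgebraicClosure F))
    (resR_isIntegral_Descend F _ _) (resR_injective_Descend F _ _) ?_⟩
  have hN' : (N : 𝕂) ≠ 0 := Nat.cast_ne_zero.2 hN.ne'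
  have key : ∀ i, (plusS H (AlgebraicClosure F)).d m (plusMap H (γ i) β) =
      plusMap H (resR F m (AlgebraicClosure F)) s := by
    intro i
    obtain ⟨δ, h1, h2⟩ := hγ i
    rw [h2, ← plusMap_map_d_Descend, hβ, ← plusMap_comp, map_resR_Descend F _ m δ h1]
  rw [map_smul, map_smul, plusMap_resR_d, hβ', map_sum]
  simp only [key]
  rw [Finset.sum_const, Finset.card_univ, Fintype.card_fin, ← Nat.cast_smul_eq_nsmul 𝕂, smul_smul,
    inv_mul_cancel₀ hN', one_smul]

end

end Pool.Agent.MP_e2821c_ag.Cy
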