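import Pool.Agent.Lib.MP_e2821c_ag.Cy.Face

namespace Pool.Agent.MP_e2821c_ag.Cy

open MvPolynomial
open scoped TensorProduct

universe u v w

noncomputable section

variable {F : Type u} [Field F] [CharZero F] (𝕂 : Type u) [Field 𝕂] [CharZero 𝕂] {n m : ℕ}

omit [CharZero F] [CharZero 𝕂] in
private theorem castK_single_Descent (P : Elem F n m) (a : ℤ) :
    castK F 𝕂 n m (Finsupp.single P a) = Finsupp.single P (a : 𝕂) := by
  simp [castK]

omit [CharZero 𝕂] in
private theorem d_phi_Descent (P : Elem F n (m + 1)) :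
    (plusS (W 𝕂 n) F).d m (phi 𝕂 P) =
      phiL F 𝕂 n m (castK F 𝕂 n m (bd F n m (Finsupp.single P 1))) := by
  rw [SMod.d_apply, bd, LinearMap.sum_apply, map_sum, map_sum]
  refine Finset.sum_congr rfl fun i _ => ?_
  rw [LinearMap.smul_apply, map_zsmul, map_zsmul, ← phi_face, ← Int.cast_smul_eq_zsmul 𝕂]
  push_cast
  rfl

omit [CharZero 𝕂] in
theorem phiL_bd (c : Cor F n (m + 1)) :
    (plusS (W 𝕂 n) F).d m (phiL F 𝕂 n (m + 1) (castK F 𝕂 n (m + 1) c)) =
      phiL F 𝕂 n m (castK F 𝕂 n m (bd F n m c)) := by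
  induction c using Finsupp.induction_linear with
  | zero => simp only [map_zero]
  | add a b ha hb => simp only [map_add, ha, hb]
  | single P a =>
    have h1 : phiL F 𝕂 n (m + 1) (Finsupp.single P 1) = phi 𝕂 P := by simp [phiL]
    rw [← Finsupp.smul_single_one, map_zsmul, map_zsmul, map_zsmul, map_zsmul, map_zsmul,
      map_zsmul, castK_single_Descent, Int.cast_one, h1, d_phi_Descent]

theorem exists_bd_of_phi (c : Cor F n m) (β : Plus (W 𝕂 n) (Base F (m + 1)))
    (h : (phiL F 𝕂 n m (castK F 𝕂 n m c) - (plusS (W 𝕂 n) F).d m β).1 (ac (Base F m)) ∈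
      degW 𝕂 n (AC (Base F m))) :
    ∃ N : ℕ, 0 < N ∧ ∃ b : Cor F n (m + 1), bd F n m b - N • c ∈ degen F n m := by
  obtain ⟨l, rfl⟩ := phiL_surjective (F := F) 𝕂 β
  have h1 : (plusS (W 𝕂 n) F).d m (phiL F 𝕂 n (m + 1) l) = phiL F 𝕂 n m
      (∑ P ∈ l.support, l P • castK F 𝕂 n m (bd F n m (Finsupp.single P 1))) := by
    rw [phiL, Finsupp.linearCombination_apply, Finsupp.sum, map_sum, map_sum]
    exact Finset.sum_congr rfl fun P _ => by rw [map_smul, map_smul, d_phi_Descent]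
  rw [h1, ← map_sub, phiL_deg] at h
  obtain ⟨r, hr⟩ := (Algebra.linearMap ℚ 𝕂).exists_leftInverse_of_injective
    (LinearMap.ker_eq_bot.2 (algebraMap ℚ 𝕂).injective)
  have hr1 : r 1 = 1 := by simpa using LinearMap.congr_fun hr 1
  obtain ⟨⟨s, hs⟩, hz⟩ := IsLocalization.exist_integer_multiples (nonZeroDivisors ℤ) l.support
    fun P => r (l P)
  choose! z hz using hz
  have hs0 : s ≠ 0 := nonZeroDivisors.ne_zero hs
  refine ⟨s.natAbs * s.natAbs, Nat.mul_pos (Int.natAbs_pos.2 hs0) (Int.natAbs_pos.2 hs0),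
    ∑ P ∈ l.support, (s * z P) • Finsupp.single P 1, ?_⟩
  rw [degen, Finsupp.mem_supported']
  intro Q hQ
  have h2 : (c Q : 𝕂) = ∑ P ∈ l.support, l P * (bd F n m (Finsupp.single P 1) Q : ℤ) := by
    have h3 := mt (h Q) hQ
    rw [Finsupp.notMem_support_iff, Finsupp.sub_apply, sub_eq_zero, Finsupp.finsetSum_apply] at h3
    exact h3
  have h4 : (c Q : ℚ) = ∑ P ∈ l.support, r (l P) * (bd F n m (Finsupp.single P 1) Q : ℤ) := by
    have h5 := congrArg r h2
    rw [map_sum, ← zsmul_one, map_zsmul, hr1, zsmul_one] at h5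
    rw [h5]
    exact Finset.sum_congr rfl fun P _ => by
      rw [mul_comm, ← zsmul_eq_mul, map_zsmul, zsmul_eq_mul, mul_comm]
  rw [map_sum, Finsupp.sub_apply, Finsupp.finsetSum_apply, sub_eq_zero, Finsupp.smul_apply,
    nsmul_eq_mul, Nat.cast_mul, Int.natAbs_mul_self']
  refine Int.cast_injective (α := ℚ) ?_
  rw [Int.cast_mul, h4, Finset.mul_sum, Int.cast_sum]
  refine Finset.sum_congr rfl fun P hP => ?_
  have h6 : (z P : ℚ) = s * r (l P) := by simpa using hz P hP
  rw [map_zsmul, Finsupp.smul_apply, smul_eq_mul]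
  push_cast
  rw [h6]
  ring

end

end Pool.Agent.MP_e2821c_ag.Cy
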