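import Pool.Agent.Lib.MP_e2821c_ag.Cy.Small
import Pool.Agent.Lib.MP_e2821c_ag.Cy.Deriv
import Pool.Agent.Lib.MP_e2821c_ag.Cy.UAlg
import Pool.Agent.Lib.MP_e2821c_ag.Cy.Lift

namespace Pool.Agent.MP_e2821c_ag.Cy

open MvPolynomial
open scoped TensorProduct

universe u v w

noncomputable section

variable {k : Type u} [Field k] [CharZero k] [IsAlgClosed k] {m : ℕ}

omit [CharZero k] [IsAlgClosed k] in
theorem vB_inj_eigen : Function.Injective (vB k m) := Subtype.val_injective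

omit [CharZero k] [IsAlgClosed k] in
theorem vB_iB_eigen (p : Base k m) :
    vB k m (iB k m p) = algebraMap (Base k m) (Omm k m) p := rfl

omit [CharZero k] [IsAlgClosed k] in
theorem alg_C_eigen (c : k) :
    algebraMap (Base k m) (Omm k m) (C c) = algebraMap k (Omm k m) c := by
  rw [IsScalarTower.algebraMap_apply k (Base k m) (Omm k m), MvPolynomial.algebraMap_eq]

omit [CharZero k] [IsAlgClosed k] in
theorem alg_K_eigen (p : Base k m) :
    algebraMap (Km k m) (Omm k m) (algebraMap (Base k m) (Km k m) p) =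
      algebraMap (Base k m) (Omm k m) p :=
  (IsScalarTower.algebraMap_apply (Base k m) (Km k m) (Omm k m) p).symm

omit [CharZero k] [IsAlgClosed k] in
theorem alg_inj_eigen : Function.Injective (algebraMap (Base k m) (Omm k m)) := fun a b h => by
  rw [← alg_K_eigen, ← alg_K_eigen] at h
  exact IsFractionRing.injective (Base k m) (Km k m) ((algebraMap (Km k m) (Omm k m)).injective h)

omit [CharZero k] [IsAlgClosed k] in
theorem iB_inj_eigen : Function.Injective (iB k m) := fun a b h =>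
  alg_inj_eigen (by rw [← vB_iB_eigen, ← vB_iB_eigen, h])

omit [CharZero k] [IsAlgClosed k] in
theorem vB_cB_eigen (c : k) : vB k m (cB k m c) = algebraMap k (Omm k m) c := alg_C_eigen c

omit [CharZero k] [IsAlgClosed k] in
theorem ulog_mem_eigen (x : (Bm k m)ˣ) (hx : (x : Bm k m) ∈ (cB k m).range) :
    ulog k x ∈ LinearMap.range (Umap k (cB k m)) := by
  obtain ⟨c, hc⟩ := hx
  have hc0 : c ≠ 0 := by
    rintro rfl
    rw [map_zero] at hc
    exact x.ne_zero hc.symm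
  refine ⟨ulog k (Units.mk0 c hc0), ?_⟩
  rw [Umap_ulog]
  congr 1
  exact Units.ext hc

omit [IsAlgClosed k] in
theorem ulog_mem_of_pow_eigen (x : (Bm k m)ˣ)
    (hx : ∀ g : Gm k m, ∃ M : ℕ, 0 < M ∧ (umap (g : Bm k m →+* Bm k m) x) ^ M = x ^ M) :
    ulog k x ∈ LinearMap.range (Umap k (cB k m)) := by
  classical
  have hfin := finite_orbit (R := Base k m) (x : Bm k m)
  have hy : ∀ y : Bm k m, ∃ M : ℕ, 0 < M ∧
      (y ∈ (Set.range fun g : Gm k m => g (x : Bm k m)) → y ^ M = (x : Bm k m) ^ M) := by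
    intro y
    by_cases h : y ∈ (Set.range fun g : Gm k m => g (x : Bm k m))
    · obtain ⟨g, rfl⟩ := h
      obtain ⟨M, hM, hM'⟩ := hx g
      exact ⟨M, hM, fun _ => by simpa using congrArg Units.val hM'⟩
    · exact ⟨1, one_pos, fun h' => absurd h' h⟩
  choose M hM hM' using hy
  set N : ℕ := ∏ y ∈ hfin.toFinset, M y with hN
  have hN0 : 0 < N := Finset.prod_pos fun y _ => hM y
  have hfix : ∀ g : Gm k m, g ((x : Bm k m) ^ N) = (x : Bm k m) ^ N := by
    intro g
    have hmem : g (x : Bm k m) ∈ (Set.range fun g : Gm k m => g (x : Bm k m)) := ⟨g, rfl⟩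
    obtain ⟨t, ht⟩ : M (g (x : Bm k m)) ∣ N :=
      Finset.dvd_prod_of_mem M (hfin.mem_toFinset.2 hmem)
    rw [map_pow, ht, pow_mul, pow_mul, hM' _ hmem]
  have hfix' : ∀ g : Gm k m, g ((x⁻¹ : (Bm k m)ˣ) ^ N : Bm k m) = (x⁻¹ : (Bm k m)ˣ) ^ N := by
    intro g
    have hne : (x : Bm k m) ^ N ≠ 0 := pow_ne_zero _ x.ne_zero
    have h1 : (x : Bm k m) ^ N * ((x⁻¹ : (Bm k m)ˣ) : Bm k m) ^ N = 1 := by
      rw [← mul_pow, Units.mul_inv, one_pow]
    apply mul_left_cancel₀ hne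
    rw [h1]
    conv_lhs => rw [← hfix g, ← map_mul, h1, map_one]
  obtain ⟨p, hp⟩ := mem_range_of_fixed (R := Base k m) _ hfix
  obtain ⟨q, hq⟩ := mem_range_of_fixed (R := Base k m) _ hfix'
  have hpq : p * q = 1 := iB_inj_eigen (by
    rw [map_mul, map_one]
    change algebraMap _ _ p * algebraMap _ _ q = 1
    rw [hp, hq, ← mul_pow, Units.mul_inv, one_pow])
  obtain ⟨c, -, hc⟩ := MvPolynomial.isUnit_iff_eq_C_of_isReduced.1 (IsUnit.of_mul_eq_one q hpq)
  have hmem : ulog k (x ^ N) ∈ LinearMap.range (Umap k (cB k m)) :=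
    ulog_mem_eigen _ ⟨c, by
      rw [Units.val_pow_eq_pow_val, ← hp, hc]
      rfl⟩
  rw [ulog_pow] at hmem
  have hNk : (N : k) ≠ 0 := Nat.cast_ne_zero.2 hN0.ne'
  have := Submodule.smul_mem _ (N : k)⁻¹ hmem
  rwa [smul_smul, inv_mul_cancel₀ hNk, one_smul] at this

omit [CharZero k] [IsAlgClosed k] in
theorem C_mem_eigen {𝒪 : ValuationSubring (Omm k m)} (h𝒪 : IsInf 𝒪) (c : k) :
    algebraMap k (Omm k m) c ∈ 𝒪 := by
  have := (h𝒪 (C c) 1 one_ne_zero).2 (by simp)
  rwa [map_one, div_one, alg_C_eigen] at this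

omit [IsAlgClosed k] in
theorem isAlgebraic_of_orbit_eigen {𝒪 : ValuationSubring (Omm k m)} (h𝒪 : IsInf 𝒪) (x : Bm k m)
    (hx : ∀ g : Gm k m, vB k m (g x) ∈ 𝒪) : IsAlgebraic k (vB k m x) := by
  classical
  have hfin := finite_orbit (R := Base k m) x
  set S : Finset (Bm k m) := hfin.toFinset with hS
  have hmemS : ∀ y, y ∈ S ↔ ∃ g : Gm k m, g x = y := fun y => by
    rw [hS, Set.Finite.mem_toFinset]; rfl
  set P : Polynomial (Bm k m) := ∏ y ∈ S, (Polynomial.X - Polynomial.C y) with hP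
  have hmon : P.Monic := Polynomial.monic_prod_X_sub_C _ _
  have hPg : ∀ g : Gm k m, P.map (g : Bm k m →+* Bm k m) = P := by
    intro g
    rw [hP, Polynomial.map_prod]
    simp only [Polynomial.map_sub, Polynomial.map_X, Polynomial.map_C]
    refine Finset.prod_bij (fun y _ => g y) ?_ ?_ ?_ ?_
    · intro y hy
      obtain ⟨g', rfl⟩ := (hmemS y).1 hy
      exact (hmemS _).2 ⟨g * g', rfl⟩
    · intro y _ y' _ h
      exact g.injective h
    · intro y hy
      obtain ⟨g', rfl⟩ := (hmemS y).1 hy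
      exact ⟨(g⁻¹ * g') x, (hmemS _).2 ⟨_, rfl⟩, by
        rw [← AlgEquiv.mul_apply, mul_inv_cancel_left]⟩
    · intro y _
      rfl
  have hO : P.map (vB k m) ∈ Polynomial.lifts 𝒪.subtype := by
    rw [hP, Polynomial.map_prod]
    refine Subsemiring.prod_mem _ fun y hy => ?_
    obtain ⟨g, rfl⟩ := (hmemS y).1 hy
    exact (Polynomial.mem_lifts _).2 ⟨Polynomial.X - Polynomial.C ⟨_, hx g⟩, by simp⟩
  have hk : P.map (vB k m) ∈ Polynomial.lifts (algebraMap k (Omm k m)) := by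
    rw [Polynomial.lifts_iff_coeff_lifts] at hO ⊢
    intro j
    obtain ⟨p, hp⟩ := mem_range_of_fixed (R := Base k m) (P.coeff j) fun g => by
      have := congrArg (fun Q : Polynomial (Bm k m) => Q.coeff j) (hPg g)
      simpa using this
    obtain ⟨z, hz⟩ := hO j
    rw [Polynomial.coeff_map, ← hp] at hz ⊢
    have h1 : algebraMap (Base k m) (Omm k m) p / algebraMap (Base k m) (Omm k m) 1 ∈ 𝒪 := by
      rw [map_one, div_one, ← vB_iB_eigen, ← hz]
      exact z.2
    have h2 := (h𝒪 p 1 one_ne_zero).1 h1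
    rw [totalDegree_one, Nat.le_zero, totalDegree_eq_zero_iff_eq_C] at h2
    exact ⟨p.coeff 0, by rw [← alg_C_eigen, ← h2]; rfl⟩
  obtain ⟨Q, hQ, -, hQm⟩ := Polynomial.lifts_and_degree_eq_and_monic hk (hmon.map _)
  refine IsIntegral.isAlgebraic ⟨Q, hQm, ?_⟩
  rw [← Polynomial.eval_map, hQ, Polynomial.eval_map, Polynomial.eval₂_at_apply, hP,
    Polynomial.eval_prod, Finset.prod_eq_zero ((hmemS x).2 ⟨1, rfl⟩) (by simp), map_zero]

theorem exists_top_eigen {K : Type u} [Field K] {p : MvPolynomial (Fin 1) K} (hp : p ≠ 0) :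
    ∃ j ∈ p.support, j 0 = p.totalDegree ∧ ∀ i ∈ p.support, i ≠ j → i 0 < j 0 := by
  obtain ⟨j, hj, hj'⟩ := Finset.exists_mem_eq_sup p.support (support_nonempty.2 hp)
    fun s => s.sum fun _ e => e
  have hsum : ∀ s : Fin 1 →₀ ℕ, (s.sum fun _ e => e) = s 0 := fun s => by
    rw [Finsupp.sum_fintype _ _ (fun _ => rfl), Fin.sum_univ_one]
  have h0 : j 0 = p.totalDegree := by rw [totalDegree, hj', hsum]
  refine ⟨j, hj, h0, fun i hi hij => lt_of_le_of_ne ?_ fun h => hij ?_⟩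
  · rw [h0, ← hsum]
    exact le_totalDegree hi
  · refine Finsupp.ext fun a => ?_
    rw [Subsingleton.elim a 0, h]

omit [CharZero k] [IsAlgClosed k] in
theorem val_poly_eigen {𝒪 : ValuationSubring (Omm k 1)}
    (hk : ∀ c : k, algebraMap k (Omm k 1) c ∈ 𝒪)
    (hX : algebraMap (Base k 1) (Omm k 1) (X0 k) ∉ 𝒪) {p : Base k 1} (hp : p ≠ 0) :
    𝒪.valuation (algebraMap (Base k 1) (Omm k 1) p) =
      𝒪.valuation (algebraMap (Base k 1) (Omm k 1) (X0 k)) ^ p.totalDegree := by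
  classical
  have hX1 : 1 < 𝒪.valuation (algebraMap (Base k 1) (Omm k 1) (X0 k)) :=
    lt_of_not_ge fun h => hX ((𝒪.valuation_le_one_iff _).1 h)
  have hc : ∀ c : k, c ≠ 0 → 𝒪.valuation (algebraMap k (Omm k 1) c) = 1 := fun c hc => by
    have h1 := (𝒪.valuation_le_one_iff _).2 (hk c)
    have h2 := (𝒪.valuation_le_one_iff _).2 (hk c⁻¹)
    rw [map_inv₀, map_inv₀] at h2
    have h0 : 0 < 𝒪.valuation (algebraMap k (Omm k 1) c) := by
      rw [Valuation.pos_iff]
      exact (map_ne_zero _).2 hc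
    exact le_antisymm h1 ((inv_le_one₀ h0).1 h2)
  have hmono : ∀ s ∈ p.support, 𝒪.valuation (algebraMap (Base k 1) (Omm k 1)
      (monomial s (p.coeff s))) = 𝒪.valuation (algebraMap (Base k 1) (Omm k 1) (X0 k)) ^ s 0 := by
    intro s hs
    rw [monomial_eq, Finsupp.prod_fintype _ _ (fun _ => pow_zero _), Fin.prod_univ_one, map_mul,
      map_mul, alg_C_eigen, hc _ (mem_support_iff.1 hs), one_mul, map_pow, map_pow]
    rfl
  obtain ⟨j, hj, hj0, hj'⟩ := exists_top_eigen hp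
  conv_lhs => rw [p.as_sum, map_sum]
  rw [Valuation.map_sum_eq_of_lt _ hj, hmono j hj, hj0]
  intro i hi
  rw [Finset.mem_sdiff, Finset.mem_singleton] at hi
  rw [hmono i hi.1, hmono j hj]
  exact pow_lt_pow_right₀ hX1 (hj' i hi.1 hi.2)

omit [CharZero k] [IsAlgClosed k] in
theorem isInf_of_line_eigen {𝒪 : ValuationSubring (Omm k 1)}
    (hk : ∀ c : k, algebraMap k (Omm k 1) c ∈ 𝒪)
    (hX : algebraMap (Base k 1) (Omm k 1) (X0 k) ∉ 𝒪) : IsInf 𝒪 := by
  intro p q hq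
  have hX1 : 1 < 𝒪.valuation (algebraMap (Base k 1) (Omm k 1) (X0 k)) :=
    lt_of_not_ge fun h => hX ((𝒪.valuation_le_one_iff _).1 h)
  rcases eq_or_ne p 0 with rfl | hp
  · simp
  rw [← 𝒪.valuation_le_one_iff, map_div₀, val_poly_eigen hk hX hp, val_poly_eigen hk hX hq,
    div_le_one₀ (pow_pos (zero_lt_one.trans hX1) _), pow_le_pow_iff_right₀ hX1]

omit [CharZero k] [IsAlgClosed k] in
theorem comap_eq_eigen {𝒪 : ValuationSubring (Omm k m)} (h𝒪 : IsInf 𝒪)
    {A : ValuationSubring (Km k m)} (hA : ∀ p q : Base k m, q ≠ 0 →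
      (algebraMap (Base k m) (Km k m) p / algebraMap (Base k m) (Km k m) q ∈ A ↔
        p.totalDegree ≤ q.totalDegree)) :
    𝒪.comap (algebraMap (Km k m) (Omm k m)) = A := by
  ext a
  obtain ⟨p, q, hq, rfl⟩ := IsFractionRing.div_surjective (A := Base k m) a
  have hq0 : q ≠ 0 := nonZeroDivisors.ne_zero hq
  rw [ValuationSubring.mem_comap, map_div₀, alg_K_eigen, alg_K_eigen, h𝒪 p q hq0, hA p q hq0]

omit [CharZero k] [IsAlgClosed k] in
theorem X_notMem_eigen {𝒪 : ValuationSubring (Omm k m)} (h𝒪 : IsInf 𝒪) (i : Fin m) :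
    algebraMap (Base k m) (Omm k m) (X i) ∉ 𝒪 := fun h => by
  have := (h𝒪 (X i) 1 one_ne_zero).1 (by rwa [map_one, div_one])
  simp at this

theorem deg_X_mul_pderiv_eigen {K σ : Type*} [Field K] (i : σ) (p : MvPolynomial σ K) :
    (X i * pderiv i p).totalDegree ≤ p.totalDegree := by
  conv_lhs => rw [p.as_sum, map_sum, Finset.mul_sum]
  refine totalDegree_finsetSum_le fun s hs => ?_
  rw [X_mul_pderiv_monomial, smul_monomial]
  exact (totalDegree_monomial_le _ _).trans (le_totalDegree hs)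

theorem exists_sub_deg_lt_eigen {K : Type u} [Field K] {p q : MvPolynomial (Fin 1) K} (hq : q ≠ 0)
    (h : p.totalDegree ≤ q.totalDegree) :
    ∃ c : K, p - C c * q = 0 ∨ (p - C c * q).totalDegree < q.totalDegree := by
  obtain ⟨j, hj, hj0, -⟩ := exists_top_eigen hq
  refine ⟨p.coeff j / q.coeff j, ?_⟩
  set r := p - C (p.coeff j / q.coeff j) * q with hr
  rcases eq_or_ne r 0 with h0 | h0
  · exact Or.inl h0
  right
  obtain ⟨i, hi, hi0, -⟩ := exists_top_eigen h0
  have hle : r.totalDegree ≤ q.totalDegree := by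
    refine (totalDegree_sub _ _).trans (max_le h ?_)
    rw [← smul_eq_C_mul]
    exact totalDegree_smul_le _ _
  refine lt_of_le_of_ne hle fun he => ?_
  have hij : i = j := by
    refine Finsupp.ext fun a => ?_
    rw [Subsingleton.elim a 0, hi0, hj0, he]
  rw [hij, mem_support_iff, hr, coeff_sub, coeff_C_mul,
    div_mul_cancel₀ _ (mem_support_iff.1 hj), sub_self] at hi
  exact hi rfl

theorem mul_mem_nonunits_eigen {Ω : Type u} [Field Ω] {𝒪 : ValuationSubring Ω} {a b : Ω}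
    (ha : a ∈ 𝒪) (hb : b ∈ 𝒪.nonunits) : a * b ∈ 𝒪.nonunits := by
  rw [ValuationSubring.mem_nonunits_iff] at hb ⊢
  rw [map_mul]
  exact lt_of_le_of_lt (mul_le_of_le_one_left' ((𝒪.valuation_le_one_iff _).2 ha)) hb

omit [CharZero k] in
theorem mem_range_cB {y : Bm k m} (hy : IsAlgebraic k (vB k m y)) : y ∈ (cB k m).range := by
  have hi : IsIntegral k (vB k m y) := hy.isIntegral
  obtain ⟨c, hc⟩ := minpoly.mem_range_of_degree_eq_one k (vB k m y)
    (IsAlgClosed.degree_eq_one_of_irreducible k (minpoly.irreducible hi))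
  exact ⟨c, vB_inj_eigen (by rw [vB_cB_eigen, hc])⟩

omit [CharZero k] [IsAlgClosed k] in
theorem eig_one_of_isConst {u : Uo k (Bm k m)} (hu : IsConst u) : Eig 1 u := by
  obtain ⟨w, rfl⟩ := hu
  intro g
  have hg : (g : Bm k m →+* Bm k m).comp (cB k m) = cB k m :=
    RingHom.ext fun c => g.commutes (C c)
  rw [← Umap_comp, hg]
  simp

omit [IsAlgClosed k] in
theorem isConst_of_eig_one {u : Uo k (Bm k m)} (hu : Eig 1 u) : IsConst u := by
  obtain ⟨r, lam, x, hl, rfl⟩ := exists_repr u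
  have hg : ∀ g : Gm k m, ∃ M : ℕ, 0 < M ∧
      ∀ a, (umap (g : Bm k m →+* Bm k m) (x a)) ^ M = x a ^ M := fun g => by
    refine pow_eq_of_repr_eq (x := fun a => umap (g : Bm k m →+* Bm k m) (x a)) hl ?_
    have := hu g
    simpa only [map_sum, map_smul, Umap_ulog, MonoidHom.one_apply, Units.val_one, one_smul]
      using this
  refine Submodule.sum_mem _ fun a _ => Submodule.smul_mem _ _ ?_
  exact ulog_mem_of_pow_eigen (x a) fun g => (hg g).imp fun M hM => ⟨hM.1, hM.2 a⟩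

omit [CharZero k] [IsAlgClosed k] in
theorem Eig.unique {χ χ' : Gm k m →* kˣ} {u : Uo k (Bm k m)} (h : Eig χ u) (h' : Eig χ' u)
    (hu : u ≠ 0) : χ = χ' := by
  ext g
  exact smul_left_injective k hu ((h g).symm.trans (h' g))

omit [IsAlgClosed k] in
theorem Eig.pow_eq_one {χ : Gm k m →* kˣ} {u : Uo k (Bm k m)} (h : Eig χ u) (hu : u ≠ 0) :
    ∃ N : ℕ, 0 < N ∧ χ ^ N = 1 := by
  obtain ⟨E, hE⟩ := Umap_congr u
  let F : Gm k m → (E → Bm k m) := fun g e => g (e : Bm k m)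
  have hF : (Set.range F).Finite := by
    refine (Set.Finite.pi' fun e : E => finite_orbit (R := Base k m) (e : Bm k m)).subset ?_
    rintro _ ⟨g, rfl⟩ e
    exact ⟨g, rfl⟩
  have hfac : Function.FactorsThrough χ F := fun g g' hgg' => by
    have h1 := hE _ (g : Bm k m →+* Bm k m) (g' : Bm k m →+* Bm k m)
      fun e he => congrFun hgg' ⟨e, he⟩
    rw [h g, h g'] at h1
    exact Units.ext (smul_left_injective k hu h1)
  obtain ⟨e, he⟩ := (Function.factorsThrough_iff χ).1 hfac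
  have hfin : (χ.range : Set kˣ).Finite := by
    rw [MonoidHom.coe_range, he, Set.range_comp]
    exact hF.image _
  have : Finite χ.range := hfin
  refine ⟨Nat.card χ.range, Nat.card_pos, MonoidHom.ext fun g => ?_⟩
  have := congrArg Subtype.val (pow_card_eq_one' (x := (⟨χ g, g, rfl⟩ : χ.range)))
  simpa using this

omit [CharZero k] [IsAlgClosed k] in
theorem exists_inf (i : Fin m) :
    ∃ (𝒪 : ValuationSubring (Omm k m)) (ord : Additive (Omm k m)ˣ →+ ℚ), IsInf 𝒪 ∧ IsOrd 𝒪 ord ∧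
      ∀ x : (Omm k m)ˣ, (x : Omm k m) = algebraMap (Base k m) (Omm k m) (X i) →
        ord (Additive.ofMul x) = -1 := by
  obtain ⟨A, hA, hA'⟩ := exists_place_inf k m i
  obtain ⟨𝒪, h𝒪⟩ := exists_over (Ω := Omm k m) A
  obtain ⟨ord, ho, h1⟩ := exists_ord hA h𝒪
  refine ⟨𝒪, ord, fun p q hq => ?_, ho, fun x hx => ?_⟩
  · rw [← hA' p q hq, ← h𝒪, ValuationSubring.mem_comap, map_div₀, alg_K_eigen, alg_K_eigen]
  · have := h1 x⁻¹ (by rw [Units.val_inv_eq_inv_val, hx, map_inv₀, alg_K_eigen])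
    rw [ofMul_inv, map_neg] at this
    linarith

theorem ord_ne_zero {𝒪 : ValuationSubring (Omm k m)} {ord : Additive (Omm k m)ˣ →+ ℚ}
    (h𝒪 : IsInf 𝒪) (ho : IsOrd 𝒪 ord) {χ : Gm k m →* kˣ} {u : Uo k (Bm k m)} (h : Eig χ u)
    (hχ : χ ≠ 1) (hu : u ≠ 0) : ordK k ord (Umap k (vB k m) u) ≠ 0 := by
  intro h0
  obtain ⟨r, lam, x, hl, rfl⟩ := exists_repr u
  have hg : ∀ (g : Gm k m) (a : Fin r), vB k m (g (x a : Bm k m)) ∈ 𝒪 := fun g a => by
    have h1 := congrArg (fun w => ordK k ord (Umap k (vB k m) w)) (h g)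
    simp only [map_smul, h0, smul_zero] at h1
    simp only [map_sum (Umap k _), map_smul, Umap_ulog] at h1
    have h2 := eq_zero_of_ordK (x := fun a => umap (vB k m) (umap (g : Bm k m →+* Bm k m) (x a)))
      hl ord h1 a
    exact (ho _).2 h2.ge
  have hc : IsConst (∑ a, lam a • ulog k (x a)) :=
    Submodule.sum_mem _ fun a _ => Submodule.smul_mem _ _ (ulog_mem_eigen _
      (mem_range_cB (isAlgebraic_of_orbit_eigen h𝒪 _ fun g => hg g a)))
  exact hχ (h.unique (eig_one_of_isConst hc) hu)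

theorem mult_one {χ : Gm k m →* kˣ} (hχ : χ ≠ 1) {u u' : Uo k (Bm k m)} (h : Eig χ u)
    (h' : Eig χ u') (hu : u ≠ 0) : ∃ c : k, u' = c • u := by
  obtain ⟨𝒪, ord, h𝒪, ho⟩ : ∃ (𝒪 : ValuationSubring (Omm k m)) (ord : Additive (Omm k m)ˣ →+ ℚ),
      IsInf 𝒪 ∧ IsOrd 𝒪 ord := by
    rcases m with _ | m
    · refine ⟨⊤, 0, fun p q _ => ?_, fun x => by simp⟩
      rw [eq_C_of_isEmpty p, totalDegree_C]
      simp
    · obtain ⟨𝒪, ord, h𝒪, ho, -⟩ := exists_inf (k := k) (0 : Fin (m + 1))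
      exact ⟨𝒪, ord, h𝒪, ho⟩
  have h0 := ord_ne_zero h𝒪 ho h hχ hu
  refine ⟨ordK k ord (Umap k (vB k m) u') / ordK k ord (Umap k (vB k m) u), ?_⟩
  by_contra hne
  refine ord_ne_zero h𝒪 ho (χ := χ)
    (u := u' - (ordK k ord (Umap k (vB k m) u') / ordK k ord (Umap k (vB k m) u)) • u)
    (fun g => ?_) hχ (sub_ne_zero.2 hne) ?_
  · rw [map_sub, map_smul, h g, h' g, smul_sub, smul_comm]
  · rw [map_sub, map_sub, map_smul, map_smul, smul_eq_mul, div_mul_cancel₀ _ h0, sub_self]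

omit [IsAlgClosed k] in
theorem line_transitive {𝒪 𝒪' : ValuationSubring (Omm k 1)} {ord ord' : Additive (Omm k 1)ˣ →+ ℚ}
    (h𝒪 : IsInf 𝒪) (ho : IsOrd 𝒪 ord) (ho' : IsOrd 𝒪' ord')
    (hk : ∀ c : k, algebraMap k (Omm k 1) c ∈ 𝒪')
    (hX : algebraMap (Base k 1) (Omm k 1) (X0 k) ∉ 𝒪') (E : Finset (Omm k 1)ˣ) :
    ∃ (lam : ℚ) (g : Omm k 1 ≃ₐ[Km k 1] Omm k 1), 0 < lam ∧ ∀ x ∈ Subgroup.closure (E : Set (Omm k 1)ˣ),
      ord' (Additive.ofMul x) = lam * ord (Additive.ofMul (umap (g : Omm k 1 →+* Omm k 1) x)) := by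
  classical
  obtain ⟨A, hA, hA'⟩ := exists_place_inf k 1 0
  have hx0 : algebraMap (Base k 1) (Omm k 1) (X0 k) ≠ 0 := fun h => hX (h ▸ 𝒪'.zero_mem)
  obtain ⟨g, hg⟩ := over_transitive hA (comap_eq_eigen h𝒪 hA')
    (comap_eq_eigen (isInf_of_line_eigen hk hX) hA') (E.image Units.val)
  set F := IntermediateField.adjoin (Km k 1) ((E.image Units.val : Finset (Omm k 1)) : Set (Omm k 1))
    with hF
  let H : Subgroup (Omm k 1)ˣ :=
    { carrier := {x | (x : Omm k 1) ∈ F}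
      mul_mem' := fun ha hb => F.mul_mem ha hb
      one_mem' := F.one_mem
      inv_mem' := fun {a} ha => by
        change ((a⁻¹ : (Omm k 1)ˣ) : Omm k 1) ∈ F
        rw [Units.val_inv_eq_inv_val]
        exact F.inv_mem ha }
  have hEH : Subgroup.closure (E : Set (Omm k 1)ˣ) ≤ H :=
    (Subgroup.closure_le _).2 fun e he =>
      IntermediateField.subset_adjoin _ _ (Finset.mem_coe.2 (Finset.mem_image_of_mem _ he))
  have hy : Additive.ofMul (Units.mk0 _ hx0) ∈ Subgroup.toAddSubgroup H := by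
    change algebraMap (Base k 1) (Omm k 1) (X0 k) ∈ F
    rw [← alg_K_eigen]
    exact F.algebraMap_mem _
  have hy0 : (ord.comp (MonoidHom.toAdditive (umap (g : Omm k 1 →+* Omm k 1))))
      (Additive.ofMul (Units.mk0 _ hx0)) ≠ 0 := fun h0 => by
    have h1 := (ho (umap (g : Omm k 1 →+* Omm k 1) (Units.mk0 _ hx0))).2 h0.ge
    rw [coe_umap, Units.val_mk0, ← alg_K_eigen, RingHom.coe_coe, g.commutes, alg_K_eigen] at h1
    exact X_notMem_eigen h𝒪 0 h1
  obtain ⟨h1, h2⟩ := proportional_of_sign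
    (ord.comp (MonoidHom.toAdditive (umap (g : Omm k 1 →+* Omm k 1)))) ord'
    (Subgroup.toAddSubgroup H) (fun x hx =>
      ((ho (umap (g : Omm k 1 →+* Omm k 1) x.toMul)).symm.trans (hg _ hx).symm).trans
        (ho' x.toMul)) hy hy0
  exact ⟨_, g, h1, fun x hx => h2 (Additive.ofMul x) (hEH hx)⟩

omit [IsAlgClosed k] in
theorem ell_line {𝒪 : ValuationSubring (Omm k 1)} {ord : Additive (Omm k 1)ˣ →+ ℚ}
    (h𝒪 : IsInf 𝒪) (ho : IsOrd 𝒪 ord)
    (h1 : ∀ x : (Omm k 1)ˣ, (x : Omm k 1) = algebraMap (Base k 1) (Omm k 1) (X0 k) →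
      ord (Additive.ofMul x) = -1) (u : Uo k (Omm k 1)) :
    algebraMap (Base k 1) (Omm k 1) (X0 k) * ell k (Dm k 1 0) u +
      algebraMap k (Omm k 1) (ordK k ord u) ∈ 𝒪.nonunits := by
  obtain ⟨A, hA, hA'⟩ := exists_place_inf k 1 0
  have hc := comap_eq_eigen h𝒪 hA'
  set x : Omm k 1 := algebraMap (Base k 1) (Omm k 1) (X0 k) with hx
  have hx0 : x ≠ 0 := fun h => X_notMem_eigen h𝒪 0 (by
    change x ∈ 𝒪
    rw [h]
    exact 𝒪.zero_mem)
  set D : Derivation k (Omm k 1) (Omm k 1) := x • Dm k 1 0 with hDdef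
  have hDa : ∀ y, D y = x * Dm k 1 0 y := fun y => rfl
  have hDp : ∀ p : Base k 1, D (algebraMap (Base k 1) (Omm k 1) p) /
      algebraMap (Base k 1) (Omm k 1) p ∈ 𝒪 := fun p => by
    rcases eq_or_ne p 0 with rfl | hp
    · simp
    rw [hDa, Dm_algebraMap, hx, ← map_mul]
    exact (h𝒪 _ p hp).2 (deg_X_mul_pderiv_eigen 0 p)
  have hdiv : ∀ p q : Base k 1, q ≠ 0 →
      D (algebraMap (Base k 1) (Omm k 1) p / algebraMap (Base k 1) (Omm k 1) q) /
        (algebraMap (Base k 1) (Omm k 1) p / algebraMap (Base k 1) (Omm k 1) q) ∈ 𝒪 := by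
    intro p q hq
    rcases eq_or_ne p 0 with rfl | hp
    · simp
    have hp' : algebraMap (Base k 1) (Omm k 1) p ≠ 0 := (map_ne_zero_iff _ alg_inj_eigen).2 hp
    have hq' : algebraMap (Base k 1) (Omm k 1) q ≠ 0 := (map_ne_zero_iff _ alg_inj_eigen).2 hq
    have := sub_mem (hDp p) (hDp q)
    convert this using 1
    rw [Derivation.leibniz_div]
    simp only [smul_eq_mul]
    field_simp
  have hD : ∀ a : Km k 1, D (algebraMap (Km k 1) (Omm k 1) a) /
      algebraMap (Km k 1) (Omm k 1) a ∈ 𝒪 := fun a => by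
    obtain ⟨p, q, hq, rfl⟩ := IsFractionRing.div_surjective (A := Base k 1) a
    rw [map_div₀, alg_K_eigen, alg_K_eigen]
    exact hdiv p q (nonZeroDivisors.ne_zero hq)
  have hD' : ∀ a ∈ A, D (algebraMap (Km k 1) (Omm k 1) a) ∈ 𝒪.nonunits := fun a ha => by
    obtain ⟨p, q, hq, rfl⟩ := IsFractionRing.div_surjective (A := Base k 1) a
    have hq0 : q ≠ 0 := nonZeroDivisors.ne_zero hq
    have hq' : algebraMap (Base k 1) (Omm k 1) q ≠ 0 := (map_ne_zero_iff _ alg_inj_eigen).2 hq0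
    obtain ⟨c, hc⟩ := exists_sub_deg_lt_eigen hq0 ((hA' p q hq0).1 ha)
    set r := p - C c * q with hr
    have he : algebraMap (Base k 1) (Omm k 1) p / algebraMap (Base k 1) (Omm k 1) q =
        algebraMap (Base k 1) (Omm k 1) r / algebraMap (Base k 1) (Omm k 1) q +
          algebraMap k (Omm k 1) c := by
      rw [hr, map_sub, map_mul, alg_C_eigen]
      field_simp
      ring
    rw [map_div₀, alg_K_eigen, alg_K_eigen, he, map_add, Derivation.map_algebraMap, add_zero]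
    rcases eq_or_ne r 0 with hr0 | hr0
    · rw [hr0, map_zero, zero_div, map_zero]
      exact 𝒪.nonunits.zero_mem
    have hlt : r.totalDegree < q.totalDegree := hc.resolve_left hr0
    have hr' : algebraMap (Base k 1) (Omm k 1) r ≠ 0 := (map_ne_zero_iff _ alg_inj_eigen).2 hr0
    have hn : algebraMap (Base k 1) (Omm k 1) r / algebraMap (Base k 1) (Omm k 1) q ∈
        𝒪.nonunits := by
      rw [ValuationSubring.mem_nonunits_iff_or, inv_div, h𝒪 q r hr0]
      exact Or.inr (not_le.2 hlt)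
    have := mul_mem_nonunits_eigen (hdiv r q hq0) hn
    rwa [div_mul_cancel₀ _ (div_ne_zero hr' hq')] at this
  have hQ : ∀ q : ℚ, (q : Km k 1) ∈ A := fun q => by
    rw [← hc, ValuationSubring.mem_comap, map_ratCast, ← map_ratCast (algebraMap k (Omm k 1))]
    exact C_mem_eigen h𝒪 _
  have hπ : algebraMap (Km k 1) (Omm k 1) (algebraMap (Base k 1) (Km k 1) (X 0))⁻¹ = x⁻¹ := by
    rw [map_inv₀, alg_K_eigen]
    rfl
  have hDx : D x = x := by
    rw [hDa, hx, Dm_algebraMap, X0, pderiv_X_self, map_one, mul_one]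
  have hDπ : D x⁻¹ / x⁻¹ = -1 := by
    rw [Derivation.leibniz_inv, hDx, smul_eq_mul]
    field_simp
  have key : ∀ y : (Omm k 1)ˣ, x * (Dm k 1 0 y / y) + (ord (Additive.ofMul y) : Omm k 1) ∈
      𝒪.nonunits := fun y => by
    have := small_res hA hQ hc D hD hD' ho (fun z hz => by
      have h2 := h1 z⁻¹ (by rw [Units.val_inv_eq_inv_val, hz, hπ, inv_inv])
      rw [ofMul_inv, map_neg] at h2
      linarith) y
    rwa [hπ, hDπ, map_ratCast, hDa, mul_neg, mul_one, sub_neg_eq_add, mul_div_assoc] at this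
  induction u using TensorProduct.induction_on with
  | zero => simp
  | tmul c y =>
    have := mul_mem_nonunits_eigen (C_mem_eigen h𝒪 c) (key y.toMul)
    rw [ell_tmul, ordK_tmul, map_mul, map_ratCast, Algebra.smul_def]
    convert this using 1
    rw [ofMul_toMul]
    ring
  | add a b ha hb =>
    have := 𝒪.nonunits.add_mem ha hb
    rw [map_add, map_add, map_add]
    convert this using 1
    ring

end

end Pool.Agent.MP_e2821c_ag.Cy
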