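import Pool.Agent.Lib.MP_e2821c_ag.Cy.Core2

namespace Pool.Agent.MP_e2821c_ag.Cy

open MvPolynomial
open scoped TensorProduct

universe u v w

noncomputable section

/-- The trace of multiplication by `y` on `Ω ⊗ A / I`. -/
def trQ (R A Ω : Type u) [CommRing R] [CommRing A] [Field Ω] [Algebra R A] [Algebra R Ω]
    (I : Ideal A) (y : A) : Ω :=
  Algebra.trace Ω (Ω ⊗[R] (A ⧸ I)) ((1 : Ω) ⊗ₜ[R] Ideal.Quotient.mk I y)

/-- Additivity of the trace on a short exact sequence of vector spaces. -/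
theorem trace_add_trace {Ω U V W : Type*} [Field Ω] [AddCommGroup U] [Module Ω U] [AddCommGroup V]
    [Module Ω V] [AddCommGroup W] [Module Ω W] [Module.Finite Ω U] [Module.Finite Ω V]
    [Module.Finite Ω W] (f : U →ₗ[Ω] V) (p : V →ₗ[Ω] W) (hf : Function.Injective f)
    (hp : Function.Surjective p) (he : Function.Exact f p) (a : U →ₗ[Ω] U) (b : V →ₗ[Ω] V)
    (c : W →ₗ[Ω] W) (h1 : b ∘ₗ f = f ∘ₗ a) (h2 : p ∘ₗ b = c ∘ₗ p) :
    LinearMap.trace Ω V b = LinearMap.trace Ω U a + LinearMap.trace Ω W c := by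
  obtain ⟨s, hs⟩ := p.exists_rightInverse_of_surjective (LinearMap.range_eq_top.2 hp)
  obtain ⟨r, hr⟩ := f.exists_leftInverse_of_injective (LinearMap.ker_eq_bot.2 hf)
  have hs' : ∀ w, p (s w) = w := fun w => LinearMap.congr_fun hs w
  have hr' : ∀ u, r (f u) = u := fun u => LinearMap.congr_fun hr u
  set r' : V →ₗ[Ω] U := r ∘ₗ (LinearMap.id - s ∘ₗ p) with hr0
  have e1 : b = (b ∘ₗ f) ∘ₗ r' + (b ∘ₗ s) ∘ₗ p := by
    ext v
    obtain ⟨u, hu⟩ := (he (v - s (p v))).1 (by rw [map_sub, hs', sub_self])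
    have : f (r' v) = v - s (p v) := by
      change f (r (v - s (p v))) = _
      rw [← hu, hr']
    change b v = b (f (r' v)) + b (s (p v))
    rw [this, ← map_add, sub_add_cancel]
  have e2 : r' ∘ₗ (b ∘ₗ f) = a := by
    rw [h1]
    ext u
    change r (f (a u) - s (p (f (a u)))) = a u
    rw [he.apply_apply_eq_zero, map_zero, sub_zero, hr']
  have e3 : p ∘ₗ (b ∘ₗ s) = c := by
    rw [← LinearMap.comp_assoc, h2, LinearMap.comp_assoc, hs, LinearMap.comp_id]
  conv_lhs => rw [e1]
  rw [map_add, LinearMap.trace_comp_comm' r' (b ∘ₗ f), LinearMap.trace_comp_comm' p (b ∘ₗ s), e2, e3]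

theorem lmul_tmul_trace (R B Ω : Type u) [CommRing R] [CommRing B] [CommRing Ω] [Algebra R B]
    [Algebra R Ω] (y : B) : Algebra.trace Ω (Ω ⊗[R] B) ((1 : Ω) ⊗ₜ[R] y) =
      LinearMap.trace Ω (Ω ⊗[R] B) ((LinearMap.mulLeft R y).baseChange Ω) := by
  rw [Algebra.trace_apply]
  congr 1
  ext b
  simp

open scoped nonZeroDivisors in
/-- The trace on the base change of a finite domain is the sum over the embeddings of its
fraction field. -/
theorem sum_emb_trace (R B Ω : Type u) [CommRing R] [IsDomain R] [CommRing B] [IsDomain B]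
    [Field Ω] [IsAlgClosed Ω] [CharZero Ω] [Algebra R B] [Algebra R Ω] [FaithfulSMul R Ω]
    [FaithfulSMul R B] [Module.Finite R B] (y : B) :
    Algebra.trace Ω (Ω ⊗[R] B) ((1 : Ω) ⊗ₜ[R] y) =
      ∑ᶠ e ∈ {e : B →+* Ω | e.comp (algebraMap R B) = algebraMap R Ω ∧ Function.Injective e},
        e y := by
  let K := FractionRing R
  let L := FractionRing B
  let _ : Algebra K L := FractionRing.liftAlgebra R L
  let _ : Algebra K Ω := FractionRing.liftAlgebra R Ω
  have : IsScalarTower R K L := FractionRing.isScalarTower_liftAlgebra R L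
  have : IsScalarTower R K Ω := FractionRing.isScalarTower_liftAlgebra R Ω
  have : FiniteDimensional K L := .of_isLocalization R B R⁰
  have : CharZero K := (algebraMap K Ω).charZero
  have hb := (Algebra.IsAlgebraic.isBaseChange_of_isFractionRing R B K L).comp
    (TensorProduct.isBaseChange (R := K) L Ω)
  have e1 : hb.equiv.conj ((LinearMap.mulLeft R y).baseChange Ω) =
      (Algebra.lmul K L (algebraMap B L y)).baseChange Ω := by
    rw [LinearEquiv.conj_apply, LinearEquiv.comp_toLinearMap_symm_eq]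
    ext b
    simp [IsBaseChange.equiv_tmul]
  rw [lmul_tmul_trace, ← LinearMap.trace_conj' _ hb.equiv, e1, LinearMap.trace_baseChange,
    ← Algebra.trace_apply, trace_eq_sum_embeddings Ω]
  let φ : (L →ₐ[K] Ω) → (B →+* Ω) := fun σ => (σ : L →+* Ω).comp (algebraMap B L)
  have hφ : Function.Injective φ := fun σ τ h =>
    AlgHom.coe_ringHom_injective (IsLocalization.ringHom_ext B⁰ h)
  have hr : {e : B →+* Ω | e.comp (algebraMap R B) = algebraMap R Ω ∧ Function.Injective e} =
      Set.range φ := by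
    ext e
    constructor
    · rintro ⟨h1, h2⟩
      have h3 : (IsFractionRing.lift h2 : L →+* Ω).comp (algebraMap K L) = algebraMap K Ω := by
        refine IsLocalization.ringHom_ext R⁰ (RingHom.ext fun r => ?_)
        simp only [RingHom.comp_apply]
        rw [← IsScalarTower.algebraMap_apply, ← IsScalarTower.algebraMap_apply,
          IsScalarTower.algebraMap_apply R B L, IsFractionRing.lift_algebraMap, ← h1]
        rfl
      exact ⟨⟨IsFractionRing.lift h2, fun k => RingHom.congr_fun h3 k⟩,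
        RingHom.ext fun b => IsFractionRing.lift_algebraMap h2 b⟩
    · rintro ⟨σ, rfl⟩
      refine ⟨RingHom.ext fun r => ?_,
        (σ : L →+* Ω).injective.comp (IsFractionRing.injective B L)⟩
      change σ (algebraMap B L (algebraMap R B r)) = _
      rw [← IsScalarTower.algebraMap_apply, IsScalarTower.algebraMap_apply R K L, σ.commutes,
        ← IsScalarTower.algebraMap_apply]
  rw [hr, finsum_mem_range hφ, finsum_eq_sum_of_fintype]
  rfl

theorem trQ_elem (R A Ω : Type u) [CommRing R] [IsDomain R] [CommRing A] [Field Ω] [IsAlgClosed Ω]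
    [CharZero Ω] [Algebra R A] [Algebra R Ω] [FaithfulSMul R Ω]
    (Q : ElemOf R A (algebraMap R A)) (y : A) :
    trQ R A Ω Q.1 y =
      ∑ᶠ e ∈ {e : A →+* Ω | e.comp (algebraMap R A) = algebraMap R Ω ∧ RingHom.ker e = Q.1}, e y := by
  have : Q.1.IsPrime := Q.2.1
  have : Module.Finite R (A ⧸ Q.1) := RingHom.finite_algebraMap.1 Q.2.2.1
  have : FaithfulSMul R (A ⧸ Q.1) := by
    rw [faithfulSMul_iff_algebraMap_injective, RingHom.injective_iff_ker_eq_bot, ← Q.2.2.2]
    ext r
    exact Ideal.Quotient.eq_zero_iff_mem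
  rw [trQ, sum_emb_trace]
  refine finsum_mem_eq_of_bijOn (fun e => e.comp (Ideal.Quotient.mk Q.1)) ⟨?_, ?_, ?_⟩
    fun _ _ => rfl
  · rintro e ⟨h1, h2⟩
    refine ⟨h1, ?_⟩
    rw [← RingHom.comap_ker, (RingHom.injective_iff_ker_eq_bot e).1 h2]
    exact Ideal.mk_ker
  · exact fun e _ e' _ h => Ideal.Quotient.ringHom_ext h
  · rintro e ⟨h1, h2⟩
    have h3 : ∀ a ∈ Q.1, e a = 0 := fun a ha => by rwa [← h2] at ha
    refine ⟨Ideal.Quotient.lift Q.1 e h3, ⟨h1, ?_⟩, RingHom.ext fun _ => rfl⟩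
    rw [injective_iff_map_eq_zero]
    intro b hb
    obtain ⟨a, rfl⟩ := Ideal.Quotient.mk_surjective b
    rw [Ideal.Quotient.eq_zero_iff_mem, ← h2]
    exact hb

section

variable (R A Ω : Type u) [CommRing R] [IsDomain R] [CommRing A] [Field Ω] [Algebra R A]
  [Algebra R Ω] [FaithfulSMul R Ω]

omit [IsDomain R] in
theorem finite_of_le_trace {I J : Ideal A} (h : I ≤ J) (hI : FiniteOver R A (algebraMap R A) I) :
    FiniteOver R A (algebraMap R A) J := by
  have h1 := RingHom.Finite.comp (RingHom.Finite.of_surjective (Ideal.Quotient.factor h)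
    (Ideal.Quotient.factor_surjective h)) hI
  exact h1

omit [IsDomain R] in
theorem zero_trace {J : Ideal A} {r : R} (hr : r ≠ 0) (hJ : algebraMap R A r ∈ J) (y : A) :
    trQ R A Ω J y = 0 := by
  have h1 : algebraMap R Ω r ≠ 0 := fun h =>
    hr (FaithfulSMul.algebraMap_injective R Ω (by rw [h, map_zero]))
  have h2 : (1 : Ω) ⊗ₜ[R] Ideal.Quotient.mk J y = 0 := by
    have h3 : (1 : Ω) = r • (algebraMap R Ω r)⁻¹ := by
      rw [Algebra.smul_def, mul_inv_cancel₀ h1]
    have h4 : r • Ideal.Quotient.mk J y = 0 := by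
      rw [Algebra.smul_def]
      change Ideal.Quotient.mk J (algebraMap R A r) * _ = 0
      rw [Ideal.Quotient.eq_zero_iff_mem.2 hJ, zero_mul]
    rw [h3, TensorProduct.smul_tmul, h4, TensorProduct.tmul_zero]
  rw [trQ, h2, map_zero]

omit [IsDomain R] in
theorem cyc_zero_trace {J : Ideal A} {r : R} (hr : r ≠ 0) (hJ : algebraMap R A r ∈ J)
    (h : FiniteOver R A (algebraMap R A) J) : cyc R A (algebraMap R A) J h = 0 := by
  ext Q
  by_contra hQ
  have h1 := le_of_mem_support_cyc (Finsupp.mem_support_iff.2 hQ)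
  exact hr (Q.2.2.2.le (show r ∈ Q.1.comap (algebraMap R A) from h1 hJ))

omit [IsDomain R] in
theorem cyc_add_trace {I N N' : Ideal A} (x : A) (hcol : ∀ y, y * x ∈ I ↔ y ∈ N')
    (hsup : I ⊔ Ideal.span {x} = N) (hI : FiniteOver R A (algebraMap R A) I)
    (hN : FiniteOver R A (algebraMap R A) N) (hN' : FiniteOver R A (algebraMap R A) N') :
    cyc R A (algebraMap R A) I hI =
      cyc R A (algebraMap R A) N' hN' + cyc R A (algebraMap R A) N hN := by
  ext Q
  have : Q.1.IsPrime := Q.2.1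
  have h1 : len N' Q.1 ≠ ⊤ := locLength_ne_top R A _ N' hN' Q
  have h2 : len N Q.1 ≠ ⊤ := locLength_ne_top R A _ N hN Q
  rw [Finsupp.add_apply, cyc_apply, cyc_apply, cyc_apply, len_add I N N' Q.1 x hcol hsup,
    ENat.toNat_add h1 h2, Nat.cast_add]

theorem trQ_add_trace {I N N' : Ideal A} (x : A) (hcol : ∀ y, y * x ∈ I ↔ y ∈ N')
    (hsup : I ⊔ Ideal.span {x} = N) (hI : FiniteOver R A (algebraMap R A) I)
    (hN : FiniteOver R A (algebraMap R A) N) (hN' : FiniteOver R A (algebraMap R A) N') (y : A) :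
    trQ R A Ω I y = trQ R A Ω N' y + trQ R A Ω N y := by
  have : Module.Finite R (A ⧸ I) := RingHom.finite_algebraMap.1 hI
  have : Module.Finite R (A ⧸ N) := RingHom.finite_algebraMap.1 hN
  have : Module.Finite R (A ⧸ N') := RingHom.finite_algebraMap.1 hN'
  let _ : Algebra (FractionRing R) Ω := FractionRing.liftAlgebra R Ω
  have : IsScalarTower R (FractionRing R) Ω := FractionRing.isScalarTower_liftAlgebra R Ω
  have : Module.Flat R Ω := Module.Flat.trans R (FractionRing R) Ω
  have hIN : I ≤ N := hsup ▸ le_sup_left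
  let f : (A ⧸ N') →ₗ[A] (A ⧸ I) := Submodule.mapQ N' I (LinearMap.mulRight A x)
    fun y hy => (hcol y).2 hy
  let p : (A ⧸ I) →ₗ[A] (A ⧸ N) := Submodule.mapQ I N LinearMap.id hIN
  have f1 : ∀ a, f (Ideal.Quotient.mk N' a) = Ideal.Quotient.mk I (a * x) := fun _ => rfl
  have p1 : ∀ a, p (Ideal.Quotient.mk I a) = Ideal.Quotient.mk N a := fun _ => rfl
  have hf : Function.Injective (f.restrictScalars R) := by
    rw [injective_iff_map_eq_zero]
    intro b hb
    obtain ⟨a, rfl⟩ := Ideal.Quotient.mk_surjective b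
    exact Ideal.Quotient.eq_zero_iff_mem.2 ((hcol a).1 (Ideal.Quotient.eq_zero_iff_mem.1 hb))
  have hp : Function.Surjective (p.restrictScalars R) := fun b => by
    obtain ⟨a, rfl⟩ := Ideal.Quotient.mk_surjective b
    exact ⟨Ideal.Quotient.mk I a, rfl⟩
  have he : Function.Exact (f.restrictScalars R) (p.restrictScalars R) := fun b => by
    obtain ⟨a, rfl⟩ := Ideal.Quotient.mk_surjective b
    change Ideal.Quotient.mk N a = 0 ↔ _
    rw [Ideal.Quotient.eq_zero_iff_mem, ← hsup, Submodule.mem_sup]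
    constructor
    · rintro ⟨c, hc, b, hb, rfl⟩
      obtain ⟨r, rfl⟩ := Ideal.mem_span_singleton'.1 hb
      refine ⟨Ideal.Quotient.mk N' r, ?_⟩
      change Ideal.Quotient.mk I (r * x) = _
      rw [map_add, Ideal.Quotient.eq_zero_iff_mem.2 hc, zero_add]
    · rintro ⟨r, hr⟩
      obtain ⟨r, rfl⟩ := Ideal.Quotient.mk_surjective r
      have h1 : Ideal.Quotient.mk I a = Ideal.Quotient.mk I (r * x) := hr.symm
      exact ⟨a - r * x, Ideal.Quotient.eq.1 h1, r * x, Ideal.mem_span_singleton'.2 ⟨r, rfl⟩,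
        sub_add_cancel _ _⟩
  simp only [trQ, lmul_tmul_trace]
  refine trace_add_trace ((f.restrictScalars R).baseChange Ω) ((p.restrictScalars R).baseChange Ω)
    (Module.Flat.lTensor_preserves_injective_linearMap _ hf) (LinearMap.lTensor_surjective Ω hp)
    (lTensor_exact Ω he hp) _ _ _ ?_ ?_
  · rw [← LinearMap.baseChange_comp, ← LinearMap.baseChange_comp]
    congr 1
    refine LinearMap.ext fun b => ?_
    obtain ⟨a, rfl⟩ := Ideal.Quotient.mk_surjective b
    change Ideal.Quotient.mk I (y * (a * x)) = Ideal.Quotient.mk I (y * a * x)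
    rw [mul_assoc]
  · rw [← LinearMap.baseChange_comp, ← LinearMap.baseChange_comp]
    congr 1
    refine LinearMap.ext fun b => ?_
    obtain ⟨a, rfl⟩ := Ideal.Quotient.mk_surjective b
    rfl

end

theorem trQ_cyc (R A Ω : Type u) [CommRing R] [IsDomain R] [CommRing A] [IsNoetherianRing A]
    [Field Ω] [Algebra R A] [Algebra R Ω] [FaithfulSMul R Ω] (I : Ideal A)
    (hI : FiniteOver R A (algebraMap R A) I) (y : A) :
    trQ R A Ω I y = (cyc R A (algebraMap R A) I hI).sum fun Q c => (c : Ω) * trQ R A Ω Q.1 y := by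
  induction I using IsNoetherian.induction with
  | hgt I ih =>
    by_cases htop : I = ⊤
    · have h1 : algebraMap R A 1 ∈ I := htop ▸ Submodule.mem_top
      rw [zero_trace R A Ω one_ne_zero h1, cyc_zero_trace R A one_ne_zero h1,
        Finsupp.sum_zero_index]
    have : Nontrivial (A ⧸ I) := Ideal.Quotient.nontrivial_iff.2 htop
    obtain ⟨P, hP⟩ := associatedPrimes.nonempty A (A ⧸ I)
    obtain ⟨hP, b, hb⟩ := isAssociatedPrime_iff.1 hP
    obtain ⟨x, rfl⟩ := Ideal.Quotient.mk_surjective b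
    have hcol : ∀ y, y * x ∈ I ↔ y ∈ P := fun y => by
      rw [hb, Submodule.mem_colon_singleton, Submodule.mem_bot, ← Ideal.Quotient.eq_zero_iff_mem]
      rfl
    have hlt : I < I ⊔ Ideal.span {x} := by
      refine lt_of_le_of_ne le_sup_left fun h => hP.ne_top ((Ideal.eq_top_iff_one _).2 ?_)
      rw [← hcol, one_mul, h]
      exact Ideal.mem_sup_right (Ideal.mem_span_singleton_self x)
    have hN := finite_of_le_trace R A hlt.le hI
    have hN' := finite_of_le_trace R A (fun y hy => (hcol y).1 (Ideal.mul_mem_right x I hy)) hI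
    rw [trQ_add_trace R A Ω x hcol rfl hI hN hN', cyc_add_trace R A x hcol rfl hI hN hN',
      Finsupp.sum_add_index' (by simp) (by simp [add_mul]), ih _ hlt hN]
    congr 1
    by_cases hc : P.comap (algebraMap R A) = ⊥
    · rw [cyc_elem ⟨P, hP, hN', hc⟩ rfl, Finsupp.sum_single_index (by simp)]
      simp
    · obtain ⟨r, h1, h2⟩ := Submodule.exists_mem_ne_zero_of_ne_bot hc
      rw [zero_trace R A Ω h2 h1, cyc_zero_trace R A h2 h1, Finsupp.sum_zero_index]

end

end Pool.Agent.MP_e2821c_ag.Cy
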