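import Pool.Agent.Lib.MP_e2821c_ag.Cy.Pts
import Pool.Agent.Lib.MP_e2821c_ag.Cy.Trace

namespace Pool.Agent.MP_e2821c_ag.Cy

open MvPolynomial
open scoped TensorProduct

universe u v w

noncomputable section

theorem trace_bc_Face (R D S Ω : Type u) [CommRing R] [CommRing D] [CommRing S] [Field Ω]
    [Algebra R D] [Algebra R S] [Algebra R Ω] [Algebra D Ω] [IsScalarTower R D Ω]
    [Module.Free D (D ⊗[R] S)] [Module.Finite D (D ⊗[R] S)] (y : S) :
    Algebra.trace Ω (Ω ⊗[R] S) ((1 : Ω) ⊗ₜ[R] y) =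
      algebraMap D Ω (Algebra.trace D (D ⊗[R] S) ((1 : D) ⊗ₜ[R] y)) := by
  have e := Algebra.trace_eq_of_algEquiv (Algebra.TensorProduct.cancelBaseChange R D Ω Ω S)
    ((1 : Ω) ⊗ₜ[D] ((1 : D) ⊗ₜ[R] y))
  rw [Algebra.TensorProduct.cancelBaseChange_tmul, one_smul] at e
  rw [e, Algebra.trace_apply, Algebra.trace_apply, ← Algebra.baseChange_lmul,
    LinearMap.trace_baseChange]

theorem trace_loc_Face (R A Ω Ω' : Type u) [CommRing R] [IsDomain R] [IsNoetherianRing R]
    [CommRing A] [Field Ω] [Field Ω'] [Algebra R A] [Algebra R Ω] [FaithfulSMul R Ω]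
    [Algebra R Ω'] (P : ElemOf R A (algebraMap R A)) (t : R)
    (ht : RingHom.ker (algebraMap R Ω') = Ideal.span {t}) (y : A) :
    ∃ r s : R, algebraMap R Ω' s ≠ 0 ∧ algebraMap R Ω s * trQ R A Ω P.1 y = algebraMap R Ω r ∧
      algebraMap R Ω' s * trQ R A Ω' P.1 y = algebraMap R Ω' r := by
  have hP : P.1.IsPrime := P.2.1
  obtain ⟨p, hp⟩ : ∃ p : Ideal R, p = RingHom.ker (algebraMap R Ω') := ⟨_, rfl⟩
  have : p.IsPrime := hp ▸ RingHom.ker_isPrime _
  let D := Localization.AtPrime p
  have : Module.Finite R (A ⧸ P.1) := RingHom.finite_algebraMap.1 P.2.2.1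
  have : FaithfulSMul R (A ⧸ P.1) := (faithfulSMul_iff_algebraMap_injective _ _).2
    ((injective_iff_map_eq_zero _).2 fun r hr => by
      have h1 : algebraMap R A r ∈ P.1 := Ideal.Quotient.eq_zero_iff_mem.1 hr
      exact P.2.2.2.le (show r ∈ P.1.comap (algebraMap R A) from h1))
  have : IsNoetherianRing D := IsLocalization.isNoetherianRing p.primeCompl D inferInstance
  have hm : (IsLocalRing.maximalIdeal D).IsPrincipal := by
    have e : p.map (algebraMap R D) = Ideal.span {algebraMap R D t} :=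
      (congrArg (Ideal.map _) (hp.trans ht)).trans (by rw [Ideal.map_span, Set.image_singleton])
    rw [← Localization.AtPrime.map_eq_maximalIdeal, e]
    infer_instance
  have : IsPrincipalIdealRing D :=
    ((tfae_of_isNoetherianRing_of_isLocalRing_of_isDomain D).out 4 0).1 hm
  have : Module.IsTorsionFree D (D ⊗[R] (A ⧸ P.1)) :=
    IsLocalizedModule.isTorsionFree (TensorProduct.mk R D (A ⧸ P.1) 1) p.primeCompl
  have h1 : ∀ s : p.primeCompl, IsUnit (algebraMap R Ω s) := fun s => IsUnit.mk0 _ fun h =>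
    s.2 (by rw [FaithfulSMul.algebraMap_eq_zero_iff] at h; rw [h]; exact p.zero_mem)
  have h2 : ∀ s : p.primeCompl, IsUnit (algebraMap R Ω' s) := fun s => IsUnit.mk0 _ fun h =>
    s.2 (hp.ge h)
  let : Algebra D Ω := (IsLocalization.lift h1).toAlgebra
  have : IsScalarTower R D Ω := .of_algebraMap_eq fun x => (IsLocalization.lift_eq h1 x).symm
  let : Algebra D Ω' := (IsLocalization.lift h2).toAlgebra
  have : IsScalarTower R D Ω' := .of_algebraMap_eq fun x => (IsLocalization.lift_eq h2 x).symm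
  obtain ⟨⟨r, s⟩, h⟩ := IsLocalization.surj p.primeCompl
    (Algebra.trace D (D ⊗[R] (A ⧸ P.1)) ((1 : D) ⊗ₜ[R] Ideal.Quotient.mk P.1 y))
  refine ⟨r, s, (h2 s).ne_zero, ?_, ?_⟩
  · rw [trQ, trace_bc_Face R D, IsScalarTower.algebraMap_apply R D Ω,
      IsScalarTower.algebraMap_apply R D Ω r, ← map_mul, mul_comm]
    exact congrArg _ h
  · rw [trQ, trace_bc_Face R D, IsScalarTower.algebraMap_apply R D Ω',
      IsScalarTower.algebraMap_apply R D Ω' r, ← map_mul, mul_comm]
    exact congrArg _ h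

theorem trQ_map_Face (R R' A A' Ω : Type u) [CommRing R] [CommRing R'] [CommRing A] [CommRing A']
    [Field Ω] [Algebra R R'] [Algebra R A] [Algebra R' A'] [Algebra R A'] [IsScalarTower R R' A']
    [Algebra R Ω] [Algebra R' Ω] [IsScalarTower R R' Ω] (b : A →ₐ[R] A')
    (ha : Function.Surjective (algebraMap R R')) (hb : Function.Surjective b) (t : R)
    (ht : algebraMap R Ω t = 0) (hk : ∀ y, b y = 0 → algebraMap R A t ∣ y) (P : Ideal A) (y : A) :
    trQ R A Ω P y = trQ R' A' Ω (P.map (b : A →+* A')) (b y) := by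
  obtain ⟨I, hI⟩ : ∃ I, I = P.map (b : A →+* A') := ⟨_, rfl⟩
  rw [← hI]
  have hle : P ≤ I.comap b := by rw [hI]; exact Ideal.le_comap_map
  let f : Ω ⊗[R] (A ⧸ P) →ₐ[Ω] Ω ⊗[R'] (A' ⧸ I) :=
    Algebra.TensorProduct.lift Algebra.TensorProduct.includeLeft
      ((Algebra.TensorProduct.includeRight.restrictScalars R).comp (Ideal.quotientMapₐ I b hle))
      fun _ _ => Commute.all _ _
  have hf : ∀ (x : Ω) (z : A), f (x ⊗ₜ Ideal.Quotient.mk P z) = x ⊗ₜ Ideal.Quotient.mk I (b z) := by
    intro x z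
    simp [f]
  let k : A →+* Ω ⊗[R] (A ⧸ P) :=
    (Algebra.TensorProduct.includeRight : (A ⧸ P) →ₐ[R] Ω ⊗[R] (A ⧸ P)).toRingHom.comp
      (Ideal.Quotient.mk P)
  have hk1 : ∀ z, k z = (1 : Ω) ⊗ₜ Ideal.Quotient.mk P z := fun _ => rfl
  have hk2 : ∀ r, k (algebraMap R A r) = algebraMap R Ω r ⊗ₜ 1 := fun r => by
    rw [hk1, Ideal.Quotient.mk_algebraMap, ← Algebra.TensorProduct.algebraMap_apply',
      Algebra.TensorProduct.algebraMap_apply]
  have hker : RingHom.ker (b : A →+* A') ≤ RingHom.ker k := fun z hz => by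
    obtain ⟨w, rfl⟩ := hk z hz
    rw [RingHom.mem_ker, map_mul, hk2, ht, TensorProduct.zero_tmul, zero_mul]
  let k' : A' →+* Ω ⊗[R] (A ⧸ P) := (b : A →+* A').liftOfSurjective hb ⟨k, hker⟩
  have hk' : ∀ z, k' (b z) = k z := fun z => RingHom.liftOfSurjective_comp_apply _ hb ⟨k, hker⟩ z
  have hI0 : ∀ z ∈ I, k' z = 0 := by
    have : I ≤ RingHom.ker k' := by
      rw [hI, Ideal.map_le_iff_le_comap]
      intro z hz
      change k' (b z) = 0
      rw [hk', hk1, Ideal.Quotient.eq_zero_iff_mem.2 hz, TensorProduct.tmul_zero]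
    exact fun z hz => this hz
  let k'' : (A' ⧸ I) →ₐ[R'] Ω ⊗[R] (A ⧸ P) :=
    { Ideal.Quotient.lift I k' hI0 with
      commutes' := fun r => by
        obtain ⟨r, rfl⟩ := ha r
        change k' (algebraMap R' A' (algebraMap R R' r)) = _
        rw [← IsScalarTower.algebraMap_apply, ← b.commutes, hk', hk2,
          Algebra.TensorProduct.algebraMap_apply, ← IsScalarTower.algebraMap_apply] }
  have hk'' : ∀ z, k'' (Ideal.Quotient.mk I (b z)) = (1 : Ω) ⊗ₜ Ideal.Quotient.mk P z :=
    fun z => hk' z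
  let g : Ω ⊗[R'] (A' ⧸ I) →ₐ[Ω] Ω ⊗[R] (A ⧸ P) :=
    Algebra.TensorProduct.lift Algebra.TensorProduct.includeLeft k'' fun _ _ => Commute.all _ _
  have hg : ∀ (x : Ω) (z : A), g (x ⊗ₜ Ideal.Quotient.mk I (b z)) = x ⊗ₜ Ideal.Quotient.mk P z := by
    intro x z
    simp [g, hk'']
  let e : (Ω ⊗[R] (A ⧸ P)) ≃ₐ[Ω] Ω ⊗[R'] (A' ⧸ I) := AlgEquiv.ofAlgHom f g
    (Algebra.TensorProduct.ext' fun x z => by
      obtain ⟨z, rfl⟩ := Ideal.Quotient.mk_surjective z
      obtain ⟨z, rfl⟩ := hb z
      rw [AlgHom.comp_apply, hg, hf, AlgHom.id_apply])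
    (Algebra.TensorProduct.ext' fun x z => by
      obtain ⟨z, rfl⟩ := Ideal.Quotient.mk_surjective z
      rw [AlgHom.comp_apply, hf, hg, AlgHom.id_apply])
  rw [trQ, trQ, ← Algebra.trace_eq_of_algEquiv e, ← hf]
  rfl

theorem dvd_of_face_Face (O : Type u) [CommRing O] (m : ℕ) (i : Fin (m + 2)) (p : Base O (m + 1))
    (h : face O m i p = 0) : bary O (m + 1) i ∣ p := by
  obtain ⟨g, hg⟩ : ∃ g : Fin (m + 2) → Fin (m + 1), ∀ l, g (i.succAbove l) = l :=
    ⟨Function.extend i.succAbove id fun _ => 0, fun l =>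
      Fin.succAbove_right_injective.extend_apply _ _ l⟩
  have key : (Ideal.Quotient.mkₐ O (Ideal.span {bary O (m + 1) i})).comp
      (sm O (i.succAbove ∘ g)) = Ideal.Quotient.mkₐ O (Ideal.span {bary O (m + 1) i}) :=
    base_algHom_ext O fun k => by
      have h0 : Ideal.Quotient.mkₐ O (Ideal.span {bary O (m + 1) i}) (bary O (m + 1) i) = 0 :=
        Ideal.Quotient.eq_zero_iff_mem.2 (Ideal.mem_span_singleton_self _)
      rw [AlgHom.comp_apply, sm_bary, Finset.sum_filter, Fin.sum_univ_succAbove _ i, map_add]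
      have h1 : Ideal.Quotient.mkₐ O (Ideal.span {bary O (m + 1) i})
          (if (i.succAbove ∘ g) i = k then bary O (m + 1) i else 0) = 0 := by
        split_ifs
        · exact h0
        · exact map_zero _
      rw [h1, zero_add]
      simp only [Function.comp, hg]
      rcases eq_or_ne k i with rfl | hk
      · rw [h0, Finset.sum_eq_zero fun l _ => if_neg (Fin.succAbove_ne _ l), map_zero]
      · obtain ⟨l, rfl⟩ := Fin.exists_succAbove_eq hk
        simp [Finset.sum_ite_eq']
  have := DFunLike.congr_fun key p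
  rw [AlgHom.comp_apply, sm_comp, AlgHom.comp_apply, ← face_eq_sm, h, map_zero, map_zero] at this
  exact Ideal.mem_span_singleton.1 (Ideal.Quotient.eq_zero_iff_mem.1 this.symm)

theorem dedekind_Face {A B : Type u} [CommRing A] [CommRing B] [IsDomain B] [CharZero B]
    (z : (A →+* B) →₀ ℤ) (h : ∀ y, (z.sum fun e c => (c : B) * e y) = 0) : z = 0 := by
  have li := (linearIndependent_monoidHom A B).comp (fun e : A →+* B => (e : A →* B))
    RingHom.coe_monoidHom_injective
  have := linearIndependent_iff'.1 li z.support (fun e => (z e : B)) (funext fun y => by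
    simpa [Finsupp.sum, Finset.sum_apply] using h y)
  ext e
  by_cases he : e ∈ z.support
  · exact_mod_cast this e he
  · simpa using he

theorem inj_Om_Face (R : Type u) [CommRing R] [IsDomain R] :
    Function.Injective (algebraMap R (Om R)) := fun a b h => by
  rw [IsScalarTower.algebraMap_apply R (FractionRing R) (Om R),
    IsScalarTower.algebraMap_apply R (FractionRing R) (Om R)] at h
  exact IsFractionRing.injective R (FractionRing R) ((algebraMap _ (Om R)).injective h)

theorem trQ_pts_Face (R A : Type u) [CommRing R] [IsDomain R] [CharZero R] [CommRing A]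
    [Algebra R A] (P : ElemOf R A (algebraMap R A))
    (hfin : {e : A →+* AC R | e.comp (algebraMap R A) = algebraMap R (AC R) ∧
      RingHom.ker e = P.1}.Finite) (y : A) :
    trQ R A (Om R) P.1 y = algebraMap (AC R) (Om R) (∑ e ∈ hfin.toFinset, e y) := by
  have : FaithfulSMul R (Om R) := (faithfulSMul_iff_algebraMap_injective _ _).2 (inj_Om_Face R)
  have : CharZero (Om R) := charZero_of_injective_algebraMap (inj_Om_Face R)
  have hv : Function.Injective (algebraMap (AC R) (Om R)) := Subtype.val_injective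
  rw [trQ_elem, map_sum, ← finsum_mem_eq_finite_toFinset_sum
    (fun e : A →+* AC R => algebraMap (AC R) (Om R) (e y)) hfin]
  refine (finsum_mem_eq_of_bijOn (fun e => (algebraMap (AC R) (Om R)).comp e) ⟨?_, ?_, ?_⟩
    fun _ _ => rfl).symm
  · rintro e ⟨h1, h2⟩
    refine ⟨by rw [RingHom.comp_assoc, h1]; rfl, ?_⟩
    rw [← h2, RingHom.ker_comp_of_injective _ hv]
  · intro e _ e' _ h
    exact RingHom.ext fun z => hv (DFunLike.congr_fun h z)
  · rintro e ⟨h1, h2⟩
    have : Module.Finite R (A ⧸ P.1) := RingHom.finite_algebraMap.1 P.2.2.1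
    let l : (A ⧸ P.1) →ₐ[R] Om R :=
      { Ideal.Quotient.lift P.1 e fun z hz => h2.ge hz with
        commutes' := fun r => DFunLike.congr_fun h1 r }
    have hi : ∀ z, e z ∈ integralClosure R (Om R) := fun z =>
      (Algebra.IsIntegral.isIntegral (R := R) (Ideal.Quotient.mk P.1 z)).map l
    refine ⟨e.codRestrict (integralClosure R (Om R)) hi,
      ⟨RingHom.ext fun r => hv (DFunLike.congr_fun h1 r), ?_⟩, rfl⟩
    rw [← h2, ← RingHom.ker_comp_of_injective _ hv]
    rfl

section Main

variable {F : Type u} [Field F] [CharZero F] {n m : ℕ}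

/-- The finite set of the generic points. -/
def ptsF_Face (P : Elem F n m) : Finset (Amb F n m →+* AC (Base F m)) :=
  (pts_finite P (ac (Base F m))).toFinset

theorem phi_ac_Face (𝕂 : Type u) [Field 𝕂] (P : Elem F n m) :
    (phi 𝕂 P).1 (ac (Base F m)) = ∑ e ∈ ptsF_Face P, Finsupp.single (xval e) (1 : 𝕂) := by
  rw [phi_spec, phiAt, finsum_mem_eq_finite_toFinset_sum _ (pts_finite P _)]
  rfl

theorem sum_face_Face (i : Fin (m + 2)) (P : Elem F n (m + 1))
    (φ : AC (Base F (m + 1)) →+* AC (Base F m))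
    (hφ : ∀ r, φ (algebraMap _ _ r) = algebraMap _ _ (face F m i r)) (y : Amb F n (m + 1)) :
    ∑ e ∈ ptsF_Face P, φ (e y) = (pull F n m i (Finsupp.single P 1)).sum fun Q c =>
      (c : AC (Base F m)) * ∑ e ∈ ptsF_Face Q, e (face (Torus F n) m i y) := by
  let : Algebra (Base F (m + 1)) (Amb F n (m + 1)) := (proj F n (m + 1)).toAlgebra
  let : Algebra (Base F m) (Amb F n m) := (proj F n m).toAlgebra
  let : Algebra (Base F (m + 1)) (Base F m) := (face F m i).toRingHom.toAlgebra
  let : Algebra (Base F (m + 1)) (Amb F n m) :=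
    ((proj F n m).comp (face F m i).toRingHom).toAlgebra
  have : IsScalarTower (Base F (m + 1)) (Base F m) (Amb F n m) := .of_algebraMap_eq fun _ => rfl
  have : IsScalarTower (Base F (m + 1)) (Base F m) (Om (Base F m)) := inferInstance
  have : FaithfulSMul (Base F (m + 1)) (Om (Base F (m + 1))) :=
    (faithfulSMul_iff_algebraMap_injective _ _).2 (inj_Om_Face _)
  have : FaithfulSMul (Base F m) (Om (Base F m)) :=
    (faithfulSMul_iff_algebraMap_injective _ _).2 (inj_Om_Face _)
  have : IsNoetherianRing (Torus F n) := Algebra.FiniteType.isNoetherianRing F _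
  have hv : Function.Injective (algebraMap (AC (Base F m)) (Om (Base F m))) :=
    Subtype.val_injective
  have hv1 : Function.Injective (algebraMap (AC (Base F (m + 1))) (Om (Base F (m + 1)))) :=
    Subtype.val_injective
  have hm : ∀ r, algebraMap (Base F (m + 1)) (Om (Base F m)) r =
      algebraMap (Base F m) (Om (Base F m)) (face F m i r) := fun r =>
    IsScalarTower.algebraMap_apply (Base F (m + 1)) (Base F m) (Om (Base F m)) r
  have ht0 : face F m i (bary F (m + 1) i) = 0 := by rw [face_bary, Fin.insertNth_apply_same]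
  have ht : RingHom.ker (algebraMap (Base F (m + 1)) (Om (Base F m))) =
      Ideal.span {bary F (m + 1) i} := by
    ext r
    rw [RingHom.mem_ker, hm, map_eq_zero_iff _ (inj_Om_Face _), Ideal.mem_span_singleton]
    refine ⟨dvd_of_face_Face F m i r, ?_⟩
    rintro ⟨w, rfl⟩
    rw [map_mul, ht0, zero_mul]
  let b : Amb F n (m + 1) →ₐ[Base F (m + 1)] Amb F n m :=
    { (face (Torus F n) m i).toRingHom with commutes' := fun r => face_map _ m i r }
  obtain ⟨r, s, hs, h1, h2⟩ := trace_loc_Face (Base F (m + 1)) (Amb F n (m + 1))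
    (Om (Base F (m + 1))) (Om (Base F m)) P _ ht y
  rw [trQ_pts_Face _ _ P (pts_finite P (ac _))] at h1
  rw [trQ_map_Face _ (Base F m) _ (Amb F n m) _ b (face_surjective F m i)
    (face_surjective (Torus F n) m i) (bary F (m + 1) i) (by rw [hm, ht0, map_zero])
    (fun z hz => by
      have := dvd_of_face_Face (Torus F n) m i z hz
      rwa [← map_bary (algebraMap F (Torus F n))] at this)] at h2
  replace h2 := (congrArg _ (trQ_cyc (Base F m) (Amb F n m) (Om (Base F m)) _
    (finite_face F n m i P.1 P.2.2.1) (face (Torus F n) m i y))).symm.trans h2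
  have h3 : algebraMap _ (AC (Base F (m + 1))) s * ∑ e ∈ ptsF_Face P, e y = algebraMap _ _ r :=
    hv1 (by rw [map_mul]; exact h1)
  have h4 := congrArg (fun x => algebraMap _ (Om (Base F m)) (φ x)) h3
  simp only [map_mul, hφ, ← IsScalarTower.algebraMap_apply, ← hm] at h4
  have h5 := mul_left_cancel₀ hs (h4.trans h2.symm)
  apply hv
  rw [← map_sum, h5, pull_single, Finsupp.sum, Finsupp.sum, map_sum]
  refine Finset.sum_congr rfl fun Q _ => ?_
  rw [map_mul, map_intCast, trQ_pts_Face _ _ Q (pts_finite Q (ac _))]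
  rfl

omit [CharZero F] in
theorem xval_face_Face (i : Fin (m + 2)) {B : Type u} [CommRing B] (e : Amb F n m →+* B) :
    xval (e.comp (face (Torus F n) m i).toRingHom) = xval e := by
  funext k
  ext
  simp [xval, xu, face]

end Main

theorem phi_face {F : Type u} [Field F] [CharZero F] (𝕂 : Type u) [Field 𝕂] {n m : ℕ}
    (i : Fin (m + 2)) (P : Elem F n (m + 1)) :
    plusMap (W 𝕂 n) (smR F i.succAbove) (phi 𝕂 P) =
      phiL F 𝕂 n m (castK F 𝕂 n m (pull F n m i (Finsupp.single P 1))) := by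
  refine plus_ext (AC (Base F m)) ?_
  obtain ⟨φ, hφ⟩ := exists_lift (AC (Base F (m + 1)))
    ((ac (Base F m)).comap (smR F i.succAbove))
  have hφ' : ∀ r, φ (algebraMap _ _ r) = algebraMap _ (AC (Base F m)) (face F m i r) := fun r => by
    rw [face_eq_sm]; exact DFunLike.congr_fun hφ r
  have : CharZero (AC (Base F m)) :=
    charZero_of_injective_algebraMap (FaithfulSMul.algebraMap_injective (Base F m) _)
  obtain ⟨c, hc⟩ : ∃ c, c = pull F n m i (Finsupp.single P 1) := ⟨_, rfl⟩
  have hz := dedekind_Face (A := Amb F n (m + 1)) (B := AC (Base F m))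
    (∑ e ∈ ptsF_Face P, Finsupp.single (φ.comp e) 1 - ∑ Q ∈ c.support, c Q •
      ∑ e ∈ ptsF_Face Q, Finsupp.single (e.comp (face (Torus F n) m i).toRingHom) 1) fun y => by
    have h := sum_face_Face i P φ hφ' y
    rw [← hc] at h
    have l : ∀ z : (Amb F n (m + 1) →+* AC (Base F m)) →₀ ℤ,
        (z.sum fun e c => (c : AC (Base F m)) * e y) =
          Finsupp.linearCombination ℤ (fun e => e y) z := fun z => by
      simp only [Finsupp.linearCombination_apply, zsmul_eq_mul]
    rw [l]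
    simp only [map_sub, map_sum, map_zsmul, Finsupp.linearCombination_single, one_smul,
      zsmul_eq_mul]
    exact sub_eq_zero.2 h
  have h2 := congrArg (Finsupp.linearCombination ℤ fun e : Amb F n (m + 1) →+* AC (Base F m) =>
    (Finsupp.single (xval e) 1 : Wo 𝕂 n (AC (Base F m)))) (sub_eq_zero.1 hz)
  simp only [map_sum, map_zsmul, Finsupp.linearCombination_single, one_smul, xval_face_Face] at h2
  have h3 : (phiL F 𝕂 n m (castK F 𝕂 n m c)).1 (ac (Base F m)) =
      ∑ Q ∈ c.support, c Q • ∑ e ∈ ptsF_Face Q, Finsupp.single (xval e) (1 : 𝕂) := by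
    conv_lhs => rw [← Finsupp.sum_single c, Finsupp.sum, map_sum, map_sum, Plus.sum_apply]
    refine Finset.sum_congr rfl fun Q _ => ?_
    rw [← phi_ac_Face, ← Int.cast_smul_eq_zsmul 𝕂, ← Plus.smul_apply]
    simp [phiL, castK]
  rw [← hc, h3, ← h2, plusMap_apply, ← (phi 𝕂 P).nat (ac _) _ φ hφ, phi_ac_Face, map_sum]
  exact Finset.sum_congr rfl fun e _ => Wmap_single 𝕂 n φ _ _

end

end Pool.Agent.MP_e2821c_ag.Cy
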