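import Pool.Agent.Lib.MP_e2821c_ag.Defs

/-!
# Correspondences with cyclic or abelian geometric monodromy
-/

namespace Pool.Agent.MP_e2821c_ag

universe u

noncomputable section

section General

variable (K L : Type u) [Field K] [Field L] [Algebra K L]

/-- `L / K` is a finite Galois extension with cyclic group. -/
def CyclicExt : Prop := FiniteDimensional K L ∧ IsGalois K L ∧ IsCyclic (L ≃ₐ[K] L)

/-- `L / K` is a finite Galois extension with abelian group. -/
def AbelianExt : Prop := FiniteDimensional K L ∧ IsAbelianGalois K L

variable (R A : Type u) [CommRing R] [CommRing A] (g : R →+* A) (ι : R →+* K) (P : Ideal A)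

/-- The ring `A / P` embeds into `L` compatibly with the maps from `R`. -/
def EmbedsIn : Prop := ∃ e : A →+* L, RingHom.ker e = P ∧ e.comp g = (algebraMap K L).comp ι

/-- The ring `A / P` embeds over `R` into a finite cyclic extension of `K`. -/
def CyclicOver : Prop :=
  ∃ E : IntermediateField K (AlgebraicClosure K), CyclicExt K E ∧ EmbedsIn K E R A g ι P

/-- The ring `A / P` embeds over `R` into a finite abelian extension of `K`. -/
def AbelianOver : Prop :=
  ∃ E : IntermediateField K (AlgebraicClosure K), AbelianExt K E ∧ EmbedsIn K E R A g ι P

end General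

variable (F : Type u) [Field F] (n j : ℕ)

/-- The function field `F̄(t_1, …, t_j)` of the simplex over the algebraic closure of `F`. -/
abbrev FnField : Type u := FractionRing (Base (AlgebraicClosure F) j)

/-- The inclusion `F[t_1, …, t_j] → F̄(t_1, …, t_j)`. -/
def toFnField : Base F j →+* FnField F j :=
  (algebraMap (Base (AlgebraicClosure F) j) (FnField F j)).comp
    (MvPolynomial.map (algebraMap F (AlgebraicClosure F)))

/-- `V(P) → Δ^j` has cyclic geometric monodromy: the coordinate ring of `V(P)` embeds over
`F[t_1, …, t_j]` into a finite cyclic extension of `F̄(t_1, …, t_j)`. -/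
def CyclicMono (P : Elem F n j) : Prop :=
  CyclicOver (FnField F j) (Base F j) (Amb F n j) (proj F n j) (toFnField F j) P.1

/-- `V(P) → Δ^j` has abelian geometric monodromy: the coordinate ring of `V(P)` embeds over
`F[t_1, …, t_j]` into a finite abelian extension of `F̄(t_1, …, t_j)`. -/
def AbelianMono (P : Elem F n j) : Prop :=
  AbelianOver (FnField F j) (Base F j) (Amb F n j) (proj F n j) (toFnField F j) P.1

end

end Pool.Agent.MP_e2821c_ag
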