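import Pool.Agent.Lib.MP_e2821c_ag.Cy.Main
import Pool.Agent.Lib.MP_e2821c_ag.Cy.StDefs

namespace Pool.Agent.MP_e2821c_ag.Cy

universe u

variable {F : Type u} [Field F] {n m : ℕ} {P : Elem F n m}

theorem cyclicCover_of_mono (h : CyclicMono F n m P) : CyclicCover F n m P := by
  obtain ⟨E, ⟨h1, h2, h3⟩, e, h4, h5⟩ := h
  exact ⟨E, h1, h2, h3, e, h4, fun r => RingHom.congr_fun h5 r⟩

theorem abelianCover_of_mono (h : AbelianMono F n m P) : AbelianCover F n m P := by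
  obtain ⟨E, ⟨h1, h2⟩, e, h4, h5⟩ := h
  exact ⟨E, h1, h2, e, h4, fun r => RingHom.congr_fun h5 r⟩

theorem cyclic_mono_cycles (F : Type u) [Field F] [CharZero F] (n j : ℕ) (hj : n < 2 * (j + 1))
    (c : Cor F n (j + 1))
    (hc : ∀ P ∈ c.support, Degenerate F n (j + 1) P ∨ CyclicMono F n (j + 1) P ∨
      (n ≤ 2 ∧ AbelianMono F n (j + 1) P))
    (hb : SameClass F n j (bd F n j c) 0) :
    ∃ N : ℕ, 0 < N ∧ ∃ b : Cor F n (j + 2), SameClass F n (j + 1) (bd F n (j + 1) b) (N • c) :=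
  cyclic_cycles F n j hj c (fun P hP => (hc P hP).imp_right fun h =>
    h.imp cyclicCover_of_mono fun h' => ⟨h'.1, abelianCover_of_mono h'.2⟩) hb

end Pool.Agent.MP_e2821c_ag.Cy
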