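import Pool.Agent.Lib.MP_e2821c_ag.Cy.PsiB
import Pool.Agent.Lib.MP_e2821c_ag.Cy.NormalForm
import Pool.Agent.Lib.MP_e2821c_ag.Cy.Pencil

namespace Pool.Agent.MP_e2821c_ag.Cy

open MvPolynomial
open scoped TensorProduct

universe u v w

noncomputable section

section Aux

set_option linter.unusedSectionVars false

variable {k : Type u} [Field k] [CharZero k] [IsAlgClosed k] {m n : ℕ}

theorem Eig.smul_Indep {χ : Gm k m →* kˣ} {u : Uo k (Bm k m)} (h : Eig χ u) (c : k) :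
    Eig χ (c • u) := fun g => by
  rw [map_smul, h g, smul_comm]

theorem eig_sum_Indep {ι : Type*} (χ : Gm k m →* kˣ) (S : Finset ι) :
    ∀ (u : ι → Uo k (Bm k m)) (t : Uo k (Bm k m)),
      (∀ j ∈ S, ∃ χ', χ' ≠ χ ∧ Eig χ' (u j)) → Eig χ t → t = ∑ j ∈ S, u j → t = 0 := by
  classical
  induction S using Finset.induction_on with
  | empty => intro u t _ _ h; rw [h, Finset.sum_empty]
  | insert j S hj ih =>
    intro u t hu ht h
    obtain ⟨χ₀, hne, h₀⟩ := hu j (Finset.mem_insert_self j S)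
    obtain ⟨g, hg⟩ : ∃ g, χ₀ g ≠ χ g := by
      by_contra hc
      exact hne (MonoidHom.ext fun g => by
        by_contra hg
        exact hc ⟨g, hg⟩)
    have hg' : (χ g : k) - (χ₀ g : k) ≠ 0 := fun e => hg (Units.ext (sub_eq_zero.1 e)).symm
    rw [Finset.sum_insert hj] at h
    have key : ((χ g : k) - (χ₀ g : k)) • t =
        ∑ i ∈ S, (Umap k (g : Bm k m →+* Bm k m) (u i) - (χ₀ g : k) • u i) := by
      rw [sub_smul, ← ht g, Finset.sum_sub_distrib, ← Finset.smul_sum, ← map_sum, h, map_add,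
        h₀ g, smul_add]
      abel
    have := ih (fun i => Umap k (g : Bm k m →+* Bm k m) (u i) - (χ₀ g : k) • u i) _
      (fun i hi => by
        obtain ⟨χ', h1, h2⟩ := hu i (Finset.mem_insert_of_mem hi)
        refine ⟨χ', h1, ?_⟩
        rw [h2 g, ← sub_smul]
        exact h2.smul_Indep _) (ht.smul_Indep _) key
    exact (smul_eq_zero.1 this).resolve_left hg'

theorem exists_fun_Indep (χ : Gm k m →* kˣ) {V : Type u} [AddCommGroup V] [Module k V]
    (j : V →ₗ[k] Uo k (Bm k m)) (hj : Function.Injective j) (he : ∀ v, Eig χ (j v))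
    (μ : V →ₗ[k] k) :
    ∃ l : Uo k (Bm k m) →ₗ[k] k, (∀ v, l (j v) = μ v) ∧
      ∀ χ' u, Eig χ' u → l u ≠ 0 → χ' = χ := by
  classical
  set W : Submodule k (Uo k (Bm k m)) :=
    Submodule.span k {u | ∃ χ', χ' ≠ χ ∧ Eig χ' u} with hW
  have hinj : LinearMap.ker (W.mkQ ∘ₗ j) = ⊥ := by
    rw [LinearMap.ker_eq_bot']
    intro v hv
    rw [LinearMap.comp_apply, Submodule.mkQ_apply, Submodule.Quotient.mk_eq_zero, hW,
      Submodule.mem_span_iff_exists_finset_subset] at hv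
    obtain ⟨f, S, hS, -, hsum⟩ := hv
    have := eig_sum_Indep χ S (fun a => f a • a) (j v) (fun a ha => by
      obtain ⟨χ', h1, h2⟩ := hS ha
      exact ⟨χ', h1, h2.smul_Indep _⟩) (he v) hsum.symm
    exact hj (by rw [this, map_zero])
  obtain ⟨g, hg⟩ := LinearMap.exists_leftInverse_of_injective _ hinj
  refine ⟨μ ∘ₗ g ∘ₗ W.mkQ, fun v => ?_, fun χ' u hu hl => ?_⟩
  · have := DFunLike.congr_fun hg v
    simp only [LinearMap.comp_apply, LinearMap.id_apply] at this ⊢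
    rw [this]
  · by_contra hne
    apply hl
    have : W.mkQ u = 0 := by
      rw [Submodule.mkQ_apply, Submodule.Quotient.mk_eq_zero]
      exact Submodule.subset_span ⟨χ', hne, hu⟩
    simp only [LinearMap.comp_apply, this, map_zero]

theorem cB_injective_Indep : Function.Injective (cB k m) := (cB k m).injective

theorem block_elt_Indep {f : Base k m} (hf : NonConst f) {κ : Bm k 1 →+* Bm k m}
    (hκ : IsLift (iB k m) f κ) {ε : Gm k 1 →* kˣ} {v : Uo k (Bm k 1)} (hv : v ≠ 0)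
    (he : Eig ε v) (h1 : ε ≠ 1) :
    Umap k κ v ≠ 0 ∧ ∃ χ, χ ≠ 1 ∧ Eig χ (Umap k κ v) := by
  have hinj : Function.Injective (Umap k κ) := Umap_injective (hκ.injective hf)
  obtain ⟨r, hr⟩ := exists_restrict hf hκ
  have hE : Eig (ε.comp r) (Umap k κ v) := fun g => by
    have e : (g : Bm k m →+* Bm k m).comp κ = κ.comp (r g : Bm k 1 →+* Bm k 1) :=
      RingHom.ext fun x => (hr g x).symm
    rw [← Umap_comp, e, Umap_comp, he (r g), map_smul]
    rfl
  refine ⟨fun h => hv (hinj (by rw [h, map_zero])), ε.comp r, fun h => h1 ?_, hE⟩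
  rw [h] at hE
  obtain ⟨c, hc⟩ := isConst_of_eig_one hE
  have e : κ.comp (cB k 1) = cB k m := hκ.comp_cB
  rw [← e, Umap_comp] at hc
  exact he.unique (eig_one_of_isConst ⟨c, hinj hc⟩) hv

theorem not_isConst_Indep {χ : Gm k m →* kˣ} {u : Uo k (Bm k m)} (h : Eig χ u) (hχ : χ ≠ 1)
    (hu : u ≠ 0) : ¬ IsConst u := fun hc => hχ (h.unique (eig_one_of_isConst hc) hu)

theorem In.smul_Indep {u : Uo k (Bm k m)} {f : Base k m} (h : In u f) (c : k) : In (c • u) f := by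
  obtain ⟨κ, h1, h2⟩ := h
  exact ⟨κ, h1, Submodule.smul_mem _ c h2⟩

theorem nonConst_Indep {I : Type} {p : I → Base k m} (hp : ¬ DegT p) (b : I) : NonConst (p b) := by
  by_contra h
  exact hp (Or.inl ⟨b, h⟩)

theorem eq_of_dep_Indep {I : Type} {p : I → Base k m} (hp : ¬ DegT p) {b b' : I}
    (h : Dep (p b) (p b')) : b = b' := by
  by_contra hne
  exact hp (Or.inr ⟨b, b', hne, h⟩)

theorem mem_blockOf_Indep {I : Finset (Fin n)} (blk : Fin n → I ⊕ Bas k) (b : I) (i : Fin n) :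
    i ∈ blockOf blk b ↔ blk i = Sum.inl b := by
  unfold blockOf
  simp only [Finset.mem_filter, Finset.mem_univ, true_and]

theorem tup_inl_Indep {I : Finset (Fin n)} (δ : Dec k I) (κ : I → Bm k 1 →+* Bm k m) {i : Fin n}
    {b : I} (h : δ.blk i = Sum.inl b) : tup δ κ (cB k m) i = Umap k (κ b) (δ.w b i) := by
  rw [tup, h, Sum.elim_inl]

theorem tup_inr_Indep {I : Finset (Fin n)} (δ : Dec k I) (κ : I → Bm k 1 →+* Bm k m) {i : Fin n}
    {a : Bas k} (h : δ.blk i = Sum.inr a) : tup δ κ (cB k m) i = Umap k (cB k m) (bas k a) := by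
  rw [tup, h, Sum.elim_inr]

theorem tup_block_Indep {I : Finset (Fin n)} (δ : Dec k I) {p : I → Base k m} (hp : ¬ DegT p)
    {κ : I → Bm k 1 →+* Bm k m} (hκ : ∀ b, IsLift (iB k m) (p b) (κ b)) {i : Fin n}
    {b : I} (h : δ.blk i = Sum.inl b) :
    tup δ κ (cB k m) i ≠ 0 ∧ In (tup δ κ (cB k m) i) (p b) ∧
      ∃ χ, χ ≠ 1 ∧ Eig χ (tup δ κ (cB k m) i) := by
  rw [tup_inl_Indep δ κ h]
  obtain ⟨-, h0, ε, h1, h2, -⟩ := (δ.isRep b).1.1
  have hi : i ∈ blockOf δ.blk b := (mem_blockOf_Indep _ _ _).2 h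
  obtain ⟨h3, h4⟩ := block_elt_Indep (nonConst_Indep hp b) (hκ b) (h0 i hi) (h1 i hi) (h2 i hi)
  exact ⟨h3, ⟨κ b, hκ b, δ.w b i, rfl⟩, h4⟩

/-- The functionals dual to a nondegenerate generator. -/
def Dual_Indep {I : Finset (Fin n)} (δ : Dec k I) (κ : I → Bm k 1 →+* Bm k m)
    (l : Fin n → Uo k (Bm k m) →ₗ[k] k) : Prop :=
  ∀ i, l i (tup δ κ (cB k m) i) = 1 ∧
    (∀ b, δ.blk i = Sum.inl b → ∀ χ u, Eig χ u → l i u ≠ 0 →
      χ ≠ 1 ∧ ∃ c : k, c ≠ 0 ∧ u = c • tup δ κ (cB k m) i) ∧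
    ∀ a, δ.blk i = Sum.inr a → (∀ χ u, Eig χ u → l i u ≠ 0 → χ = 1) ∧
      ∀ a', l i (Umap k (cB k m) (bas k a')) ≠ 0 → a' = a

theorem exists_dual_Indep {I : Finset (Fin n)} (δ : Dec k I) {p : I → Base k m} (hp : ¬ DegT p)
    {κ : I → Bm k 1 →+* Bm k m} (hκ : ∀ b, IsLift (iB k m) (p b) (κ b)) :
    ∃ l, Dual_Indep δ κ l := by
  classical
  have key : ∀ i, ∃ l : Uo k (Bm k m) →ₗ[k] k, l (tup δ κ (cB k m) i) = 1 ∧
      (∀ b, δ.blk i = Sum.inl b → ∀ χ u, Eig χ u → l u ≠ 0 →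
        χ ≠ 1 ∧ ∃ c : k, c ≠ 0 ∧ u = c • tup δ κ (cB k m) i) ∧
      ∀ a, δ.blk i = Sum.inr a → (∀ χ u, Eig χ u → l u ≠ 0 → χ = 1) ∧
        ∀ a', l (Umap k (cB k m) (bas k a')) ≠ 0 → a' = a := by
    intro i
    rcases hb : δ.blk i with b | a
    · obtain ⟨h0, -, χ, h1, h2⟩ := tup_block_Indep δ hp hκ hb
      obtain ⟨l, hl1, hl2⟩ := exists_fun_Indep χ (V := k)
        (LinearMap.toSpanSingleton k _ (tup δ κ (cB k m) i))
        (LinearMap.ker_eq_bot.1 (LinearMap.ker_toSpanSingleton k h0))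
        (fun c => h2.smul_Indep c) LinearMap.id
      refine ⟨l, ?_, fun b' _ χ' u hu hl => ?_, fun a ha => by cases ha⟩
      · have := hl1 1
        rwa [LinearMap.toSpanSingleton_apply, one_smul] at this
      · have e := hl2 χ' u hu hl
        subst e
        obtain ⟨c, hc⟩ := mult_one h1 h2 hu h0
        refine ⟨h1, c, fun hc0 => hl ?_, hc⟩
        rw [hc, hc0, zero_smul, map_zero]
    · obtain ⟨l, hl1, hl2⟩ := exists_fun_Indep (1 : Gm k m →* kˣ) (V := Uo k k)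
        (Umap k (cB k m)) (Umap_injective cB_injective_Indep)
        (fun c => eig_one_of_isConst ⟨c, rfl⟩) ((bas k).coord a)
      refine ⟨l, ?_, fun b hb' => (by cases hb'), fun a₀ ha₀ => ⟨hl2, fun a' ha' => ?_⟩⟩
      · rw [tup_inr_Indep δ κ hb, hl1]
        simp
      · cases ha₀
        rw [hl1] at ha'
        by_contra hne
        apply ha'
        simp [Finsupp.single_apply, hne]
  choose l hl using key
  exact ⟨l, hl⟩

/-- The tensor product of functionals. -/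
def tens_Indep (l : Fin n → Uo k (Bm k m) →ₗ[k] k) : To k n (Bm k m) →ₗ[k] k :=
  PiTensorProduct.lift ((MultilinearMap.mkPiAlgebra k (Fin n) k).compLinearMap l)

theorem tens_tp_Indep (l : Fin n → Uo k (Bm k m) →ₗ[k] k) (u : Fin n → Uo k (Bm k m)) :
    tens_Indep l (tp k n u) = ∏ i, l i (u i) := by
  rw [tens_Indep, tp_eq, PiTensorProduct.lift.tprod]
  simp

theorem kill_NB_Indep {I : Finset (Fin n)} {δ : Dec k I} {p : I → Base k m} (hp : ¬ DegT p)
    {κ : I → Bm k 1 →+* Bm k m} (hκ : ∀ b, IsLift (iB k m) (p b) (κ b))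
    {l : Fin n → Uo k (Bm k m) →ₗ[k] k} (hl : Dual_Indep δ κ l) {x : To k n (Bm k m)}
    (hx : x ∈ spanNB k n I.card m) : tens_Indep l x = 0 := by
  classical
  have : spanNB k n I.card m ≤ LinearMap.ker (tens_Indep l) := by
    rw [spanNB, Submodule.span_le]
    rintro _ ⟨u, hu, ⟨ys, hys, hin⟩, rfl⟩
    rw [SetLike.mem_coe, LinearMap.mem_ker, tens_tp_Indep]
    by_contra hne
    have hne' : ∀ i, l i (u i) ≠ 0 := fun i => Finset.prod_ne_zero_iff.1 hne i (Finset.mem_univ i)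
    have key : ∀ b : I, ∃ f ∈ ys, NonConst f ∧ Dep (p b) f := by
      intro b
      obtain ⟨χ, hχ⟩ := hu b
      obtain ⟨h1, c, hc, e⟩ := (hl b).2.1 b (δ.lead b) χ _ hχ (hne' b)
      have h0 : u b ≠ 0 := fun h => hne' b (by rw [h, map_zero])
      have hnc : ¬ IsConst (u b) := not_isConst_Indep hχ h1 h0
      obtain ⟨f, hf, hin'⟩ := (hin b).resolve_left hnc
      have hin2 : In (u b) (p b) := by
        rw [e]
        exact (tup_block_Indep δ hp hκ (δ.lead b)).2.1.smul_Indep c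
      refine ⟨f, hf, ?_, dep_of_in hnc hin2 hin'⟩
      by_contra hf'
      exact hnc (isConst_of_in hin' hf')
    choose f hf1 hf2 hf3 using key
    have hinj : Function.Injective f := fun b b' h =>
      eq_of_dep_Indep hp ((hf3 b).trans (by rw [h]; exact (hf3 b').symm) (hf2 b))
    have hle : (Finset.univ : Finset I).card ≤ ys.card :=
      Finset.card_le_card_of_injOn f (fun b _ => hf1 b) hinj.injOn
    rw [Finset.card_univ, Fintype.card_coe] at hle
    omega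
  exact this hx

/-- Two generators with the same lines. -/
def Match_Indep {I I' : Finset (Fin n)} (δ : Dec k I) (δ' : Dec k I')
    (κ : I → Bm k 1 →+* Bm k m) (κ' : I' → Bm k 1 →+* Bm k m) : Prop :=
  ∀ i, (∃ b b' c, δ.blk i = Sum.inl b ∧ δ'.blk i = Sum.inl b' ∧ c ≠ (0 : k) ∧
    tup δ' κ' (cB k m) i = c • tup δ κ (cB k m) i) ∨
      ∃ a, δ.blk i = Sum.inr a ∧ δ'.blk i = Sum.inr a

theorem Match_Indep.symm {I I' : Finset (Fin n)} {δ : Dec k I} {δ' : Dec k I'}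
    {κ : I → Bm k 1 →+* Bm k m} {κ' : I' → Bm k 1 →+* Bm k m} (h : Match_Indep δ δ' κ κ') :
    Match_Indep δ' δ κ' κ := fun i => by
  rcases h i with ⟨b, b', c, h1, h2, h3, h4⟩ | ⟨a, h1, h2⟩
  · exact Or.inl ⟨b', b, c⁻¹, h2, h1, inv_ne_zero h3, by
      rw [h4, smul_smul, inv_mul_cancel₀ h3, one_smul]⟩
  · exact Or.inr ⟨a, h2, h1⟩

theorem match_of_dual_Indep {I I' : Finset (Fin n)} {δ : Dec k I} {δ' : Dec k I'}
    {p' : I' → Base k m} (hp' : ¬ DegT p') {κ : I → Bm k 1 →+* Bm k m}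
    {κ' : I' → Bm k 1 →+* Bm k m} (hκ' : ∀ b, IsLift (iB k m) (p' b) (κ' b))
    {l : Fin n → Uo k (Bm k m) →ₗ[k] k} (hl : Dual_Indep δ κ l)
    (hne : ∀ i, l i (tup δ' κ' (cB k m) i) ≠ 0) : Match_Indep δ δ' κ κ' := by
  intro i
  rcases hb : δ.blk i with b | a <;> rcases hb' : δ'.blk i with b' | a'
  · obtain ⟨-, -, χ, -, h2⟩ := tup_block_Indep δ' hp' hκ' hb'
    obtain ⟨-, c, hc, e⟩ := (hl i).2.1 b hb χ _ h2 (hne i)
    exact Or.inl ⟨b, b', c, rfl, rfl, hc, e⟩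
  · have h2 : Eig 1 (tup δ' κ' (cB k m) i) := by
      rw [tup_inr_Indep δ' κ' hb']
      exact eig_one_of_isConst ⟨_, rfl⟩
    exact absurd rfl ((hl i).2.1 b hb 1 _ h2 (hne i)).1
  · obtain ⟨-, -, χ, h1, h2⟩ := tup_block_Indep δ' hp' hκ' hb'
    exact absurd (((hl i).2.2 a hb).1 χ _ h2 (hne i)) h1
  · have h2 := hne i
    rw [tup_inr_Indep δ' κ' hb'] at h2
    have e := ((hl i).2.2 a hb).2 a' h2
    exact Or.inr ⟨a, rfl, by rw [e]⟩

theorem match_dep_Indep {I I' : Finset (Fin n)} {δ : Dec k I} {δ' : Dec k I'}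
    {p : I → Base k m} (hp : ¬ DegT p) {p' : I' → Base k m} (hp' : ¬ DegT p')
    {κ : I → Bm k 1 →+* Bm k m} (hκ : ∀ b, IsLift (iB k m) (p b) (κ b))
    {κ' : I' → Bm k 1 →+* Bm k m} (hκ' : ∀ b, IsLift (iB k m) (p' b) (κ' b))
    (h : Match_Indep δ δ' κ κ') {i : Fin n} {b : I} (hb : δ.blk i = Sum.inl b) :
    ∃ b', δ'.blk i = Sum.inl b' ∧ Dep (p b) (p' b') := by
  rcases h i with ⟨b₀, b', c, h1, h2, h3, h4⟩ | ⟨a, h1, h2⟩
  · obtain ⟨h0, hin', χ, hχ, hE⟩ := tup_block_Indep δ' hp' hκ' h2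
    refine ⟨b', h2, dep_of_in (not_isConst_Indep hE hχ h0) ?_ hin'⟩
    rw [h4]
    exact (tup_block_Indep δ hp hκ hb).2.1.smul_Indep c
  · rw [hb] at h1
    cases h1

theorem match_le_Indep {I I' : Finset (Fin n)} {δ : Dec k I} {δ' : Dec k I'}
    {p : I → Base k m} (hp : ¬ DegT p) {p' : I' → Base k m} (hp' : ¬ DegT p')
    {κ : I → Bm k 1 →+* Bm k m} (hκ : ∀ b, IsLift (iB k m) (p b) (κ b))
    {κ' : I' → Bm k 1 →+* Bm k m} (hκ' : ∀ b, IsLift (iB k m) (p' b) (κ' b))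
    (h : Match_Indep δ δ' κ κ') {i : Fin n} {b : I} {b' : I'} (hb : δ.blk i = Sum.inl b)
    (hb' : δ'.blk i = Sum.inl b') : (b' : Fin n) ≤ b := by
  obtain ⟨c, hc, hd⟩ := match_dep_Indep hp hp' hκ hκ' h hb
  obtain ⟨c', hc', hd'⟩ := match_dep_Indep hp hp' hκ hκ' h (δ.lead b)
  have e1 : c = b' := by
    rw [hb'] at hc
    exact (Sum.inl_injective hc).symm
  have e2 : c = c' := eq_of_dep_Indep hp' (hd.symm.trans hd' (nonConst_Indep hp b))
  rw [← e1, e2]
  exact δ'.min b c' hc'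

theorem match_lead_Indep {I I' : Finset (Fin n)} {δ : Dec k I} {δ' : Dec k I'}
    {p : I → Base k m} (hp : ¬ DegT p) {p' : I' → Base k m} (hp' : ¬ DegT p')
    {κ : I → Bm k 1 →+* Bm k m} (hκ : ∀ b, IsLift (iB k m) (p b) (κ b))
    {κ' : I' → Bm k 1 →+* Bm k m} (hκ' : ∀ b, IsLift (iB k m) (p' b) (κ' b))
    (h : Match_Indep δ δ' κ κ') {i : Fin n} {b : I} (hb : δ.blk i = Sum.inl b) :
    ∃ b' : I', δ'.blk i = Sum.inl b' ∧ (b' : Fin n) = b := by
  obtain ⟨b', hb', -⟩ := match_dep_Indep hp hp' hκ hκ' h hb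
  exact ⟨b', hb', le_antisymm (match_le_Indep hp hp' hκ hκ' h hb hb')
    (match_le_Indep hp' hp hκ' hκ h.symm hb' hb)⟩

theorem match_set_Indep {I I' : Finset (Fin n)} {δ : Dec k I} {δ' : Dec k I'}
    {p : I → Base k m} (hp : ¬ DegT p) {p' : I' → Base k m} (hp' : ¬ DegT p')
    {κ : I → Bm k 1 →+* Bm k m} (hκ : ∀ b, IsLift (iB k m) (p b) (κ b))
    {κ' : I' → Bm k 1 →+* Bm k m} (hκ' : ∀ b, IsLift (iB k m) (p' b) (κ' b))
    (h : Match_Indep δ δ' κ κ') : I = I' := by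
  refine Finset.Subset.antisymm (fun i hi => ?_) fun i hi => ?_
  · obtain ⟨b', -, e⟩ := match_lead_Indep hp hp' hκ hκ' h (δ.lead ⟨i, hi⟩)
    have e' : (b' : Fin n) = i := e
    rw [← e']
    exact b'.2
  · obtain ⟨b', -, e⟩ := match_lead_Indep hp' hp hκ' hκ h.symm (δ'.lead ⟨i, hi⟩)
    have e' : (b' : Fin n) = i := e
    rw [← e']
    exact b'.2

theorem match_eq_Indep {I : Finset (Fin n)} {δ δ' : Dec k I}
    {p p' : I → Base k m} (hp : ¬ DegT p) (hp' : ¬ DegT p')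
    {κ κ' : I → Bm k 1 →+* Bm k m} (hκ : ∀ b, IsLift (iB k m) (p b) (κ b))
    (hκ' : ∀ b, IsLift (iB k m) (p' b) (κ' b))
    (h : Match_Indep δ δ' κ κ') : (δ', p') = (δ, p) := by
  have hblk : δ'.blk = δ.blk := by
    funext i
    rcases hb : δ.blk i with b | a
    · obtain ⟨b', h1, h2⟩ := match_lead_Indep hp hp' hκ hκ' h hb
      rw [h1, Subtype.ext h2]
    · rcases h i with ⟨b₀, b', c, h1, h2, h3, h4⟩ | ⟨a', h1, h2⟩
      · rw [hb] at h1
        cases h1
      · rw [h2, ← h1, hb]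
  have key : ∀ b, δ'.w b = δ.w b ∧ p' b = p b := fun b => by
    have hr : IsRep (blockOf δ.blk b) (δ'.w b) := by
      rw [← hblk]
      exact δ'.isRep b
    refine normal_form_unique hr (δ.isRep b) (nonConst_Indep hp' b) (nonConst_Indep hp b)
      (hκ' b) (hκ b) fun i hi => ?_
    rw [mem_blockOf_Indep] at hi
    have hi' : δ'.blk i = Sum.inl b := by rw [hblk]; exact hi
    rcases h i with ⟨b₀, b', c, h1, h2, h3, h4⟩ | ⟨a', h1, h2⟩
    · rw [tup_inl_Indep δ' κ' hi', tup_inl_Indep δ κ hi] at h4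
      exact ⟨c, h3, h4⟩
    · rw [hi] at h1
      cases h1
  have hw : δ'.w = δ.w := funext fun b => (key b).1
  have hpp : p' = p := funext fun b => (key b).2
  have hδ : δ' = δ := by
    cases δ
    cases δ'
    dsimp only at hblk hw
    subst hblk
    subst hw
    rfl
  rw [hδ, hpp]

theorem Psi_ac_Indep {I : Finset (Fin n)} (δ : Dec k I) {p : I → Base k m}
    {κ : I → Bm k 1 →+* Bm k m} (hκ : ∀ b, IsLift (iB k m) (p b) (κ b)) :
    (Psi δ p).1 (ac (Base k m)) = tp k n (tup δ κ (cB k m)) :=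
  Psi_spec δ p (ac (Base k m)) κ hκ

theorem match_of_ne_Indep {I I' : Finset (Fin n)} (hc : I'.card = I.card) {δ : Dec k I}
    {p : I → Base k m} (hp : ¬ DegT p) {κ : I → Bm k 1 →+* Bm k m}
    (hκ : ∀ b, IsLift (iB k m) (p b) (κ b)) {l : Fin n → Uo k (Bm k m) →ₗ[k] k}
    (hl : Dual_Indep δ κ l) (δ' : Dec k I') (p' : I' → Base k m)
    (hne : tens_Indep l ((Psi δ' p').1 (ac (Base k m))) ≠ 0) :
    ¬ DegT p' ∧ ∃ κ' : I' → Bm k 1 →+* Bm k m, (∀ b, IsLift (iB k m) (p' b) (κ' b)) ∧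
      Match_Indep δ δ' κ κ' := by
  have hp' : ¬ DegT p' := fun hd => by
    refine hne (kill_NB_Indep hp hκ hl ?_)
    have := Psi_mem_spanBC_of_deg δ' hd
    rw [hc] at this
    refine Submodule.span_mono ?_ this
    rintro _ ⟨u, h1, h2, -, h3⟩
    exact ⟨u, h1, h2, h3⟩
  choose κ' hκ' using fun b => exists_isLift (iB k m) (p' b)
  refine ⟨hp', κ', hκ', match_of_dual_Indep hp' hκ' hl fun i => ?_⟩
  rw [Psi_ac_Indep δ' hκ', tens_tp_Indep] at hne
  exact Finset.prod_ne_zero_iff.1 hne i (Finset.mem_univ i)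

/-- Evaluation of a combination of generators. -/
def evalL_Indep (l : Fin n → Uo k (Bm k m) →ₗ[k] k) (I : Finset (Fin n)) :
    ((Dec k I × (I → Base k m)) →₀ k) →ₗ[k] k :=
  tens_Indep l ∘ₗ (Plus.at (H := TP k n) (ac (Base k m))) ∘ₗ PsiL k I m

theorem evalL_single_Indep (l : Fin n → Uo k (Bm k m) →ₗ[k] k) (I : Finset (Fin n))
    (z : Dec k I × (I → Base k m)) (c : k) :
    evalL_Indep l I (Finsupp.single z c) =
      c * tens_Indep l ((Psi z.1 z.2).1 (ac (Base k m))) := by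
  rw [evalL_Indep, LinearMap.comp_apply, LinearMap.comp_apply, PsiL,
    Finsupp.linearCombination_single, map_smul, map_smul, smul_eq_mul]
  rfl

end Aux

theorem independent_gen {k : Type u} [Field k] [CharZero k] [IsAlgClosed k] {m n s : ℕ}
    (x : ∀ I : Finset (Fin n), (Dec k I × (I → Base k m)) →₀ k)
    (h : (∑ I ∈ Finset.univ.filter (fun I : Finset (Fin n) => I.card = s),
      PsiL k I m (x I)).1 (ac (Base k m)) ∈ spanNB k n s m)
    (I : Finset (Fin n)) (hI : I.card = s) : x I ∈ degY k (Dec k I) I m := by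
  classical
  subst hI
  rw [degY, Finsupp.mem_supported']
  rintro ⟨δ, p⟩ hp
  have hp : ¬ DegT p := hp
  choose κ hκ using fun b => exists_isLift (iB k m) (p b)
  obtain ⟨l, hl⟩ := exists_dual_Indep δ hp hκ
  have h0 := kill_NB_Indep hp hκ hl h
  have h1 : ∑ I' ∈ Finset.univ.filter (fun I' : Finset (Fin n) => I'.card = I.card),
      evalL_Indep l I' (x I') = 0 := by
    rw [← h0, Plus.sum_apply, map_sum]
    rfl
  have h2 : ∀ I' : Finset (Fin n), I'.card = I.card → I' ≠ I → evalL_Indep l I' = 0 := by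
    intro I' hc hne
    refine Finsupp.lhom_ext fun z c => ?_
    rw [evalL_single_Indep, LinearMap.zero_apply]
    by_contra hz
    obtain ⟨hp', κ', hκ', hm⟩ := match_of_ne_Indep hc hp hκ hl z.1 z.2 (right_ne_zero_of_mul hz)
    exact hne (match_set_Indep hp hp' hκ hκ' hm).symm
  have h3 : evalL_Indep l I = Finsupp.lapply (δ, p) := by
    refine Finsupp.lhom_ext fun z c => ?_
    rw [evalL_single_Indep, Finsupp.lapply_apply]
    by_cases hz : z = (δ, p)
    · subst hz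
      rw [Finsupp.single_eq_same, Psi_ac_Indep δ hκ, tens_tp_Indep,
        Finset.prod_eq_one fun i _ => (hl i).1, mul_one]
    · rw [Finsupp.single_eq_of_ne' hz]
      by_contra hz'
      obtain ⟨hp', κ', hκ', hm⟩ :=
        match_of_ne_Indep rfl hp hκ hl z.1 z.2 (right_ne_zero_of_mul hz')
      exact hz (match_eq_Indep hp hp' hκ hκ' hm)
  rw [Finset.sum_eq_single_of_mem I (by simp) (fun I' hI' hne => by
    rw [h2 I' (Finset.mem_filter.1 hI').2 hne, LinearMap.zero_apply]), h3] at h1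
  exact h1

end

end Pool.Agent.MP_e2821c_ag.Cy
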