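import Pool.Agent.Lib.MP_e2821c_ag.Cy.Pencil
import Pool.Agent.Lib.MP_e2821c_ag.Cy.Luroth

namespace Pool.Agent.MP_e2821c_ag.Cy

open MvPolynomial
open scoped TensorProduct

universe u v w

noncomputable section

section Aux

variable {k : Type u} [Field k]

theorem Umap_pow_keeps {Ω : Type u} [CommRing Ω] (f : Ω →+* Ω) {w : Uo k Ω} {c : k}
    (h : Umap k f w = c • w) (M : ℕ) : Umap k (f ^ M) w = c ^ M • w := by
  induction M with
  | zero => rw [pow_zero, pow_zero, one_smul]; exact Umap_id k w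
  | succ M ih =>
    rw [pow_succ, RingHom.mul_def, Umap_comp, h, map_smul, ih, smul_smul, pow_succ, mul_comm]

theorem exists_period_keeps {k₁ Ω : Type u} [Field k₁] [Field Ω] [Algebra k₁ Ω]
    [Algebra.IsIntegral k₁ Ω] (a : Ω ≃ₐ[k₁] Ω) (x : Ω) :
    ∃ M : ℕ, 0 < M ∧ Function.IsPeriodicPt a M x := by
  obtain ⟨i, j, hij, h⟩ := Set.Finite.exists_lt_map_eq_of_forall_mem
    (f := fun i : ℕ => (a ^ i) x) (fun i => Set.mem_range_self (a ^ i)) (finite_orbit (R := k₁) x)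
  obtain ⟨d, rfl⟩ := Nat.exists_eq_add_of_lt hij
  refine ⟨d + 1, Nat.succ_pos d, ?_⟩
  have h2 : (a ^ i) x = (a ^ i) ((a ^ (d + 1)) x) := by
    rw [← AlgEquiv.mul_apply, ← pow_add, ← add_assoc]; exact h
  have h3 := (a ^ i).injective h2
  rw [Function.IsPeriodicPt, Function.IsFixedPt, ← AlgEquiv.coe_pow]
  exact h3.symm

theorem pow_eq_one_keeps [CharZero k] {Ω : Type u} [CommRing Ω] (f : Ω →+* Ω)
    (hf : ∀ x, ∃ M : ℕ, 0 < M ∧ Function.IsPeriodicPt f M x) {w : Uo k Ω} (hw : w ≠ 0) {c : k}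
    (h : Umap k f w = c • w) : ∃ M : ℕ, 0 < M ∧ c ^ M = 1 := by
  obtain ⟨E, hE⟩ := Umap_congr w
  choose M hM hp using hf
  refine ⟨∏ e ∈ E, M e, Finset.prod_pos fun e _ => hM e, ?_⟩
  have h1 := hE Ω (f ^ ∏ e ∈ E, M e) (RingHom.id Ω) fun e he => by
    rw [RingHom.coe_pow]
    exact (hp e).trans_dvd (Finset.dvd_prod_of_mem M he)
  rw [Umap_pow_keeps f h, Umap_id] at h1
  have h2 : (c ^ ∏ e ∈ E, M e - 1) • w = 0 := by rw [sub_smul, h1, one_smul, sub_self]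
  exact sub_eq_zero.1 ((smul_eq_zero.1 h2).resolve_right hw)

/-- The conjugate of a derivation by an automorphism. -/
def conjDer_keeps {Ω : Type u} [Field Ω] [Algebra k Ω] (a : Ω ≃ₐ[k] Ω) (D : Derivation k Ω Ω) :
    Derivation k Ω Ω :=
  Derivation.mk' (a.symm.toLinearMap ∘ₗ (D : Ω →ₗ[k] Ω) ∘ₗ a.toLinearMap) fun x y => by
    simp [Derivation.leibniz]

theorem conjDer_keeps_apply {Ω : Type u} [Field Ω] [Algebra k Ω] (a : Ω ≃ₐ[k] Ω)
    (D : Derivation k Ω Ω) (x : Ω) : conjDer_keeps a D x = a.symm (D (a x)) := rfl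

theorem ell_Umap_keeps {Ω : Type u} [Field Ω] [Algebra k Ω] (a : Ω ≃ₐ[k] Ω)
    (D : Derivation k Ω Ω) {t : Ω} (h : ∀ x, D (a x) = t * a (D x)) (w : Uo k Ω) :
    ell k D (Umap k (a : Ω →+* Ω) w) = t * a (ell k D w) := by
  induction w using TensorProduct.induction_on with
  | zero => simp
  | tmul c x =>
    rw [Umap_tmul, ell_tmul, ell_tmul, map_smul, map_div₀, toMul_ofMul, coe_umap]
    change c • (D (a _) / a _) = _
    rw [h, mul_smul_comm, mul_div_assoc]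
  | add x y hx hy => rw [map_add, map_add, hx, hy, map_add, map_add, mul_add]

end Aux

variable {k : Type u} [Field k] [CharZero k] [IsAlgClosed k] {n : ℕ}

omit [IsAlgClosed k] in
theorem der_line_keeps (D : Derivation k (Omm k 1) (Omm k 1)) (x : Omm k 1) :
    D x = D (algebraMap (Base k 1) (Omm k 1) (X 0)) * Dm k 1 0 x := by
  rw [derivation_eq_sum k 1 D x, Fin.sum_univ_one]

omit [IsAlgClosed k] in
theorem der_conj_keeps (a : Omm k 1 ≃ₐ[k] Omm k 1) :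
    ∃ t : Omm k 1, ∀ x, Dm k 1 0 (a x) = t * a (Dm k 1 0 x) := by
  refine ⟨Dm k 1 0 (a (algebraMap (Base k 1) (Omm k 1) (X 0))), fun x => ?_⟩
  have h := der_line_keeps (conjDer_keeps a (Dm k 1 0)) x
  rw [conjDer_keeps_apply, conjDer_keeps_apply] at h
  have h2 := congrArg a h
  rwa [map_mul, a.apply_symm_apply, a.apply_symm_apply] at h2

omit [IsAlgClosed k] in
theorem period_keeps (a : Omm k 1 ≃ₐ[k] Omm k 1) {t : Omm k 1} (ht : ¬ IsAlgebraic k t)
    (hat : a t = t) (x : Omm k 1) : ∃ M : ℕ, 0 < M ∧ Function.IsPeriodicPt a M x := by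
  let k₁ : IntermediateField k (Omm k 1) := IntermediateField.adjoin k {t}
  have : CharZero k₁ := algebraRat.charZero _
  have hDt : Dm k 1 0 t ≠ 0 := fun h0 => ht (isAlgebraic_of_derivations t fun D => by
    rw [der_line_keeps D, h0, mul_zero])
  have halg : ∀ y : Omm k 1, IsAlgebraic k₁ y := fun y =>
    isAlgebraic_of_derivations y fun D => by
      have h1 : D t = 0 :=
        D.map_algebraMap (⟨t, IntermediateField.mem_adjoin_simple_self k t⟩ : k₁)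
      have h2 := der_line_keeps (D.restrictScalars k) t
      have h3 := der_line_keeps (D.restrictScalars k) y
      rw [Derivation.restrictScalars_apply, h1] at h2
      rw [(mul_eq_zero.1 h2.symm).resolve_right hDt, zero_mul] at h3
      exact h3
  have : Algebra.IsIntegral k₁ (Omm k 1) := ⟨fun y => (halg y).isIntegral⟩
  have hfix : ∀ y ∈ k₁, a y = y := fun y hy => by
    have hle : k₁ ≤ IntermediateField.fixedField (Subgroup.zpowers a) := by
      refine IntermediateField.adjoin_le_iff.2 ?_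
      intro z hz
      rw [Set.mem_singleton_iff.1 hz, SetLike.mem_coe, IntermediateField.mem_fixedField_iff]
      intro f hf
      exact (Subgroup.zpowers_le (H := MulAction.stabilizer (Omm k 1 ≃ₐ[k] Omm k 1) t)).2 hat hf
    exact (IntermediateField.mem_fixedField_iff _ _).1 (hle hy) a (Subgroup.mem_zpowers a)
  let a₁ : Omm k 1 ≃ₐ[k₁] Omm k 1 := { a.toRingEquiv with commutes' := fun y => hfix y y.2 }
  exact exists_period_keeps a₁ x

omit [CharZero k] [IsAlgClosed k] in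
theorem vB_algebraMap_keeps (c : k) :
    vB k 1 (algebraMap k (Bm k 1) c) = algebraMap k (Omm k 1) c :=
  (IsScalarTower.algebraMap_apply k (Bm k 1) (Omm k 1) c).symm

omit [CharZero k] [IsAlgClosed k] in
theorem exists_extk_keeps (α : Bm k 1 ≃ₐ[k] Bm k 1) :
    ∃ a : Omm k 1 ≃ₐ[k] Omm k 1, (a : Omm k 1 →+* Omm k 1).comp (vB k 1) =
      (vB k 1).comp (α : Bm k 1 →+* Bm k 1) := by
  obtain ⟨a, ha⟩ := exists_ext (Base k 1) α.toRingEquiv
  refine ⟨{ a with commutes' := fun c => ?_ }, RingHom.ext fun x => ha x⟩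
  rw [← vB_algebraMap_keeps]
  exact (ha _).trans (congrArg (vB k 1) (α.commutes c))

omit [CharZero k] [IsAlgClosed k] in
theorem const_mem_keeps {𝒪 : ValuationSubring (Omm k 1)} (h𝒪 : IsInf 𝒪) (c : k) :
    algebraMap k (Omm k 1) c ∈ 𝒪 := by
  have h := (h𝒪 (C c) 1 one_ne_zero).2 (by simp)
  rw [map_one, div_one] at h
  rwa [IsScalarTower.algebraMap_apply k (Base k 1) (Omm k 1)]

omit [CharZero k] [IsAlgClosed k] in
theorem mem_of_X_mem_keeps {𝒪 : ValuationSubring (Omm k 1)}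
    (hk : ∀ c : k, algebraMap k (Omm k 1) c ∈ 𝒪)
    (hX : algebraMap (Base k 1) (Omm k 1) (X0 k) ∈ 𝒪) (y : Bm k 1) : vB k 1 y ∈ 𝒪 := by
  have hp : ∀ p : Base k 1, algebraMap (Base k 1) (Omm k 1) p ∈ 𝒪 := fun p => by
    induction p using MvPolynomial.induction_on with
    | C c =>
      have h := hk c
      rwa [IsScalarTower.algebraMap_apply k (Base k 1) (Omm k 1)] at h
    | add p q hp hq => rw [map_add]; exact add_mem hp hq
    | mul_X p i hp =>
      rw [map_mul, Subsingleton.elim i 0]; exact mul_mem hp hX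
  obtain ⟨P, hP, hy⟩ : IsIntegral (Base k 1) (vB k 1 y) := y.2
  let φ : Base k 1 →+* 𝒪 := (algebraMap (Base k 1) (Omm k 1)).codRestrict 𝒪 hp
  have hi : IsIntegral 𝒪 (vB k 1 y) := ⟨P.map φ, hP.map φ, by
    rw [Polynomial.eval₂_map]; exact hy⟩
  obtain ⟨z, hz⟩ := (IsIntegrallyClosed.isIntegral_iff (R := 𝒪) (K := Omm k 1)).1 hi
  rw [← hz]; exact z.2

omit [IsAlgClosed k] in
theorem ordK_eq_zero_keeps {𝒪 : ValuationSubring (Omm k 1)} {ord : Additive (Omm k 1)ˣ →+ ℚ}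
    (ho : IsOrd 𝒪 ord) (h : ∀ y : Bm k 1, vB k 1 y ∈ 𝒪) (u : Uo k (Bm k 1)) :
    ordK k ord (Umap k (vB k 1) u) = 0 := by
  induction u using TensorProduct.induction_on with
  | zero => simp
  | tmul c x =>
    rw [Umap_tmul, ordK_tmul]
    have h1 := (ho (umap (vB k 1) x.toMul)).1 (h _)
    have h2 := (ho (umap (vB k 1) x.toMul⁻¹)).1 (h _)
    rw [map_inv, ofMul_inv, map_neg] at h2
    rw [le_antisymm (neg_nonneg.1 h2) h1, Rat.cast_zero, mul_zero]
  | add x y hx hy => rw [map_add, map_add, hx, hy, add_zero]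

theorem ell_ne_zero_keeps {χ : Gm k 1 →* kˣ} {u : Uo k (Bm k 1)} (h : Eig χ u) (hχ : χ ≠ 1)
    (hu : u ≠ 0) : ell k (Dm k 1 0) (Umap k (vB k 1) u) ≠ 0 := fun h0 =>
  hχ (h.unique (eig_one_of_isConst (isConst_of_ell fun i => by
    rw [Subsingleton.elim i 0]; exact h0)) hu)

theorem ratio_transc_keeps {χ χ' : Gm k 1 →* kˣ} {u u' : Uo k (Bm k 1)} (h : Eig χ u)
    (h' : Eig χ' u') (hχ : χ ≠ 1) (hχ' : χ' ≠ 1) (hne : χ ≠ χ') (hu : u ≠ 0) (hu' : u' ≠ 0) :
    ¬ IsAlgebraic k (ell k (Dm k 1 0) (Umap k (vB k 1) u) /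
      ell k (Dm k 1 0) (Umap k (vB k 1) u')) := by
  intro ha
  obtain ⟨c, hc⟩ := minpoly.mem_range_of_degree_eq_one k _
    (IsAlgClosed.degree_eq_one_of_irreducible k (minpoly.irreducible ha.isIntegral))
  have h0 := ell_ne_zero_keeps h' hχ' hu'
  have h1 : IsConst (u - c • u') := isConst_of_ell fun i => by
    rw [Subsingleton.elim i 0, map_sub, map_sub, map_smul, map_smul, Algebra.smul_def, hc,
      div_mul_cancel₀ _ h0, sub_self]
  obtain ⟨g, hg⟩ : ∃ g, χ g ≠ 1 := by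
    by_contra hc
    exact hχ (MonoidHom.ext fun g => not_not.1 fun hg => hc ⟨g, hg⟩)
  have hg' : (χ g : k) - 1 ≠ 0 := sub_ne_zero.2 fun e => hg (Units.ext e)
  have h2 := eig_one_of_isConst h1 g
  rw [map_sub, map_smul, h g, h' g, MonoidHom.one_apply, Units.val_one, one_smul] at h2
  have h3 : u = (((χ g : k) - 1)⁻¹ * (c * ((χ' g : k) - 1))) • u' := by
    rw [mul_smul, eq_inv_smul_iff₀ hg', sub_smul, one_smul, mul_smul, sub_smul, one_smul, smul_sub,
      sub_eq_sub_iff_sub_eq_sub]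
    exact h2
  refine hne (h.unique (fun g' => ?_) hu)
  rw [h3, map_smul, h' g', smul_comm]

omit [IsAlgClosed k] in
theorem ordK_transfer_keeps {Ω : Type u} [CommRing Ω] {ord ord' : Additive Ωˣ →+ ℚ} {lam : ℚ}
    (f : Ω →+* Ω) {r : ℕ} (mu : Fin r → k) (x : Fin r → Ωˣ)
    (h : ∀ a, ord' (Additive.ofMul (x a)) = lam * ord (Additive.ofMul (umap f (x a)))) :
    ordK k ord' (∑ a, mu a • ulog k (x a)) =
      (lam : k) * ordK k ord (Umap k f (∑ a, mu a • ulog k (x a))) := by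
  simp only [map_sum, map_smul, Umap_ulog, ordK_ulog, h, Finset.mul_sum, smul_eq_mul,
    Rat.cast_mul]
  exact Finset.sum_congr rfl fun a _ => by ring

theorem scalars_keeps {S : Finset (Fin n)} {v : Fin n → Uo k (Bm k 1)}
    {ε : Fin n → (Gm k 1 →* kˣ)} (hv : ∀ i ∈ S, v i ≠ 0) (hε : ∀ i ∈ S, Eig (ε i) (v i))
    (hε1 : ∀ i ∈ S, ε i ≠ 1) {i₀ : Fin n} (hi₀ : i₀ ∈ S) (a : Omm k 1 ≃ₐ[k] Omm k 1)
    {c : Fin n → k} (hc0 : c i₀ ≠ 0)
    (hc : ∀ i ∈ S, Umap k (a : Omm k 1 →+* Omm k 1) (Umap k (vB k 1) (v i)) =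
      c i • Umap k (vB k 1) (v i)) :
    ∃ (lam : ℚ) (g : Gm k 1), 0 < lam ∧ ∀ i ∈ S, c i = (lam : k) * ε i g := by
  classical
  obtain ⟨𝒪, ord, h𝒪, ho, -⟩ := exists_inf (k := k) (0 : Fin 1)
  let 𝒪' : ValuationSubring (Omm k 1) := 𝒪.comap (a : Omm k 1 →+* Omm k 1)
  let ord' : Additive (Omm k 1)ˣ →+ ℚ :=
    ord.comp (MonoidHom.toAdditive (umap (a : Omm k 1 →+* Omm k 1)))
  have ho' : IsOrd 𝒪' ord' := fun x => ho (umap (a : Omm k 1 →+* Omm k 1) x)
  have hk : ∀ c : k, algebraMap k (Omm k 1) c ∈ 𝒪' := fun c => by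
    change a (algebraMap k (Omm k 1) c) ∈ 𝒪
    rw [a.commutes]; exact const_mem_keeps h𝒪 c
  have hord : ∀ i ∈ S, ordK k ord' (Umap k (vB k 1) (v i)) =
      c i * ordK k ord (Umap k (vB k 1) (v i)) := fun i hi => by
    rw [← ordK_Umap, hc i hi, map_smul, smul_eq_mul]
  have hne : ∀ i ∈ S, ordK k ord (Umap k (vB k 1) (v i)) ≠ 0 := fun i hi =>
    ord_ne_zero h𝒪 ho (hε i hi) (hε1 i hi) (hv i hi)
  have hX : algebraMap (Base k 1) (Omm k 1) (X0 k) ∉ 𝒪' := fun hX =>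
    mul_ne_zero hc0 (hne i₀ hi₀) ((hord i₀ hi₀).symm.trans
      (ordK_eq_zero_keeps ho' (mem_of_X_mem_keeps hk hX) _))
  choose r mu x _ hx using fun i => exists_repr (Umap k (vB k 1) (v i))
  obtain ⟨lam, g', hlam, hg'⟩ := line_transitive h𝒪 ho ho' hk hX
    (Finset.univ.biUnion fun i => Finset.univ.image (x i))
  obtain ⟨g, hg⟩ := exists_res (Base k 1) g'
  have hgv : (g' : Omm k 1 →+* Omm k 1).comp (vB k 1) = (vB k 1).comp (g : Bm k 1 →+* Bm k 1) :=
    RingHom.ext fun y => (hg y).symm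
  refine ⟨lam, g, hlam, fun i hi => mul_right_cancel₀ (hne i hi) ?_⟩
  have h1 := ordK_transfer_keeps (ord := ord) (ord' := ord') (lam := lam)
    (g' : Omm k 1 →+* Omm k 1) (mu i) (x i) fun b => hg' _ (Subgroup.subset_closure (Finset.mem_coe.2
      (Finset.mem_biUnion.2 ⟨i, Finset.mem_univ i, Finset.mem_image_of_mem _ (Finset.mem_univ b)⟩)))
  rw [← hx i, hord i hi, ← Umap_comp, hgv, Umap_comp, hε i hi g, map_smul, map_smul,
    smul_eq_mul] at h1
  rw [h1, mul_assoc]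

theorem keeps_decomp {S : Finset (Fin n)} {v : Fin n → Uo k (Bm k 1)} (hv : IsBlock S v)
    {α : Bm k 1 ≃ₐ[k] Bm k 1} (hα : Keeps S v v α) :
    ∃ g : Gm k 1, ∀ i ∈ S,
      Umap k (α : Bm k 1 →+* Bm k 1) (v i) = Umap k (g : Bm k 1 →+* Bm k 1) (v i) := by
  obtain ⟨h2, hv0, ε, hε, hε1, hinj, -⟩ := hv
  obtain ⟨i, hi, j, hj, hij⟩ := Finset.one_lt_card.1 h2
  choose! c hc0 hc using hα
  simp only at hc
  obtain ⟨a, ha⟩ := exists_extk_keeps α
  have hca : ∀ i ∈ S, Umap k (a : Omm k 1 →+* Omm k 1) (Umap k (vB k 1) (v i)) =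
      c i • Umap k (vB k 1) (v i) := fun i hi => by
    rw [← Umap_comp, ha, Umap_comp, hc i hi, map_smul]
  obtain ⟨lam, g, hlam, hg⟩ := scalars_keeps hv0 hε hε1 hi a (hc0 i hi) hca
  have hroot : ∀ i ∈ S, ∃ N : ℕ, 0 < N ∧ ((ε i g : kˣ) : k) ^ N = 1 := fun i hi => by
    obtain ⟨N, hN, h⟩ := (hε i hi).pow_eq_one (hv0 i hi)
    refine ⟨N, hN, ?_⟩
    rw [← Units.val_pow_eq_pow_val, ← MonoidHom.pow_apply, h, MonoidHom.one_apply, Units.val_one]
  obtain ⟨N, hN, hNi⟩ := hroot i hi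
  obtain ⟨N', hN', hNj⟩ := hroot j hj
  obtain ⟨t, ht⟩ := der_conj_keeps a
  have hl : ∀ i ∈ S, c i • ell k (Dm k 1 0) (Umap k (vB k 1) (v i)) =
      t * a (ell k (Dm k 1 0) (Umap k (vB k 1) (v i))) := fun i hi => by
    rw [← ell_Umap_keeps a _ ht, hca i hi, map_smul]
  have hli := ell_ne_zero_keeps (hε i hi) (hε1 i hi) (hv0 i hi)
  have hlj := ell_ne_zero_keeps (hε j hj) (hε1 j hj) (hv0 j hj)
  have htr := ratio_transc_keeps (hε i hi) (hε j hj) (hε1 i hi) (hε1 j hj)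
    (fun e => hij (hinj hi hj e)) (hv0 i hi) (hv0 j hj)
  have ht0 : t ≠ 0 := fun h0 => by
    have h := hl i hi
    rw [h0, zero_mul] at h
    exact smul_ne_zero (hc0 i hi) hli h
  have hlam0 : (lam : k) ≠ 0 := Rat.cast_ne_zero.2 hlam.ne'
  set li := ell k (Dm k 1 0) (Umap k (vB k 1) (v i)) with hli'
  set lj := ell k (Dm k 1 0) (Umap k (vB k 1) (v j)) with hlj'
  have hh : a (li / lj) = (((ε i g : kˣ) : k) / ((ε j g : kˣ) : k)) • (li / lj) := by
    have e1 : a li = t⁻¹ * (c i • li) := by rw [hl i hi, inv_mul_cancel_left₀ ht0]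
    have e2 : a lj = t⁻¹ * (c j • lj) := by rw [hl j hj, inv_mul_cancel_left₀ ht0]
    rw [map_div₀, e1, e2, mul_div_mul_left _ _ (inv_ne_zero ht0), Algebra.smul_def,
      Algebra.smul_def, Algebra.smul_def, mul_div_mul_comm, ← map_div₀, hg i hi, hg j hj,
      mul_div_mul_left _ _ hlam0]
  have hfix : a ((li / lj) ^ (N * N')) = (li / lj) ^ (N * N') := by
    rw [map_pow, hh, smul_pow, div_pow ((ε i g : kˣ) : k), pow_mul ((ε i g : kˣ) : k), hNi,
      one_pow, mul_comm N, pow_mul ((ε j g : kˣ) : k), hNj, one_pow, div_one, one_smul]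
  have hper := period_keeps a (fun h => htr (IsAlgebraic.of_pow (Nat.mul_pos hN hN') h)) hfix
  obtain ⟨M, hM, hcM⟩ := pow_eq_one_keeps (a : Omm k 1 →+* Omm k 1) hper
    (fun h0 => hli (by rw [hli', h0, map_zero])) (hca i hi)
  have hl1 : lam ^ (M * N) = 1 := by
    have h : (c i) ^ (M * N) = 1 := by rw [pow_mul, hcM, one_pow]
    rw [hg i hi, mul_pow, mul_comm M N, pow_mul ((ε i g : kˣ) : k), hNi, one_pow, mul_one,
      mul_comm N M] at h
    exact_mod_cast h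
  have hl2 : lam = 1 := (pow_eq_one_iff_of_nonneg hlam.le (Nat.mul_pos hM hN).ne').1 hl1
  refine ⟨g, fun i hi => ?_⟩
  rw [hc i hi, hε i hi g, hg i hi, hl2, Rat.cast_one, one_mul]

end

end Pool.Agent.MP_e2821c_ag.Cy
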