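import Pool.Agent.Lib.MP_e2821c_ag.Cy.Step

namespace Pool.Agent.MP_e2821c_ag.Cy

open MvPolynomial
open scoped TensorProduct

universe u v w

noncomputable section

namespace RedAux

section Points

variable {𝕂 : Type u} [CommRing 𝕂] {α α' : Type u} {M M' : Type u} [AddCommGroup M]
  [Module 𝕂 M] [AddCommGroup M'] [Module 𝕂 M']

/-- Change of the points and of the coefficients. -/
def mapL {n : ℕ} (φ : α → α') (g : M →ₗ[𝕂] M') :
    ((Fin n → α) →₀ M) →ₗ[𝕂] ((Fin n → α') →₀ M') :=
  Finsupp.lsum ℕ fun x => Finsupp.lsingle (fun i => φ (x i)) ∘ₗ g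

theorem mapL_single {n : ℕ} (φ : α → α') (g : M →ₗ[𝕂] M') (x : Fin n → α) (m : M) :
    mapL φ g (Finsupp.single x m) = Finsupp.single (fun i => φ (x i)) (g m) := by
  simp [mapL]

variable (𝕂 M) in
/-- Insertion of a first coordinate. -/
def consL {n : ℕ} (a : α) : ((Fin n → α) →₀ M) →ₗ[𝕂] ((Fin (n + 1) → α) →₀ M) :=
  Finsupp.lmapDomain M 𝕂 fun y => (Fin.cons a y : Fin (n + 1) → α)

theorem consL_single {n : ℕ} (a : α) (y : Fin n → α) (m : M) :
    consL 𝕂 M a (Finsupp.single y m) = Finsupp.single (Fin.cons a y : Fin (n + 1) → α) m := by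
  simp [consL]

theorem mapL_consL {n : ℕ} (φ : α → α') (g : M →ₗ[𝕂] M') (a : α) (y : (Fin n → α) →₀ M) :
    mapL φ g (consL 𝕂 M a y) = consL 𝕂 M' (φ a) (mapL φ g y) := by
  induction y using Finsupp.induction_linear with
  | zero => simp
  | add a b ha hb => rw [map_add, map_add, map_add, map_add, ha, hb]
  | single x c =>
    rw [consL_single, mapL_single, mapL_single, consL_single]
    congr 1
    funext i
    refine Fin.cases ?_ (fun i => ?_) i <;> simp

variable (𝕂 M) in
/-- The reduction of a point with respect to the base point `e`. -/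
def redP (e : α) : ∀ (n : ℕ) (_ : Fin n → α), M →ₗ[𝕂] ((Fin n → α) →₀ M)
  | 0, x => Finsupp.lsingle x
  | n + 1, x => (consL 𝕂 M (x 0) - consL 𝕂 M e) ∘ₗ redP e n (Fin.tail x)

theorem redP_zero (e : α) (x : Fin 0 → α) (m : M) : redP 𝕂 M e 0 x m = Finsupp.single x m := rfl

theorem redP_succ (e : α) (n : ℕ) (x : Fin (n + 1) → α) (m : M) :
    redP 𝕂 M e (n + 1) x m = consL 𝕂 M (x 0) (redP 𝕂 M e n (Fin.tail x) m) -
      consL 𝕂 M e (redP 𝕂 M e n (Fin.tail x) m) := rfl

theorem mapL_redP (φ : α → α') (g : M →ₗ[𝕂] M') (e : α) (n : ℕ) (x : Fin n → α) (m : M) :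
    mapL φ g (redP 𝕂 M e n x m) = redP 𝕂 M' (φ e) n (fun i => φ (x i)) (g m) := by
  induction n with
  | zero => rw [redP_zero, redP_zero, mapL_single]
  | succ n ih =>
    rw [redP_succ, redP_succ, map_sub, mapL_consL, mapL_consL, ih]
    rfl

theorem consL_mem {n : ℕ} (e a : α) (y : (Fin n → α) →₀ M)
    (h : a = e ∨ y ∈ Finsupp.supported M 𝕂 {x : Fin n → α | ∃ i, x i = e}) :
    consL 𝕂 M a y ∈ Finsupp.supported M 𝕂 {x : Fin (n + 1) → α | ∃ i, x i = e} := by
  classical
  rw [Finsupp.mem_supported]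
  intro z hz
  obtain ⟨x, hx, rfl⟩ := Finset.mem_image.mp (Finsupp.mapDomain_support hz)
  rcases h with h | h
  · exact ⟨0, h⟩
  · obtain ⟨i, hi⟩ := (Finsupp.mem_supported 𝕂 y).mp h hx
    exact ⟨i.succ, hi⟩

theorem redP_sub_mem (e : α) (n : ℕ) (x : Fin n → α) (m : M) :
    redP 𝕂 M e n x m - Finsupp.single x m ∈
      Finsupp.supported M 𝕂 {x : Fin n → α | ∃ i, x i = e} := by
  induction n with
  | zero =>
    rw [redP_zero, sub_self]
    exact Submodule.zero_mem _
  | succ n ih =>
    have h : Finsupp.single x m = consL 𝕂 M (x 0) (Finsupp.single (Fin.tail x) m) := by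
      rw [consL_single, Fin.cons_self_tail]
    rw [redP_succ, h, sub_right_comm, ← map_sub]
    exact Submodule.sub_mem _ (consL_mem e _ _ (Or.inr (ih _))) (consL_mem e _ _ (Or.inl rfl))

theorem redP_eq_zero (e : α) (n : ℕ) (x : Fin n → α) (m : M) (h : ∃ i, x i = e) :
    redP 𝕂 M e n x m = 0 := by
  induction n with
  | zero =>
    obtain ⟨i, -⟩ := h
    exact i.elim0
  | succ n ih =>
    obtain ⟨i, hi⟩ := h
    rw [redP_succ]
    rcases Fin.eq_zero_or_eq_succ i with rfl | ⟨i, rfl⟩
    · rw [hi, sub_self]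
    · rw [ih (Fin.tail x) ⟨i, hi⟩, map_zero, map_zero, sub_self]

variable {A : Type u} [AddCommGroup A]

variable (𝕂 M) in
/-- The map `m ↦ m ⊗ a`. -/
def tmulZ (a : A) : M →ₗ[𝕂] M ⊗[ℤ] A where
  toFun m := m ⊗ₜ[ℤ] a
  map_add' m m' := TensorProduct.add_tmul m m' a
  map_smul' _ _ := rfl

theorem tmulZ_apply (a : A) (m : M) : tmulZ 𝕂 M a m = m ⊗ₜ[ℤ] a := rfl

/-- The linear map on `M ⊗ A` given by an additive family of linear maps. -/
def liftZ (f : A →+ (M →ₗ[𝕂] M')) : M ⊗[ℤ] A →ₗ[𝕂] M' :=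
  TensorProduct.AlgebraTensorModule.lift
    { toFun := fun m => ((LinearMap.applyₗ m).toAddMonoidHom.comp f).toIntLinearMap
      map_add' := fun m m' => LinearMap.ext fun a => map_add (f a) m m'
      map_smul' := fun c m => LinearMap.ext fun a => map_smul (f a) c m }

theorem liftZ_tmul (f : A →+ (M →ₗ[𝕂] M')) (m : M) (a : A) : liftZ f (m ⊗ₜ[ℤ] a) = f a m := rfl

variable (𝕂 M A) in
/-- The map `(c ⊗ a, m) ↦ (c • m) ⊗ a`. -/
def star : 𝕂 ⊗[ℤ] A →ₗ[𝕂] M →ₗ[𝕂] M ⊗[ℤ] A :=
  (TensorProduct.mk 𝕂 M (𝕂 ⊗[ℤ] A)).flip.compr₂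
    (TensorProduct.AlgebraTensorModule.cancelBaseChange ℤ 𝕂 𝕂 M A).toLinearMap

theorem star_tmul (c : 𝕂) (a : A) (m : M) : star 𝕂 M A (c ⊗ₜ[ℤ] a) m = (c • m) ⊗ₜ[ℤ] a := by
  simp [star]

end Points

section Functors

variable {𝕂 : Type u} [CommRing 𝕂]

theorem plus_congr {H H' : RFun.{u} 𝕂} {φ ψ : NT H H'}
    (h : ∀ (B : Type u) [CommRing B] [IsAic B] (x : H.obj B), φ.app B x = ψ.app B x)
    (R : Type u) [CommRing R] (s : Plus H R) : φ.plus R s = ψ.plus R s :=
  Plus.ext fun p => h p.B _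

/-- Composition of natural transformations. -/
def comp {H H' H'' : RFun.{u} 𝕂} (ψ : NT H' H'') (φ : NT H H') : NT H H'' where
  app B := ψ.app B ∘ₗ φ.app B
  nat f x := by
    rw [LinearMap.comp_apply, LinearMap.comp_apply, ψ.nat, φ.nat]

theorem comp_app {H H' H'' : RFun.{u} 𝕂} (ψ : NT H' H'') (φ : NT H H') (B : Type u) [CommRing B]
    [IsAic B] (x : H.obj B) : (comp ψ φ).app B x = ψ.app B (φ.app B x) := rfl

theorem comp_plus {H H' H'' : RFun.{u} 𝕂} (ψ : NT H' H'') (φ : NT H H') (R : Type u) [CommRing R]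
    (s : Plus H R) : (comp ψ φ).plus R s = ψ.plus R (φ.plus R s) := rfl

theorem plus_cycle {H H' : RFun.{u} 𝕂} (φ : NT H H') {O : Type u} [CommRing O] {m : ℕ}
    {s : Plus H (Base O (m + 1))} (h : (plusS H O).d m s = 0) :
    (plusS H' O).d m (φ.plus _ s) = 0 := by
  rw [← φ.plus_d, h, map_zero]

/-- Points of the torus with coefficients in `H`. -/
def LF (n : ℕ) (H : RFun.{u} 𝕂) : RFun.{u} 𝕂 where
  obj B := (Fin n → Bˣ) →₀ H.obj B
  map f := mapL (umap f) (H.map f)
  map_id _ _ x := by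
    induction x using Finsupp.induction_linear with
    | zero => simp
    | add a b ha hb => rw [map_add, ha, hb]
    | single x c => rw [mapL_single, H.map_id]; rfl
  map_comp f g x := by
    induction x using Finsupp.induction_linear with
    | zero => simp
    | add a b ha hb => rw [map_add, map_add, map_add, ha, hb]
    | single x c => rw [mapL_single, mapL_single, mapL_single, H.map_comp]; rfl

/-- Tensor product of two functors. -/
def tensorK (H₁ H₂ : RFun.{u} 𝕂) : RFun.{u} 𝕂 where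
  obj B := H₁.obj B ⊗[𝕂] H₂.obj B
  map f := TensorProduct.map (H₁.map f) (H₂.map f)
  map_id _ _ x := by
    induction x using TensorProduct.induction_on with
    | zero => simp
    | tmul a b => rw [TensorProduct.map_tmul, H₁.map_id, H₂.map_id]
    | add a b ha hb => rw [map_add, ha, hb]
  map_comp f g x := by
    induction x using TensorProduct.induction_on with
    | zero => simp
    | tmul a b =>
      rw [TensorProduct.map_tmul, TensorProduct.map_tmul, TensorProduct.map_tmul, H₁.map_comp,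
        H₂.map_comp]
    | add a b ha hb => rw [map_add, map_add, map_add, ha, hb]

/-- Pure tensors. -/
def mkK (H₁ H₂ : RFun.{u} 𝕂) (B : Type u) [CommRing B] :
    H₁.obj B →ₗ[𝕂] H₂.obj B →ₗ[𝕂] (tensorK H₁ H₂).obj B :=
  TensorProduct.mk 𝕂 (H₁.obj B) (H₂.obj B)

theorem map_mkK (H₁ H₂ : RFun.{u} 𝕂) {B B' : Type u} [CommRing B] [CommRing B'] (f : B →+* B')
    (x : H₁.obj B) (y : H₂.obj B) :
    (tensorK H₁ H₂).map f (mkK H₁ H₂ B x y) = mkK H₁ H₂ B' (H₁.map f x) (H₂.map f y) := rfl

/-- A transformation given by a bilinear map. -/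
def ofK {H₁ H₂ H' : RFun.{u} 𝕂}
    (φ : ∀ (B : Type u) [CommRing B], H₁.obj B →ₗ[𝕂] H₂.obj B →ₗ[𝕂] H'.obj B)
    (hφ : ∀ {B B' : Type u} [CommRing B] [CommRing B'] (f : B →+* B') (x : H₁.obj B)
      (y : H₂.obj B), H'.map f (φ B x y) = φ B' (H₁.map f x) (H₂.map f y)) :
    NT (tensorK H₁ H₂) H' where
  app B := TensorProduct.lift (φ B)
  nat f x := by
    change H'.map f (TensorProduct.lift (φ _) x) =
      TensorProduct.lift (φ _) (TensorProduct.map (H₁.map f) (H₂.map f) x)
    induction x using TensorProduct.induction_on with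
    | zero => simp
    | add a b ha hb => rw [map_add, map_add, map_add, map_add, ha, hb]
    | tmul t h =>
      rw [TensorProduct.map_tmul, TensorProduct.lift.tmul, TensorProduct.lift.tmul, hφ]

/-- Symbols with coefficients in `H`. -/
abbrev TF (n : ℕ) (H : RFun.{u} 𝕂) : RFun.{u} 𝕂 := tensorK (TP 𝕂 n) H

theorem finitary_LF (n : ℕ) {H : RFun.{u} 𝕂} (hH : H.Finitary) : (LF n H).Finitary := by
  classical
  intro R _ x
  change ∃ E : Finset R, ∀ (R' : Type u) [CommRing R'] (f g : R →+* R'), (∀ e ∈ E, f e = g e) →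
    mapL (umap f) (H.map f) x = mapL (umap g) (H.map g) x
  induction x using Finsupp.induction_linear with
  | zero => exact ⟨∅, fun R' _ f g _ => by rw [map_zero, map_zero]⟩
  | add a b ha hb =>
    obtain ⟨E, hE⟩ := ha
    obtain ⟨E', hE'⟩ := hb
    refine ⟨E ∪ E', fun R' _ f g h => ?_⟩
    rw [map_add, map_add, hE R' f g fun e he => h e (Finset.mem_union_left _ he),
      hE' R' f g fun e he => h e (Finset.mem_union_right _ he)]
  | single x c =>
    obtain ⟨E, hE⟩ := hH R c
    refine ⟨E ∪ Finset.univ.image fun i => (x i : R), fun R' _ f g h => ?_⟩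
    rw [mapL_single, mapL_single, hE R' f g fun e he => h e (Finset.mem_union_left _ he)]
    congr 1
    funext i
    exact Units.ext (h _ (Finset.mem_union_right _
      (Finset.mem_image_of_mem _ (Finset.mem_univ i))))

/-- A transformation given on points. -/
def ofL {n : ℕ} {H H' : RFun.{u} 𝕂}
    (φ : ∀ (B : Type u) [CommRing B], (Fin n → Bˣ) → H.obj B →ₗ[𝕂] H'.obj B)
    (hφ : ∀ {B B' : Type u} [CommRing B] [CommRing B'] (f : B →+* B') (x : Fin n → Bˣ)
      (h : H.obj B), H'.map f (φ B x h) = φ B' (fun i => umap f (x i)) (H.map f h)) :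
    NT (LF n H) H' where
  app B := Finsupp.lsum ℕ (φ B)
  nat f x := by
    change H'.map f (Finsupp.lsum ℕ (φ _) x) = Finsupp.lsum ℕ (φ _) (mapL (umap f) (H.map f) x)
    induction x using Finsupp.induction_linear with
    | zero => simp
    | add a b ha hb => rw [map_add, map_add, map_add, map_add, ha, hb]
    | single x c => rw [mapL_single, Finsupp.lsum_single, Finsupp.lsum_single, hφ]

theorem plus_congr_L {n : ℕ} {H H' : RFun.{u} 𝕂} {φ ψ : NT (LF n H) H'}
    (h : ∀ (B : Type u) [CommRing B] [IsAic B] (x : Fin n → Bˣ) (c : H.obj B),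
      φ.app B (Finsupp.single x c) = ψ.app B (Finsupp.single x c))
    (R : Type u) [CommRing R] (s : Plus (LF n H) R) : φ.plus R s = ψ.plus R s :=
  plus_congr (fun B _ _ x => by
    induction x using Finsupp.induction_linear with
    | zero => exact (map_zero (φ.app B)).trans (map_zero (ψ.app B)).symm
    | add a b ha hb =>
      exact (map_add (φ.app B) a b).trans ((congrArg₂ _ ha hb).trans (map_add (ψ.app B) a b).symm)
    | single x c => exact h B x c) R s

/-- A transformation given on pure tensors. -/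
def ofT {n : ℕ} {H H' : RFun.{u} 𝕂}
    (φ : ∀ (B : Type u) [CommRing B],
      MultilinearMap 𝕂 (fun _ : Fin n => Uo 𝕂 B) (H.obj B →ₗ[𝕂] H'.obj B))
    (hφ : ∀ {B B' : Type u} [CommRing B] [CommRing B'] (f : B →+* B') (v : Fin n → Uo 𝕂 B)
      (h : H.obj B), H'.map f (φ B v h) = φ B' (fun i => Umap 𝕂 f (v i)) (H.map f h)) :
    NT (TF n H) H' :=
  ofK (fun B _ => PiTensorProduct.lift (φ B)) fun f t h => by
    change H'.map f (PiTensorProduct.lift (φ _) t h) =
      PiTensorProduct.lift (φ _) (Tmap 𝕂 n f t) (H.map f h)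
    induction t using To.induction_on with
    | h1 c v =>
      rw [map_smul, map_smul, map_smul, Tmap_tp, tp_eq, tp_eq, PiTensorProduct.lift.tprod,
        PiTensorProduct.lift.tprod, LinearMap.smul_apply, LinearMap.smul_apply, map_smul, hφ]
    | h2 a b ha hb =>
      rw [map_add, map_add, map_add, LinearMap.add_apply, LinearMap.add_apply, map_add, ha, hb]

theorem lift_tp {n : ℕ} {B : Type u} [CommRing B] {E : Type u} [AddCommMonoid E] [Module 𝕂 E]
    (φ : MultilinearMap 𝕂 (fun _ : Fin n => Uo 𝕂 B) E) (v : Fin n → Uo 𝕂 B) :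
    PiTensorProduct.lift φ (tp 𝕂 n v) = φ v := by
  rw [tp_eq, PiTensorProduct.lift.tprod]

variable (n : ℕ) (H : RFun.{u} 𝕂)

/-- The symbol map. -/
def symH : NT (LF n H) (TF n H) :=
  ofL (fun B _ x => mkK (TP 𝕂 n) H B (tp 𝕂 n fun i => ulog 𝕂 (x i)))
    fun {_ B'} _ _ f _ h => (map_mkK _ _ f _ _).trans
      (congrArg (fun t => mkK (TP 𝕂 n) H B' t (H.map f h)) (Tmap_tp 𝕂 n f _))

theorem symH_single (B : Type u) [CommRing B] [IsAic B] (x : Fin n → Bˣ) (h : H.obj B) :
    (symH n H).app B (Finsupp.single x h) =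
      mkK (TP 𝕂 n) H B (tp 𝕂 n fun i => ulog 𝕂 (x i)) h :=
  Finsupp.lsum_single ℕ _ x h

/-- The reduction map. -/
def redH : NT (LF n H) (LF n H) :=
  ofL (fun B _ x => redP 𝕂 (H.obj B) 1 n x) fun f x h => by
    change mapL (umap f) (H.map f) (redP 𝕂 _ 1 n x h) = redP 𝕂 _ 1 n _ _
    rw [mapL_redP, map_one]

theorem redH_single (B : Type u) [CommRing B] [IsAic B] (x : Fin n → Bˣ) (h : H.obj B) :
    (redH n H).app B (Finsupp.single x h) = redP 𝕂 (H.obj B) 1 n x h :=
  Finsupp.lsum_single ℕ _ x h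

/-- The first coordinate is moved to the coefficients. -/
def mapA : NT (LF (n + 1) H) (LF n (H.tensorZ AU)) :=
  ofL (fun B _ x => Finsupp.lsingle (Fin.tail x) ∘ₗ tmulZ 𝕂 (H.obj B) (Additive.ofMul (x 0)))
    fun f x _ => mapL_single (umap f) ((H.tensorZ AU).map f) (Fin.tail x) _

theorem mapA_single (B : Type u) [CommRing B] [IsAic B] (x : Fin (n + 1) → Bˣ) (h : H.obj B) :
    (mapA n H).app B (Finsupp.single x h) =
      Finsupp.single (Fin.tail x) (tmulZ 𝕂 (H.obj B) (Additive.ofMul (x 0)) h) :=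
  Finsupp.lsum_single ℕ _ x h

/-- The last coordinates are reduced and the first one is split off. -/
def mapB : NT (LF (n + 1) H) ((LF n H).tensorZ ZU) :=
  ofL (fun B _ x => tmulZ 𝕂 ((LF n H).obj B) (FreeAbelianGroup.of (x 0)) ∘ₗ
      redP 𝕂 (H.obj B) 1 n (Fin.tail x))
    fun {B B'} _ _ f x h => by
      have h1 : (LF n H).map f (redP 𝕂 _ 1 n (Fin.tail x) h) =
          redP 𝕂 _ 1 n (Fin.tail fun i => umap f (x i)) (H.map f h) := by
        change mapL (umap f) (H.map f) (redP 𝕂 _ 1 n _ h) = _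
        rw [mapL_redP, map_one]
        rfl
      exact congrArg (tmulZ 𝕂 ((LF n H).obj B') (FreeAbelianGroup.of (umap f (x 0)))) h1

theorem mapB_single (B : Type u) [CommRing B] [IsAic B] (x : Fin (n + 1) → Bˣ) (h : H.obj B) :
    (mapB n H).app B (Finsupp.single x h) =
      tmulZ 𝕂 ((LF n H).obj B) (FreeAbelianGroup.of (x 0))
        (redP 𝕂 (H.obj B) 1 n (Fin.tail x) h) :=
  Finsupp.lsum_single ℕ _ x h

/-- The tensor factor is moved out of the coefficients. -/
def mapV : NT (LF n (H.tensorZ AU)) ((LF n H).tensorZ AU) :=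
  ofL (fun B _ x => tmapZ (M' := (LF n H).obj B) (Finsupp.lsingle x) (AddMonoidHom.id _))
    fun {B B'} _ _ f x h => by
      induction h using TensorProduct.induction_on with
      | zero => simp
      | add a b ha hb => rw [map_add, map_add, map_add, map_add, ha, hb]
      | tmul h a =>
        exact congrArg (tmulZ 𝕂 ((LF n H).obj B') (AU.map f a))
          (mapL_single (umap f) (H.map f) x h)

theorem mapV_mapL (B : Type u) [CommRing B] [IsAic B] (a : Additive Bˣ)
    (y : (Fin n → Bˣ) →₀ H.obj B) :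
    (mapV n H).app B (mapL id (tmulZ 𝕂 (H.obj B) a) y) = tmulZ 𝕂 ((LF n H).obj B) a y := by
  induction y using Finsupp.induction_linear with
  | zero => exact (congrArg _ (map_zero _)).trans ((map_zero _).trans (map_zero _).symm)
  | add y y' hy hy' =>
    exact (congrArg _ (map_add _ _ _)).trans ((map_add _ _ _).trans
      ((congrArg₂ _ hy hy').trans (map_add _ _ _).symm))
  | single x c =>
    rw [mapL_single]
    exact Finsupp.lsum_single ℕ _ x _

/-- The split coordinate is put back. -/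
def mapBack : NT ((LF n H).tensorZ ZU) (LF (n + 1) H) where
  app B := liftZ (M := (LF n H).obj B) (M' := (LF (n + 1) H).obj B)
    (FreeAbelianGroup.lift fun a : Bˣ => consL 𝕂 (H.obj B) a)
  nat {B B'} _ _ _ _ f x := by
    induction x using TensorProduct.induction_on with
    | zero => simp
    | add a b ha hb => rw [map_add, map_add, map_add, map_add, ha, hb]
    | tmul y a =>
      change mapL (umap f) (H.map f) (FreeAbelianGroup.lift (fun a : Bˣ => consL 𝕂 (H.obj B) a)
        a y) = FreeAbelianGroup.lift (fun a : B'ˣ => consL 𝕂 (H.obj B') a)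
          (FreeAbelianGroup.map (umap f) a) (mapL (umap f) (H.map f) y)
      induction a using FreeAbelianGroup.induction_on with
      | zero => simp
      | of a =>
        rw [FreeAbelianGroup.map_of_apply, FreeAbelianGroup.lift_apply_of,
          FreeAbelianGroup.lift_apply_of, mapL_consL]
      | neg a ha =>
        rw [map_neg, map_neg, map_neg, LinearMap.neg_apply, LinearMap.neg_apply, map_neg, ha]
      | add a b ha hb =>
        rw [map_add, map_add, map_add, LinearMap.add_apply, LinearMap.add_apply, map_add, ha, hb]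

theorem mapBack_tmul (B : Type u) [CommRing B] [IsAic B] (a : FreeAbelianGroup Bˣ)
    (y : (Fin n → Bˣ) →₀ H.obj B) :
    (mapBack n H).app B (tmulZ 𝕂 ((LF n H).obj B) a y) =
      FreeAbelianGroup.lift (fun a : Bˣ => consL 𝕂 (H.obj B) a) a y := rfl

/-- The multilinear map that moves the first factor to the coefficients. -/
def splitM (B : Type u) [CommRing B] : MultilinearMap 𝕂 (fun _ : Fin (n + 1) => Uo 𝕂 B)
    (H.obj B →ₗ[𝕂] (TF n (H.tensorZ AU)).obj B) :=
  LinearMap.uncurryLeft (M := fun _ : Fin (n + 1) => Uo 𝕂 B)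
    (PiTensorProduct.lift.symm.toLinearMap ∘ₗ
      ((LinearMap.llcomp 𝕂 (H.obj B) ((H.tensorZ AU).obj B) _).compl₁₂
        (mkK (TP 𝕂 n) (H.tensorZ AU) B)
        (star 𝕂 (H.obj B) (Additive Bˣ))).flip)

theorem splitM_apply (B : Type u) [CommRing B] (v : Fin (n + 1) → Uo 𝕂 B) (h : H.obj B) :
    splitM n H B v h = mkK (TP 𝕂 n) (H.tensorZ AU) B (tp 𝕂 n (Fin.tail v))
      (star 𝕂 (H.obj B) (Additive Bˣ) (v 0) h) := rfl

theorem map_star {B B' : Type u} [CommRing B] [CommRing B'] (f : B →+* B') (u : Uo 𝕂 B)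
    (h : H.obj B) : (H.tensorZ AU).map f (star 𝕂 (H.obj B) (Additive Bˣ) u h) =
      star 𝕂 (H.obj B') (Additive B'ˣ) (Umap 𝕂 f u) (H.map f h) := by
  induction u using TensorProduct.induction_on with
  | zero => simp
  | add a b ha hb =>
    rw [map_add, map_add, map_add, LinearMap.add_apply, LinearMap.add_apply, map_add, ha, hb]
  | tmul c a =>
    rw [Umap_tmul, star_tmul, star_tmul, ← map_smul]
    rfl

/-- The first factor is moved to the coefficients. -/
def mapW : NT (TF (n + 1) H) (TF n (H.tensorZ AU)) :=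
  ofT (fun B _ => splitM n H B) fun f v h => by
    rw [splitM_apply, splitM_apply, map_mkK, map_star]
    exact congrArg (fun t => mkK (TP 𝕂 n) (H.tensorZ AU) _ t _) (Tmap_tp 𝕂 n f _)

/-- The inverse of the symbol map in weight zero. -/
def mapC : NT (TF 0 H) (LF 0 H) :=
  ofT (fun _ _ => MultilinearMap.constOfIsEmpty 𝕂 _ (Finsupp.lsingle Fin.elim0))
    fun f _ h => (mapL_single (umap f) (H.map f) Fin.elim0 h).trans
      (congrArg (fun x => Finsupp.single x (H.map f h)) (Subsingleton.elim _ _))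

variable (𝕂) in
/-- The constant functor. -/
def KF : RFun.{u} 𝕂 where
  obj _ := 𝕂
  map _ := LinearMap.id
  map_id _ _ _ := rfl
  map_comp _ _ _ := rfl

theorem finitary_KF : (KF 𝕂).Finitary := fun _ _ _ => ⟨∅, fun _ _ _ _ _ => rfl⟩

theorem mapL_eq_Wmap {B B' : Type u} [CommRing B] [CommRing B'] (f : B →+* B') (x : Wo 𝕂 n B) :
    mapL (umap f) (LinearMap.id (R := 𝕂)) x = Wmap 𝕂 n f x := by
  induction x using Finsupp.induction_linear with
  | zero => simp
  | add a b ha hb => rw [map_add, map_add, ha, hb]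
  | single x c => rw [mapL_single, Wmap_single, LinearMap.id_apply]

variable (𝕂) in
/-- Constant coefficients, one direction. -/
def toL : NT (W 𝕂 n) (LF n (KF 𝕂)) where
  app _ := LinearMap.id
  nat f x := mapL_eq_Wmap n f x

variable (𝕂) in
/-- Constant coefficients, the other direction. -/
def fromL : NT (LF n (KF 𝕂)) (W 𝕂 n) where
  app _ := LinearMap.id
  nat f x := (mapL_eq_Wmap (𝕂 := 𝕂) n f x).symm

variable (𝕂) in
/-- Symbols with constant coefficients. -/
def toT : NT (TP 𝕂 n) (TF n (KF 𝕂)) where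
  app B := (mkK (TP 𝕂 n) (KF 𝕂) B).flip (1 : 𝕂)
  nat _ _ := rfl

end Functors

theorem main {𝕂 : Type u} [Field 𝕂] [CharZero 𝕂] (O : Type u) [Field O] [CharZero O] (j n : ℕ) :
    ∀ (H : RFun.{u} 𝕂), H.Finitary → ∀ s : Plus (LF n H) (Base O (j + 1)),
      (plusS (LF n H) O).d j s = 0 →
      (plusS (TF n H) O).IsBd (m := j + 1) ((symH n H).plus _ s) →
      (plusS (LF n H) O).IsBd (m := j + 1) ((redH n H).plus _ s) := by
  induction n with
  | zero =>
    intro H _ s _ hb
    have h1 := (mapC H).isBd hb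
    rw [← comp_plus, plus_congr_L (ψ := redH 0 H)] at h1
    · exact h1
    · intro B _ _ x c
      rw [comp_app, symH_single, redH_single, redP_zero]
      exact (LinearMap.congr_fun (lift_tp (MultilinearMap.constOfIsEmpty 𝕂 _
        (Finsupp.lsingle (R := 𝕂) (M := H.obj B) (Fin.elim0 : Fin 0 → Bˣ))) _) c).trans
        (congrArg (fun x => Finsupp.single x c) (Subsingleton.elim _ _))
  | succ n ih =>
    intro H hH s hs hb
    have h1 := (mapW n H).isBd hb
    rw [← comp_plus, plus_congr_L (ψ := comp (symH n (H.tensorZ AU)) (mapA n H))] at h1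
    · have h2 := (mapV n H).isBd
        (ih (H.tensorZ AU) (finitary_tensorZ 𝕂 hH finitary_AU) _ (plus_cycle (mapA n H) hs) h1)
      rw [← comp_plus, ← comp_plus,
        plus_congr_L (ψ := comp (linNT (LF n H)) (mapB n H))] at h2
      · have h3 := (mapBack n H).isBd
          (step (finitary_LF n hH) O j _ (plus_cycle (mapB n H) hs) h2)
        rw [← comp_plus, ← comp_plus, plus_congr_L (ψ := redH (n + 1) H)] at h3
        · exact h3
        · intro B _ _ x c
          rw [comp_app, comp_app, mapB_single, redH_single, redP_succ]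
          change (mapBack n H).app B (tmulZ 𝕂 ((LF n H).obj B)
            (idemZ B (FreeAbelianGroup.of (x 0))) (redP 𝕂 (H.obj B) 1 n (Fin.tail x) c)) = _
          rw [mapBack_tmul, idemZ, FreeAbelianGroup.lift_apply_of, map_sub,
            FreeAbelianGroup.lift_apply_of, FreeAbelianGroup.lift_apply_of]
          rfl
      · intro B _ _ x c
        rw [comp_app, comp_app, comp_app, mapA_single, mapB_single, redH_single]
        have h4 := mapL_redP (𝕂 := 𝕂) id (tmulZ 𝕂 (H.obj B) (Additive.ofMul (x 0))) (1 : Bˣ) n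
          (Fin.tail x) c
        refine (congrArg ((mapV n H).app B) h4.symm).trans ?_
        rw [mapV_mapL]
        change _ = tmulZ 𝕂 ((LF n H).obj B) (linZ B (FreeAbelianGroup.of (x 0)))
          (redP 𝕂 (H.obj B) 1 n (Fin.tail x) c)
        rw [linZ, FreeAbelianGroup.lift_apply_of]
    · intro B _ _ x c
      rw [comp_app, comp_app, symH_single, mapA_single, symH_single]
      refine (LinearMap.congr_fun (lift_tp (splitM n H B) _) c).trans ?_
      rw [splitM_apply, ulog, star_tmul, one_smul]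
      rfl

end RedAux

open RedAux in
theorem exists_red (𝕂 : Type u) [Field 𝕂] [CharZero 𝕂] (n : ℕ) :
    ∃ red : NT (W 𝕂 n) (W 𝕂 n),
      (∀ (B : Type u) [CommRing B] [IsAic B] (x : Wo 𝕂 n B), red.app B x - x ∈ degW 𝕂 n B) ∧
      (∀ (B : Type u) [CommRing B] [IsAic B], ∀ x ∈ degW 𝕂 n B, red.app B x = 0) ∧
      ∀ (O : Type u) [Field O] [CharZero O] (j : ℕ) (s : Plus (W 𝕂 n) (Base O (j + 1))),
        (plusS (W 𝕂 n) O).d j s = 0 →
        (plusS (TP 𝕂 n) O).IsBd (m := j + 1) ((sym 𝕂 n).plus _ s) →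
        (plusS (W 𝕂 n) O).IsBd (m := j + 1) (red.plus _ s) := by
  have hr : ∀ (B : Type u) [CommRing B] [IsAic B] (x : Fin n → Bˣ) (c : 𝕂),
      (comp (fromL 𝕂 n) (comp (redH n (KF 𝕂)) (toL 𝕂 n))).app B (Finsupp.single x c) =
        redP 𝕂 𝕂 1 n x c := fun B _ _ x c => redH_single n (KF 𝕂) B x c
  refine ⟨comp (fromL 𝕂 n) (comp (redH n (KF 𝕂)) (toL 𝕂 n)), fun B _ _ x => ?_,
    fun B _ _ x hx => ?_, fun O _ _ j s hs hb => ?_⟩
  · induction x using Finsupp.induction_linear with
    | zero => simp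
    | add a b ha hb =>
      rw [map_add, add_sub_add_comm]
      exact Submodule.add_mem _ ha hb
    | single x c =>
      rw [hr]
      exact redP_sub_mem 1 n x c
  · rw [← Finsupp.sum_single x, Finsupp.sum, map_sum]
    refine Finset.sum_eq_zero fun y hy => ?_
    rw [hr]
    exact redP_eq_zero 1 n y _ ((Finsupp.mem_supported 𝕂 x).mp hx hy)
  · have h1 := (toT 𝕂 n).isBd hb
    rw [← comp_plus, plus_congr (ψ := comp (symH n (KF 𝕂)) (toL 𝕂 n))] at h1
    · exact (fromL 𝕂 n).isBd
        (main O j n (KF 𝕂) finitary_KF _ (plus_cycle (toL 𝕂 n) hs) h1)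
    · intro B _ _ x
      induction x using Finsupp.induction_linear with
      | zero => rw [map_zero, map_zero]
      | add a b ha hb => rw [map_add, map_add, ha, hb]
      | single x c =>
        refine Eq.trans ?_ (symH_single n (KF 𝕂) B x c).symm
        change mkK (TP 𝕂 n) (KF 𝕂) B (symL 𝕂 n B (Finsupp.single x c)) (1 : 𝕂) = _
        rw [symL_single]
        refine (LinearMap.map_smul₂ _ c _ _).trans ((map_smul _ c _).symm.trans ?_)
        exact congrArg _ (mul_one c)

end

end Pool.Agent.MP_e2821c_ag.Cy
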