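import Pool.Agent.Lib.MP_e2821c_ag.Cy.ZMain
import Pool.Agent.Lib.MP_e2821c_ag.Cy.Red
import Pool.Agent.Lib.MP_e2821c_ag.Cy.Descend
import Pool.Agent.Lib.MP_e2821c_ag.Cy.Descent
import Pool.Agent.Lib.MP_e2821c_ag.Cy.Cover
import Pool.Agent.Lib.MP_e2821c_ag.Cy.CoverB

namespace Pool.Agent.MP_e2821c_ag.Cy

open MvPolynomial
open scoped TensorProduct

universe u v w

noncomputable section

variable {F : Type u} [Field F] [CharZero F] {n m : ℕ}

/-- Evaluation at a point. -/
def evW (𝕂 : Type u) [Field 𝕂] (n : ℕ) {R : Type u} [CommRing R] (q : Pt R) :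
    Plus (W 𝕂 n) R →ₗ[𝕂] Wo 𝕂 n q.B where
  toFun s := s.1 q
  map_add' _ _ := rfl
  map_smul' _ _ := rfl

/-- The geometric generic point of the simplex. -/
abbrev geo (F : Type u) [Field F] (m : ℕ) : Pt (Base F m) :=
  (ac (Base (AlgebraicClosure F) m)).comap (resR F m (AlgebraicClosure F))

theorem phi_geo (𝕂 : Type u) [Field 𝕂] (P : Elem F n m) :
    evW 𝕂 n (geo F m) (phi 𝕂 P) = phiAt 𝕂 P (geo F m) := by
  let : Algebra (Base F m) (Bm (AlgebraicClosure F) m) := (geo F m).ι.toAlgebra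
  have : Algebra.IsIntegral (Base F m) (Bm (AlgebraicClosure F) m) :=
    ⟨isIntegral_comp_Descend _ (resR_isIntegral_Descend F (AlgebraicClosure F) m)⟩
  have : FaithfulSMul (Base F m) (Bm (AlgebraicClosure F) m) :=
    (faithfulSMul_iff_algebraMap_injective _ _).2
      ((FaithfulSMul.algebraMap_injective (Base (AlgebraicClosure F) m) _).comp
        (resR_injective_Descend F (AlgebraicClosure F) m))
  exact phi_spec 𝕂 (Bm (AlgebraicClosure F) m) P

theorem sym_phi_mem (P : Elem F n m)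
    (hP : Degenerate F n m P ∨ CyclicCover F n m P ∨ (n ≤ 2 ∧ AbelianCover F n m P)) :
    symL (AlgebraicClosure F) n (Bm (AlgebraicClosure F) m)
      (evW (AlgebraicClosure F) n (geo F m) (phi (AlgebraicClosure F) P)) ∈
      Submodule.span (AlgebraicClosure F) {x | ∃ ξ : Fin n → (Bm (AlgebraicClosure F) m)ˣ,
        GoodTuple ξ ∧ x = tp (AlgebraicClosure F) n fun i => ulog (AlgebraicClosure F) (ξ i)} := by
  rw [phi_geo, phiAt, finsum_mem_eq_finite_toFinset_sum _ (pts_finite P (geo F m)), map_sum]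
  refine Submodule.sum_mem _ fun e he => ?_
  have he' : e ∈ pts P (geo F m) := (Set.Finite.mem_toFinset _).1 he
  rcases hP with ⟨i, hi⟩ | hP
  · rw [symL_degW]
    · exact zero_mem _
    · refine Finsupp.single_mem_supported _ _ ⟨i, (xval_eq_one_pts e i).2 ?_⟩
      rw [he'.2]
      exact hi
  · rw [symL_single, one_smul]
    exact Submodule.subset_span ⟨_, goodTuple_of_cover P hP e he', rfl⟩

theorem sym_phiL_mem (c : Cor F n m)
    (hc : ∀ P ∈ c.support,
      Degenerate F n m P ∨ CyclicCover F n m P ∨ (n ≤ 2 ∧ AbelianCover F n m P)) :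
    symL (AlgebraicClosure F) n (Bm (AlgebraicClosure F) m)
      (evW (AlgebraicClosure F) n (geo F m)
        (phiL F (AlgebraicClosure F) n m (castK F (AlgebraicClosure F) n m c))) ∈
      Submodule.span (AlgebraicClosure F) {x | ∃ ξ : Fin n → (Bm (AlgebraicClosure F) m)ˣ,
        GoodTuple ξ ∧ x = tp (AlgebraicClosure F) n fun i => ulog (AlgebraicClosure F) (ξ i)} := by
  rw [phiL, Finsupp.linearCombination_apply, Finsupp.sum, map_sum, map_sum]
  refine Submodule.sum_mem _ fun P hP => ?_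
  rw [map_smul, map_smul]
  exact Submodule.smul_mem _ _ (sym_phi_mem P (hc P (Finsupp.support_mapRange (hf := map_zero _) hP)))

theorem cyclic_cycles (F : Type u) [Field F] [CharZero F] (n j : ℕ) (hj : n < 2 * (j + 1))
    (c : Cor F n (j + 1))
    (hc : ∀ P ∈ c.support, Degenerate F n (j + 1) P ∨ CyclicCover F n (j + 1) P ∨
      (n ≤ 2 ∧ AbelianCover F n (j + 1) P))
    (hb : SameClass F n j (bd F n j c) 0) :
    ∃ N : ℕ, 0 < N ∧ ∃ b : Cor F n (j + 2), SameClass F n (j + 1) (bd F n (j + 1) b) (N • c) := by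
  set k := AlgebraicClosure F
  obtain ⟨red, h1, h2, h3⟩ := exists_red k n
  set Φ : Plus (W k n) (Base F (j + 1)) := phiL F k n (j + 1) (castK F k n (j + 1) c) with hΦ
  set s : Plus (W k n) (Base F (j + 1)) := red.plus _ Φ with hs
  have hds : (plusS (W k n) F).d j s = 0 := by
    rw [hs, ← red.plus_d F j Φ, hΦ, phiL_bd]
    refine plus_ext (AC (Base F j)) (h2 _ _ ((phiL_deg k _).2 fun P hP => ?_))
    rw [SameClass, sub_zero] at hb
    exact hb (Finsupp.support_mapRange (hf := map_zero _) hP)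
  set s' : Plus (W k n) (Base k (j + 1)) := plusMap (W k n) (resR F (j + 1) k) s with hs'
  have hds' : (plusS (W k n) k).d j s' = 0 := by
    rw [hs', ← plusMap_resR_d F k (W k n) j s, hds, map_zero]
  set z : Plus (TP k n) (Base k (j + 1)) := (sym k n).plus _ s' with hz
  have hdz : (plusS (TP k n) k).d j z = 0 := by
    rw [hz, ← (sym k n).plus_d k j s', hds', map_zero]
  have hev : evT k n (j + 1) z = symL k n (Bm k (j + 1)) (evW k n (geo F (j + 1)) Φ) := by
    have h := symL_degW k n (h1 (Bm k (j + 1)) (evW k n (geo F (j + 1)) Φ))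
    have h' := (symL k n (Bm k (j + 1))).map_add
      (red.app (Bm k (j + 1)) (evW k n (geo F (j + 1)) Φ) - evW k n (geo F (j + 1)) Φ)
      (evW k n (geo F (j + 1)) Φ)
    rw [h, zero_add, sub_add_cancel] at h'
    exact h'
  have hzm : evT k n (j + 1) z ∈ spanBC k n (n + 1) (j + 1) := by
    refine mem_spanBC_of_good ?_ fun g => plus_invariant (Bm k (j + 1)) z g
    rw [hev]
    exact sym_phiL_mem c hc
  obtain ⟨b₁, hb₁⟩ := isBd_alt j hj z hdz hzm
  obtain ⟨b₂, hb₂⟩ := alt_sub k n k j s' hds'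
  have hz' : (plusS (TP k n) k).IsBd (m := j + 1) z :=
    ⟨b₁ - b₂, by rw [map_sub, hb₁, hb₂]; exact sub_sub_cancel _ _⟩
  obtain ⟨β, hβ⟩ := descend F (finitary_W k n) (j + 1) (red.plus _ s) (h3 k j s' hds' hz')
  refine exists_bd_of_phi k c β ?_
  rw [hβ]
  have e1 := h1 (AC (Base F (j + 1))) (evW k n (ac (Base F (j + 1))) Φ)
  have e2 := h1 (AC (Base F (j + 1))) (evW k n (ac (Base F (j + 1))) s)
  have e3 := neg_mem (add_mem e1 e2)
  convert e3 using 1
  change evW k n (ac (Base F (j + 1))) Φ -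
    red.app (AC (Base F (j + 1))) (evW k n (ac (Base F (j + 1))) s) =
      -(evW k n (ac (Base F (j + 1))) s - evW k n (ac (Base F (j + 1))) Φ +
        (red.app (AC (Base F (j + 1))) (evW k n (ac (Base F (j + 1))) s) -
          evW k n (ac (Base F (j + 1))) s))
  abel

end

end Pool.Agent.MP_e2821c_ag.Cy
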