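import Pool.Agent.Lib.MP_e2821c_ag.Cy.Keeps

namespace Pool.Agent.MP_e2821c_ag.Cy

open MvPolynomial
open scoped TensorProduct

universe u v w

noncomputable section

section General

variable {k Ω : Type u} [Field k] [Field Ω] [Algebra k Ω]

theorem root_map_normalize {F : IntermediateField k Ω} (σ : Ω ≃ₐ[k] Ω) (hσ : ∀ x ∈ F, σ x = x)
    {p : Polynomial F} {y : Ω} (hy : Polynomial.aeval y p = 0) : Polynomial.aeval (σ y) p = 0 := by
  have e : (σ : Ω →+* Ω).comp (algebraMap F Ω) = algebraMap F Ω :=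
    RingHom.ext fun x => hσ x.1 x.2
  have h := Polynomial.hom_eval₂ p (algebraMap F Ω) (σ : Ω →+* Ω) y
  rw [e, ← Polynomial.aeval_def, ← Polynomial.aeval_def, hy, map_zero] at h
  exact h.symm

theorem orbit_finite_normalize (H : Subgroup (Ω ≃ₐ[k] Ω)) {y : Ω}
    (hy : IsAlgebraic (IntermediateField.fixedField H) y) : {z | ∃ a ∈ H, a y = z}.Finite := by
  obtain ⟨p, hp, hy⟩ := hy
  refine (p.rootSet_finite Ω).subset ?_
  rintro _ ⟨a, ha, rfl⟩
  rw [Polynomial.mem_rootSet]
  exact ⟨hp, root_map_normalize a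
    (fun x hx => (IntermediateField.mem_fixedField_iff H x).1 hx a ha) hy⟩

theorem orbit_poly_normalize (H : Subgroup (Ω ≃ₐ[k] Ω)) {y : Ω}
    (hy : IsAlgebraic (IntermediateField.fixedField H) y) :
    ∃ Q : Polynomial Ω, Q.Monic ∧ (∀ j, Q.coeff j ∈ IntermediateField.fixedField H) ∧
      (∀ z, Q.IsRoot z ↔ ∃ a ∈ H, a y = z) ∧
      ∀ A : Subring Ω, (∀ a ∈ H, a y ∈ A) → ∀ j, Q.coeff j ∈ A := by
  classical
  have hf := orbit_finite_normalize H hy
  refine ⟨∏ z ∈ hf.toFinset, (Polynomial.X - Polynomial.C z),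
    Polynomial.monic_prod_of_monic _ _ fun z _ => Polynomial.monic_X_sub_C z, ?_, ?_, ?_⟩
  · intro j
    rw [IntermediateField.mem_fixedField_iff]
    intro a ha
    have e : (∏ z ∈ hf.toFinset, (Polynomial.X - Polynomial.C z)).map (a : Ω →+* Ω) =
        ∏ z ∈ hf.toFinset, (Polynomial.X - Polynomial.C z) := by
      rw [Polynomial.map_prod]
      refine Finset.prod_bij (fun z _ => a z) ?_ ?_ ?_ ?_
      · intro z hz
        obtain ⟨b, hb, rfl⟩ := hf.mem_toFinset.1 hz
        exact hf.mem_toFinset.2 ⟨a * b, H.mul_mem ha hb, rfl⟩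
      · intro z _ z' _ h
        exact a.injective h
      · intro z hz
        obtain ⟨b, hb, rfl⟩ := hf.mem_toFinset.1 hz
        exact ⟨(a⁻¹ * b) y, hf.mem_toFinset.2 ⟨a⁻¹ * b, H.mul_mem (H.inv_mem ha) hb, rfl⟩, by simp⟩
      · intro z _
        simp
    have h := congrArg (fun p => Polynomial.coeff p j) e
    simp only [Polynomial.coeff_map] at h
    exact h
  · intro z
    rw [Polynomial.IsRoot, Polynomial.eval_prod, Finset.prod_eq_zero_iff]
    simp only [Set.Finite.mem_toFinset, Set.mem_ofPred_eq, Polynomial.eval_sub, Polynomial.eval_X,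
      Polynomial.eval_C, sub_eq_zero]
    constructor
    · rintro ⟨_, h, rfl⟩
      exact h
    · intro h
      exact ⟨z, h, rfl⟩
  · intro A hA j
    have hl : ∏ z ∈ hf.toFinset, (Polynomial.X - Polynomial.C z) ∈
        Polynomial.liftsRing A.subtype := by
      refine Subring.prod_mem _ fun z hz => ?_
      obtain ⟨b, hb, rfl⟩ := hf.mem_toFinset.1 hz
      exact ⟨Polynomial.X - Polynomial.C ⟨b y, hA b hb⟩, by simp⟩
    obtain ⟨q, hq⟩ := hl
    rw [← hq]
    simp

theorem density_normalize [CharZero k] (H : Subgroup (Ω ≃ₐ[k] Ω))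
    (hH : ∀ y : Ω, IsAlgebraic (IntermediateField.fixedField H) y) (σ : Ω ≃ₐ[k] Ω)
    (hσ : ∀ x ∈ IntermediateField.fixedField H, σ x = x) (E : Finset Ω) :
    ∃ a ∈ H, ∀ e ∈ E, a e = σ e := by
  set F := IntermediateField.fixedField H with hF
  have : CharZero F := algebraRat.charZero F
  have : FiniteDimensional F (IntermediateField.adjoin F (E : Set Ω)) :=
    IntermediateField.finiteDimensional_adjoin fun x _ => (hH x).isIntegral
  obtain ⟨θ, hθ⟩ := Field.exists_primitive_element F (IntermediateField.adjoin F (E : Set Ω))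
  have hL : IntermediateField.adjoin F (E : Set Ω) = IntermediateField.adjoin F {θ.1} := by
    rw [← IntermediateField.lift_adjoin_simple, hθ, IntermediateField.lift_top]
  obtain ⟨Q, -, hQ, hr, -⟩ := orbit_poly_normalize H (hH θ.1)
  have h0 : Q.IsRoot θ.1 := (hr _).2 ⟨1, H.one_mem, rfl⟩
  have h1 : Q.IsRoot (σ θ.1) := by
    have e : Q.map (σ : Ω →+* Ω) = Q := by
      ext j
      rw [Polynomial.coeff_map]
      exact hσ _ (hQ j)
    have := h0.map (f := (σ : Ω →+* Ω))
    rwa [e] at this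
  obtain ⟨a, ha, hθa⟩ := (hr _).1 h1
  refine ⟨a, ha, fun e he => ?_⟩
  have he' : e ∈ IntermediateField.adjoin F {θ.1} := hL ▸ IntermediateField.subset_adjoin _ _ he
  clear he
  induction he' using IntermediateField.adjoin_induction with
  | mem x hx => rw [Set.mem_singleton_iff.1 hx]; exact hθa
  | algebraMap x =>
    exact ((IntermediateField.mem_fixedField_iff H x.1).1 x.2 a ha).trans (hσ x.1 x.2).symm
  | add x y _ _ hx hy => rw [map_add, map_add, hx, hy]
  | inv x _ hx => rw [map_inv₀, map_inv₀, hx]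
  | mul x y _ _ hx hy => rw [map_mul, map_mul, hx, hy]

end General

variable {k : Type u} [Field k] [CharZero k] [IsAlgClosed k] {n : ℕ}

omit [CharZero k] [IsAlgClosed k] in
theorem algebraMap_cB_normalize (c : k) : algebraMap k (Bm k 1) c = cB k 1 c := by
  rw [IsScalarTower.algebraMap_apply k (Base k 1) (Bm k 1)]
  rfl

omit [CharZero k] [IsAlgClosed k] in
theorem vB_iB_normalize (p : Base k 1) :
    vB k 1 (iB k 1 p) = algebraMap (Base k 1) (Omm k 1) p := rfl

omit [IsAlgClosed k] in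
/-- On the line every element is algebraic over a subfield with a transcendental element. -/
theorem alg_over_normalize (F : IntermediateField k (Omm k 1)) {w : Omm k 1} (hw : w ∈ F)
    (ht : ¬ IsAlgebraic k w) (y : Omm k 1) : IsAlgebraic F y := by
  have : CharZero F := algebraRat.charZero F
  have hD : Dm k 1 0 w ≠ 0 := by
    intro h
    refine ht (isAlgebraic_of_derivations w fun D => ?_)
    rw [derivation_eq_sum k 1 D w, Fin.sum_univ_one, h, mul_zero]
  refine isAlgebraic_of_derivations y fun D => ?_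
  have h1 := derivation_eq_sum k 1 (D.restrictScalars k) w
  have h2 := derivation_eq_sum k 1 (D.restrictScalars k) y
  have h3 : D w = 0 := D.map_algebraMap ⟨w, hw⟩
  rw [Fin.sum_univ_one] at h1 h2
  change D w = D _ * _ at h1
  change D y = D _ * _ at h2
  rw [h3] at h1
  rw [h2, (mul_eq_zero.1 h1.symm).resolve_right hD, zero_mul]

omit [CharZero k] in
theorem mem_range_normalize {y : Omm k 1} (hy : IsAlgebraic k y) :
    ∃ c, algebraMap k (Omm k 1) c = y :=
  hy.isIntegral.mem_range_algebraMap_of_minpoly_splits (K := k)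
    (by simpa using IsAlgClosed.splits (minpoly k y))

omit [CharZero k] in
theorem not_alg_normalize {f : Base k 1} (hf : NonConst f) :
    ¬ IsAlgebraic k (algebraMap (Base k 1) (Omm k 1) f) := by
  intro h
  obtain ⟨c, hc⟩ := mem_range_normalize h
  refine hf c (FaithfulSMul.algebraMap_injective (Base k 1) (Bm k 1) (Subtype.val_injective ?_))
  change algebraMap (Base k 1) (Omm k 1) f = algebraMap (Base k 1) (Omm k 1) (C c)
  rw [← hc, IsScalarTower.algebraMap_apply k (Base k 1) (Omm k 1)]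
  rfl

theorem algOver_normalize {f : Base k 1} (hf : NonConst f) (y : Omm k 1) : AlgOver f y :=
  IntermediateField.isAlgebraic_adjoin_iff.1
    (alg_over_normalize _ (IntermediateField.mem_adjoin_simple_self k _) (not_alg_normalize hf) y)

omit [IsAlgClosed k] in
theorem ell_aut_normalize (σ : Omm k 1 ≃ₐ[k] Omm k 1) : ∃ a : Omm k 1, ∀ u : Uo k (Omm k 1),
    ell k (Dm k 1 0) (Umap k (σ : Omm k 1 →+* Omm k 1) u) = a * σ (ell k (Dm k 1 0) u) := by
  let D' : Derivation k (Omm k 1) (Omm k 1) :=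
    Derivation.mk' (σ.symm.toLinearMap ∘ₗ (Dm k 1 0).toLinearMap ∘ₗ σ.toLinearMap) fun a b => by
      simp
  have hD : ∀ x, Dm k 1 0 (σ x) =
      σ (D' (algebraMap (Base k 1) (Omm k 1) (X 0))) * σ (Dm k 1 0 x) := by
    intro x
    have h := derivation_eq_sum k 1 D' x
    rw [Fin.sum_univ_one] at h
    rw [← map_mul, ← h]
    exact (σ.apply_symm_apply _).symm
  refine ⟨σ (D' (algebraMap (Base k 1) (Omm k 1) (X 0))), fun u => ?_⟩
  induction u using TensorProduct.induction_on with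
  | zero => simp
  | tmul c x =>
    rw [Umap_tmul, ell_tmul, ell_tmul, Algebra.smul_def, Algebra.smul_def, map_mul, σ.commutes,
      map_div₀, mul_left_comm, ← mul_div_assoc (σ _), ← hD]
    rfl
  | add a b ha hb => rw [map_add, map_add, map_add, map_add, ha, hb, mul_add]

section Keeps

variable {S : Finset (Fin n)} {v : Fin n → Uo k (Bm k 1)}

omit [CharZero k] [IsAlgClosed k] in
theorem umap_mul_normalize (α β : Bm k 1 ≃ₐ[k] Bm k 1) (u : Uo k (Bm k 1)) :
    Umap k ((α * β : Bm k 1 ≃ₐ[k] Bm k 1) : Bm k 1 →+* Bm k 1) u =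
      Umap k (α : Bm k 1 →+* Bm k 1) (Umap k (β : Bm k 1 →+* Bm k 1) u) := by
  rw [← Umap_comp]
  rfl

omit [CharZero k] [IsAlgClosed k] in
theorem umap_one_normalize (u : Uo k (Bm k 1)) :
    Umap k ((1 : Bm k 1 ≃ₐ[k] Bm k 1) : Bm k 1 →+* Bm k 1) u = u := Umap_id k u

variable (S v) in
/-- The automorphisms of the algebraic closure that keep the lines of `v`. -/
def stabNormalize : Subgroup (Omm k 1 ≃ₐ[k] Omm k 1) where
  carrier := {σ | ∃ α, Keeps S v v α ∧ ∀ x : Bm k 1, σ (vB k 1 x) = vB k 1 (α x)}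
  one_mem' := ⟨1, fun i _ => ⟨1, one_ne_zero, by
    change Umap k _ _ = _
    rw [umap_one_normalize, one_smul]⟩, fun _ => rfl⟩
  mul_mem' := by
    rintro σ τ ⟨α, hα, h1⟩ ⟨β, hβ, h2⟩
    refine ⟨α * β, fun i hi => ?_, fun x => by rw [AlgEquiv.mul_apply, h2, h1]; rfl⟩
    obtain ⟨c, hc, e⟩ := hα i hi
    obtain ⟨c', hc', e'⟩ := hβ i hi
    refine ⟨c' * c, mul_ne_zero hc' hc, ?_⟩
    change Umap k _ _ = _ at e e' ⊢
    rw [umap_mul_normalize, e', map_smul, e, smul_smul]
  inv_mem' := by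
    rintro σ ⟨α, hα, h1⟩
    refine ⟨α⁻¹, fun i hi => ?_, fun x => σ.injective ?_⟩
    · obtain ⟨c, hc, e⟩ := hα i hi
      refine ⟨c⁻¹, inv_ne_zero hc, ?_⟩
      change Umap k _ _ = _ at e ⊢
      have h := umap_mul_normalize α⁻¹ α (v i)
      rw [inv_mul_cancel, umap_one_normalize, e, map_smul] at h
      rw [eq_inv_smul_iff₀ hc, ← h]
    · rw [h1]
      simp

omit [CharZero k] [IsAlgClosed k] in
theorem exists_ext_normalize (α : Bm k 1 ≃ₐ[k] Bm k 1) :
    ∃ σ : Omm k 1 ≃ₐ[k] Omm k 1, ∀ x : Bm k 1, σ (vB k 1 x) = vB k 1 (α x) := by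
  obtain ⟨g, hg⟩ := exists_ext (Base k 1) α.toRingEquiv
  refine ⟨AlgEquiv.ofRingEquiv (f := g) fun c => ?_, hg⟩
  rw [IsScalarTower.algebraMap_apply k (Bm k 1) (Omm k 1)]
  refine (hg _).trans ?_
  change vB k 1 (α _) = _
  rw [α.commutes]

omit [CharZero k] [IsAlgClosed k] in
theorem keeps_gal_normalize (hv : IsBlock S v) (g : Gm k 1) :
    Keeps S v v (g.restrictScalars k) := by
  obtain ⟨-, -, ε, hε, -⟩ := hv
  exact fun i hi => ⟨ε i g, (ε i g).ne_zero, hε i hi g⟩

omit [IsAlgClosed k] in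
theorem fixed_mem_normalize (hv : IsBlock S v) {x : Omm k 1}
    (hx : x ∈ IntermediateField.fixedField (stabNormalize S v)) :
    x ∈ Set.range (algebraMap (Km k 1) (Omm k 1)) := by
  rw [InfiniteGalois.mem_range_algebraMap_iff_fixed]
  intro σ
  obtain ⟨g, hg⟩ := exists_res (Base k 1) σ
  exact (IntermediateField.mem_fixedField_iff _ x).1 hx (σ.restrictScalars k)
    ⟨g.restrictScalars k, keeps_gal_normalize hv g, fun y => (hg y).symm⟩

theorem exists_trans_normalize (hv : IsBlock S v) :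
    ∃ w ∈ IntermediateField.fixedField (stabNormalize S v), ¬ IsAlgebraic k w := by
  obtain ⟨h2, h0, ε, hε, h1, hinj, -⟩ := id hv
  obtain ⟨i, hi, j, hj, hij⟩ := Finset.one_lt_card.1 h2
  let l : Uo k (Bm k 1) →ₗ[k] Omm k 1 := ell k (Dm k 1 0) ∘ₗ Umap k (vB k 1)
  have hl : ∀ u, l u = 0 → Eig 1 u := fun u hu =>
    eig_one_of_isConst (isConst_of_ell fun a => by rw [Subsingleton.elim a 0]; exact hu)
  have hlj : l (v j) ≠ 0 := fun h => h1 j hj ((hε j hj).unique (hl _ h) (h0 j hj))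
  obtain ⟨N, hN, eN⟩ := (hε i hi).pow_eq_one (h0 i hi)
  obtain ⟨M, hM, eM⟩ := (hε j hj).pow_eq_one (h0 j hj)
  refine ⟨(l (v i) / l (v j)) ^ (N * M), ?_, fun ha => ?_⟩
  · rw [IntermediateField.mem_fixedField_iff]
    rintro σ ⟨α, hα, hσ⟩
    obtain ⟨g, hg⟩ := keeps_decomp hv hα
    obtain ⟨a, ha⟩ := ell_aut_normalize σ
    have key : ∀ t ∈ S, algebraMap k (Omm k 1) (ε t g) * l (v t) = a * σ (l (v t)) := by
      intro t ht
      have e : (σ : Omm k 1 →+* Omm k 1).comp (vB k 1) =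
          (vB k 1).comp (α : Bm k 1 →+* Bm k 1) := RingHom.ext hσ
      have h := ha (Umap k (vB k 1) (v t))
      rw [← Umap_comp, e, Umap_comp, hg t ht, hε t ht g, map_smul, map_smul,
        Algebra.smul_def] at h
      exact h
    have ki := key i hi
    have kj := key j hj
    have cj : algebraMap k (Omm k 1) (ε j g) ≠ 0 := by simp
    have a0 : a ≠ 0 := by
      rintro rfl
      rw [zero_mul] at kj
      exact mul_ne_zero cj hlj kj
    have e1 : σ (l (v i) / l (v j)) =
        algebraMap k (Omm k 1) (ε i g) / algebraMap k (Omm k 1) (ε j g) * (l (v i) / l (v j)) := by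
      rw [map_div₀, div_mul_div_comm, ki, kj, mul_div_mul_left _ _ a0]
    have p1 : algebraMap k (Omm k 1) (ε i g) ^ N = 1 := by
      rw [← map_pow, ← Units.val_pow_eq_pow_val, ← MonoidHom.pow_apply, eN]
      simp
    have p2 : algebraMap k (Omm k 1) (ε j g) ^ M = 1 := by
      rw [← map_pow, ← Units.val_pow_eq_pow_val, ← MonoidHom.pow_apply, eM]
      simp
    rw [map_pow, e1, mul_pow, div_pow, pow_mul, p1, pow_mul', p2, one_pow, one_pow, div_one,
      one_mul]
  · obtain ⟨c, hc⟩ := mem_range_normalize (ha.of_pow (Nat.mul_pos hN hM))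
    have e : Eig 1 (v i - c • v j) := hl _ (by
      rw [map_sub, map_smul, Algebra.smul_def, hc, div_mul_cancel₀ _ hlj, sub_self])
    obtain ⟨g, hg⟩ : ∃ g, ε i g ≠ 1 := by
      by_contra hc
      exact h1 i hi (MonoidHom.ext fun g => by simpa using not_exists.1 hc g)
    have hg' : ((ε i g : kˣ) : k) - 1 ≠ 0 := sub_ne_zero.2 fun h => hg (Units.ext h)
    have e1 := e g
    rw [map_sub, map_smul, hε i hi g, hε j hj g, MonoidHom.one_apply, Units.val_one,
      one_smul] at e1
    have e2 : v i = ((((ε i g : kˣ) : k) - 1)⁻¹ * (c * (((ε j g : kˣ) : k) - 1))) • v j := by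
      rw [mul_smul, eq_inv_smul_iff₀ hg', sub_smul, mul_smul, sub_smul, smul_sub, one_smul,
        one_smul, sub_eq_sub_iff_sub_eq_sub]
      exact e1
    have e3 : Eig (ε j) (v i) := fun g' => by
      rw [e2, map_smul, hε j hj g', smul_comm]
    exact hij (hinj hi hj ((hε i hi).unique e3 (h0 i hi)))

theorem alg_fixed_normalize (hv : IsBlock S v) (y : Omm k 1) :
    IsAlgebraic (IntermediateField.fixedField (stabNormalize S v)) y := by
  obtain ⟨w, hw, ht⟩ := exists_trans_normalize hv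
  exact alg_over_normalize _ hw ht y

theorem exists_poly_normalize (hv : IsBlock S v) : ∃ f : Base k 1, NonConst f ∧
    algebraMap (Base k 1) (Omm k 1) f ∈ IntermediateField.fixedField (stabNormalize S v) := by
  obtain ⟨Q, hm, hQ, hr, hA⟩ := orbit_poly_normalize _
    (alg_fixed_normalize hv (algebraMap (Base k 1) (Omm k 1) (X0 k)))
  have hB := hA (vB k 1).range (by
    rintro σ ⟨α, -, hσ⟩
    exact ⟨α (iB k 1 (X0 k)), (hσ _).symm⟩)
  have hR : ∀ j, ∃ f : Base k 1, algebraMap (Base k 1) (Omm k 1) f = Q.coeff j := by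
    intro j
    obtain ⟨b, hb⟩ := hB j
    obtain ⟨f, hf⟩ := mem_range_of_fixed (R := Base k 1) b fun g => by
      obtain ⟨σ, hσ⟩ := exists_ext_normalize (g.restrictScalars k)
      have h := (IntermediateField.mem_fixedField_iff _ _).1 (hQ j) σ
        ⟨_, keeps_gal_normalize hv g, hσ⟩
      rw [← hb, hσ] at h
      exact Subtype.val_injective h
    exact ⟨f, by rw [← hb, ← hf]; rfl⟩
  by_contra hc
  have hk : Q ∈ Polynomial.lifts (algebraMap k (Omm k 1)) := by
    rw [Polynomial.lifts_iff_coeff_lifts]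
    intro j
    obtain ⟨f, hf⟩ := hR j
    have : ¬ NonConst f := fun h => hc ⟨f, h, hf ▸ hQ j⟩
    obtain ⟨c, rfl⟩ : ∃ c, f = C c := by simpa [NonConst] using this
    exact ⟨c, by rw [← hf, IsScalarTower.algebraMap_apply k (Base k 1) (Omm k 1)]; rfl⟩
  obtain ⟨q, hq⟩ := hk
  have hX : NonConst (X0 k) := fun c h => by
    have := congrArg (MvPolynomial.coeff (Finsupp.single 0 1)) h
    simp [X0, MvPolynomial.coeff_C, eq_comm] at this
  refine not_alg_normalize hX ⟨q, ?_, ?_⟩
  · rintro rfl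
    exact hm.ne_zero (by rw [← hq, map_zero])
  · have h := (hr _).2 ⟨1, Subgroup.one_mem _, rfl⟩
    rw [← hq] at h
    rw [Polynomial.aeval_def, ← Polynomial.eval_map]
    exact h

theorem exists_T_normalize (hv : IsBlock S v) : ∃ T : Base k 1, NonConst T ∧
    ∀ α : Bm k 1 ≃ₐ[k] Bm k 1, Keeps S v v α ↔ α (iB k 1 T) = iB k 1 T := by
  classical
  obtain ⟨f, hf, hfF⟩ := exists_poly_normalize hv
  obtain ⟨T, hT, hE⟩ := luroth_poly
    ((IntermediateField.fixedField (stabNormalize S v)).comap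
      (IsScalarTower.toAlgHom k (Km k 1) (Omm k 1))) hf hfF fun x _ => algOver_normalize hf _
  refine ⟨T, hT, fun α => ⟨fun hα => ?_, fun hα => ?_⟩⟩
  · obtain ⟨σ, hσ⟩ := exists_ext_normalize α
    have hTE := hE ▸ IntermediateField.mem_adjoin_simple_self k (algebraMap (Base k 1) (Km k 1) T)
    have h := (IntermediateField.mem_fixedField_iff _ _).1 hTE σ ⟨α, hα, hσ⟩
    exact Subtype.val_injective ((hσ (iB k 1 T)).symm.trans h)
  · obtain ⟨σ, hσ⟩ := exists_ext_normalize α
    have hfix : ∀ x ∈ IntermediateField.fixedField (stabNormalize S v), σ x = x := by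
      intro x hx
      obtain ⟨y, rfl⟩ := fixed_mem_normalize hv hx
      have hy : y ∈ IntermediateField.adjoin k {algebraMap (Base k 1) (Km k 1) T} := hE ▸ hx
      clear hx
      induction hy using IntermediateField.adjoin_induction with
      | mem x hx =>
        rw [Set.mem_singleton_iff.1 hx]
        exact (hσ (iB k 1 T)).trans (congrArg _ hα)
      | algebraMap x => rw [← IsScalarTower.algebraMap_apply, σ.commutes]
      | add x y _ _ hx hy => rw [map_add, map_add, hx, hy]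
      | inv x _ hx => rw [map_inv₀, map_inv₀, hx]
      | mul x y _ _ hx hy => rw [map_mul, map_mul, hx, hy]
    choose E hEc using fun i => Umap_congr (v i)
    obtain ⟨a, ⟨β, hβ, ha⟩, he⟩ := density_normalize _ (alg_fixed_normalize hv) σ hfix
      ((Finset.univ.biUnion E).image (vB k 1))
    intro i hi
    obtain ⟨c, hc, e⟩ := hβ i hi
    refine ⟨c, hc, (hEc i _ _ _ fun x hx => ?_).trans e⟩
    have h := he (vB k 1 x) (Finset.mem_image_of_mem _
      (Finset.mem_biUnion.2 ⟨i, Finset.mem_univ _, hx⟩))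
    rw [ha, hσ] at h
    exact (Subtype.val_injective h).symm

end Keeps

theorem normalize {S : Finset (Fin n)} {v : Fin n → Uo k (Bm k 1)} (hv : IsBlock S v) :
    ∃ (T : Base k 1) (κ : Bm k 1 →+* Bm k 1) (v' : Fin n → Uo k (Bm k 1)), NonConst T ∧
      IsLift (iB k 1) T κ ∧ IsNorm S v' ∧ ∀ i ∈ S, Umap k κ (v' i) = v i := by
  classical
  obtain ⟨T, hT, hA⟩ := exists_T_normalize hv
  obtain ⟨κ, hκ⟩ := exists_isLift (iB k 1) T
  have hbij : Function.Bijective κ := ⟨hκ.injective hT, fun y =>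
    (hκ.mem_range_iff y).2 (intOver_of_algOver hT (algOver_normalize hT _))⟩
  let e : Bm k 1 ≃ₐ[k] Bm k 1 := AlgEquiv.ofRingEquiv (f := RingEquiv.ofBijective κ hbij) fun c => by
    rw [algebraMap_cB_normalize]
    exact DFunLike.congr_fun hκ.comp_cB c
  have he : (e : Bm k 1 →+* Bm k 1) = κ := rfl
  have hep : ∀ p, e (iB k 1 p) = iB k 1 (ev T p) := fun p => DFunLike.congr_fun hκ p
  have heX : e (iB k 1 (X0 k)) = iB k 1 T := by rw [hep, ev_X0]
  let v' : Fin n → Uo k (Bm k 1) :=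
    fun i => Umap k ((e⁻¹ : Bm k 1 ≃ₐ[k] Bm k 1) : Bm k 1 →+* Bm k 1) (v i)
  have hv' : ∀ i, Umap k (e : Bm k 1 →+* Bm k 1) (v' i) = v i := fun i => by
    rw [← umap_mul_normalize, mul_inv_cancel, umap_one_normalize]
  have hconj : ∀ (β : Bm k 1 ≃ₐ[k] Bm k 1) i,
      Umap k ((e * β * e⁻¹ : Bm k 1 ≃ₐ[k] Bm k 1) : Bm k 1 →+* Bm k 1) (v i) =
        Umap k (e : Bm k 1 →+* Bm k 1) (Umap k (β : Bm k 1 →+* Bm k 1) (v' i)) := fun β i => by
    rw [umap_mul_normalize, umap_mul_normalize]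
  have hfixT : ∀ β : Bm k 1 ≃ₐ[k] Bm k 1, (e * β * e⁻¹) (iB k 1 T) = iB k 1 T ↔
      β (iB k 1 (X0 k)) = iB k 1 (X0 k) := fun β => by
    rw [← heX]
    simp
  have hinjU : Function.Injective (Umap k (e : Bm k 1 →+* Bm k 1)) := Umap_injective e.injective
  refine ⟨T, κ, v', hT, hκ, ⟨?_, fun β hβ => ?_⟩, fun i _ => hv' i⟩
  · obtain ⟨h2, h0, ε, hε, h1, hinj, hprod⟩ := id hv
    have h0' : ∀ i ∈ S, v' i ≠ 0 := fun i hi h => h0 i hi (by rw [← hv' i, h, map_zero])
    have ht : ∀ g' : Gm k 1, ∃ g : Gm k 1, ∀ i ∈ S,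
        Umap k (g' : Bm k 1 →+* Bm k 1) (v' i) = (ε i g : k) • v' i := by
      intro g'
      obtain ⟨g, hg⟩ := keeps_decomp hv ((hA (e * g'.restrictScalars k * e⁻¹)).2
        ((hfixT _).2 (g'.commutes (X0 k))))
      refine ⟨g, fun i hi => hinjU ?_⟩
      rw [map_smul, hv', ← hε i hi g, ← hg i hi, hconj]
      rfl
    choose t ht using ht
    have hmul : ∀ i ∈ S, ∀ a b, ε i (t (a * b)) = ε i (t a) * ε i (t b) := by
      intro i hi a b
      refine Units.ext (smul_left_injective k (h0' i hi) ?_)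
      have h : Umap k ((a * b : Gm k 1) : Bm k 1 →+* Bm k 1) (v' i) =
          Umap k (a : Bm k 1 →+* Bm k 1) (Umap k (b : Bm k 1 →+* Bm k 1) (v' i)) :=
        Umap_comp k (b : Bm k 1 →+* Bm k 1) (a : Bm k 1 →+* Bm k 1) (v' i)
      rw [ht _ i hi, ht _ i hi, map_smul, ht _ i hi, smul_smul, mul_comm] at h
      exact h
    let ε' : Fin n → (Gm k 1 →* kˣ) := fun i =>
      if hi : i ∈ S then MonoidHom.mk' (fun a => ε i (t a)) (hmul i hi) else 1
    have hε' : ∀ i ∈ S, ∀ a, ε' i a = ε i (t a) := fun i hi a => by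
      simp only [ε', dif_pos hi, MonoidHom.mk'_apply]
    have hs : ∀ g : Gm k 1, ∃ g' : Gm k 1, ∀ i ∈ S, ε' i g' = ε i g := by
      intro g
      let g' : Gm k 1 := AlgEquiv.ofRingEquiv
        (f := (e⁻¹ * g.restrictScalars k * e).toRingEquiv) fun p => by
          change e.symm (g (e (iB k 1 p))) = iB k 1 p
          rw [AlgEquiv.symm_apply_eq, hep]
          exact g.commutes _
      refine ⟨g', fun i hi => Units.ext (smul_left_injective k (h0 i hi) ?_)⟩
      have h := congrArg (Umap k (e : Bm k 1 →+* Bm k 1)) (ht g' i hi)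
      have e2 : e * (e⁻¹ * g.restrictScalars k * e) * e⁻¹ = g.restrictScalars k := by group
      have h3 := hconj (e⁻¹ * g.restrictScalars k * e) i
      rw [e2] at h3
      rw [map_smul, hv'] at h
      change (ε' i g' : k) • v i = (ε i g : k) • v i
      rw [hε' i hi, ← h, ← hε i hi g]
      exact h3.symm
    refine ⟨h2, h0', ε', fun i hi g => by rw [hε' i hi]; exact ht g i hi, fun i hi h => ?_,
      fun i hi j hj h => ?_, ?_⟩
    · refine h1 i hi (MonoidHom.ext fun g => ?_)
      obtain ⟨g', hg'⟩ := hs g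
      rw [← hg' i hi, h]
      rfl
    · refine hinj hi hj (MonoidHom.ext fun g => ?_)
      obtain ⟨g', hg'⟩ := hs g
      rw [← hg' i hi, ← hg' j hj, h]
    · refine MonoidHom.ext fun a => ?_
      have h := DFunLike.congr_fun hprod (t a)
      rw [MonoidHom.finsetProd_apply] at h ⊢
      rw [Finset.prod_congr rfl fun i hi => hε' i hi a]
      exact h
  · refine (hfixT β).1 ((hA _).1 fun i hi => ?_)
    obtain ⟨c, hc, h⟩ := hβ i hi
    refine ⟨c, hc, ?_⟩
    change Umap k _ _ = _ at h ⊢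
    rw [hconj, h, map_smul, hv']

end

end Pool.Agent.MP_e2821c_ag.Cy
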