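import Pool.Agent.Lib.MP_e2821c_ag.Cy.Simp
import Pool.Agent.Lib.MP_e2821c_ag.Cy.Core2

namespace Pool.Agent.MP_e2821c_ag.Cy

open MvPolynomial
open scoped TensorProduct

universe u v w

noncomputable section

theorem monMap_congr_p0moore {R R' : Type u} [CommRing R] [CommRing R'] (f g : R →+* R')
    (p : Mon R) (h : ∀ n, f (p.1.coeff n) = g (p.1.coeff n)) : monMap f p = monMap g p := by
  refine Subtype.ext ?_
  change p.1.map f = p.1.map g
  ext1 n
  rw [Polynomial.coeff_map, Polynomial.coeff_map, h]

theorem exists_coeffs_p0moore {R : Type u} [CommRing R] {a : ℕ} (p : Polynomial (Base R a)) :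
    ∃ E : Finset R, ∀ (R' : Type u) [CommRing R'] (f g : R →+* R'), (∀ e ∈ E, f e = g e) →
      ∀ n, MvPolynomial.map f (p.coeff n) = MvPolynomial.map g (p.coeff n) := by
  classical
  refine ⟨p.support.biUnion fun n => (p.coeff n).support.image fun s => (p.coeff n).coeff s, ?_⟩
  intro R' _ f g h n
  by_cases hn : n ∈ p.support
  · ext s
    rw [coeff_map, coeff_map]
    by_cases hs : s ∈ (p.coeff n).support
    · exact h _ (Finset.mem_biUnion.2 ⟨n, hn, Finset.mem_image.2 ⟨s, hs, rfl⟩⟩)
    · rw [notMem_support_iff.1 hs, map_zero, map_zero]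
  · rw [Polynomial.notMem_support_iff.1 hn, map_zero, map_zero]

theorem pz_finitary (a : ℕ) : (PZ.{u}.simplex a).Finitary := by
  classical
  intro R _ x
  obtain ⟨p, q, -, -, hx⟩ := (Additive.toMul x : P0 (Base R a)).2
  obtain ⟨E, hE⟩ := exists_coeffs_p0moore p.1
  obtain ⟨E', hE'⟩ := exists_coeffs_p0moore q.1
  refine ⟨E ∪ E', fun R' _ f g h => ?_⟩
  refine Subtype.ext ?_
  change gpMap (MvPolynomial.map f) (Additive.toMul x : P0 (Base R a)).1 =
    gpMap (MvPolynomial.map g) (Additive.toMul x : P0 (Base R a)).1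
  rw [hx, map_div, map_div, gpMap_of, gpMap_of, gpMap_of, gpMap_of,
    monMap_congr_p0moore _ _ p (hE R' f g fun e he => h e (Finset.mem_union_left _ he)),
    monMap_congr_p0moore _ _ q (hE' R' f g fun e he => h e (Finset.mem_union_right _ he))]

theorem face_zero_p0moore (B : Type u) [CommRing B] (m : ℕ) (F : Base B (m + 1)) :
    sm B (0 : Fin (m + 2)).succAbove F = dehom B m F := by
  rw [← face_eq_sm]
  have : face B m 0 = dehom B m := by
    refine MvPolynomial.algHom_ext fun k => ?_
    simp [face, dehom]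
  rw [this]

theorem face_succ_p0moore (B : Type u) [CommRing B] (m : ℕ) (i : Fin (m + 1))
    (F : Base B (m + 1)) : sm B i.succ.succAbove F = hface B m i F := by
  rw [← face_eq_sm]
  have : face B m i.succ = hface B m i := by
    refine MvPolynomial.algHom_ext fun k => ?_
    simp only [face, hface, aeval_X]
    rcases eq_or_ne k i with h | h
    · rw [h]; simp
    · obtain ⟨l, rfl⟩ := Fin.exists_succAbove_eq h
      rw [← Fin.succ_succAbove_succ, Fin.insertNth_apply_succAbove, Fin.insertNth_apply_succAbove]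
      simp [bary]
  rw [this]

/-- A function on the simplex that extends to the next simplex with only one nonzero face. -/
def Fill_p0moore (B : Type u) [CommRing B] (m : ℕ) (c : Base B m) : Prop :=
  ∃ c' : Base B (m + 1), sm B (0 : Fin (m + 2)).succAbove c' = c ∧
    ∀ i : Fin (m + 1), sm B i.succ.succAbove c' = 0

theorem fill_zero_p0moore (B : Type u) [CommRing B] (c : Base B 0) : Fill_p0moore B 0 c := by
  obtain ⟨b, rfl⟩ := MvPolynomial.C_surjective (Fin 0) c
  refine ⟨C b * X 0, ?_, fun i => ?_⟩
  · rw [face_zero_p0moore]; simp [dehom, bary]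
  · rw [face_succ_p0moore]
    obtain rfl : i = 0 := Subsingleton.elim (α := Fin 1) _ _
    simp [hface]

theorem fill_succ_p0moore (B : Type u) [CommRing B] [IsDomain B] (a : ℕ) (c : Base B (a + 1))
    (hc : ∀ i : Fin (a + 2), sm B i.succAbove c = 0) : Fill_p0moore B (a + 1) c := by
  obtain ⟨D, hD⟩ := dehom_surj B (a + 1) c
  obtain ⟨F, hF, rfl⟩ := hD D le_rfl
  refine ⟨F, face_zero_p0moore B _ F, fun i => ?_⟩
  rw [face_succ_p0moore]
  refine dehom_eq_zero B (hface_isHomogeneous B i hF) ?_
  rw [← face_dehom, face_eq_sm, hc]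

theorem isBd_p0moore (B : Type u) [CommRing B] [IsDomain B] (m : ℕ) (x : (PZ.ringS B).obj m)
    (p q : Mon (Base B m)) (h1 : p.1.natDegree = q.1.natDegree) (h2 : p.1.coeff 0 = q.1.coeff 0)
    (hx : (Additive.toMul x : P0 (Base B m)).1 =
      Algebra.GrothendieckGroup.of p / Algebra.GrothendieckGroup.of q)
    (h : ∀ n, Fill_p0moore B m ((p.1 - q.1).coeff n)) : (PZ.ringS B).IsBd x := by
  classical
  choose c hc0 hc using h
  let D : Polynomial (Base B (m + 1)) := ∑ n ∈ (p.1 - q.1).support, Polynomial.monomial n (c n)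
  have hD : ∀ n, D.coeff n = if n ∈ (p.1 - q.1).support then c n else 0 := by
    intro n
    simp only [D, Polynomial.finsetSum_coeff, Polynomial.coeff_monomial]
    rw [Finset.sum_ite_eq']
  let s : Base B m →+* Base B (m + 1) := smR B (0 : Fin (m + 1)).predAbove
  let Q : Mon (Base B (m + 1)) := monMap s q
  have hdeg : D.degree < Q.1.degree := by
    have e1 : Q.1.degree = q.1.degree := q.2.1.degree_map s
    have e2 : p.1.degree = q.1.degree := by
      rw [Polynomial.degree_eq_natDegree p.2.1.ne_zero,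
        Polynomial.degree_eq_natDegree q.2.1.ne_zero, h1]
    have e3 : (p.1 - q.1).degree < p.1.degree :=
      Polynomial.degree_sub_lt_left e2 p.2.1.ne_zero (by rw [p.2.1.leadingCoeff, q.2.1.leadingCoeff])
    rw [e1, ← e2]
    refine lt_of_le_of_lt ?_ e3
    refine (Polynomial.degree_le_iff_coeff_zero _ _).2 fun n hn => ?_
    rw [hD, if_neg]
    rw [Polynomial.notMem_support_iff]
    exact Polynomial.coeff_eq_zero_of_degree_lt hn
  have hD0 : D.coeff 0 = 0 := by
    rw [hD, if_neg]
    rw [Polynomial.notMem_support_iff, Polynomial.coeff_sub, h2, sub_self]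
  let P : Mon (Base B (m + 1)) := ⟨Q.1 + D, Q.2.1.add_of_left hdeg, by
    rw [Polynomial.coeff_add, hD0, add_zero]; exact Q.2.2⟩
  let y : P0 (Base B (m + 1)) := ⟨Algebra.GrothendieckGroup.of P / Algebra.GrothendieckGroup.of Q,
    P, Q, Polynomial.natDegree_add_eq_left_of_degree_lt hdeg, by
      change (Q.1 + D).coeff 0 = _
      rw [Polynomial.coeff_add, hD0, add_zero], rfl⟩
  have hQ0 : monMap (smR B (0 : Fin (m + 2)).succAbove) Q = q := by
    refine Subtype.ext ?_
    change (q.1.map s).map _ = q.1
    rw [Polynomial.map_map, ← smR_comp]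
    have : (0 : Fin (m + 1)).predAbove ∘ (0 : Fin (m + 2)).succAbove = id := by
      funext k; simp
    rw [this, smR_id, Polynomial.map_id]
  have hP0 : monMap (smR B (0 : Fin (m + 2)).succAbove) P = p := by
    refine Subtype.ext ?_
    change (Q.1 + D).map _ = p.1
    have e : D.map (smR B (0 : Fin (m + 2)).succAbove) = p.1 - q.1 := by
      ext1 n
      rw [Polynomial.coeff_map, hD]
      split_ifs with hn
      · exact hc0 n
      · rw [map_zero, Polynomial.notMem_support_iff.1 hn]
    rw [Polynomial.map_add, e, show Q.1.map _ = q.1 from congrArg Subtype.val hQ0]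
    ring
  have hPs : ∀ i : Fin (m + 1),
      monMap (smR B i.succ.succAbove) P = monMap (smR B i.succ.succAbove) Q := by
    intro i
    refine Subtype.ext ?_
    change (Q.1 + D).map _ = Q.1.map _
    have e : D.map (smR B i.succ.succAbove) = 0 := by
      ext1 n
      rw [Polynomial.coeff_map, hD, Polynomial.coeff_zero]
      split_ifs with hn
      · exact hc n i
      · rw [map_zero]
    rw [Polynomial.map_add, e, add_zero]
  let z : (PZ.ringS B).obj (m + 1) := (Additive.ofMul y : Additive (P0 (Base B (m + 1))))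
  have a0 : (PZ.ringS B).act (0 : Fin (m + 2)).succAbove z = x := by
    refine Subtype.ext ?_
    change gpMap _ (_ / _) = (Additive.toMul x : P0 (Base B m)).1
    rw [hx, map_div, gpMap_of, gpMap_of, hP0, hQ0]
  have as : ∀ i : Fin (m + 1), (PZ.ringS B).act i.succ.succAbove z = 0 := by
    intro i
    refine Subtype.ext ?_
    change gpMap _ (_ / _) = 1
    rw [map_div, gpMap_of, gpMap_of, hPs, div_self']
  clear_value z
  refine ⟨z, ?_⟩
  rw [SMod.d_apply, Fin.sum_univ_succ, a0, Finset.sum_eq_zero fun i _ => by rw [as, smul_zero]]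
  simp

theorem pz_exact_zero (B : Type u) [CommRing B] [IsDomain B] (x : (PZ.ringS B).obj 0) :
    (PZ.ringS B).IsBd x := by
  obtain ⟨p, q, h1, h2, hx⟩ := (Additive.toMul x : P0 (Base B 0)).2
  exact isBd_p0moore B 0 x p q h1 h2 hx fun n => fill_zero_p0moore B _

theorem of_injective_p0moore (R : Type u) [CommRing R] [IsDomain R] :
    Function.Injective (Algebra.GrothendieckGroup.of : Mon R → Gp R) := by
  have : IsCancelMul (Mon R) :=
    { mul_left_cancel := fun a b c h =>
        Subtype.ext (mul_left_cancel₀ a.2.1.ne_zero (congrArg Subtype.val h))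
      mul_right_cancel := fun a b c h =>
        Subtype.ext (mul_right_cancel₀ a.2.1.ne_zero (congrArg Subtype.val h)) }
  exact Algebra.GrothendieckGroup.of_injective

theorem pz_exact (B : Type u) [CommRing B] [IsDomain B] (a : ℕ) (x : (PZ.ringS B).obj (a + 1))
    (hx : (PZ.ringS B).d a x = 0) : (PZ.ringS B).IsBd x := by
  refine SMod.moore _ a (fun x hx => ?_) x hx
  obtain ⟨p, q, h1, h2, hpq⟩ := (Additive.toMul x : P0 (Base B (a + 1))).2
  refine isBd_p0moore B (a + 1) x p q h1 h2 hpq fun n => fill_succ_p0moore B a _ fun i => ?_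
  have e : gpMap (smR B i.succAbove) (Additive.toMul x : P0 (Base B (a + 1))).1 = 1 :=
    congrArg Subtype.val (hx i)
  rw [hpq, map_div, gpMap_of, gpMap_of, div_eq_one] at e
  have e' : p.1.map (smR B i.succAbove) = q.1.map (smR B i.succAbove) :=
    congrArg Subtype.val (of_injective_p0moore _ e)
  have e'' := congrArg (fun r => Polynomial.coeff r n) e'
  simp only [Polynomial.coeff_map, smR_apply] at e''
  rw [Polynomial.coeff_sub, map_sub, e'', sub_self]

end

end Pool.Agent.MP_e2821c_ag.Cy
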