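import Pool.Agent.Lib.MP_e2821c_ag.Cy.VDer

set_option autoImplicit false

namespace CyV

open Polynomial

namespace Ord

variable {K Ω : Type*} [Field K] [Field Ω] [Algebra K Ω]

theorem gt_coeff_prod (o : Ord Ω) (s : Multiset Ω) (h : ∀ a ∈ s, o.Gt 0 a) (i : ℕ) :
    o.Gt 0 (((s.map fun a => X - C a).prod - X ^ s.card).coeff i) := by
  induction s using Multiset.induction_on generalizing i with
  | empty => simp [gt_zero]
  | cons a s ih =>
    have ha := h a (by simp)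
    have ih := ih fun b hb => h b (by simp [hb])
    set Q := (s.map fun a => X - C a).prod - X ^ s.card with hQ
    have e : ((a ::ₘ s).map fun a => X - C a).prod - X ^ (a ::ₘ s).card =
        X * Q - C a * Q - C a * X ^ s.card := by
      rw [Multiset.map_cons, Multiset.prod_cons, Multiset.card_cons, hQ]; ring
    rw [e, coeff_sub, coeff_sub, coeff_C_mul, coeff_C_mul]
    refine Gt.sub (Gt.sub ?_ (ha.mul₀ (ih i).ge)) (ha.mul₀ ?_)
    · cases i with
      | zero => simp [gt_zero]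
      | succ i => rw [coeff_X_mul]; exact ih i
    · rw [coeff_X_pow]; split_ifs
      exacts [ge_one, ge_zero 0]

theorem gt_of_conj [Normal K Ω] (o o' : Ord Ω)
    (h : ∀ a : K, a ≠ 0 → o'.v (algebraMap K Ω a) = o.v (algebraMap K Ω a)) {z : Ω}
    (hz : ∀ g : Ω ≃ₐ[K] Ω, o.Gt 0 (g z)) : o'.Gt 0 z := by
  by_contra hc
  have hz0 : z ≠ 0 := fun h => hc (Or.inl h)
  have hv : o'.v z ≤ 0 := not_lt.mp fun h => hc (Or.inr h)
  have ha : IsAlgebraic K z := Algebra.IsAlgebraic.isAlgebraic z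
  have hm := minpoly.monic ha.isIntegral
  have hs := (Normal.splits inferInstance z : ((minpoly K z).map (algebraMap K Ω)).Splits)
  have h1 := o.gt_coeff_prod ((minpoly K z).map (algebraMap K Ω)).roots fun a hr => by
    obtain ⟨g, rfl⟩ := minpoly.exists_algEquiv_of_root' ha
      (show aeval a (minpoly K z) = 0 by simpa [aeval_def, eval_map] using isRoot_of_mem_roots hr)
    exact hz g
  rw [← hs.eq_prod_roots_of_monic (hm.map _), ← hs.natDegree_eq_card_roots, hm.natDegree_map] at h1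
  have h2 := minpoly.aeval K z
  rw [hm.as_sum, map_add, map_pow, aeval_X, map_sum] at h2
  refine (add_of_gt (o := o') (pow_ne_zero _ hz0) (Gt.sum fun i hi => ?_)).1 h2
  rw [Finset.mem_range] at hi
  rw [map_mul, aeval_C, map_pow, aeval_X, o'.v_pow z hz0]
  have h3 := h1 i
  rw [coeff_sub, coeff_X_pow, if_neg hi.ne, sub_zero, coeff_map] at h3
  have h4 : o'.Gt 0 (algebraMap K Ω ((minpoly K z).coeff i)) := by
    by_cases h0 : (minpoly K z).coeff i = 0
    · simp [h0, gt_zero]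
    exact h3.imp id fun h3 => by rwa [h _ h0]
  refine (h4.mul ((ge_self (o := o') z).pow i)).mono ?_
  have : (i : ℚ) < (minpoly K z).natDegree := by exact_mod_cast hi
  nlinarith

theorem exists_conj [Normal K Ω] (o o' : Ord Ω)
    (h : ∀ a : K, a ≠ 0 → o'.v (algebraMap K Ω a) = o.v (algebraMap K Ω a)) {x : Ω}
    (hx : x ≠ 0) : ∃ g : Ω ≃ₐ[K] Ω, o'.v x = o.v (g x) := by
  obtain ⟨P, hP, hPx⟩ : IsAlgebraic K x := Algebra.IsAlgebraic.isAlgebraic x
  obtain ⟨n, hn, -, a, ha, hna⟩ := o'.exists_pow_v hx P hP hPx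
  have ha' : algebraMap K Ω a ≠ 0 := by simpa using ha
  have hn' : (n : ℚ) ≠ 0 := by exact_mod_cast hn.ne'
  by_contra hc
  push Not at hc
  set y := x ^ n / algebraMap K Ω a with hy
  have hy0 : y ≠ 0 := div_ne_zero (pow_ne_zero _ hx) ha'
  have h1 : o'.v y = 0 := by
    rw [hy, o'.v_div _ _ (pow_ne_zero _ hx) ha', o'.v_pow x hx, hna, sub_self]
  have h2 : ∀ g : Ω ≃ₐ[K] Ω, o.v (g y) ≠ 0 := by
    intro g hg
    have hgx : g x ≠ 0 := by simpa using hx
    rw [hy, map_div₀, map_pow, g.commutes, o.v_div _ _ (pow_ne_zero _ hgx) ha', o.v_pow _ hgx,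
      ← h a ha, ← hna, sub_eq_zero] at hg
    exact hc g (mul_left_cancel₀ hn' hg).symm
  have h3 : ∀ t : Ω, t ≠ 0 → o.v t ≠ 0 → 1 + t ^ 2 ≠ 0 ∧ o.Gt 0 (t / (1 + t ^ 2)) := by
    intro t ht hv
    have e := o.v_pow t ht 2
    rcases lt_or_gt_of_ne hv with hv | hv
    · obtain ⟨b1, b2⟩ := add_of_gt (o := o) (pow_ne_zero 2 ht) (y := 1)
        (Or.inr (by rw [e, v_one]; push_cast; linarith))
      rw [add_comm] at b1 b2
      exact ⟨b1, Or.inr (by rw [o.v_div _ _ ht b1, b2, e]; push_cast; linarith)⟩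
    · obtain ⟨b1, b2⟩ := add_of_gt (o := o) one_ne_zero (y := t ^ 2)
        (Or.inr (by rw [e, v_one]; push_cast; linarith))
      exact ⟨b1, Or.inr (by rw [o.v_div _ _ ht b1, b2, v_one]; linarith)⟩
  have h4 := (h3 y hy0 (h2 1)).1
  have h5 := gt_of_conj o o' h (z := y / (1 + y ^ 2)) fun g => by
    rw [map_div₀, map_add, map_one, map_pow]
    exact (h3 _ (by simpa using hy0) (h2 g)).2
  rw [gt_div_iff h4] at h5
  have h6 := (ge_one.add (Ge.pow₀ (o := o') (Or.inr h1.ge) 2)).le h4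
  have h7 := h5.lt hy0
  linarith

open scoped Pointwise in
/-- transitivity of the Galois group on the extensions, at a finite level -/
theorem transitive [Normal K Ω] (o o' : Ord Ω)
    (h : ∀ a : K, a ≠ 0 → o'.v (algebraMap K Ω a) = o.v (algebraMap K Ω a))
    (L : IntermediateField K Ω) [FiniteDimensional K L] :
    ∃ g : Ω ≃ₐ[K] Ω, ∀ x ∈ L, x ≠ 0 → o'.v x = o.v (g x) := by
  classical
  have hne : ∀ x : Lˣ, ((x : L) : Ω) ≠ 0 := fun x => by simp
  let H : (L →ₐ[K] Ω) → Subgroup Lˣ := fun σ =>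
    { carrier := {x | o'.v (x : L) = o.v (σ x)}
      one_mem' := by simp
      mul_mem' := fun {a b} ha hb => by
        simp only [Set.mem_ofPred_eq, Units.val_mul, map_mul, MulMemClass.coe_mul] at ha hb ⊢
        rw [o'.v_mul _ _ (hne a) (hne b), o.v_mul _ _ (by simp) (by simp), ha, hb]
      inv_mem' := fun {a} ha => by
        simp only [Set.mem_ofPred_eq, Units.val_inv_eq_inv_val, map_inv₀,
          IntermediateField.coe_inv] at ha ⊢
        rw [o'.v_inv _ (hne a), o.v_inv _ (by simp), ha] }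
  let φ : (Ω ≃ₐ[K] Ω) → (L →ₐ[K] Ω) := fun g => (g : Ω →ₐ[K] Ω).comp L.val
  obtain ⟨σ, hσ, hfin⟩ := Subgroup.exists_finiteIndex_of_leftCoset_cover (H := H)
    (g := fun _ => 1) (s := Finset.univ.filter fun σ => σ ∈ Set.range φ) (by
      refine Set.eq_univ_of_forall fun x => ?_
      obtain ⟨g, hg⟩ := exists_conj o o' h (hne x)
      simp only [one_smul, Set.mem_iUnion]
      exact ⟨φ g, by simp, hg⟩)
  obtain ⟨g, rfl⟩ : σ ∈ Set.range φ := (Finset.mem_filter.mp hσ).2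
  refine ⟨g, fun x hx h0 => ?_⟩
  have h1 : o'.v (x ^ (H (φ g)).index) = o.v (g (x ^ (H (φ g)).index)) := by
    simpa [H, φ] using (H (φ g)).pow_index_mem
      (Units.mk0 (⟨x, hx⟩ : L) fun h => h0 (congrArg Subtype.val h))
  rw [map_pow, o'.v_pow x h0, o.v_pow _ (by simpa using h0)] at h1
  exact mul_left_cancel₀ (by exact_mod_cast hfin.index_ne_zero) h1

/-- the additive map on units -/
def toAdd (o : Ord Ω) : Additive Ωˣ →+ ℚ :=
  AddMonoidHom.mk' (fun x => o.v (x.toMul : Ωˣ)) fun x y =>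
    o.v_mul _ _ x.toMul.ne_zero y.toMul.ne_zero

@[simp] theorem toAdd_apply (o : Ord Ω) (x : Ωˣ) : o.toAdd (Additive.ofMul x) = o.v x := rfl

theorem toAdd_spec {o : Ord Ω} {V : ValuationSubring Ω} (h : ∀ x, x ∈ V ↔ o.Ge 0 x) (x : Ωˣ) :
    (x : Ω) ∈ V ↔ 0 ≤ o.toAdd (Additive.ofMul x) := by
  rw [h]; simp [Ge]

theorem mem_nonunits {o : Ord Ω} {V : ValuationSubring Ω} (h : ∀ x, x ∈ V ↔ o.Ge 0 x) (x : Ω) :
    x ∈ V.nonunits ↔ o.Gt 0 x := by
  rw [V.mem_nonunits_iff_or, h]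
  by_cases hx : x = 0
  · simp [hx, gt_zero]
  simp [Ge, Gt, hx, o.v_inv x hx]

theorem exists_ofAdd (V : ValuationSubring Ω) (ord : Additive Ωˣ →+ ℚ)
    (h : ∀ x : Ωˣ, (x : Ω) ∈ V ↔ 0 ≤ ord (Additive.ofMul x)) :
    ∃ o : Ord Ω, (∀ x : Ωˣ, o.v x = ord (Additive.ofMul x)) ∧ ∀ x, x ∈ V ↔ o.Ge 0 x := by
  classical
  let v : Ω → ℚ := fun x => if hx : x = 0 then 0 else ord (Additive.ofMul (Units.mk0 x hx))
  have hv : ∀ x : Ωˣ, v x = ord (Additive.ofMul x) := fun x => by simp [v]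
  have hmul : ∀ x y, x ≠ 0 → y ≠ 0 → v (x * y) = v x + v y := fun x y hx hy => by
    have := hv (Units.mk0 x hx * Units.mk0 y hy)
    rwa [ofMul_mul, map_add, ← hv, ← hv] at this
  have hm : ∀ x, x ≠ 0 → (x ∈ V ↔ 0 ≤ v x) := fun x hx => by
    have := h (Units.mk0 x hx)
    rwa [← hv] at this
  have key : ∀ x y, x ≠ 0 → y ≠ 0 → x + y ≠ 0 → v x ≤ v y → v x ≤ v (x + y) := by
    intro x y hx hy hxy hle
    have h1 := hmul x (y / x) hx (div_ne_zero hy hx)
    have h2 := hmul x ((x + y) / x) hx (div_ne_zero hxy hx)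
    rw [mul_div_cancel₀ _ hx] at h1 h2
    have h3 := (hm _ (div_ne_zero hxy hx)).mp (by
      rw [add_div, div_self hx]
      exact V.add_mem _ _ V.one_mem ((hm _ (div_ne_zero hy hx)).mpr (by linarith)))
    linarith
  refine ⟨⟨v, hmul, fun x y hx hy hxy => ?_⟩, hv, fun x => ?_⟩
  · rcases le_total (v x) (v y) with hle | hle
    · exact (min_le_left _ _).trans (key x y hx hy hxy hle)
    · rw [add_comm] at hxy ⊢
      exact (min_le_right _ _).trans (key y x hy hx hxy hle)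
  · by_cases hx : x = 0
    · simp [hx, ge_zero]
    simp only [Ge, hx, false_or]
    exact hm x hx

theorem valuation_eq {o : Ord Ω} {V : ValuationSubring Ω} (h : ∀ x, x ∈ V ↔ o.Ge 0 x) {a b : Ω}
    (ha : a ≠ 0) (hb : b ≠ 0) (hab : o.v a = o.v b) : V.valuation a = V.valuation b := by
  have key : ∀ a b : Ω, b ≠ 0 → o.v a = o.v b → V.valuation a ≤ V.valuation b := fun a b hb hab =>
    (V.valuation_le_iff a b).mpr ⟨⟨a / b, (h _).mpr ((ge_div_iff hb).mpr
      (Or.inr (by rw [hab, zero_add])))⟩, div_mul_cancel₀ a hb⟩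
  exact le_antisymm (key a b hb hab) (key b a ha hab.symm)

/-- the normalised order of a discrete valuation ring -/
theorem exists_ofPlace (A : ValuationSubring K) {π : K} (h0 : π ≠ 0) (h1 : π ∈ A.nonunits)
    (h2 : ∀ a : K, a ≠ 0 → ∃ n : ℤ, A.valuation a = A.valuation π ^ n) :
    ∃ o : Ord K, o.v π = 1 ∧ (∀ a, a ≠ 0 → ∃ n : ℤ, o.v a = n) ∧ ∀ x, x ∈ A ↔ o.Ge 0 x := by
  have h3 : ∀ a : K, ∃ n : ℤ, a ≠ 0 → A.valuation a = A.valuation π ^ n := fun a => by
    by_cases ha : a = 0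
    · exact ⟨0, fun h => absurd ha h⟩
    exact (h2 a ha).imp fun _ h _ => h
  choose ν hν using h3
  have hp : 0 < A.valuation π := zero_lt_iff.mpr (by simpa using h0)
  have hl : A.valuation π < 1 := A.mem_nonunits_iff.mp h1
  have anti := zpow_right_strictAnti₀ hp hl
  refine ⟨⟨fun a => ν a, fun x y hx hy => ?_, fun x y hx hy hxy => ?_⟩, ?_, fun a _ => ⟨_, rfl⟩,
    fun x => ?_⟩
  · have := hν _ (mul_ne_zero hx hy)
    rw [map_mul, hν x hx, hν y hy, ← zpow_add₀ hp.ne'] at this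
    exact_mod_cast (anti.injective this).symm
  · have := A.valuation.map_add x y
    rw [hν x hx, hν y hy, hν _ hxy, le_max_iff, anti.le_iff_ge, anti.le_iff_ge] at this
    exact_mod_cast min_le_iff.mpr this
  · have := hν π h0
    nth_rewrite 1 [← zpow_one (A.valuation π)] at this
    change (ν π : ℚ) = 1
    exact_mod_cast (anti.injective this).symm
  · by_cases hx : x = 0
    · simp [hx, ge_zero]
    rw [← A.valuation_le_one_iff, hν x hx, ← zpow_zero (A.valuation π), anti.le_iff_ge]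
    simp [Ge, hx]

/-- two orders with the same ring that agree at an element of nonzero order are equal -/
theorem v_eq_of_ring {o o' : Ord Ω} (h : ∀ x, o.Ge 0 x ↔ o'.Ge 0 x) {y : Ω} (hy : y ≠ 0)
    (h0 : o.v y ≠ 0) (hv : o'.v y = o.v y) {x : Ω} (hx : x ≠ 0) : o'.v x = o.v x := by
  set q := o.v x / o.v y with hq
  have hd : (q.den : ℚ) ≠ 0 := by exact_mod_cast q.den_ne_zero
  have hz : x ^ q.den / y ^ q.num ≠ 0 := div_ne_zero (pow_ne_zero _ hx) (zpow_ne_zero _ hy)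
  have e : ∀ o : Ord Ω, o.v (x ^ q.den / y ^ q.num) = q.den * o.v x - q.num * o.v y := fun o => by
    rw [o.v_div _ _ (pow_ne_zero _ hx) (zpow_ne_zero _ hy), o.v_pow x hx, o.v_zpow y hy]
  have h1 : o.v (x ^ q.den / y ^ q.num) = 0 := by
    rw [e, ← Rat.mul_den_eq_num, hq]; field_simp; ring
  have h2 := ((h _).mp (Or.inr h1.ge)).le hz
  have h3 := ((h _).mp (Or.inr (by rw [o.v_inv _ hz, h1, neg_zero]))).le (inv_ne_zero hz)
  rw [o'.v_inv _ hz] at h3
  rw [e] at h1 h2 h3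
  rw [hv] at h2 h3
  exact mul_left_cancel₀ hd (by linarith)

end Ord

end CyV
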