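import Pool.Agent.Lib.MP_e2821c_ag.Cy.Core3
import Pool.Agent.Lib.MP_e2821c_ag.Cy.VTr

namespace Pool.Agent.MP_e2821c_ag.Cy

open MvPolynomial
open scoped TensorProduct

universe u v w

noncomputable section

theorem isPlace_ring {K : Type*} [Field K] (o : CyV.Ord K) {π : K} (h0 : π ≠ 0) (h1 : o.v π = 1)
    (hZ : ∀ a, a ≠ 0 → ∃ n : ℤ, o.v a = n) : IsPlace o.ring π := by
  refine ⟨h0, (CyV.Ord.mem_nonunits o.mem_ring π).mpr (Or.inr (by rw [h1]; exact one_pos)),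
    fun a ha => (hZ a ha).imp fun n hn => ?_⟩
  rw [← map_zpow₀]
  exact CyV.Ord.valuation_eq o.mem_ring ha (zpow_ne_zero _ h0)
    (by rw [o.v_zpow π h0, h1, hn, mul_one])

theorem int_of_ring {R K : Type*} [CommRing R] [IsDomain R] [Field K] [Algebra R K]
    [IsFractionRing R K] (o : CyV.Ord K)
    (hZ : ∀ r : R, r ≠ 0 → ∃ n : ℤ, o.v (algebraMap R K r) = n) (a : K) (ha : a ≠ 0) :
    ∃ n : ℤ, o.v a = n := by
  obtain ⟨x, y, hy, rfl⟩ := IsFractionRing.div_surjective (A := R) a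
  have hx : x ≠ 0 := by rintro rfl; simp at ha
  obtain ⟨n, hn⟩ := hZ x hx
  obtain ⟨m, hm⟩ := hZ y (nonZeroDivisors.ne_zero hy)
  exact ⟨n - m, by rw [o.v_div _ _ (CyV.alg_ne_zero hx)
    (CyV.alg_ne_zero (nonZeroDivisors.ne_zero hy)), hn, hm]; push_cast; rfl⟩

theorem IsPlace.exists_ord {K Ω : Type*} [Field K] [Field Ω] [Algebra K Ω]
    [Algebra.IsAlgebraic K Ω] {A : ValuationSubring K} {π : K} (hA : IsPlace A π)
    {𝒪 : ValuationSubring Ω} (h𝒪 : 𝒪.comap (algebraMap K Ω) = A) :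
    ∃ o : CyV.Ord Ω, o.v (algebraMap K Ω π) = 1 ∧
      (∀ a : K, a ≠ 0 → ∃ n : ℤ, o.v (algebraMap K Ω a) = n) ∧ ∀ x, x ∈ 𝒪 ↔ o.Ge 0 x := by
  obtain ⟨o₀, h1, h2, h3⟩ := CyV.Ord.exists_ofPlace A hA.ne hA.mem hA.fac
  obtain ⟨o, a1, a2⟩ := o₀.exists_of_val 𝒪 fun a => by rw [← ValuationSubring.mem_comap, h𝒪, h3]
  exact ⟨o, by rw [a1 π hA.ne, h1], fun a ha => by rw [a1 a ha]; exact h2 a ha, a2⟩

theorem exists_place_prime {R K : Type u} [CommRing R] [IsDomain R] [UniqueFactorizationMonoid R]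
    [Field K] [Algebra R K] [IsFractionRing R K] {π : R} (hπ : Prime π) :
    ∃ A : ValuationSubring K, IsPlace A (algebraMap R K π) ∧
      ∀ x : K, x ∈ A ↔ ∃ p q : R, ¬ π ∣ q ∧ x * algebraMap R K q = algebraMap R K p := by
  have : Algebra.IsAlgebraic R K := IsLocalization.isAlgebraic K (nonZeroDivisors R)
  obtain ⟨o, ho⟩ := CyV.exists_ord_prime K hπ
  refine ⟨o.ring, isPlace_ring o (CyV.alg_ne_zero hπ.ne_zero) (o.prime_v hπ ho)
    (int_of_ring o fun r hr => ⟨multiplicity π r, by simp [ho r hr]⟩), fun x => ⟨fun hx => ?_, ?_⟩⟩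
  · obtain ⟨a, b, hb, rfl⟩ := IsFractionRing.div_surjective (A := R) x
    have hb0 := nonZeroDivisors.ne_zero hb
    obtain ⟨c, h1, h2⟩ := (FiniteMultiplicity.of_prime_left hπ hb0).exists_eq_pow_mul_and_not_dvd
    rw [o.mem_ring, CyV.Ord.ge_div_iff (CyV.alg_ne_zero hb0), ho b hb0, zero_add] at hx
    obtain ⟨d, hd⟩ := o.prime_pow_dvd ho hx
    refine ⟨d, c, h2, ?_⟩
    rw [div_mul_eq_mul_div, div_eq_iff (CyV.alg_ne_zero hb0), ← map_mul, ← map_mul]
    congr 1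
    linear_combination c * hd - d * h1
  · rintro ⟨p, q, hq, h⟩
    have hq0 : q ≠ 0 := by rintro rfl; simp at hq
    rw [o.mem_ring, eq_div_of_mul_eq (CyV.alg_ne_zero hq0) h,
      CyV.Ord.ge_div_iff (CyV.alg_ne_zero hq0), ho q hq0, multiplicity_eq_zero.mpr hq]
    simpa using o.prime_ge ho p

theorem mem_range_of_places {R K : Type u} [CommRing R] [IsDomain R]
    [UniqueFactorizationMonoid R] [Field K] [Algebra R K] [IsFractionRing R K] (x : K)
    (h : ∀ π : R, Prime π → ∃ p q : R, ¬ π ∣ q ∧ x * algebraMap R K q = algebraMap R K p) :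
    x ∈ (algebraMap R K).range := by
  obtain ⟨a, b, hab, rfl⟩ := IsFractionRing.exists_reduced_fraction R x
  have hb0 := nonZeroDivisors.ne_zero b.2
  by_cases hu : IsUnit (b : R)
  · obtain ⟨c, hc⟩ := hu.exists_right_inv
    refine ⟨a * c, ?_⟩
    rw [IsLocalization.eq_mk'_iff_mul_eq, ← map_mul]
    congr 1
    linear_combination a * hc
  obtain ⟨π, hπ, hd⟩ := WfDvdMonoid.exists_irreducible_factor hu hb0
  obtain ⟨p, q, hq, e⟩ := h π hπ.prime
  rw [IsFractionRing.mk'_eq_div, div_mul_eq_mul_div, div_eq_iff (CyV.alg_ne_zero hb0), ← map_mul,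
    ← map_mul] at e
  have h1 : π ∣ a * q := IsFractionRing.injective R K e ▸ hd.mul_left p
  exact absurd (hab ((hπ.prime.dvd_or_dvd h1).resolve_right hq) hd) hπ.not_isUnit

theorem exists_place_inf (k : Type u) [Field k] (m : ℕ) (i : Fin m) :
    ∃ A : ValuationSubring (Km k m),
      IsPlace A (algebraMap (Base k m) (Km k m) (X i))⁻¹ ∧
      ∀ p q : Base k m, q ≠ 0 →
        (algebraMap (Base k m) (Km k m) p / algebraMap (Base k m) (Km k m) q ∈ A ↔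
          p.totalDegree ≤ q.totalDegree) := by
  have : Algebra.IsAlgebraic (Base k m) (Km k m) :=
    IsLocalization.isAlgebraic _ (nonZeroDivisors (Base k m))
  obtain ⟨o, ho⟩ := CyV.exists_ord (Km k m) (fun p : Base k m => -(p.totalDegree : ℤ))
    (fun x y hx hy => by rw [totalDegree_mul_of_isDomain hx hy]; push_cast; ring)
    (fun x y _ _ _ => by have := totalDegree_add x y; omega)
  have hX : algebraMap (Base k m) (Km k m) (X i) ≠ 0 := CyV.alg_ne_zero (X_ne_zero i)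
  refine ⟨o.ring, isPlace_ring o (inv_ne_zero hX) (by rw [o.v_inv _ hX, ho _ (X_ne_zero i)]; simp)
    (int_of_ring o fun r hr => ⟨_, ho r hr⟩), fun p q hq => ?_⟩
  rw [o.mem_ring, CyV.Ord.ge_div_iff (CyV.alg_ne_zero hq), ho q hq]
  by_cases hp : p = 0
  · simp [hp, CyV.Ord.ge_zero]
  simp [CyV.Ord.Ge, hp, ho p hp]

section Over

variable {K Ω : Type u} [Field K] [Field Ω] [Algebra K Ω] [Algebra.IsAlgebraic K Ω]

omit [Algebra.IsAlgebraic K Ω] in
theorem exists_over (A : ValuationSubring K) :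
    ∃ 𝒪 : ValuationSubring Ω, 𝒪.comap (algebraMap K Ω) = A := by
  exact CyV.Ord.exists_over A

theorem exists_ord {A : ValuationSubring K} {π : K} (hA : IsPlace A π) {𝒪 : ValuationSubring Ω}
    (h𝒪 : 𝒪.comap (algebraMap K Ω) = A) :
    ∃ ord : Additive Ωˣ →+ ℚ, IsOrd 𝒪 ord ∧
      ∀ x : Ωˣ, (x : Ω) = algebraMap K Ω π → ord (Additive.ofMul x) = 1 := by
  obtain ⟨o, h1, -, h2⟩ := hA.exists_ord h𝒪
  exact ⟨o.toAdd, CyV.Ord.toAdd_spec h2, fun x hx => by rw [o.toAdd_apply, hx, h1]⟩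

theorem over_transitive [IsGalois K Ω] {A : ValuationSubring K} {π : K} (hA : IsPlace A π)
    {𝒪 𝒪' : ValuationSubring Ω} (h : 𝒪.comap (algebraMap K Ω) = A)
    (h' : 𝒪'.comap (algebraMap K Ω) = A) (E : Finset Ω) :
    ∃ g : Ω ≃ₐ[K] Ω, ∀ x ∈ IntermediateField.adjoin K (E : Set Ω), x ∈ 𝒪' ↔ g x ∈ 𝒪 := by
  obtain ⟨o₀, -, -, h2⟩ := CyV.Ord.exists_ofPlace A hA.ne hA.mem hA.fac
  obtain ⟨o, a1, a2⟩ := o₀.exists_of_val 𝒪 fun a => by rw [← ValuationSubring.mem_comap, h, h2]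
  obtain ⟨o', b1, b2⟩ := o₀.exists_of_val 𝒪' fun a => by rw [← ValuationSubring.mem_comap, h', h2]
  have : FiniteDimensional K (IntermediateField.adjoin K (E : Set Ω)) :=
    IntermediateField.finiteDimensional_adjoin fun x _ => Algebra.IsIntegral.isIntegral x
  obtain ⟨g, hg⟩ := CyV.Ord.transitive o o' (fun a ha => by rw [a1 a ha, b1 a ha])
    (IntermediateField.adjoin K (E : Set Ω))
  refine ⟨g, fun x hx => ?_⟩
  by_cases h0 : x = 0
  · simp [h0]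
  simp [a2, b2, CyV.Ord.Ge, h0, hg x hx h0]

end Over

theorem IsOrd.mem_nonunits {Ω : Type u} [Field Ω] {𝒪 : ValuationSubring Ω}
    {ord : Additive Ωˣ →+ ℚ} (h : IsOrd 𝒪 ord) (x : Ωˣ) :
    (x : Ω) ∈ 𝒪.nonunits ↔ 0 < ord (Additive.ofMul x) := by
  rw [𝒪.mem_nonunits_iff_or, ← Units.val_inv_eq_inv_val, h, ofMul_inv, map_neg]
  simp

theorem proportional_of_sign {A : Type u} [AddCommGroup A] (o o' : A →+ ℚ) (M : AddSubgroup A)
    (h : ∀ x ∈ M, 0 ≤ o x ↔ 0 ≤ o' x) {y : A} (hy : y ∈ M) (hy0 : o y ≠ 0) :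
    0 < o' y / o y ∧ ∀ x ∈ M, o' x = o' y / o y * o x := by
  have h0 : ∀ x ∈ M, o x = 0 ↔ o' x = 0 := fun x hx => by
    have h1 := h x hx
    have h2 := h _ (M.neg_mem hx)
    rw [map_neg, map_neg, neg_nonneg, neg_nonneg] at h2
    rw [le_antisymm_iff, le_antisymm_iff, h1, h2]
  refine ⟨?_, fun x hx => ?_⟩
  · rcases lt_or_gt_of_ne hy0 with h1 | h1
    · exact div_pos_of_neg_of_neg (not_le.mp fun h2 => h1.not_ge ((h y hy).mpr h2)) h1
    · exact div_pos (lt_of_le_of_ne ((h y hy).mp h1.le) fun h2 => hy0 ((h0 y hy).mpr h2.symm)) h1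
  set q := o x / o y with hq
  have hd : (q.den : ℚ) ≠ 0 := by exact_mod_cast q.den_ne_zero
  have h1 := (h0 _ (M.sub_mem (M.nsmul_mem hx q.den) (M.zsmul_mem hy q.num))).mp (by
    rw [map_sub, map_nsmul, map_zsmul, nsmul_eq_mul, zsmul_eq_mul, ← Rat.mul_den_eq_num, hq]
    field_simp; ring)
  rw [map_sub, map_nsmul, map_zsmul, nsmul_eq_mul, zsmul_eq_mul, ← Rat.mul_den_eq_num] at h1
  rw [div_mul_comm, ← hq]
  exact mul_left_cancel₀ hd (by linarith)

end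

end Pool.Agent.MP_e2821c_ag.Cy
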