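import Pool.Agent.Lib.MP_e2821c_ag.Cy.Lift
import Pool.Agent.Lib.MP_e2821c_ag.Cy.Core2

namespace Pool.Agent.MP_e2821c_ag.Cy

open MvPolynomial
open scoped TensorProduct

universe u v w

noncomputable section

section

variable {𝕂 : Type w} [CommRing 𝕂] {H : RFun.{u} 𝕂} {R : Type u} (B : Type u) [CommRing R]
  [CommRing B] [IsAic B] [Algebra R B] [Algebra.IsIntegral R B] [FaithfulSMul R B]

theorem plus_ext {s s' : Plus H R} (h : s.1 (Pt.of R B) = s'.1 (Pt.of R B)) : s = s' := by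
  refine Plus.ext fun p => ?_
  obtain ⟨f, hf⟩ := exists_lift B p
  rw [← s.nat (Pt.of R B) p f hf, ← s'.nat (Pt.of R B) p f hf, h]

theorem plus_invariant (s : Plus H R) (g : B ≃ₐ[R] B) :
    H.map (g : B →+* B) (s.1 (Pt.of R B)) = s.1 (Pt.of R B) := by
  exact s.nat (Pt.of R B) (Pt.of R B) (g : B →+* B) (RingHom.ext fun r => g.commutes r)

theorem exists_average (hH : H.Finitary) (x : H.obj B) :
    ∃ (N : ℕ) (g : Fin N → B ≃ₐ[R] B), 0 < N ∧ ∀ h : B ≃ₐ[R] B,
      H.map (h : B →+* B) (∑ i, H.map (g i : B →+* B) x) = ∑ i, H.map (g i : B →+* B) x := by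
  classical
  obtain ⟨E, hE⟩ := hH B x
  let Φ : (B ≃ₐ[R] B) → H.obj B := fun g => H.map (g : B →+* B) x
  let F : (B ≃ₐ[R] B) → E → B := fun g e => g e
  have hF : (Set.range F).Finite := by
    refine (Set.Finite.pi' fun e : E => finite_orbit (R := R) (e : B)).subset ?_
    rintro _ ⟨g, rfl⟩ e
    exact ⟨g, rfl⟩
  have hfac : Φ.FactorsThrough F := fun g g' h =>
    hE B _ _ fun e he => congrFun h ⟨e, he⟩
  have hΦ : (Set.range Φ).Finite := by
    rw [← hfac.extend_comp (fun _ => 0), Set.range_comp]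
    exact hF.image _
  have hmul : ∀ h g : B ≃ₐ[R] B, H.map (h : B →+* B) (Φ g) = Φ (h * g) := fun h g =>
    (H.map_comp (g : B →+* B) (h : B →+* B) x).symm
  let O := hΦ.toFinset
  have hO : ∀ y, y ∈ O ↔ ∃ g, Φ g = y := fun y => hΦ.mem_toFinset
  have hne : 0 < O.card := Finset.card_pos.2 ⟨Φ 1, (hO _).2 ⟨1, rfl⟩⟩
  choose g hg using fun i : Fin O.card => (hO _).1 (O.equivFin.symm i).2
  have hsum : ∑ i, H.map (g i : B →+* B) x = ∑ y ∈ O, y := by
    rw [← Finset.sum_coe_sort O, ← O.equivFin.symm.sum_comp]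
    exact Finset.sum_congr rfl fun i _ => hg i
  refine ⟨O.card, g, hne, fun h => ?_⟩
  rw [hsum, map_sum]
  refine Finset.sum_nbij' (fun y => H.map (h : B →+* B) y)
    (fun y => H.map ((h⁻¹ : B ≃ₐ[R] B) : B →+* B) y) ?_ ?_ ?_ ?_ fun _ _ => rfl
  · intro y hy
    obtain ⟨a, rfl⟩ := (hO y).1 hy
    exact (hO _).2 ⟨_, (hmul h a).symm⟩
  · intro y hy
    obtain ⟨a, rfl⟩ := (hO y).1 hy
    exact (hO _).2 ⟨_, (hmul h⁻¹ a).symm⟩
  · intro y hy
    obtain ⟨a, rfl⟩ := (hO y).1 hy
    rw [hmul, hmul, inv_mul_cancel_left]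
  · intro y hy
    obtain ⟨a, rfl⟩ := (hO y).1 hy
    rw [hmul, hmul, mul_inv_cancel_left]

variable [IsDomain R] [IsIntegrallyClosed R] [Algebra ℚ R]

theorem exists_plus (hH : H.Finitary) (x : H.obj B)
    (hx : ∀ g : B ≃ₐ[R] B, H.map (g : B →+* B) x = x) :
    ∃ s : Plus H R, s.1 (Pt.of R B) = x := by
  have key : ∀ (q : Pt R) (f f' : B →+* q.B), f.comp (algebraMap R B) = q.ι →
      f'.comp (algebraMap R B) = q.ι → H.map f' x = H.map f x := by
    intro q f f' hf hf'
    obtain ⟨E, hE⟩ := hH B x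
    obtain ⟨g, hg⟩ := exists_gal f f' (hf.trans hf'.symm) E
    rw [hE q.B f' (f.comp (g : B →+* B)) hg, H.map_comp, hx]
  choose f hf using fun q : Pt R => exists_lift B q
  refine ⟨⟨fun q => H.map (f q) x, fun p q φ hφ => ?_⟩, ?_⟩
  · rw [← H.map_comp]
    exact key q (f q) _ (hf q) (by rw [RingHom.comp_assoc, hf p, hφ])
  · exact (key (Pt.of R B) (RingHom.id B) _ rfl (hf _)).trans (H.map_id B x)

end

theorem exists_plus_of_range {𝕂 : Type w} [Field 𝕂] [CharZero 𝕂] {H H' : RFun.{u} 𝕂}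
    (φ : NT H' H) (hH' : H'.Finitary) {R : Type u} [CommRing R] [IsDomain R]
    [IsIntegrallyClosed R] [Algebra ℚ R] (s : Plus H R)
    (hs : s.1 (ac R) ∈ LinearMap.range (φ.app (AC R))) : ∃ s' : Plus H' R, φ.plus R s' = s := by
  obtain ⟨y, hy⟩ := hs
  obtain ⟨N, g, hN, hg⟩ := exists_average (R := R) (AC R) hH' y
  obtain ⟨s', hs'⟩ := exists_plus (R := R) (AC R) hH'
    (((N : 𝕂)⁻¹) • ∑ i, H'.map (g i : AC R →+* AC R) y) fun h => by rw [map_smul, hg]
  refine ⟨s', plus_ext (AC R) ?_⟩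
  have h1 : ∀ i, φ.app (AC R) (H'.map (g i : AC R →+* AC R) y) = s.1 (Pt.of R (AC R)) := by
    intro i
    rw [← φ.nat, hy]
    exact plus_invariant (AC R) s (g i)
  have hN' : (N : 𝕂) ≠ 0 := Nat.cast_ne_zero.2 hN.ne'
  rw [NT.plus_apply, hs', map_smul, map_sum, Finset.sum_congr rfl fun i _ => h1 i,
    Finset.sum_const, Finset.card_univ, Fintype.card_fin, ← Nat.cast_smul_eq_nsmul 𝕂, smul_smul,
    inv_mul_cancel₀ hN', one_smul]

section

variable (𝕂 : Type u) [CommRing 𝕂] (n : ℕ)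

theorem finitary_W : (W 𝕂 n).Finitary := by
  classical
  intro R _ x
  change ∃ E : Finset R, ∀ (R' : Type u) [CommRing R'] (f g : R →+* R'),
    (∀ e ∈ E, f e = g e) → Wmap 𝕂 n f x = Wmap 𝕂 n g x
  induction x using Finsupp.induction_linear with
  | zero => exact ⟨∅, fun _ _ _ _ _ => by rw [map_zero, map_zero]⟩
  | add a b ha hb =>
    obtain ⟨E, hE⟩ := ha
    obtain ⟨E', hE'⟩ := hb
    exact ⟨E ∪ E', fun R' _ f g h => by
      rw [map_add, map_add, hE R' f g fun e he => h e (Finset.mem_union_left _ he),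
        hE' R' f g fun e he => h e (Finset.mem_union_right _ he)]⟩
  | single x c =>
    refine ⟨Finset.univ.image fun i => (x i : R), fun R' _ f g h => ?_⟩
    rw [Wmap_single, Wmap_single]
    congr 1
    funext i
    exact Units.ext (h _ (Finset.mem_image_of_mem _ (Finset.mem_univ i)))

theorem finitary_U : (U 𝕂).Finitary := by
  classical
  intro R _ x
  change ∃ E : Finset R, ∀ (R' : Type u) [CommRing R'] (f g : R →+* R'),
    (∀ e ∈ E, f e = g e) → Umap 𝕂 f x = Umap 𝕂 g x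
  induction x using TensorProduct.induction_on with
  | zero => exact ⟨∅, fun _ _ _ _ _ => by rw [map_zero, map_zero]⟩
  | add a b ha hb =>
    obtain ⟨E, hE⟩ := ha
    obtain ⟨E', hE'⟩ := hb
    exact ⟨E ∪ E', fun R' _ f g h => by
      rw [map_add, map_add, hE R' f g fun e he => h e (Finset.mem_union_left _ he),
        hE' R' f g fun e he => h e (Finset.mem_union_right _ he)]⟩
  | tmul c x =>
    refine ⟨{((x.toMul : Rˣ) : R)}, fun R' _ f g h => ?_⟩
    rw [Umap_tmul, Umap_tmul,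
      show umap f x.toMul = umap g x.toMul from Units.ext (h _ (Finset.mem_singleton_self _))]

theorem finitary_TP : (TP 𝕂 n).Finitary := by
  classical
  intro R _ x
  change ∃ E : Finset R, ∀ (R' : Type u) [CommRing R'] (f g : R →+* R'),
    (∀ e ∈ E, f e = g e) → Tmap 𝕂 n f x = Tmap 𝕂 n g x
  induction x using To.induction_on with
  | h2 a b ha hb =>
    obtain ⟨E, hE⟩ := ha
    obtain ⟨E', hE'⟩ := hb
    exact ⟨E ∪ E', fun R' _ f g h => by
      rw [map_add, map_add, hE R' f g fun e he => h e (Finset.mem_union_left _ he),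
        hE' R' f g fun e he => h e (Finset.mem_union_right _ he)]⟩
  | h1 c v =>
    choose E hE using fun i => finitary_U 𝕂 R (v i)
    refine ⟨Finset.univ.biUnion E, fun R' _ f g h => ?_⟩
    rw [map_smul, map_smul, Tmap_tp, Tmap_tp]
    congr 2
    funext i
    exact hE i R' f g fun e he => h e (Finset.mem_biUnion.2 ⟨i, Finset.mem_univ i, he⟩)

theorem finitary_ZU : ZU.{u}.Finitary := by
  classical
  intro R _ x
  change ∃ E : Finset R, ∀ (R' : Type u) [CommRing R'] (f g : R →+* R'),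
    (∀ e ∈ E, f e = g e) → FreeAbelianGroup.map (umap f) x = FreeAbelianGroup.map (umap g) x
  induction x using FreeAbelianGroup.induction_on with
  | zero => exact ⟨∅, fun _ _ _ _ _ => by rw [map_zero, map_zero]⟩
  | add a b ha hb =>
    obtain ⟨E, hE⟩ := ha
    obtain ⟨E', hE'⟩ := hb
    exact ⟨E ∪ E', fun R' _ f g h => by
      rw [map_add, map_add, hE R' f g fun e he => h e (Finset.mem_union_left _ he),
        hE' R' f g fun e he => h e (Finset.mem_union_right _ he)]⟩
  | of x =>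
    refine ⟨{(x : R)}, fun R' _ f g h => ?_⟩
    rw [FreeAbelianGroup.map_of_apply, FreeAbelianGroup.map_of_apply,
      show umap f x = umap g x from Units.ext (h _ (Finset.mem_singleton_self _))]
  | neg x hx =>
    obtain ⟨E, hE⟩ := hx
    exact ⟨E, fun R' _ f g h => by rw [map_neg, map_neg, hE R' f g h]⟩

theorem finitary_AU : AU.{u}.Finitary := by
  intro R _ x
  refine ⟨{((Additive.toMul (α := Rˣ) x : Rˣ) : R)}, fun R' _ f g h => ?_⟩
  change Additive.ofMul (umap f (Additive.toMul (α := Rˣ) x)) =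
    Additive.ofMul (umap g (Additive.toMul (α := Rˣ) x))
  rw [show umap f (Additive.toMul (α := Rˣ) x) = umap g (Additive.toMul (α := Rˣ) x) from
    Units.ext (h _ (Finset.mem_singleton_self _))]

theorem finitary_tensorZ {H : RFun.{u} 𝕂} {P : AFun.{u}} (hH : H.Finitary) (hP : P.Finitary) :
    (H.tensorZ P).Finitary := by
  classical
  intro R _ x
  change ∃ E : Finset R, ∀ (R' : Type u) [CommRing R'] (f g : R →+* R'),
    (∀ e ∈ E, f e = g e) → tmapZ (H.map f) (P.map f) x = tmapZ (H.map g) (P.map g) x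
  induction x using TensorProduct.induction_on with
  | zero => exact ⟨∅, fun _ _ _ _ _ => by rw [map_zero, map_zero]⟩
  | add a b ha hb =>
    obtain ⟨E, hE⟩ := ha
    obtain ⟨E', hE'⟩ := hb
    exact ⟨E ∪ E', fun R' _ f g h => by
      rw [map_add, map_add, hE R' f g fun e he => h e (Finset.mem_union_left _ he),
        hE' R' f g fun e he => h e (Finset.mem_union_right _ he)]⟩
  | tmul a b =>
    obtain ⟨E, hE⟩ := hH R a
    obtain ⟨E', hE'⟩ := hP R b
    exact ⟨E ∪ E', fun R' _ f g h => by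
      rw [tmapZ_tmul, tmapZ_tmul, hE R' f g fun e he => h e (Finset.mem_union_left _ he),
        hE' R' f g fun e he => h e (Finset.mem_union_right _ he)]⟩

end

end

end Pool.Agent.MP_e2821c_ag.Cy
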