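import Pool.Agent.Lib.MP_e2821c_ag.Cy.Deriv

namespace Pool.Agent.MP_e2821c_ag.Cy

open MvPolynomial
open scoped TensorProduct

universe u v w

noncomputable section

section

variable {k : Type u} {R : Type v} [CommRing k] [CommRing R] [Algebra k R] [IsDomain R]
  [UniqueFactorizationMonoid R]

omit [IsDomain R] in
theorem ind_polyLemma {Y : R} {N : ℕ} (Q : R → Prop) (h0 : ∀ u, IsUnit u → Q u)
    (h1 : ∀ p, Prime p → p ∣ Y → Q p) (hm : ∀ a b, Q a → Q b → Q (a * b)) (g : R) :
    g ≠ 0 → g ∣ Y ^ N → Q g := by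
  induction g using UniqueFactorizationMonoid.induction_on_prime with
  | h₁ => exact fun h => absurd rfl h
  | h₂ x hx => exact fun _ _ => h0 x hx
  | h₃ a p ha hp ih =>
    exact fun _ h => hm p a (h1 p hp (hp.dvd_of_dvd_pow ((dvd_mul_right p a).trans h)))
      (ih ha ((dvd_mul_left a p).trans h))

omit [IsDomain R] in
theorem jac_dvd_polyLemma (D E : Derivation k R R) {Y g g' : R} {N : ℕ} (hg : g ≠ 0)
    (hg' : g' ≠ 0) (h : g ∣ Y ^ N) (h' : g' ∣ Y ^ N) :
    g * g' ∣ Y * (D g * E g' - E g * D g') := by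
  have key : ∀ q, q ∣ Y → g * q ∣ Y * (D g * E q - E g * D q) := fun q hq => by
    refine ind_polyLemma (fun g => g * q ∣ Y * (D g * E q - E g * D q)) ?_ ?_ ?_ g hg h
    · exact fun u hu => (hu.mul_left_dvd.2 hq).mul_right _
    · intro p hp hpY
      by_cases hpq : p ∣ q
      · obtain ⟨u, rfl⟩ := hpq
        obtain ⟨c, rfl⟩ := hq
        exact ⟨c * (D p * E u - E p * D u), by
          simp only [Derivation.leibniz, smul_eq_mul]; ring⟩
      · obtain ⟨c, rfl⟩ := hq
        obtain ⟨d, rfl⟩ := (hp.dvd_or_dvd hpY).resolve_left hpq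
        exact Dvd.dvd.mul_right ⟨d, by ring⟩ _
    · rintro a b ⟨c, hc⟩ ⟨d, hd⟩
      refine ⟨c + d, ?_⟩
      simp only [Derivation.leibniz, smul_eq_mul]
      linear_combination b * hc + a * hd
  refine ind_polyLemma (fun q => g * q ∣ Y * (D g * E q - E g * D q))
    (fun u hu => key u hu.dvd) (fun p _ hp => key p hp) ?_ g' hg' h'
  rintro a b ⟨c, hc⟩ ⟨d, hd⟩
  refine ⟨c + d, ?_⟩
  simp only [Derivation.leibniz, smul_eq_mul]
  linear_combination b * hc + a * hd

omit [UniqueFactorizationMonoid R] in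
theorem prod_mul_dvd_polyLemma {ι : Type w} {S : Finset ι} (hS : S.Nonempty) {x : ι → R}
    {c Z : R} (hc : c ≠ 0) (hx : (S : Set ι).Pairwise (Function.onFun IsCoprime x))
    (h : ∀ b ∈ S, x b * c ∣ Z) : (∏ b ∈ S, x b) * c ∣ Z := by
  obtain ⟨b0, hb0⟩ := hS
  obtain ⟨W, rfl⟩ := (dvd_mul_left c (x b0)).trans (h b0 hb0)
  rw [mul_comm c W] at h ⊢
  exact mul_dvd_mul_right
    (Finset.prod_dvd_of_coprime hx fun b hb => (mul_dvd_mul_iff_right hc).1 (h b hb)) c

end

section

variable {k : Type u} [Field k] {m : ℕ}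

theorem coprime_polyLemma (f : Base k m) (S : Finset k) :
    (S : Set k).Pairwise (Function.onFun IsCoprime fun b => f - C b) := fun a _ b _ hab => by
  have h : (b - a) ≠ 0 := sub_ne_zero.2 hab.symm
  refine ⟨C (b - a)⁻¹, -C (b - a)⁻¹, ?_⟩
  have h1 : (C (b - a)⁻¹ * (C b - C a) : Base k m) = 1 := by
    rw [← C_sub, ← C_mul, inv_mul_cancel₀ h, C_1]
  linear_combination h1

theorem deg_pderiv_polyLemma {f : Base k m} (hf : 0 < f.totalDegree) (i : Fin m) :
    (pderiv i f).totalDegree + 1 ≤ f.totalDegree := by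
  suffices h : (pderiv i f).totalDegree ≤ f.totalDegree - 1 by omega
  refine Finset.sup_le fun s hs => ?_
  have h1 : s + Finsupp.single i 1 ∈ f.support := by
    rw [mem_support_iff, coeff_pderiv] at hs
    exact mem_support_iff.2 (left_ne_zero_of_mul hs)
  have h2 := le_totalDegree h1
  rw [Finsupp.sum_add_index' (fun _ => rfl) (fun _ _ _ => rfl), Finsupp.sum_single_index rfl] at h2
  omega

theorem deg_sub_polyLemma {f : Base k m} (hf : 0 < f.totalDegree) (b : k) :
    (f - C b).totalDegree = f.totalDegree := by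
  rw [sub_eq_add_neg, ← C_neg, totalDegree_add_eq_left_of_totalDegree_lt (by simpa using hf)]

theorem ne_polyLemma {f : Base k m} (hf : 0 < f.totalDegree) (b : k) : f - C b ≠ 0 := fun h => by
  have h1 := deg_sub_polyLemma hf b
  rw [h, totalDegree_zero] at h1
  omega

theorem deg_pow_polyLemma {g : Base k m} (hg : g ≠ 0) (n : ℕ) :
    (g ^ n).totalDegree = n * g.totalDegree := by
  induction n with
  | zero => simp
  | succ n ih => rw [pow_succ, totalDegree_mul_of_isDomain (pow_ne_zero n hg) hg, ih]; ring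

theorem deg_prod_polyLemma {f : Base k m} (hf : 0 < f.totalDegree) (S : Finset k) (e : k → ℕ) :
    (∏ b ∈ S, (f - C b) ^ e b).totalDegree = (∑ b ∈ S, e b) * f.totalDegree := by
  classical
  induction S using Finset.induction_on with
  | empty => simp
  | insert a S ha ih =>
    rw [Finset.prod_insert ha, Finset.sum_insert ha,
      totalDegree_mul_of_isDomain (pow_ne_zero _ (ne_polyLemma hf a))
        (Finset.prod_ne_zero_iff.2 fun b _ => pow_ne_zero _ (ne_polyLemma hf b)),
      ih, deg_pow_polyLemma (ne_polyLemma hf a), deg_sub_polyLemma hf, add_mul]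

omit [Field k] in
theorem lt_card_polyLemma {S : Finset k} (hS : S.Nonempty) {e : k → ℕ} {N s : ℕ}
    (he : ∀ b ∈ S, 0 < e b ∧ e b < N) (hs : ∑ b ∈ S, e b = N * s) : s + 1 ≤ S.card := by
  have h := Finset.sum_lt_sum_of_nonempty hS fun b hb => (he b hb).2
  rw [hs, Finset.sum_const, smul_eq_mul, mul_comm S.card] at h
  exact Nat.lt_of_mul_lt_mul_left h

end

theorem dep_of_kummer {k : Type u} [Field k] [CharZero k] {m : ℕ} {f f' Y : Base k m} {N : ℕ}
    (S S' : Finset k) (e e' : k → ℕ) (hS : S.Nonempty) (hS' : S'.Nonempty)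
    (he : ∀ b ∈ S, 0 < e b ∧ e b < N) (he' : ∀ b ∈ S', 0 < e' b ∧ e' b < N)
    (hd : N ∣ ∑ b ∈ S, e b) (hd' : N ∣ ∑ b ∈ S', e' b)
    (hY : Y ^ N = (∏ b ∈ S, (f - C b) ^ e b) * ∏ b ∈ S', (f' - C b) ^ e' b) : Dep f f' := by
  refine dep_of_jacobian k m fun i l => ?_
  by_contra hJ
  rw [← sub_eq_zero] at hJ
  have hf : 0 < f.totalDegree := Nat.pos_of_ne_zero fun h => hJ (by
    rw [totalDegree_eq_zero_iff_eq_C.1 h]; simp)
  have hf' : 0 < f'.totalDegree := Nat.pos_of_ne_zero fun h => hJ (by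
    rw [totalDegree_eq_zero_iff_eq_C.1 h]; simp)
  have hP := fun (e : k → ℕ) => (Finset.prod_ne_zero_iff (s := S)).2
    fun b _ => pow_ne_zero (e b) (ne_polyLemma hf b)
  have hP' := fun (e : k → ℕ) => (Finset.prod_ne_zero_iff (s := S')).2
    fun b _ => pow_ne_zero (e b) (ne_polyLemma hf' b)
  have hN : 0 < N := by
    obtain ⟨b, hb⟩ := hS
    exact (he b hb).1.trans (he b hb).2
  have hY0 : Y ≠ 0 := fun h => mul_ne_zero (hP e) (hP' e') (by rw [← hY, h, zero_pow hN.ne'])
  have h1 : ∀ b ∈ S, ∀ b' ∈ S', (f - C b) * (f' - C b') ∣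
      Y * (pderiv i f * pderiv l f' - pderiv l f * pderiv i f') := fun b hb b' hb' => by
    have g1 : f - C b ∣ Y ^ N := by
      rw [hY]
      exact ((dvd_pow_self _ (he b hb).1.ne').trans
        (Finset.dvd_prod_of_mem (fun b => (f - C b) ^ e b) hb)).mul_right _
    have g2 : f' - C b' ∣ Y ^ N := by
      rw [hY]
      exact ((dvd_pow_self _ (he' b' hb').1.ne').trans
        (Finset.dvd_prod_of_mem (fun b => (f' - C b) ^ e' b) hb')).mul_left _
    have h := jac_dvd_polyLemma (k := k) (R := Base k m) (pderiv i) (pderiv l)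
      (ne_polyLemma hf b) (ne_polyLemma hf' b') g1 g2
    simpa only [map_sub, pderiv_C, sub_zero] using h
  have h2 : (∏ b ∈ S', (f' - C b)) * ∏ b ∈ S, (f - C b) ∣
      Y * (pderiv i f * pderiv l f' - pderiv l f * pderiv i f') :=
    prod_mul_dvd_polyLemma hS' (by simpa only [pow_one] using hP fun _ => 1)
      (coprime_polyLemma f' S') fun b' hb' => by
        rw [mul_comm]
        exact prod_mul_dvd_polyLemma hS (ne_polyLemma hf' b') (coprime_polyLemma f S)
          fun b hb => h1 b hb b' hb'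
  have h3 := totalDegree_le_of_dvd_of_isDomain h2 (mul_ne_zero hY0 hJ)
  have h4 := deg_prod_polyLemma hf S fun _ => 1
  have h4' := deg_prod_polyLemma hf' S' fun _ => 1
  simp only [pow_one, Finset.sum_const, smul_eq_mul, mul_one] at h4 h4'
  rw [totalDegree_mul_of_isDomain (by simpa only [pow_one] using hP' fun _ => 1)
    (by simpa only [pow_one] using hP fun _ => 1), totalDegree_mul_of_isDomain hY0 hJ,
    h4, h4'] at h3
  have h5 := totalDegree_sub (pderiv i f * pderiv l f') (pderiv l f * pderiv i f')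
  have h6 := totalDegree_mul (pderiv i f) (pderiv l f')
  have h7 := totalDegree_mul (pderiv l f) (pderiv i f')
  have h8 := deg_pderiv_polyLemma hf i
  have h9 := deg_pderiv_polyLemma hf l
  have h8' := deg_pderiv_polyLemma hf' i
  have h9' := deg_pderiv_polyLemma hf' l
  obtain ⟨s, hs⟩ := hd
  obtain ⟨s', hs'⟩ := hd'
  have h10 := congrArg totalDegree hY
  rw [deg_pow_polyLemma hY0, totalDegree_mul_of_isDomain (hP e) (hP' e'), deg_prod_polyLemma hf,
    deg_prod_polyLemma hf', hs, hs', mul_assoc, mul_assoc, ← mul_add] at h10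
  have h11 := Nat.eq_of_mul_eq_mul_left hN h10
  have h12 := Nat.mul_le_mul_right f.totalDegree (lt_card_polyLemma hS he hs)
  have h13 := Nat.mul_le_mul_right f'.totalDegree (lt_card_polyLemma hS' he' hs')
  rw [add_mul, one_mul] at h12 h13
  omega

end

end Pool.Agent.MP_e2821c_ag.Cy
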