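import Pool.Agent.Lib.MP_e2821c_ag.Cy.Eigen
import Pool.Agent.Lib.MP_e2821c_ag.Cy.Pencil0
import Pool.Agent.Lib.MP_e2821c_ag.Cy.PlusB

namespace Pool.Agent.MP_e2821c_ag.Cy

open MvPolynomial
open scoped TensorProduct

universe u v w

noncomputable section

variable {k : Type u} [Field k] [CharZero k] [IsAlgClosed k] {m n : ℕ}

omit [IsAlgClosed k] in
/-- Two ring maps that agree on the base differ by a Galois element on finitely many classes. -/
theorem exists_gal_PsiB {B : Type u} [CommRing B] [IsDomain B] (κ κ' : Bm k m →+* B)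
    (h : κ.comp (iB k m) = κ'.comp (iB k m)) (v : Fin n → Uo k (Bm k m)) :
    ∃ g : Gm k m, ∀ i, Umap k κ' (v i) = Umap k κ (Umap k (g : Bm k m →+* Bm k m) (v i)) := by
  classical
  choose E hE using fun i => Umap_congr (v i)
  obtain ⟨g, hg⟩ := exists_gal (R := Base k m) κ κ' h (Finset.univ.biUnion E)
  refine ⟨g, fun i => ?_⟩
  rw [← Umap_comp]
  exact hE i B _ _ fun e he => hg e (Finset.mem_biUnion.2 ⟨i, Finset.mem_univ _, he⟩)

omit [CharZero k] [IsAlgClosed k] in
theorem mem_blockOf_PsiB {I : Finset (Fin n)} (blk : Fin n → I ⊕ Bas k) (b : I) (i : Fin n) :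
    i ∈ blockOf blk b ↔ blk i = Sum.inl b := by
  classical
  simp [blockOf]

omit [CharZero k] [IsAlgClosed k] in
theorem prod_blocks_PsiB {I : Finset (Fin n)} (blk : Fin n → I ⊕ Bas k) {M : Type*}
    [CommMonoid M] (t : Fin n → M) (h1 : ∀ i a, blk i = Sum.inr a → t i = 1)
    (h2 : ∀ b, ∏ i ∈ blockOf blk b, t i = 1) : ∏ i, t i = 1 := by
  classical
  have key : ∀ i, t i = ∏ b : I, if blk i = Sum.inl b then t i else 1 := by
    intro i
    rcases hb : blk i with b | a
    · rw [Finset.prod_eq_single b]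
      · simp
      · intro b' _ hb'
        rw [if_neg]
        intro h
        exact hb' (Sum.inl_injective h).symm
      · simp
    · rw [h1 i a hb]; simp
  rw [Finset.prod_congr rfl fun i _ => key i, Finset.prod_comm]
  refine Finset.prod_eq_one fun b _ => ?_
  rw [← Finset.prod_filter, ← h2 b]
  refine Finset.prod_congr ?_ fun _ _ => rfl
  ext i
  simp [mem_blockOf_PsiB]

omit [CharZero k] [IsAlgClosed k] in
theorem tup_inl_PsiB {I : Finset (Fin n)} (δ : Dec k I) {B : Type u} [CommRing B]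
    (κ : I → Bm k 1 →+* B) (c : k →+* B) {i : Fin n} {b : I} (h : δ.blk i = Sum.inl b) :
    tup δ κ c i = Umap k (κ b) (δ.w b i) := by
  simp [tup, h]

omit [CharZero k] [IsAlgClosed k] in
theorem tup_inr_PsiB {I : Finset (Fin n)} (δ : Dec k I) {B : Type u} [CommRing B]
    (κ : I → Bm k 1 →+* B) (c : k →+* B) {i : Fin n} {a : Bas k} (h : δ.blk i = Sum.inr a) :
    tup δ κ c i = Umap k c (bas k a) := by
  simp [tup, h]

omit [CharZero k] [IsAlgClosed k] in
theorem Umap_tup_PsiB {I : Finset (Fin n)} (δ : Dec k I) {B B' : Type u} [CommRing B]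
    [CommRing B'] (f : B →+* B') (κ : I → Bm k 1 →+* B) (c : k →+* B) (i : Fin n) :
    Umap k f (tup δ κ c i) = tup δ (fun b => f.comp (κ b)) (f.comp c) i := by
  rcases hb : δ.blk i with b | a
  · rw [tup_inl_PsiB δ _ _ hb, tup_inl_PsiB δ _ _ hb, Umap_comp]
  · rw [tup_inr_PsiB δ _ _ hb, tup_inr_PsiB δ _ _ hb, Umap_comp]

omit [IsAlgClosed k] in
/-- Two lifts change the vectors of a block by scalars of product one. -/
theorem block_scal_PsiB {B : Type u} [CommRing B] [IsDomain B] {S : Finset (Fin n)}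
    {v : Fin n → Uo k (Bm k 1)} (hv : IsBlock S v) (κ κ' : Bm k 1 →+* B)
    (h : κ.comp (iB k 1) = κ'.comp (iB k 1)) :
    ∃ s : Fin n → kˣ, (∀ i ∈ S, Umap k κ' (v i) = (s i : k) • Umap k κ (v i)) ∧
      ∏ i ∈ S, s i = 1 := by
  obtain ⟨-, -, ε, hε, -, -, hp⟩ := hv
  obtain ⟨g, hg⟩ := exists_gal_PsiB κ κ' h v
  refine ⟨fun i => ε i g, fun i hi => ?_, ?_⟩
  · rw [hg i, hε i hi g, map_smul]
  · have := DFunLike.congr_fun hp g
    rwa [MonoidHom.finsetProd_apply] at this

omit [IsAlgClosed k] in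
theorem tp_tup_congr_PsiB {I : Finset (Fin n)} (δ : Dec k I) {B : Type u} [CommRing B]
    [IsDomain B] (κ κ' : I → Bm k 1 →+* B) (c : k →+* B)
    (h : ∀ b, (κ b).comp (iB k 1) = (κ' b).comp (iB k 1)) :
    tp k n (tup δ κ' c) = tp k n (tup δ κ c) := by
  choose s hs hp using fun b => block_scal_PsiB (δ.isRep b).1.1 (κ b) (κ' b) (h b)
  let t : Fin n → k := fun i => Sum.elim (fun b => (s b i : k)) (fun _ => 1) (δ.blk i)
  have h1 : tup δ κ' c = fun i => t i • tup δ κ c i := by
    funext i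
    rcases hb : δ.blk i with b | a
    · rw [tup_inl_PsiB δ _ _ hb, tup_inl_PsiB δ _ _ hb, hs b i ((mem_blockOf_PsiB _ _ _).2 hb)]
      simp [t, hb]
    · rw [tup_inr_PsiB δ _ _ hb, tup_inr_PsiB δ _ _ hb]
      simp [t, hb]
  have h2 : ∏ i, t i = 1 := by
    refine prod_blocks_PsiB δ.blk t (fun i a ha => by simp [t, ha]) fun b => ?_
    have : ∏ i ∈ blockOf δ.blk b, t i = ∏ i ∈ blockOf δ.blk b, (s b i : k) :=
      Finset.prod_congr rfl fun i hi => by simp [t, (mem_blockOf_PsiB _ _ _).1 hi]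
    rw [this, ← Units.coe_prod, hp b, Units.val_one]
  rw [h1, MultilinearMap.map_smul_univ, h2, one_smul]

omit [IsAlgClosed k] in
theorem Psi_spec {I : Finset (Fin n)} (δ : Dec k I) (p : I → Base k m) (q : Pt (Base k m))
    (κ : I → Bm k 1 →+* q.B) (hκ : ∀ b, IsLift q.ι (p b) (κ b)) :
    (Psi δ p).1 q = tp k n (tup δ κ (q.ι.comp C)) := by
  have hex : ∃ s : Plus (TP k n) (Base k m), ∀ (q : Pt (Base k m)) (κ : I → Bm k 1 →+* q.B),
      (∀ b, IsLift q.ι (p b) (κ b)) → s.1 q = tp k n (tup δ κ (q.ι.comp C)) := by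
    choose L hL using fun (q : Pt (Base k m)) (b : I) => exists_isLift q.ι (p b)
    refine ⟨⟨fun q => tp k n (tup δ (L q) (q.ι.comp C)), fun q q' f hf => ?_⟩, fun q κ hκ => ?_⟩
    · change Tmap k n f (tp k n (tup δ (L q) (q.ι.comp C))) = tp k n (tup δ (L q') (q'.ι.comp C))
      rw [Tmap_tp]
      have e1 : (fun i => Umap k f (tup δ (L q) (q.ι.comp C) i)) =
          tup δ (fun b => f.comp (L q b)) (q'.ι.comp C) := by
        funext i
        rw [Umap_tup_PsiB, ← RingHom.comp_assoc, hf]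
      rw [e1]
      refine tp_tup_congr_PsiB δ _ _ _ fun b => ?_
      rw [RingHom.comp_assoc, hL q b, hL q' b, ← RingHom.comp_assoc, hf]
    · exact tp_tup_congr_PsiB δ _ _ _ fun b => (hκ b).trans (hL q b).symm
  exact Classical.epsilon_spec hex q κ hκ

omit [IsAlgClosed k] in
theorem Psi_map {I : Finset (Fin n)} (δ : Dec k I) (p : I → Base k m) {m' : ℕ}
    (ψ : Base k m →ₐ[k] Base k m') :
    plusMap (TP k n) ψ.toRingHom (Psi δ p) = Psi δ fun b => ψ (p b) := by
  refine Plus.ext fun q => ?_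
  choose κ hκ using fun b : I => exists_isLift q.ι (ψ (p b))
  rw [plusMap_apply, Psi_spec δ (fun b => ψ (p b)) q κ hκ,
    Psi_spec δ p (q.comap ψ.toRingHom) κ fun b => ?_]
  · have : (q.comap ψ.toRingHom).ι.comp C = q.ι.comp C := by
      refine RingHom.ext fun c => ?_
      change q.ι (ψ (C c)) = q.ι (C c)
      rw [show ψ (C c) = C c from ψ.commutes c]
    rw [this]
  · change (κ b).comp (iB k 1) = (q.ι.comp ψ.toRingHom).comp (ev (p b))
    rw [RingHom.comp_assoc, comp_ev]
    exact hκ b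

omit [IsAlgClosed k] in
theorem PsiL_act_PsiB (I : Finset (Fin n)) {a b : ℕ} (f : Fin (a + 1) → Fin (b + 1))
    (x : (YS k (Dec k I) I).obj b) :
    (plusS (TP k n) k).act f (PsiL k I b x) = PsiL k I a ((YS k (Dec k I) I).act f x) := by
  induction x using Finsupp.induction_linear with
  | zero => simp
  | add x y hx hy => rw [map_add, map_add, map_add, map_add, hx, hy]
  | single x c =>
    change plusMap (TP k n) (smR k f) (PsiL k I b (Finsupp.single x c)) =
      PsiL k I a (Finsupp.lmapDomain k k (fun x : Dec k I × (I → Base k b) =>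
        (x.1, fun b' => sm k f (x.2 b'))) (Finsupp.single x c))
    rw [Finsupp.lmapDomain_apply, Finsupp.mapDomain_single, PsiL, PsiL,
      Finsupp.linearCombination_single, Finsupp.linearCombination_single, map_smul]
    exact congrArg (c • ·) (Psi_map x.1 x.2 (sm k f))

omit [IsAlgClosed k] in
theorem PsiL_d (I : Finset (Fin n)) (x : (YS k (Dec k I) I).obj (m + 1)) :
    (plusS (TP k n) k).d m (PsiL k I (m + 1) x) = PsiL k I m ((YS k (Dec k I) I).d m x) := by
  rw [SMod.d_apply, SMod.d_apply, map_sum]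
  refine Finset.sum_congr rfl fun i _ => ?_
  rw [map_smul, PsiL_act_PsiB]

omit [CharZero k] [IsAlgClosed k] in
theorem Dec.two_mul_card_le {I : Finset (Fin n)} (δ : Dec k I) : 2 * I.card ≤ n := by
  classical
  have h1 : ((Finset.univ : Finset I).biUnion (blockOf δ.blk)).card =
      ∑ b : I, (blockOf δ.blk b).card := by
    refine Finset.card_biUnion fun b _ b' _ hb => ?_
    refine Finset.disjoint_left.2 fun i hi hi' => hb ?_
    rw [mem_blockOf_PsiB] at hi hi'
    exact Sum.inl_injective (hi.symm.trans hi')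
  have h2 : ∑ _b : I, 2 ≤ ∑ b : I, (blockOf δ.blk b).card :=
    Finset.sum_le_sum fun b _ => (δ.isRep b).1.1.1
  have h3 : ((Finset.univ : Finset I).biUnion (blockOf δ.blk)).card ≤ n := by
    simpa using Finset.card_le_univ ((Finset.univ : Finset I).biUnion (blockOf δ.blk))
  rw [Finset.sum_const, Finset.card_univ, Fintype.card_coe, smul_eq_mul] at h2
  omega

omit [CharZero k] [IsAlgClosed k] in
theorem exists_eig_PsiB {u : Uo k (Bm k m)}
    (h : ∀ g : Gm k m, ∃ c : kˣ, Umap k (g : Bm k m →+* Bm k m) u = (c : k) • u) :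
    ∃ χ, Eig χ u := by
  by_cases hu : u = 0
  · exact ⟨1, fun g => by simp [hu]⟩
  choose c hc using h
  refine ⟨MonoidHom.mk' c fun g g' => ?_, hc⟩
  have e : ((g * g' : Gm k m) : Bm k m →+* Bm k m) =
      (g : Bm k m →+* Bm k m).comp (g' : Bm k m →+* Bm k m) := RingHom.ext fun _ => rfl
  have h1 := hc (g * g')
  rw [e, Umap_comp, hc g', map_smul, hc g, smul_smul] at h1
  refine Units.ext ?_
  rw [Units.val_mul, mul_comm]
  exact (smul_left_injective k hu h1).symm

omit [CharZero k] [IsAlgClosed k] in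
theorem gal_comp_iB_PsiB (g : Gm k m) : (g : Bm k m →+* Bm k m).comp (iB k m) = iB k m :=
  RingHom.ext fun x => g.commutes x

omit [CharZero k] [IsAlgClosed k] in
theorem IsLift.gal_PsiB {f : Base k m} {κ : Bm k 1 →+* Bm k m} (h : IsLift (iB k m) f κ)
    (g : Gm k m) : κ.comp (iB k 1) = ((g : Bm k m →+* Bm k m).comp κ).comp (iB k 1) := by
  rw [RingHom.comp_assoc, h, ← RingHom.comp_assoc, gal_comp_iB_PsiB]

theorem Psi_mem_aux_PsiB {I : Finset (Fin n)} (δ : Dec k I) (p : I → Base k m) {s : ℕ}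
    (ys : Finset (Base k m)) (hs : ys.card < s)
    (hys : ∀ b u, In u (p b) → IsConst u ∨ ∃ f ∈ ys, In u f) :
    (Psi δ p).1 (ac (Base k m)) ∈ spanBC k n s m := by
  classical
  choose κ hκ using fun b : I => exists_isLift (iB k m) (p b)
  have hP : (Psi δ p).1 (ac (Base k m)) = tp k n (tup δ κ (cB k m)) :=
    Psi_spec δ p (ac (Base k m)) κ hκ
  have hconst : ∀ i a, δ.blk i = Sum.inr a → IsConst (tup δ κ (cB k m) i) := fun i a ha => by
    rw [tup_inr_PsiB δ _ _ ha]
    exact ⟨_, rfl⟩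
  have hin : ∀ i b, δ.blk i = Sum.inl b → In (tup δ κ (cB k m) i) (p b) := fun i b hb => by
    rw [tup_inl_PsiB δ _ _ hb]
    exact ⟨κ b, hκ b, _, rfl⟩
  have hscal : ∀ (b : I) (g : Gm k m), ∃ t : Fin n → kˣ, (∀ i ∈ blockOf δ.blk b,
      Umap k (g : Bm k m →+* Bm k m) (tup δ κ (cB k m) i) = (t i : k) • tup δ κ (cB k m) i) ∧
      ∏ i ∈ blockOf δ.blk b, t i = 1 := fun b g => by
    obtain ⟨t, ht, hp⟩ := block_scal_PsiB (δ.isRep b).1.1 (κ b) _ ((hκ b).gal_PsiB g)
    refine ⟨t, fun i hi => ?_, hp⟩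
    rw [tup_inl_PsiB δ _ _ ((mem_blockOf_PsiB _ _ _).1 hi), ← Umap_comp, ht i hi]
  rw [hP]
  refine Submodule.subset_span ⟨tup δ κ (cB k m), fun i => ?_, ⟨ys, hs, fun i => ?_⟩, ?_, rfl⟩
  · rcases hb : δ.blk i with b | a
    · refine exists_eig_PsiB fun g => ?_
      obtain ⟨t, ht, -⟩ := hscal b g
      exact ⟨t i, ht i ((mem_blockOf_PsiB _ _ _).2 hb)⟩
    · exact ⟨1, eig_one_of_isConst (hconst i a hb)⟩
  · rcases hb : δ.blk i with b | a
    · exact hys b _ (hin i b hb)
    · exact Or.inl (hconst i a hb)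
  · intro χ hχ h0 f
    have hone : ∀ i, IsConst (tup δ κ (cB k m) i) → χ i = 1 := fun i hi =>
      (hχ i).unique (eig_one_of_isConst hi) (h0 i)
    rw [Finset.prod_filter]
    refine prod_blocks_PsiB δ.blk _ (fun i a ha => ?_) fun b => ?_
    · rw [hone i (hconst i a ha), ite_self]
    by_cases hex : ∃ i ∈ blockOf δ.blk b, ¬ IsConst (tup δ κ (cB k m) i) ∧
        In (tup δ κ (cB k m) i) f
    · obtain ⟨i, hi, hnc, hif⟩ := hex
      have hf : NonConst f := by
        by_contra hf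
        exact hnc (isConst_of_in hif hf)
      have hd : Dep (p b) f := dep_of_in hnc (hin i b ((mem_blockOf_PsiB _ _ _).1 hi)) hif
      rw [Finset.prod_congr rfl fun j hj =>
        if_pos (in_of_dep hf hd (hin j b ((mem_blockOf_PsiB _ _ _).1 hj)))]
      refine MonoidHom.ext fun g => ?_
      obtain ⟨t, ht, hp⟩ := hscal b g
      rw [MonoidHom.finsetProd_apply, MonoidHom.one_apply, ← hp]
      refine Finset.prod_congr rfl fun j hj => Units.ext ?_
      exact smul_left_injective k (h0 j) ((hχ j g).symm.trans (ht j hj))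
    · refine Finset.prod_eq_one fun j hj => ?_
      split_ifs with hjf
      · refine hone j ?_
        by_contra hnc
        exact hex ⟨j, hj, hnc, hjf⟩
      · rfl

theorem Psi_mem_spanBC {I : Finset (Fin n)} (δ : Dec k I) (p : I → Base k m) :
    (Psi δ p).1 (ac (Base k m)) ∈ spanBC k n (I.card + 1) m := by
  classical
  refine Psi_mem_aux_PsiB δ p (Finset.univ.image p) ?_ fun b u hu =>
    Or.inr ⟨p b, Finset.mem_image_of_mem _ (Finset.mem_univ _), hu⟩
  have := Finset.card_image_le (s := (Finset.univ : Finset I)) (f := p)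
  rw [Finset.card_univ, Fintype.card_coe] at this
  omega

theorem Psi_mem_spanBC_of_deg {I : Finset (Fin n)} (δ : Dec k I) {p : I → Base k m}
    (hp : DegT p) : (Psi δ p).1 (ac (Base k m)) ∈ spanBC k n I.card m := by
  classical
  have hcard : ∀ b : I, ((Finset.univ.erase b).image p).card < I.card := fun b => by
    have h1 := Finset.card_image_le (s := (Finset.univ.erase b : Finset I)) (f := p)
    have h2 := Finset.card_erase_lt_of_mem (Finset.mem_univ b)
    rw [Finset.card_univ, Fintype.card_coe] at h2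
    omega
  have hmem : ∀ b b' : I, b' ≠ b → p b' ∈ (Finset.univ.erase b).image p := fun b b' h =>
    Finset.mem_image_of_mem _ (Finset.mem_erase.2 ⟨h, Finset.mem_univ _⟩)
  have hc : ∀ b, ¬ NonConst (p b) → (Psi δ p).1 (ac (Base k m)) ∈ spanBC k n I.card m :=
    fun b hb => Psi_mem_aux_PsiB δ p _ (hcard b) fun b' u hu => by
      by_cases h : b' = b
      · subst h
        exact Or.inl (isConst_of_in hu hb)
      · exact Or.inr ⟨p b', hmem b b' h, hu⟩
  rcases hp with ⟨b, hb⟩ | ⟨b, b', hne, hd⟩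
  · exact hc b hb
  by_cases hb' : NonConst (p b')
  · refine Psi_mem_aux_PsiB δ p _ (hcard b) fun b'' u hu => ?_
    by_cases h : b'' = b
    · subst h
      exact Or.inr ⟨p b', hmem _ b' hne.symm, in_of_dep hb' hd hu⟩
    · exact Or.inr ⟨p b'', hmem b b'' h, hu⟩
  · exact hc b' hb'

theorem map_mem_spanNB {m' s : ℕ} (ψ : Base k m →ₐ[k] Base k m') (φ : Bm k m →+* Bm k m')
    (hφ : φ.comp (iB k m) = (iB k m').comp ψ.toRingHom) {x : To k n (Bm k m)}
    (hx : x ∈ spanNB k n s m) : Tmap k n φ x ∈ spanNB k n s m' := by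
  classical
  induction hx using Submodule.span_induction with
  | zero => rw [map_zero]; exact Submodule.zero_mem _
  | add x y _ _ hx hy => rw [map_add]; exact Submodule.add_mem _ hx hy
  | smul c x _ hx => rw [map_smul]; exact Submodule.smul_mem _ c hx
  | mem x hx =>
    obtain ⟨u, hu, ⟨ys, hys, hnb⟩, rfl⟩ := hx
    rw [Tmap_tp]
    refine Submodule.subset_span ⟨_, fun i => ?_, ⟨ys.image ψ, ?_, fun i => ?_⟩, rfl⟩
    · obtain ⟨χ, hχ⟩ := hu i
      refine exists_eig_PsiB fun g => ?_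
      obtain ⟨g0, hg0⟩ := exists_gal_PsiB φ ((g : Bm k m' →+* Bm k m').comp φ) (by
        rw [RingHom.comp_assoc, hφ, ← RingHom.comp_assoc, gal_comp_iB_PsiB]) u
      exact ⟨χ g0, by rw [← Umap_comp, hg0 i, hχ g0, map_smul]⟩
    · exact lt_of_le_of_lt Finset.card_image_le hys
    · rcases hnb i with ⟨y, hy⟩ | ⟨f, hf, κ, hκ, y, hy⟩
      · refine Or.inl ⟨y, ?_⟩
        have e : φ.comp (cB k m) = cB k m' := by
          rw [cB, ← RingHom.comp_assoc, hφ]
          refine RingHom.ext fun c => ?_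
          change iB k m' (ψ (C c)) = iB k m' (C c)
          rw [show ψ (C c) = C c from ψ.commutes c]
        rw [← hy, ← Umap_comp, e]
      · refine Or.inr ⟨ψ f, Finset.mem_image_of_mem _ hf, φ.comp κ, ?_, y, ?_⟩
        · change (φ.comp κ).comp (iB k 1) = (iB k m').comp (ev (ψ f))
          rw [RingHom.comp_assoc, hκ, ← RingHom.comp_assoc, hφ, RingHom.comp_assoc, comp_ev]
        · rw [← hy, Umap_comp]

end

end Pool.Agent.MP_e2821c_ag.Cy
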