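import Pool.Agent.Lib.MP_e2821c_ag.Cy.PlusB

namespace Pool.Agent.MP_e2821c_ag.Cy

open MvPolynomial
open scoped TensorProduct

universe u v w

noncomputable section

variable {F : Type u} [Field F] [CharZero F] (𝕂 : Type u) [Field 𝕂] {n m : ℕ}

omit [CharZero F] in
theorem torus_single_pts (v : Fin n → ℤ) :
    (AddMonoidAlgebra.single v (1 : F) : Torus F n) = ((∏ i, xT F n i ^ v i : (Torus F n)ˣ) :
      Torus F n) := by
  let ψ : Multiplicative (Fin n → ℤ) →* (Torus F n)ˣ :=
    (AddMonoidAlgebra.of F (Fin n → ℤ)).toHomUnits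
  have h1 : ∀ i, ψ (Multiplicative.ofAdd (Pi.single i 1)) = xT F n i := fun i => Units.ext rfl
  have h2 : v = ∑ i, v i • (Pi.single i 1 : Fin n → ℤ) := by
    ext j
    simp [Finset.sum_apply, Pi.single_apply]
  have h3 : ψ (Multiplicative.ofAdd v) = ∏ i, xT F n i ^ v i := by
    conv_lhs => rw [h2]
    rw [ofAdd_sum, map_prod]
    exact Finset.prod_congr rfl fun i _ => by rw [ofAdd_zsmul, map_zpow, h1]
  rw [← h3]
  rfl

omit [CharZero F] in
theorem proj_C_pts (a : F) :
    proj F n m (C a) = C (AddMonoidAlgebra.single (0 : Fin n → ℤ) a : Torus F n) := by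
  simp [proj]

omit [CharZero F] in
theorem proj_X_pts (k : Fin m) : proj F n m (X k) = X k := by
  simp [proj]

omit [CharZero F] in
theorem coe_xval_pts {B : Type u} [CommRing B] (e : Amb F n m →+* B) (i : Fin n) :
    (xval e i : B) = e (C (AddMonoidAlgebra.single (Pi.single i 1) 1 : Torus F n)) := rfl

omit [CharZero F] in
theorem xval_comp_pts {B B' : Type u} [CommRing B] [CommRing B'] (f : B →+* B')
    (e : Amb F n m →+* B) : xval (f.comp e) = fun i => umap f (xval e i) := rfl

omit [CharZero F] in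
theorem apply_single_pts {B : Type u} [CommRing B] (e : Amb F n m →+* B) (v : Fin n → ℤ) :
    e (C (AddMonoidAlgebra.single v (1 : F) : Torus F n)) = ((∏ i, xval e i ^ v i : Bˣ) : B) := by
  have h : (∏ i, xval e i ^ v i : Bˣ) =
      umap (e.comp (C : Torus F n →+* Amb F n m)) (∏ i, xT F n i ^ v i) := by
    rw [map_prod]
    exact Finset.prod_congr rfl fun i _ => by rw [map_zpow]; rfl
  rw [h, coe_umap, torus_single_pts]
  rfl

omit [CharZero F] in
theorem hom_ext_xval {B : Type u} [CommRing B] {e e' : Amb F n m →+* B}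
    (h : e.comp (proj F n m) = e'.comp (proj F n m)) (hx : xval e = xval e') : e = e' := by
  have h' : ∀ r, e (proj F n m r) = e' (proj F n m r) := fun r => DFunLike.congr_fun h r
  have hC : e.comp (C : Torus F n →+* Amb F n m) = e'.comp C := by
    refine AddMonoidAlgebra.ringHom_ext (fun r => ?_) fun v => ?_
    · have := h' (C r)
      rwa [proj_C_pts] at this
    · change e (C _) = e' (C _)
      rw [apply_single_pts, apply_single_pts, hx]
  refine MvPolynomial.ringHom_ext (fun r => DFunLike.congr_fun hC r) fun k => ?_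
  have := h' (X k)
  rwa [proj_X_pts] at this

omit [CharZero F] in
theorem exists_hom_xval {B : Type u} [CommRing B] (ι : Base F m →+* B) (ξ : Fin n → Bˣ) :
    ∃ e : Amb F n m →+* B, e.comp (proj F n m) = ι ∧ xval e = ξ := by
  let χ : Multiplicative (Fin n → ℤ) →* B :=
    { toFun := fun v => ((∏ i, ξ i ^ (v.toAdd i) : Bˣ) : B)
      map_one' := by simp
      map_mul' := fun a b => by
        rw [← Units.val_mul, ← Finset.prod_mul_distrib]
        simp only [toAdd_mul, Pi.add_apply, zpow_add] }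
  let τ : Torus F n →+* B :=
    AddMonoidAlgebra.liftNCRingHom (ι.comp C) χ fun _ _ => Commute.all _ _
  have hτ : ∀ (v : Fin n → ℤ) (a : F), τ (AddMonoidAlgebra.single v a) =
      ι (C a) * ((∏ i, ξ i ^ v i : Bˣ) : B) := fun v a =>
    AddMonoidAlgebra.liftNCRingHom_single _ _ _ v a
  refine ⟨eval₂Hom τ fun k => ι (X k), ?_, ?_⟩
  · refine MvPolynomial.ringHom_ext (fun r => ?_) fun k => ?_
    · rw [RingHom.comp_apply, proj_C_pts, eval₂Hom_C, hτ]
      simp
    · rw [RingHom.comp_apply, proj_X_pts, eval₂Hom_X']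
  · funext i
    refine Units.ext ?_
    rw [coe_xval_pts, eval₂Hom_C, hτ, Finset.prod_eq_single i]
    · simp
    · intro j _ hj
      rw [Pi.single_eq_of_ne hj, zpow_zero]
    · intro hi
      exact absurd (Finset.mem_univ i) hi

omit [CharZero F] in
theorem xval_injOn_pts (P : Elem F n m) (q : Pt (Base F m)) :
    Set.InjOn (fun e : Amb F n m →+* q.B => xval e) (pts P q) :=
  fun _ he _ he' h => hom_ext_xval (he.1.trans he'.1.symm) h

omit [CharZero F] in
theorem pts_finite (P : Elem F n m) (q : Pt (Base F m)) : (pts P q).Finite := by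
  have hint : ((Ideal.Quotient.mk P.1).comp (proj F n m)).IsIntegral :=
    RingHom.Finite.to_isIntegral P.2.2.1
  choose p hp hp0 using fun i : Fin n => hint (Ideal.Quotient.mk P.1 (xu F n m i : Amb F n m))
  refine Set.Finite.of_finite_image ?_ (xval_injOn_pts P q)
  refine (Set.Finite.pi' (t := fun i => {u : q.Bˣ | ((p i).map q.ι).IsRoot (u : q.B)})
    fun i => ?_).subset ?_
  · refine Set.Finite.of_finite_image (f := Units.val) ?_ Units.val_injective.injOn
    refine (Polynomial.finite_setOfPred_isRoot ((hp i).map q.ι).ne_zero).subset ?_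
    rintro _ ⟨u, hu, rfl⟩
    exact hu
  · rintro _ ⟨e, he, rfl⟩ i
    have h1 : Polynomial.eval₂ (proj F n m) (xu F n m i : Amb F n m) (p i) ∈ P.1 := by
      rw [← Ideal.Quotient.eq_zero_iff_mem, Polynomial.hom_eval₂]
      exact hp0 i
    rw [← he.2, RingHom.mem_ker, Polynomial.hom_eval₂, he.1] at h1
    change ((p i).map q.ι).IsRoot _
    rw [Polynomial.IsRoot, Polynomial.eval_map]
    exact h1

omit [CharZero F] in
theorem phiAt_map_pts (P : Elem F n m) (q q' : Pt (Base F m)) (f : q.B →+* q'.B)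
    (hf : Function.Bijective f) (h : f.comp q.ι = q'.ι) :
    Wmap 𝕂 n f (phiAt 𝕂 P q) = phiAt 𝕂 P q' := by
  have hk : ∀ e : Amb F n m →+* q.B, RingHom.ker (f.comp e) = RingHom.ker e := fun e =>
    RingHom.ker_comp_of_injective e hf.1
  unfold phiAt
  rw [show Wmap 𝕂 n f (∑ᶠ e ∈ pts P q, Finsupp.single (xval e) (1 : 𝕂)) =
      ∑ᶠ e ∈ pts P q, Wmap 𝕂 n f (Finsupp.single (xval e) (1 : 𝕂)) from
    (Wmap 𝕂 n f).toAddMonoidHom.map_finsum_mem _ (pts_finite P q)]
  refine finsum_mem_eq_of_bijOn (fun e => f.comp e) ⟨?_, ?_, ?_⟩ fun e _ => ?_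
  · intro e he
    exact ⟨by rw [RingHom.comp_assoc, he.1, h], (hk e).trans he.2⟩
  · intro e _ e' _ hh
    exact RingHom.ext fun x => hf.1 (DFunLike.congr_fun hh x)
  · intro e' he'
    let φ := RingEquiv.ofBijective f hf
    have hφ : f.comp (φ.symm.toRingHom.comp e') = e' :=
      RingHom.ext fun x => φ.apply_symm_apply (e' x)
    refine ⟨φ.symm.toRingHom.comp e', ⟨?_, ?_⟩, hφ⟩
    · refine RingHom.ext fun r => hf.1 ?_
      have h1 : f (q.ι r) = q'.ι r := DFunLike.congr_fun h r
      have h2 : e' (proj F n m r) = q'.ι r := DFunLike.congr_fun he'.1 r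
      rw [h1, ← h2]
      exact φ.apply_symm_apply _
    · rw [← hk, hφ]
      exact he'.2
  · rw [Wmap_single]
    rfl

omit [CharZero F] in
open Classical in
theorem phiAt_apply_pts (P P' : Elem F n m) (q : Pt (Base F m)) {e : Amb F n m →+* q.B}
    (he : e ∈ pts P q) : phiAt 𝕂 P' q (xval e) = if P' = P then 1 else 0 := by
  unfold phiAt
  rw [finsum_mem_eq_finite_toFinset_sum _ (pts_finite P' q), Finsupp.finsetSum_apply]
  have key : ∀ e' ∈ (pts_finite P' q).toFinset, e' ≠ e →
      (Finsupp.single (xval e') (1 : 𝕂)) (xval e) = 0 := fun e' he' hne => by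
    rw [Set.Finite.mem_toFinset] at he'
    exact Finsupp.single_eq_of_ne fun hh => hne (hom_ext_xval (he'.1.trans he.1.symm) hh.symm)
  split_ifs with hP
  · subst hP
    rw [Finset.sum_eq_single e key, Finsupp.single_eq_same]
    intro hn
    exact absurd ((Set.Finite.mem_toFinset _).2 he) hn
  · refine Finset.sum_eq_zero fun e' he' => key e' he' ?_
    rintro rfl
    rw [Set.Finite.mem_toFinset] at he'
    exact hP (Subtype.ext (he'.2.symm.trans he.2))

theorem lift_bijective_pts {R B B' : Type u} [CommRing R] [CommRing B] [IsAic B] [Algebra R B]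
    [Algebra.IsIntegral R B] [CommRing B'] [IsDomain B'] [Algebra R B'] [Algebra.IsIntegral R B']
    [FaithfulSMul R B'] (f : B →+* B') (h : f.comp (algebraMap R B) = algebraMap R B') :
    Function.Bijective f := by
  have hinj : Function.Injective f := by
    have : Nontrivial R := (algebraMap R B).domain_nontrivial
    rw [RingHom.injective_iff_ker_eq_bot]
    refine Ideal.eq_bot_of_comap_eq_bot (R := R) ?_
    rw [RingHom.comap_ker, h]
    exact (RingHom.injective_iff_ker_eq_bot _).1 (FaithfulSMul.algebraMap_injective R B')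
  refine ⟨hinj, fun b => ?_⟩
  obtain ⟨p, hp, hb⟩ := Algebra.IsIntegral.isIntegral (R := R) b
  have hm := hp.map (algebraMap R B)
  have hr := (IsAic.splits hm).roots_map_of_injective hinj
  have hb' : b ∈ ((p.map (algebraMap R B)).map f).roots := by
    rw [Polynomial.mem_roots (hm.map f).ne_zero, Polynomial.map_map, h, Polynomial.IsRoot,
      Polynomial.eval_map]
    exact hb
  rw [hr, Multiset.mem_map] at hb'
  obtain ⟨a, -, ha⟩ := hb'
  exact ⟨a, ha⟩

theorem exists_conj_pts {A B : Type u} [CommRing A] [CommRing B] [IsAic B] (e e' : A →+* B)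
    (hk : RingHom.ker e = RingHom.ker e') (hi : e.IsIntegral) :
    ∃ f : B →+* B, ∀ a, f (e a) = e' a := by
  let : Algebra (A ⧸ RingHom.ker e) B := (RingHom.kerLift e).toAlgebra
  have : Algebra.IsIntegral (A ⧸ RingHom.ker e) B :=
    ⟨RingHom.IsIntegral.tower_top (Ideal.Quotient.mk (RingHom.ker e))
      (algebraMap (A ⧸ RingHom.ker e) B) hi⟩
  have : FaithfulSMul (A ⧸ RingHom.ker e) B :=
    (faithfulSMul_iff_algebraMap_injective _ _).2 (RingHom.kerLift_injective e)
  obtain ⟨f, hf⟩ := exists_lift (R := A ⧸ RingHom.ker e) B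
    ⟨B, Ideal.Quotient.lift (RingHom.ker e) e' fun a ha => by rwa [hk] at ha⟩
  exact ⟨f, fun a => DFunLike.congr_fun hf (Ideal.Quotient.mk _ a)⟩

section

variable (B : Type u) [CommRing B] [IsAic B] [Algebra (Base F m) B]
  [Algebra.IsIntegral (Base F m) B] [FaithfulSMul (Base F m) B]

omit [CharZero F] in
theorem pts_nonempty (P : Elem F n m) : (pts P (Pt.of (Base F m) B)).Nonempty := by
  let : Algebra (Base F m) (Amb F n m ⧸ P.1) :=
    ((Ideal.Quotient.mk P.1).comp (proj F n m)).toAlgebra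
  have : Algebra.IsIntegral (Base F m) (Amb F n m ⧸ P.1) :=
    ⟨RingHom.Finite.to_isIntegral P.2.2.1⟩
  have : FaithfulSMul (Base F m) (Amb F n m ⧸ P.1) := by
    rw [faithfulSMul_iff_algebraMap_injective, RingHom.injective_iff_ker_eq_bot]
    change RingHom.ker ((Ideal.Quotient.mk P.1).comp (proj F n m)) = ⊥
    rw [← RingHom.comap_ker, Ideal.mk_ker]
    exact P.2.2.2
  obtain ⟨f, hf⟩ := exists_lift (Amb F n m ⧸ P.1) (Pt.of (Base F m) B)
  have h1 : (f.comp (Ideal.Quotient.mk P.1)).comp (proj F n m) = algebraMap (Base F m) B := hf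
  refine ⟨f.comp (Ideal.Quotient.mk P.1), h1, eq_of_le P (fun x hx => ?_) ?_⟩
  · rw [RingHom.mem_ker, RingHom.comp_apply, Ideal.Quotient.eq_zero_iff_mem.2 hx, map_zero]
  · rw [RingHom.comap_ker, h1]
    exact (RingHom.injective_iff_ker_eq_bot _).1 (FaithfulSMul.algebraMap_injective _ B)

omit [CharZero F] in
theorem exists_elem_pts (ξ : Fin n → Bˣ) :
    ∃ (P : Elem F n m) (e : Amb F n m →+* B), e ∈ pts P (Pt.of (Base F m) B) ∧ xval e = ξ := by
  obtain ⟨e, he, hx⟩ := exists_hom_xval (algebraMap (Base F m) B) ξ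
  refine ⟨⟨RingHom.ker e, RingHom.ker_isPrime e, ?_, ?_⟩, e, ⟨he, rfl⟩, hx⟩
  · refine RingHom.IsIntegral.to_finite (fun x => ?_) ?_
    · obtain ⟨a, rfl⟩ := Ideal.Quotient.mk_surjective x
      obtain ⟨p, hp, hb⟩ := Algebra.IsIntegral.isIntegral (R := Base F m) (e a)
      refine ⟨p, hp, ?_⟩
      rw [← Polynomial.hom_eval₂, Ideal.Quotient.eq_zero_iff_mem, RingHom.mem_ker,
        Polynomial.hom_eval₂, he]
      exact hb
    · refine RingHom.FiniteType.of_comp_finiteType (f := (C : F →+* Base F m)) ?_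
      have h1 : ((Ideal.Quotient.mk (RingHom.ker e)).comp (proj F n m)).comp (C : F →+* Base F m) =
          algebraMap F (Amb F n m ⧸ RingHom.ker e) := by
        refine RingHom.ext fun a => ?_
        rw [RingHom.comp_apply, RingHom.comp_apply, proj_C_pts]
        rfl
      rw [h1, RingHom.finiteType_algebraMap]
      infer_instance
  · rw [RingHom.comap_ker, he]
    exact (RingHom.injective_iff_ker_eq_bot _).1 (FaithfulSMul.algebraMap_injective _ B)

theorem pts_transitive (P : Elem F n m) {e e' : Amb F n m →+* B}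
    (he : e ∈ pts P (Pt.of (Base F m) B)) (he' : e' ∈ pts P (Pt.of (Base F m) B)) :
    ∃ g : B ≃ₐ[Base F m] B, e' = (g : B →+* B).comp e := by
  classical
  have : IsIntegrallyClosed (Base F m) := base_isIntegrallyClosed F m
  have h1 : e.comp (proj F n m) = algebraMap (Base F m) B := he.1
  have h1' : e'.comp (proj F n m) = algebraMap (Base F m) B := he'.1
  have hk : RingHom.ker e = RingHom.ker e' := he.2.trans he'.2.symm
  obtain ⟨f, h3⟩ := exists_conj_pts e e' hk (RingHom.IsIntegral.tower_top (proj F n m) e (by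
    rw [h1]
    exact fun x => Algebra.IsIntegral.isIntegral x))
  obtain ⟨g, hg⟩ := exists_gal (R := Base F m) (RingHom.id B) f (RingHom.ext fun r => by
    change algebraMap (Base F m) B r = f (algebraMap (Base F m) B r)
    conv_rhs => rw [← h1]
    rw [RingHom.comp_apply, h3, ← h1']
    rfl) (Finset.univ.image fun i => (xval e i : B))
  refine ⟨g, hom_ext_xval ?_ ?_⟩
  · rw [RingHom.comp_assoc, h1, h1']
    exact RingHom.ext fun r => (g.commutes r).symm
  · funext i
    refine Units.ext ?_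
    have := hg _ (Finset.mem_image_of_mem _ (Finset.mem_univ i))
    rw [coe_xval_pts, h3] at this
    exact this

theorem phi_spec (P : Elem F n m) :
    (phi 𝕂 P).1 (Pt.of (Base F m) B) = phiAt 𝕂 P (Pt.of (Base F m) B) := by
  have : IsIntegrallyClosed (Base F m) := base_isIntegrallyClosed F m
  have h0 : (phi 𝕂 P).1 (ac (Base F m)) = phiAt 𝕂 P (ac (Base F m)) := by
    refine Classical.epsilon_spec (p := fun s : Plus (W 𝕂 n) (Base F m) =>
      s.1 (ac (Base F m)) = phiAt 𝕂 P (ac (Base F m))) ?_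
    refine exists_plus (H := W 𝕂 n) (AC (Base F m)) (finitary_W 𝕂 n) _ fun g => ?_
    exact phiAt_map_pts 𝕂 P (ac _) (ac _) _ g.bijective (RingHom.ext fun r => g.commutes r)
  obtain ⟨f, hf⟩ := exists_lift (AC (Base F m)) (Pt.of (Base F m) B)
  rw [← (phi 𝕂 P).nat (ac _) (Pt.of (Base F m) B) f hf, h0]
  exact phiAt_map_pts 𝕂 P (ac _) (Pt.of (Base F m) B) f (lift_bijective_pts f hf) hf

theorem phiL_apply_pts (x : Elem F n m →₀ 𝕂) {P : Elem F n m} {e : Amb F n m →+* B}
    (he : e ∈ pts P (Pt.of (Base F m) B)) :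
    ((phiL F 𝕂 n m x).1 (Pt.of (Base F m) B) : Wo 𝕂 n B) (xval e) = x P := by
  classical
  induction x using Finsupp.induction_linear with
  | zero => rw [map_zero]; rfl
  | add a b ha hb => rw [map_add, Plus.add_apply, Finsupp.add_apply, ha, hb, Finsupp.add_apply]
  | single P' c =>
    rw [phiL, Finsupp.linearCombination_single, Plus.smul_apply, phi_spec, Finsupp.smul_apply,
      phiAt_apply_pts 𝕂 P P' (Pt.of (Base F m) B) he, Finsupp.single_apply]
    split_ifs <;> simp

end

theorem phiL_injective : Function.Injective (phiL F 𝕂 n m) := by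
  intro x y h
  ext P
  obtain ⟨e, he⟩ := pts_nonempty (AC (Base F m)) P
  rw [← phiL_apply_pts 𝕂 (AC (Base F m)) x he, h, phiL_apply_pts 𝕂 (AC (Base F m)) y he]

theorem phiL_surjective : Function.Surjective (phiL F 𝕂 n m) := by
  intro s
  choose eP heP using fun P : Elem F n m => pts_nonempty (AC (Base F m)) P
  have hinj : Function.Injective fun P => xval (eP P) := fun P Q h => by
    have h1 := hom_ext_xval ((heP P).1.trans (heP Q).1.symm) h
    exact Subtype.ext ((heP P).2.symm.trans (h1 ▸ (heP Q).2))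
  let w : Wo 𝕂 n (AC (Base F m)) := s.1 (ac (Base F m))
  refine ⟨Finsupp.comapDomain (fun P => xval (eP P)) w hinj.injOn,
    plus_ext (AC (Base F m)) (Finsupp.ext fun ξ => ?_)⟩
  obtain ⟨P, e, he, rfl⟩ := exists_elem_pts (F := F) (m := m) (AC (Base F m)) ξ
  rw [phiL_apply_pts 𝕂 (AC (Base F m)) _ he, Finsupp.comapDomain_apply]
  obtain ⟨g, rfl⟩ := pts_transitive (AC (Base F m)) P (heP P) he
  have hw : Wmap 𝕂 n (g : AC (Base F m) →+* AC (Base F m)) w = w :=
    plus_invariant (AC (Base F m)) s g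
  have hg : Function.Injective fun (x : Fin n → (AC (Base F m))ˣ) (i : Fin n) =>
      umap (g : AC (Base F m) →+* AC (Base F m)) (x i) := fun x y h => funext fun i =>
    Units.ext (g.injective (congrArg Units.val (congrFun h i)))
  change w _ = w _
  conv_rhs => rw [← hw]
  exact (Finsupp.mapDomain_apply hg w _).symm

omit [CharZero F] in
theorem xval_eq_one_pts {B : Type u} [CommRing B] (e : Amb F n m →+* B) (i : Fin n) :
    xval e i = 1 ↔ C (coordSubOne F n i) ∈ RingHom.ker e := by
  rw [RingHom.mem_ker, coordSubOne, map_sub, map_sub, map_one, map_one, sub_eq_zero,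
    ← coe_xval_pts, Units.val_eq_one]

theorem phiL_deg (x : Elem F n m →₀ 𝕂) :
    (phiL F 𝕂 n m x).1 (ac (Base F m)) ∈ degW 𝕂 n (AC (Base F m)) ↔
      ∀ P ∈ x.support, Degenerate F n m P := by
  rw [degW, Finsupp.mem_supported]
  constructor
  · intro h P hP
    obtain ⟨e, he⟩ := pts_nonempty (AC (Base F m)) P
    obtain ⟨i, hi⟩ := h (show xval e ∈ _ from Finset.mem_coe.2 (Finsupp.mem_support_iff.2 (by
      rw [phiL_apply_pts 𝕂 (AC (Base F m)) x he]
      exact Finsupp.mem_support_iff.1 hP)))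
    refine ⟨i, ?_⟩
    rw [xval_eq_one_pts, he.2] at hi
    exact hi
  · intro h ξ hξ
    obtain ⟨P, e, he, rfl⟩ := exists_elem_pts (F := F) (m := m) (AC (Base F m)) ξ
    have h1 := Finsupp.mem_support_iff.1 (Finset.mem_coe.1 hξ)
    rw [phiL_apply_pts 𝕂 (AC (Base F m)) x he] at h1
    obtain ⟨i, hi⟩ := h P (Finsupp.mem_support_iff.2 h1)
    refine ⟨i, ?_⟩
    rw [xval_eq_one_pts, he.2]
    exact hi

end

end Pool.Agent.MP_e2821c_ag.Cy
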