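import Pool.Agent.Lib.MP_e2821c_ag.Cy.Lift
import Pool.Agent.Lib.MP_e2821c_ag.Cy.Core2

namespace Pool.Agent.MP_e2821c_ag.Cy

open MvPolynomial
open scoped TensorProduct

universe u v w

noncomputable section

section Aux

variable {B : Type u} [CommRing B]

/-- The linear polynomial with a given invertible root. -/
def linRoots (x : Bˣ) : Mon (Base B 0) :=
  ⟨Polynomial.X - Polynomial.C (C (x : B)), Polynomial.monic_X_sub_C _, by
    rw [Polynomial.coeff_sub, Polynomial.coeff_X_zero, Polynomial.coeff_C_zero, zero_sub]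
    exact (x.isUnit.map (C : B →+* Base B 0)).neg⟩

theorem coe_linRoots (x : Bˣ) :
    (linRoots x).1 = Polynomial.X - Polynomial.C (C (x : B)) := rfl

/-- The product of the linear polynomials. -/
def prodRoots (s : Multiset Bˣ) : Mon (Base B 0) := (s.map linRoots).prod

/-- The sum of the classes of a multiset of units. -/
def sumRoots (s : Multiset Bˣ) : FreeAbelianGroup Bˣ := (s.map FreeAbelianGroup.of).sum

theorem prodRoots_zero : prodRoots (0 : Multiset Bˣ) = 1 := by simp [prodRoots]

theorem prodRoots_cons (x : Bˣ) (s : Multiset Bˣ) :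
    prodRoots (x ::ₘ s) = linRoots x * prodRoots s := by simp [prodRoots]

theorem sumRoots_zero : sumRoots (0 : Multiset Bˣ) = 0 := by simp [sumRoots]

theorem sumRoots_cons (x : Bˣ) (s : Multiset Bˣ) :
    sumRoots (x ::ₘ s) = FreeAbelianGroup.of x + sumRoots s := by simp [sumRoots]

theorem sumRoots_add (s t : Multiset Bˣ) : sumRoots (s + t) = sumRoots s + sumRoots t := by
  simp [sumRoots]

theorem natDegree_prodRoots [Nontrivial B] (s : Multiset Bˣ) :
    (prodRoots s).1.natDegree = Multiset.card s := by
  induction s using Multiset.induction_on with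
  | empty => rw [prodRoots_zero]; simp
  | cons x s ih =>
    rw [prodRoots_cons, Multiset.card_cons]
    change ((linRoots x).1 * (prodRoots s).1).natDegree = _
    rw [(linRoots x).2.1.natDegree_mul (prodRoots s).2.1, ih, coe_linRoots,
      Polynomial.natDegree_X_sub_C, add_comm]

theorem coeff_prodRoots (s : Multiset Bˣ) :
    (prodRoots s).1.coeff 0 = C ((-1) ^ Multiset.card s * ((s.prod : Bˣ) : B)) := by
  induction s using Multiset.induction_on with
  | empty => rw [prodRoots_zero]; simp
  | cons x s ih =>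
    rw [prodRoots_cons, Multiset.card_cons, Multiset.prod_cons]
    change ((linRoots x).1 * (prodRoots s).1).coeff 0 = _
    rw [Polynomial.mul_coeff_zero, ih, coe_linRoots, Polynomial.coeff_sub,
      Polynomial.coeff_X_zero, Polynomial.coeff_C_zero, zero_sub, ← map_neg, ← map_mul,
      Units.val_mul]
    congr 1
    ring

theorem augZ_sumRoots (s : Multiset Bˣ) : augZ B (sumRoots s) = Multiset.card s := by
  induction s using Multiset.induction_on with
  | empty => rw [sumRoots_zero]; simp
  | cons x s ih =>
    rw [sumRoots_cons, map_add, ih, Multiset.card_cons]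
    simp [augZ, add_comm]

theorem linZ_sumRoots (s : Multiset Bˣ) : linZ B (sumRoots s) = Additive.ofMul s.prod := by
  induction s using Multiset.induction_on with
  | empty => rw [sumRoots_zero]; simp
  | cons x s ih =>
    rw [sumRoots_cons, map_add, ih, Multiset.prod_cons, ofMul_mul]
    simp [linZ]

theorem exists_sumRoots (y : FreeAbelianGroup Bˣ) :
    ∃ s t : Multiset Bˣ, y = sumRoots s - sumRoots t := by
  induction y using FreeAbelianGroup.induction_on with
  | zero => exact ⟨0, 0, by simp⟩
  | of x => exact ⟨x ::ₘ 0, 0, by rw [sumRoots_cons, sumRoots_zero]; simp⟩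
  | neg x _ => exact ⟨0, x ::ₘ 0, by rw [sumRoots_cons, sumRoots_zero]; simp⟩
  | add a b ha hb =>
    obtain ⟨s, t, rfl⟩ := ha
    obtain ⟨s', t', rfl⟩ := hb
    exact ⟨s + s', t + t', by rw [sumRoots_add, sumRoots_add]; abel⟩

theorem monMap_prodRoots {B' : Type u} [CommRing B'] (f : B →+* B') (s : Multiset Bˣ) :
    monMap (MvPolynomial.map f) (prodRoots s) = prodRoots (s.map (umap f)) := by
  induction s using Multiset.induction_on with
  | empty => rw [Multiset.map_zero, prodRoots_zero, prodRoots_zero, map_one]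
  | cons x s ih =>
    rw [Multiset.map_cons, prodRoots_cons, prodRoots_cons, map_mul, ih]
    congr 1
    refine Subtype.ext ?_
    change (Polynomial.X - Polynomial.C (C (x : B))).map (MvPolynomial.map f) =
      Polynomial.X - Polynomial.C (C (f x))
    rw [Polynomial.map_sub, Polynomial.map_X, Polynomial.map_C, MvPolynomial.map_C]

theorem map_sumRoots {B' : Type u} [CommRing B'] (f : B →+* B') (s : Multiset Bˣ) :
    FreeAbelianGroup.map (umap f) (sumRoots s) = sumRoots (s.map (umap f)) := by
  induction s using Multiset.induction_on with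
  | empty => rw [Multiset.map_zero, sumRoots_zero, sumRoots_zero, map_zero]
  | cons x s ih =>
    rw [Multiset.map_cons, sumRoots_cons, sumRoots_cons, map_add, ih, FreeAbelianGroup.map_of_apply]

/-- The inverse map. -/
def sigRoots (B : Type u) [CommRing B] : FreeAbelianGroup Bˣ →+ Additive (Gp (Base B 0)) :=
  FreeAbelianGroup.lift fun x => Additive.ofMul (Algebra.GrothendieckGroup.of (linRoots x))

theorem sigRoots_sumRoots (s : Multiset Bˣ) :
    sigRoots B (sumRoots s) = Additive.ofMul (Algebra.GrothendieckGroup.of (prodRoots s)) := by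
  induction s using Multiset.induction_on with
  | empty => rw [sumRoots_zero, prodRoots_zero, map_zero, map_one]; rfl
  | cons x s ih =>
    rw [sumRoots_cons, prodRoots_cons, map_add, map_mul, ofMul_mul, ih]
    congr 1
    exact FreeAbelianGroup.lift_apply_of _ _

theorem C_constantCoeff_Roots (a : Base B 0) : (C (constantCoeff a) : Base B 0) = a := by
  rw [MvPolynomial.eq_C_of_isEmpty a, constantCoeff_C]

open Classical in
/-- The class of an element if it is a unit. -/
def clsRoots (x : B) : FreeAbelianGroup Bˣ :=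
  if h : IsUnit x then FreeAbelianGroup.of h.unit else 0

theorem clsRoots_unit (x : Bˣ) : clsRoots (x : B) = FreeAbelianGroup.of x := by
  rw [clsRoots, dif_pos x.isUnit, IsUnit.unit_of_val_units]

variable [IsAic B]

theorem exists_prodRoots (p : Mon (Base B 0)) : ∃ s : Multiset Bˣ, p = prodRoots s := by
  have hm : (p.1.map (constantCoeff : Base B 0 →+* B)).Monic := p.2.1.map _
  have hu : IsUnit ((p.1.map (constantCoeff : Base B 0 →+* B)).coeff 0) := by
    rw [Polynomial.coeff_map]; exact p.2.2.map _
  have hp : (p.1.map (constantCoeff : Base B 0 →+* B)).map (C : B →+* Base B 0) = p.1 := by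
    rw [Polynomial.map_map]
    have : (C : B →+* Base B 0).comp constantCoeff = RingHom.id _ :=
      RingHom.ext C_constantCoeff_Roots
    rw [this, Polynomial.map_id]
  have hs := (IsAic.splits hm).eq_prod_roots_of_monic hm
  generalize p.1.map (constantCoeff : Base B 0 →+* B) = q at hm hu hp hs
  have hr : ∀ x ∈ q.roots, IsUnit x := fun x hx => by
    have h0 : q.eval x = 0 := (Polynomial.mem_roots hm.ne_zero).1 hx
    have h1 := Polynomial.X_mul_divX_add q
    have h2 := congrArg (Polynomial.eval x) h1
    rw [h0, Polynomial.eval_add, Polynomial.eval_mul, Polynomial.eval_X, Polynomial.eval_C] at h2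
    refine isUnit_of_dvd_unit ⟨-Polynomial.eval x q.divX, ?_⟩ hu
    linear_combination h2
  obtain ⟨s, hs'⟩ : ∃ s : Multiset Bˣ, s.map (fun x : Bˣ => (x : B)) = q.roots := by
    lift q.roots to Multiset Bˣ using hr with s hs'
    exact ⟨s, rfl⟩
  refine ⟨s, Subtype.ext ?_⟩
  rw [← hp, hs, ← hs', Polynomial.map_multiset_prod, Multiset.map_map, Multiset.map_map, prodRoots,
    Submonoid.coe_multiset_prod, Multiset.map_map]
  congr 1
  refine Multiset.map_congr rfl fun x _ => ?_
  simp [coe_linRoots]

/-- The sum of the roots of a polynomial. -/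
def tauRoots (B : Type u) [CommRing B] [IsAic B] :
    Mon (Base B 0) →* Multiplicative (FreeAbelianGroup Bˣ) where
  toFun p := Multiplicative.ofAdd
    (((p.1.map (constantCoeff : Base B 0 →+* B)).roots.map clsRoots).sum)
  map_one' := by simp
  map_mul' p q := by
    have hp : (p.1.map (constantCoeff : Base B 0 →+* B)).Monic := p.2.1.map _
    have hq : (q.1.map (constantCoeff : Base B 0 →+* B)).Monic := q.2.1.map _
    rw [← ofAdd_add, Submonoid.coe_mul, Polynomial.map_mul,
      Polynomial.roots_mul (hp.mul hq).ne_zero, Multiset.map_add, Multiset.sum_add]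

theorem tauRoots_lin (x : Bˣ) :
    tauRoots B (linRoots x) = Multiplicative.ofAdd (FreeAbelianGroup.of x) := by
  change Multiplicative.ofAdd ((((Polynomial.X - Polynomial.C (C (x : B))).map
    (constantCoeff : Base B 0 →+* B)).roots.map clsRoots).sum) = _
  rw [Polynomial.map_sub, Polynomial.map_X, Polynomial.map_C, constantCoeff_C,
    Polynomial.roots_X_sub_C, Multiset.map_singleton, Multiset.sum_singleton, clsRoots_unit]

theorem tauRoots_prod (s : Multiset Bˣ) :
    tauRoots B (prodRoots s) = Multiplicative.ofAdd (sumRoots s) := by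
  induction s using Multiset.induction_on with
  | empty => rw [sumRoots_zero, prodRoots_zero, map_one]; rfl
  | cons x s ih => rw [sumRoots_cons, prodRoots_cons, map_mul, ih, tauRoots_lin, ofAdd_add]

/-- The sum of the roots on the group completion. -/
def tauGRoots (B : Type u) [CommRing B] [IsAic B] :
    Gp (Base B 0) →* Multiplicative (FreeAbelianGroup Bˣ) :=
  Algebra.GrothendieckGroup.lift (tauRoots B)

theorem tauGRoots_of (p : Mon (Base B 0)) :
    tauGRoots B (Algebra.GrothendieckGroup.of p) = tauRoots B p :=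
  DFunLike.congr_fun (Algebra.GrothendieckGroup.lift.symm_apply_apply (tauRoots B)) p

/-- The sum of the roots on `P0`. -/
def rhoRoots (B : Type u) [CommRing B] [IsAic B] :
    Additive (P0 (Base B 0)) →+ FreeAbelianGroup Bˣ where
  toFun x := (tauGRoots B (x.toMul : P0 (Base B 0))).toAdd
  map_zero' := by simp
  map_add' x y := by simp

theorem rhoRoots_apply (x : Additive (P0 (Base B 0))) :
    rhoRoots B x = (tauGRoots B (x.toMul : P0 (Base B 0))).toAdd := rfl

theorem exists_div_Roots (x : Additive (P0 (Base B 0))) : ∃ s t : Multiset Bˣ,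
    Multiset.card s = Multiset.card t ∧ s.prod = t.prod ∧
      ((x.toMul : P0 (Base B 0)) : Gp (Base B 0)) =
        Algebra.GrothendieckGroup.of (prodRoots s) / Algebra.GrothendieckGroup.of (prodRoots t) := by
  obtain ⟨p, q, h1, h2, h3⟩ := (x.toMul).2
  obtain ⟨s, rfl⟩ := exists_prodRoots p
  obtain ⟨t, rfl⟩ := exists_prodRoots q
  rw [natDegree_prodRoots, natDegree_prodRoots] at h1
  rw [coeff_prodRoots, coeff_prodRoots, h1] at h2
  refine ⟨s, t, h1, Units.ext ?_, h3⟩
  exact mul_left_cancel₀ (pow_ne_zero _ (neg_ne_zero.2 one_ne_zero)) (C_injective _ _ h2)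

theorem tauG_div_Roots (s t : Multiset Bˣ) :
    (tauGRoots B (Algebra.GrothendieckGroup.of (prodRoots s) /
      Algebra.GrothendieckGroup.of (prodRoots t))).toAdd = sumRoots s - sumRoots t := by
  rw [map_div, tauGRoots_of, tauGRoots_of, tauRoots_prod, tauRoots_prod]
  rfl

theorem rhoRoots_nat {B' : Type u} [CommRing B'] [IsAic B'] (f : B →+* B')
    (x : Additive (P0 (Base B 0))) :
    FreeAbelianGroup.map (umap f) (rhoRoots B x) =
      rhoRoots B' (MonoidHom.toAdditive (p0Map (MvPolynomial.map f)) x) := by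
  obtain ⟨s, t, -, -, h⟩ := exists_div_Roots x
  change FreeAbelianGroup.map (umap f) (tauGRoots B (x.toMul : P0 (Base B 0))).toAdd =
    (tauGRoots B' (gpMap (MvPolynomial.map f) (x.toMul : P0 (Base B 0)))).toAdd
  rw [h, tauG_div_Roots, map_div (gpMap _), gpMap_of, gpMap_of, monMap_prodRoots,
    monMap_prodRoots, tauG_div_Roots, map_sub, map_sumRoots, map_sumRoots]

end Aux

theorem exists_roots :
    ∃ ρ : ∀ (B : Type u) [CommRing B] [IsAic B], (PZ.simplex 0).obj B →+ ZU.obj B,
      (∀ {B B' : Type u} [CommRing B] [IsAic B] [CommRing B'] [IsAic B'] (f : B →+* B')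
        (x : (PZ.simplex 0).obj B), ZU.map f (ρ B x) = ρ B' ((PZ.simplex 0).map f x)) ∧
      ∀ (B : Type u) [CommRing B] [IsAic B], Function.Injective (ρ B) ∧
        ∀ y : FreeAbelianGroup Bˣ, y ∈ (ρ B).range ↔ linZ B y = 0 ∧ augZ B y = 0 := by
  refine ⟨fun B _ _ => rhoRoots B, ?_, fun B _ _ => ⟨?_, fun y => ⟨?_, ?_⟩⟩⟩
  · intro B B' _ _ _ _ f x
    exact rhoRoots_nat f x
  · refine (injective_iff_map_eq_zero (rhoRoots B)).2 fun x hx => ?_
    obtain ⟨s, t, -, -, h⟩ := exists_div_Roots x
    rw [rhoRoots_apply, h, tauG_div_Roots, sub_eq_zero] at hx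
    have h2 := congrArg (sigRoots B) hx
    rw [sigRoots_sumRoots, sigRoots_sumRoots] at h2
    have h3 : Algebra.GrothendieckGroup.of (prodRoots s) =
      Algebra.GrothendieckGroup.of (prodRoots t) := h2
    rw [h3, div_self'] at h
    exact Additive.toMul.injective (Subtype.ext h)
  · rintro ⟨x, rfl⟩
    obtain ⟨s, t, h1, h2, h⟩ := exists_div_Roots x
    change linZ B (rhoRoots B x) = 0 ∧ augZ B (rhoRoots B x) = 0
    rw [rhoRoots_apply, h, tauG_div_Roots, map_sub, map_sub, linZ_sumRoots, linZ_sumRoots,
      augZ_sumRoots, augZ_sumRoots, h1, h2, sub_self, sub_self]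
    exact ⟨rfl, rfl⟩
  · rintro ⟨h1, h2⟩
    obtain ⟨s, t, rfl⟩ := exists_sumRoots y
    rw [map_sub, linZ_sumRoots, linZ_sumRoots, sub_eq_zero] at h1
    rw [map_sub, augZ_sumRoots, augZ_sumRoots, sub_eq_zero, Nat.cast_inj] at h2
    have h1' : s.prod = t.prod := h1
    refine ⟨Additive.ofMul (⟨Algebra.GrothendieckGroup.of (prodRoots s) /
      Algebra.GrothendieckGroup.of (prodRoots t), prodRoots s, prodRoots t, ?_, ?_, rfl⟩ :
        P0 (Base B 0)), tauG_div_Roots s t⟩
    · rw [natDegree_prodRoots, natDegree_prodRoots, h2]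
    · rw [coeff_prodRoots, coeff_prodRoots, h2, h1']

end

end Pool.Agent.MP_e2821c_ag.Cy
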