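import Pool.Agent.Lib.MP_e2821c_ag.Cy.Core

namespace Pool.Agent.MP_e2821c_ag.Cy

open MvPolynomial
open scoped TensorProduct

universe u v w

noncomputable section

variable {𝕂 : Type w} [CommRing 𝕂]

/-- The coface map with a natural number as index. -/
def dNSimp (a k : ℕ) (l : Fin (a + 1)) : Fin (a + 2) :=
  ⟨if (l : ℕ) < k then l else l + 1, by have := l.2; split_ifs <;> omega⟩

/-- The codegeneracy map with a natural number as index. -/
def sNSimp (a k : ℕ) (l : Fin (a + 2)) : Fin (a + 1) :=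
  ⟨if (l : ℕ) ≤ k then min (l : ℕ) a else l - 1, by have := l.2; split_ifs <;> omega⟩

theorem dNSimp_val (a k : ℕ) (l : Fin (a + 1)) :
    (dNSimp a k l : ℕ) = if (l : ℕ) < k then (l : ℕ) else l + 1 := rfl

theorem sNSimp_val (a k : ℕ) (l : Fin (a + 2)) :
    (sNSimp a k l : ℕ) = if (l : ℕ) ≤ k then min (l : ℕ) a else l - 1 := rfl

theorem succAbove_eq_Simp (a : ℕ) (i : Fin (a + 2)) : i.succAbove = dNSimp a i := by
  funext l
  ext
  rw [dNSimp_val]
  unfold Fin.succAbove
  split_ifs with h1 h2 h2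
  · rfl
  · exact absurd h1 h2
  · exact absurd h2 h1
  · rfl

theorem predAbove_eq_Simp (a : ℕ) (i : Fin (a + 1)) : i.predAbove = sNSimp a i := by
  funext l
  ext
  rw [sNSimp_val]
  unfold Fin.predAbove
  have hi := i.2
  split_ifs with h1 h2 h2
  · have : (i : ℕ) < l := h1
    omega
  · rfl
  · rw [Fin.coe_castPred]
    omega
  · exact absurd (show (i : ℕ) < l by omega) h1

theorem SMod.d_range_Simp (X : SMod.{v} 𝕂) (m : ℕ) (x : X.obj (m + 1)) :
    X.d m x = ∑ i ∈ Finset.range (m + 2), ((-1 : 𝕂) ^ i) • X.act (dNSimp m i) x := by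
  rw [SMod.d_apply, ← Fin.sum_univ_eq_sum_range
    (fun i => ((-1 : 𝕂) ^ i) • X.act (dNSimp m i) x) (m + 2)]
  exact Finset.sum_congr rfl fun i _ => by rw [succAbove_eq_Simp]

theorem dd_sum_Simp {M : Type v} [AddCommGroup M] [Module 𝕂 M] (F : ℕ → ℕ → M)
    (h : ∀ i j, i ≤ j → F i (j + 1) = F j i) (n : ℕ) :
    ∑ i ∈ Finset.range n, ∑ j ∈ Finset.range (n + 1), ((-1 : 𝕂) ^ (i + j)) • F i j = 0 := by
  induction n with
  | zero => simp
  | succ n ih =>
    have h1 : ∑ i ∈ Finset.range (n + 1), ((-1 : 𝕂) ^ (i + (n + 1))) • F i (n + 1) =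
        -∑ j ∈ Finset.range (n + 1), ((-1 : 𝕂) ^ (n + j)) • F n j := by
      rw [← Finset.sum_neg_distrib]
      refine Finset.sum_congr rfl fun i hi => ?_
      rw [h i n (by have := Finset.mem_range.1 hi; omega), ← neg_smul]
      congr 1
      ring
    simp only [Finset.sum_range_succ _ (n + 1), Finset.sum_add_distrib]
    rw [h1, Finset.sum_range_succ _ n, ih, zero_add, add_neg_cancel]

theorem prism_sum_Simp {M : Type v} [AddCommGroup M] [Module 𝕂 M] (A B : ℕ → ℕ → M) (n : ℕ)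
    (h1 : ∀ i, i < n → A (i + 1) (i + 1) = A i (i + 1))
    (h2 : ∀ i j, i < n → j ≤ i → A (i + 1) j = B i j)
    (h3 : ∀ i j, i < j → j ≤ n → A i (j + 1) = B i j) :
    ∑ i ∈ Finset.range (n + 1), ∑ j ∈ Finset.range (n + 2), ((-1 : 𝕂) ^ (i + j)) • A i j +
      ∑ i ∈ Finset.range n, ∑ j ∈ Finset.range (n + 1), ((-1 : 𝕂) ^ (i + j)) • B i j =
      A 0 0 - A n (n + 1) := by
  induction n with
  | zero => simp [Finset.sum_range_succ, sub_eq_add_neg]
  | succ n ih =>
    have ih' := ih (fun i hi => h1 i (by omega)) (fun i j hi hj => h2 i j (by omega) hj)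
      (fun i j hi hj => h3 i j hi (by omega))
    have e1 : ∑ j ∈ Finset.range (n + 1), ((-1 : 𝕂) ^ (n + 1 + j)) • A (n + 1) j =
        -∑ j ∈ Finset.range (n + 1), ((-1 : 𝕂) ^ (n + j)) • B n j := by
      rw [← Finset.sum_neg_distrib]
      refine Finset.sum_congr rfl fun j hj => ?_
      rw [h2 n j (by omega) (by have := Finset.mem_range.1 hj; omega), ← neg_smul]
      congr 1
      ring
    have e2 : ∑ i ∈ Finset.range (n + 1), ((-1 : 𝕂) ^ (i + (n + 2))) • A i (n + 2) =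
        -∑ i ∈ Finset.range (n + 1), ((-1 : 𝕂) ^ (i + (n + 1))) • B i (n + 1) := by
      rw [← Finset.sum_neg_distrib]
      refine Finset.sum_congr rfl fun i hi => ?_
      rw [h3 i (n + 1) (Finset.mem_range.1 hi) le_rfl, ← neg_smul]
      congr 1
      ring
    have e3 : ((-1 : 𝕂) ^ (n + 1 + (n + 1))) = 1 := Even.neg_one_pow ⟨n + 1, rfl⟩
    have e4 : ((-1 : 𝕂) ^ (n + 1 + (n + 2))) = -1 := Odd.neg_one_pow ⟨n + 1, by ring⟩
    have eA : ∑ i ∈ Finset.range (n + 1 + 1), ∑ j ∈ Finset.range (n + 1 + 2),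
        ((-1 : 𝕂) ^ (i + j)) • A i j =
        ∑ i ∈ Finset.range (n + 1), ∑ j ∈ Finset.range (n + 2), ((-1 : 𝕂) ^ (i + j)) • A i j +
        ∑ i ∈ Finset.range (n + 1), ((-1 : 𝕂) ^ (i + (n + 2))) • A i (n + 2) +
        (∑ j ∈ Finset.range (n + 1), ((-1 : 𝕂) ^ (n + 1 + j)) • A (n + 1) j +
          A (n + 1) (n + 1) - A (n + 1) (n + 2)) := by
      rw [Finset.sum_range_succ _ (n + 1), ← Finset.sum_add_distrib]
      congr 1
      · exact Finset.sum_congr rfl fun i _ => Finset.sum_range_succ _ (n + 2)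
      · rw [show n + 1 + 2 = n + 2 + 1 from rfl, Finset.sum_range_succ _ (n + 2),
          show n + 2 = n + 1 + 1 from rfl, Finset.sum_range_succ _ (n + 1), e3,
          show n + 1 + 1 = n + 2 from rfl, e4, one_smul, neg_one_smul, sub_eq_add_neg]
    have eB : ∑ i ∈ Finset.range (n + 1), ∑ j ∈ Finset.range (n + 1 + 1),
        ((-1 : 𝕂) ^ (i + j)) • B i j =
        ∑ i ∈ Finset.range n, ∑ j ∈ Finset.range (n + 1), ((-1 : 𝕂) ^ (i + j)) • B i j +
        ∑ j ∈ Finset.range (n + 1), ((-1 : 𝕂) ^ (n + j)) • B n j +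
        ∑ i ∈ Finset.range (n + 1), ((-1 : 𝕂) ^ (i + (n + 1))) • B i (n + 1) := by
      rw [← Finset.sum_range_succ (fun i => ∑ j ∈ Finset.range (n + 1),
        ((-1 : 𝕂) ^ (i + j)) • B i j) n, ← Finset.sum_add_distrib]
      exact Finset.sum_congr rfl fun i _ => Finset.sum_range_succ _ (n + 1)
    rw [eA, eB, e1, e2, h1 n (by omega), eq_sub_of_add_eq ih']
    abel

theorem SMod.d_d (X : SMod.{v} 𝕂) (m : ℕ) (x : X.obj (m + 2)) : X.d m (X.d (m + 1) x) = 0 := by
  rw [← dd_sum_Simp (𝕂 := 𝕂) (fun i j => X.act (dNSimp (m + 1) j ∘ dNSimp m i) x) ?_ (m + 2),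
    SMod.d_range_Simp]
  · refine Finset.sum_congr rfl fun i _ => ?_
    rw [SMod.d_range_Simp, map_sum, Finset.smul_sum]
    refine Finset.sum_congr rfl fun j _ => ?_
    rw [map_smul, smul_smul, ← pow_add, X.act_comp]
  · intro i j hij
    congr 2
    funext l
    ext
    simp only [Function.comp, dNSimp_val]
    split_ifs <;> omega

theorem SMod.act_miss_Simp (X : SMod.{v} 𝕂) {a m : ℕ} (x : X.obj (m + 1)) (i : ℕ)
    (hi : i + 1 ≤ m + 1) (hx : X.act (dNSimp m (i + 1)) x = 0) (f : Fin (a + 1) → Fin (m + 2))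
    (hf : ∀ l, (f l : ℕ) ≠ i + 1) : X.act f x = 0 := by
  have : f = dNSimp m (i + 1) ∘ (sNSimp m i ∘ f) := by
    funext l
    ext
    have := hf l
    have := (f l).2
    simp only [Function.comp, dNSimp_val, sNSimp_val]
    split_ifs <;> omega
  rw [this, X.act_comp, hx, map_zero]

theorem SMod.d_deg_Simp (X : SMod.{v} 𝕂) (m k : ℕ) (hk : k + 1 ≤ m + 1) (x : X.obj (m + 1))
    (hx : X.d m x = 0) (hf : ∀ i, k + 1 < i → i ≤ m + 1 → X.act (dNSimp m i) x = 0) :
    X.d (m + 1) (((-1 : 𝕂) ^ k) • X.act (sNSimp (m + 1) (k + 1)) x) =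
      X.act (sNSimp m k) (X.act (dNSimp m (k + 1)) x) := by
  obtain ⟨r, hr⟩ : ∃ r, m = k + r := ⟨m - k, by omega⟩
  have e1 : X.d m x = ∑ i ∈ Finset.range (k + 1), ((-1 : 𝕂) ^ i) • X.act (dNSimp m i) x +
      ((-1 : 𝕂) ^ (k + 1)) • X.act (dNSimp m (k + 1)) x := by
    rw [SMod.d_range_Simp, show m + 2 = (k + 1 + 1) + r by omega, Finset.sum_range_add,
      Finset.sum_range_succ, Finset.sum_eq_zero (s := Finset.range r), add_zero]
    intro i hi
    rw [hf _ (by omega) (by have := Finset.mem_range.1 hi; omega), smul_zero]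
  have e2 : X.d (m + 1) (X.act (sNSimp (m + 1) (k + 1)) x) =
      X.act (sNSimp m k)
        (∑ i ∈ Finset.range (k + 1), ((-1 : 𝕂) ^ i) • X.act (dNSimp m i) x) := by
    rw [SMod.d_range_Simp, show m + 1 + 2 = (k + 1 + 1 + 1) + r by omega, Finset.sum_range_add,
      Finset.sum_range_succ, Finset.sum_range_succ, Finset.sum_eq_zero (s := Finset.range r),
      add_zero, map_sum]
    · have a1 : sNSimp (m + 1) (k + 1) ∘ dNSimp (m + 1) (k + 1) = id := by
        funext l
        ext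
        have := l.2
        simp only [Function.comp, dNSimp_val, sNSimp_val, id]
        split_ifs <;> omega
      have a2 : sNSimp (m + 1) (k + 1) ∘ dNSimp (m + 1) (k + 1 + 1) = id := by
        funext l
        ext
        have := l.2
        simp only [Function.comp, dNSimp_val, sNSimp_val, id]
        split_ifs <;> omega
      rw [← X.act_comp, ← X.act_comp, a1, a2, X.act_id, pow_succ _ (k + 1), mul_neg_one, neg_smul,
        add_neg_cancel_right]
      refine Finset.sum_congr rfl fun i hi => ?_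
      have hi' := Finset.mem_range.1 hi
      rw [map_smul, ← X.act_comp, ← X.act_comp]
      congr 3
      funext l
      ext
      have := l.2
      simp only [Function.comp, dNSimp_val, sNSimp_val]
      split_ifs <;> omega
    · intro i hi
      have hi' := Finset.mem_range.1 hi
      rw [← X.act_comp, X.act_miss_Simp x (k + 1 + i) (by omega) (hf _ (by omega) (by omega)),
        smul_zero]
      intro l
      have := l.2
      simp only [Function.comp, dNSimp_val, sNSimp_val]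
      split_ifs <;> omega
  rw [hx] at e1
  rw [map_smul, e2, eq_neg_of_add_eq_zero_left e1.symm, ← neg_smul, map_smul, smul_smul, pow_succ,
    mul_neg_one, neg_neg, ← pow_add, Even.neg_one_pow ⟨k, rfl⟩, one_smul]

theorem SMod.moore (X : SMod.{v} 𝕂) (m : ℕ)
    (h : ∀ x : X.obj (m + 1), (∀ i : Fin (m + 2), X.act i.succAbove x = 0) → X.IsBd x)
    (x : X.obj (m + 1)) (hx : X.d m x = 0) : X.IsBd x := by
  have key : ∀ k, k ≤ m + 1 → ∀ x : X.obj (m + 1), X.d m x = 0 →
      (∀ i, k < i → i ≤ m + 1 → X.act (dNSimp m i) x = 0) → X.IsBd x := by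
    intro k
    induction k with
    | zero =>
      intro _ x hx hf
      have h0 : X.act (dNSimp m 0) x = 0 := by
        rw [SMod.d_range_Simp, Finset.sum_range_succ', Finset.sum_eq_zero, zero_add, pow_zero,
          one_smul] at hx
        · exact hx
        · intro i hi
          rw [hf _ (by omega) (by have := Finset.mem_range.1 hi; omega), smul_zero]
      refine h x fun i => ?_
      rw [succAbove_eq_Simp]
      rcases Nat.eq_zero_or_pos i with h1 | h1
      · rw [h1, h0]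
      · exact hf _ h1 (by have := i.2; omega)
    | succ k ih =>
      intro hk x hx hf
      have hd := X.d_deg_Simp m k hk x hx hf
      obtain ⟨y, hy⟩ := ih (by omega) (x - X.act (sNSimp m k) (X.act (dNSimp m (k + 1)) x))
        (by rw [map_sub, hx, ← hd, X.d_d, sub_zero]) (by
          intro i hi hi'
          rw [map_sub, ← X.act_comp, ← X.act_comp]
          rcases Nat.lt_or_ge (k + 1) i with h1 | h1
          · obtain ⟨j, rfl⟩ : ∃ j, i = j + 1 := ⟨i - 1, by omega⟩
            rw [hf _ h1 hi', X.act_miss_Simp x j hi' (hf _ h1 hi'), sub_zero]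
            intro l
            have := l.2
            simp only [Function.comp, dNSimp_val, sNSimp_val]
            split_ifs <;> omega
          · obtain rfl : i = k + 1 := by omega
            rw [sub_eq_zero]
            congr 2
            funext l
            ext
            have := l.2
            simp only [Function.comp, dNSimp_val, sNSimp_val]
            split_ifs <;> omega)
      exact ⟨y + ((-1 : 𝕂) ^ k) • X.act (sNSimp (m + 1) (k + 1)) x,
        by rw [map_add, hy, hd, sub_add_cancel]⟩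
  exact key (m + 1) le_rfl x hx fun i h1 h2 => absurd h1 (by omega)

theorem SMod.isBd_const (X : SMod.{v} 𝕂) (c : ∀ m, X.obj m)
    (hc : ∀ {a b : ℕ} (f : Fin (a + 1) → Fin (b + 1)), X.act f (c b) = c a) (m : ℕ)
    (h : X.d m (c (m + 1)) = 0) : X.IsBd (c (m + 1)) := by
  have key : ∀ m, X.d m (c (m + 1)) = (if Even (m + 2) then (0 : 𝕂) else 1) • c m := by
    intro m
    rw [SMod.d_range_Simp, ← neg_one_geom_sum, Finset.sum_smul]
    exact Finset.sum_congr rfl fun i _ => by rw [hc]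
  by_cases hm : Even (m + 2)
  · refine ⟨c (m + 2), ?_⟩
    rw [key, if_neg, one_smul]
    rw [show m + 1 + 2 = m + 2 + 1 from rfl, Nat.even_add_one]
    exact not_not.2 hm
  · rw [key, if_neg hm, one_smul] at h
    exact ⟨0, by rw [map_zero, ← hc (fun _ => (0 : Fin (m + 1))), h, map_zero]⟩

/-- The function `t_{i+1} + ⋯ + t_{m+1}` on `Δ^{m+1}`. -/
def prismσ (O : Type u) [CommRing O] (m : ℕ) (i : Fin (m + 1)) : Base O (m + 1) :=
  ∑ l ∈ Finset.univ.filter (fun l : Fin (m + 2) => i.castSucc < l), bary O (m + 1) l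

/-- The prism operator of a homotopy. -/
def prismOp {O : Type u} [CommRing O] (X : SMod.{v} 𝕂) (Y : SMod.{v} 𝕂)
    (H : ∀ m, Base O m → X.obj m →ₗ[𝕂] Y.obj m) (m : ℕ) : X.obj m →ₗ[𝕂] Y.obj (m + 1) :=
  ∑ i : Fin (m + 1), ((-1 : 𝕂) ^ (i : ℕ)) • (H (m + 1) (prismσ O m i) ∘ₗ X.act i.predAbove)

theorem prismOp_apply {O : Type u} [CommRing O] (X : SMod.{v} 𝕂) (Y : SMod.{v} 𝕂)
    (H : ∀ m, Base O m → X.obj m →ₗ[𝕂] Y.obj m) (m : ℕ) (x : X.obj m) :
    prismOp X Y H m x = ∑ i : Fin (m + 1),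
      ((-1 : 𝕂) ^ (i : ℕ)) • H (m + 1) (prismσ O m i) (X.act i.predAbove x) := by
  simp only [prismOp, LinearMap.sum_apply, LinearMap.smul_apply, LinearMap.comp_apply]

/-- The function `t_k + ⋯ + t_a` on `Δ^a`. -/
def tauSimp (O : Type u) [CommRing O] (a k : ℕ) : Base O a :=
  ∑ l ∈ Finset.univ.filter (fun l : Fin (a + 1) => k ≤ (l : ℕ)), bary O a l

theorem prismσ_eq_Simp (O : Type u) [CommRing O] (m : ℕ) (i : Fin (m + 1)) :
    prismσ O m i = tauSimp O (m + 1) (i + 1) :=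
  Finset.sum_congr (Finset.filter_congr fun _ _ => Iff.rfl) fun _ _ => rfl

theorem tauSimp_zero (O : Type u) [CommRing O] (a : ℕ) : tauSimp O a 0 = 1 := by
  rw [tauSimp, Finset.filter_true_of_mem fun _ _ => Nat.zero_le _, sum_bary]

theorem tauSimp_top (O : Type u) [CommRing O] (a : ℕ) : tauSimp O a (a + 1) = 0 := by
  rw [tauSimp, Finset.filter_false_of_mem fun l _ => by have := l.2; omega, Finset.sum_empty]

theorem sm_tauSimp (O : Type u) [CommRing O] (a j i : ℕ) :
    sm O (dNSimp a j) (tauSimp O (a + 1) (i + 1)) = tauSimp O a (if j ≤ i then i else i + 1) := by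
  rw [tauSimp, tauSimp, map_sum]
  simp only [sm_bary]
  rw [← Finset.sum_fiberwise_of_maps_to
    (s := Finset.univ.filter fun l : Fin (a + 1) => (if j ≤ i then i else i + 1) ≤ (l : ℕ))
    (t := Finset.univ.filter fun l : Fin (a + 1 + 1) => i + 1 ≤ (l : ℕ)) (g := dNSimp a j)]
  · refine Finset.sum_congr rfl fun k hk => Finset.sum_congr ?_ fun _ _ => rfl
    ext l
    simp only [Finset.mem_filter, Finset.mem_univ, true_and] at hk ⊢
    refine ⟨fun h => ⟨?_, h⟩, fun h => h.2⟩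
    rw [← h, dNSimp_val] at hk
    split_ifs at hk ⊢ <;> omega
  · intro l hl
    simp only [Finset.mem_filter, Finset.mem_univ, true_and, dNSimp_val] at hl ⊢
    split_ifs at hl ⊢ <;> omega

theorem prismOp_range_Simp {O : Type u} [CommRing O] (X : SMod.{v} 𝕂) (Y : SMod.{v} 𝕂)
    (H : ∀ m, Base O m → X.obj m →ₗ[𝕂] Y.obj m) (m : ℕ) (x : X.obj m) :
    prismOp X Y H m x = ∑ i ∈ Finset.range (m + 1),
      ((-1 : 𝕂) ^ i) • H (m + 1) (tauSimp O (m + 1) (i + 1)) (X.act (sNSimp m i) x) := by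
  rw [prismOp_apply, ← Fin.sum_univ_eq_sum_range (fun i =>
    ((-1 : 𝕂) ^ i) • H (m + 1) (tauSimp O (m + 1) (i + 1)) (X.act (sNSimp m i) x)) (m + 1)]
  exact Finset.sum_congr rfl fun i _ => by rw [predAbove_eq_Simp, prismσ_eq_Simp]

theorem d_prismOp_Simp {O : Type u} [CommRing O] (X : SMod.{v} 𝕂) (Y : SMod.{v} 𝕂)
    (H : ∀ m, Base O m → X.obj m →ₗ[𝕂] Y.obj m)
    (hH : ∀ {a b : ℕ} (f : Fin (a + 1) → Fin (b + 1)) (σ : Base O b) (x : X.obj b),
      Y.act f (H b σ x) = H a (sm O f σ) (X.act f x)) (m : ℕ) (x : X.obj m) :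
    Y.d m (prismOp X Y H m x) = ∑ i ∈ Finset.range (m + 1), ∑ j ∈ Finset.range (m + 2),
      ((-1 : 𝕂) ^ (i + j)) • H m (tauSimp O m (if j ≤ i then i else i + 1))
        (X.act (sNSimp m i ∘ dNSimp m j) x) := by
  rw [prismOp_range_Simp, map_sum]
  refine Finset.sum_congr rfl fun i _ => ?_
  rw [map_smul, SMod.d_range_Simp, Finset.smul_sum]
  refine Finset.sum_congr rfl fun j _ => ?_
  rw [smul_smul, ← pow_add, hH, sm_tauSimp, X.act_comp]

theorem prism_ends_Simp {O : Type u} [CommRing O] (X : SMod.{v} 𝕂) (Y : SMod.{v} 𝕂)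
    (H : ∀ m, Base O m → X.obj m →ₗ[𝕂] Y.obj m) (m : ℕ) (x : X.obj m) :
    H m (tauSimp O m (if 0 ≤ 0 then 0 else 0 + 1)) (X.act (sNSimp m 0 ∘ dNSimp m 0) x) -
      H m (tauSimp O m (if m + 1 ≤ m then m else m + 1))
        (X.act (sNSimp m m ∘ dNSimp m (m + 1)) x) = H m 1 x - H m 0 x := by
  have a1 : sNSimp m 0 ∘ dNSimp m 0 = id := by
    funext l
    ext
    have := l.2
    simp only [Function.comp, dNSimp_val, sNSimp_val, id]
    split_ifs <;> omega
  have a2 : sNSimp m m ∘ dNSimp m (m + 1) = id := by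
    funext l
    ext
    have := l.2
    simp only [Function.comp, dNSimp_val, sNSimp_val, id]
    split_ifs <;> omega
  rw [a1, a2, X.act_id, if_pos le_rfl, if_neg (by omega), tauSimp_zero, tauSimp_top]

theorem prism_zero {O : Type u} [CommRing O] (X : SMod.{v} 𝕂) (Y : SMod.{v} 𝕂)
    (H : ∀ m, Base O m → X.obj m →ₗ[𝕂] Y.obj m)
    (hH : ∀ {a b : ℕ} (f : Fin (a + 1) → Fin (b + 1)) (σ : Base O b) (x : X.obj b),
      Y.act f (H b σ x) = H a (sm O f σ) (X.act f x)) (x : X.obj 0) :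
    Y.d 0 (prismOp X Y H 0 x) = H 0 1 x - H 0 0 x := by
  rw [d_prismOp_Simp X Y H hH, ← prism_ends_Simp X Y H 0 x,
    ← prism_sum_Simp (𝕂 := 𝕂) (fun i j => H 0 (tauSimp O 0 (if j ≤ i then i else i + 1))
      (X.act (sNSimp 0 i ∘ dNSimp 0 j) x)) (fun _ _ => 0) 0 (fun i hi => absurd hi (by omega))
      (fun i j hi => absurd hi (by omega)) (fun i j hi hj => absurd hi (by omega)),
    Finset.sum_range_zero, add_zero]

theorem prism_succ {O : Type u} [CommRing O] (X : SMod.{v} 𝕂) (Y : SMod.{v} 𝕂)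
    (H : ∀ m, Base O m → X.obj m →ₗ[𝕂] Y.obj m)
    (hH : ∀ {a b : ℕ} (f : Fin (a + 1) → Fin (b + 1)) (σ : Base O b) (x : X.obj b),
      Y.act f (H b σ x) = H a (sm O f σ) (X.act f x)) (m : ℕ) (x : X.obj (m + 1)) :
    Y.d (m + 1) (prismOp X Y H (m + 1) x) + prismOp X Y H m (X.d m x) =
      H (m + 1) 1 x - H (m + 1) 0 x := by
  rw [d_prismOp_Simp X Y H hH, ← prism_ends_Simp X Y H (m + 1) x,
    ← prism_sum_Simp (𝕂 := 𝕂)
      (fun i j => H (m + 1) (tauSimp O (m + 1) (if j ≤ i then i else i + 1))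
        (X.act (sNSimp (m + 1) i ∘ dNSimp (m + 1) j) x))
      (fun i j => H (m + 1) (tauSimp O (m + 1) (i + 1)) (X.act (dNSimp m j ∘ sNSimp m i) x))
      (m + 1)]
  · congr 1
    rw [prismOp_range_Simp]
    refine Finset.sum_congr rfl fun i _ => ?_
    rw [SMod.d_range_Simp, map_sum, map_sum, Finset.smul_sum]
    refine Finset.sum_congr rfl fun j _ => ?_
    rw [map_smul, map_smul, smul_smul, ← pow_add, X.act_comp]
  · intro i hi
    rw [if_pos le_rfl, if_neg (by omega)]
    congr 3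
    funext l
    ext
    have := l.2
    simp only [Function.comp, dNSimp_val, sNSimp_val]
    split_ifs <;> omega
  · intro i j hi hj
    rw [if_pos (by omega)]
    congr 3
    funext l
    ext
    have := l.2
    simp only [Function.comp, dNSimp_val, sNSimp_val]
    split_ifs <;> omega
  · intro i j hi hj
    rw [if_neg (by omega)]
    congr 3
    funext l
    ext
    have := l.2
    simp only [Function.comp, dNSimp_val, sNSimp_val]
    split_ifs <;> omega

theorem HT.isBd {H H' : RFun.{u} 𝕂} (φ : HT H H') (O : Type u) [CommRing O] (m : ℕ)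
    (s : Plus H (Base O (m + 1))) (hs : (plusS H O).d m s = 0) :
    (plusS H' O).IsBd (m := m + 1) (φ.plus _ 1 s - φ.plus _ 0 s) := by
  have h := prism_succ (O := O) (plusS H O) (plusS H' O) (fun m σ => φ.plus (Base O m) σ)
    (fun f σ x => (φ.plus_plusMap (smR O f) σ x).symm) m s
  rw [hs, map_zero, add_zero] at h
  exact ⟨_, h⟩

theorem double_complex (V : ℕ → ℕ → Type v) [∀ a b, AddCommGroup (V a b)]
    (dh : ∀ a b, V (a + 1) b →+ V a b) (dv : ∀ a b, V a (b + 1) →+ V a b)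
    (comm : ∀ a b x, dh a b (dv (a + 1) b x) = dv a b (dh a (b + 1) x))
    (hh : ∀ a b x, dh a b (dh (a + 1) b x) = 0) (vv : ∀ a b x, dv a b (dv a (b + 1) x) = 0)
    (row0 : ∀ b (x : V 0 b), ∃ y, dh 0 b y = x)
    (row : ∀ a b (x : V (a + 1) b), dh a b x = 0 → ∃ y, dh (a + 1) b y = x)
    (col0 : ∀ a (x : V (a + 1) 0), ∃ y, dv (a + 1) 0 y = x)
    (col : ∀ a b (x : V (a + 1) (b + 1)), dv (a + 1) b x = 0 → ∃ y, dv (a + 1) (b + 1) y = x)
    (b : ℕ) (x : V 0 (b + 1)) (hx : dv 0 b x = 0) : ∃ y, dv 0 (b + 1) y = x := by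
  have step : ∀ b, (∀ a (y : V (a + 1) (b + 1)) (y' : V (a + 1 + 1) b),
      dh (a + 1) b y' = dv (a + 1) b y → ∃ w', dv (a + 1) b (dh (a + 1) (b + 1) w') =
        dh (a + 1) b y') → ∀ a (y : V (a + 1) (b + 1)), dv a b (dh a (b + 1) y) = 0 →
      ∃ w, dv a (b + 1) (dh a (b + 1 + 1) w) = dh a (b + 1) y := by
    intro b hU a y hy
    obtain ⟨y', hy'⟩ := row a b (dv (a + 1) b y) (by rw [comm, hy])
    obtain ⟨w', hw'⟩ := hU a y y' hy'
    obtain ⟨w, hw⟩ := col a b (y - dh (a + 1) (b + 1) w') (by rw [map_sub, hw', hy', sub_self])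
    exact ⟨w, by rw [← comm, hw, map_sub, hh, sub_zero]⟩
  have main : ∀ b a (y : V (a + 1) (b + 1)), dv a b (dh a (b + 1) y) = 0 →
      ∃ w, dv a (b + 1) (dh a (b + 1 + 1) w) = dh a (b + 1) y := by
    intro b
    induction b with
    | zero =>
      refine step 0 fun a y y' _ => ?_
      obtain ⟨w', hw'⟩ := col0 (a + 1) y'
      exact ⟨w', by rw [← comm, hw']⟩
    | succ b ih => exact step (b + 1) fun a y y' h => ih (a + 1) y' (by rw [h, vv])
  obtain ⟨y, rfl⟩ := row0 (b + 1) x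
  obtain ⟨w, hw⟩ := main b 0 y hx
  exact ⟨_, hw⟩

end

end Pool.Agent.MP_e2821c_ag.Cy
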