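import Pool.Agent.Lib.MP_e2821c_ag.Cy.Place

namespace Pool.Agent.MP_e2821c_ag.Cy

open MvPolynomial
open scoped TensorProduct

universe u v w

noncomputable section

variable {k₀ K Ω : Type u} [CommRing k₀] [Field K] [CharZero K] [Field Ω] [Algebra K Ω]
  [Algebra.IsAlgebraic K Ω] [Algebra k₀ Ω] {A : ValuationSubring K} {π : K}
  {𝒪 : ValuationSubring Ω}

theorem ld_zpow {S Ω : Type*} [CommRing S] [Field Ω] [Algebra S Ω] (D : Derivation S Ω Ω) (x : Ω)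
    (n : ℤ) : D (x ^ n) / x ^ n = n * (D x / x) := by
  cases n with
  | ofNat n => simpa using CyV.ld_pow D x n
  | negSucc n => rw [zpow_negSucc, CyV.ld_inv, CyV.ld_pow, Int.cast_negSucc, neg_mul]

omit [Algebra.IsAlgebraic K Ω] in
theorem hn_of_rat (hQ : ∀ q : ℚ, (q : K) ∈ A) (h𝒪 : 𝒪.comap (algebraMap K Ω) = A) {o : CyV.Ord Ω}
    (h : ∀ x, x ∈ 𝒪 ↔ o.Ge 0 x) (n : ℕ) (hn : n ≠ 0) : ¬ o.Gt 0 (n : Ω) := by
  have : CharZero Ω := charZero_of_injective_algebraMap (algebraMap K Ω).injective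
  have h0 : (n : Ω) ≠ 0 := by exact_mod_cast hn
  have h1 := hQ (n : ℚ)⁻¹
  rw [← h𝒪, ValuationSubring.mem_comap, h, map_ratCast, Rat.cast_inv, Rat.cast_natCast] at h1
  have h2 := h1.le (inv_ne_zero h0)
  rw [o.v_inv _ h0] at h2
  exact fun h3 => by linarith [h3.lt h0]

theorem small_ext (hA : IsPlace A π) (hQ : ∀ q : ℚ, (q : K) ∈ A)
    (h𝒪 : 𝒪.comap (algebraMap K Ω) = A) (D : Derivation k₀ Ω Ω)
    (hD : ∀ a : K, D (algebraMap K Ω a) / algebraMap K Ω a ∈ 𝒪) (x : Ω) : D x / x ∈ 𝒪 := by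
  obtain ⟨o, -, h2, h3⟩ := hA.exists_ord h𝒪
  rw [h3]
  exact o.sd1' D (hn_of_rat hQ h𝒪 h3) h2 (fun a => (h3 _).mp (hD a)) x

theorem small_res (hA : IsPlace A π) (hQ : ∀ q : ℚ, (q : K) ∈ A)
    (h𝒪 : 𝒪.comap (algebraMap K Ω) = A) (D : Derivation k₀ Ω Ω)
    (hD : ∀ a : K, D (algebraMap K Ω a) / algebraMap K Ω a ∈ 𝒪)
    (hD' : ∀ a ∈ A, D (algebraMap K Ω a) ∈ 𝒪.nonunits) {ord : Additive Ωˣ →+ ℚ}
    (ho : IsOrd 𝒪 ord) (h1 : ∀ x : Ωˣ, (x : Ω) = algebraMap K Ω π → ord (Additive.ofMul x) = 1)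
    (x : Ωˣ) :
    D x / x - algebraMap K Ω (ord (Additive.ofMul x) : K) *
      (D (algebraMap K Ω π) / algebraMap K Ω π) ∈ 𝒪.nonunits := by
  obtain ⟨o, h0, h2, h3⟩ := hA.exists_ord h𝒪
  obtain ⟨o', a1, a2⟩ := CyV.Ord.exists_ofAdd 𝒪 ord ho
  have : CharZero Ω := charZero_of_injective_algebraMap (algebraMap K Ω).injective
  have hπ : algebraMap K Ω π ≠ 0 := by simpa using hA.ne
  have e : ord (Additive.ofMul x) = o.v x := by
    rw [← a1]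
    refine CyV.Ord.v_eq_of_ring (fun x => by rw [← h3, a2]) hπ (by rw [h0]; exact one_ne_zero) ?_
      x.ne_zero
    rw [h0, ← h1 (Units.mk0 _ hπ) rfl, ← a1]; rfl
  rw [CyV.Ord.mem_nonunits h3, map_ratCast, e]
  refine o.sd2' D (hn_of_rat hQ h𝒪 h3) h2 _ ((h3 _).mp (hD π)) (fun a ha => ?_) x.ne_zero
  obtain ⟨n, hn⟩ := h2 a ha
  have ha' : algebraMap K Ω a ≠ 0 := by simpa using ha
  have hu : algebraMap K Ω a / algebraMap K Ω π ^ n ≠ 0 := div_ne_zero ha' (zpow_ne_zero _ hπ)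
  have hv : o.v (algebraMap K Ω a / algebraMap K Ω π ^ n) = 0 := by
    rw [o.v_div _ _ ha' (zpow_ne_zero _ hπ), o.v_zpow _ hπ, hn, h0, mul_one, sub_self]
  have h4 := hD' (a / π ^ n) (by
    rw [← h𝒪, ValuationSubring.mem_comap, h3, map_div₀, map_zpow₀]; exact Or.inr hv.ge)
  rw [CyV.Ord.mem_nonunits h3, map_div₀, map_zpow₀] at h4
  rw [hn, Rat.cast_intCast, ← ld_zpow, ← CyV.ld_div D ha' (zpow_ne_zero _ hπ),
    CyV.Ord.gt_div_iff hu, hv, add_zero]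
  exact h4

end

end Pool.Agent.MP_e2821c_ag.Cy
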