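import Pool.Agent.Lib.MP_e2821c_ag.Cy.PlusB
import Pool.Agent.Lib.MP_e2821c_ag.Cy.P0Moore
import Pool.Agent.Lib.MP_e2821c_ag.Cy.Roots

namespace Pool.Agent.MP_e2821c_ag.Cy

open MvPolynomial
open scoped TensorProduct

universe u v w

noncomputable section

section Zigzag

variable {A : Type w} [CommRing A] {E : ℕ → ℕ → Type v} [∀ a b, AddCommGroup (E a b)]
  [∀ a b, Module A (E a b)]

/-- Cycles for the vertical differential. -/
def Cyc_step (dv : ∀ a b, E a (b + 1) →ₗ[A] E a b) (a : ℕ) : ∀ b, E a b → Prop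
  | 0, _ => True
  | b + 1, x => dv a b x = 0

/-- A double complex with exact rows all of whose columns retract to the first column, in a way
killed by the first horizontal differential, has an acyclic first column. -/
theorem zigzag_step (dh : ∀ a b, E (a + 1) b →ₗ[A] E a b) (dv : ∀ a b, E a (b + 1) →ₗ[A] E a b)
    (comm : ∀ a b x, dh a b (dv (a + 1) b x) = dv a b (dh a (b + 1) x))
    (hh : ∀ a b x, dh a b (dh (a + 1) b x) = 0) (vv : ∀ a b x, dv a b (dv a (b + 1) x) = 0)
    (row0 : ∀ b (x : E 0 b), ∃ y, dh 0 b y = x)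
    (row : ∀ a b (x : E (a + 1) b), dh a b x = 0 → ∃ y, dh (a + 1) b y = x)
    (c : ∀ a b, E 0 b →ₗ[A] E a b) (e : ∀ a b, E a b →ₗ[A] E 0 b)
    (hc : ∀ a b x, c a b (dv 0 b x) = dv a b (c a (b + 1) x))
    (he : ∀ a b x, e a b (dv a b x) = dv 0 b (e a (b + 1) x))
    (hc0 : ∀ b x, dh 0 b (c 1 b x) = 0)
    (col : ∀ a b (x : E a b), Cyc_step dv a b x → ∃ y, dv a b y = x - c a b (e a b x))
    (b : ℕ) (x : E 0 b) (hx : Cyc_step dv 0 b x) : ∃ y, dv 0 b y = x := by
  have hA : ∀ b, (∀ a (w : E (a + 1) b), Cyc_step dv a b (dh a b w) →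
      ∃ w', dh a b w' = dh a b w ∧ Cyc_step dv (a + 1) b w') →
      ∀ a (x : E a b), Cyc_step dv a b x → ∃ y, dv a b y = x := by
    intro b hR
    have h0 : ∀ x : E 0 b, Cyc_step dv 0 b x → ∃ y, dv 0 b y = x := by
      intro x hx
      obtain ⟨w, rfl⟩ := row0 b x
      obtain ⟨w', h1, h2⟩ := hR 0 w hx
      obtain ⟨y, hy⟩ := col 1 b w' h2
      exact ⟨dh 0 (b + 1) y, by rw [← comm, hy, map_sub, hc0, sub_zero, h1]⟩
    intro a x hx
    obtain ⟨y, hy⟩ := col a b x hx
    obtain ⟨z, hz⟩ := h0 (e a b x) (by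
      cases b with
      | zero => trivial
      | succ b =>
        change dv 0 b (e a (b + 1) x) = 0
        rw [← he, show dv a b x = 0 from hx, map_zero])
    exact ⟨y + c a (b + 1) z, by rw [map_add, hy, ← hc, hz, sub_add_cancel]⟩
  have hR : ∀ b a (w : E (a + 1) b), Cyc_step dv a b (dh a b w) →
      ∃ w', dh a b w' = dh a b w ∧ Cyc_step dv (a + 1) b w' := by
    intro b
    induction b with
    | zero => exact fun a w _ => ⟨w, rfl, trivial⟩
    | succ b ih =>
      intro a w hw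
      obtain ⟨u, hu⟩ := row a b (dv (a + 1) b w) (by rw [comm]; exact hw)
      obtain ⟨u', h1, h2⟩ := ih (a + 1) u (by
        rw [hu]
        cases b with
        | zero => trivial
        | succ b => exact vv _ _ _)
      obtain ⟨y, hy⟩ := hA b ih _ u' h2
      refine ⟨w - dh (a + 1) (b + 1) y, by rw [map_sub, hh, sub_zero], ?_⟩
      change dv (a + 1) b (w - dh (a + 1) (b + 1) y) = 0
      rw [map_sub, ← comm, hy, h1, hu, sub_self]
  exact hA b (hR b) 0 x hx

end Zigzag

variable {𝕂 : Type u} [Field 𝕂] [CharZero 𝕂]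

section Flat

variable {M : Type u} [AddCommGroup M] [Module 𝕂 M]

variable (𝕂 M) in
include 𝕂 in
theorem flat_step : Module.Flat ℤ M := by
  rw [IsDedekindDomain.flat_iff_torsion_eq_bot, eq_bot_iff]
  rintro m ⟨⟨r, hr⟩, h⟩
  have h1 : (r : 𝕂) • m = 0 := by
    rw [Int.cast_smul_eq_zsmul]
    exact h
  exact (smul_eq_zero.1 h1).resolve_left (Int.cast_ne_zero.2 (nonZeroDivisors.ne_zero hr))

omit [CharZero 𝕂] in
theorem tmapZ_eq_step {A A' : Type u} [AddCommGroup A] [AddCommGroup A'] (φ : A →+ A')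
    (w : M ⊗[ℤ] A) :
    tmapZ (LinearMap.id : M →ₗ[𝕂] M) φ w = LinearMap.lTensor M φ.toIntLinearMap w := by
  induction w using TensorProduct.induction_on with
  | zero => rw [map_zero, map_zero]
  | tmul a b => rfl
  | add a b ha hb => rw [map_add, map_add, ha, hb]

omit [CharZero 𝕂] in
theorem range_of_range_step {A A' C : Type u} [AddCommGroup A] [AddCommGroup A'] [AddCommGroup C]
    (ψ : A →+ A') (ρ : C →+ A') (h : ∀ y, ψ y ∈ ρ.range) (w : M ⊗[ℤ] A) :
    tmapZ (LinearMap.id : M →ₗ[𝕂] M) ψ w ∈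
      LinearMap.range (tmapZ (LinearMap.id : M →ₗ[𝕂] M) ρ) := by
  induction w using TensorProduct.induction_on with
  | zero => rw [map_zero]; exact zero_mem _
  | tmul a b =>
    obtain ⟨z, hz⟩ := h b
    exact ⟨a ⊗ₜ[ℤ] z, by rw [tmapZ_tmul, tmapZ_tmul, hz]⟩
  | add a b ha hb => rw [map_add]; exact add_mem ha hb

omit [CharZero 𝕂] in
theorem tmapZ_comp_step {A A' A'' : Type u} [AddCommGroup A] [AddCommGroup A'] [AddCommGroup A'']
    (φ : A →+ A') (ψ : A' →+ A'') (w : M ⊗[ℤ] A) :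
    tmapZ (LinearMap.id : M →ₗ[𝕂] M) ψ (tmapZ (LinearMap.id : M →ₗ[𝕂] M) φ w) =
      tmapZ (LinearMap.id : M →ₗ[𝕂] M) (ψ.comp φ) w := by
  induction w using TensorProduct.induction_on with
  | zero => rw [map_zero, map_zero, map_zero]
  | tmul a b => rfl
  | add a b ha hb => rw [map_add, map_add, map_add, ha, hb]

omit [CharZero 𝕂] in
theorem tmapZ_id_step {A : Type u} [AddCommGroup A] (φ : A →+ A) (h : ∀ y, φ y = y)
    (w : M ⊗[ℤ] A) : tmapZ (LinearMap.id : M →ₗ[𝕂] M) φ w = w := by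
  induction w using TensorProduct.induction_on with
  | zero => rw [map_zero]
  | tmul a b => rw [tmapZ_tmul, h, LinearMap.id_apply]
  | add a b ha hb => rw [map_add, ha, hb]

omit [CharZero 𝕂] in
theorem tmapZ_zero_step {A A' : Type u} [AddCommGroup A] [AddCommGroup A'] (φ : A →+ A')
    (h : ∀ y, φ y = 0) (w : M ⊗[ℤ] A) : tmapZ (LinearMap.id : M →ₗ[𝕂] M) φ w = 0 := by
  induction w using TensorProduct.induction_on with
  | zero => rw [map_zero]
  | tmul a b => rw [tmapZ_tmul, h, TensorProduct.tmul_zero]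
  | add a b ha hb => rw [map_add, ha, hb, add_zero]

theorem mem_range_step {A A' A'' C : Type u} [AddCommGroup A] [AddCommGroup A'] [AddCommGroup A'']
    [AddCommGroup C] (φ : A →+ A') (ψ : A →+ A'') (ρ : C →+ A'')
    (h : ∀ y, φ y = 0 → ψ y ∈ ρ.range) (w : M ⊗[ℤ] A)
    (hw : tmapZ (LinearMap.id : M →ₗ[𝕂] M) φ w = 0) :
    tmapZ (LinearMap.id : M →ₗ[𝕂] M) ψ w ∈
      LinearMap.range (tmapZ (LinearMap.id : M →ₗ[𝕂] M) ρ) := by
  have := flat_step 𝕂 M
  have h1 : Function.Exact φ.ker.subtype.toIntLinearMap φ.toIntLinearMap := fun y =>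
    ⟨fun hy => ⟨⟨y, hy⟩, rfl⟩, fun ⟨z, hz⟩ => hz ▸ z.2⟩
  rw [tmapZ_eq_step] at hw
  obtain ⟨w', rfl⟩ := (Module.Flat.lTensor_exact M h1 w).1 hw
  rw [← tmapZ_eq_step (𝕂 := 𝕂), tmapZ_comp_step]
  exact range_of_range_step (ψ.comp φ.ker.subtype) ρ (fun y => h y.1 y.2) w'

theorem injective_step {A A' : Type u} [AddCommGroup A] [AddCommGroup A'] (φ : A →+ A')
    (h : Function.Injective φ) (w : M ⊗[ℤ] A)
    (hw : tmapZ (LinearMap.id : M →ₗ[𝕂] M) φ w = 0) : w = 0 := by
  have := flat_step 𝕂 M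
  rw [tmapZ_eq_step] at hw
  exact Module.Flat.lTensor_preserves_injective_linearMap (M := M) φ.toIntLinearMap h
    (hw.trans (map_zero _).symm)

end Flat

section Bi

variable (H : RFun.{u} 𝕂) (P : AFun.{u})

theorem nat_act_step {a a' : ℕ} (f : Fin (a + 1) → Fin (a' + 1)) {B B' : Type u} [CommRing B]
    [CommRing B'] (g : B →+* B') (x : P.obj (Base B a')) :
    P.map (MvPolynomial.map g) (P.map (smR B f) x) =
      P.map (smR B' f) (P.map (MvPolynomial.map g) x) := by
  rw [← P.map_comp, ← P.map_comp]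
  congr 2
  exact RingHom.ext fun p => map_sm g f p

/-- The horizontal simplicial operators. -/
def actNT_step {a a' : ℕ} (f : Fin (a + 1) → Fin (a' + 1)) :
    NT (H.tensorZ (P.simplex a')) (H.tensorZ (P.simplex a)) :=
  H.whisker (P := P.simplex a') (P' := P.simplex a) (fun B => P.map (smR B f))
    fun g x => nat_act_step P f g x

/-- The horizontal differential. -/
def dNT_step (a : ℕ) : NT (H.tensorZ (P.simplex (a + 1))) (H.tensorZ (P.simplex a)) :=
  H.whisker (P := P.simplex (a + 1)) (P' := P.simplex a)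
    (fun B => ((P.ringS B).d a).toAddMonoidHom) fun {B B'} _ _ _ _ g x => by
      change P.map (MvPolynomial.map g) ((P.ringS B).d a x) =
        (P.ringS B').d a (P.map (MvPolynomial.map g) x)
      rw [SMod.d_apply, SMod.d_apply, map_sum]
      refine Finset.sum_congr rfl fun i _ => ?_
      rw [map_zsmul]
      exact congrArg _ (nat_act_step P _ g x)

/-- The contraction of the simplex to its first vertex. -/
def con_step (B : Type u) [CommRing B] (a : ℕ) (σ : B) : Base B a →+* Base B a :=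
  (aeval fun k : Fin a => C σ * X k : Base B a →ₐ[B] Base B a).toRingHom

theorem con_map_step {B B' : Type u} [CommRing B] [CommRing B'] (g : B →+* B') (a : ℕ) (σ : B) :
    (MvPolynomial.map g).comp (con_step B a σ) =
      (con_step B' a (g σ)).comp (MvPolynomial.map g) :=
  MvPolynomial.ringHom_ext (fun r => by simp [con_step]) fun k => by simp [con_step]

theorem con_one_step (B : Type u) [CommRing B] (a : ℕ) : con_step B a 1 = RingHom.id _ :=
  MvPolynomial.ringHom_ext (fun r => by simp [con_step]) fun k => by simp [con_step]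

theorem con_zero_step (B : Type u) [CommRing B] (a : ℕ) : con_step B a 0 =
    (smR B fun _ : Fin (a + 1) => (0 : Fin (0 + 1))).comp
      (smR B fun _ : Fin (0 + 1) => (0 : Fin (a + 1))) :=
  MvPolynomial.ringHom_ext (fun r => by simp [con_step, sm]) fun k => by
    simp [con_step, sm, (Fin.succ_ne_zero k).symm]

/-- The contraction as a natural homotopy. -/
def conHT_step (a : ℕ) : HT (H.tensorZ (P.simplex a)) (H.tensorZ (P.simplex a)) where
  app B _ _ σ := tmapZ LinearMap.id (P.map (con_step B a σ))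
  nat {B B'} _ _ _ _ g σ x := by
    change tmapZ (H.map g) (P.map (MvPolynomial.map g))
      (tmapZ LinearMap.id (P.map (con_step B a σ)) x) =
      tmapZ LinearMap.id (P.map (con_step B' a (g σ)))
        (tmapZ (H.map g) (P.map (MvPolynomial.map g)) x)
    induction x using TensorProduct.induction_on with
    | zero => simp only [map_zero]
    | tmul m y =>
      simp only [tmapZ_tmul, LinearMap.id_apply]
      rw [← P.map_comp, ← P.map_comp, con_map_step]
    | add x y hx hy => simp only [map_add, hx, hy]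

omit [CharZero 𝕂] in
theorem conHT_one_step (a : ℕ) (R : Type u) [CommRing R] (s : Plus (H.tensorZ (P.simplex a)) R) :
    (conHT_step H P a).plus R 1 s = s :=
  Plus.ext fun p => by
    change tmapZ LinearMap.id (P.map (con_step p.B a (p.ι 1))) (s.1 p) = s.1 p
    rw [map_one, con_one_step]
    exact tmapZ_id_step _ (P.map_id _) _

omit [CharZero 𝕂] in
theorem conHT_zero_step (a : ℕ) (R : Type u) [CommRing R] (s : Plus (H.tensorZ (P.simplex a)) R) :
    (conHT_step H P a).plus R 0 s =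
      (actNT_step H P fun _ : Fin (a + 1) => (0 : Fin (0 + 1))).plus R
        ((actNT_step H P fun _ : Fin (0 + 1) => (0 : Fin (a + 1))).plus R s) :=
  Plus.ext fun p => by
    change tmapZ LinearMap.id (P.map (con_step p.B a (p.ι 0))) (s.1 p) =
      tmapZ LinearMap.id (P.map (smR p.B _)) (tmapZ LinearMap.id (P.map (smR p.B _)) (s.1 p))
    rw [map_zero, con_zero_step, tmapZ_comp_step]
    congr 2
    exact AddMonoidHom.ext fun y => P.map_comp _ _ y

variable {H P}

theorem acyclic_step (hH : H.Finitary) (hP : ∀ a, (P.simplex a).Finitary)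
    (h0 : ∀ (B : Type u) [CommRing B] [IsDomain B] (x : (P.ringS B).obj 0), (P.ringS B).IsBd x)
    (h1 : ∀ (B : Type u) [CommRing B] [IsDomain B] (a : ℕ) (x : (P.ringS B).obj (a + 1)),
      (P.ringS B).d a x = 0 → (P.ringS B).IsBd x)
    (O : Type u) [Field O] [CharZero O] (j : ℕ)
    (s : Plus (H.tensorZ (P.simplex 0)) (Base O (j + 1)))
    (hs : (plusS (H.tensorZ (P.simplex 0)) O).d j s = 0) :
    (plusS (H.tensorZ (P.simplex 0)) O).IsBd (m := j + 1) s := by
  refine zigzag_step (A := 𝕂) (E := fun a b => Plus (H.tensorZ (P.simplex a)) (Base O b))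
    (fun a b => (dNT_step H P a).plus _) (fun a b => (plusS (H.tensorZ (P.simplex a)) O).d b)
    (fun a b x => (dNT_step H P a).plus_d O b x) (fun a b x => ?_)
    (fun a b x => (plusS (H.tensorZ (P.simplex a)) O).d_d b x) (fun b x => ?_) (fun a b x hx => ?_)
    (fun a b => (actNT_step H P fun _ : Fin (a + 1) => (0 : Fin (0 + 1))).plus _)
    (fun a b => (actNT_step H P fun _ : Fin (0 + 1) => (0 : Fin (a + 1))).plus _)
    (fun a b x => NT.plus_d _ O b x) (fun a b x => NT.plus_d _ O b x) (fun b x => ?_)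
    (fun a b x hx => ?_) (j + 1) s hs
  · refine Plus.ext fun p => ?_
    refine (tmapZ_comp_step _ _ (x.1 p)).trans (tmapZ_zero_step _ (fun y => ?_) _)
    exact (P.ringS p.B).d_d a y
  · refine exists_plus_of_range (dNT_step H P 0) (finitary_tensorZ 𝕂 hH (hP 1)) x ?_
    have h2 := range_of_range_step (𝕂 := 𝕂) (AddMonoidHom.id _)
      ((P.ringS (AC (Base O b))).d 0).toAddMonoidHom (fun y => h0 _ y) (x.1 (ac (Base O b)))
    rwa [tmapZ_id_step _ fun _ => rfl] at h2
  · refine exists_plus_of_range (dNT_step H P (a + 1)) (finitary_tensorZ 𝕂 hH (hP (a + 2))) x ?_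
    have h2 := mem_range_step (𝕂 := 𝕂) ((P.ringS (AC (Base O b))).d a).toAddMonoidHom
      (AddMonoidHom.id _) ((P.ringS (AC (Base O b))).d (a + 1)).toAddMonoidHom
      (fun y hy => h1 _ a y hy) (x.1 (ac (Base O b))) (congrArg (fun t => t.1 (ac (Base O b))) hx)
    rwa [tmapZ_id_step _ fun _ => rfl] at h2
  · refine Plus.ext fun p => ?_
    refine (tmapZ_comp_step _ _ (x.1 p)).trans (tmapZ_zero_step _ (fun y => ?_) _)
    change (P.ringS p.B).d 0 ((P.ringS p.B).act (fun _ : Fin (1 + 1) => (0 : Fin (0 + 1))) y) = 0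
    rw [SMod.d_apply, Fin.sum_univ_two, ← SMod.act_comp, ← SMod.act_comp]
    simp [Function.comp_def]
  · rw [← conHT_zero_step]
    cases b with
    | zero =>
      have h2 := prism_zero (plusS (H.tensorZ (P.simplex a)) O) (plusS (H.tensorZ (P.simplex a)) O)
        (fun m σ => (conHT_step H P a).plus (Base O m) σ)
        (fun f σ y => (HT.plus_plusMap _ (smR O f) σ y).symm) x
      rw [conHT_one_step] at h2
      exact ⟨_, h2⟩
    | succ b =>
      have h2 := (conHT_step H P a).isBd O b x hx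
      rwa [conHT_one_step] at h2

end Bi

theorem pz_acyclic {H : RFun.{u} 𝕂} (hH : H.Finitary) (O : Type u) [Field O] [CharZero O] (j : ℕ)
    (s : Plus (H.tensorZ (PZ.simplex 0)) (Base O (j + 1)))
    (hs : (plusS (H.tensorZ (PZ.simplex 0)) O).d j s = 0) :
    (plusS (H.tensorZ (PZ.simplex 0)) O).IsBd (m := j + 1) s :=
  acyclic_step hH pz_finitary pz_exact_zero pz_exact O j s hs

theorem lin_idem_step {B : Type u} [CommRing B] (y : FreeAbelianGroup Bˣ) :
    linZ B (idemZ B y) = linZ B y ∧ augZ B (idemZ B y) = 0 := by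
  induction y using FreeAbelianGroup.induction_on with
  | zero => simp
  | of x => simp [idemZ, linZ, augZ]
  | neg x hx => rw [map_neg, map_neg, map_neg, map_neg, hx.1, hx.2, neg_zero]; exact ⟨rfl, rfl⟩
  | add a b ha hb =>
    rw [map_add, map_add, map_add, map_add, ha.1, ha.2, hb.1, hb.2, add_zero]
    exact ⟨rfl, rfl⟩

theorem step {H : RFun.{u} 𝕂} (hH : H.Finitary) (O : Type u) [Field O] [CharZero O] (j : ℕ)
    (s : Plus (H.tensorZ ZU) (Base O (j + 1))) (hs : (plusS (H.tensorZ ZU) O).d j s = 0)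
    (hb : (plusS (H.tensorZ AU) O).IsBd (m := j + 1) ((linNT H).plus _ s)) :
    (plusS (H.tensorZ ZU) O).IsBd (m := j + 1) ((idemNT H).plus _ s) := by
  obtain ⟨ρ, hρ, hρ'⟩ := exists_roots.{u}
  obtain ⟨t, ht⟩ := hb
  obtain ⟨t, rfl⟩ := exists_plus_of_range (linNT H) (finitary_tensorZ 𝕂 hH finitary_ZU) t (by
    have h2 := range_of_range_step (𝕂 := 𝕂) (AddMonoidHom.id _) (linZ (AC (Base O (j + 2))))
      (fun y => ⟨FreeAbelianGroup.of y.toMul, by simp [linZ]⟩) (t.1 (ac _))
    rwa [tmapZ_id_step _ fun _ => rfl] at h2)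
  have h1 : (linNT H).plus _ (s - (plusS (H.tensorZ ZU) O).d (j + 1) t) = 0 := by
    rw [map_sub, NT.plus_d, ht, sub_self]
  obtain ⟨v, hv⟩ := exists_plus_of_range (H.whisker ρ hρ)
    (finitary_tensorZ 𝕂 hH (pz_finitary 0))
    ((idemNT H).plus _ (s - (plusS (H.tensorZ ZU) O).d (j + 1) t))
    (mem_range_step (𝕂 := 𝕂) (linZ _) (idemZ _) (ρ (AC (Base O (j + 1))))
      (fun y hy => ((hρ' _).2 _).2 ⟨(lin_idem_step y).1.trans hy, (lin_idem_step y).2⟩) _
      (congrArg (fun t => t.1 (ac (Base O (j + 1)))) h1))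
  have h2 : (H.whisker ρ hρ).plus _ ((plusS (H.tensorZ (PZ.simplex 0)) O).d j v) = 0 := by
    rw [NT.plus_d, hv, ← NT.plus_d, map_sub, hs, SMod.d_d, sub_self, map_zero]
  obtain ⟨y, hy⟩ := pz_acyclic hH O j v (Plus.ext fun p =>
    injective_step (𝕂 := 𝕂) (ρ p.B) (hρ' _).1 _ (congrArg (fun t => t.1 p) h2))
  refine ⟨(H.whisker ρ hρ).plus _ y + (idemNT H).plus _ t, ?_⟩
  rw [map_add, ← NT.plus_d, ← NT.plus_d, hy, hv, map_sub, sub_add_cancel]

end

end Pool.Agent.MP_e2821c_ag.Cy
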