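import Pool.Agent.Lib.MP_e2821c_ag.Cy.ToLine
import Pool.Agent.Lib.MP_e2821c_ag.Cy.Pencil
import Pool.Agent.Lib.MP_e2821c_ag.Cy.PolyLemma

namespace Pool.Agent.MP_e2821c_ag.Cy

open MvPolynomial
open scoped TensorProduct

universe u v w

noncomputable section

section OrdF

variable {Ω : Type u} [Field Ω]

open Classical in
/-- The order function on field elements, with junk value `0` at `0`. -/
def ordF_TwoPencils (ord : Additive Ωˣ →+ ℚ) (x : Ω) : ℚ :=
  if h : x = 0 then 0 else ord (Additive.ofMul (Units.mk0 x h))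

theorem ordF_units_TwoPencils (ord : Additive Ωˣ →+ ℚ) (x : Ωˣ) :
    ordF_TwoPencils ord (x : Ω) = ord (Additive.ofMul x) := by
  rw [ordF_TwoPencils, dif_neg x.ne_zero, Units.mk0_val]

theorem ordF_mul_TwoPencils (ord : Additive Ωˣ →+ ℚ) {x y : Ω} (hx : x ≠ 0) (hy : y ≠ 0) :
    ordF_TwoPencils ord (x * y) = ordF_TwoPencils ord x + ordF_TwoPencils ord y := by
  lift x to Ωˣ using hx.isUnit
  lift y to Ωˣ using hy.isUnit
  rw [← Units.val_mul, ordF_units_TwoPencils, ordF_units_TwoPencils, ordF_units_TwoPencils,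
    ofMul_mul, map_add]

theorem ordF_one_TwoPencils (ord : Additive Ωˣ →+ ℚ) : ordF_TwoPencils ord 1 = 0 := by
  rw [← Units.val_one, ordF_units_TwoPencils, ofMul_one, map_zero]

theorem ordF_pow_TwoPencils (ord : Additive Ωˣ →+ ℚ) {x : Ω} (hx : x ≠ 0) (n : ℕ) :
    ordF_TwoPencils ord (x ^ n) = n * ordF_TwoPencils ord x := by
  induction n with
  | zero => simp [ordF_one_TwoPencils]
  | succ n ih =>
    rw [pow_succ, ordF_mul_TwoPencils ord (pow_ne_zero n hx) hx, ih]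
    push_cast
    ring

theorem ordF_inv_TwoPencils (ord : Additive Ωˣ →+ ℚ) {x : Ω} (hx : x ≠ 0) :
    ordF_TwoPencils ord x⁻¹ = -ordF_TwoPencils ord x := by
  have h := ordF_mul_TwoPencils ord hx (inv_ne_zero hx)
  rw [mul_inv_cancel₀ hx, ordF_one_TwoPencils] at h
  linarith

theorem ordF_div_TwoPencils (ord : Additive Ωˣ →+ ℚ) {x y : Ω} (hx : x ≠ 0) (hy : y ≠ 0) :
    ordF_TwoPencils ord (x / y) = ordF_TwoPencils ord x - ordF_TwoPencils ord y := by
  rw [div_eq_mul_inv, ordF_mul_TwoPencils ord hx (inv_ne_zero hy), ordF_inv_TwoPencils ord hy]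
  ring

theorem mem_iff_TwoPencils {𝒪 : ValuationSubring Ω} {ord : Additive Ωˣ →+ ℚ} (ho : IsOrd 𝒪 ord)
    {x : Ω} (hx : x ≠ 0) : x ∈ 𝒪 ↔ 0 ≤ ordF_TwoPencils ord x := by
  lift x to Ωˣ using hx.isUnit
  rw [ordF_units_TwoPencils]
  exact ho x

theorem mem_nonunits_iff_TwoPencils {𝒪 : ValuationSubring Ω} {ord : Additive Ωˣ →+ ℚ}
    (ho : IsOrd 𝒪 ord) {x : Ω} (hx : x ≠ 0) :
    x ∈ 𝒪.nonunits ↔ 0 < ordF_TwoPencils ord x := by
  lift x to Ωˣ using hx.isUnit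
  rw [ordF_units_TwoPencils]
  exact ho.mem_nonunits x

end OrdF

variable {k : Type u} [Field k] [CharZero k] [IsAlgClosed k] {m : ℕ}

omit [CharZero k] [IsAlgClosed k] in
theorem alg_injective_TwoPencils :
    Function.Injective (algebraMap (Base k m) (Omm k m)) := by
  rw [IsScalarTower.algebraMap_eq (Base k m) (Km k m) (Omm k m), RingHom.coe_comp]
  exact (algebraMap (Km k m) (Omm k m)).injective.comp (IsFractionRing.injective _ _)

omit [CharZero k] [IsAlgClosed k] in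
theorem alg_ne_zero_TwoPencils {p : Base k m} (hp : p ≠ 0) :
    algebraMap (Base k m) (Omm k m) p ≠ 0 :=
  (map_ne_zero_iff _ alg_injective_TwoPencils).2 hp

omit [CharZero k] [IsAlgClosed k] in
theorem alg_C_TwoPencils (c : k) :
    algebraMap (Base k m) (Omm k m) (C c) = algebraMap k (Omm k m) c :=
  (IsScalarTower.algebraMap_apply k (Base k m) (Omm k m) c).symm

omit [CharZero k] [IsAlgClosed k] in
theorem vB_iB_TwoPencils (p : Base k m) :
    vB k m (iB k m p) = algebraMap (Base k m) (Omm k m) p := rfl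

omit [CharZero k] [IsAlgClosed k] in
theorem vB_cB_TwoPencils (c : k) : vB k m (cB k m c) = algebraMap k (Omm k m) c :=
  alg_C_TwoPencils c

omit [CharZero k] [IsAlgClosed k] in
theorem vB_injective_TwoPencils : Function.Injective (vB k m) := Subtype.val_injective

omit [CharZero k] [IsAlgClosed k] in
theorem iB_injective_TwoPencils : Function.Injective (iB k m) :=
  FaithfulSMul.algebraMap_injective _ _

omit [CharZero k] [IsAlgClosed k] in
theorem gal_alg_TwoPencils (σ : Omm k m ≃ₐ[Km k m] Omm k m) (p : Base k m) :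
    σ (algebraMap (Base k m) (Omm k m) p) = algebraMap (Base k m) (Omm k m) p := by
  rw [IsScalarTower.algebraMap_apply (Base k m) (Km k m) (Omm k m), AlgEquiv.commutes]

omit [CharZero k] [IsAlgClosed k] in
theorem gal_const_TwoPencils (σ : Omm k m ≃ₐ[Km k m] Omm k m) (c : k) :
    σ (algebraMap k (Omm k m) c) = algebraMap k (Omm k m) c := by
  rw [← alg_C_TwoPencils, gal_alg_TwoPencils]

omit [IsAlgClosed k] in
theorem gal_ell_TwoPencils (i : Fin m) (σ : Omm k m ≃ₐ[Km k m] Omm k m) (u : Uo k (Omm k m)) :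
    σ (ell k (Dm k m i) u) = ell k (Dm k m i) (Umap k (σ : Omm k m →+* Omm k m) u) := by
  induction u using TensorProduct.induction_on with
  | zero => simp
  | tmul c x =>
    rw [Umap_tmul, ell_tmul, ell_tmul, Algebra.smul_def, Algebra.smul_def, map_mul,
      gal_const_TwoPencils, map_div₀, ← Dm_gal]
    rfl
  | add a b ha hb => rw [map_add, map_add, map_add, map_add, ha, hb]

omit [CharZero k] [IsAlgClosed k] in
theorem ord_eq_of_deg_TwoPencils {𝒪 : ValuationSubring (Omm k m)}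
    {ord : Additive (Omm k m)ˣ →+ ℚ} (h𝒪 : IsInf 𝒪) (ho : IsOrd 𝒪 ord) {p q : Base k m}
    (hp : p ≠ 0) (hq : q ≠ 0) (h : p.totalDegree = q.totalDegree) :
    ordF_TwoPencils ord (algebraMap (Base k m) (Omm k m) p) =
      ordF_TwoPencils ord (algebraMap (Base k m) (Omm k m) q) := by
  have hp' := alg_ne_zero_TwoPencils hp
  have hq' := alg_ne_zero_TwoPencils hq
  have h1 := (h𝒪 p q hq).2 h.le
  have h2 := (h𝒪 q p hp).2 h.ge
  rw [mem_iff_TwoPencils ho (div_ne_zero hp' hq'), ordF_div_TwoPencils ord hp' hq'] at h1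
  rw [mem_iff_TwoPencils ho (div_ne_zero hq' hp'), ordF_div_TwoPencils ord hq' hp'] at h2
  linarith

omit [CharZero k] [IsAlgClosed k] in
theorem ord_poly_TwoPencils {𝒪 : ValuationSubring (Omm k 1)}
    {ord : Additive (Omm k 1)ˣ →+ ℚ} (h𝒪 : IsInf 𝒪) (ho : IsOrd 𝒪 ord)
    (h1 : ordF_TwoPencils ord (algebraMap (Base k 1) (Omm k 1) (X0 k)) = -1) {p : Base k 1}
    (hp : p ≠ 0) :
    ordF_TwoPencils ord (algebraMap (Base k 1) (Omm k 1) p) = -(p.totalDegree : ℚ) := by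
  have hX : X0 k ≠ 0 := X_ne_zero _
  rw [ord_eq_of_deg_TwoPencils h𝒪 ho hp (pow_ne_zero p.totalDegree hX)
    (totalDegree_X_pow (0 : Fin 1) p.totalDegree).symm, map_pow,
    ordF_pow_TwoPencils ord (alg_ne_zero_TwoPencils hX), h1]
  ring

omit [CharZero k] [IsAlgClosed k] in
theorem deg_lin_TwoPencils (b : k) : (X0 k - C b).totalDegree = 1 := by
  have h : (X0 k).totalDegree = 1 := totalDegree_X _
  rw [sub_eq_add_neg, totalDegree_add_eq_left_of_totalDegree_lt, h]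
  rw [totalDegree_neg, totalDegree_C, h]
  exact one_pos

omit [CharZero k] [IsAlgClosed k] in
theorem lin_ne_zero_TwoPencils (b : k) : X0 k - C b ≠ 0 := by
  intro h
  have := deg_lin_TwoPencils b
  rw [h, totalDegree_zero] at this
  exact zero_ne_one this

omit [CharZero k] [IsAlgClosed k] in
theorem deg_pow_TwoPencils (b : k) (n : ℕ) : ((X0 k - C b) ^ n).totalDegree = n := by
  induction n with
  | zero => simp
  | succ n ih =>
    rw [pow_succ, totalDegree_mul_of_isDomain (pow_ne_zero n (lin_ne_zero_TwoPencils b))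
      (lin_ne_zero_TwoPencils b), ih, deg_lin_TwoPencils]

omit [CharZero k] [IsAlgClosed k] in
theorem prod_ne_zero_TwoPencils (S : Finset k) (e : k → ℕ) :
    (∏ b ∈ S, (X0 k - C b) ^ e b) ≠ 0 :=
  Finset.prod_ne_zero_iff.2 fun b _ => pow_ne_zero _ (lin_ne_zero_TwoPencils b)

omit [CharZero k] [IsAlgClosed k] in
theorem deg_prod_TwoPencils (S : Finset k) (e : k → ℕ) :
    (∏ b ∈ S, (X0 k - C b) ^ e b).totalDegree = ∑ b ∈ S, e b := by
  classical
  induction S using Finset.induction_on with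
  | empty => simp
  | insert a S ha ih =>
    rw [Finset.prod_insert ha, Finset.sum_insert ha, totalDegree_mul_of_isDomain
      (pow_ne_zero _ (lin_ne_zero_TwoPencils a)) (prod_ne_zero_TwoPencils S e), ih,
      deg_pow_TwoPencils]

omit [CharZero k] in
theorem factor_TwoPencils {P : Base k 1} (hP : P ≠ 0) :
    ∃ (c : k) (T : Finset k) (n : k → ℕ), P = C c * ∏ b ∈ T, (X0 k - C b) ^ n b := by
  classical
  set φ := (uniqueAlgEquiv k (Fin 1)).symm with hφ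
  obtain ⟨Q, rfl⟩ := φ.surjective P
  have hX : φ Polynomial.X = X0 k := by
    rw [hφ, uniqueAlgEquiv_symm_apply, Polynomial.eval₂_X]
    rfl
  have hC : ∀ c : k, φ (Polynomial.C c) = C c := fun c => φ.commutes c
  refine ⟨Q.leadingCoeff, Q.roots.toFinset, fun b => Q.roots.count b, ?_⟩
  conv_lhs => rw [← Polynomial.C_leadingCoeff_mul_prod_multiset_X_sub_C
    (IsAlgClosed.card_roots_eq_natDegree (p := Q)), Finset.prod_multiset_map_count]
  rw [map_mul, hC, map_prod]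
  congr 1
  refine Finset.prod_congr rfl fun b _ => ?_
  rw [map_pow, map_sub, hX, hC]

omit [CharZero k] in
theorem reduce_TwoPencils {P : Base k 1} (hP : P ≠ 0) {N : ℕ} (hN : 0 < N) :
    ∃ (Q : Base k 1) (S : Finset k) (e : k → ℕ), Q ≠ 0 ∧ (∀ b ∈ S, 0 < e b ∧ e b < N) ∧
      P = Q ^ N * ∏ b ∈ S, (X0 k - C b) ^ e b := by
  classical
  obtain ⟨c, T, n, h⟩ := factor_TwoPencils hP
  obtain ⟨d, hd⟩ := IsAlgClosed.exists_pow_nat_eq c hN
  have key : P = (C d * ∏ b ∈ T, (X0 k - C b) ^ (n b / N)) ^ N *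
      ∏ b ∈ T.filter (fun b => n b % N ≠ 0), (X0 k - C b) ^ (n b % N) := by
    rw [Finset.prod_filter_of_ne, mul_pow, ← C_pow, hd, ← Finset.prod_pow, mul_assoc,
      ← Finset.prod_mul_distrib, h]
    · congr 1
      refine Finset.prod_congr rfl fun b _ => ?_
      rw [← pow_mul, ← pow_add, Nat.div_add_mod']
    · intro b _ hb h0
      rw [h0, pow_zero] at hb
      exact hb rfl
  refine ⟨_, T.filter (fun b => n b % N ≠ 0), fun b => n b % N, ?_, ?_, key⟩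
  · intro h0
    rw [h0, zero_pow hN.ne', zero_mul] at key
    exact hP key
  · intro b hb
    exact ⟨Nat.pos_of_ne_zero (Finset.mem_filter.1 hb).2, Nat.mod_lt _ hN⟩

/-- A semi-invariant of integral order. -/
def Semi_TwoPencils (ord : Additive (Omm k 1)ˣ →+ ℚ) (ψ : Gm k 1 →* kˣ) (w : Omm k 1) : Prop :=
  w ≠ 0 ∧ (∃ z : ℤ, ordF_TwoPencils ord w = z) ∧
    ∀ (g : Gm k 1) (σ : Omm k 1 ≃ₐ[Km k 1] Omm k 1), (∀ x : Bm k 1, σ (vB k 1 x) = vB k 1 (g x)) →
      σ w = algebraMap k (Omm k 1) (ψ g) * w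

theorem semi_of_eig_TwoPencils {𝒪 : ValuationSubring (Omm k 1)}
    {ord : Additive (Omm k 1)ˣ →+ ℚ} (h𝒪 : IsInf 𝒪) (ho : IsOrd 𝒪 ord)
    (h1 : ∀ x : (Omm k 1)ˣ, (x : Omm k 1) = algebraMap (Base k 1) (Omm k 1) (X0 k) →
      ord (Additive.ofMul x) = -1) {χ : Gm k 1 →* kˣ} (hχ : χ ≠ 1) {u : Uo k (Bm k 1)}
    (hu : u ≠ 0) (h : Eig χ u) :
    Semi_TwoPencils ord χ (ell k (Dm k 1 0) (Umap k (vB k 1) u)) := by
  set w := ell k (Dm k 1 0) (Umap k (vB k 1) u) with hw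
  have hc := ord_ne_zero h𝒪 ho h hχ hu
  have hn := ell_line h𝒪 ho h1 (Umap k (vB k 1) u)
  rw [← hw] at hn
  set c := ordK k ord (Umap k (vB k 1) u)
  have hX : X0 k ≠ 0 := X_ne_zero _
  have hX' := alg_ne_zero_TwoPencils hX
  have h1' : ordF_TwoPencils ord (algebraMap (Base k 1) (Omm k 1) (X0 k)) = -1 := by
    have := h1 (Units.mk0 _ hX') rfl
    rwa [← ordF_units_TwoPencils] at this
  have hc0 : algebraMap k (Omm k 1) c ≠ 0 := (map_ne_zero _).2 hc
  have hcord : ordF_TwoPencils ord (algebraMap k (Omm k 1) c) = 0 := by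
    rw [← alg_C_TwoPencils, ord_poly_TwoPencils h𝒪 ho h1' (C_ne_zero.2 hc), totalDegree_C]
    simp
  have hcO : algebraMap k (Omm k 1) c ∈ 𝒪 := (mem_iff_TwoPencils ho hc0).2 hcord.ge
  have hcn : algebraMap k (Omm k 1) c ∉ 𝒪.nonunits := by
    rw [mem_nonunits_iff_TwoPencils ho hc0, hcord]
    exact lt_irrefl _
  have hXn : algebraMap (Base k 1) (Omm k 1) (X0 k) * w ∉ 𝒪.nonunits := by
    intro h'
    have := sub_mem hn h'
    rw [add_sub_cancel_left] at this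
    exact hcn this
  have hXO : algebraMap (Base k 1) (Omm k 1) (X0 k) * w ∈ 𝒪 := by
    have := 𝒪.toSubring.sub_mem (𝒪.nonunits_subset hn) hcO
    rwa [add_sub_cancel_right] at this
  have hw0 : w ≠ 0 := by
    intro h0
    rw [h0, mul_zero] at hXn
    exact hXn (zero_mem _)
  refine ⟨hw0, ⟨1, ?_⟩, fun g σ hσ => ?_⟩
  · rw [mem_iff_TwoPencils ho (mul_ne_zero hX' hw0), ordF_mul_TwoPencils ord hX' hw0, h1'] at hXO
    rw [mem_nonunits_iff_TwoPencils ho (mul_ne_zero hX' hw0), ordF_mul_TwoPencils ord hX' hw0,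
      h1', not_lt] at hXn
    push_cast
    linarith
  · have hcomp : (σ : Omm k 1 →+* Omm k 1).comp (vB k 1) =
        (vB k 1).comp (g : Bm k 1 →+* Bm k 1) := RingHom.ext hσ
    rw [hw, gal_ell_TwoPencils, ← Umap_comp, hcomp, Umap_comp, h g, map_smul, map_smul,
      Algebra.smul_def]

theorem semi_of_belongs_TwoPencils {𝒪 : ValuationSubring (Omm k 1)}
    {ord : Additive (Omm k 1)ˣ →+ ℚ} (h𝒪 : IsInf 𝒪) (ho : IsOrd 𝒪 ord)
    (h1 : ∀ x : (Omm k 1)ˣ, (x : Omm k 1) = algebraMap (Base k 1) (Omm k 1) (X0 k) →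
      ord (Additive.ofMul x) = -1) {f : Base k 1} {ψ : Gm k 1 →* kˣ} (hψ : Belongs f ψ) :
    ∃ w, Semi_TwoPencils ord ψ w := by
  have hone : Semi_TwoPencils ord (1 : Gm k 1 →* kˣ) 1 :=
    ⟨one_ne_zero, ⟨0, by rw [ordF_one_TwoPencils]; simp⟩, fun g σ _ => by simp⟩
  induction hψ using Subgroup.closure_induction with
  | mem χ hχ =>
    obtain ⟨u, hu, he, -⟩ := hχ
    by_cases h : χ = 1
    · exact ⟨1, h ▸ hone⟩
    · exact ⟨_, semi_of_eig_TwoPencils h𝒪 ho h1 h hu he⟩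
  | one => exact ⟨1, hone⟩
  | mul χ χ' _ _ ih ih' =>
    obtain ⟨w, hw, ⟨z, hz⟩, hs⟩ := ih
    obtain ⟨w', hw', ⟨z', hz'⟩, hs'⟩ := ih'
    refine ⟨w * w', mul_ne_zero hw hw', ⟨z + z', ?_⟩, fun g σ hσ => ?_⟩
    · rw [ordF_mul_TwoPencils ord hw hw', hz, hz']
      push_cast
      rfl
    · rw [map_mul, hs g σ hσ, hs' g σ hσ, MonoidHom.mul_apply, Units.val_mul, map_mul]
      ring
  | inv χ _ ih =>
    obtain ⟨w, hw, ⟨z, hz⟩, hs⟩ := ih
    refine ⟨w⁻¹, inv_ne_zero hw, ⟨-z, ?_⟩, fun g σ hσ => ?_⟩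
    · rw [ordF_inv_TwoPencils ord hw, hz]
      push_cast
      rfl
    · rw [map_inv₀, hs g σ hσ, MonoidHom.inv_apply, Units.val_inv_eq_inv_val, map_inv₀, mul_inv]

theorem kummer_line {ψ : Gm k 1 →* kˣ} (hψ : Belongs (X0 k) ψ) (h1 : ψ ≠ 1) {N : ℕ} (hN : 0 < N)
    (hψN : ψ ^ N = 1) :
    ∃ (y : Bm k 1) (S : Finset k) (e : k → ℕ), S.Nonempty ∧ (∀ b ∈ S, 0 < e b ∧ e b < N) ∧
      N ∣ ∑ b ∈ S, e b ∧ y ^ N = iB k 1 (∏ b ∈ S, (X0 k - C b) ^ e b) ∧
      ∀ g : Gm k 1, g y = cB k 1 (ψ g) * y := by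
  obtain ⟨𝒪, ord, h𝒪, ho, hX1⟩ := exists_inf (k := k) (0 : Fin 1)
  obtain ⟨w, hw, ⟨z, hz⟩, hs⟩ := semi_of_belongs_TwoPencils h𝒪 ho hX1 hψ
  have hX : X0 k ≠ 0 := X_ne_zero _
  have h1' : ordF_TwoPencils ord (algebraMap (Base k 1) (Omm k 1) (X0 k)) = -1 := by
    have := hX1 (Units.mk0 _ (alg_ne_zero_TwoPencils hX)) rfl
    rwa [← ordF_units_TwoPencils] at this
  have hfix : ∀ σ : Omm k 1 ≃ₐ[Km k 1] Omm k 1, σ (w ^ N) = w ^ N := by
    intro σ
    obtain ⟨g, hg⟩ := exists_res (Base k 1) σ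
    have hg1 : ((ψ g : kˣ) : k) ^ N = 1 := by
      rw [← Units.val_pow_eq_pow_val, ← MonoidHom.pow_apply, hψN, MonoidHom.one_apply,
        Units.val_one]
    rw [map_pow, hs g σ fun x => (hg x).symm, mul_pow, ← map_pow, hg1, map_one, one_mul]
  have : CharZero (Km k 1) := algebraRat.charZero _
  obtain ⟨a, ha⟩ := (InfiniteGalois.mem_range_algebraMap_iff_fixed (k := Km k 1) (w ^ N)).2 hfix
  obtain ⟨p, q, hq, rfl⟩ := IsFractionRing.div_surjective (A := Base k 1) a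
  have hq0 : q ≠ 0 := nonZeroDivisors.ne_zero hq
  have hq' := alg_ne_zero_TwoPencils hq0
  rw [map_div₀, ← IsScalarTower.algebraMap_apply, ← IsScalarTower.algebraMap_apply,
    div_eq_iff hq'] at ha
  have hp0 : p ≠ 0 := by
    rintro rfl
    rw [map_zero] at ha
    exact mul_ne_zero (pow_ne_zero N hw) hq' ha.symm
  obtain ⟨Q, S, e, hQ, he, hP⟩ :=
    reduce_TwoPencils (mul_ne_zero hp0 (pow_ne_zero (N - 1) hq0)) hN
  have hQ' := alg_ne_zero_TwoPencils hQ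
  set R := ∏ b ∈ S, (X0 k - C b) ^ e b with hR
  set y₀ := w * algebraMap (Base k 1) (Omm k 1) q / algebraMap (Base k 1) (Omm k 1) Q with hy₀
  have hy0 : y₀ ≠ 0 := div_ne_zero (mul_ne_zero hw hq') hQ'
  have hyN : y₀ ^ N = algebraMap (Base k 1) (Omm k 1) R := by
    have hP' := congrArg (algebraMap (Base k 1) (Omm k 1)) hP
    rw [map_mul, map_mul, map_pow, map_pow, ha, mul_assoc, ← pow_succ', Nat.sub_add_cancel hN,
      ← mul_pow] at hP'
    rw [hy₀, div_pow, hP', mul_div_cancel_left₀ _ (pow_ne_zero N hQ')]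
  have hint : IsIntegral (Base k 1) y₀ := by
    refine IsIntegral.of_pow hN ?_
    rw [hyN]
    exact isIntegral_algebraMap
  let y : Bm k 1 := ⟨y₀, hint⟩
  have hyv : vB k 1 y = y₀ := rfl
  have hyB : y ^ N = iB k 1 R := vB_injective_TwoPencils (by rw [map_pow, hyv, hyN]; rfl)
  have hg : ∀ g : Gm k 1, g y = cB k 1 (ψ g) * y := by
    intro g
    obtain ⟨σ, hσ⟩ := exists_extG (Base k 1) g
    refine vB_injective_TwoPencils ?_
    have h2 : vB k 1 (g y) = σ y₀ := (hσ y).symm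
    rw [h2, map_mul, vB_cB_TwoPencils, hyv, hy₀, map_div₀, map_mul, hs g σ hσ,
      gal_alg_TwoPencils, gal_alg_TwoPencils]
    ring
  refine ⟨y, S, e, ?_, he, ?_, hyB, hg⟩
  · rw [Finset.nonempty_iff_ne_empty]
    rintro rfl
    have hy1 : y₀ ^ N = 1 := by rw [hyN, hR, Finset.prod_empty, map_one]
    have halg : IsAlgebraic k (vB k 1 y) := by
      refine IsAlgebraic.of_pow hN ?_
      rw [hyv, hy1]
      exact isAlgebraic_one
    obtain ⟨c, hc⟩ := mem_range_cB halg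
    refine h1 (MonoidHom.ext fun g => Units.ext ?_)
    have h2 : g y = y := by
      rw [← hc]
      exact g.commutes (C c)
    have h3 := congrArg (vB k 1) (h2.symm.trans (hg g))
    rw [map_mul, vB_cB_TwoPencils, hyv] at h3
    have h4 : algebraMap k (Omm k 1) (ψ g) = algebraMap k (Omm k 1) 1 := by
      rw [map_one]
      exact mul_right_cancel₀ hy0 (h3.symm.trans (one_mul y₀).symm)
    exact (algebraMap k (Omm k 1)).injective h4
  · have h2 := congrArg (ordF_TwoPencils ord) hyN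
    rw [ordF_pow_TwoPencils ord hy0, hy₀, ordF_div_TwoPencils ord (mul_ne_zero hw hq') hQ',
      ordF_mul_TwoPencils ord hw hq', hz, ord_poly_TwoPencils h𝒪 ho h1' hq0,
      ord_poly_TwoPencils h𝒪 ho h1' hQ,
      ord_poly_TwoPencils h𝒪 ho h1' (prod_ne_zero_TwoPencils S e), deg_prod_TwoPencils] at h2
    have h3 : ((∑ b ∈ S, e b : ℕ) : ℤ) =
        (N : ℤ) * (-z + (q.totalDegree : ℤ) - (Q.totalDegree : ℤ)) := by
      have h4 : (((∑ b ∈ S, e b : ℕ) : ℤ) : ℚ) =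
          (((N : ℤ) * (-z + (q.totalDegree : ℤ) - (Q.totalDegree : ℤ)) : ℤ) : ℚ) := by
        rw [Int.cast_natCast]
        push_cast [-Nat.cast_sum]
        linarith
      exact_mod_cast h4
    exact Int.natCast_dvd_natCast.1 ⟨_, h3⟩

omit [CharZero k] [IsAlgClosed k] in
theorem pow_mul_eq_one_TwoPencils {ψ : Gm k m →* kˣ} {N : ℕ} (h : ψ ^ N = 1) (t : ℕ) :
    ψ ^ (N * t) = 1 := by
  refine MonoidHom.ext fun g => ?_
  have h1 : ψ g ^ N = 1 := DFunLike.congr_fun h g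
  change ψ g ^ (N * t) = 1
  rw [pow_mul, h1, one_pow]

omit [IsAlgClosed k] in
theorem pow_eq_one_TwoPencils {f : Base k m} {ψ : Gm k m →* kˣ} (h : Belongs f ψ) :
    ∃ N : ℕ, 0 < N ∧ ψ ^ N = 1 := by
  induction h using Subgroup.closure_induction with
  | mem χ hχ =>
    obtain ⟨u, hu, he, -⟩ := hχ
    exact he.pow_eq_one hu
  | one => exact ⟨1, one_pos, one_pow 1⟩
  | mul χ χ' _ _ ih ih' =>
    obtain ⟨N, hN, h⟩ := ih
    obtain ⟨N', hN', h'⟩ := ih'
    refine ⟨N * N', Nat.mul_pos hN hN', MonoidHom.ext fun g => ?_⟩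
    have h1 : χ g ^ N = 1 := DFunLike.congr_fun h g
    have h2 : χ' g ^ N' = 1 := DFunLike.congr_fun h' g
    change (χ g * χ' g) ^ (N * N') = 1
    rw [mul_pow, pow_mul, h1, one_pow, one_mul, mul_comm N, pow_mul, h2, one_pow]
  | inv χ _ ih =>
    obtain ⟨N, hN, h⟩ := ih
    refine ⟨N, hN, MonoidHom.ext fun g => ?_⟩
    have h1 : χ g ^ N = 1 := DFunLike.congr_fun h g
    change (χ g)⁻¹ ^ N = 1
    rw [inv_pow, h1, inv_one]

theorem Belongs.pow_eq_one {f : Base k m} {ψ : Gm k m →* kˣ} (h : Belongs f ψ) :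
    ∃ N : ℕ, 0 < N ∧ ψ ^ N = 1 := pow_eq_one_TwoPencils h

omit [CharZero k] [IsAlgClosed k] in
theorem in_X0_TwoPencils (v : Uo k (Bm k 1)) : In v (X0 k) := by
  refine ⟨RingHom.id _, ?_, v, Umap_id k v⟩
  have h : ev (X0 k) = RingHom.id _ :=
    MvPolynomial.ringHom_ext (fun c => by simp) fun i => by
      rw [Subsingleton.elim i 0]
      exact ev_X0 _
  rw [IsLift, h, RingHom.id_comp, RingHom.comp_id]

omit [CharZero k] [IsAlgClosed k] in
theorem lift_char_TwoPencils {f : Base k m} {κ : Bm k 1 →+* Bm k m} {r : Gm k m →* Gm k 1}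
    (hr : ∀ (χ : Gm k m →* kˣ) (u : Uo k (Bm k m)), Eig χ u → u ≠ 0 → In u f →
      ∃ (ε : Gm k 1 →* kˣ) (v : Uo k (Bm k 1)), Eig ε v ∧ Umap k κ v = u ∧ ε.comp r = χ)
    {ψ : Gm k m →* kˣ} (h : Belongs f ψ) :
    ∃ ε : Gm k 1 →* kˣ, Belongs (X0 k) ε ∧ ε.comp r = ψ := by
  induction h using Subgroup.closure_induction with
  | mem χ hχ =>
    obtain ⟨u, hu, he, hin⟩ := hχ
    obtain ⟨ε, v, hv, huv, hε⟩ := hr χ u he hu hin
    refine ⟨ε, Subgroup.subset_closure ⟨v, ?_, hv, in_X0_TwoPencils v⟩, hε⟩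
    rintro rfl
    exact hu (huv.symm.trans (map_zero _))
  | one => exact ⟨1, Subgroup.one_mem _, MonoidHom.one_comp r⟩
  | mul χ χ' _ _ ih ih' =>
    obtain ⟨ε, hε, rfl⟩ := ih
    obtain ⟨ε', hε', rfl⟩ := ih'
    exact ⟨ε * ε', Subgroup.mul_mem _ hε hε', rfl⟩
  | inv χ _ ih =>
    obtain ⟨ε, hε, rfl⟩ := ih
    exact ⟨ε⁻¹, Subgroup.inv_mem _ hε, rfl⟩

theorem kummer_pencil_TwoPencils {f : Base k m} (hf : NonConst f) {ψ : Gm k m →* kˣ}
    (h : Belongs f ψ) (h1 : ψ ≠ 1) :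
    ∃ (f₀ : Base k m) (M : ℕ), NonConst f₀ ∧ Dep f f₀ ∧ 0 < M ∧ ∀ N : ℕ, 0 < N → M ∣ N →
      ∃ (y : Bm k m) (S : Finset k) (e : k → ℕ), S.Nonempty ∧ (∀ b ∈ S, 0 < e b ∧ e b < N) ∧
        N ∣ ∑ b ∈ S, e b ∧ y ^ N = iB k m (∏ b ∈ S, (f₀ - C b) ^ e b) ∧
        ∀ g : Gm k m, g y = cB k m (ψ g) * y := by
  obtain ⟨f₀, κ, r, hf₀, hd, hκ, hr, hl, -⟩ := to_line hf
  obtain ⟨ε, hε, rfl⟩ := lift_char_TwoPencils hl h
  obtain ⟨M, hM, hεM⟩ := hε.pow_eq_one
  refine ⟨f₀, M, hf₀, hd, hM, fun N hN hMN => ?_⟩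
  obtain ⟨t, rfl⟩ := hMN
  have hε1 : ε ≠ 1 := by
    rintro rfl
    exact h1 (MonoidHom.one_comp r)
  obtain ⟨y, S, e, hS, he, hdv, hy, hg⟩ :=
    kummer_line hε hε1 hN (pow_mul_eq_one_TwoPencils hεM t)
  refine ⟨κ y, S, e, hS, he, hdv, ?_, fun g => ?_⟩
  · rw [← map_pow, hy]
    have h2 := DFunLike.congr_fun hκ (∏ b ∈ S, (X0 k - C b) ^ e b)
    rw [RingHom.comp_apply, RingHom.comp_apply] at h2
    rw [h2]
    simp only [map_prod, map_pow, map_sub, ev_X0, ev_C]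
  · rw [← hr, hg, map_mul]
    congr 1
    exact DFunLike.congr_fun hκ.comp_cB _

theorem two_pencils {f f' : Base k m} (hd : ¬ Dep f f') {ψ : Gm k m →* kˣ} (h : Belongs f ψ)
    (h' : Belongs f' ψ) : ψ = 1 := by
  by_contra h1
  have hf : NonConst f := by
    by_contra hf
    exact hd (dep_of_not_nonConst hf f')
  have hf' : NonConst f' := by
    by_contra hf'
    exact hd (dep_of_not_nonConst hf' f).symm
  have h2 : ψ⁻¹ ≠ 1 := by
    intro h2
    refine h1 (MonoidHom.ext fun g => ?_)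
    have h3 : (ψ g)⁻¹ = 1 := DFunLike.congr_fun h2 g
    exact inv_eq_one.1 h3
  obtain ⟨f₀, M, hf₀, hd₀, hM, H⟩ := kummer_pencil_TwoPencils hf h h1
  obtain ⟨f₁, M', hf₁, hd₁, hM', H'⟩ :=
    kummer_pencil_TwoPencils hf' (ψ := ψ⁻¹) (Subgroup.inv_mem _ h') h2
  obtain ⟨y, S, e, hS, he, hdv, hy, hg⟩ := H (M * M') (Nat.mul_pos hM hM') (dvd_mul_right _ _)
  obtain ⟨y', S', e', hS', he', hdv', hy', hg'⟩ :=
    H' (M * M') (Nat.mul_pos hM hM') (dvd_mul_left _ _)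
  have hfix : ∀ g : Gm k m, g (y * y') = y * y' := by
    intro g
    rw [map_mul, hg, hg', mul_mul_mul_comm, ← map_mul, ← Units.val_mul, MonoidHom.inv_apply,
      mul_inv_cancel, Units.val_one, map_one, one_mul]
  obtain ⟨Y, hY⟩ := mem_range_of_fixed (R := Base k m) (y * y') hfix
  have hYN : Y ^ (M * M') = (∏ b ∈ S, (f₀ - C b) ^ e b) * ∏ b ∈ S', (f₁ - C b) ^ e' b :=
    iB_injective_TwoPencils (by rw [map_pow, map_mul, ← hy, ← hy', ← mul_pow, ← hY])
  have h01 : Dep f₀ f₁ := dep_of_kummer S S' e e' hS hS' he he' hdv hdv' hYN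
  exact hd ((hd₀.trans h01 hf₀).trans hd₁.symm hf₁)

end

end Pool.Agent.MP_e2821c_ag.Cy
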