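import Pool.Agent.Lib.MP_e2821c_ag.Cy.VSD

set_option autoImplicit false

namespace CyV

open Polynomial

attribute [local instance] FractionRing.liftAlgebra

section RingLevel

variable {R Ω : Type*} [CommRing R] [Field Ω] [Algebra R Ω] [FaithfulSMul R Ω]

theorem alg_ne_zero {r : R} (h : r ≠ 0) : algebraMap R Ω r ≠ 0 := by simpa using h

theorem frac_cases (a : FractionRing R) (ha : a ≠ 0) : ∃ x y : R, x ≠ 0 ∧ y ≠ 0 ∧
    algebraMap (FractionRing R) Ω a = algebraMap R Ω x / algebraMap R Ω y := by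
  have := IsDomain.of_faithfulSMul R Ω
  obtain ⟨x, y, hy, rfl⟩ := IsFractionRing.div_surjective (A := R) a
  refine ⟨x, y, by rintro rfl; simp at ha, nonZeroDivisors.ne_zero hy, ?_⟩
  rw [map_div₀, ← IsScalarTower.algebraMap_apply, ← IsScalarTower.algebraMap_apply]

variable (R Ω) in
theorem frac_isAlgebraic [Algebra.IsAlgebraic R Ω] : Algebra.IsAlgebraic (FractionRing R) Ω :=
  have := IsDomain.of_faithfulSMul R Ω
  Algebra.IsAlgebraic.extendScalars (FaithfulSMul.algebraMap_injective R (FractionRing R))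

variable (R Ω) in
theorem frac_charZero [CharZero Ω] :
    have := IsDomain.of_faithfulSMul R Ω
    CharZero (FractionRing R) :=
  have := IsDomain.of_faithfulSMul R Ω
  (RingHom.charZero_iff (algebraMap (FractionRing R) Ω).injective).mpr inferInstance

variable (Ω) in
theorem exists_ord [Algebra.IsAlgebraic R Ω] (ν : R → ℤ)
    (hmul : ∀ x y, x ≠ 0 → y ≠ 0 → ν (x * y) = ν x + ν y)
    (hadd : ∀ x y, x ≠ 0 → y ≠ 0 → x + y ≠ 0 → min (ν x) (ν y) ≤ ν (x + y)) :
    ∃ o : Ord Ω, ∀ r : R, r ≠ 0 → o.v (algebraMap R Ω r) = ν r := by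
  have := IsDomain.of_faithfulSMul R Ω
  have := frac_isAlgebraic R Ω
  obtain ⟨o, h, -⟩ := Ord.exists_of_ring (K := FractionRing R) Ω ν hmul hadd
  exact ⟨o, h⟩

variable (Ω) in
/-- the order of vanishing along a prime element -/
theorem exists_ord_prime [Algebra.IsAlgebraic R Ω] [WfDvdMonoid R] {π : R} (hπ : Prime π) :
    ∃ o : Ord Ω, ∀ r : R, r ≠ 0 → o.v (algebraMap R Ω r) = multiplicity π r := by
  have := IsDomain.of_faithfulSMul R Ω
  obtain ⟨o, h⟩ := exists_ord Ω (fun r : R => (multiplicity π r : ℤ))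
    (fun x y hx hy => by
      rw [multiplicity_mul hπ (.of_prime_left hπ (mul_ne_zero hx hy))]; push_cast; rfl)
    (fun x y _ _ h => by
      rw [← Nat.cast_min, Nat.cast_le]
      exact (FiniteMultiplicity.of_prime_left hπ h).le_multiplicity_of_pow_dvd
        (dvd_add (pow_dvd_of_le_multiplicity (min_le_left _ _))
          (pow_dvd_of_le_multiplicity (min_le_right _ _))))
  exact ⟨o, fun r hr => by simpa using h r hr⟩

variable {S : Type*} [CommRing S] [Algebra S Ω]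

/-- derivations extend to algebraic extensions of the fraction field -/
theorem exists_der [CharZero Ω] [Algebra.IsAlgebraic R Ω] [Algebra S R] [IsScalarTower S R Ω]
    (D₀ : Derivation S R Ω) : ∃ D : Derivation S Ω Ω, ∀ r, D (algebraMap R Ω r) = D₀ r := by
  have := IsDomain.of_faithfulSMul R Ω
  have := frac_isAlgebraic R Ω
  have := frac_charZero R Ω
  have h1 : Algebra.FormallyEtale R (FractionRing R) :=
    Algebra.FormallyEtale.of_isLocalization (nonZeroDivisors R)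
  have h2 : Algebra.FormallyEtale (FractionRing R) Ω := Algebra.FormallyEtale.of_isSeparable _ _
  have h3 : Algebra.FormallyEtale R Ω := Algebra.FormallyEtale.comp R (FractionRing R) Ω
  let h := KaehlerDifferential.isBaseChange_of_formallyEtale S R Ω
  refine ⟨(h.lift D₀.liftKaehlerDifferential).compDer (KaehlerDifferential.D S Ω), fun r => ?_⟩
  change h.lift D₀.liftKaehlerDifferential (KaehlerDifferential.D S Ω _) = _
  rw [← KaehlerDifferential.map_D S S R Ω, h.lift_eq, Derivation.liftKaehlerDifferential_comp_D]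

theorem Ord.exists_closure (o : Ord Ω) [CharZero Ω] (D : Derivation S Ω Ω) :
    ∃ (o' : Ord (AlgebraicClosure Ω)) (D' : Derivation S (AlgebraicClosure Ω) (AlgebraicClosure Ω)),
      (∀ x, x ≠ 0 → o'.v (algebraMap Ω _ x) = o.v x) ∧
      (∀ r x, o'.Ge r (algebraMap Ω _ x) ↔ o.Ge r x) ∧
      (∀ r x, o'.Gt r (algebraMap Ω _ x) ↔ o.Gt r x) ∧
      ∀ x, D' (algebraMap Ω _ x) = algebraMap Ω _ (D x) := by
  obtain ⟨o', ho'⟩ := o.exists_ext (Ω := AlgebraicClosure Ω)
  obtain ⟨D', hD'⟩ := exists_der (S := S) (R := Ω) (Ω := AlgebraicClosure Ω)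
    ((Algebra.linearMap Ω _).compDer D)
  refine ⟨o', D', ho', fun r x => ?_, fun r x => ?_, hD'⟩ <;> by_cases hx : x = 0 <;>
    simp [hx, Ord.Ge, Ord.Gt, ho']

theorem Ord.sd1' {K : Type*} [Field K] [Algebra K Ω] [CharZero K] [Algebra.IsAlgebraic K Ω]
    (o : Ord Ω) (D : Derivation S Ω Ω) (hn : ∀ n : ℕ, n ≠ 0 → ¬ o.Gt 0 (n : Ω))
    (hZ : ∀ a : K, a ≠ 0 → ∃ n : ℤ, o.v (algebraMap K Ω a) = n)
    (hK : ∀ a : K, o.Ge 0 (D (algebraMap K Ω a) / algebraMap K Ω a)) (x : Ω) :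
    o.Ge 0 (D x / x) := by
  have : CharZero Ω := charZero_of_injective_algebraMap (algebraMap K Ω).injective
  obtain ⟨o', D', h1, h2, h3, h4⟩ := o.exists_closure D
  have : Algebra.IsAlgebraic K (AlgebraicClosure Ω) := Algebra.IsAlgebraic.trans K Ω _
  rw [← h2, map_div₀, ← h4]
  refine o'.sd1 (K := K) D' (fun n h => by rw [← map_natCast (algebraMap Ω _), h3]; exact hn n h)
    (fun a ha => ?_) (fun a => ?_) _
  · rw [IsScalarTower.algebraMap_apply K Ω, h1 _ (by simpa using ha)]; exact hZ a ha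
  · rw [IsScalarTower.algebraMap_apply K Ω, h4, ← map_div₀, h2]; exact hK a

theorem Ord.sd2' {K : Type*} [Field K] [Algebra K Ω] [CharZero K] [Algebra.IsAlgebraic K Ω]
    [CharZero Ω] (o : Ord Ω) (D : Derivation S Ω Ω) (hn : ∀ n : ℕ, n ≠ 0 → ¬ o.Gt 0 (n : Ω))
    (hZ : ∀ a : K, a ≠ 0 → ∃ n : ℤ, o.v (algebraMap K Ω a) = n) (θ : Ω) (hθ : o.Ge 0 θ)
    (hK : ∀ a : K, a ≠ 0 →
      o.Gt 0 (D (algebraMap K Ω a) / algebraMap K Ω a - (o.v (algebraMap K Ω a) : Ω) * θ))
    {x : Ω} (hx : x ≠ 0) : o.Gt 0 (D x / x - (o.v x : Ω) * θ) := by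
  obtain ⟨o', D', h1, h2, h3, h4⟩ := o.exists_closure D
  have : Algebra.IsAlgebraic K (AlgebraicClosure Ω) := Algebra.IsAlgebraic.trans K Ω _
  rw [← h3, map_sub, map_mul, map_ratCast, map_div₀, ← h4, ← h1 x hx]
  refine o'.sd2 (K := K) D' (fun n h => by rw [← map_natCast (algebraMap Ω _), h3]; exact hn n h)
    (fun a ha => ?_) _ ((h2 _ _).mpr hθ) (fun a ha => ?_) (by simpa using hx)
  · rw [IsScalarTower.algebraMap_apply K Ω, h1 _ (by simpa using ha)]; exact hZ a ha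
  · rw [IsScalarTower.algebraMap_apply K Ω, h4, ← map_div₀, h1 _ (by simpa using ha),
      ← map_ratCast (algebraMap Ω _), ← map_mul, ← map_sub, h3]
    exact hK a ha

theorem Ord.int_frac (o : Ord Ω) (hZ : ∀ r : R, r ≠ 0 → ∃ n : ℤ, o.v (algebraMap R Ω r) = n)
    (a : FractionRing R) (ha : a ≠ 0) : ∃ n : ℤ, o.v (algebraMap (FractionRing R) Ω a) = n := by
  obtain ⟨x, y, hx, hy, e⟩ := frac_cases (Ω := Ω) a ha
  obtain ⟨n, hn⟩ := hZ x hx
  obtain ⟨m, hm⟩ := hZ y hy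
  exact ⟨n - m, by rw [e, o.v_div _ _ (alg_ne_zero hx) (alg_ne_zero hy), hn, hm]; push_cast; rfl⟩

theorem Ord.sd1R [CharZero Ω] [Algebra.IsAlgebraic R Ω] (o : Ord Ω)
    (D : Derivation S Ω Ω) (hn : ∀ n : ℕ, n ≠ 0 → ¬ o.Gt 0 (n : Ω))
    (hZ : ∀ r : R, r ≠ 0 → ∃ n : ℤ, o.v (algebraMap R Ω r) = n)
    (hR : ∀ r : R, r ≠ 0 → o.Ge 0 (D (algebraMap R Ω r) / algebraMap R Ω r)) (x : Ω) :
    o.Ge 0 (D x / x) := by
  have := IsDomain.of_faithfulSMul R Ω
  have := frac_isAlgebraic R Ω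
  have := frac_charZero R Ω
  refine o.sd1' (K := FractionRing R) D hn (o.int_frac hZ) (fun a => ?_) x
  by_cases ha : a = 0
  · simp [ha, Ord.ge_zero]
  obtain ⟨x, y, hx, hy, e⟩ := frac_cases (Ω := Ω) a ha
  rw [e, ld_div D (alg_ne_zero hx) (alg_ne_zero hy)]
  exact (hR x hx).sub (hR y hy)

theorem Ord.sd2R [CharZero Ω] [Algebra.IsAlgebraic R Ω] (o : Ord Ω)
    (D : Derivation S Ω Ω) (hn : ∀ n : ℕ, n ≠ 0 → ¬ o.Gt 0 (n : Ω))
    (hZ : ∀ r : R, r ≠ 0 → ∃ n : ℤ, o.v (algebraMap R Ω r) = n) (θ : Ω) (hθ : o.Ge 0 θ)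
    (hR : ∀ r : R, r ≠ 0 →
      o.Gt 0 (D (algebraMap R Ω r) / algebraMap R Ω r - (o.v (algebraMap R Ω r) : Ω) * θ))
    {x : Ω} (hx : x ≠ 0) : o.Gt 0 (D x / x - (o.v x : Ω) * θ) := by
  have := IsDomain.of_faithfulSMul R Ω
  have := frac_isAlgebraic R Ω
  have := frac_charZero R Ω
  refine o.sd2' (K := FractionRing R) D hn (o.int_frac hZ) θ hθ (fun a ha => ?_) hx
  obtain ⟨x, y, hx, hy, e⟩ := frac_cases (Ω := Ω) a ha
  rw [e, ld_div D (alg_ne_zero hx) (alg_ne_zero hy), o.v_div _ _ (alg_ne_zero hx) (alg_ne_zero hy)]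
  convert (hR x hx).sub (hR y hy) using 1
  push_cast
  ring

theorem der_eq_zero_field {K : Type*} [Field K] [Algebra K Ω] [CharZero K] (D : Derivation S Ω Ω)
    (h : ∀ a : K, D (algebraMap K Ω a) = 0) {x : Ω} (hx : IsAlgebraic K x) : D x = 0 := by
  have h1 := D_aeval D x (minpoly K x)
  rw [minpoly.aeval, map_zero, Polynomial.sum] at h1
  simp only [h, zero_mul, Finset.sum_const_zero, zero_add] at h1
  exact (mul_eq_zero.mp h1.symm).resolve_left
    ((minpoly.irreducible hx.isIntegral).separable.aeval_derivative_ne_zero (minpoly.aeval K x))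

theorem der_eq_zero [CharZero Ω] (D : Derivation S Ω Ω)
    (h : ∀ r : R, D (algebraMap R Ω r) = 0) {x : Ω} (hx : IsAlgebraic R x) : D x = 0 := by
  have := IsDomain.of_faithfulSMul R Ω
  have := frac_charZero R Ω
  refine der_eq_zero_field (K := FractionRing R) D (fun a => ?_)
    (hx.extendScalars (FaithfulSMul.algebraMap_injective R (FractionRing R)))
  by_cases ha : a = 0
  · simp [ha]
  obtain ⟨x, y, -, -, e⟩ := frac_cases (Ω := Ω) a ha
  rw [e, D.leibniz_div, h, h]; simp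

theorem der_ext [CharZero Ω] [Algebra.IsAlgebraic R Ω] {D D' : Derivation S Ω Ω}
    (h : ∀ r : R, D (algebraMap R Ω r) = D' (algebraMap R Ω r)) : D = D' := by
  ext x
  have := der_eq_zero (R := R) (D - D') (fun r => by simp [h r])
    (Algebra.IsAlgebraic.isAlgebraic x)
  simpa [sub_eq_zero] using this

end RingLevel

namespace Ord

variable {Ω : Type*} [Field Ω] (o : Ord Ω)

theorem triv_of_ge {k : Type*} [Field k] [Algebra k Ω] (h : ∀ c : k, o.Ge 0 (algebraMap k Ω c))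
    (c : k) (hc : c ≠ 0) : o.v (algebraMap k Ω c) = 0 := by
  have h0 : algebraMap k Ω c ≠ 0 := by simpa using hc
  have h1 := (h c).le h0
  have h2 := (h c⁻¹).le (by simpa using hc)
  rw [map_inv₀, o.v_inv _ h0] at h2
  linarith

theorem hn_of_triv {k : Type*} [Field k] [CharZero k] [Algebra k Ω]
    (h : ∀ c : k, c ≠ 0 → o.v (algebraMap k Ω c) = 0) (n : ℕ) (hn : n ≠ 0) :
    ¬ o.Gt 0 (n : Ω) := by
  have h0 : (n : k) ≠ 0 := by exact_mod_cast hn
  have h1 := h n h0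
  have h2 : algebraMap k Ω n ≠ 0 := (_root_.map_ne_zero _).mpr h0
  rw [map_natCast] at h1 h2
  exact fun hg => absurd (hg.lt h2) (by simp [h1])

theorem ge_of_triv {k : Type*} [Field k] [Algebra k Ω]
    (h : ∀ c : k, c ≠ 0 → o.v (algebraMap k Ω c) = 0) (c : k) : o.Ge 0 (algebraMap k Ω c) := by
  by_cases hc : c = 0
  · simp [hc, ge_zero]
  exact Or.inr (h c hc).ge

theorem eq_zero_of_gt {k : Type*} [Field k] [Algebra k Ω]
    (h : ∀ c : k, c ≠ 0 → o.v (algebraMap k Ω c) = 0) {c : k} (hc : o.Gt 0 (algebraMap k Ω c)) :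
    c = 0 := by
  by_contra h0
  exact absurd (hc.lt (by simpa using h0)) (by simp [h c h0])

section Prime

variable {R : Type*} [CommRing R] [Algebra R Ω] [FaithfulSMul R Ω] [WfDvdMonoid R] {π : R}
  (hπ : Prime π) (ho : ∀ r : R, r ≠ 0 → o.v (algebraMap R Ω r) = multiplicity π r)
  {S : Type*} [CommRing S] [Algebra S Ω]

omit [FaithfulSMul R Ω] [WfDvdMonoid R] in
include ho in
theorem prime_ge (r : R) : o.Ge 0 (algebraMap R Ω r) := by
  by_cases h : r = 0
  · simp [h, ge_zero]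
  exact Or.inr (by rw [ho r h]; positivity)

omit [WfDvdMonoid R] in
include hπ ho in
theorem prime_v : o.v (algebraMap R Ω π) = 1 := by
  have := IsDomain.of_faithfulSMul R Ω
  rw [ho π hπ.ne_zero, multiplicity_self]; simp

include hπ ho in
theorem prime_split {r : R} (hr : r ≠ 0) (D : Derivation S Ω Ω) : ∃ g : R, g ≠ 0 ∧
    o.v (algebraMap R Ω g) = 0 ∧ D (algebraMap R Ω r) / algebraMap R Ω r =
      (multiplicity π r : Ω) * (D (algebraMap R Ω π) / algebraMap R Ω π) +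
        D (algebraMap R Ω g) / algebraMap R Ω g := by
  have := IsDomain.of_faithfulSMul R Ω
  obtain ⟨g, h1, h2⟩ := (FiniteMultiplicity.of_prime_left hπ hr).exists_eq_pow_mul_and_not_dvd
  have hg : g ≠ 0 := by rintro rfl; simp at h2
  refine ⟨g, hg, by rw [ho g hg, multiplicity_eq_zero.mpr h2]; simp, ?_⟩
  conv_lhs => rw [h1]
  rw [map_mul, map_pow, ld_mul D (pow_ne_zero _ (alg_ne_zero hπ.ne_zero)) (alg_ne_zero hg), ld_pow]

include hπ ho in
theorem prime_sd1 [CharZero Ω] [Algebra.IsAlgebraic R Ω]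
    (hn : ∀ n : ℕ, n ≠ 0 → ¬ o.Gt 0 (n : Ω)) (D : Derivation S Ω Ω)
    (h1 : ∀ r : R, o.Ge 0 (D (algebraMap R Ω r))) (h2 : o.Ge 1 (D (algebraMap R Ω π))) (x : Ω) :
    o.Ge 0 (D x / x) := by
  refine o.sd1R (R := R) D hn (fun r hr => ⟨multiplicity π r, by simp [ho r hr]⟩)
    (fun r hr => ?_) x
  obtain ⟨g, hg, hv, e⟩ := o.prime_split hπ ho hr D
  rw [e]
  refine ((ge_natCast _).mul₀ ?_).add ?_
  · rwa [ge_div_iff (alg_ne_zero hπ.ne_zero), o.prime_v hπ ho, zero_add]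
  · rw [ge_div_iff (alg_ne_zero hg), hv, add_zero]; exact h1 g

include hπ ho in
theorem prime_sd2 [CharZero Ω] [Algebra.IsAlgebraic R Ω]
    (hn : ∀ n : ℕ, n ≠ 0 → ¬ o.Gt 0 (n : Ω)) (D : Derivation S Ω Ω)
    (h1 : ∀ r : R, o.Ge 1 (D (algebraMap R Ω r))) {x : Ω} (hx : x ≠ 0) :
    o.Gt 0 (D x / x - (o.v x : Ω) * (D (algebraMap R Ω π) / algebraMap R Ω π)) := by
  refine o.sd2R (R := R) D hn (fun r hr => ⟨multiplicity π r, by simp [ho r hr]⟩) _ ?_
    (fun r hr => ?_) hx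
  · rw [ge_div_iff (alg_ne_zero hπ.ne_zero), o.prime_v hπ ho, zero_add]; exact h1 π
  obtain ⟨g, hg, hv, e⟩ := o.prime_split hπ ho hr D
  rw [e, ho r hr, Rat.cast_natCast, add_sub_cancel_left, gt_div_iff (alg_ne_zero hg), hv, add_zero]
  exact (h1 g).gt one_pos

omit [WfDvdMonoid R] in
include ho in
/-- a quotient of nonnegative order: divisibility by prime powers -/
theorem prime_pow_dvd {r : R} {n : ℕ} (h : o.Ge n (algebraMap R Ω r)) : π ^ n ∣ r := by
  by_cases hr : r = 0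
  · simp [hr]
  have := h.le (alg_ne_zero hr)
  rw [ho r hr, Nat.cast_le] at this
  exact pow_dvd_of_le_multiplicity this

end Prime

end Ord

/-- Ax's lemma -/
theorem ax {k Ω ι : Type*} (F : Type*) [Field k] [Field Ω] [Algebra k Ω] [CharZero k]
    [Field F] [Algebra k F] [Algebra F Ω] [IsScalarTower k F Ω] (s : Finset ι) (l : ι → k) (x : ι → Ω)
    (hl : ∀ q : ι → ℚ, ∑ a ∈ s, q a • l a = 0 → ∀ a ∈ s, q a = 0) (hx : ∀ a ∈ s, x a ≠ 0)
    (h : ∀ D : Derivation F Ω Ω, ∑ a ∈ s, algebraMap k Ω (l a) * (D (x a) / x a) = 0) :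
    ∀ a ∈ s, IsAlgebraic F (x a) := by
  classical
  intro a ha
  by_contra hy
  have : CharZero Ω := charZero_of_injective_algebraMap (algebraMap k Ω).injective
  obtain ⟨t, ht, hb⟩ := exists_isTranscendenceBasis_superset (R := F) (s := {x a})
    ((algebraicIndependent_singleton_iff (x := fun i : ({x a} : Set Ω) => (i : Ω))
      ⟨x a, rfl⟩).mpr hy)
  let R := MvPolynomial t F
  let y : t := ⟨x a, ht rfl⟩
  let φ : R →ₐ[F] Ω := MvPolynomial.aeval (fun i : t => (i : Ω))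
  let _ : Algebra R Ω := φ.toRingHom.toAlgebra
  have eφ : ∀ r, algebraMap R Ω r = φ r := fun _ => rfl
  have : IsScalarTower F R Ω := .of_algebraMap_eq fun c => (φ.commutes c).symm
  have : FaithfulSMul R Ω := (faithfulSMul_iff_algebraMap_injective R Ω).mpr hb.1
  have : Algebra.IsAlgebraic R Ω := by
    have := hb.isAlgebraic
    exact Algebra.IsAlgebraic.of_ringHom_of_comp_eq
      (hb.1.aevalEquiv : R →+* Algebra.adjoin F (Set.range ((↑) : t → Ω))) (RingHom.id Ω)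
      hb.1.aevalEquiv.surjective Function.injective_id (RingHom.ext fun r => hb.1.algebraMap_aevalEquiv r)
  have hπ : Prime (MvPolynomial.X y : R) := MvPolynomial.X_prime
  obtain ⟨o, ho⟩ := exists_ord_prime Ω hπ
  obtain ⟨D, hD⟩ := exists_der (S := F) (R := R) (Ω := Ω)
    ((Algebra.linearMap R Ω).compDer ((MvPolynomial.X y : R) • MvPolynomial.pderiv y))
  have hD' : ∀ r : R, D (algebraMap R Ω r) =
      algebraMap R Ω (MvPolynomial.X y) * algebraMap R Ω (MvPolynomial.pderiv y r) := by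
    intro r; rw [hD, ← map_mul]; rfl
  have htriv : ∀ c : k, c ≠ 0 → o.v (algebraMap k Ω c) = 0 := by
    refine o.triv_of_ge fun c => ?_
    rw [IsScalarTower.algebraMap_apply k F Ω, IsScalarTower.algebraMap_apply F R Ω]
    exact o.prime_ge ho _
  have hXne : algebraMap R Ω (MvPolynomial.X y) ≠ 0 := alg_ne_zero hπ.ne_zero
  have key : ∀ b ∈ s, o.Gt 0 (D (x b) / x b - (o.v (x b) : Ω)) := by
    intro b hb
    have := o.prime_sd2 hπ ho (o.hn_of_triv htriv) D (fun r => by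
      rw [hD']
      have := (Ord.ge_self (o := o) (algebraMap R Ω (MvPolynomial.X y))).mul
        (o.prime_ge ho (MvPolynomial.pderiv y r))
      rwa [o.prime_v hπ ho, add_zero] at this) (hx b hb)
    rwa [hD', MvPolynomial.pderiv_X_self, map_one, mul_one, div_self hXne, mul_one] at this
  have h2 : o.Gt 0 (algebraMap k Ω (∑ b ∈ s, o.v (x b) • l b)) := by
    have h3 : o.Gt 0 (∑ b ∈ s, algebraMap k Ω (l b) * (D (x b) / x b - (o.v (x b) : Ω))) :=
      Ord.Gt.sum fun b hb => (o.ge_of_triv htriv _).mul_gt₀ (key b hb)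
    simp only [mul_sub, Finset.sum_sub_distrib] at h3
    rw [h D, zero_sub] at h3
    convert h3.neg using 1
    rw [neg_neg, map_sum]
    exact Finset.sum_congr rfl fun b _ => by rw [Rat.smul_def, map_mul, map_ratCast, mul_comm]
  have h4 := hl _ (o.eq_zero_of_gt htriv h2) a ha
  have h5 := o.prime_v hπ ho
  rw [eφ, show φ (MvPolynomial.X y) = x a from MvPolynomial.aeval_X _ y] at h5
  rw [h5] at h4
  exact one_ne_zero h4

end CyV
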