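import Pool.Agent.Lib.MP_e2821c_ag.Cy.VOrd

set_option autoImplicit false

namespace CyV

open Polynomial

namespace Ord

/-- the valuation ring of an order function -/
def ring {K : Type*} [Field K] (o : Ord K) : ValuationSubring K where
  carrier := {x | o.Ge 0 x}
  mul_mem' := Ge.mul₀
  one_mem' := ge_one
  add_mem' := Ge.add
  zero_mem' := ge_zero 0
  neg_mem' := Ge.neg
  mem_or_inv_mem' x := by
    by_cases hx : x = 0
    · exact Or.inl (Or.inl hx)
    rcases le_total 0 (o.v x) with h | h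
    · exact Or.inl (Or.inr h)
    · exact Or.inr (Or.inr (by rw [o.v_inv x hx]; linarith))

theorem mem_ring {K : Type*} [Field K] (o : Ord K) (x : K) : x ∈ o.ring ↔ o.Ge 0 x := Iff.rfl

theorem exists_over {K Ω : Type*} [Field K] [Field Ω] [Algebra K Ω] (A : ValuationSubring K) :
    ∃ V : ValuationSubring Ω, V.comap (algebraMap K Ω) = A := by
  obtain ⟨V, hV, hloc⟩ := IsLocalRing.exists_factor_valuationRing
    ((algebraMap K Ω).comp A.subtype)
  refine ⟨V, SetLike.ext fun a => ⟨fun h => ?_, fun h => hV ⟨a, h⟩⟩⟩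
  rcases A.mem_or_inv_mem a with ha | ha
  · exact ha
  by_cases h0 : a = 0
  · exact h0 ▸ A.zero_mem
  have hu : IsUnit (⟨algebraMap K Ω a⁻¹, hV ⟨_, ha⟩⟩ : V) :=
    IsUnit.of_mul_eq_one ⟨_, h⟩ (Subtype.ext (by
      change algebraMap K Ω a⁻¹ * algebraMap K Ω a = 1
      rw [← map_mul, inv_mul_cancel₀ h0, map_one]))
  obtain ⟨b, hb⟩ := (hloc.map_nonunit (⟨_, ha⟩ : A) hu).exists_right_inv
  have hb' : a⁻¹ * (b : K) = 1 := congrArg Subtype.val hb
  rw [inv_mul_eq_one₀ h0] at hb'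
  exact hb' ▸ b.2

theorem val_pow {K Ω Γ : Type*} [Field K] [Field Ω] [Algebra K Ω]
    [LinearOrderedCommGroupWithZero Γ] (w : Valuation Ω Γ) (hw : ∀ x, w x = 0 → x = 0)
    {x : Ω} (hx : x ≠ 0) (h : IsAlgebraic K x) :
    ∃ p : ℕ × K, 0 < p.1 ∧ p.2 ≠ 0 ∧ w x ^ p.1 = w (algebraMap K Ω p.2) := by
  classical
  obtain ⟨P, hP, h⟩ := h
  rw [aeval_eq_sum_range] at h
  simp only [Algebra.smul_def] at h
  set f : ℕ → Ω := fun i => algebraMap K Ω (P.coeff i) * x ^ i with hf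
  obtain ⟨i, hi, hmax⟩ := (Finset.range (P.natDegree + 1)).exists_max_image (fun i => w (f i))
    ⟨0, by simp⟩
  have hi0 : w (f i) ≠ 0 := by
    intro h0
    have := hmax P.natDegree (by simp)
    rw [h0, le_zero_iff] at this
    exact mul_ne_zero (by simpa using hP) (pow_ne_zero _ hx) (hw _ this)
  obtain ⟨j, hj, hlt⟩ : ∃ j ∈ Finset.range (P.natDegree + 1) \ {i}, ¬ w (f j) < w (f i) := by
    by_contra hc
    push Not at hc
    have := w.map_sum_eq_of_lt hi hc
    rw [h, map_zero] at this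
    exact hi0 this.symm
  rw [Finset.mem_sdiff, Finset.mem_singleton] at hj
  have he : w (f j) = w (f i) := le_antisymm (hmax j hj.1) (not_lt.mp hlt)
  have hj0 : w (f j) ≠ 0 := he ▸ hi0
  simp only [hf, map_mul, map_pow] at he hi0 hj0
  have a1 := left_ne_zero_of_mul hi0
  have a2 := left_ne_zero_of_mul hj0
  have b1 : P.coeff i ≠ 0 := fun h => a1 (by simp [h])
  have b2 : P.coeff j ≠ 0 := fun h => a2 (by simp [h])
  have hwx : w x ≠ 0 := fun h => hx (hw _ h)
  rcases lt_or_gt_of_ne hj.2 with hlt | hlt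
  · refine ⟨(i - j, P.coeff j / P.coeff i), by simpa using hlt, div_ne_zero b2 b1, ?_⟩
    simp only [map_div₀]
    rw [pow_sub₀ _ hwx hlt.le, eq_div_iff a1, mul_right_comm, mul_comm (w x ^ i), ← he,
      mul_inv_cancel_right₀ (pow_ne_zero _ hwx)]
  · refine ⟨(j - i, P.coeff i / P.coeff j), by simpa using hlt, div_ne_zero b1 b2, ?_⟩
    simp only [map_div₀]
    rw [pow_sub₀ _ hwx hlt.le, eq_div_iff a2, mul_right_comm, mul_comm (w x ^ j), he,
      mul_inv_cancel_right₀ (pow_ne_zero _ hwx)]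

/-- an order function extends along a valuation ring of an algebraic extension -/
theorem exists_of_val {K Ω : Type*} [Field K] [Field Ω] [Algebra K Ω] [Algebra.IsAlgebraic K Ω]
    (o : Ord K) (V : ValuationSubring Ω) (hV : ∀ a : K, algebraMap K Ω a ∈ V ↔ o.Ge 0 a) :
    ∃ o' : Ord Ω, (∀ a : K, a ≠ 0 → o'.v (algebraMap K Ω a) = o.v a) ∧
      ∀ x, x ∈ V ↔ o'.Ge 0 x := by
  classical
  set w := V.valuation with hwdef
  have hw : ∀ x, w x = 0 → x = 0 := fun x h => by simpa using h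
  have hw0 : ∀ x, x ≠ 0 → 0 < w x := fun x h => zero_lt_iff.mpr fun h' => h (hw x h')
  have hne : ∀ a : K, a ≠ 0 → algebraMap K Ω a ≠ 0 := fun a ha => by simpa using ha
  have h1 : ∀ a : K, o.Ge 0 a → w (algebraMap K Ω a) ≤ 1 := fun a ha =>
    (V.valuation_le_one_iff _).mpr ((hV a).mpr ha)
  have h2 : ∀ a : K, a ≠ 0 → 0 < o.v a → w (algebraMap K Ω a) < 1 := by
    intro a ha0 ha
    refine lt_of_le_of_ne (h1 a (Or.inr ha.le)) fun h => ?_
    have h4 := ((hV a⁻¹).mp ((V.valuation_le_one_iff _).mp (by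
      rw [map_inv₀, map_inv₀, ← hwdef, h, inv_one]))).le (inv_ne_zero ha0)
    rw [o.v_inv a ha0] at h4
    linarith
  have h3 : ∀ a b : K, a ≠ 0 → b ≠ 0 → w (algebraMap K Ω a) ≤ w (algebraMap K Ω b) →
      o.v b ≤ o.v a := by
    intro a b ha hb h
    by_contra hc
    have := h2 (b / a) (div_ne_zero hb ha) (by rw [o.v_div b a hb ha]; linarith)
    rw [map_div₀, map_div₀, div_lt_one₀ (hw0 _ (hne a ha))] at this
    exact absurd h (not_le.mpr this)
  have hex : ∀ x : Ω, ∃ p : ℕ × K, x ≠ 0 →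
      0 < p.1 ∧ p.2 ≠ 0 ∧ w x ^ p.1 = w (algebraMap K Ω p.2) := by
    intro x
    by_cases hx : x = 0
    · exact ⟨(0, 0), fun h => absurd hx h⟩
    obtain ⟨p, hp⟩ := val_pow w hw hx (Algebra.IsAlgebraic.isAlgebraic (R := K) x)
    exact ⟨p, fun _ => hp⟩
  choose p hp using hex
  let v : Ω → ℚ := fun x => o.v (p x).2 / (p x).1
  have cmp : ∀ (n m : ℕ) (a b : K) (x y : Ω), 0 < n → 0 < m → a ≠ 0 → b ≠ 0 →
      w x ^ n = w (algebraMap K Ω a) → w y ^ m = w (algebraMap K Ω b) → w x ≤ w y →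
      o.v b / m ≤ o.v a / n := by
    intro n m a b x y hn hm ha hb hx hy hxy
    have := h3 (a ^ m) (b ^ n) (pow_ne_zero _ ha) (pow_ne_zero _ hb) (by
      rw [map_pow, map_pow, map_pow, map_pow, ← hx, ← hy, ← pow_mul, ← pow_mul, mul_comm m n]
      exact pow_le_pow_left₀ zero_le hxy _)
    rw [o.v_pow a ha, o.v_pow b hb] at this
    rw [div_le_div_iff₀ (by exact_mod_cast hm) (by exact_mod_cast hn)]
    linarith
  have spec : ∀ (x : Ω) (n : ℕ) (a : K), x ≠ 0 → 0 < n → a ≠ 0 →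
      w x ^ n = w (algebraMap K Ω a) → v x = o.v a / n := by
    intro x n a hx hn ha h
    obtain ⟨q1, q2, q3⟩ := hp x hx
    exact le_antisymm (cmp _ _ _ _ x x hn q1 ha q2 h q3 le_rfl)
      (cmp _ _ _ _ x x q1 hn q2 ha q3 h le_rfl)
  have anti : ∀ x y : Ω, x ≠ 0 → y ≠ 0 → w x ≤ w y → v y ≤ v x := by
    intro x y hx hy h
    obtain ⟨q1, q2, q3⟩ := hp x hx
    obtain ⟨r1, r2, r3⟩ := hp y hy
    exact cmp _ _ _ _ x y q1 r1 q2 r2 q3 r3 h
  refine ⟨⟨v, fun x y hx hy => ?_, fun x y hx hy hxy => ?_⟩, fun a ha => ?_, fun x => ?_⟩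
  · obtain ⟨q1, q2, q3⟩ := hp x hx
    obtain ⟨r1, r2, r3⟩ := hp y hy
    rw [spec (x * y) ((p x).1 * (p y).1) ((p x).2 ^ (p y).1 * (p y).2 ^ (p x).1)
      (mul_ne_zero hx hy) (Nat.mul_pos q1 r1) (mul_ne_zero (pow_ne_zero _ q2) (pow_ne_zero _ r2))
      (by rw [map_mul, map_mul, map_mul, map_pow, map_pow, map_pow, map_pow, ← q3, ← r3, mul_pow,
        ← pow_mul, ← pow_mul, mul_comm (p y).1]),
      o.v_mul _ _ (pow_ne_zero _ q2) (pow_ne_zero _ r2), o.v_pow _ q2, o.v_pow _ r2]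
    have a1 : ((p x).1 : ℚ) ≠ 0 := by exact_mod_cast q1.ne'
    have a2 : ((p y).1 : ℚ) ≠ 0 := by exact_mod_cast r1.ne'
    simp only [v]
    push_cast
    field_simp
  · rcases le_max_iff.mp (w.map_add x y) with h | h
    · exact (min_le_left _ _).trans (anti _ _ hxy hx h)
    · exact (min_le_right _ _).trans (anti _ _ hxy hy h)
  · change v _ = _
    rw [spec _ 1 a (hne a ha) one_pos ha (pow_one _)]; simp
  · by_cases hx : x = 0
    · simp [hx, ge_zero]
    obtain ⟨q1, q2, q3⟩ := hp x hx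
    rw [← V.valuation_le_one_iff, ← pow_le_one_iff q1.ne', ← hwdef, q3, V.valuation_le_one_iff, hV]
    simp only [Ge, hx, q2, false_or, v]
    rw [le_div_iff₀ (by exact_mod_cast q1), zero_mul]

/-- an order function extends to every algebraic extension -/
theorem exists_ext {K Ω : Type*} [Field K] [Field Ω] [Algebra K Ω] [Algebra.IsAlgebraic K Ω]
    (o : Ord K) : ∃ o' : Ord Ω, ∀ a : K, a ≠ 0 → o'.v (algebraMap K Ω a) = o.v a := by
  obtain ⟨V, hV⟩ := exists_over (Ω := Ω) o.ring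
  obtain ⟨o', h, -⟩ := o.exists_of_val V fun a => by
    rw [← ValuationSubring.mem_comap, hV]; rfl
  exact ⟨o', h⟩

/-- an order function on the fraction field from one on the ring -/
theorem exists_frac {R K : Type*} [CommRing R] [IsDomain R] [Field K] [Algebra R K]
    [IsFractionRing R K] (ν : R → ℚ)
    (hmul : ∀ x y, x ≠ 0 → y ≠ 0 → ν (x * y) = ν x + ν y)
    (hadd : ∀ x y, x ≠ 0 → y ≠ 0 → x + y ≠ 0 → min (ν x) (ν y) ≤ ν (x + y)) :
    ∃ o : Ord K, ∀ r : R, r ≠ 0 → o.v (algebraMap R K r) = ν r := by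
  have hex : ∀ x : K, ∃ p : R × R, p.2 ≠ 0 ∧ x = algebraMap R K p.1 / algebraMap R K p.2 := by
    intro x
    obtain ⟨a, b, hb, h⟩ := IsFractionRing.div_surjective (A := R) x
    exact ⟨(a, b), nonZeroDivisors.ne_zero hb, h.symm⟩
  choose p hp using hex
  have hne : ∀ a : R, a ≠ 0 → algebraMap R K a ≠ 0 := fun a ha => by simpa using ha
  let v : K → ℚ := fun x => ν (p x).1 - ν (p x).2
  have spec : ∀ (a b : R), a ≠ 0 → b ≠ 0 →
      v (algebraMap R K a / algebraMap R K b) = ν a - ν b := by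
    intro a b ha hb
    obtain ⟨q1, q2⟩ := hp (algebraMap R K a / algebraMap R K b)
    set c := (p (algebraMap R K a / algebraMap R K b)).1
    set d := (p (algebraMap R K a / algebraMap R K b)).2
    rw [div_eq_div_iff (hne b hb) (hne d q1), ← map_mul, ← map_mul] at q2
    have q3 : a * d = c * b := IsFractionRing.injective R K q2
    have hc : c ≠ 0 := left_ne_zero_of_mul (q3 ▸ mul_ne_zero ha q1)
    have h1 := hmul a d ha q1
    rw [q3, hmul c b hc hb] at h1
    change ν c - ν d = _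
    linarith
  have hex' : ∀ x : K, x ≠ 0 → ∃ a b : R, a ≠ 0 ∧ b ≠ 0 ∧
      x = algebraMap R K a / algebraMap R K b := by
    intro x hx
    refine ⟨(p x).1, (p x).2, fun h => hx ?_, (hp x).1, (hp x).2⟩
    rw [(hp x).2, h]; simp
  refine ⟨⟨v, fun x y hx hy => ?_, fun x y hx hy hxy => ?_⟩, fun a ha => ?_⟩
  · obtain ⟨a, b, ha, hb, rfl⟩ := hex' x hx
    obtain ⟨c, d, hc, hd, rfl⟩ := hex' y hy
    rw [div_mul_div_comm, ← map_mul, ← map_mul, spec _ _ (mul_ne_zero ha hc) (mul_ne_zero hb hd),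
      spec _ _ ha hb, spec _ _ hc hd, hmul _ _ ha hc, hmul _ _ hb hd]
    ring
  · obtain ⟨a, b, ha, hb, rfl⟩ := hex' x hx
    obtain ⟨c, d, hc, hd, rfl⟩ := hex' y hy
    rw [div_add_div _ _ (hne b hb) (hne d hd), ← map_mul, ← map_mul, ← map_mul, ← map_add] at hxy ⊢
    have h0 : a * d + b * c ≠ 0 := fun h => hxy (by rw [h]; simp)
    rw [spec _ _ h0 (mul_ne_zero hb hd), spec _ _ ha hb, spec _ _ hc hd, hmul _ _ hb hd]
    have := hadd _ _ (mul_ne_zero ha hd) (mul_ne_zero hb hc) h0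
    rw [hmul _ _ ha hd, hmul _ _ hb hc] at this
    rcases min_le_iff.mp this with h | h
    · exact (min_le_left _ _).trans (by linarith)
    · exact (min_le_right _ _).trans (by linarith)
  · have h1 : ν 1 = 0 := by
      have := hmul 1 1 one_ne_zero one_ne_zero
      rw [one_mul] at this; linarith
    have := spec a 1 ha one_ne_zero
    rw [map_one, div_one, h1, sub_zero] at this
    exact this

/-- an order function on an algebraic extension of the fraction field from one on the ring -/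
theorem exists_of_ring {R K : Type*} (Ω : Type*) [CommRing R] [IsDomain R] [Field K] [Algebra R K]
    [IsFractionRing R K] [Field Ω] [Algebra K Ω] [Algebra R Ω] [IsScalarTower R K Ω]
    [Algebra.IsAlgebraic K Ω] (ν : R → ℤ)
    (hmul : ∀ x y, x ≠ 0 → y ≠ 0 → ν (x * y) = ν x + ν y)
    (hadd : ∀ x y, x ≠ 0 → y ≠ 0 → x + y ≠ 0 → min (ν x) (ν y) ≤ ν (x + y)) :
    ∃ o : Ord Ω, (∀ r : R, r ≠ 0 → o.v (algebraMap R Ω r) = ν r) ∧
      ∀ a : K, a ≠ 0 → ∃ n : ℤ, o.v (algebraMap K Ω a) = n := by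
  obtain ⟨o, ho⟩ := exists_frac (K := K) (fun r => (ν r : ℚ))
    (fun x y hx hy => by rw [hmul x y hx hy]; push_cast; rfl)
    (fun x y hx hy h => by exact_mod_cast hadd x y hx hy h)
  obtain ⟨o', ho'⟩ := exists_ext (Ω := Ω) o
  have hne : ∀ a : R, a ≠ 0 → algebraMap R K a ≠ 0 := fun a ha => by simpa using ha
  refine ⟨o', fun r hr => ?_, fun a ha => ?_⟩
  · rw [IsScalarTower.algebraMap_apply R K Ω, ho' _ (hne r hr), ho r hr]
  · obtain ⟨x, y, hy, rfl⟩ := IsFractionRing.div_surjective (A := R) a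
    have hy0 := nonZeroDivisors.ne_zero hy
    have hx : x ≠ 0 := by rintro rfl; simp at ha
    refine ⟨ν x - ν y, ?_⟩
    rw [ho' _ ha, o.v_div _ _ (hne x hx) (hne y hy0), ho x hx, ho y hy0]; push_cast; rfl

end Ord

end CyV
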