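import Pool.Agent.Lib.MP_e2821c_ag.Cy.VExt

set_option autoImplicit false

namespace CyV

open Polynomial

section LogDer

variable {S Ω : Type*} [CommRing S] [Field Ω] [Algebra S Ω] (D : Derivation S Ω Ω)

theorem ld_mul {x y : Ω} (hx : x ≠ 0) (hy : y ≠ 0) :
    D (x * y) / (x * y) = D x / x + D y / y := by
  rw [D.leibniz]; simp only [smul_eq_mul]; field_simp; ring

theorem ld_inv (x : Ω) : D x⁻¹ / x⁻¹ = - (D x / x) := by
  by_cases hx : x = 0
  · simp [hx]
  rw [D.leibniz_inv]; simp only [smul_eq_mul]; field_simp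

theorem ld_div {x y : Ω} (hx : x ≠ 0) (hy : y ≠ 0) :
    D (x / y) / (x / y) = D x / x - D y / y := by
  rw [div_eq_mul_inv x y, ld_mul D hx (inv_ne_zero hy), ld_inv]; ring

theorem ld_pow (x : Ω) (n : ℕ) : D (x ^ n) / x ^ n = n * (D x / x) := by
  by_cases hx : x = 0
  · cases n <;> simp [hx]
  induction n with
  | zero => simp
  | succ n ih => rw [pow_succ, ld_mul D (pow_ne_zero _ hx) hx, ih]; push_cast; ring

theorem D_aeval {K : Type*} [CommRing K] [Algebra K Ω] (x : Ω) (Q : K[X]) :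
    D (aeval x Q) = (Q.sum fun i c => D (algebraMap K Ω c) * x ^ i) +
      aeval x (derivative Q) * D x := by
  induction Q using Polynomial.induction_on' with
  | add p q hp hq =>
    rw [map_add, map_add, hp, hq, Polynomial.sum_add_index _ _ _ (by simp)
      (by intro i a b; rw [map_add, map_add, add_mul]), map_add, map_add]
    ring
  | monomial n a =>
    rw [Polynomial.sum_monomial_index _ _ (by simp), aeval_monomial, D.leibniz,
      derivative_monomial, aeval_monomial, D.leibniz_pow]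
    simp only [smul_eq_mul, nsmul_eq_mul, map_mul, map_natCast]
    ring

end LogDer

namespace Ord

variable {K Ω : Type*} [Field K] [Field Ω] [Algebra K Ω] (o : Ord Ω)

theorem exists_ge {ι : Type*} [Finite ι] (f : ι → Ω) : ∃ c, ∀ i, o.Ge c (f i) := by
  obtain ⟨c, hc⟩ := (Set.finite_range fun i => o.v (f i)).bddBelow
  exact ⟨c, fun i => Or.inr (hc ⟨i, rfl⟩)⟩

/-- normalise a nonzero polynomial: integral coefficients, one of order zero -/
theorem exists_prim (P : K[X]) (hP : P ≠ 0) : ∃ c : K, c ≠ 0 ∧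
    (∀ i, o.Ge 0 (algebraMap K Ω ((C c * P).coeff i))) ∧
    ∃ i, ¬ o.Gt 0 (algebraMap K Ω ((C c * P).coeff i)) := by
  obtain ⟨j, hj, hmin⟩ := P.support.exists_min_image (fun i => o.v (algebraMap K Ω (P.coeff i)))
    (support_nonempty.mpr hP)
  have hj0 : P.coeff j ≠ 0 := mem_support_iff.mp hj
  refine ⟨(P.coeff j)⁻¹, inv_ne_zero hj0, fun i => ?_, j, ?_⟩
  · rw [coeff_C_mul, ← div_eq_inv_mul, map_div₀, ge_div_iff (by simpa using hj0), zero_add]
    by_cases hi : P.coeff i = 0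
    · simp [hi, ge_zero]
    exact Or.inr (hmin i (mem_support_iff.mpr hi))
  · rw [coeff_C_mul, inv_mul_cancel₀ hj0, map_one]
    simpa using not_gt_self (o := o) (one_ne_zero (α := Ω))

theorem ge_aeval {Q : K[X]} (hQ : ∀ i, o.Ge 0 (algebraMap K Ω (Q.coeff i))) {x : Ω}
    (hx : o.Ge 0 x) : o.Ge 0 (aeval x Q) := by
  rw [aeval_eq_sum_range]
  exact Ge.sum fun i _ => by rw [Algebra.smul_def]; exact (hQ i).mul₀ (hx.pow₀ i)

/-- a lift of the minimal polynomial of the residue -/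
theorem exists_resmin (hn : ∀ n : ℕ, n ≠ 0 → ¬ o.Gt 0 (n : Ω)) {x : Ω} (hx : o.Ge 0 x)
    (h : IsAlgebraic K x) : ∃ Q : K[X], (∀ i, o.Ge 0 (algebraMap K Ω (Q.coeff i))) ∧
      o.Gt 0 (aeval x Q) ∧ aeval x (derivative Q) ≠ 0 ∧ o.v (aeval x (derivative Q)) = 0 := by
  classical
  let T : K[X] → Prop := fun Q => (∀ i, o.Ge 0 (algebraMap K Ω (Q.coeff i))) ∧
    (∃ i, ¬ o.Gt 0 (algebraMap K Ω (Q.coeff i))) ∧ o.Gt 0 (aeval x Q)
  have hex : ∃ d, ∃ Q, T Q ∧ Q.natDegree = d := by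
    obtain ⟨P, hP, h⟩ := h
    obtain ⟨c, -, h1, h2⟩ := o.exists_prim P hP
    exact ⟨_, C c * P, ⟨h1, h2, by simp [h, gt_zero]⟩, rfl⟩
  obtain ⟨Q, ⟨h1, ⟨i, h2⟩, h3⟩, hd⟩ := Nat.find_spec hex
  have hmin : ∀ Q', T Q' → Q.natDegree ≤ Q'.natDegree := fun Q' h' =>
    hd ▸ Nat.find_min' hex ⟨Q', h', rfl⟩
  have hlc : ¬ o.Gt 0 (algebraMap K Ω Q.leadingCoeff) := by
    intro hl
    have hi : i ≠ Q.natDegree := by rintro rfl; exact h2 hl
    have hT : T Q.eraseLead := by
      refine ⟨fun j => ?_, ⟨i, by rwa [eraseLead_coeff_of_ne _ hi]⟩, ?_⟩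
      · by_cases hj : j = Q.natDegree
        · rw [hj, eraseLead_coeff_natDegree, map_zero]; exact ge_zero 0
        · rw [eraseLead_coeff_of_ne _ hj]; exact h1 j
      · rw [← self_sub_C_mul_X_pow, map_sub, map_mul, aeval_C, map_pow, aeval_X]
        exact h3.sub (hl.mul₀ (hx.pow₀ _))
    rcases eraseLead_natDegree_lt_or_eraseLead_eq_zero Q with h | h
    · exact absurd (hmin _ hT) (not_le.mpr h)
    · obtain ⟨j, hj⟩ := hT.2.1
      rw [h] at hj
      exact hj (by simp [gt_zero])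
  have hd0 : Q.natDegree ≠ 0 := by
    intro h0
    rw [eq_C_of_natDegree_eq_zero h0, aeval_C] at h3
    exact hlc (by rwa [leadingCoeff, h0])
  have hder : ∀ j, o.Ge 0 (algebraMap K Ω ((derivative Q).coeff j)) := by
    intro j
    rw [coeff_derivative, map_mul]
    refine (h1 _).mul₀ ?_
    have := ge_natCast (o := o) (j + 1)
    simpa using this
  refine ⟨Q, h1, h3, eq_zero_of_ge_not_gt (o.ge_aeval hder hx) fun hc => ?_⟩
  have hT : T (derivative Q) := by
    refine ⟨hder, ⟨Q.natDegree - 1, fun hg => ?_⟩, hc⟩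
    rw [coeff_derivative, Nat.sub_add_cancel (Nat.pos_of_ne_zero hd0), map_mul] at hg
    have e : algebraMap K Ω (((Q.natDegree - 1 : ℕ) : K) + 1) = (Q.natDegree : Ω) := by
      rw [← Nat.cast_succ, Nat.succ_eq_add_one, Nat.sub_add_cancel (Nat.pos_of_ne_zero hd0),
        map_natCast]
    rw [e] at hg
    obtain ⟨a1, a2⟩ := eq_zero_of_ge_not_gt (h1 Q.natDegree) hlc
    obtain ⟨b1, b2⟩ := eq_zero_of_ge_not_gt (ge_natCast (o := o) Q.natDegree) (hn _ hd0)
    have := hg.lt (mul_ne_zero a1 b1)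
    rw [o.v_mul _ _ a1 b1, a2, b2] at this
    simp at this
  exact absurd (hmin _ hT) (not_le.mpr (natDegree_derivative_lt hd0))

/-- a denominator which is a unit here and integral, with its numerator, at all conjugates -/
theorem exists_den {x : Ω} (hx : o.Ge 0 x) (P : K[X]) (hP : P ≠ 0) :
    ∃ Y : K[X], aeval x Y ≠ 0 ∧ o.v (aeval x Y) = 0 ∧
      ∀ t : Ω, aeval t P = 0 → o.Ge 0 (aeval t Y) ∧ o.Ge 0 (t * aeval t Y) := by
  classical
  obtain ⟨c, hc, h1, i, h2⟩ := o.exists_prim P hP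
  set Q := C c * P with hQ
  obtain ⟨j, hj, hmax⟩ := (Q.support.filter fun i =>
    ¬ o.Gt 0 (algebraMap K Ω (Q.coeff i))).exists_max_image id
    ⟨i, Finset.mem_filter.mpr ⟨mem_support_iff.mpr fun h => h2 (by simp [h, gt_zero]), h2⟩⟩
  rw [Finset.mem_filter] at hj
  have hbig : ∀ l, j < l → o.Gt 0 (algebraMap K Ω (Q.coeff l)) := by
    intro l hl
    by_contra hg
    exact absurd (hmax l (Finset.mem_filter.mpr
      ⟨mem_support_iff.mpr fun h => hg (by simp [h, gt_zero]), hg⟩)) (not_le.mpr hl)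
  set N := Q.natDegree
  have hY : ∀ t : Ω, aeval t (∑ l ∈ Finset.range (N + 1), monomial l (Q.coeff (j + l))) =
      ∑ l ∈ Finset.range (N + 1), algebraMap K Ω (Q.coeff (j + l)) * t ^ l := by
    intro t; simp [aeval_monomial]
  refine ⟨∑ l ∈ Finset.range (N + 1), monomial l (Q.coeff (j + l)), ?_⟩
  simp only [hY]
  have hge : ∀ t : Ω, o.Ge 0 t →
      o.Ge 0 (∑ l ∈ Finset.range (N + 1), algebraMap K Ω (Q.coeff (j + l)) * t ^ l) :=
    fun t ht => Ge.sum fun l _ => (h1 _).mul₀ (ht.pow₀ l)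
  rw [← and_assoc]
  refine ⟨eq_zero_of_ge_not_gt (hge x hx) fun hg => hj.2 ?_, fun t ht => ?_⟩
  · rw [Finset.sum_range_succ', pow_zero, mul_one, add_zero] at hg
    have h4 : o.Gt 0 (∑ l ∈ Finset.range N, algebraMap K Ω (Q.coeff (j + (l + 1))) * x ^ (l + 1)) :=
      Gt.sum fun l _ => (hbig _ (by omega)).mul₀ (hx.pow₀ _)
    simpa using hg.sub h4
  · by_cases h0 : o.Ge 0 t
    · exact ⟨hge t h0, h0.mul₀ (hge t h0)⟩
    have ht0 : t ≠ 0 := fun h => h0 (Or.inl h)
    have hinv : o.Ge 0 t⁻¹ := Or.inr (by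
      rw [o.v_inv t ht0]
      have := not_le.mp fun h => h0 (Or.inr h)
      linarith)
    have hQt : aeval t Q = 0 := by simp [hQ, ht]
    rw [aeval_eq_sum_range' (n := j + (N + 1)) (by omega), Finset.sum_range_add] at hQt
    simp only [Algebra.smul_def] at hQt
    have key : t * ∑ l ∈ Finset.range (N + 1), algebraMap K Ω (Q.coeff (j + l)) * t ^ l =
        - ∑ l ∈ Finset.range j, algebraMap K Ω (Q.coeff l) * t⁻¹ ^ (j - 1 - l) := by
      apply mul_left_cancel₀ (pow_ne_zero j ht0)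
      have e1 : ∑ l ∈ Finset.range (N + 1), algebraMap K Ω (Q.coeff (j + l)) * t ^ (j + l) =
          t ^ j * ∑ l ∈ Finset.range (N + 1), algebraMap K Ω (Q.coeff (j + l)) * t ^ l := by
        rw [Finset.mul_sum]; exact Finset.sum_congr rfl fun l _ => by ring
      have e2 : t ^ j * ∑ l ∈ Finset.range j, algebraMap K Ω (Q.coeff l) * t⁻¹ ^ (j - 1 - l) =
          t * ∑ l ∈ Finset.range j, algebraMap K Ω (Q.coeff l) * t ^ l := by
        rw [Finset.mul_sum, Finset.mul_sum]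
        refine Finset.sum_congr rfl fun l hl => ?_
        rw [Finset.mem_range] at hl
        obtain ⟨r, rfl⟩ : ∃ r, j = l + 1 + r := ⟨j - 1 - l, by omega⟩
        rw [show l + 1 + r - 1 - l = r by omega, inv_pow]
        field_simp
        ring
      rw [e1] at hQt
      rw [mul_neg, e2]
      linear_combination t * hQt
    have h5 : o.Ge 0 (t * ∑ l ∈ Finset.range (N + 1), algebraMap K Ω (Q.coeff (j + l)) * t ^ l) := by
      rw [key]; exact (Ge.sum fun l _ => (h1 _).mul₀ (hinv.pow₀ _)).neg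
    refine ⟨?_, h5⟩
    have := hinv.mul₀ h5
    rwa [inv_mul_cancel_left₀ ht0] at this

variable {S : Type*} [CommRing S] [Algebra S Ω] (D : Derivation S Ω Ω)

theorem ge_D_base (hK : ∀ a : K, o.Ge 0 (D (algebraMap K Ω a) / algebraMap K Ω a)) {r : ℚ} {a : K}
    (ha : o.Ge r (algebraMap K Ω a)) : o.Ge r (D (algebraMap K Ω a)) := by
  by_cases h0 : algebraMap K Ω a = 0
  · simp [h0, ge_zero]
  have := (hK a).mul ha
  rwa [div_mul_cancel₀ _ h0, zero_add] at this

theorem bound_int [IsAlgClosed Ω] [CharZero K] (L : IntermediateField K Ω) [FiniteDimensional K L]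
    (hK : ∀ a : K, o.Ge 0 (D (algebraMap K Ω a) / algebraMap K Ω a)) :
    ∃ c, ∀ y : L, (∀ σ : L →ₐ[K] Ω, o.Ge 0 (σ y)) → o.Ge c (D y) := by
  classical
  let b := Module.finBasis K L
  let b' := (Algebra.traceForm K L).dualBasis (traceForm_nondegenerate K L) b
  obtain ⟨c1, h1⟩ := o.exists_ge fun p : (L →ₐ[K] Ω) × Fin (Module.finrank K L) => p.1 (b p.2)
  obtain ⟨c2, h2⟩ := o.exists_ge fun i => (b' i : Ω)
  obtain ⟨c3, h3⟩ := o.exists_ge fun i => D (b' i : Ω)
  refine ⟨c1 + min c2 c3, fun y hy => ?_⟩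
  have ha : ∀ i, o.Ge c1 (algebraMap K Ω (b'.repr y i)) := by
    intro i
    rw [LinearMap.BilinForm.dualBasis_repr_apply, Algebra.traceForm_apply,
      trace_eq_sum_embeddings Ω]
    refine Ge.sum fun σ _ => ?_
    rw [map_mul]
    simpa using (hy σ).mul (h1 (σ, i))
  have e : (y : Ω) = ∑ i, algebraMap K Ω (b'.repr y i) * (b' i : Ω) := by
    conv_lhs => rw [← b'.sum_repr y]
    simp [Algebra.smul_def]
  rw [e, map_sum]
  refine Ge.sum fun i _ => ?_
  rw [D.leibniz, smul_eq_mul, smul_eq_mul, mul_comm (b' i : Ω)]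
  exact ((ha i).mul ((h3 i).mono (min_le_right _ _))).add
    ((o.ge_D_base D hK (ha i)).mul ((h2 i).mono (min_le_left _ _)))

/-- reduction of logarithmic derivatives to elements of order zero -/
theorem red_unit (L : IntermediateField K Ω) [FiniteDimensional K L] (x : L) (hx : (x : Ω) ≠ 0) :
    ∃ (n : ℕ) (a : K) (y : L), 0 < n ∧ n ≤ Module.finrank K L ∧ a ≠ 0 ∧ (y : Ω) ≠ 0 ∧
      o.v y = 0 ∧ n * o.v x = o.v (algebraMap K Ω a) ∧
      n * (D x / x) = D y / y + D (algebraMap K Ω a) / algebraMap K Ω a := by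
  have hi : IsIntegral K x := Algebra.IsIntegral.isIntegral x
  obtain ⟨n, hn, hle, a, ha, h⟩ := o.exists_pow_v hx (minpoly K x) (minpoly.ne_zero hi)
    (by rw [IntermediateField.aeval_coe, minpoly.aeval]; rfl)
  have ha' : algebraMap K Ω a ≠ 0 := by simpa using ha
  have e : ((x ^ n / algebraMap K L a : L) : Ω) = (x : Ω) ^ n / algebraMap K Ω a := by
    push_cast; rfl
  refine ⟨n, a, x ^ n / algebraMap K L a, hn, hle.trans (minpoly.natDegree_le x), ha, ?_, ?_, h, ?_⟩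
  · rw [e]; exact div_ne_zero (pow_ne_zero _ hx) ha'
  · rw [e, o.v_div _ _ (pow_ne_zero _ hx) ha', o.v_pow _ hx, h, sub_self]
  · rw [e, ld_div D (pow_ne_zero _ hx) ha', ld_pow]; ring

theorem ge_of_nat_mul (hn : ∀ n : ℕ, n ≠ 0 → ¬ o.Gt 0 (n : Ω)) {n : ℕ} (h0 : n ≠ 0) {r : ℚ} {x : Ω}
    (h : o.Ge r (n * x)) : o.Ge r x := by
  obtain ⟨b1, b2⟩ := eq_zero_of_ge_not_gt (ge_natCast (o := o) n) (hn _ h0)
  rw [← mul_div_cancel_left₀ x b1, ge_div_iff b1, b2, add_zero]; exact h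

theorem gt_of_nat_mul (hn : ∀ n : ℕ, n ≠ 0 → ¬ o.Gt 0 (n : Ω)) {n : ℕ} (h0 : n ≠ 0) {r : ℚ} {x : Ω}
    (h : o.Gt r (n * x)) : o.Gt r x := by
  obtain ⟨b1, b2⟩ := eq_zero_of_ge_not_gt (ge_natCast (o := o) n) (hn _ h0)
  rw [← mul_div_cancel_left₀ x b1, gt_div_iff b1, b2, add_zero]; exact h

/-- SD, first part: logarithmic derivations stay logarithmic in algebraic extensions -/
theorem sd1 [IsAlgClosed Ω] [CharZero K] [Algebra.IsAlgebraic K Ω]
    (hn : ∀ n : ℕ, n ≠ 0 → ¬ o.Gt 0 (n : Ω))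
    (hZ : ∀ a : K, a ≠ 0 → ∃ n : ℤ, o.v (algebraMap K Ω a) = n)
    (hK : ∀ a : K, o.Ge 0 (D (algebraMap K Ω a) / algebraMap K Ω a)) (x : Ω) :
    o.Ge 0 (D x / x) := by
  let L : IntermediateField K Ω := IntermediateField.adjoin K {x}
  have : FiniteDimensional K L :=
    IntermediateField.adjoin.finiteDimensional (Algebra.IsIntegral.isIntegral x)
  have red : ∀ γ : ℚ, γ ≤ 0 → (∀ y : L, (y : Ω) ≠ 0 → o.v y = 0 → o.Ge γ (D y)) →
      ∀ y : L, o.Ge γ (D y / y) := by
    intro γ hγ h y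
    by_cases hy : (y : Ω) = 0
    · simp [hy, ge_zero]
    obtain ⟨n, a, z, hn0, -, -, hz, hv, -, e⟩ := o.red_unit D L y hy
    refine o.ge_of_nat_mul hn hn0.ne' ?_
    rw [e]
    exact ((ge_div_iff hz).mpr (by rw [hv, add_zero]; exact h z hz hv)).add ((hK a).mono hγ)
  obtain ⟨c, hc⟩ := o.bound_int D L hK
  have base : ∀ y : L, o.Ge (min c 0) (D y / y) := by
    refine red _ (min_le_right _ _) fun y hy hv => Ge.mono ?_ (min_le_left _ _)
    have hi : IsIntegral K y := Algebra.IsIntegral.isIntegral y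
    have hy0 : o.Ge 0 (y : Ω) := Or.inr hv.ge
    obtain ⟨Y, h1, h2, h3⟩ := o.exists_den hy0 (minpoly K y) (minpoly.ne_zero hi)
    have hroot : ∀ σ : L →ₐ[K] Ω, aeval (σ y) (minpoly K y) = 0 := fun σ => by
      rw [aeval_algHom_apply, minpoly.aeval, map_zero]
    have a1 := hc (aeval y Y) fun σ => by rw [← aeval_algHom_apply]; exact (h3 _ (hroot σ)).1
    have a2 := hc (y * aeval y Y) fun σ => by
      rw [map_mul, ← aeval_algHom_apply]; exact (h3 _ (hroot σ)).2
    rw [← IntermediateField.aeval_coe] at a1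
    rw [IntermediateField.coe_mul, ← IntermediateField.aeval_coe, D.leibniz, smul_eq_mul,
      smul_eq_mul] at a2
    have a3 := a2.sub ((hy0.mul a1).mono (zero_add c).ge)
    rw [add_sub_cancel_left] at a3
    rw [← mul_div_cancel_left₀ (D y) h1, ge_div_iff h1, h2, add_zero]
    exact a3
  set N := Module.finrank K L
  have hN : (0 : ℚ) < N := by exact_mod_cast Module.finrank_pos (R := K) (M := L)
  have step : ∀ γ : ℚ, (∀ y : L, o.Ge γ (D y / y)) →
      ∀ y : L, o.Ge (min (γ + 1 / N) 0) (D y / y) := by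
    intro γ h
    refine red _ (min_le_right _ _) fun y hy hv => ?_
    have hy0 : o.Ge 0 (y : Ω) := Or.inr hv.ge
    obtain ⟨Q, q1, q2, q3, q4⟩ := o.exists_resmin (K := K) hn hy0
      (Algebra.IsAlgebraic.isAlgebraic _)
    have a1 : o.Ge (min (γ + 1 / N) 0) (D (aeval (y : Ω) Q)) := by
      by_cases h0 : aeval (y : Ω) Q = 0
      · simp [h0, ge_zero]
      have h4 := h (aeval y Q)
      rw [← IntermediateField.aeval_coe, ge_div_iff h0] at h4
      refine h4.mono ((min_le_left _ _).trans (add_le_add le_rfl ?_))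
      obtain ⟨n, a, -, hn0, hnN, ha, -, -, e, -⟩ := o.red_unit D L (aeval y Q)
        (by rwa [← IntermediateField.aeval_coe])
      rw [← IntermediateField.aeval_coe] at e
      obtain ⟨z, hz⟩ := hZ a ha
      have hpos := q2.lt h0
      have hn1 : (0 : ℚ) < n := by exact_mod_cast hn0
      have hz0 : (0 : ℤ) < z := by
        have : (0 : ℚ) < z := by rw [← hz, ← e]; positivity
        exact_mod_cast this
      have hz1 : (1 : ℚ) ≤ z := by exact_mod_cast hz0
      have hnN' : (n : ℚ) ≤ N := by exact_mod_cast hnN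
      rw [div_le_iff₀ hN]
      nlinarith
    have a2 : o.Ge 0 (Q.sum fun i c => D (algebraMap K Ω c) * (y : Ω) ^ i) :=
      Ge.sum fun i _ => (o.ge_D_base D hK (q1 i)).mul₀ (hy0.pow₀ i)
    have a3 := a1.sub (a2.mono (min_le_right _ _))
    rw [D_aeval, add_sub_cancel_left] at a3
    rw [← mul_div_cancel_left₀ (D y) q3, ge_div_iff q3, q4, add_zero]
    exact a3
  have all : ∀ r : ℕ, ∀ y : L, o.Ge (min (min c 0 + r / N) 0) (D y / y) := by
    intro r
    induction r with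
    | zero => intro y; simpa using base y
    | succ r ih =>
      intro y
      refine (step _ ih y).mono ?_
      have : (0 : ℚ) < 1 / N := by positivity
      push_cast
      rw [add_div]
      simp only [min_def]
      split_ifs <;> linarith
  obtain ⟨r, hr⟩ := exists_nat_ge (- min c 0 * N)
  refine (all r ⟨x, IntermediateField.mem_adjoin_simple_self K x⟩).mono (le_min ?_ le_rfl)
  rw [← le_div_iff₀ hN] at hr
  linarith

/-- SD, second part: the residue of the logarithmic derivative is the order -/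
theorem sd2 [IsAlgClosed Ω] [CharZero K] [Algebra.IsAlgebraic K Ω]
    (hn : ∀ n : ℕ, n ≠ 0 → ¬ o.Gt 0 (n : Ω))
    (hZ : ∀ a : K, a ≠ 0 → ∃ n : ℤ, o.v (algebraMap K Ω a) = n) [CharZero Ω] (θ : Ω)
    (hθ : o.Ge 0 θ) (hK : ∀ a : K, a ≠ 0 →
      o.Gt 0 (D (algebraMap K Ω a) / algebraMap K Ω a - (o.v (algebraMap K Ω a) : Ω) * θ))
    {x : Ω} (hx : x ≠ 0) : o.Gt 0 (D x / x - (o.v x : Ω) * θ) := by
  have hK1 : ∀ a : K, o.Ge 0 (D (algebraMap K Ω a) / algebraMap K Ω a) := by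
    intro a
    by_cases ha : a = 0
    · simp [ha, ge_zero]
    obtain ⟨z, hz⟩ := hZ a ha
    have h1 := (hK a ha).ge
    rw [hz, Rat.cast_intCast] at h1
    simpa using h1.add ((ge_intCast z).mul₀ hθ)
  have s1 := o.sd1 D hn hZ hK1
  have hpos : ∀ y : Ω, o.Gt 0 y → o.Gt 0 (D y) := by
    intro y hy
    by_cases h0 : y = 0
    · simp [h0, gt_zero]
    have := (s1 y).mul_gt₀ hy
    rwa [div_mul_cancel₀ _ h0] at this
  have hA : ∀ a : K, o.Ge 0 (algebraMap K Ω a) → o.Gt 0 (D (algebraMap K Ω a)) := by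
    intro a ha
    by_cases hg : o.Gt 0 (algebraMap K Ω a)
    · exact hpos _ hg
    obtain ⟨b1, b2⟩ := eq_zero_of_ge_not_gt ha hg
    have := hK a (by simpa using b1)
    rwa [b2, Rat.cast_zero, zero_mul, sub_zero, gt_div_iff b1, b2, add_zero] at this
  let L : IntermediateField K Ω := IntermediateField.adjoin K {x}
  have : FiniteDimensional K L :=
    IntermediateField.adjoin.finiteDimensional (Algebra.IsIntegral.isIntegral x)
  obtain ⟨n, a, y, hn0, -, ha, hy, hv, e1, e2⟩ :=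
    o.red_unit D L ⟨x, IntermediateField.mem_adjoin_simple_self K x⟩ hx
  have hy0 : o.Ge 0 (y : Ω) := Or.inr hv.ge
  obtain ⟨Q, q1, q2, q3, q4⟩ := o.exists_resmin (K := K) hn hy0
    (Algebra.IsAlgebraic.isAlgebraic _)
  have a2 : o.Gt 0 (Q.sum fun i c => D (algebraMap K Ω c) * (y : Ω) ^ i) :=
    Gt.sum fun i _ => (hA _ (q1 i)).mul₀ (hy0.pow₀ i)
  have a3 := (hpos _ q2).sub a2
  rw [D_aeval, add_sub_cancel_left] at a3
  have a4 : o.Gt 0 (D y / y) := by
    rw [gt_div_iff hy, hv, add_zero, ← mul_div_cancel_left₀ (D y) q3, gt_div_iff q3, q4, add_zero]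
    exact a3
  refine o.gt_of_nat_mul hn hn0.ne' ?_
  have a5 := a4.add (hK a ha)
  rw [← e1] at a5
  convert a5 using 1
  simp only at e2
  push_cast
  linear_combination e2

end Ord

end CyV
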