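import Pool.Agent.Lib.MP_e2821c_ag.Cy.Luroth
import Pool.Agent.Lib.MP_e2821c_ag.Cy.Simp

namespace Pool.Agent.MP_e2821c_ag.Cy

open MvPolynomial
open scoped TensorProduct

universe u v w

noncomputable section

namespace YLemma

section General

variable {𝕂 : Type w} [CommRing 𝕂]

/-- The quotient `Q / P` of two families of submodules is acyclic in degree `m + 1`. -/
def RelAc (X : SMod.{v} 𝕂) (P Q : ∀ m, Submodule 𝕂 (X.obj m)) (m : ℕ) : Prop :=
  ∀ x ∈ Q (m + 1), X.d m x ∈ P m → ∃ y ∈ Q (m + 2), x - X.d (m + 1) y ∈ P (m + 1)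

theorem RelAc.trans {X : SMod.{v} 𝕂} {P Q S : ∀ m, Submodule 𝕂 (X.obj m)} {m : ℕ}
    (hPQ : ∀ m, P m ≤ Q m) (hQS : ∀ m, Q m ≤ S m) (h1 : RelAc X P Q m) (h2 : RelAc X Q S m) :
    RelAc X P S m := by
  intro x hx hd
  obtain ⟨y, hy, h3⟩ := h2 x hx (hPQ _ hd)
  obtain ⟨y', hy', h4⟩ := h1 _ h3 (by rw [map_sub, X.d_d, sub_zero]; exact hd)
  refine ⟨y + y', add_mem hy (hQS _ hy'), ?_⟩
  rwa [map_add, ← sub_sub]

theorem RelAc.quot {X : SMod.{v} 𝕂} {P Q : ∀ m, Submodule 𝕂 (X.obj m)} {m : ℕ}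
    (hPQ : ∀ m, P m ≤ Q m) (h1 : RelAc X P (fun _ => ⊤) (m + 1)) (h2 : RelAc X P Q m) :
    RelAc X Q (fun _ => ⊤) (m + 1) := by
  intro x _ hd
  obtain ⟨w, hw, h3⟩ := h2 _ hd (by rw [X.d_d]; exact zero_mem _)
  obtain ⟨y, -, h4⟩ := h1 (x - w) trivial (by rw [map_sub]; exact h3)
  refine ⟨y, trivial, ?_⟩
  have := add_mem (hPQ _ h4) hw
  rwa [sub_right_comm, sub_add_cancel] at this

variable {M N : Type*}

theorem map_mem {φ : M → N} {D : Set M} {E : Set N} (h : ∀ a ∈ D, φ a ∈ E) {z : M →₀ 𝕂}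
    (hz : z ∈ Finsupp.supported 𝕂 𝕂 D) : Finsupp.mapDomain φ z ∈ Finsupp.supported 𝕂 𝕂 E := by
  classical
  rw [Finsupp.mem_supported] at hz ⊢
  intro n hn
  obtain ⟨a, ha, rfl⟩ := Finset.mem_image.1 (Finsupp.mapDomain_support hn)
  exact h a (hz ha)

theorem mem_of_map_mem {φ : M → N} {D : Set M} {E : Set N} (h : ∀ a, a ∈ D ↔ φ a ∈ E)
    (inj : ∀ a b, a ∉ D → b ∉ D → φ a = φ b → a = b) {z : M →₀ 𝕂}
    (hz : Finsupp.mapDomain φ z ∈ Finsupp.supported 𝕂 𝕂 E) : z ∈ Finsupp.supported 𝕂 𝕂 D := by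
  classical
  rw [Finsupp.mem_supported'] at hz ⊢
  intro a ha
  have e := hz (φ a) fun c => ha ((h a).2 c)
  rw [Finsupp.mapDomain, Finsupp.sum_apply, Finsupp.sum, Finset.sum_eq_single a] at e
  · simpa using e
  · intro b _ hb
    refine Finsupp.single_eq_of_ne' fun c => hb ?_
    exact inj b a (fun d => ha ((h a).2 (c ▸ (h b).1 d))) ha c
  · intro c
    rw [Finsupp.notMem_support_iff.1 c, Finsupp.single_zero, Finsupp.zero_apply]

theorem exists_lift {φ : M → N} {E E' : Set N} (h : ∀ n ∈ E', n ∉ E → ∃ a, φ a = n)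
    {x : N →₀ 𝕂} (hx : x ∈ Finsupp.supported 𝕂 𝕂 E') :
    ∃ z : M →₀ 𝕂, x - Finsupp.mapDomain φ z ∈ Finsupp.supported 𝕂 𝕂 E := by
  rw [Finsupp.supported_eq_span_single] at hx
  induction hx using Submodule.span_induction with
  | mem y hy =>
    obtain ⟨n, hn, rfl⟩ := hy
    by_cases c : n ∈ E
    · exact ⟨0, by simpa using Finsupp.single_mem_supported 𝕂 1 c⟩
    · obtain ⟨a, rfl⟩ := h n hn c
      exact ⟨Finsupp.single a 1, by simp⟩
  | zero => exact ⟨0, by simp⟩
  | add a b _ _ ha hb =>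
    obtain ⟨z, hz⟩ := ha
    obtain ⟨z', hz'⟩ := hb
    refine ⟨z + z', ?_⟩
    rw [Finsupp.mapDomain_add, add_sub_add_comm]
    exact add_mem hz hz'
  | smul c a _ ha =>
    obtain ⟨z, hz⟩ := ha
    refine ⟨c • z, ?_⟩
    rw [Finsupp.mapDomain_smul, ← smul_sub]
    exact Submodule.smul_mem _ c hz

end General

variable {k : Type u} [Field k]

/-- The action of a map of vertex sets on labelled tuples. -/
abbrev ac' {Λ : Type u} {I : Type} {a b : ℕ} (f : Fin (a + 1) → Fin (b + 1))
    (x : Λ × (I → Base k b)) : Λ × (I → Base k a) := (x.1, fun i => sm k f (x.2 i))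

theorem act_eq {Λ : Type u} {I : Type} {a b : ℕ} (f : Fin (a + 1) → Fin (b + 1))
    (x : (YS k Λ I).obj b) : (YS k Λ I).act f x = Finsupp.mapDomain (ac' f) x := rfl

theorem d_map {Λ Λ' : Type u} {I I' : Type}
    (φ : ∀ m, Λ' × (I' → Base k m) → Λ × (I → Base k m))
    (hφ : ∀ (a b : ℕ) (f : Fin (a + 1) → Fin (b + 1)) (x : Λ' × (I' → Base k b)),
      φ a (ac' f x) = ac' f (φ b x)) (m : ℕ) (x : (YS k Λ' I').obj (m + 1)) :
    (YS k Λ I).d m (Finsupp.mapDomain (φ (m + 1)) x) =
      Finsupp.mapDomain (φ m) ((YS k Λ' I').d m x) := by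
  rw [SMod.d_apply, SMod.d_apply, Finsupp.mapDomain_finsetSum]
  refine Finset.sum_congr rfl fun i _ => ?_
  rw [Finsupp.mapDomain_smul, act_eq, act_eq, ← Finsupp.mapDomain_comp, ← Finsupp.mapDomain_comp]
  congr 2
  exact funext fun y => (hφ _ _ _ y).symm

theorem d_mem {Λ : Type u} {I : Type} {E : ∀ m, Set (Λ × (I → Base k m))}
    (hE : ∀ (a b : ℕ) (f : Fin (a + 1) → Fin (b + 1)), ∀ x ∈ E b, ac' f x ∈ E a) {m : ℕ}
    {x : (YS k Λ I).obj (m + 1)} (hx : x ∈ Finsupp.supported k k (E (m + 1))) :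
    (YS k Λ I).d m x ∈ Finsupp.supported k k (E m) := by
  rw [SMod.d_apply]
  exact Submodule.sum_mem _ fun i _ => Submodule.smul_mem _ _ (map_mem (hE _ _ _) hx)

variable (k) in
/-- The degenerate labelled tuples. -/
def DS (Λ : Type u) (I : Type) (m : ℕ) : Set (Λ × (I → Base k m)) := {x | DegT x.2}

theorem transfer {Λ Λ' : Type u} {I I' : Type}
    (φ : ∀ m, Λ' × (I' → Base k m) → Λ × (I → Base k m))
    (hφ : ∀ (a b : ℕ) (f : Fin (a + 1) → Fin (b + 1)) (x : Λ' × (I' → Base k b)),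
      φ a (ac' f x) = ac' f (φ b x)) (E E' : ∀ m, Set (Λ × (I → Base k m)))
    (hE : ∀ (a b : ℕ) (f : Fin (a + 1) → Fin (b + 1)), ∀ x ∈ E b, ac' f x ∈ E a)
    (h1 : ∀ m x, DegT x.2 ↔ φ m x ∈ E m) (h2 : ∀ m x, φ m x ∈ E' m)
    (inj : ∀ m x y, ¬DegT x.2 → ¬DegT y.2 → φ m x = φ m y → x = y)
    (surj : ∀ m, ∀ n ∈ E' m, n ∉ E m → ∃ x, φ m x = n) {j : ℕ}
    (h : RelAc (YS k Λ' I') (degY k Λ' I') (fun _ => ⊤) j) :
    RelAc (YS k Λ I) (fun m => Finsupp.supported k k (E m))
      (fun m => Finsupp.supported k k (E' m)) j := by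
  intro x hx hd
  obtain ⟨z, hz⟩ := exists_lift (surj (j + 1)) hx
  have a1 := sub_mem hd (d_mem hE hz)
  rw [map_sub, sub_sub_cancel, d_map φ hφ] at a1
  obtain ⟨y, -, hy⟩ := h z trivial (mem_of_map_mem (D := DS k Λ' I' j) (h1 j) (inj j) a1)
  refine ⟨Finsupp.mapDomain (φ (j + 2)) y,
    map_mem (D := Set.univ) (fun a _ => h2 _ a) (by simp), ?_⟩
  have a2 := add_mem hz (map_mem (D := DS k Λ' I' _) (fun a ha => (h1 (j + 1) a).1 ha) hy)
  rwa [Finsupp.mapDomain_sub, ← d_map φ hφ, sub_add_sub_cancel] at a2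

theorem const_map {a b : ℕ} (ψ : Base k b →ₐ[k] Base k a) {p : Base k b} (h : ¬NonConst p) :
    ¬NonConst (ψ p) := by
  intro c
  refine h fun x e => c x ?_
  rw [e]
  exact algHom_C ψ x

theorem degT_map {I : Type} {a b : ℕ} (ψ : Base k b →ₐ[k] Base k a) {p : I → Base k b}
    (h : DegT p) : DegT fun i => ψ (p i) := by
  rcases h with ⟨i, h⟩ | ⟨i, i', n, h⟩
  · exact Or.inl ⟨i, const_map ψ h⟩
  · exact Or.inr ⟨i, i', n, h.map ψ⟩

theorem map_ev {a b : ℕ} (ψ : Base k b →ₐ[k] Base k a) (q : Base k b) (h : Base k 1) :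
    ψ (ev q h) = ev (ψ q) h := DFunLike.congr_fun (comp_ev ψ q) h

theorem dep_one (h h' : Base k 1) : Dep h h' := fun a => by
  have := a.lift_cardinalMk_le_trdeg
  simp [MvPolynomial.trdeg_of_isDomain] at this

theorem dep_ev {m : ℕ} (q : Base k m) (h h' : Base k 1) : Dep (ev q h) (ev q h') :=
  (dep_one h h').map (aeval fun _ => q)

theorem dep_ev' {m : ℕ} (q : Base k m) (h : Base k 1) : Dep (ev q h) q := by
  simpa using dep_ev q h (X0 k)

theorem const_ev {m : ℕ} {q : Base k m} (hq : ¬NonConst q) (h : Base k 1) :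
    ¬NonConst (ev q h) := by
  intro c
  refine hq fun x e => c (eval (fun _ => x) h) ?_
  have : ev q = (C : k →+* Base k m).comp (eval fun _ => x) :=
    MvPolynomial.ringHom_ext (fun c => by simp) fun i => by simp [ev, e]
  rw [this]
  rfl

theorem nonConst_ev [IsAlgClosed k] {m : ℕ} {q : Base k m} (hq : NonConst q) {h : Base k 1}
    (hh : NonConst h) : NonConst (ev q h) := by
  have t : Transcendental k q := fun a => by
    have hi := a.isIntegral
    obtain ⟨c, hc⟩ := minpoly.mem_range_of_degree_eq_one k q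
      (IsAlgClosed.degree_eq_one_of_irreducible k (minpoly.irreducible hi))
    exact hq c hc.symm
  have i : AlgebraicIndependent k fun _ : Fin 1 => q := algebraicIndependent_unique_type_iff.2 t
  intro c e
  exact hh c (i (e.trans (ev_C q c).symm))

theorem degT_update [IsAlgClosed k] {I : Type} [DecidableEq I] {m : ℕ} {q : I → Base k m} {i : I}
    {r : Base k m} (hq : DegT q) (h1 : ¬NonConst (q i) → ¬NonConst r) (h2 : Dep r (q i)) :
    DegT (Function.update q i r) := by
  by_cases c : NonConst (q i)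
  · rcases hq with ⟨b, h⟩ | ⟨b, b', n, h⟩
    · have : b ≠ i := fun e => h (e ▸ c)
      exact Or.inl ⟨b, by rwa [Function.update_of_ne this]⟩
    · refine Or.inr ⟨b, b', n, ?_⟩
      by_cases e : b = i
      · subst e
        rw [Function.update_self, Function.update_of_ne n.symm]
        exact h2.trans h c
      · by_cases e' : b' = i
        · subst e'
          rw [Function.update_self, Function.update_of_ne n]
          exact h.trans h2.symm c
        · rwa [Function.update_of_ne e, Function.update_of_ne e']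
  · exact Or.inl ⟨i, by rw [Function.update_self]; exact h1 c⟩

theorem degT_some {I : Type} {m : ℕ} {p : Option I → Base k m} (h : DegT fun i => p (some i)) :
    DegT p := by
  rcases h with ⟨i, h⟩ | ⟨i, i', n, h⟩
  · exact Or.inl ⟨some i, h⟩
  · exact Or.inr ⟨some i, some i', fun e => n (Option.some.inj e), h⟩

variable (k) in
/-- Tuples whose old entries are degenerate. -/
def E0 (Λ : Type u) (I : Type) (m : ℕ) : Set (Λ × (Option I → Base k m)) :=
  {x | DegT fun i => x.2 (some i)}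

variable (k) in
/-- Tuples whose old entries are degenerate or whose new entry is constant. -/
def E1 (Λ : Type u) (I : Type) (m : ℕ) : Set (Λ × (Option I → Base k m)) :=
  {x | (DegT fun i => x.2 (some i)) ∨ ¬NonConst (x.2 none)}

theorem empty_case (Λ : Type u) (j : ℕ) :
    RelAc (YS k Λ PEmpty.{1}) (degY k Λ PEmpty.{1}) (fun _ => ⊤) j := by
  intro x _ hd
  let c : ∀ m, (YS k Λ PEmpty.{1}).obj m := fun m =>
    Finsupp.mapDomain (fun y => (y.1, fun b => b.elim)) x
  have e : c (j + 1) = x := by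
    have : (fun y : Λ × (PEmpty.{1} → Base k (j + 1)) =>
        ((y.1, fun b => b.elim) : Λ × (PEmpty.{1} → Base k (j + 1)))) = id :=
      funext fun y => Prod.ext rfl (funext fun b => b.elim)
    simp only [c]
    rw [this, Finsupp.mapDomain_id]
  have h0 : (YS k Λ PEmpty.{1}).d j x = 0 := by
    ext y
    refine (Finsupp.mem_supported' _ _).1 hd y ?_
    rintro (⟨b, -⟩ | ⟨b, -⟩) <;> exact b.elim
  obtain ⟨y, hy⟩ := (YS k Λ PEmpty.{1}).isBd_const c (fun f => by
    simp only [c]
    rw [act_eq, ← Finsupp.mapDomain_comp]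
    congr 1
    exact funext fun y => Prod.ext rfl (funext fun b => b.elim)) j (by rw [e, h0])
  exact ⟨y, trivial, by rw [hy, e, sub_self]; exact zero_mem _⟩

theorem equiv_case {Λ : Type u} {I I' : Type} (e : I' ≃ I) {j : ℕ}
    (h : RelAc (YS k Λ I') (degY k Λ I') (fun _ => ⊤) j) :
    RelAc (YS k Λ I) (degY k Λ I) (fun _ => ⊤) j := by
  have := transfer (fun m (x : Λ × (I' → Base k m)) => (x.1, fun i => x.2 (e.symm i)))
    (fun _ _ _ _ => rfl) (DS k Λ I) (fun _ => Set.univ)
    (fun _ _ f _ hx => degT_map (sm k f) hx) (fun m x => ⟨?_, ?_⟩) (fun _ _ => trivial)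
    (fun m x y _ _ c => ?_) (fun m n _ _ => ⟨(n.1, fun i => n.2 (e i)), by simp⟩) h
  · simp only [Finsupp.supported_univ] at this
    exact this
  · rintro (⟨b, c⟩ | ⟨b, b', n, c⟩)
    · exact Or.inl ⟨e b, by simpa using c⟩
    · exact Or.inr ⟨e b, e b', e.injective.ne n, by simpa using c⟩
  · rintro (⟨b, c⟩ | ⟨b, b', n, c⟩)
    · exact Or.inl ⟨_, c⟩
    · exact Or.inr ⟨_, _, e.symm.injective.ne n, c⟩
  · have c1 := congrArg Prod.fst c
    refine Prod.ext c1 (funext fun i => ?_)
    simpa using congrFun (congrArg Prod.snd c) (e i)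

theorem step_const {Λ : Type u} {I : Type} {j : ℕ}
    (h : RelAc (YS k (Λ × k) I) (degY k (Λ × k) I) (fun _ => ⊤) j) :
    RelAc (YS k Λ (Option I)) (fun m => Finsupp.supported k k (E0 k Λ I m))
      (fun m => Finsupp.supported k k (E1 k Λ I m)) j := by
  refine transfer (fun m (x : (Λ × k) × (I → Base k m)) => (x.1.1, fun o => o.elim (C x.1.2) x.2))
    (fun a b f x => Prod.ext rfl (funext fun o => ?_)) (E0 k Λ I) (E1 k Λ I)
    (fun _ _ f x hx => degT_map (p := fun i => x.2 (some i)) (sm k f) hx) (fun _ _ => Iff.rfl)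
    (fun m x => Or.inr fun c => c _ rfl) (fun m x y _ _ c => ?_) (fun m n h1 h2 => ?_) h
  · cases o
    · exact (algHom_C (sm k f) _).symm
    · rfl
  · have c1 := congrArg Prod.fst c
    have c2 := congrArg Prod.snd c
    exact Prod.ext (Prod.ext c1 (C_injective _ _ (congrFun c2 none)))
      (funext fun i => congrFun c2 (some i))
  · have h3 : ¬NonConst (n.2 none) := h1.resolve_left h2
    simp only [NonConst, not_forall, not_not] at h3
    obtain ⟨c, hc⟩ := h3
    refine ⟨((n.1, c), fun i => n.2 (some i)), Prod.ext rfl (funext fun o => ?_)⟩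
    cases o
    · exact hc.symm
    · rfl

theorem step_dep [CharZero k] [IsAlgClosed k] {Λ : Type u} {I : Type} {j : ℕ}
    (h : ∀ Λ' : Type u, RelAc (YS k Λ' I) (degY k Λ' I) (fun _ => ⊤) j) :
    RelAc (YS k Λ (Option I)) (fun m => Finsupp.supported k k (E1 k Λ I m))
      (degY k Λ (Option I)) j := by
  classical
  obtain ⟨Rep, r1, r2, r3⟩ := exists_pair_reps (k := k)
  have key : ∀ (m : ℕ) (i : I) (h : Rep) (q : I → Base k m), DegT q ↔
      (DegT (Function.update q i (ev (q i) h.1.1)) ∨ ¬NonConst (ev (q i) h.1.2)) := by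
    intro m i h q
    refine ⟨fun c => Or.inl (degT_update c (fun d => const_ev d _) (dep_ev' _ _)), ?_⟩
    rintro (c | c)
    · have := degT_update (i := i) (r := q i) c (by
        rw [Function.update_self]
        exact fun d e => d (nonConst_ev e (r1 _ h.2).1)) (by
        rw [Function.update_self]
        exact (dep_ev' _ _).symm)
      rwa [Function.update_idem, Function.update_eq_self] at this
    · exact Or.inl ⟨i, fun e => c (nonConst_ev e (r1 _ h.2).2)⟩
  refine transfer (fun m (x : (Λ × I × Rep) × (I → Base k m)) => (x.1.1, fun o =>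
      o.elim (ev (x.2 x.1.2.1) x.1.2.2.1.2)
        (Function.update x.2 x.1.2.1 (ev (x.2 x.1.2.1) x.1.2.2.1.1))))
    (fun a b f x => Prod.ext rfl (funext fun o => ?_)) _ (fun _ => {x | DegT x.2})
    (fun _ _ f _ hx => hx.imp (degT_map (sm k f)) (const_map (sm k f)))
    (fun m x => key m _ _ _) (fun m x => Or.inr ⟨some x.1.2.1, none, by simp, ?_⟩)
    (fun m x y hx hy c => ?_) (fun m n h1 h2 => ?_) (h _)
  · cases o with
    | none => exact (map_ev _ _ _).symm
    | some i =>
      dsimp only [Option.elim]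
      by_cases e : i = x.1.2.1
      · rw [e, Function.update_self, Function.update_self, map_ev]
      · rw [Function.update_of_ne e, Function.update_of_ne e]
  · dsimp only [Option.elim]
    rw [Function.update_self]
    exact dep_ev _ _ _
  · obtain ⟨⟨l, i, h⟩, q⟩ := x
    obtain ⟨⟨l', i', h'⟩, q'⟩ := y
    dsimp only at hx hy c
    obtain rfl : l = l' := congrArg Prod.fst c
    have c2 := congrArg Prod.snd c
    have c3 : ev (q i) h.1.2 = ev (q' i') h'.1.2 := congrFun c2 none
    have c4 : Function.update q i (ev (q i) h.1.1) = Function.update q' i' (ev (q' i') h'.1.1) :=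
      funext fun b => congrFun c2 (some b)
    have n1 := (key m i h q).not.1 hx
    rw [not_or, not_not] at n1
    obtain rfl : i = i' := by
      by_contra e
      refine n1.1 (Or.inr ⟨i, i', e, Dep.trans (f' := ev (q i) h.1.2) ?_ ?_ n1.2⟩)
      · rw [Function.update_self]
        exact dep_ev _ _ _
      · rw [c4, c3, Function.update_self]
        exact dep_ev _ _ _
    have c5 := congrFun c4 i
    rw [Function.update_self, Function.update_self] at c5
    obtain ⟨e1, e2⟩ := r3 m _ h.2 _ h'.2 _ _ (by_contra fun d => hx (Or.inl ⟨i, d⟩)) c5 c3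
    obtain rfl : h = h' := Subtype.ext e1
    obtain rfl : q = q' := by
      funext b
      by_cases e : b = i
      · rw [e, e2]
      · have := congrFun c4 b
        rwa [Function.update_of_ne e, Function.update_of_ne e] at this
    rfl
  · have h3 : ¬((DegT fun i => n.2 (some i)) ∨ ¬NonConst (n.2 none)) := h2
    rw [not_or, not_not] at h3
    obtain ⟨i, hi⟩ : ∃ i, Dep (n.2 (some i)) (n.2 none) := by
      rcases h1 with ⟨_ | b, c⟩ | ⟨_ | b, _ | b', e, c⟩
      · exact absurd h3.2 c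
      · exact absurd (Or.inl ⟨b, c⟩) h3.1
      · exact absurd rfl e
      · exact ⟨b', c.symm⟩
      · exact ⟨b, c⟩
      · exact absurd (Or.inr ⟨b, b', fun d => e (congrArg some d), c⟩) h3.1
    obtain ⟨g, hg, q, e1, e2⟩ := r2 m _ _ (by_contra fun d => h3.1 (Or.inl ⟨i, d⟩)) h3.2 hi
    refine ⟨((n.1, i, ⟨g, hg⟩), Function.update (fun b => n.2 (some b)) i q),
      Prod.ext rfl (funext fun o => ?_)⟩
    cases o with
    | none =>
      dsimp only [Option.elim]
      rw [Function.update_self, ← e2]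
    | some b =>
      dsimp only [Option.elim]
      rw [Function.update_self, Function.update_idem, ← e1]
      exact congrFun (Function.update_eq_self i fun b => n.2 (some b)) b

theorem step_prism {Λ : Type u} {I : Type} {j : ℕ}
    (h : RelAc (YS k Λ I) (degY k Λ I) (fun _ => ⊤) j) :
    RelAc (YS k Λ (Option I)) (fun m => Finsupp.supported k k (E0 k Λ I m)) (fun _ => ⊤) j := by
  intro x _ hd
  let τ : ∀ m, Base k m → Λ × (Option I → Base k m) → Λ × (Option I → Base k m) := fun m σ y =>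
    (y.1, fun o => o.elim (σ * y.2 none) fun i => y.2 (some i))
  let H : ∀ m, Base k m → (YS k Λ (Option I)).obj m →ₗ[k] (YS k Λ (Option I)).obj m :=
    fun m σ => Finsupp.lmapDomain k k (τ m σ)
  let π : ∀ m, Λ × (Option I → Base k m) → Λ × (I → Base k m) := fun m y =>
    (y.1, fun i => y.2 (some i))
  let ι : ∀ m, Λ × (I → Base k m) → Λ × (Option I → Base k m) := fun m y =>
    (y.1, fun o => o.elim 0 y.2)
  have hι : ∀ (a b : ℕ) (f : Fin (a + 1) → Fin (b + 1)) (y : Λ × (I → Base k b)),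
      ι a (ac' f y) = ac' f (ι b y) := fun a b f y => Prod.ext rfl (funext fun o => by
    cases o
    · exact (map_zero (sm k f)).symm
    · rfl)
  have pr := prism_succ (O := k) (YS k Λ (Option I)) (YS k Λ (Option I)) H (fun f σ y => by
    simp only [H, Finsupp.lmapDomain_apply]
    rw [← Finsupp.mapDomain_comp, ← Finsupp.mapDomain_comp]
    congr 1
    refine funext fun z => Prod.ext rfl (funext fun o => ?_)
    cases o
    · exact map_mul (sm k f) _ _
    · rfl) j x
  have e1 : H (j + 1) 1 x = x := by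
    have : τ (j + 1) 1 = id := funext fun y => Prod.ext rfl (funext fun o => by
      cases o
      · exact one_mul _
      · rfl)
    simp only [H, Finsupp.lmapDomain_apply]
    rw [this, Finsupp.mapDomain_id]
  have e0 : H (j + 1) 0 x = Finsupp.mapDomain (ι (j + 1)) (Finsupp.mapDomain (π (j + 1)) x) := by
    simp only [H, Finsupp.lmapDomain_apply]
    rw [← Finsupp.mapDomain_comp]
    refine congrArg (Finsupp.mapDomain · x) (funext fun y => Prod.ext rfl (funext fun o => ?_))
    cases o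
    · exact zero_mul _
    · rfl
  obtain ⟨y, -, hy⟩ := h (Finsupp.mapDomain (π (j + 1)) x) trivial (by
    rw [d_map π fun _ _ _ _ => rfl]
    exact map_mem (φ := π j) (D := E0 k Λ I j) (E := DS k Λ I j) (fun a ha => ha) hd)
  have a1 : prismOp (YS k Λ (Option I)) (YS k Λ (Option I)) H j ((YS k Λ (Option I)).d j x) ∈
      Finsupp.supported k k (E0 k Λ I (j + 1)) := by
    rw [prismOp_apply]
    refine Submodule.sum_mem _ fun i _ => Submodule.smul_mem _ _ ?_
    exact map_mem (φ := τ (j + 1) (prismσ k j i)) (D := E0 k Λ I (j + 1))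
      (E := E0 k Λ I (j + 1)) (fun a ha => ha)
      (map_mem (φ := ac' i.predAbove) (D := E0 k Λ I j)
        (fun a ha => degT_map (p := fun b => a.2 (some b)) (sm k _) ha) hd)
  have a2 := map_mem (φ := ι (j + 1)) (D := DS k Λ I _) (E := E0 k Λ I (j + 1))
    (fun a ha => ha) hy
  rw [Finsupp.mapDomain_sub, ← d_map ι hι, ← e0] at a2
  refine ⟨prismOp (YS k Λ (Option I)) (YS k Λ (Option I)) H (j + 1) x +
    Finsupp.mapDomain (ι (j + 2)) y, trivial, ?_⟩
  rw [e1] at pr
  have a3 := add_mem a1 a2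
  rw [map_add, eq_sub_of_add_eq pr]
  convert a3 using 1
  abel

theorem relAc [CharZero k] [IsAlgClosed k] (I : Type) [Finite I] : ∀ (Λ : Type u) (j : ℕ),
    Nat.card I ≤ j → RelAc (YS k Λ I) (degY k Λ I) (fun _ => ⊤) j := by
  induction I using Finite.induction_empty_option with
  | of_equiv e ih =>
    intro Λ j hj
    exact equiv_case e (ih Λ j (by rwa [Nat.card_congr e]))
  | h_empty => exact fun Λ j _ => empty_case Λ j
  | @h_option I _ ih =>
    intro Λ j hj
    rw [Finite.card_option] at hj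
    obtain ⟨j, rfl⟩ : ∃ j', j = j' + 1 := ⟨j - 1, by omega⟩
    have m1 : ∀ m, Finsupp.supported k k (E0 k Λ I m) ≤ Finsupp.supported k k (E1 k Λ I m) :=
      fun m => Finsupp.supported_mono fun _ a => Or.inl a
    have m2 : ∀ m, Finsupp.supported k k (E1 k Λ I m) ≤ degY k Λ (Option I) m :=
      fun m => Finsupp.supported_mono fun _ a => a.elim degT_some fun c => Or.inl ⟨none, c⟩
    exact RelAc.quot (fun m => (m1 m).trans (m2 m)) (step_prism (ih Λ _ (by omega)))
      (RelAc.trans m1 m2 (step_const (ih _ _ (by omega))) (step_dep fun Λ' => ih Λ' _ (by omega)))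

end YLemma

theorem y_acyclic {k : Type u} [Field k] [CharZero k] [IsAlgClosed k] (I : Type) [Fintype I]
    (Λ : Type u) (j : ℕ) (hj : Fintype.card I ≤ j) (x : (YS k Λ I).obj (j + 1))
    (hx : (YS k Λ I).d j x ∈ degY k Λ I j) :
    ∃ y : (YS k Λ I).obj (j + 2), x - (YS k Λ I).d (j + 1) y ∈ degY k Λ I (j + 1) := by
  obtain ⟨y, -, hy⟩ := YLemma.relAc I Λ j (by rwa [Nat.card_eq_fintype_card]) x trivial hx
  exact ⟨y, hy⟩

end

end Pool.Agent.MP_e2821c_ag.Cy
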