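import Pool.Agent.Lib.MP_e2821c_ag.Cy.AltGen
import Pool.Agent.Lib.MP_e2821c_ag.Cy.Indep
import Pool.Agent.Lib.MP_e2821c_ag.Cy.YLemma

namespace Pool.Agent.MP_e2821c_ag.Cy

open MvPolynomial
open scoped TensorProduct

universe u v w

noncomputable section

variable {k : Type u} [Field k] {n m : ℕ}

theorem spanBC_mono {s s' : ℕ} (h : s ≤ s') : spanBC k n s m ≤ spanBC k n s' m :=
  Submodule.span_mono fun _ ⟨u, h1, ⟨ys, h2, h3⟩, h4⟩ => ⟨u, h1, ⟨ys, h2.trans_le h, h3⟩, h4⟩

theorem spanBC_le_spanNB (s : ℕ) : spanBC k n s m ≤ spanNB k n s m :=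
  Submodule.span_mono fun _ ⟨u, h1, h2, _, h4⟩ => ⟨u, h1, h2, h4⟩

theorem spanBC_zero : spanBC k n 0 m = ⊥ := by
  rw [spanBC, Submodule.span_eq_bot]
  rintro _ ⟨u, -, ⟨ys, h, -⟩, -⟩
  exact absurd h (Nat.not_lt_zero _)

theorem To_neg_mem {B : Type u} [CommRing B] {S : Submodule k (To k n B)} {x : To k n B}
    (h : x ∈ S) : -x ∈ S := by
  convert S.smul_mem (-1) h using 1
  module

theorem To_sub_mem {B : Type u} [CommRing B] {S : Submodule k (To k n B)} {x y : To k n B}
    (h : x ∈ S) (h' : y ∈ S) : x - y ∈ S := by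
  convert add_mem h (To_neg_mem h') using 1
  abel

variable (k n m) in
/-- Evaluation at the generic point. -/
def evT : Plus (TP k n) (Base k m) →ₗ[k] To k n (Bm k m) where
  toFun s := s.1 (ac (Base k m))
  map_add' _ _ := rfl
  map_smul' _ _ := rfl

theorem evT_apply (s : Plus (TP k n) (Base k m)) : evT k n m s = s.1 (ac (Base k m)) := rfl

variable [CharZero k] [IsAlgClosed k]

theorem spanGen_le_spanBC (s : ℕ) : spanGen k n s m ≤ spanBC k n s m := by
  rw [spanGen, Submodule.span_le]
  rintro _ ⟨I, δ, p, hI, -, rfl⟩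
  exact spanBC_mono hI (Psi_mem_spanBC δ p)

theorem spanGen_le_half (s : ℕ) : spanGen k n s m ≤ spanBC k n (n / 2 + 1) m := by
  rw [spanGen, Submodule.span_le]
  rintro _ ⟨I, δ, p, -, -, rfl⟩
  have := δ.two_mul_card_le
  exact spanBC_mono (by omega) (Psi_mem_spanBC δ p)

theorem PsiL_mem_of_degY {I : Finset (Fin n)} {x : (Dec k I × (I → Base k m)) →₀ k}
    (hx : x ∈ degY k (Dec k I) I m) : evT k n m (PsiL k I m x) ∈ spanBC k n I.card m := by
  rw [degY, Finsupp.supported_eq_span_single] at hx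
  induction hx using Submodule.span_induction with
  | mem y hy =>
    obtain ⟨a, ha, rfl⟩ := hy
    rw [PsiL, Finsupp.linearCombination_single, one_smul]
    exact Psi_mem_spanBC_of_deg a.1 ha
  | zero => rw [map_zero, map_zero]; exact zero_mem _
  | add a b _ _ ha hb => rw [map_add, map_add]; exact add_mem ha hb
  | smul c a _ ha => rw [map_smul, map_smul]; exact Submodule.smul_mem _ c ha

theorem exists_top {s : ℕ} {y : To k n (Bm k m)} (hy : y ∈ spanGen k n (s + 1) m) :
    ∃ x : ∀ I : Finset (Fin n), (Dec k I × (I → Base k m)) →₀ k,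
      y - evT k n m (∑ I ∈ Finset.univ.filter (fun I : Finset (Fin n) => I.card = s),
        PsiL k I m (x I)) ∈ spanBC k n s m := by
  classical
  induction hy using Submodule.span_induction with
  | mem y hy =>
    obtain ⟨I, δ, p, hI, -, rfl⟩ := hy
    rcases (Nat.lt_succ_iff.1 hI).eq_or_lt with h | h
    · refine ⟨Pi.single (M := fun I : Finset (Fin n) => (Dec k I × (I → Base k m)) →₀ k) I
        (Finsupp.single (δ, p) 1), ?_⟩
      rw [Finset.sum_eq_single I]
      · rw [Pi.single_eq_same, PsiL, Finsupp.linearCombination_single, one_smul]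
        change evT k n m (Psi δ p) - evT k n m (Psi δ p) ∈ _
        convert zero_mem (spanBC k n s m) using 1
        abel
      · intro J _ hJ
        rw [Pi.single_eq_of_ne hJ, map_zero]
      · intro hI'
        refine absurd ?_ hI'
        rw [Finset.mem_filter]
        exact ⟨Finset.mem_univ I, h⟩
    · refine ⟨0, ?_⟩
      simp only [Pi.zero_apply, map_zero, Finset.sum_const_zero]
      exact To_sub_mem (spanBC_mono h (Psi_mem_spanBC δ p)) (zero_mem _)
  | zero =>
    refine ⟨0, ?_⟩
    simp only [Pi.zero_apply, map_zero, Finset.sum_const_zero]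
    exact To_sub_mem (zero_mem _) (zero_mem _)
  | add a b _ _ ha hb =>
    obtain ⟨x, hx⟩ := ha
    obtain ⟨x', hx'⟩ := hb
    refine ⟨x + x', ?_⟩
    simp only [Pi.add_apply, map_add, Finset.sum_add_distrib]
    convert add_mem hx hx' using 1
    abel
  | smul c a _ ha =>
    obtain ⟨x, hx⟩ := ha
    refine ⟨c • x, ?_⟩
    simp only [Pi.smul_apply, map_smul, ← Finset.smul_sum]
    convert Submodule.smul_mem _ c hx using 1
    module

theorem d_mem_spanNB {s : ℕ} {z : Plus (TP k n) (Base k (m + 1))}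
    (hz : evT k n (m + 1) z ∈ spanNB k n s (m + 1)) :
    evT k n m ((plusS (TP k n) k).d m z) ∈ spanNB k n s m := by
  rw [SMod.d_apply, map_sum]
  refine Submodule.sum_mem _ fun i _ => ?_
  rw [map_smul]
  refine Submodule.smul_mem _ _ ?_
  obtain ⟨φ, hφ⟩ := exists_lift (Bm k (m + 1)) ((ac (Base k m)).comap (smR k i.succAbove))
  have h : Tmap k n φ (evT k n (m + 1) z) = evT k n m (plusMap (TP k n) (smR k i.succAbove) z) :=
    Plus.nat z (ac (Base k (m + 1))) ((ac (Base k m)).comap (smR k i.succAbove)) φ hφ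
  have h2 := map_mem_spanNB (sm k i.succAbove) φ hφ hz
  rw [h] at h2
  exact h2

omit [IsAlgClosed k] in
theorem alt_plus_alt (R : Type u) [CommRing R] (z : Plus (TP k n) R) :
    (alt k n).plus R ((alt k n).plus R z) = (alt k n).plus R z :=
  Plus.ext fun _ => altL_altL k n _

theorem zmain (j s : ℕ) (hs : s ≤ j + 1) (z : Plus (TP k n) (Base k (j + 1)))
    (hd : (plusS (TP k n) k).d j z = 0) (ha : (alt k n).plus _ z = z)
    (hz : evT k n (j + 1) z ∈ spanBC k n s (j + 1)) :
    (plusS (TP k n) k).IsBd (m := j + 1) z := by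
  classical
  induction s generalizing z with
  | zero =>
    rw [spanBC_zero, Submodule.mem_bot] at hz
    have : z = 0 := plus_ext (Bm k (j + 1)) hz
    exact ⟨0, by rw [this, map_zero]⟩
  | succ s ih =>
    have hz' : evT k n (j + 1) z ∈ spanGen k n (s + 1) (j + 1) := by
      rw [← ha]; exact altL_mem_spanGen hz
    obtain ⟨x, hx⟩ := exists_top hz'
    set T := Finset.univ.filter (fun I : Finset (Fin n) => I.card = s) with hT
    set z' : Plus (TP k n) (Base k (j + 1)) := z - ∑ I ∈ T, PsiL k I (j + 1) (x I) with hz'def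
    have hx' : evT k n (j + 1) z' ∈ spanBC k n s (j + 1) := hx
    have h1 : ∑ I ∈ T, PsiL k I j ((YS k (Dec k I) I).d j (x I)) =
        -(plusS (TP k n) k).d j z' := by
      rw [hz'def, map_sub, hd, zero_sub, neg_neg, map_sum]
      exact Finset.sum_congr rfl fun I _ => (PsiL_d I (x I)).symm
    have h2 : evT k n j (∑ I ∈ T, PsiL k I j ((YS k (Dec k I) I).d j (x I))) ∈
        spanNB k n s j := by
      rw [h1, map_neg]
      exact To_neg_mem (d_mem_spanNB (spanBC_le_spanNB s hx'))
    have h3 : ∀ I : Finset (Fin n), ∃ y : (YS k (Dec k I) I).obj (j + 2), I.card = s →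
        x I - (YS k (Dec k I) I).d (j + 1) y ∈ degY k (Dec k I) I (j + 1) := by
      intro I
      by_cases hI : I.card = s
      · obtain ⟨y, hy⟩ := y_acyclic I (Dec k I) j (by rw [Fintype.card_coe]; omega) (x I)
          (independent_gen (fun I => (YS k (Dec k I) I).d j (x I)) h2 I hI)
        exact ⟨y, fun _ => hy⟩
      · exact ⟨0, fun h => absurd h hI⟩
    choose y hy using h3
    set β : Plus (TP k n) (Base k (j + 2)) := ∑ I ∈ T, PsiL k I (j + 2) (y I) with hβ
    have h4 : z - (plusS (TP k n) k).d (j + 1) β =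
        z' + ∑ I ∈ T, PsiL k I (j + 1) (x I - (YS k (Dec k I) I).d (j + 1) (y I)) := by
      have : (plusS (TP k n) k).d (j + 1) β =
          ∑ I ∈ T, PsiL k I (j + 1) ((YS k (Dec k I) I).d (j + 1) (y I)) := by
        rw [hβ, map_sum]
        exact Finset.sum_congr rfl fun I _ => PsiL_d I (y I)
      rw [this, hz'def]
      simp only [map_sub, Finset.sum_sub_distrib]
      abel
    have h5 : evT k n (j + 1) (z - (plusS (TP k n) k).d (j + 1) β) ∈
        spanBC k n s (j + 1) := by
      rw [h4, map_add, map_sum]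
      refine add_mem hx' (Submodule.sum_mem _ fun I hI => ?_)
      have hI' : I.card = s := (Finset.mem_filter.1 hI).2
      exact hI' ▸ PsiL_mem_of_degY (hy I hI')
    have h6 : (alt k n).plus _ (z - (plusS (TP k n) k).d (j + 1) β) =
        z - (plusS (TP k n) k).d (j + 1) ((alt k n).plus _ β) := by
      rw [map_sub, ha]
      exact congrArg _ ((alt k n).plus_d k (j + 1) β)
    obtain ⟨b, hb⟩ := ih (by omega) ((alt k n).plus _ (z - (plusS (TP k n) k).d (j + 1) β))
      (by rw [h6, map_sub, hd, SMod.d_d, sub_zero]) (alt_plus_alt _ _)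
      (spanGen_le_spanBC s (altL_mem_spanGen h5))
    refine ⟨b + (alt k n).plus _ β, ?_⟩
    rw [map_add, hb, h6]
    exact sub_add_cancel _ _

theorem isBd_alt (j : ℕ) (hj : n < 2 * (j + 1)) (z : Plus (TP k n) (Base k (j + 1)))
    (hd : (plusS (TP k n) k).d j z = 0)
    (hz : evT k n (j + 1) z ∈ spanBC k n (n + 1) (j + 1)) :
    (plusS (TP k n) k).IsBd (m := j + 1) ((alt k n).plus _ z) :=
  zmain j (n / 2 + 1) (by omega) _
    (by rw [← (alt k n).plus_d k j z, hd, map_zero]) (alt_plus_alt _ _)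
    (spanGen_le_half (n + 1) (altL_mem_spanGen hz))

end

end Pool.Agent.MP_e2821c_ag.Cy
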